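import Mathlib

set_option autoImplicit false

/-! Homogeneity of the countable power of an Alexandroff-duplicate type space. -/

namespace Pool.Agent.H28.ADup

open Set Topology Function

section Abstract

variable {Z : Type} [TopologicalSpace Z]

def Nice (B : Set Z) : Prop :=
  IsOpen B ∧ ((∃ z, B = {z}) ∨ ∃ e : Z → Z, Continuous e ∧ Injective e ∧ range e = B)

def Copy (A : Set (ℕ → Z)) : Prop :=
  ∃ e : (ℕ → Z) → (ℕ → Z), Continuous e ∧ Injective e ∧ range e = A

def cons (z : Z) (y : ℕ → Z) : ℕ → Z
  | 0 => z
  | i + 1 => y i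

lemma copy_box : ∀ (n : ℕ) (B : ℕ → Set Z), (∀ i, Nice (B i)) → (∀ i, n ≤ i → B i = univ) →
    Copy {y : ℕ → Z | ∀ i, y i ∈ B i} := by
  intro n
  induction n with
  | zero =>
    intro B _ h
    refine ⟨id, continuous_id, injective_id, ?_⟩
    ext y
    simp [h _ (Nat.zero_le _)]
  | succ n ih =>
    intro B hB h
    obtain ⟨e, hc, hi, hr⟩ := ih (fun i => B (i + 1)) (fun i => hB _)
      (fun i hi => h _ (by omega))
    have hmem : ∀ x i, e x i ∈ B (i + 1) := fun x => by
      have : e x ∈ range e := mem_range_self x
      rw [hr] at this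
      exact this
    have hsur : ∀ y : ℕ → Z, (∀ i, y i ∈ B i) → ∃ x, e x = fun i => y (i + 1) := fun y hy => by
      have : (fun i => y (i + 1)) ∈ range e := by
        rw [hr]
        exact fun i => hy _
      exact this
    rcases (hB 0).2 with ⟨z, hz⟩ | ⟨ι, hιc, hιi, hιr⟩
    · refine ⟨fun x => cons z (e x), ?_, ?_, ?_⟩
      · refine continuous_pi fun i => ?_
        cases i with
        | zero => exact continuous_const
        | succ i => exact (continuous_apply i).comp hc
      · intro x x' hx
        apply hi
        funext i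
        exact congrFun hx (i + 1)
      · ext y
        constructor
        · rintro ⟨x, rfl⟩ i
          cases i with
          | zero => rw [hz]; rfl
          | succ i => exact hmem x i
        · intro hy
          obtain ⟨x, hx⟩ := hsur y hy
          refine ⟨x, funext fun i => ?_⟩
          cases i with
          | zero =>
            have := hy 0
            rw [hz] at this
            exact this.symm
          | succ i => exact congrFun hx i
    · refine ⟨fun x => cons (ι (x 0)) (e fun i => x (i + 1)), ?_, ?_, ?_⟩
      · refine continuous_pi fun i => ?_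
        cases i with
        | zero => exact hιc.comp (continuous_apply 0)
        | succ i =>
          exact (continuous_apply i).comp (hc.comp (continuous_pi fun j => continuous_apply (j + 1)))
      · intro x x' hx
        have h0 : x 0 = x' 0 := hιi (congrFun hx 0)
        have h1 : (fun i => x (i + 1)) = fun i => x' (i + 1) :=
          hi (funext fun i => congrFun hx (i + 1))
        funext i
        cases i with
        | zero => exact h0
        | succ i => exact congrFun h1 i
      · ext y
        constructor
        · rintro ⟨x, rfl⟩ i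
          cases i with
          | zero => rw [← hιr]; exact mem_range_self _
          | succ i => exact hmem _ i
        · intro hy
          obtain ⟨x, hx⟩ := hsur y hy
          have := hy 0
          rw [← hιr] at this
          obtain ⟨z, hz⟩ := this
          refine ⟨cons z x, funext fun i => ?_⟩
          cases i with
          | zero => exact hz
          | succ i => exact congrFun hx i

lemma open_box (n : ℕ) (B : ℕ → Set Z) (hB : ∀ i, IsOpen (B i)) (h : ∀ i, n ≤ i → B i = univ) :
    IsOpen {y : ℕ → Z | ∀ i, y i ∈ B i} := by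
  have : {y : ℕ → Z | ∀ i, y i ∈ B i} = ⋂ i ∈ Finset.range n, (fun y => y i) ⁻¹' B i := by
    ext y
    simp only [mem_setOf_eq, mem_iInter, mem_preimage, Finset.mem_range]
    refine ⟨fun hy i _ => hy i, fun hy i => ?_⟩
    by_cases hi : i < n
    · exact hy i hi
    · rw [h i (by omega)]; trivial
  rw [this]
  exact isOpen_biInter_finset fun i _ => (hB i).preimage (continuous_apply i)

def Filt (z : Z) (B : ℕ → Set Z) : Prop :=
  B 0 = univ ∧ (∀ m, B (m + 1) ⊆ B m) ∧ (∀ m, Nice (B m)) ∧
    (∀ m, B m \ B (m + 1) = ∅ ∨ Nice (B m \ B (m + 1))) ∧ ∀ z', (∀ m, z' ∈ B m) ↔ z' = z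

def cnt (k i : ℕ) : ℕ := Nat.count (fun k' => (Nat.unpair k').1 = i) k

lemma cnt_zero {k i : ℕ} (h : k ≤ i) : cnt k i = 0 := by
  unfold cnt
  rw [Nat.count_iff_forall_not]
  intro n hn hn'
  have := Nat.unpair_left_le n
  omega

lemma cnt_succ (k i : ℕ) : cnt (k + 1) i = cnt k i + if (Nat.unpair k).1 = i then 1 else 0 :=
  Nat.count_succ _ _

lemma cnt_unb (i m : ℕ) : ∃ k, cnt k i = m := by
  have hinf : {k' | (Nat.unpair k').1 = i}.Infinite :=
    infinite_of_injective_forall_mem (f := fun j => Nat.pair i j)
      (fun a b h => (Nat.pair_eq_pair.1 h).2) (fun j => by simp)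
  exact ⟨_, Nat.count_nth_of_infinite hinf m⟩

/-- The filtration of the power at a point. -/
lemma exists_W (hZ : ∀ z : Z, ∃ B, Filt z B) (y : ℕ → Z) :
    ∃ W : ℕ → Set (ℕ → Z), W 0 = univ ∧ (∀ k, W (k + 1) ⊆ W k) ∧ (∀ k, IsOpen (W k) ∧ Copy (W k)) ∧
      (∀ k, W k \ W (k + 1) = ∅ ∨ (IsOpen (W k \ W (k + 1)) ∧ Copy (W k \ W (k + 1)))) ∧
      ∀ x, (∀ k, x ∈ W k) ↔ x = y := by
  choose B hB using hZ
  have hanti : ∀ z, Antitone (B z) := fun z => antitone_nat_of_succ_le (hB z).2.1
  refine ⟨fun k => {x | ∀ i, x i ∈ B (y i) (cnt k i)}, ?_, ?_, ?_, ?_, ?_⟩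
  · ext x
    simp [cnt_zero (Nat.zero_le _), (hB _).1]
  · intro k x hx i
    exact hanti _ (by rw [cnt_succ]; omega) (hx i)
  · intro k
    have h : ∀ i, k ≤ i → B (y i) (cnt k i) = univ := fun i hi => by rw [cnt_zero hi, (hB _).1]
    exact ⟨open_box k _ (fun i => ((hB _).2.2.1 _).1) h, copy_box k _ (fun i => (hB _).2.2.1 _) h⟩
  · intro k
    classical
    set j := (Nat.unpair k).1 with hj
    have hjk : j ≤ k := Nat.unpair_left_le k
    let B' : ℕ → Set Z := fun i =>
      if i = j then B (y i) (cnt k i) \ B (y i) (cnt k i + 1) else B (y i) (cnt k i)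
    have heq : {x : ℕ → Z | ∀ i, x i ∈ B (y i) (cnt k i)} \
        {x | ∀ i, x i ∈ B (y i) (cnt (k + 1) i)} = {x | ∀ i, x i ∈ B' i} := by
      ext x
      simp only [mem_diff, mem_setOf_eq, not_forall]
      constructor
      · rintro ⟨h1, i, h2⟩
        have hij : i = j := by
          by_contra hne
          rw [cnt_succ, if_neg (fun h => hne h.symm)] at h2
          exact h2 (h1 i)
        subst hij
        rw [cnt_succ, if_pos rfl] at h2
        intro i'
        by_cases h : i' = j
        · simp only [B', if_pos h]
          subst h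
          exact ⟨h1 _, h2⟩
        · simp only [B', if_neg h]
          exact h1 _
      · intro h
        refine ⟨fun i => ?_, j, ?_⟩
        · have := h i
          by_cases hi : i = j
          · simp only [B', if_pos hi] at this
            exact this.1
          · simp only [B', if_neg hi] at this
            exact this
        · have := h j
          simp only [B', if_pos rfl] at this
          rw [cnt_succ, if_pos rfl]
          exact this.2
    show _ \ _ = ∅ ∨ (IsOpen (_ \ _) ∧ Copy (_ \ _))
    rw [heq]
    rcases (hB (y j)).2.2.2.1 (cnt k j) with h0 | hn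
    · left
      ext x
      simp only [mem_setOf_eq, mem_empty_iff_false, iff_false]
      intro h
      have := h j
      simp only [B', if_pos rfl, h0] at this
      exact this
    · right
      have hnice : ∀ i, Nice (B' i) := fun i => by
        by_cases hi : i = j
        · simp only [B', if_pos hi]
          subst hi
          exact hn
        · simp only [B', if_neg hi]
          exact (hB _).2.2.1 _
      have h : ∀ i, k + 1 ≤ i → B' i = univ := fun i hi => by
        simp only [B', if_neg (show i ≠ j by omega)]
        rw [cnt_zero (by omega), (hB _).1]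
      exact ⟨open_box _ _ (fun i => (hnice i).1) h, copy_box _ _ hnice h⟩
  · intro x
    constructor
    · intro h
      funext i
      refine ((hB (y i)).2.2.2.2 _).1 fun m => ?_
      obtain ⟨k, hk⟩ := cnt_unb i m
      rw [← hk]
      exact h k i
    · rintro rfl k i
      exact ((hB (x i)).2.2.2.2 _).2 rfl _

lemma exists_onePoint [CompactSpace Z] [T2Space Z] [Nontrivial Z]
    (hZ : ∀ z : Z, ∃ B, Filt z B) (y : ℕ → Z) :
    ∃ Φ : OnePoint (ℕ × (ℕ → Z)) ≃ₜ (ℕ → Z), Φ OnePoint.infty = y := by
  classical
  obtain ⟨W, h0, hs, hW, hD, hy⟩ := exists_W hZ y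
  have hanti : Antitone W := antitone_nat_of_succ_le hs
  let p : ℕ → Prop := fun k => (W k \ W (k + 1)).Nonempty
  have hinf : (setOf p).Infinite := by
    intro hfin
    obtain ⟨n, hn⟩ := hfin.bddAbove
    have hst : ∀ k, W (n + 1) ⊆ W (n + 1 + k) := by
      intro k
      induction k with
      | zero => exact subset_rfl
      | succ k ih =>
        intro x hx
        by_contra hne
        have : n + 1 + k ∈ setOf p := ⟨x, ih hx, hne⟩
        have := hn this
        omega
    obtain ⟨e, -, hi, hr⟩ := (hW (n + 1)).2
    have hall : ∀ x, e x = y := fun x => by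
      refine (hy _).1 fun k => ?_
      have : e x ∈ W (n + 1) := hr ▸ mem_range_self x
      exact hanti (by omega) (hst k this)
    obtain ⟨a, b, hab⟩ := exists_pair_ne (ℕ → Z)
    exact hab (hi ((hall a).trans (hall b).symm))
  have hcopy : ∀ n, IsOpen (W (Nat.nth p n) \ W (Nat.nth p n + 1)) ∧
      Copy (W (Nat.nth p n) \ W (Nat.nth p n + 1)) := fun n => by
    rcases hD (Nat.nth p n) with h | h
    · exact absurd h (Nat.nth_mem_of_infinite hinf n).ne_empty
    · exact h
  choose e hec hei her using fun n => (hcopy n).2
  have hmem : ∀ n x, e n x ∈ W (Nat.nth p n) \ W (Nat.nth p n + 1) := fun n x =>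
    her n ▸ mem_range_self x
  let f : ℕ × (ℕ → Z) → (ℕ → Z) := fun q => e q.1 q.2
  have hf : IsOpenEmbedding f := by
    refine IsOpenEmbedding.of_continuous_injective_isOpenMap ?_ ?_ ?_
    · exact continuous_prod_of_discrete_left.2 hec
    · rintro ⟨n, x⟩ ⟨n', x'⟩ h
      change e n x = e n' x' at h
      have h1 := hmem n x
      have h2 := hmem n' x'
      have hnn : Nat.nth p n = Nat.nth p n' := by
        rcases lt_trichotomy (Nat.nth p n) (Nat.nth p n') with hl | hl | hl
        · exact absurd (hanti hl (h ▸ h2.1)) h1.2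
        · exact hl
        · exact absurd (hanti hl (h ▸ h1.1)) h2.2
      obtain rfl := Nat.nth_injective hinf hnn
      rw [hei n h]
    · refine isOpenMap_prod_of_discrete_left.2 fun n => ?_
      have : IsOpenEmbedding (e n) :=
        ⟨((hec n).isClosedEmbedding (hei n)).isEmbedding, by rw [her n]; exact (hcopy n).1⟩
      exact this.isOpenMap
  have hr : range f = {y}ᶜ := by
    ext x
    constructor
    · rintro ⟨⟨n, x⟩, rfl⟩ h
      exact (hmem n x).2 (((hy _).2 h) _)
    · intro hx
      have hex : ∃ k, x ∉ W (k + 1) := by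
        by_contra hne
        push Not at hne
        exact hx ((hy x).1 fun k => hs k (hne k))
      have hk : x ∈ W (Nat.find hex) := by
        rcases h : Nat.find hex with _ | k
        · rw [h0]; trivial
        · by_contra hne
          exact Nat.find_min hex (show k < Nat.find hex by omega) hne
      have hp : Nat.find hex ∈ range (Nat.nth p) := by
        rw [Nat.range_nth_of_infinite hinf]
        exact ⟨x, hk, Nat.find_spec hex⟩
      obtain ⟨n, hn⟩ := hp
      have : x ∈ range (e n) := by
        rw [her n, hn]
        exact ⟨hk, Nat.find_spec hex⟩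
      obtain ⟨x', hx'⟩ := this
      exact ⟨(n, x'), hx'⟩
  exact ⟨OnePoint.equivOfIsEmbeddingOfRangeEq y f hf.isEmbedding hr,
    OnePoint.equivOfIsEmbeddingOfRangeEq_apply_infty y f hf.isEmbedding hr⟩

lemma homog [CompactSpace Z] [T2Space Z] [Nontrivial Z]
    (hZ : ∀ z : Z, ∃ B, Filt z B) (y y' : ℕ → Z) : ∃ h : (ℕ → Z) ≃ₜ (ℕ → Z), h y = y' := by
  obtain ⟨Φ, hΦ⟩ := exists_onePoint hZ y
  obtain ⟨Φ', hΦ'⟩ := exists_onePoint hZ y'
  refine ⟨Φ.symm.trans Φ', ?_⟩
  rw [← hΦ, ← hΦ']
  simp

lemma exists_V [CompactSpace Z] [T2Space Z] (hZ : ∀ z : Z, ∃ B, Filt z B) (y : ℕ → Z) :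
    ∃ V : ℕ → Set (ℕ → Z), V 0 = univ ∧ Antitone V ∧ (∀ k, IsClopen (V k)) ∧
      ∀ x, (∀ k, x ∈ V k) ↔ x = y := by
  obtain ⟨W, h0, hs, hW, -, hy⟩ := exists_W hZ y
  refine ⟨W, h0, antitone_nat_of_succ_le hs, fun k => ⟨?_, (hW k).1⟩, hy⟩
  obtain ⟨e, hc, -, hr⟩ := (hW k).2
  rw [← hr]
  exact (isCompact_range hc).isClosed

end Abstract

section Concrete

abbrev Cn : Type := ℕ → Bool

structure D : Type where
  c : Cn
  n : ℕ

instance : TopologicalSpace D := ⊥
instance : DiscreteTopology D := ⟨rfl⟩

def ZS : Set (Cn × OnePoint D) := {z | ∀ d : D, z.2 = (d : OnePoint D) → d.c = z.1}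

abbrev ZZ : Type := ZS

lemma isOpen_pt (d : D) : IsOpen ({(d : OnePoint D)} : Set (OnePoint D)) := by
  have := OnePoint.isOpen_image_coe.2 (isOpen_discrete ({d} : Set D))
  simpa using this

lemma isClosed_ZS : IsClosed ZS := by
  have : ZS = ⋂ d : D, ((Prod.snd ⁻¹' {(d : OnePoint D)})ᶜ ∪ Prod.fst ⁻¹' {d.c}) := by
    ext z
    simp only [ZS, mem_setOf_eq, mem_iInter, mem_union, mem_compl_iff, mem_preimage,
      mem_singleton_iff]
    refine forall_congr' fun d => ?_
    constructor
    · intro h
      by_cases h' : z.2 = d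
      · exact Or.inr (h h').symm
      · exact Or.inl h'
    · rintro (h | h) h'
      · exact absurd h' h
      · exact h.symm
  rw [this]
  exact isClosed_iInter fun d => IsClosed.union
    ((isOpen_pt d).preimage continuous_snd).isClosed_compl
    (isClosed_singleton.preimage continuous_fst)

instance : CompactSpace ZZ := isCompact_iff_compactSpace.1 isClosed_ZS.isCompact

def iso (d : D) : ZZ := ⟨(d.c, (d : OnePoint D)), fun d' h => by
  rw [OnePoint.coe_eq_coe.1 h]⟩

def non (c : Cn) : ZZ := ⟨(c, OnePoint.infty), fun d' h => absurd h (OnePoint.infty_ne_coe d')⟩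

lemma eq_iso {z : ZZ} {d : D} : z = iso d ↔ z.1.2 = (d : OnePoint D) := by
  constructor
  · rintro rfl
    rfl
  · intro h
    exact Subtype.ext (Prod.ext (z.2 d h).symm h)

lemma isOpen_iso (d : D) : IsOpen ({iso d} : Set ZZ) := by
  have : ({iso d} : Set ZZ) = (fun z : ZZ => z.1.2) ⁻¹' {(d : OnePoint D)} := by
    ext z
    exact eq_iso
  rw [this]
  exact (isOpen_pt d).preimage (continuous_snd.comp continuous_subtype_val)

lemma cases_ZZ (z : ZZ) : (∃ d, z = iso d) ∨ z = non z.1.1 := by
  by_cases h : z.1.2 = OnePoint.infty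
  · exact Or.inr (Subtype.ext (Prod.ext rfl h))
  · obtain ⟨d, hd⟩ := OnePoint.ne_infty_iff_exists.1 h
    exact Or.inl ⟨d, eq_iso.2 hd.symm⟩

lemma iso_inj : Injective iso := fun d d' h => OnePoint.coe_eq_coe.1 (eq_iso.1 h)

instance : Nontrivial ZZ := ⟨⟨iso ⟨fun _ => true, 0⟩, iso ⟨fun _ => true, 1⟩, fun h => by
  have := iso_inj h
  simp at this⟩⟩

def SS (c : Cn) (a : ℕ) (F : Set ℕ) : Set ZZ :=
  {z | (∀ i < a, z.1.1 i = c i) ∧ ∀ n ∈ F, z ≠ iso ⟨c, n⟩}

lemma nice_SS (c : Cn) (a : ℕ) (F : Set ℕ) (hF : F.Finite) : Nice (SS c a F) := by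
  classical
  constructor
  · have : SS c a F = (⋂ i ∈ Finset.range a, (fun z : ZZ => z.1.1 i) ⁻¹' {c i}) ∩
        ⋂ n ∈ F, {iso ⟨c, n⟩}ᶜ := by
      ext z
      simp [SS]
    rw [this]
    refine IsOpen.inter (isOpen_biInter_finset fun i _ => ?_)
      (hF.isOpen_biInter fun n _ => isOpen_compl_singleton)
    exact (isOpen_discrete _).preimage
      ((continuous_apply i).comp (continuous_fst.comp continuous_subtype_val))
  · right
    have hinf : {n | n ∉ F}.Infinite := hF.infinite_compl
    let σ : ℕ → ℕ := Nat.nth (fun n => n ∉ F)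
    have hσi : Injective σ := Nat.nth_injective hinf
    have hσr : range σ = {n | n ∉ F} := Nat.range_nth_of_infinite hinf
    let ι : Cn → Cn := fun x i => if i < a then c i else x (i - a)
    have hιc : Continuous ι := continuous_pi fun i => by
      by_cases h : i < a
      · simp only [ι, if_pos h]
        exact continuous_const
      · simp only [ι, if_neg h]
        exact continuous_apply _
    have hιi : Injective ι := fun x x' h => funext fun i => by
      have := congrFun h (i + a)
      simpa [ι] using this
    have hιs : ∀ y : Cn, (∀ i < a, y i = c i) → ι (fun i => y (i + a)) = y := fun y hy =>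
      funext fun i => by
        by_cases h : i < a
        · simp only [ι, if_pos h, hy i h]
        · simp only [ι, if_neg h]
          congr 1
          omega
    let j : D → D := fun d => ⟨ι d.c, if ι d.c = c then σ d.n else d.n⟩
    have hji : Injective j := by
      rintro ⟨x, n⟩ ⟨x', n'⟩ h
      simp only [j, D.mk.injEq] at h
      obtain ⟨h1, h2⟩ := h
      obtain rfl := hιi h1
      by_cases h : ι x = c
      · rw [if_pos h, if_pos h] at h2
        rw [hσi h2]
      · rw [if_neg h, if_neg h] at h2
        rw [h2]
    have hjc : Continuous (OnePoint.map j) := by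
      refine OnePoint.continuous_map continuous_of_discreteTopology ?_
      rw [Filter.coclosedCompact_eq_cocompact, Filter.cocompact_eq_cofinite]
      exact hji.tendsto_cofinite
    let e : ZZ → ZZ := fun z => ⟨(ι z.1.1, OnePoint.map j z.1.2), fun d hd => by
      rcases cases_ZZ z with ⟨d', rfl⟩ | h
      · change ((j d' : D) : OnePoint D) = d at hd
        rw [← OnePoint.coe_eq_coe.1 hd]
        rfl
      · rw [h] at hd
        exact absurd hd (OnePoint.infty_ne_coe d)⟩
    have he1 : ∀ d, e (iso d) = iso (j d) := fun d => rfl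
    have he2 : ∀ x, e (non x) = non (ι x) := fun x => rfl
    refine ⟨e, ?_, ?_, ?_⟩
    · refine Continuous.subtype_mk (Continuous.prodMk ?_ ?_) _
      · exact hιc.comp (continuous_fst.comp continuous_subtype_val)
      · exact hjc.comp (continuous_snd.comp continuous_subtype_val)
    · intro z z' h
      have h1 : z.1.1 = z'.1.1 := hιi (congrArg (fun w : ZZ => w.1.1) h)
      have h2 : OnePoint.map j z.1.2 = OnePoint.map j z'.1.2 := congrArg (fun w : ZZ => w.1.2) h
      exact Subtype.ext (Prod.ext h1 (Option.map_injective hji h2))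
    · ext z
      constructor
      · rintro ⟨w, rfl⟩
        refine ⟨fun i hi => if_pos hi, fun n hn h => ?_⟩
        rcases cases_ZZ w with ⟨d, rfl⟩ | hw
        · rw [he1] at h
          have h' := iso_inj h
          simp only [j, D.mk.injEq] at h'
          rw [if_pos h'.1] at h'
          have : n ∈ range σ := ⟨_, h'.2⟩
          rw [hσr] at this
          exact this hn
        · rw [hw, he2] at h
          exact OnePoint.infty_ne_coe _ (eq_iso.1 h)
      · rintro ⟨h1, h2⟩
        rcases cases_ZZ z with ⟨⟨x, n⟩, rfl⟩ | hz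
        · have hx := hιs x h1
          by_cases hc : x = c
          · subst hc
            have : n ∈ range σ := by
              rw [hσr]
              exact fun hn => h2 n hn rfl
            obtain ⟨n', hn'⟩ := this
            refine ⟨iso ⟨fun i => x (i + a), n'⟩, ?_⟩
            rw [he1]
            simp only [j, hx, if_pos, hn']
          · refine ⟨iso ⟨fun i => x (i + a), n⟩, ?_⟩
            rw [he1]
            simp only [j, hx, if_neg hc]
        · refine ⟨non fun i => z.1.1 (i + a), ?_⟩
          rw [he2, hιs _ h1, ← hz]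

lemma nice_iso (d : D) : Nice ({iso d} : Set ZZ) := ⟨isOpen_iso d, Or.inl ⟨_, rfl⟩⟩

lemma filt (z : ZZ) : ∃ B, Filt z B := by
  have huniv : ∀ c, SS c 0 ∅ = univ := fun c => by
    ext z
    simp [SS]
  rcases cases_ZZ z with ⟨⟨c, n⟩, rfl⟩ | hz
  · refine ⟨fun m => if m = 0 then univ else {iso ⟨c, n⟩}, if_pos rfl, ?_, ?_, ?_, ?_⟩
    · intro m
      by_cases h : m = 0 <;> simp [h]
    · intro m
      by_cases h : m = 0
      · simp only [if_pos h]
        rw [← huniv c]
        exact nice_SS _ _ _ finite_empty
      · simp only [if_neg h]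
        exact nice_iso _
    · intro m
      by_cases h : m = 0
      · right
        have : (univ : Set ZZ) \ {iso ⟨c, n⟩} = SS c 0 {n} := by
          ext z
          simp [SS]
        simp only [h, if_pos, zero_add, one_ne_zero, if_false, this]
        exact nice_SS _ _ _ (finite_singleton n)
      · left
        simp [h]
    · intro z'
      constructor
      · intro h
        simpa using h 1
      · rintro rfl m
        by_cases h : m = 0 <;> simp [h]
  · set c := z.1.1 with hc
    refine ⟨fun m => SS c (m / 2) (Iio ((m + 1) / 2)), ?_, ?_, ?_, ?_, ?_⟩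
    · simpa using huniv c
    · rintro m w ⟨h1, h2⟩
      exact ⟨fun i hi => h1 i (by omega), fun n hn => h2 n (by simp only [mem_Iio] at hn ⊢; omega)⟩
    · intro m
      exact nice_SS _ _ _ (finite_Iio _)
    · intro m
      right
      rcases Nat.even_or_odd' m with ⟨k, rfl | rfl⟩
      · have : SS c (2 * k / 2) (Iio ((2 * k + 1) / 2)) \
            SS c ((2 * k + 1) / 2) (Iio ((2 * k + 1 + 1) / 2)) = {iso ⟨c, k⟩} := by
          rw [show 2 * k / 2 = k by omega, show (2 * k + 1) / 2 = k by omega,
            show (2 * k + 1 + 1) / 2 = k + 1 by omega]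
          ext w
          simp only [SS, mem_diff, mem_setOf_eq, mem_Iio, mem_singleton_iff]
          constructor
          · rintro ⟨⟨h1, h2⟩, h3⟩
            by_contra hne
            refine h3 ⟨h1, fun n hn => ?_⟩
            rcases Nat.lt_succ_iff_lt_or_eq.1 hn with h | rfl
            · exact h2 n h
            · exact hne
          · rintro rfl
            refine ⟨⟨fun i _ => rfl, fun n hn h => ?_⟩, fun h => h.2 k (by omega) rfl⟩
            have := iso_inj h
            simp only [D.mk.injEq, true_and] at this
            omega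
        simp only [this]
        exact nice_iso _
      · have : SS c ((2 * k + 1) / 2) (Iio ((2 * k + 1 + 1) / 2)) \
            SS c ((2 * k + 1 + 1) / 2) (Iio ((2 * k + 1 + 1 + 1) / 2)) =
            SS (update c k (!c k)) (k + 1) ∅ := by
          rw [show (2 * k + 1) / 2 = k by omega, show (2 * k + 1 + 1 + 1) / 2 = k + 1 by omega,
            show (2 * k + 1 + 1) / 2 = k + 1 by omega]
          ext w
          simp only [SS, mem_diff, mem_setOf_eq, mem_Iio, mem_empty_iff_false, false_imp_iff,
            implies_true, and_true]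
          constructor
          · rintro ⟨⟨h1, h2⟩, h3⟩ i hi
            rcases Nat.lt_succ_iff_lt_or_eq.1 hi with h | rfl
            · rw [update_of_ne h.ne, h1 i h]
            · rw [update_self]
              by_contra hne
              refine h3 ⟨fun i' hi' => ?_, h2⟩
              rcases Nat.lt_succ_iff_lt_or_eq.1 hi' with h | rfl
              · exact h1 i' h
              · revert hne
                cases w.1.1 i' <;> cases c i' <;> simp
          · intro h
            have hk : w.1.1 k ≠ c k := by
              rw [h k (by omega), update_self]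
              cases c k <;> simp
            refine ⟨⟨fun i hi => ?_, fun n _ hw => hk ?_⟩, fun h' => hk (h'.1 k (by omega))⟩
            · rw [h i (by omega), update_of_ne hi.ne]
            · rw [hw]
              rfl
        simp only [this]
        exact nice_SS _ _ _ finite_empty
    · intro w
      constructor
      · intro h
        have h1 : w.1.1 = c := funext fun i => (h (2 * i + 2)).1 i (by omega)
        rcases cases_ZZ w with ⟨⟨x, n⟩, rfl⟩ | hw
        · obtain rfl : x = c := h1
          exact absurd rfl ((h (2 * n + 2)).2 n (by simp only [mem_Iio]; omega))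
        · rw [hw, hz, h1]
      · rintro rfl m
        refine ⟨fun i _ => rfl, fun n _ h => ?_⟩
        rw [hz] at h
        exact OnePoint.infty_ne_coe _ (eq_iso.1 h)

open Cardinal in
lemma card_Y : #(ℕ → ZZ) ≤ 𝔠 := by
  have hC : #Cn = 𝔠 := by simp
  have hD : #D ≤ 𝔠 := by
    have : #D ≤ #(Cn × ℕ) := mk_le_of_injective (f := fun d => (d.c, d.n)) (by
      rintro ⟨a, b⟩ ⟨a', b'⟩ h
      simp only [Prod.mk.injEq] at h
      rw [h.1, h.2])
    simpa using this
  have hO : #(OnePoint D) ≤ 𝔠 := by
    have : #(OnePoint D) = #D + 1 := mk_option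
    rw [this]
    exact (add_le_add hD (one_le_aleph0.trans aleph0_le_continuum)).trans continuum_add_self.le
  have hZ : #ZZ ≤ 𝔠 := by
    refine (mk_set_le _).trans ?_
    rw [mk_prod, lift_id, lift_id, hC]
    exact (mul_le_mul_right hO _).trans continuum_mul_self.le
  rw [← power_def, mk_nat]
  exact (power_le_power_right hZ).trans continuum_power_aleph0.le

end Concrete

end Pool.Agent.H28.ADup
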