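import Mathlib

set_option autoImplicit false
set_option maxRecDepth 100000

namespace Pool.Agent.H28.Acyc

def NB : ℕ := 176313407110680001376861409091006403709890743790497814763888801812823504793704876113848931434625233593104670476152444310730719269246822367817677187678037473757635023554126998902442431715468658945700386367147769222173878859289297222175531849361385043772541074830479067604461127270398882767423762933448024259749982998965087209380285388343780279686692051035770392620333296791067459532444330077989694951345579522383476591159661280181027682339618400497085493409595952867973808484798667638026369368789228169789509363982274417407283060635058810237882988495280908279821871142703953468710140735051444521353082532587624592828838132250693364628070138254508174889601840301652007173752205276125584038383752113176090536871217203299919328343868855991895691065077363152697838116028912313158099552650634398801229799804460662741953614163687768347643592331236629199539099375176168987447924342898818549910300496093408360637052602881355195316520299124403351732824129996106737111991488763224292287779415448903570701398174427314012071158545238300209888818266424797272575457888546291637871453184395294895784784423290209684262706681532435238262726354691184122271905989081968662164127482079567528474564648258970919201609752183463428608879219942522572056734072299667983941352336657959209243558363955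
def EU : ℕ := 61330306033978040341564211642941175022726830150706909901904391146061766656656400161761213864537544057216105965419418524644193331122098764194132929563395337261769358770346202985124468385652337661080897061486170757432289059231730692350687686856126291882645494697524044123119545452303608728777892499748584818185
def EV : ℕ := 703159748864310656334296174154208281825182516409687595386329061630446234218553764334115832484817456509822780694178469293930290908961793506567929063214376197036033683124059491035612887232677075192877269455200211162608582675853421442895193347142553927795451964250674634872547828082969151627328403052253874954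
def COL : ℕ := 44450404146173495860155882425632984327455360623486747573719538861834151008545
def OM : ℕ := 38597363079105398508001537591624933387251633789574491114573056873956781326335
def RK : ℕ := 203380945711196100542297089415994799608043868142923420497996080519720562830656309255204884471575552518199529902721545166512537687712837200734974267774116439413204575454907987660616845066075762617728182679849296023284432180456618542184394034944526489746622449053151403500789599728849013874226211552972322961307149965639998564619652760683093851407475461130131746929668126734211986977480014470703912128399727398299639371306309954844171661555224567147467668168266654142801261928846132573180838993610154859531004037761124821228397173787731268029686158069304058663803438379713980722827880340829854910632828390988932789810125609250689773229644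

def dg (x k : ℕ) : ℕ := Nat.mod (Nat.shiftRight x (Nat.mul 8 k)) 256
def eid (a b : ℕ) : ℕ :=
  if dg NB (6 * a) = b then dg NB (6 * a + 1) else if dg NB (6 * a + 2) = b then dg NB (6 * a + 3)
  else if dg NB (6 * a + 4) = b then dg NB (6 * a + 5) else 255
def adj (a b : ℕ) : Bool := Nat.blt (eid a b) 128
def eu (j : ℕ) : ℕ := dg EU j
def ev (j : ℕ) : ℕ := dg EV j
def col (j : ℕ) : ℕ := Nat.shiftRight COL (2 * j) % 4
def om (j : ℕ) : ℕ := Nat.shiftRight OM (2 * j) % 4
def rk (r v : ℕ) : ℕ := dg RK (r * 88 + v)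
def oth (j x : ℕ) : ℕ := if eu j = x then ev j else eu j

lemma eid_symm : ∀ a b : Fin 88, eid a.val b.val = eid b.val a.val := by decide +kernel

def G : SimpleGraph (Fin 88) where
  Adj a b := adj a.val b.val = true
  symm := ⟨fun a b h => by unfold adj at *; rwa [eid_symm b a]⟩
  loopless := ⟨by decide +kernel⟩

instance : DecidableRel G.Adj := fun a b => inferInstanceAs (Decidable (adj a.val b.val = true))

def fu (j : ℕ) : Fin 88 := ⟨eu j % 88, Nat.mod_lt _ (by norm_num)⟩
def fv (j : ℕ) : Fin 88 := ⟨ev j % 88, Nat.mod_lt _ (by norm_num)⟩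

lemma eid_ends : ∀ a b : Fin 88, G.Adj a b →
    (fu (eid a.val b.val) = a ∧ fv (eid a.val b.val) = b) ∨
    (fu (eid a.val b.val) = b ∧ fv (eid a.val b.val) = a) := by decide +kernel
lemma ends_adj : ∀ j < 128, G.Adj (fu j) (fv j) ∧ eid (fu j).val (fv j).val = j := by
  decide +kernel
lemma col_lt : ∀ a b : Fin 88, G.Adj a b → col (eid a.val b.val) < 3 := by decide +kernel
lemma base3 : ∀ a b : Fin 88, G.Adj a b → ∀ c : Fin 88, G.Adj b c → a ≠ c →
    col (eid a.val b.val) ≠ col (eid b.val c.val) := by decide +kernel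
def up (r : ℕ) (v a : Fin 88) : Prop :=
  G.Adj v a ∧ col (eid v.val a.val) ≠ r ∧ rk r v.val ≤ rk r a.val
instance (r : ℕ) (v a : Fin 88) : Decidable (up r v a) := by unfold up; infer_instance
lemma rank_ok : ∀ r < 3, ∀ v a : Fin 88, up r v a → ∀ b : Fin 88, up r v b → a = b := by
  decide +kernel

def wP (a b d i j : ℕ) : Bool :=
  decide (a < 88) && decide (b < 88) && decide (d < 88) && adj a b && adj b d && a != d &&
    eid a b == i && eid b d == j
def vP (i j : ℕ) : Bool :=
  wP (eu i) (ev i) (oth j (ev i)) i j || wP (ev i) (eu i) (oth j (eu i)) i j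
def w4 (a b d e i j k l : ℕ) : Bool := wP a b d i j && wP b d e j k && wP d e a k l
def v4' (a b i j k l : ℕ) : Bool := w4 a b (oth j b) (oth k (oth j b)) i j k l
def v4 (i j k l : ℕ) : Bool := v4' (eu i) (ev i) i j k l || v4' (ev i) (eu i) i j k l
def w6 (a b d e f g i j k l p q : ℕ) : Bool :=
  wP a b d i j && wP b d e j k && wP d e f k l && wP e f g l p && wP f g a p q &&
    a != e && b != f && d != g && b != g
def v6' (a b i j k l p q : ℕ) : Bool :=
  w6 a b (oth j b) (oth k (oth j b)) (oth l (oth k (oth j b))) (oth p (oth l (oth k (oth j b))))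
    i j k l p q
def v6 (i j k l p q : ℕ) : Bool := v6' (eu i) (ev i) i j k l p q || v6' (ev i) (eu i) i j k l p q
def vH (i p p' x y z : ℕ) : Bool := v4 i x p y || v6 i x p y p' z

abbrev T5 := ℕ × ℕ × ℕ × ℕ × ℕ

def chk : List (ℕ × List ℕ × List T5) → ℕ → Bool
  | [], i => i == 128
  | d :: r, i => decide (i < 128) && d.1 == om i &&
      d.2.1.all (fun k => decide (k < i) && vP i (i - 1 - k)) &&
      d.2.2.all (fun t => decide (t.1 < i) && decide (t.2.1 < i) && decide (t.2.2.1 < i) &&
        decide (t.2.2.2.1 < i) && decide (t.2.2.2.2 < i) &&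
        vH i (i - 1 - t.1) (i - 1 - t.2.1) (i - 1 - t.2.2.1) (i - 1 - t.2.2.2.1)
          (i - 1 - t.2.2.2.2)) && chk r (i + 1)

def D : List (ℕ × List ℕ × List T5) :=
  [(3, [], []), (3, [], []), (3, [0, 1], []), (3, [0, 2], []),
   (3, [1, 2], []), (3, [0, 1], [(2,2,0,1,1)]), (3, [0, 2], []), (3, [1, 2], []),
   (3, [0, 1], [(2,2,0,1,1), (3,4,0,5,1)]), (3, [0, 2], []), (3, [1, 2], []), (3, [], []),
   (3, [0, 1], []), (3, [0, 2], []), (3, [1, 2], []), (3, [0, 1], [(2,2,0,1,1)]),
   (3, [0, 2], []), (3, [1, 2], []), (3, [0, 1], [(2,2,0,1,1), (3,4,0,5,1)]), (3, [0, 2], []),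
   (3, [1, 2], []), (3, [], []), (3, [0, 2], []), (3, [0, 1], []),
   (3, [1, 4], []), (3, [0, 1], [(2,2,0,1,1)]), (3, [0, 2], []), (3, [1, 2], []),
   (3, [0, 1], [(2,2,0,1,1), (3,4,0,5,1)]), (3, [0, 2], []), (3, [1, 2], []), (3, [1, 21], []),
   (3, [0, 22], []), (3, [1, 3], []), (3, [0, 1], [(2,2,0,1,1)]), (3, [0, 2], []),
   (3, [1, 2], []), (3, [0, 1], [(2,2,0,1,1), (3,4,0,5,1)]), (3, [0, 2], []), (3, [1, 2], []),
   (3, [], []), (3, [0, 2], []), (3, [0, 1], []), (3, [1, 4], []),
   (3, [0, 1], [(2,2,0,1,1)]), (3, [0, 2], []), (3, [1, 2], []), (3, [0, 1], [(2,2,0,1,1), (3,4,0,5,1)]),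
   (3, [0, 2], []), (3, [1, 2], []), (3, [0, 19], []), (3, [0, 1], []),
   (3, [1, 21], []), (3, [0, 1], [(2,2,0,1,1)]), (3, [0, 2], []), (3, [1, 2], []),
   (3, [0, 1], [(2,2,0,1,1), (3,4,0,5,1)]), (3, [0, 2], []), (3, [1, 2], []), (3, [1, 19], []),
   (3, [0, 20], []), (3, [1, 3], []), (3, [0, 1], [(2,2,0,1,1)]), (3, [0, 2], []),
   (3, [1, 2], []), (3, [0, 1], [(2,2,0,1,1), (3,4,0,5,1)]), (3, [0, 2], []), (3, [1, 2], []),
   (2, [1], []), (2, [1], []), (2, [0, 1], []), (2, [0, 2], []),
   (2, [1, 2], []), (2, [0, 1], [(2,2,0,1,1)]), (2, [0, 2], []), (2, [1, 2], []),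
   (2, [0, 1], [(2,2,0,1,1), (3,4,0,5,1)]), (2, [0, 2], []), (2, [1, 2], []), (2, [58], []),
   (2, [0, 1], []), (2, [0, 2], []), (2, [1, 2], []), (2, [0, 1], [(2,2,0,1,1)]),
   (2, [0, 2], []), (2, [1, 2], []), (2, [0, 1], [(2,2,0,1,1), (3,4,0,5,1)]), (2, [0, 2], []),
   (2, [1, 2, 76], []), (2, [1, 11], []), (2, [0, 12], []), (2, [1, 3], []),
   (2, [0, 1], [(2,2,0,1,1)]), (2, [0, 2], []), (2, [1, 2], []), (2, [0, 1], [(2,2,0,1,1), (3,4,0,5,1)]),
   (2, [0, 2, 37], []), (2, [1, 2, 48], []), (1, [0, 49], []), (1, [10, 87], []),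
   (1, [0, 1], []), (1, [0, 2], []), (1, [1, 2], []), (1, [0, 1], [(2,2,0,1,1)]),
   (1, [0, 2], []), (1, [1, 2], []), (1, [0, 1], [(2,2,0,1,1), (3,4,0,5,1)]), (1, [0, 2], []),
   (1, [1, 2], []), (1, [40, 42], []), (1, [0, 1], []), (1, [0, 2], []),
   (1, [1, 2], []), (1, [0, 1], [(2,2,0,1,1)]), (1, [0, 2], []), (1, [1, 2], []),
   (1, [0, 1], [(2,2,0,1,1), (3,4,0,5,1)]), (1, [0, 2], []), (1, [1, 2, 38, 97], []), (1, [1, 11], []),
   (1, [0, 12], []), (1, [1, 3], []), (1, [0, 1], [(2,2,0,1,1)]), (1, [0, 2], []),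
   (1, [1, 2], []), (1, [0, 1], [(2,2,0,1,1), (3,4,0,5,1)]), (1, [0, 2, 56, 58], []), (1, [1, 2, 30, 68], [])]

lemma chkD : chk D 0 = true := by decide +kernel

def get (s k : ℕ) : ℕ := Nat.mod (Nat.div s (Nat.pow 8 k)) 8
def tb (f x : ℕ) : Bool := Nat.beq (Nat.mod (Nat.div f (Nat.pow 2 x)) 2) 1
noncomputable def force (x : ℕ) (f : ℕ → Bool) : Bool :=
  Nat.rec (motive := fun _ => Bool) (f 0) (fun i _ => f (Nat.succ i)) x
lemma force_eq (x : ℕ) (f : ℕ → Bool) : force x f = f x := by cases x <;> rfl
noncomputable def mP (s : ℕ) (P : List ℕ) (m : ℕ) : ℕ :=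
  List.rec (motive := fun _ => ℕ) m (fun k _ ih => Nat.lor ih (Nat.pow 2 (get s k))) P
def cnd (s : ℕ) (t : T5) : Bool :=
  Nat.beq (get s t.1) (get s t.2.1) && Nat.beq (get s t.2.2.1) (get s t.2.2.2.1) &&
    Nat.beq (get s t.2.2.2.1) (get s t.2.2.2.2)
noncomputable def mQ (s : ℕ) (Q : List T5) (m : ℕ) : ℕ :=
  List.rec (motive := fun _ => ℕ) m (fun t _ ih =>
    Bool.rec (motive := fun _ => ℕ) ih (Nat.lor ih (Nat.pow 2 (get s t.1))) (cnd s t)) Q
noncomputable def one (f s x : ℕ) (g : ℕ → Bool) : Bool :=
  Bool.rec (motive := fun _ => Bool) (force (Nat.add (Nat.mul s 8) x) g) true (tb f x)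
noncomputable def go (L : List (ℕ × List ℕ × List T5)) : ℕ → Bool :=
  List.rec (motive := fun _ => ℕ → Bool) (fun _ => false) (fun d _ ih s =>
    force (mQ s d.2.2 (mP s d.2.1 (Nat.pow 2 d.1))) (fun f =>
      one f s 0 ih && one f s 1 ih && one f s 2 ih && one f s 3 ih)) L

lemma goD : go D 0 = true := by decide +kernel

lemma tb_eq (f x : ℕ) : tb f x = f.testBit x := by
  rw [Nat.testBit_eq_decide_div_mod_eq, Bool.eq_iff_iff]
  simp [tb, Nat.beq_eq]
  rfl

lemma mP_spec (s x m : ℕ) (P : List ℕ) (h : (mP s P m).testBit x = true) :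
    m.testBit x = true ∨ ∃ k ∈ P, get s k = x := by
  induction P with
  | nil => exact Or.inl h
  | cons k P ih =>
    have h' : ((mP s P m) ||| 2 ^ (get s k)).testBit x = true := h
    rw [Nat.testBit_or, Bool.or_eq_true, Nat.testBit_two_pow] at h'
    rcases h' with h' | h'
    · rcases ih h' with h1 | ⟨k', hk, h1⟩
      · exact Or.inl h1
      · exact Or.inr ⟨k', List.mem_cons_of_mem _ hk, h1⟩
    · exact Or.inr ⟨k, List.mem_cons_self, of_decide_eq_true h'⟩

lemma mQ_spec (s x m : ℕ) (Q : List T5) (h : (mQ s Q m).testBit x = true) :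
    m.testBit x = true ∨ ∃ t ∈ Q, get s t.1 = x ∧ cnd s t = true := by
  induction Q with
  | nil => exact Or.inl h
  | cons t Q ih =>
    have key : (mQ s Q m).testBit x = true →
        m.testBit x = true ∨ ∃ t' ∈ t :: Q, get s t'.1 = x ∧ cnd s t' = true := by
      intro h'
      rcases ih h' with h1 | ⟨k', hk, h1⟩
      · exact Or.inl h1
      · exact Or.inr ⟨k', List.mem_cons_of_mem _ hk, h1⟩
    have h' : (Bool.rec (motive := fun _ => ℕ) (mQ s Q m) ((mQ s Q m) ||| 2 ^ (get s t.1))
      (cnd s t)).testBit x = true := h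
    cases hb : cnd s t with
    | false => rw [hb] at h'; exact key h'
    | true =>
      rw [hb] at h'
      have h2 : ((mQ s Q m) ||| 2 ^ (get s t.1)).testBit x = true := h'
      rw [Nat.testBit_or, Bool.or_eq_true, Nat.testBit_two_pow] at h2
      rcases h2 with h2 | h2
      · exact key h2
      · exact Or.inr ⟨t, List.mem_cons_self, of_decide_eq_true h2, hb⟩

def enc (c : ℕ → ℕ) : ℕ → ℕ
  | 0 => 0
  | i + 1 => enc c i * 8 + c i

lemma get_enc (c : ℕ → ℕ) (hc : ∀ j < 128, c j < 4) :
    ∀ i, i ≤ 128 → ∀ k < i, get (enc c i) k = c (i - 1 - k) := by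
  intro i
  induction i with
  | zero => intro _ k hk; omega
  | succ i ih =>
    intro hi k hk
    have h5 := hc i (by omega)
    cases k with
    | zero =>
      show (enc c i * 8 + c i) / 8 ^ 0 % 8 = c (i + 1 - 1 - 0)
      simp only [pow_zero, Nat.div_one, Nat.add_sub_cancel, Nat.sub_zero]
      omega
    | succ k =>
      have := ih (by omega) k (by omega)
      show (enc c i * 8 + c i) / 8 ^ (k + 1) % 8 = c (i + 1 - 1 - (k + 1))
      have e : (enc c i * 8 + c i) / 8 = enc c i := by omega
      rw [pow_succ', ← Nat.div_div_eq_div_mul, e, show i + 1 - 1 - (k + 1) = i - 1 - k by omega]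
      exact this

lemma go_sound (c : ℕ → ℕ) (hc : ∀ j < 128, c j < 4 ∧ c j ≠ om j)
    (hP : ∀ i j, vP i j = true → c i ≠ c j)
    (hQ : ∀ i p p' x y z, vH i p p' x y z = true →
      ¬ (c i = c p ∧ c p = c p' ∧ c x = c y ∧ c y = c z)) :
    ∀ (L : List (ℕ × List ℕ × List T5)) (i : ℕ), chk L i = true →
      go L (enc c i) = true → False := by
  intro L
  induction L with
  | nil => intro i _ h; exact Bool.false_ne_true h
  | cons d r ih =>
    intro i h1 h2
    simp only [chk, Bool.and_eq_true, decide_eq_true_eq, beq_iff_eq, List.all_eq_true] at h1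
    obtain ⟨⟨⟨⟨hi, hd⟩, hp⟩, hq⟩, hr⟩ := h1
    have hg := get_enc c (fun j hj => (hc j hj).1) i hi.le
    set s := enc c i with hs
    have h3 : force (mQ s d.2.2 (mP s d.2.1 (2 ^ d.1))) (fun f =>
      one f s 0 (go r) && one f s 1 (go r) && one f s 2 (go r) && one f s 3 (go r)) = true := h2
    rw [force_eq] at h3
    simp only [Bool.and_eq_true] at h3
    obtain ⟨⟨⟨g0, g1⟩, g2⟩, g3⟩ := h3
    have h5 := (hc i hi).1
    have g : one (mQ s d.2.2 (mP s d.2.1 (2 ^ d.1))) s (c i) (go r) = true := by
      obtain h | h | h | h : c i = 0 ∨ c i = 1 ∨ c i = 2 ∨ c i = 3 := by omega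
      all_goals rw [h]; assumption
    unfold one at g
    cases hb : tb (mQ s d.2.2 (mP s d.2.1 (2 ^ d.1))) (c i) with
    | false =>
      rw [hb] at g
      have g' : force (s * 8 + c i) (go r) = true := g
      rw [force_eq] at g'
      exact ih (i + 1) hr g'
    | true =>
      rw [tb_eq] at hb
      rcases mQ_spec _ _ _ _ hb with hb | ⟨t, ht, e1, e2⟩
      · rcases mP_spec _ _ _ _ hb with hb | ⟨k, hk, e⟩
        · rw [Nat.testBit_two_pow] at hb
          have := of_decide_eq_true hb
          exact (hc i hi).2 (by omega)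
        · obtain ⟨k1, k2⟩ := hp k hk
          rw [hg k k1] at e
          exact hP _ _ k2 e.symm
      · obtain ⟨⟨⟨⟨⟨t1, t2⟩, t3⟩, t4⟩, t5⟩, t6⟩ := hq t ht
        simp only [cnd, Bool.and_eq_true, Nat.beq_eq] at e2
        rw [hg _ t1, hg _ t2, hg _ t3, hg _ t4, hg _ t5] at e2
        rw [hg _ t1] at e1
        exact hQ _ _ _ _ _ _ t6 ⟨e1.symm, e2.1.1, e2.1.2, e2.2⟩

end Pool.Agent.H28.Acyc
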