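import Mathlib

set_option autoImplicit false

namespace Pool.Agent.H28.Polya

open Polynomial Finset Filter Topology

lemma ek (h : ℕ → ℝ) (h0 : 0 ≤ h 0) (a : ℂ) (ha : 1 ≤ ‖a‖) (N : ℕ)
    (hm : ∀ j < N, h j ≤ h (j + 1)) :
    0 ≤ h N ∧ ‖(a - 1) * (∑ j ∈ range (N + 1), (h j : ℂ) * a ^ j) - h N * a ^ (N + 1)‖ ≤
      h N * ‖a‖ ^ N := by
  induction N with
  | zero => simp [h0, sub_mul, mul_comm a, abs_of_nonneg h0]
  | succ N ih =>
    obtain ⟨p, ih⟩ := ih fun j hj => hm j (by omega)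
    have q := hm N (by omega)
    refine ⟨p.trans q, ?_⟩
    rw [sum_range_succ]
    have e : (a - 1) * (∑ j ∈ range (N + 1), (h j : ℂ) * a ^ j + h (N + 1) * a ^ (N + 1)) -
        h (N + 1) * a ^ (N + 1 + 1) = ((a - 1) * (∑ j ∈ range (N + 1), (h j : ℂ) * a ^ j) -
        h N * a ^ (N + 1)) - ((h (N + 1) - h N : ℝ) : ℂ) * a ^ (N + 1) := by push_cast; ring
    rw [e]
    refine (norm_sub_le _ _).trans ?_
    rw [norm_mul, Complex.norm_real, norm_pow, Real.norm_of_nonneg (sub_nonneg.2 q)]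
    have : ‖a‖ ^ N ≤ ‖a‖ ^ (N + 1) := pow_le_pow_right₀ ha (by omega)
    nlinarith [mul_le_mul_of_nonneg_left this p]

lemma hb (h : ℕ → ℝ) (h0 : 0 ≤ h 0) (N : ℕ) (hN : 1 ≤ N) (hm : ∀ j < N, h j ≤ h (j + 1))
    (hp : 0 < h N) (ζ : ℂ) (hζ : 1 < ‖ζ‖) :
    ∑ j ∈ range (N + 1), (h j : ℂ) * ζ ^ j ≠ ∑ j ∈ range (N + 1), (h j : ℂ) * ζ⁻¹ ^ j := by
  set A : ℂ[X] := ∑ j ∈ range (N + 1), monomial j (h j : ℂ) with hA
  have ev : ∀ z, A.eval z = ∑ j ∈ range (N + 1), (h j : ℂ) * z ^ j := fun z => by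
    simp [hA, eval_finset_sum]
  have cN : A.coeff N = h N := by simp [hA, coeff_monomial]
  have dg : N ≤ A.natDegree := le_natDegree_of_ne_zero (by rw [cN]; exact_mod_cast hp.ne')
  have A0 : A ≠ 0 := by rintro h; rw [h] at dg; simp at dg; omega
  have rt : ∀ a ∈ A.roots, ‖a‖ ≤ 1 := fun a ha => by
    by_contra h1
    have := (ek h h0 a (not_le.1 h1).le N hm).2
    rw [← ev, (isRoot_of_mem_roots ha).eq_zero, mul_zero, zero_sub, norm_neg, norm_mul,
      Complex.norm_real, norm_pow, Real.norm_of_nonneg hp.le, pow_succ] at this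
    have := mul_pos hp (pow_pos (zero_lt_one.trans (not_le.1 h1)) N)
    nlinarith
  have sp : A.Splits := IsAlgClosed.splits _
  have z0 : 0 < ‖ζ‖ := zero_lt_one.trans hζ
  have cj : ‖∑ j ∈ range (N + 1), (h j : ℂ) * ζ⁻¹ ^ j‖ = ‖A.eval ((starRingEnd ℂ) ζ)⁻¹‖ := by
    rw [ev, ← Complex.norm_conj]; simp
  intro he
  have := congrArg norm he
  rw [cj, ← ev, sp.eval_eq_prod_roots, sp.eval_eq_prod_roots, norm_mul, norm_mul] at this
  have := mul_left_cancel₀ (norm_ne_zero_iff.2 (leadingCoeff_ne_zero.2 A0)) this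
  have key : ∀ s : Multiset ℂ, (∀ a ∈ s, ‖a‖ ≤ 1) → 0 < ‖(s.map (ζ - ·)).prod‖ ∧
      ‖ζ‖ ^ s.card * ‖(s.map (((starRingEnd ℂ) ζ)⁻¹ - ·)).prod‖ ≤ ‖(s.map (ζ - ·)).prod‖ := by
    intro s
    induction s using Multiset.induction_on with
    | empty => simp
    | cons a s ih =>
      intro hs
      obtain ⟨i1, i2⟩ := ih fun b hb => hs b (Multiset.mem_cons_of_mem hb)
      have ha := hs a (Multiset.mem_cons_self _ _)
      have p1 : 0 < ‖ζ - a‖ := norm_pos_iff.2 (sub_ne_zero.2 (by rintro rfl; linarith))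
      have p2 : ‖ζ‖ * ‖((starRingEnd ℂ) ζ)⁻¹ - a‖ ≤ ‖ζ - a‖ := by
        have c0 : (starRingEnd ℂ) ζ ≠ 0 := by simpa using norm_pos_iff.1 z0
        rw [← Complex.norm_conj ζ, ← norm_mul, mul_sub, mul_inv_cancel₀ c0,
          ← sq_le_sq₀ (norm_nonneg _) (norm_nonneg _), ← Complex.normSq_eq_norm_sq,
          ← Complex.normSq_eq_norm_sq]
        have q1 : 1 ≤ Complex.normSq ζ := by rw [Complex.normSq_eq_norm_sq]; nlinarith
        have q2 : Complex.normSq a ≤ 1 := by
          rw [Complex.normSq_eq_norm_sq]; nlinarith [norm_nonneg a]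
        have := mul_nonneg (sub_nonneg.2 q1) (sub_nonneg.2 q2)
        simp only [Complex.normSq_apply, Complex.sub_re, Complex.sub_im, Complex.mul_re,
          Complex.mul_im, Complex.one_re, Complex.one_im, Complex.conj_re, Complex.conj_im] at *
        nlinarith
      simp only [Multiset.map_cons, Multiset.prod_cons, norm_mul, Multiset.card_cons, pow_succ]
      refine ⟨mul_pos p1 i1, ?_⟩
      have := mul_le_mul p2 i2 (by positivity) (norm_nonneg _)
      linarith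
  obtain ⟨k1, k2⟩ := key A.roots rt
  rw [← this, IsAlgClosed.card_roots_eq_natDegree] at k2
  have := one_lt_pow₀ hζ (show A.natDegree ≠ 0 by omega)
  nlinarith

/-- Chebyshev type polynomials -/
noncomputable def V : ℕ → ℝ[X]
  | 0 => 0
  | 1 => 1
  | j + 2 => (X + C 2) * V (j + 1) - V j

lemma coeff_V (j k : ℕ) : (V j).coeff k = (j + k).choose (2 * k + 1) := by
  induction j using Nat.twoStepInduction generalizing k with
  | zero => simp [V, Nat.choose_eq_zero_of_lt (show k < 2 * k + 1 by omega)]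
  | one =>
    rcases k with _ | k
    · simp [V]
    · simp [V, coeff_one, Nat.choose_eq_zero_of_lt (show 1 + (k + 1) < 2 * (k + 1) + 1 by omega)]
  | more j ih1 ih2 =>
    rw [V, add_mul, coeff_sub, coeff_add, coeff_C_mul, ih1, ih2]
    rcases k with _ | k
    · simp; ring
    · rw [coeff_X_mul, ih2, show j + 2 + (k + 1) = j + 1 + k + 1 + 1 by ring,
        show j + 1 + (k + 1) = j + 1 + k + 1 by ring, show j + (k + 1) = j + 1 + k by ring,
        show 2 * (k + 1) + 1 = 2 * k + 1 + 1 + 1 by ring]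
      simp only [Nat.choose_succ_succ']; push_cast; ring

lemma eval_V (ζ : ℂ) (hζ : ζ ≠ 0) (j : ℕ) :
    aeval (ζ + ζ⁻¹ - 2) (V j) * (ζ - ζ⁻¹) = ζ ^ j - ζ⁻¹ ^ j := by
  induction j using Nat.twoStepInduction with
  | zero => simp [V]
  | one => simp [V]
  | more j ih1 ih2 =>
    have e : ζ * ζ⁻¹ = 1 := mul_inv_cancel₀ hζ
    simp only [V, map_sub, map_mul, map_add, aeval_X, aeval_C, Complex.coe_algebraMap,
      Complex.ofReal_ofNat]
    linear_combination (ζ + ζ⁻¹) * ih2 - ih1 + (ζ ^ j - ζ⁻¹ ^ j) * e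

lemma binom (k : ℕ) : ∃ c : ℝ, 0 ≤ c ∧ ∀ N j : ℕ, 1 ≤ N → j ≤ N →
    ((j + k).descFactorial (2 * k + 1) : ℝ) ≤ j ^ (2 * k + 1) ∧
    (j : ℝ) ^ (2 * k + 1) - c * N ^ (2 * k) ≤ (j + k).descFactorial (2 * k + 1) := by
  induction k with
  | zero => exact ⟨0, le_rfl, by simp⟩
  | succ k ih =>
    obtain ⟨c, c0, hc⟩ := ih
    refine ⟨c + (k + 1) ^ 2, by positivity, fun N j hN hj => ?_⟩
    obtain ⟨h1, h2⟩ := hc N j hN hj
    have e : (j + (k + 1)).descFactorial (2 * (k + 1) + 1) =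
        (j + k + 1) * (j - (k + 1)) * (j + k).descFactorial (2 * k + 1) := by
      rw [show j + (k + 1) = j + k + 1 by ring, show 2 * (k + 1) + 1 = 2 * k + 1 + 1 + 1 by ring,
        Nat.succ_descFactorial_succ, Nat.descFactorial_succ (j + k),
        show j + k - (2 * k + 1) = j - (k + 1) by omega, mul_assoc]
    have b1 : (((j + k + 1) * (j - (k + 1)) : ℕ) : ℝ) ≤ j ^ 2 ∧
        (j : ℝ) ^ 2 - (k + 1) ^ 2 ≤ ((j + k + 1) * (j - (k + 1)) : ℕ) := by
      rcases le_total (k + 1) j with h | h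
      · push_cast [h]; constructor <;> nlinarith [sq_nonneg ((k : ℝ) + 1)]
      · have : (j : ℝ) ≤ k + 1 := by exact_mod_cast h
        rw [Nat.sub_eq_zero_of_le h]; simp; nlinarith [(Nat.cast_nonneg j : (0 : ℝ) ≤ j)]
    rw [e, Nat.cast_mul]
    set D : ℝ := ((j + k).descFactorial (2 * k + 1) : ℝ)
    have D0 : 0 ≤ D := Nat.cast_nonneg _
    have jN : (j : ℝ) ≤ N := by exact_mod_cast hj
    have N1 : (1 : ℝ) ≤ N := by exact_mod_cast hN
    have j0 : (0 : ℝ) ≤ j := Nat.cast_nonneg _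
    have p1 : (j : ℝ) ^ (2 * (k + 1) + 1) = j ^ 2 * j ^ (2 * k + 1) := by ring
    have p2 : (N : ℝ) ^ (2 * (k + 1)) = N ^ 2 * N ^ (2 * k) := by ring
    have p3 : D ≤ (N : ℝ) ^ (2 * (k + 1)) :=
      h1.trans ((pow_le_pow_left₀ j0 jN _).trans (pow_le_pow_right₀ N1 (by omega)))
    have p4 : (j : ℝ) ^ 2 * (c * N ^ (2 * k)) ≤ N ^ 2 * (c * N ^ (2 * k)) := by gcongr
    constructor
    · rw [p1]; exact mul_le_mul b1.1 h1 D0 (by positivity)
    · nlinarith [mul_le_mul_of_nonneg_right b1.2 D0, mul_le_mul_of_nonneg_left h2 (sq_nonneg (j : ℝ)),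
        mul_le_mul_of_nonneg_left p3 (sq_nonneg ((k : ℝ) + 1))]

lemma riemann (f : ℝ → ℝ) (hf : MonotoneOn f (Set.Icc 0 1)) (N : ℕ) (hN : 1 ≤ N) :
    (∑ j ∈ range N, f (j / N)) / N ≤ ∫ x in (0 : ℝ)..1, f x ∧
      ∫ x in (0 : ℝ)..1, f x ≤ (∑ j ∈ range N, f ((j + 1 : ℕ) / N)) / N := by
  have N0 : (0 : ℝ) < N := by exact_mod_cast hN
  have hg : MonotoneOn (fun x => f (x / N)) (Set.Icc 0 (0 + (N : ℝ))) := fun x hx y hy hxy =>
    hf ⟨div_nonneg hx.1 N0.le, (div_le_one N0).2 (by simpa using hx.2)⟩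
      ⟨div_nonneg hy.1 N0.le, (div_le_one N0).2 (by simpa using hy.2)⟩ (by gcongr)
  have h1 := hg.sum_le_integral
  have h2 := hg.integral_le_sum
  rw [intervalIntegral.integral_comp_div _ N0.ne'] at h1 h2
  simp only [zero_add, zero_div, div_self N0.ne', smul_eq_mul] at h1 h2
  exact ⟨(div_le_iff₀' N0).2 h1, (le_div_iff₀' N0).2 h2⟩

/-- Polya's theorem on sine transforms of increasing functions, in approximation form. -/
theorem polya (h : ℝ → ℝ) (hm : MonotoneOn h (Set.Icc 0 1)) (h0 : 0 ≤ h 0) (h1 : 0 < h 1) :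
    ∃ p : ℕ → ℝ[X], (∀ n, ∀ z : ℂ, aeval z (p n) = 0 → z.im = 0 ∧ z.re ≤ 0) ∧
      (∀ k, Tendsto (fun n => (p n).coeff k) atTop
        (𝓝 ((∫ w in (0 : ℝ)..1, h w * w ^ (2 * k + 1)) / (2 * k + 1).factorial))) ∧
      ∀ n k, |(p n).coeff k| ≤ 2 * h 1 / (2 * k + 1).factorial := by
  have mem : ∀ N j : ℕ, 1 ≤ N → j ≤ N → (j / N : ℝ) ∈ Set.Icc (0 : ℝ) 1 := fun N j hN hj =>
    ⟨by positivity, (div_le_one (by exact_mod_cast hN)).2 (by exact_mod_cast hj)⟩
  have hb0 : ∀ w ∈ Set.Icc (0 : ℝ) 1, 0 ≤ h w ∧ h w ≤ h 1 := fun w hw =>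
    ⟨h0.trans (hm (by simp) hw hw.1), hm hw (by simp) hw.2⟩
  let q : ℕ → ℝ[X] := fun N => ∑ j ∈ range (N + 1),
    C (h (j / N) / N ^ 2) * (V j).comp (C (1 / (N : ℝ) ^ 2) * X)
  have cq : ∀ N k : ℕ, 1 ≤ N → (q N).coeff k = (∑ j ∈ range (N + 1),
      h (j / N) * ((j + k).descFactorial (2 * k + 1) / N ^ (2 * k + 1))) / N /
        (2 * k + 1).factorial := fun N k hN => by
    have N0 : (0 : ℝ) < N := by exact_mod_cast hN
    simp only [q, finset_sum_coeff, coeff_C_mul, comp_C_mul_X_coeff, coeff_V, sum_div]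
    refine sum_congr rfl fun j _ => ?_
    rw [Nat.descFactorial_eq_factorial_mul_choose]; push_cast
    have : ((2 * k + 1).factorial : ℝ) ≠ 0 := by positivity
    rw [one_div, inv_pow, ← pow_mul]; field_simp; ring
  refine ⟨fun n => q (n + 1), fun n z hz => ?_, fun k => ?_, fun n k => ?_⟩
  · set N := n + 1
    have hN : 1 ≤ N := by omega
    have N0 : (0 : ℝ) < N := by exact_mod_cast hN
    set ξ : ℂ := (1 / (N : ℝ) ^ 2 : ℝ) * z with hξ
    have hs : ∑ j ∈ range (N + 1), (h (j / N) : ℂ) * aeval ξ (V j) = 0 := by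
      simp only [q, map_sum, map_mul, aeval_C, aeval_comp, aeval_X, Complex.coe_algebraMap] at hz
      have := congrArg (((N : ℝ) : ℂ) ^ 2 * ·) hz
      simp only [mul_sum, mul_zero] at this
      rw [← this]
      refine sum_congr rfl fun j _ => ?_
      have : ((N : ℝ) : ℂ) ≠ 0 := by exact_mod_cast N0.ne'
      rw [← hξ, Complex.ofReal_div, Complex.ofReal_pow, ← mul_assoc, mul_div_cancel₀ _
        (pow_ne_zero 2 this)]
    obtain ⟨ζ, hζ, hξζ⟩ : ∃ ζ : ℂ, 1 ≤ ‖ζ‖ ∧ ξ = ζ + ζ⁻¹ - 2 := by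
      obtain ⟨s, hs⟩ := IsAlgClosed.exists_pow_nat_eq ((ξ + 2) ^ 2 - 4) two_pos
      have e : (ξ + 2 + s) / 2 * ((ξ + 2 - s) / 2) = 1 := by linear_combination (-1 / 4) * hs
      rcases le_total 1 ‖(ξ + 2 + s) / 2‖ with h | h
      · exact ⟨_, h, by rw [← eq_inv_of_mul_eq_one_right e]; ring⟩
      · refine ⟨(ξ + 2 - s) / 2, ?_, by rw [← eq_inv_of_mul_eq_one_left e]; ring⟩
        have := congrArg norm e
        rw [norm_mul, norm_one] at this
        nlinarith [norm_nonneg ((ξ + 2 - s) / 2)]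
    have ζ0 : ζ ≠ 0 := by rintro rfl; norm_num at hζ
    rcases hζ.lt_or_eq with hζ | hζ
    · refine absurd ?_ (hb (fun j => h (j / N)) (by simpa using h0) N hN (fun j hj =>
        hm (mem N j hN hj.le) (mem N (j + 1) hN hj) (by gcongr; omega))
        (by simpa [div_self N0.ne'] using h1) ζ hζ)
      rw [← sub_eq_zero, ← sum_sub_distrib, ← zero_mul (ζ - ζ⁻¹), ← hs, sum_mul]
      exact sum_congr rfl fun j _ => by rw [mul_assoc, hξζ, eval_V ζ ζ0]; ring
    · rw [Complex.inv_def, Complex.normSq_eq_norm_sq, ← hζ] at hξζ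
      have e1 := congrArg Complex.im hξζ
      have e2 := congrArg Complex.re hξζ
      have := Complex.re_le_norm ζ
      have p : 0 < 1 / (N : ℝ) ^ 2 := by positivity
      simp only [hξ, Complex.im_ofReal_mul, Complex.re_ofReal_mul] at e1 e2
      simp at e1 e2
      exact ⟨e1, by
        by_contra hh
        have := mul_pos (inv_pos.2 (pow_pos N0 2)) (not_le.1 hh)
        linarith⟩
  · obtain ⟨c, c0, hc⟩ := binom k
    simp only [cq _ k (Nat.le_add_left 1 _)]
    refine Tendsto.div_const ?_ _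
    set I := ∫ w in (0 : ℝ)..1, h w * w ^ (2 * k + 1)
    have mf : MonotoneOn (fun w => h w * w ^ (2 * k + 1)) (Set.Icc 0 1) := fun x hx y hy hxy =>
      mul_le_mul (hm hx hy hxy) (pow_le_pow_left₀ hx.1 hxy _) (pow_nonneg hx.1 _) (hb0 y hy).1
    have lim : ∀ a : ℝ, Tendsto (fun n : ℕ => I + a / (n + 1 : ℕ)) atTop (𝓝 I) := fun a => by
      simpa using ((tendsto_const_div_atTop_nhds_zero_nat a).comp
        (tendsto_add_atTop_nat 1)).const_add I
    refine tendsto_of_tendsto_of_tendsto_of_le_of_le (lim (-(2 * h 1 * c))) (lim (h 1))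
      (fun n => ?_) fun n => ?_
    all_goals
      set N := n + 1
      have hN : 1 ≤ N := by omega
      have N0 : (0 : ℝ) < N := by exact_mod_cast hN
      obtain ⟨r1, r2⟩ := riemann _ mf N hN
    · have : ∑ j ∈ range (N + 1), (h (j / N) * (j / N) ^ (2 * k + 1) - h 1 * c / N) ≤
          ∑ j ∈ range (N + 1),
            h (j / N) * ((j + k).descFactorial (2 * k + 1) / N ^ (2 * k + 1)) := by
        refine sum_le_sum fun j hj => ?_
        have hj' := Nat.lt_succ_iff.1 (mem_range.1 hj)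
        obtain ⟨a1, a2⟩ := hb0 _ (mem N j hN hj')
        have b : (j / N : ℝ) ^ (2 * k + 1) - c / N ≤
            (j + k).descFactorial (2 * k + 1) / N ^ (2 * k + 1) := by
          rw [le_div_iff₀ (by positivity)]
          refine le_trans (le_of_eq ?_) (hc N j hN hj').2
          rw [div_pow]; field_simp; ring
        have := mul_le_mul_of_nonneg_left b a1
        have := mul_le_mul_of_nonneg_right a2 (div_nonneg c0 N0.le)
        rw [mul_div_assoc]; linarith
      rw [sum_sub_distrib, sum_range_succ', sum_const, card_range, nsmul_eq_mul] at this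
      simp only
      rw [le_div_iff₀ N0] at r2 ⊢
      have e : (I + -(2 * h 1 * c) / N) * N = I * N - 2 * h 1 * c := by field_simp; ring
      have e2 : ((N + 1 : ℕ) : ℝ) * (h 1 * c / N) ≤ 2 * h 1 * c := by
        rw [← mul_div_assoc, div_le_iff₀ N0]; push_cast
        have : (1 : ℝ) ≤ N := by exact_mod_cast hN
        nlinarith [mul_nonneg h1.le c0]
      rw [e]; simp only [Nat.cast_zero, zero_div, ne_eq, Nat.add_eq_zero_iff, one_ne_zero,
        and_false, not_false_eq_true, zero_pow, mul_zero, add_zero] at this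
      linarith
    · have : ∑ j ∈ range (N + 1),
            h (j / N) * ((j + k).descFactorial (2 * k + 1) / N ^ (2 * k + 1)) ≤
          ∑ j ∈ range (N + 1), h (j / N) * (j / N) ^ (2 * k + 1) := by
        refine sum_le_sum fun j hj => ?_
        have hj' := Nat.lt_succ_iff.1 (mem_range.1 hj)
        rw [div_pow]
        exact mul_le_mul_of_nonneg_left (div_le_div_of_nonneg_right (hc N j hN hj').1
          (by positivity)) (hb0 _ (mem N j hN hj')).1
      rw [sum_range_succ (fun j : ℕ => h (j / N) * (j / N : ℝ) ^ (2 * k + 1)),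
        div_self N0.ne', one_pow, mul_one] at this
      simp only
      rw [div_le_iff₀ N0] at r1 ⊢
      have e : (I + h 1 / N) * N = I * N + h 1 := by field_simp
      rw [e]; linarith
  · set N := n + 1
    have hN : 1 ≤ N := by omega
    have N0 : (0 : ℝ) < N := by exact_mod_cast hN
    obtain ⟨c, -, hc⟩ := binom k
    have b : ∀ j ∈ range (N + 1),
        0 ≤ h (j / N) * ((j + k).descFactorial (2 * k + 1) / N ^ (2 * k + 1)) ∧
        h (j / N) * ((j + k).descFactorial (2 * k + 1) / N ^ (2 * k + 1)) ≤ h 1 := fun j hj => by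
      have hj' := Nat.lt_succ_iff.1 (mem_range.1 hj)
      obtain ⟨a1, a2⟩ := hb0 _ (mem N j hN hj')
      refine ⟨by positivity, (mul_le_of_le_one_right a1 ?_).trans a2⟩
      rw [div_le_one (by positivity)]
      exact (hc N j hN hj').1.trans (pow_le_pow_left₀ (by positivity) (by exact_mod_cast hj') _)
    have s0 := sum_nonneg fun j hj => (b j hj).1
    have s1 := sum_le_card_nsmul _ _ _ fun j hj => (b j hj).2
    rw [cq _ k hN, abs_of_nonneg (by positivity)]
    gcongr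
    rw [div_le_iff₀ N0]
    rw [card_range, nsmul_eq_mul] at s1; push_cast at s1
    have : (1 : ℝ) ≤ N := by exact_mod_cast hN
    nlinarith

end Pool.Agent.H28.Polya
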