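import Mathlib
import Pool.Agent.H28.Polya

set_option autoImplicit false

namespace Pool.Agent.H28.SqrtK

open Polynomial Filter Topology MeasureTheory Set Real

lemma locunif (p : ℕ → ℝ[X]) (a M : ℕ → ℝ)
    (hc : ∀ k, Tendsto (fun n => (p n).coeff k) atTop (𝓝 (a k)))
    (hb : ∀ n k, |(p n).coeff k| ≤ M k) (hM : ∀ R : ℝ, 0 ≤ R → Summable fun k => M k * R ^ k) :
    TendstoLocallyUniformly (fun n (z : ℂ) => aeval z (p n))
      (fun z : ℂ => ∑' k, (a k : ℂ) * z ^ k) atTop := by
  have ha : ∀ k, |a k| ≤ M k := fun k => le_of_tendsto' (hc k).abs fun n => hb n k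
  rw [tendstoLocallyUniformly_iff_forall_isCompact]
  intro K hK
  obtain ⟨R, R0, hR⟩ := hK.isBounded.exists_pos_norm_le
  have bd : ∀ n k, ‖|a k - (p n).coeff k| * R ^ k‖ ≤ 2 * (M k * R ^ k) := fun n k => by
    rw [Real.norm_of_nonneg (by positivity), ← mul_assoc]
    gcongr
    linarith [abs_sub (a k) ((p n).coeff k), ha k, hb n k]
  have T := tendsto_tsum_of_dominated_convergence (𝓕 := atTop)
    (f := fun n k => |a k - (p n).coeff k| * R ^ k) (g := fun _ => 0) ((hM R R0.le).mul_left 2)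
    (fun k => by simpa using (((hc k).const_sub (a k)).abs).mul_const (R ^ k))
    (Eventually.of_forall bd)
  rw [Metric.tendstoUniformlyOn_iff]
  intro ε hε
  rw [tsum_zero] at T
  filter_upwards [T.eventually (gt_mem_nhds hε)] with n hn z hz
  have s1 : HasSum (fun k => (((p n).coeff k : ℝ) : ℂ) * z ^ k) (aeval z (p n)) := by
    rw [aeval_eq_sum_range]
    simp only [Complex.real_smul]
    exact hasSum_sum_of_ne_finset_zero fun k hk => by
      rw [coeff_eq_zero_of_natDegree_lt (by simpa using hk)]; simp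
  have s2 : Summable fun k => (a k : ℂ) * z ^ k := (hM R R0.le).of_norm_bounded fun k => by
    rw [norm_mul, norm_pow, Complex.norm_real]
    exact mul_le_mul (ha k) (pow_le_pow_left₀ (norm_nonneg _) (hR z hz) k) (by positivity)
      ((abs_nonneg _).trans (ha k))
  rw [dist_eq_norm, ← (s2.hasSum.sub s1).tsum_eq]
  refine lt_of_le_of_lt (tsum_of_norm_bounded
    (((hM R R0.le).mul_left 2).of_norm_bounded (bd n)).hasSum fun k => ?_) hn
  rw [← sub_mul, ← Complex.ofReal_sub, norm_mul, norm_pow, Complex.norm_real]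
  exact mul_le_mul_of_nonneg_left (pow_le_pow_left₀ (norm_nonneg _) (hR z hz) k) (abs_nonneg _)

noncomputable def ψ (b : ℝ) : ℝ := √(b ^ 2 / (exp (2 * b ^ 2) - 1))

lemma ψ_meas : Measurable ψ := by unfold ψ; fun_prop

lemma ψ_nonneg (b : ℝ) : 0 ≤ ψ b := sqrt_nonneg _

lemma ψ_le (b : ℝ) : ψ b ≤ 1 := by
  refine sqrt_le_one.2 (div_le_one_of_le₀ ?_ ?_) <;>
    nlinarith [add_one_le_exp (2 * b ^ 2), sq_nonneg b]

lemma ψ_anti (r s c : ℝ) (hr : 0 < r) (hrs : r ≤ s) : ψ (s * c) ≤ ψ (r * c) := by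
  rcases eq_or_ne c 0 with rfl | hc
  · simp
  refine sqrt_le_sqrt ?_
  set u := (r * c) ^ 2
  set v := (s * c) ^ 2
  have u0 : 0 < u := by positivity
  have uv : u ≤ v := by
    simp only [u, v, mul_pow]; gcongr
  have v0 := u0.trans_le uv
  have := convexOn_exp.2 (mem_univ (2 * v)) (mem_univ 0) (show 0 ≤ u / v by positivity)
    (sub_nonneg.2 ((div_le_one v0).2 uv)) (by ring)
  simp only [smul_eq_mul, mul_zero, add_zero, exp_zero, mul_one] at this
  rw [show u / v * (2 * v) = 2 * u by field_simp] at this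
  rw [div_le_div_iff₀ (by linarith [add_one_le_exp (2 * v)]) (by linarith [add_one_le_exp (2 * u)])]
  have := mul_le_mul_of_nonneg_left this v0.le
  rw [mul_add, mul_sub, ← mul_assoc, mul_div_cancel₀ _ v0.ne'] at this
  linarith

noncomputable def J (k : ℕ) : ℝ := ∫ b in Ioi (0 : ℝ), ψ b * exp (-(2 * k) * b ^ 2)

lemma J_int (k : ℕ) (hk : 1 ≤ k) : Integrable fun b => ψ b * exp (-(2 * k) * b ^ 2) :=
  (integrable_exp_neg_mul_sq (b := 2 * k) (by positivity)).bdd_mul (c := 1)
    ψ_meas.aestronglyMeasurable (Eventually.of_forall fun b => by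
      rw [Real.norm_of_nonneg (ψ_nonneg b)]; exact ψ_le b)

lemma J_rec (k : ℕ) (hk : 1 ≤ k) : (2 * k + 2) * J (k + 1) = (2 * k + 1) * J k := by
  have hd : ∀ b ∈ Ioi (0 : ℝ), HasDerivAt
      (fun b : ℝ => exp (-(2 * (k + 1 : ℕ)) * b ^ 2) * √(exp (2 * b ^ 2) - 1))
      ((4 * k + 4) * (ψ b * exp (-(2 * (k + 1 : ℕ)) * b ^ 2)) -
        (4 * k + 2) * (ψ b * exp (-(2 * k) * b ^ 2))) b := fun b hb => by
    have b0 : 0 < b := hb
    have E : 0 < exp (2 * b ^ 2) - 1 := by linarith [add_one_le_exp (2 * b ^ 2), pow_pos b0 2]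
    have := (((hasDerivAt_pow 2 b).const_mul (-(2 * (k + 1 : ℕ) : ℝ))).exp).mul
      (((((hasDerivAt_pow 2 b).const_mul 2).exp).sub_const 1).sqrt E.ne')
    refine this.congr_deriv ?_
    have e1 : ψ b = b / √(exp (2 * b ^ 2) - 1) := by
      rw [ψ, sqrt_div (sq_nonneg b), sqrt_sq b0.le]
    have e2 : exp (-(2 * k) * b ^ 2) = exp (-(2 * (k + 1 : ℕ)) * b ^ 2) * exp (2 * b ^ 2) := by
      rw [← exp_add]; congr 1; push_cast; ring
    have e3 := sq_sqrt E.le
    have e4 := sqrt_pos.2 E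
    rw [e1, e2]
    generalize √(exp (2 * b ^ 2) - 1) = s at *
    obtain e5 : exp (2 * b ^ 2) = s ^ 2 + 1 := by linarith
    rw [e5]; push_cast; field_simp; ring
  have lim : Tendsto (fun b : ℝ => exp (-(2 * (k + 1 : ℕ)) * b ^ 2) * √(exp (2 * b ^ 2) - 1))
      atTop (𝓝 0) := by
    refine squeeze_zero (g := fun b => exp (-b ^ 2)) (fun b => by positivity) (fun b => ?_)
      (tendsto_exp_neg_atTop_nhds_zero.comp (tendsto_pow_atTop two_ne_zero))
    have : √(exp (2 * b ^ 2) - 1) ≤ exp (b ^ 2) := by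
      rw [sqrt_le_left (exp_pos _).le, ← exp_nat_mul]; push_cast; linarith
    refine (mul_le_mul_of_nonneg_left this (exp_pos _).le).trans ?_
    rw [← exp_add, exp_le_exp]; push_cast
    nlinarith [mul_nonneg (Nat.cast_nonneg k : (0 : ℝ) ≤ k) (sq_nonneg b)]
  have i1 := ((J_int (k + 1) (by omega)).const_mul (4 * k + 4)).integrableOn (s := Ioi 0)
  have i2 := ((J_int k hk).const_mul (4 * k + 2)).integrableOn (s := Ioi 0)
  have := integral_Ioi_of_hasDerivAt_of_tendsto (by fun_prop) hd (i1.sub i2) lim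
  rw [integral_sub i1 i2, integral_const_mul, integral_const_mul, ← J, ← J] at this
  simp at this; linarith

lemma J_eq (k : ℕ) : J (k + 1) = 2 * J 1 * (k + 1).centralBinom / 4 ^ (k + 1) := by
  induction k with
  | zero => simp [Nat.centralBinom]; ring
  | succ k ih =>
    have h1 := J_rec (k + 1) (by omega)
    have h2 : ((k + 1 + 1 : ℕ) : ℝ) * (k + 1 + 1).centralBinom =
        2 * (2 * (k + 1 : ℕ) + 1) * (k + 1).centralBinom := by
      exact_mod_cast Nat.succ_mul_centralBinom_succ (k + 1)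
    rw [ih] at h1; push_cast at h1 h2
    have : (2 * ((k : ℝ) + 1) + 2) ≠ 0 := by positivity
    apply mul_left_cancel₀ this
    rw [h1, pow_succ (4 : ℝ) (k + 1)]
    field_simp
    linear_combination (-2 * J 1) * h2

lemma J_pos : 0 < J 1 := by
  rw [J, setIntegral_pos_iff_support_of_nonneg_ae
    (Eventually.of_forall fun b => mul_nonneg (ψ_nonneg b) (exp_pos _).le)
    (J_int 1 le_rfl).integrableOn]
  have : Ioi 0 ⊆ Function.support fun b => ψ b * exp (-(2 * (1 : ℕ)) * b ^ 2) :=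
    fun b (hb : 0 < b) => (mul_pos (sqrt_pos.2 (div_pos (pow_pos hb 2)
      (by linarith [add_one_le_exp (2 * b ^ 2), pow_pos hb 2]))) (exp_pos _)).ne'
  rw [inter_eq_right.2 this]
  simp

noncomputable def H (r : ℝ) : ℝ := ∫ a in Ioo (-π) π, ψ (r * sin a)

lemma H_int (r : ℝ) : IntegrableOn (fun a => ψ (r * sin a)) (Ioo (-π) π) :=
  Measure.integrableOn_of_bounded (M := 1) (by simp)
    (ψ_meas.comp (by fun_prop)).aestronglyMeasurable (Eventually.of_forall fun b => by
      rw [Real.norm_of_nonneg (ψ_nonneg _)]; exact ψ_le _)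

lemma H_le (r : ℝ) : H r ≤ 2 * π := by
  have := setIntegral_mono (H_int r) (integrableOn_const (by simp)) fun a => ψ_le (r * sin a)
  simp only [integral_const, smul_eq_mul, mul_one] at this
  rw [measureReal_restrict_apply_univ, Real.volume_real_Ioo_of_le (by linarith [pi_pos])] at this
  rw [H]; linarith

lemma polar (k : ℕ) (hk : 1 ≤ k) :
    ∫ r in Ioi (0 : ℝ), r * exp (-(2 * k) * r ^ 2) * H r = √(π / (2 * k)) * (2 * J k) := by
  have h1 := integral_comp_polarCoord_symm
    fun p : ℝ × ℝ => exp (-(2 * k) * p.1 ^ 2) * (ψ p.2 * exp (-(2 * k) * p.2 ^ 2))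
  rw [Measure.volume_eq_prod, integral_prod_mul (fun x : ℝ => exp (-(2 * k) * x ^ 2))
    (fun b : ℝ => ψ b * exp (-(2 * k) * b ^ 2)), integral_gaussian] at h1
  have h2 := integral_comp_abs (f := fun b : ℝ => ψ b * exp (-(2 * k) * b ^ 2))
  simp only [ψ, sq_abs] at h2
  simp only [← ψ.eq_1] at h2
  rw [J, ← h2, ← h1]
  have e : ∀ p : ℝ × ℝ, p.1 • (exp (-(2 * k) * (polarCoord.symm p).1 ^ 2) *
      (ψ (polarCoord.symm p).2 * exp (-(2 * k) * (polarCoord.symm p).2 ^ 2))) =
      p.1 * exp (-(2 * k) * p.1 ^ 2) * ψ (p.1 * sin p.2) := fun p => by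
    have : exp (-(2 * k) * p.1 ^ 2) = exp (-(2 * k) * (p.1 * cos p.2) ^ 2) *
        exp (-(2 * k) * (p.1 * sin p.2) ^ 2) := by
      rw [← exp_add]; congr 1; linear_combination (2 * k * p.1 ^ 2) * (cos_sq_add_sin_sq p.2)
    rw [this]; simp only [polarCoord_symm_apply, smul_eq_mul]; ring
  simp only [e]
  rw [polarCoord_target, setIntegral_prod]
  · simp only [integral_const_mul, H]
  · rw [IntegrableOn, ← Measure.prod_restrict]
    refine Integrable.mul_bdd (c := 1) ?_
      (ψ_meas.comp (by fun_prop)).aestronglyMeasurable (Eventually.of_forall fun b => by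
        rw [Real.norm_of_nonneg (ψ_nonneg _)]; exact ψ_le _)
    exact Integrable.comp_fst
      (integrable_mul_exp_neg_mul_sq (b := 2 * k) (by positivity)).integrableOn _

noncomputable def h (w : ℝ) : ℝ := if w < 1 then H √(-log w) else 2 * π

lemma h_zero : h 0 = 0 := by simp [h, H, ψ]

lemma h_mono : MonotoneOn h (Icc 0 1) := by
  intro x hx y hy hxy
  rcases hx.1.eq_or_lt with rfl | x0
  · rw [h_zero, h]; split_ifs
    exacts [integral_nonneg fun a => ψ_nonneg _, by positivity]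
  unfold h; split_ifs with h1 h2 h2
  · exact setIntegral_mono (H_int _) (H_int _) fun a => ψ_anti _ _ _
      (sqrt_pos.2 (neg_pos.2 (log_neg (x0.trans_le hxy) h2)))
      (sqrt_le_sqrt (neg_le_neg (log_le_log x0 hxy)))
  exacts [H_le _, by linarith, le_rfl]

lemma moment (k : ℕ) : ∫ w in (0 : ℝ)..1, h w * w ^ (2 * k + 1) =
    2 * (√(π / (2 * (k + 1 : ℕ))) * (2 * J (k + 1))) := by
  have im : (fun r : ℝ => exp (-r ^ 2)) '' Ioi 0 = Ioo 0 1 := by
    ext w; constructor
    · rintro ⟨r, hr : 0 < r, rfl⟩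
      exact ⟨exp_pos _, exp_lt_one_iff.2 (by nlinarith)⟩
    · rintro ⟨h0, h1⟩
      have := neg_pos.2 (log_neg h0 h1)
      exact ⟨√(-log w), sqrt_pos.2 this, by simp only [sq_sqrt this.le, neg_neg, exp_log h0]⟩
  rw [intervalIntegral.integral_of_le zero_le_one, integral_Ioc_eq_integral_Ioo, ← im,
    integral_image_eq_integral_abs_deriv_smul (f := fun r : ℝ => exp (-r ^ 2)) measurableSet_Ioi
      (fun r _ => (hasDerivAt_pow 2 r).neg.exp.hasDerivWithinAt)
      (fun r (hr : 0 < r) s (hs : 0 < s) e => by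
        have := exp_injective e
        exact (pow_left_inj₀ hr.le hs.le two_ne_zero).1 (by linarith)),
    ← polar (k + 1) (by omega), ← integral_const_mul]
  refine setIntegral_congr_fun measurableSet_Ioi fun r (hr : 0 < r) => ?_
  have e : exp (-(2 * (k + 1 : ℕ)) * r ^ 2) = exp (-r ^ 2) * exp (-r ^ 2) ^ (2 * k + 1) := by
    rw [← exp_nat_mul, ← exp_add]; congr 1; push_cast; ring
  simp only [Pi.neg_apply, h, if_pos (exp_lt_one_iff.2 (show -r ^ 2 < 0 by nlinarith)), log_exp,
    neg_neg, sqrt_sq hr.le, e, smul_eq_mul]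
  rw [abs_of_neg (by simp; positivity)]; ring

/-- approximating polynomials for the series with coefficients `√k / k!²` -/
theorem approx : ∃ (p : ℕ → ℝ[X]) (B : ℝ),
    (∀ n, ∀ z : ℂ, aeval z (p n) = 0 → z.im = 0 ∧ z.re ≤ 0) ∧
    (∀ k, Tendsto (fun n => (p n).coeff k) atTop (𝓝 (√k / (k.factorial : ℝ) ^ 2))) ∧
    ∀ n k, |(p n).coeff k| ≤ B * 4 ^ k / k.factorial := by
  have h1 : h 1 = 2 * π := by simp [h]
  obtain ⟨p, hz, hc, hb⟩ := Polya.polya h h_mono h_zero.ge (by rw [h1]; positivity)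
  set c := (4 * J 1 * √(π / 2))⁻¹ with hc'
  have c0 : 0 < c := by have := J_pos; positivity
  refine ⟨fun n => C c * (X * (p n).comp (C 4 * X)), c * (4 * π), fun n z e => ?_, fun k => ?_,
    fun n k => ?_⟩
  · simp only [map_mul, aeval_C, aeval_X, aeval_comp, mul_eq_zero, Complex.coe_algebraMap,
      Complex.ofReal_eq_zero, c0.ne', false_or] at e
    rcases e with rfl | e
    · simp
    · have := hz n _ e
      simp only [Complex.im_ofReal_mul, Complex.re_ofReal_mul] at this
      exact ⟨by linarith [this.1], by linarith [this.2]⟩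
  · rcases k with _ | k
    · simp
    simp only [coeff_C_mul, coeff_X_mul, comp_C_mul_X_coeff]
    have := ((hc k).mul_const (4 ^ k)).const_mul c
    rw [moment, J_eq] at this
    refine this.trans (le_of_eq (congrArg 𝓝 ?_))
    have e1 : ((k + 1).centralBinom : ℝ) * ((k + 1).factorial * (k + 1).factorial) =
        (2 * k + 2) * (2 * k + 1).factorial := by
      have := Nat.choose_mul_factorial_mul_factorial (show k + 1 ≤ 2 * (k + 1) by omega)
      rw [show 2 * (k + 1) - (k + 1) = k + 1 by omega, ← Nat.centralBinom_eq_two_mul_choose,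
        show 2 * (k + 1) = 2 * k + 1 + 1 by ring, Nat.factorial_succ (2 * k + 1), mul_assoc] at this
      exact_mod_cast this
    have e2 : √(π / (2 * (k + 1 : ℕ))) = √(π / 2) / √(k + 1 : ℕ) := by
      rw [← div_div, sqrt_div (by positivity)]
    have e3 : √(k + 1 : ℕ) ^ 2 = k + 1 := by rw [sq_sqrt (by positivity)]; push_cast; ring
    have := J_pos
    have p1 : 0 < √(π / 2) := by positivity
    have p2 : 0 < √(k + 1 : ℕ) := by positivity
    rw [e2, hc', pow_succ (4 : ℝ) k]
    generalize √(π / 2) = s at *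
    generalize √(k + 1 : ℕ) = t at *
    field_simp
    linear_combination 8 * e1 - 16 * ((2 * k + 1).factorial : ℝ) * e3
  · rcases k with _ | k
    · simp; positivity
    simp only [coeff_C_mul, coeff_X_mul, comp_C_mul_X_coeff, abs_mul, abs_of_pos c0]
    rw [mul_assoc, mul_div_assoc, abs_of_pos (show (0 : ℝ) < 4 ^ k by positivity)]
    gcongr
    have f : ((k + 1).factorial : ℝ) ≤ (2 * k + 1).factorial := by
      exact_mod_cast Nat.factorial_le (by omega)
    calc _ ≤ 2 * h 1 / (2 * k + 1).factorial * 4 ^ k := by gcongr; exact hb n k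
      _ ≤ 4 * π / (k + 1).factorial * 4 ^ (k + 1) := by
        rw [h1, ← mul_assoc]; norm_num only; gcongr <;> norm_num
      _ = _ := by ring

end Pool.Agent.H28.SqrtK
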