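import Mathlib
import Pool.Agent.H28.Polya
import Pool.Agent.H28.SqrtK

set_option autoImplicit false

namespace Pool.Agent.H28.Atom

open Polynomial Finset Filter Topology Pool.Agent.H28.Polya

/-- the functional with moments `b` -/
noncomputable def L (b : ℕ → ℝ) (P : ℝ[X]) : ℝ := P.sum fun k a => a * b k

lemma L_eq (b : ℕ → ℝ) (P : ℝ[X]) (n : ℕ) (h : P.natDegree < n) :
    L b P = ∑ k ∈ range n, P.coeff k * b k := sum_over_range' P (by simp) n h

/-- `b` is a moment sequence on the unit interval of total variation at most `τ` -/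
def TV (b : ℕ → ℝ) (τ : ℝ) : Prop :=
  ∀ (P : ℝ[X]) (M : ℝ), (∀ u ∈ Set.Icc (0 : ℝ) 1, |P.eval u| ≤ M) → |L b P| ≤ τ * M

lemma TV.add {a b : ℕ → ℝ} {σ τ : ℝ} (ha : TV a σ) (hb : TV b τ) :
    TV (fun k => a k + b k) (σ + τ) := fun P M h => by
  have : L (fun k => a k + b k) P = L a P + L b P := by
    simp [L, Polynomial.sum, mul_add, sum_add_distrib]
  rw [this, add_mul]; exact (abs_add_le _ _).trans (add_le_add (ha P M h) (hb P M h))

lemma TV.smul {a : ℕ → ℝ} {σ : ℝ} (ha : TV a σ) (c : ℝ) : TV (fun k => c * a k) (|c| * σ) :=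
  fun P M h => by
  have : L (fun k => c * a k) P = c * L a P := by
    simp [L, Polynomial.sum, mul_sum, mul_left_comm]
  rw [this, abs_mul, mul_assoc]; exact mul_le_mul_of_nonneg_left (ha P M h) (abs_nonneg _)

lemma TV.mul {a b : ℕ → ℝ} {σ τ : ℝ} (ha : TV a σ) (hb : TV b τ) :
    TV (fun k => a k * b k) (σ * τ) := fun P M h => by
  set Q : ℝ[X] := ∑ k ∈ range (P.natDegree + 1), monomial k (P.coeff k * b k) with hQ
  have cQ : ∀ k ∈ range (P.natDegree + 1), Q.coeff k = P.coeff k * b k := fun k hk => by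
    simp only [hQ, finset_sum_coeff, coeff_monomial, sum_ite_eq', if_pos hk]
  have dQ : Q.natDegree < P.natDegree + 1 := Nat.lt_succ_of_le
    (natDegree_sum_le_of_forall_le _ _ fun k hk =>
      (natDegree_monomial_le _).trans (Nat.lt_succ_iff.1 (mem_range.1 hk)))
  have := ha Q (τ * M) fun u hu => by
    have := hb (P.comp (C u * X)) M fun v hv => by
      simp only [eval_comp, eval_mul, eval_C, eval_X]
      exact h _ ⟨mul_nonneg hu.1 hv.1, mul_le_one₀ hu.2 hv.1 hv.2⟩
    rw [L_eq _ _ (P.natDegree + 1) (Nat.lt_succ_of_le (natDegree_le_iff_coeff_eq_zero.2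
      fun k hk => by rw [comp_C_mul_X_coeff, coeff_eq_zero_of_natDegree_lt hk, zero_mul]))] at this
    rw [eval_eq_sum_range' dQ]
    refine le_of_eq_of_le (congrArg _ (sum_congr rfl fun k hk => ?_)) this
    rw [cQ k hk, comp_C_mul_X_coeff]; ring
  rw [L_eq _ _ _ dQ, ← mul_assoc] at this
  rw [L_eq _ _ _ (Nat.lt_succ_self _)]
  refine le_of_eq_of_le (congrArg _ (sum_congr rfl fun k hk => ?_)) this
  rw [cQ k hk]; ring

lemma TV.mono {a : ℕ → ℝ} {σ τ : ℝ} (ha : TV a σ) (h : σ ≤ τ) : TV a τ := fun P M hP =>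
  (ha P M hP).trans (mul_le_mul_of_nonneg_right h ((abs_nonneg _).trans (hP 0 (by simp))))

lemma TV_inv (p : ℝ) (hp : 0 < p) : TV (fun k => 1 / (k + p)) (1 / p) := fun P M h => by
  have I : ∀ k : ℕ, IntervalIntegrable (fun u : ℝ => u ^ (k + p - 1)) MeasureTheory.volume 0 1 :=
    fun k => intervalIntegral.intervalIntegrable_rpow' (by linarith [(k.cast_nonneg : (0 : ℝ) ≤ k)])
  have e : ∀ k : ℕ, ∫ u in (0 : ℝ)..1, u ^ (k + p - 1) = 1 / (k + p) := fun k => by
    have : (0 : ℝ) < k + p := by positivity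
    rw [integral_rpow (Or.inl (by linarith))]; simp [this.ne']
  have e1 : L (fun k => 1 / (k + p)) P = ∫ u in (0 : ℝ)..1,
      ∑ k ∈ range (P.natDegree + 1), P.coeff k * u ^ (k + p - 1) := by
    rw [intervalIntegral.integral_finset_sum fun k _ => (I k).const_mul _,
      L_eq _ _ _ (Nat.lt_succ_self _)]
    simp only [intervalIntegral.integral_const_mul, e]
  have e0 := e 0
  have I0 := I 0
  rw [e1, mul_comm, show 1 / p = 1 / ((0 : ℕ) + p) by simp, ← e 0,
    ← intervalIntegral.integral_const_mul, ← Real.norm_eq_abs]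
  refine intervalIntegral.norm_integral_le_of_norm_le zero_le_one
    (Eventually.of_forall fun u hu => ?_) (I0.const_mul M)
  have : ∑ k ∈ range (P.natDegree + 1), P.coeff k * u ^ (k + p - 1) =
      P.eval u * u ^ ((0 : ℕ) + p - 1) := by
    rw [eval_eq_sum_range, sum_mul]
    refine sum_congr rfl fun k _ => ?_
    rw [mul_assoc, ← Real.rpow_natCast, ← Real.rpow_add hu.1]; congr 2; push_cast; ring
  rw [this, norm_mul, Real.norm_of_nonneg (Real.rpow_nonneg hu.1.le _)]
  exact mul_le_mul_of_nonneg_right (h u ⟨hu.1.le, hu.2⟩) (Real.rpow_nonneg hu.1.le _)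

lemma TV_prod {ι : Type*} (s : Finset ι) (F : ι → ℕ → ℝ) (θ : ι → ℝ)
    (h : ∀ i ∈ s, TV (fun k => F i k - 1) (θ i)) :
    TV (fun k => ∏ i ∈ s, F i k - 1) (∏ i ∈ s, (1 + θ i) - 1) := by
  classical
  induction s using Finset.induction_on with
  | empty => intro P M _; simp [L, Polynomial.sum]
  | insert i s hi ih =>
    have h1 := h i (mem_insert_self _ _)
    have h2 := ih fun j hj => h j (mem_insert_of_mem hj)
    have := (h1.mul h2).add (h1.add h2)
    simp only [prod_insert hi]
    rw [show (fun k => F i k * ∏ j ∈ s, F j k - 1) = fun k => (F i k - 1) * (∏ j ∈ s, F j k - 1) +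
      (F i k - 1 + (∏ j ∈ s, F j k - 1)) from funext fun k => by ring]
    exact this.mono (le_of_eq (by ring))

/-- Chebyshev polynomials of the first kind -/
noncomputable def W : ℕ → ℝ[X]
  | 0 => C 2
  | 1 => X + C 2
  | j + 2 => (X + C 2) * W (j + 1) - W j

lemma W_V (j : ℕ) : W (j + 1) = V (j + 2) - V j := by
  induction j using Nat.twoStepInduction with
  | zero => simp [W, V]
  | one => simp only [W, V, map_ofNat]; ring
  | more j ih1 ih2 => rw [W, ih1, ih2, V.eq_3 (j + 2), V.eq_3 j, V.eq_3 (j + 1)]; ring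

lemma W_der (j : ℕ) : derivative (W j) = C (j : ℝ) * V j := by
  induction j using Nat.twoStepInduction with
  | zero => simp [W, V]
  | one => simp [W, V]
  | more j ih1 ih2 =>
    rw [W, derivative_sub, derivative_mul, ih1, ih2, W_V, V.eq_3 j]
    rw [derivative_add, derivative_X, derivative_C]
    simp only [Nat.cast_add, map_add, map_one, Nat.cast_one, Nat.cast_ofNat, map_ofNat]
    ring

lemma W_eval (θ : ℝ) (j : ℕ) : (W j).eval (2 * Real.cos θ - 2) = 2 * Real.cos (j * θ) := by
  induction j using Nat.twoStepInduction with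
  | zero => simp [W]
  | one => simp [W]
  | more j ih1 ih2 =>
    simp only [W, eval_sub, eval_mul, eval_add, eval_X, eval_C, ih1, ih2]
    have h1 := Real.cos_add ((j + 1) * θ) θ
    have h2 := Real.cos_sub ((j + 1) * θ) θ
    rw [show (j + 1) * θ - θ = j * θ by ring] at h2
    push_cast
    rw [show (j + 2) * θ = (j + 1) * θ + θ by ring]; linarith

lemma W_coeff (j k : ℕ) : (W j).coeff (k + 1) =
    2 * j * (j + k).descFactorial (2 * k + 1) / (2 * (k + 1)).factorial := by
  have := congrArg (coeff · k) (W_der j)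
  simp only [coeff_derivative, coeff_C_mul, coeff_V] at this
  rw [Nat.descFactorial_eq_factorial_mul_choose, show 2 * (k + 1) = 2 * k + 1 + 1 by ring,
    Nat.factorial_succ (2 * k + 1), eq_div_iff (by positivity)]
  push_cast; linear_combination (2 * ((2 * k + 1).factorial : ℝ)) * this

lemma W_zero (j : ℕ) : (W j).coeff 0 = 2 := by
  simpa [coeff_zero_eq_eval_zero] using W_eval 0 j

lemma alt (p : ℝ[X]) (n : ℕ) (hd : p.natDegree ≤ n) (x : ℕ → ℝ)
    (hx : ∀ i j, i < j → j ≤ n → x j < x i) (h0 : x 0 ≤ 0)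
    (hs : ∀ j ≤ n, 0 < (-1) ^ j * p.eval (x j)) (z : ℂ) (hz : aeval z p = 0) :
    z.im = 0 ∧ z.re < 0 := by
  classical
  have p0 : p ≠ 0 := by rintro rfl; simpa using hs 0 (by omega)
  have : ∀ j : Fin n, ∃ r ∈ Set.Ioo (x (j + 1)) (x j), p.eval r = 0 := fun j => by
    have h1 := hs j (by omega)
    have h2 := hs (j + 1) (by omega)
    obtain ⟨r, hr, e⟩ := intermediate_value_Ioo (hx j (j + 1) (by omega) (by omega)).le
      (f := fun y => (-1) ^ (j : ℕ) * p.eval y) (by fun_prop)
      (show (0 : ℝ) ∈ _ from ⟨by rw [pow_succ] at h2; linarith, h1⟩)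
    exact ⟨r, hr, by simpa using e⟩
  choose r hr e using this
  have xle : ∀ i j, i ≤ j → j ≤ n → x j ≤ x i := fun i j h hj => by
    rcases h.lt_or_eq with h | rfl
    exacts [(hx i j h hj).le, le_rfl]
  have ra : StrictAnti r := fun i j hij =>
    ((hr j).2.trans_le (xle _ _ hij (by omega))).trans (hr i).1
  set S := (univ.image r).image (algebraMap ℝ ℂ)
  have cS : S.card = n := by
    rw [card_image_of_injective _ (algebraMap ℝ ℂ).injective,
      card_image_of_injective _ ra.injective]; simp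
  have m0 : p.map (algebraMap ℝ ℂ) ≠ 0 := by simpa using p0
  have le : S.val ≤ (p.map (algebraMap ℝ ℂ)).roots := (Multiset.le_iff_subset S.nodup).2
    fun w hw => by
      simp only [S, mem_val, mem_image, mem_univ, true_and, exists_exists_eq_and] at hw
      obtain ⟨j, rfl⟩ := hw
      rw [mem_roots m0, IsRoot, eval_map_algebraMap, aeval_algebraMap_apply, coe_aeval_eq_eval,
        e j, map_zero]
  have eq := Multiset.eq_of_le_of_card_le le ((card_roots' _).trans
    (natDegree_map_le.trans (hd.trans cS.ge)))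
  have : z ∈ S.val := by rw [eq, mem_roots m0, IsRoot, eval_map_algebraMap, hz]
  simp only [S, mem_val, mem_image, mem_univ, true_and, exists_exists_eq_and] at this
  obtain ⟨j, rfl⟩ := this
  exact ⟨by simp, by simpa using (hr j).2.trans_le ((xle 0 j (by omega) (by omega)).trans h0)⟩

lemma lower (z : ℂ) (hz : z.im ≠ 0) : ∃ K : ℝ, 0 ≤ K ∧ ∀ p : ℝ[X],
    (∀ w : ℂ, aeval w p = 0 → w.im = 0 ∧ w.re < 0) →
    |p.coeff 0| ≤ ‖aeval z p‖ * Real.exp (K * |p.coeff 1 / p.coeff 0|) := by
  set δ := |z.im|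
  have δ0 : 0 < δ := abs_pos.2 hz
  set R := ‖z‖
  have R0 : 0 ≤ R := norm_nonneg _
  refine ⟨2 * R + 4 * R ^ 2 / δ, by positivity, fun p hp => ?_⟩
  set K := 2 * R + 4 * R ^ 2 / δ with hK
  have key : ∀ s : Multiset ℂ, (∀ a ∈ s, a.im = 0 ∧ a.re < 0) →
      ‖(s.map (0 - ·)).prod‖ ≤ ‖(s.map (z - ·)).prod‖ *
        Real.exp (K * (s.map fun a => 1 / (0 - a)).sum.re) := by
    intro s
    induction s using Multiset.induction_on with
    | empty => simp
    | cons a s ih =>
      intro hs
      have i1 := ih fun b hb => hs b (Multiset.mem_cons_of_mem hb)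
      obtain ⟨a1, a2⟩ := hs a (Multiset.mem_cons_self _ _)
      obtain ⟨r, rfl⟩ : ∃ r : ℝ, a = -r := ⟨-a.re, by apply Complex.ext <;> simp [a1]⟩
      have r0 : 0 < r := by simpa using a2
      have p1 : r ≤ ‖z - -r‖ * Real.exp (K * (1 / r)) := by
        have b1 : δ ≤ ‖z - -r‖ := by simpa using Complex.abs_im_le_norm (z - -r)
        have b2 : r - R ≤ ‖z - -r‖ := by
          have := norm_sub_norm_le (-r : ℂ) z
          rw [norm_sub_rev] at this; simpa [abs_of_pos r0] using this
        have b3 := Real.add_one_le_exp (K * (1 / r))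
        refine le_trans ?_ (mul_le_mul_of_nonneg_left b3 (norm_nonneg _))
        rw [show K * (1 / r) + 1 = (K + r) / r by field_simp, ← mul_div_assoc, le_div_iff₀ r0]
        have e : 4 * R ^ 2 / δ * δ = 4 * R ^ 2 := by field_simp
        have q : 0 ≤ 4 * R ^ 2 / δ := by positivity
        rcases le_total (2 * R) r with h | h
        · refine le_trans ?_ (mul_le_mul_of_nonneg_right b2 (by positivity))
          nlinarith [mul_nonneg q (show 0 ≤ r - R by linarith)]
        · refine le_trans ?_ (mul_le_mul_of_nonneg_right b1 (by positivity))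
          nlinarith [mul_nonneg δ0.le R0, mul_pos δ0 r0]
      simp only [Multiset.map_cons, Multiset.prod_cons, norm_mul, Multiset.sum_cons,
        Complex.add_re, mul_add, Real.exp_add]
      have e1 : ‖(0 : ℂ) - -r‖ = r := by simp [abs_of_pos r0]
      have e2 : (1 / ((0 : ℂ) - -r)).re = 1 / r := by simp [← Complex.ofReal_inv]
      rw [e1, e2]
      have := mul_le_mul p1 i1 (norm_nonneg _) (by positivity)
      linarith
  set q := p.map (algebraMap ℝ ℂ)
  have sp : q.Splits := IsAlgClosed.splits _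
  have q0 : q.eval 0 ≠ 0 := fun h => by simpa using (hp 0 (by rwa [eval_map_algebraMap] at h)).2
  have := key q.roots fun a ha => hp a (by
    rw [← eval_map_algebraMap]; exact isRoot_of_mem_roots ha)
  have e := sp.eval_derivative_eq_eval_mul_sum q0
  have c0 : q.eval 0 = p.coeff 0 := by rw [← coeff_zero_eq_eval_zero]; simp [q]
  have c1 : q.derivative.eval 0 = p.coeff 1 := by
    rw [← coeff_zero_eq_eval_zero, coeff_derivative]; simp [q]
  rw [mul_comm, ← div_eq_iff q0, c0, c1] at e
  rw [← e, ← Complex.ofReal_div, Complex.ofReal_re] at this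
  rw [← eval_map_algebraMap, sp.eval_eq_prod_roots z, ← Real.norm_eq_abs, ← Complex.norm_real,
    ← c0, sp.eval_eq_prod_roots 0, norm_mul, norm_mul, mul_assoc]
  gcongr
  exact this.trans (by gcongr; exact le_abs_self _)

/-- cosine transforms with a dominating atom at the end point have only real zeros -/
theorem atom (a : ℕ → ℝ) (B : ℝ) (hB : ∀ k, |a k| ≤ B) (h0 : a 0 ≠ 0) (τ : ℝ) (hτ : τ < 1)
    (h : ∀ (P : ℝ[X]) (M : ℝ), (∀ u ∈ Set.Icc (0 : ℝ) 1, |P.eval u| ≤ M) → P.eval 1 = M →
      (1 - τ) * M ≤ L a P) (z : ℂ)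
    (hz : ∑' k, ((a k / (2 * k).factorial : ℝ) : ℂ) * z ^ k = 0) : z.im = 0 := by
  by_contra hi
  let p : ℕ → ℝ[X] := fun n => ∑ k ∈ range (n + 1),
    monomial k ((W n).coeff k / 2 / (n : ℝ) ^ (2 * k) * a k)
  have dW : ∀ n k, n < k → (W n).coeff k = 0 := fun n k hk => by
    obtain ⟨k, rfl⟩ : ∃ j, k = j + 1 := ⟨k - 1, by omega⟩
    rcases n with _ | n
    · simp [W_coeff]
    · rw [W_coeff, Nat.descFactorial_of_lt (by omega)]; simp
  have cp : ∀ n k, (p n).coeff k = (W n).coeff k / 2 / (n : ℝ) ^ (2 * k) * a k := fun n k => by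
    simp only [p, finset_sum_coeff, coeff_monomial, sum_ite_eq', mem_range]
    split_ifs with hk
    · rfl
    · rw [dW n k (by omega)]; simp
  have rr : ∀ n, 1 ≤ n → ∀ w : ℂ, aeval w (p n) = 0 → w.im = 0 ∧ w.re < 0 := fun n hn => by
    have n0 : (0 : ℝ) < n := by exact_mod_cast hn
    refine alt (p n) n (natDegree_le_iff_coeff_eq_zero.2 fun k hk => by simp [cp, dW n k hk])
      (fun j => n ^ 2 * (2 * Real.cos (j * Real.pi / n) - 2)) (fun i j hij hj => ?_) (by simp)
      fun j hj => ?_
    · have : Real.cos (j * Real.pi / n) < Real.cos (i * Real.pi / n) :=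
        Real.cos_lt_cos_of_nonneg_of_le_pi (by positivity)
          (by rw [div_le_iff₀ n0, mul_comm]; gcongr) (by gcongr)
      nlinarith [pow_pos n0 2]
    · set ξ := 2 * Real.cos (j * Real.pi / n) - 2 with hξ
      have := h (C ((-1) ^ j / 2) * (W n).comp (C ξ * X)) 1 (fun u hu => by
        have h1 := Real.neg_one_le_cos (j * Real.pi / n)
        have h2 := Real.cos_le_one (j * Real.pi / n)
        have : ξ * u = 2 * Real.cos (Real.arccos (1 + ξ * u / 2)) - 2 := by
          rw [Real.cos_arccos (by nlinarith [hu.1, hu.2]) (by nlinarith [hu.1, hu.2])]; ring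
        simp only [eval_mul, eval_C, eval_comp, eval_X]
        rw [this, W_eval, abs_mul, abs_mul, abs_div, abs_pow]
        have := Real.abs_cos_le_one (n * Real.arccos (1 + ξ * u / 2))
        simp only [abs_neg, abs_one, one_pow, abs_two]; linarith) (by
        simp only [eval_mul, eval_C, eval_comp, eval_X, mul_one, hξ, W_eval]
        rw [mul_div_cancel₀ _ n0.ne', Real.cos_nat_mul_pi]
        rcases neg_one_pow_eq_or ℝ j with h | h <;> rw [h] <;> norm_num)
      rw [L_eq _ _ (n + 1) (Nat.lt_succ_of_le (natDegree_le_iff_coeff_eq_zero.2 fun k hk => by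
        rw [coeff_C_mul, comp_C_mul_X_coeff, dW n k hk]; simp))] at this
      refine (show 0 < (1 - τ) * 1 by linarith).trans_le (this.trans (le_of_eq ?_))
      simp only [p, eval_finset_sum, eval_monomial, mul_sum, coeff_C_mul, comp_C_mul_X_coeff]
      refine sum_congr rfl fun k _ => ?_
      rw [mul_pow, ← pow_mul]; field_simp
  have bd : ∀ n k, 0 ≤ (W n).coeff k / 2 / (n : ℝ) ^ (2 * k) ∧
      (W n).coeff k / 2 / (n : ℝ) ^ (2 * k) ≤ 1 / (2 * k).factorial := fun n k => by
    rcases k with _ | k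
    · simp [W_zero]
    rw [W_coeff]
    refine ⟨by positivity, ?_⟩
    rcases n with _ | n
    · simp
    obtain ⟨c, -, hc⟩ := binom k
    have := (hc (n + 1) (n + 1) (by omega) le_rfl).1
    rw [div_div, div_div, div_le_div_iff₀ (by positivity) (by positivity),
      show 2 * (k + 1) = 2 * k + 1 + 1 by ring, pow_succ]
    have f : (0 : ℝ) < (2 * k + 1 + 1).factorial := by positivity
    nlinarith [mul_le_mul_of_nonneg_left this (show (0 : ℝ) ≤ (2 * k + 1 + 1).factorial *
      (n + 1 : ℕ) by positivity)]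
  have lim : ∀ k, Tendsto (fun n => (p n).coeff k) atTop (𝓝 (a k / (2 * k).factorial)) := by
    intro k
    simp only [cp]
    rw [div_eq_mul_one_div (a k), mul_comm (a k)]
    refine Tendsto.mul_const (a k) ?_
    rcases k with _ | k
    · simp [W_zero]
    obtain ⟨c, -, hc⟩ := binom k
    have l : Tendsto (fun n : ℕ => (1 - c / n) / ((2 * (k + 1)).factorial : ℝ)) atTop
        (𝓝 (1 / (2 * (k + 1)).factorial)) := by
      simpa using ((tendsto_const_div_atTop_nhds_zero_nat c).const_sub 1).div_const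
        ((2 * (k + 1)).factorial : ℝ)
    refine tendsto_of_tendsto_of_tendsto_of_le_of_le' l tendsto_const_nhds ?_
      (Eventually.of_forall fun n => (bd n _).2)
    filter_upwards [eventually_ge_atTop 1] with n hn
    have n0 : (0 : ℝ) < n := by exact_mod_cast hn
    have := (hc n n hn le_rfl).2
    rw [W_coeff, show 2 * (n : ℝ) * (n + k).descFactorial (2 * k + 1) / (2 * (k + 1)).factorial / 2
      / n ^ (2 * (k + 1)) = (n + k).descFactorial (2 * k + 1) / n ^ (2 * k + 1) /
      (2 * (k + 1)).factorial by field_simp; ring]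
    gcongr
    rw [le_div_iff₀ (by positivity)]
    refine le_trans (le_of_eq ?_) this
    field_simp; ring
  have hb : ∀ n k, |(p n).coeff k| ≤ B / k.factorial := fun n k => by
    rw [cp, abs_mul, abs_of_nonneg (bd n k).1, mul_comm, div_eq_mul_one_div B]
    refine mul_le_mul (hB k) ((bd n k).2.trans ?_) (bd n k).1 ((abs_nonneg _).trans (hB k))
    gcongr; omega
  have T := (SqrtK.locunif p _ _ lim hb fun R _ => ((Real.summable_pow_div_factorial R).mul_left
    B).congr fun k => by ring).tendstoLocallyUniformlyOn (s := Set.univ) |>.tendsto_at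
    (Set.mem_univ z)
  rw [hz] at T
  obtain ⟨K, K0, hK⟩ := lower z hi
  have c0 : ∀ n, (p n).coeff 0 = a 0 := fun n => by simp [cp, W_zero]
  have := ge_of_tendsto (T.norm.mul_const (Real.exp (K * (B / |a 0|)))) (b := |a 0|) (by
    filter_upwards [eventually_ge_atTop 1] with n hn
    have := hK (p n) (rr n hn)
    rw [c0, abs_div] at this
    refine this.trans ?_
    gcongr
    simpa using hb n 1)
  simp at this; exact h0 this

end Pool.Agent.H28.Atom
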