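import Mathlib

set_option autoImplicit false

namespace Pool.Agent.H28.BSData

def g (k : ℕ) : List ℕ → List ℕ → ℕ → ℤ
  | [], _, r => if r = k then 1 else 0
  | v :: L, l, r =>
    if l.elem v then 0 else g k L l r - g k L (l ++ l.map (fun a => a ^^^ v)) (r + 1)

def cnt (k : ℕ) : List ℕ → List ℕ → ℕ → ℕ
  | [], _, r => if r = k then 1 else 0
  | v :: L, l, r =>
    if l.elem v then 0 else cnt k L l r + cnt k L (l ++ l.map (fun a => a ^^^ v)) (r + 1)

lemma g_cnt (k : ℕ) (L : List ℕ) : ∀ l r, g k L l r = (-1) ^ (k + r) * cnt k L l r := by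
  induction L with
  | nil =>
    intro l r
    unfold g cnt
    split_ifs with h
    · subst h
      rw [← two_mul, pow_mul]
      norm_num
    · simp
  | cons v L ih =>
    intro l r
    unfold g cnt
    split_ifs with h
    · simp
    · rw [ih, ih, ← add_assoc, pow_succ]
      push_cast
      ring

lemma cnt_le (k : ℕ) (L : List ℕ) : ∀ l r, cnt k L l r ≤ 2 ^ L.length := by
  induction L with
  | nil =>
    intro l r
    unfold cnt
    split_ifs <;> simp
  | cons v L ih =>
    intro l r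
    unfold cnt
    split_ifs with h
    · exact Nat.zero_le _
    · have h1 := ih l r
      have h2 := ih (l ++ l.map (fun a => a ^^^ v)) (r + 1)
      rw [List.length_cons, pow_succ]
      omega

def force (x : ℕ) (f : ℕ → ℕ) : ℕ :=
  match x with
  | 0 => f 0
  | n + 1 => f (n + 1)

lemma force_eq (x : ℕ) (f : ℕ → ℕ) : force x f = f x := by cases x <;> rfl

def st (v s a m : ℕ) : ℕ :=
  if v &&& s = 0 then m else ((m &&& a) <<< s) ||| ((m >>> s) &&& a)

def Ok (s a : ℕ) : Prop := ∀ x : Fin 64,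
  (a.testBit x = true ∧ s + x = x ^^^ s ∧ (x.val < s ∨ a.testBit (x - s) = false)) ∨
  (a.testBit x = false ∧ s ≤ x.val ∧ x - s = x ^^^ s ∧ a.testBit (x - s) = true)

instance (s a : ℕ) : Decidable (Ok s a) := by unfold Ok; infer_instance

def c (v s : ℕ) : ℕ := if v &&& s = 0 then 0 else s

lemma st_test (v s a m x : ℕ) (h : Ok s a) (hx : x < 64) :
    (st v s a m).testBit x = m.testBit (x ^^^ c v s) := by
  unfold st c
  split_ifs with h0
  · simp
  · rw [Nat.testBit_or, Nat.testBit_shiftLeft, Nat.testBit_and, Nat.testBit_and,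
      Nat.testBit_shiftRight]
    rcases h ⟨x, hx⟩ with ⟨h1, h2, h3⟩ | ⟨h1, h2, h3, h4⟩
    · simp only at h1 h2 h3
      rw [h1, h2]
      rcases h3 with h3 | h3
      · have : decide (x ≥ s) = false := by simpa using h3
        rw [this]
        simp
      · rw [h3]
        simp
    · simp only at h1 h2 h3 h4
      have : decide (x ≥ s) = true := by simpa using h2
      rw [h1, h4, h3, this]
      simp

def sh (v m : ℕ) : ℕ :=
  st v 1 6148914691236517205 (st v 2 3689348814741910323 (st v 4 1085102592571150095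
    (st v 8 71777214294589695 (st v 16 281470681808895 (st v 32 4294967295 m)))))

lemma c_lt (v s x : ℕ) (hs : s < 64) (hx : x < 64) : x ^^^ c v s < 64 := by
  apply Nat.xor_lt_two_pow (n := 6) hx
  unfold c
  split_ifs <;> omega

lemma c_all : ∀ v : Fin 64, c v 1 ^^^ (c v 2 ^^^ (c v 4 ^^^ (c v 8 ^^^ (c v 16 ^^^ c v 32)))) = v := by
  decide +kernel

lemma sh_test (v m x : ℕ) (hv : v < 64) (hx : x < 64) :
    (sh v m).testBit x = m.testBit (x ^^^ v) := by
  have h1 := c_lt v 1 _ (by norm_num) hx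
  have h2 := c_lt v 2 _ (by norm_num) h1
  have h3 := c_lt v 4 _ (by norm_num) h2
  have h4 := c_lt v 8 _ (by norm_num) h3
  have h5 := c_lt v 16 _ (by norm_num) h4
  unfold sh
  rw [st_test _ _ _ _ _ (by decide +kernel) hx, st_test _ _ _ _ _ (by decide +kernel) h1,
    st_test _ _ _ _ _ (by decide +kernel) h2, st_test _ _ _ _ _ (by decide +kernel) h3,
    st_test _ _ _ _ _ (by decide +kernel) h4, st_test _ _ _ _ _ (by decide +kernel) h5]
  simp only [Nat.xor_assoc]
  rw [c_all ⟨v, hv⟩]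

def G : List ℕ → ℕ → ℕ → ℕ
  | [], _, r => if r < 7 then 4194304 ^ r else 0
  | v :: L, m, r =>
    if m.testBit v then 0 else G L m r + force (m ||| sh v m) fun m' => G L m' (r + 1)

lemma G_eq (L : List ℕ) : ∀ l m r, (∀ a ∈ L, a < 64) → (∀ x < 64, m.testBit x = l.elem x) →
    G L m r = ∑ k ∈ Finset.range 7, cnt k L l r * 4194304 ^ k := by
  induction L with
  | nil =>
    intro l m r _ _
    unfold G cnt
    split_ifs with h
    · rw [Finset.sum_eq_single r]
      · simp
      · intro b _ hb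
        simp [Ne.symm hb]
      · intro h'
        exact absurd (Finset.mem_range.2 h) h'
    · symm
      refine Finset.sum_eq_zero fun k hk => ?_
      have := Finset.mem_range.1 hk
      rw [if_neg (by omega), zero_mul]
  | cons v L ih =>
    intro l m r hL hm
    have hv : v < 64 := hL v (by simp)
    have hL' : ∀ a ∈ L, a < 64 := fun a h => hL a (by simp [h])
    unfold G cnt
    rw [hm v hv, force_eq, ih l m r hL' hm,
      ih (l ++ l.map (fun a => a ^^^ v)) (m ||| sh v m) (r + 1) hL' ?_]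
    · split_ifs with h
      · simp
      · rw [← Finset.sum_add_distrib]
        exact Finset.sum_congr rfl fun k _ => (add_mul _ _ _).symm
    · intro x hx
      rw [Nat.testBit_or, sh_test v m x hv hx, hm x hx,
        hm _ (Nat.xor_lt_two_pow (n := 6) hx hv), Bool.eq_iff_iff]
      simp only [Bool.or_eq_true, List.elem_eq_mem, decide_eq_true_eq, List.mem_append,
        List.mem_map]
      refine or_congr Iff.rfl ⟨fun h => ⟨_, h, ?_⟩, ?_⟩
      · rw [Nat.xor_assoc, Nat.xor_self, Nat.xor_zero]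
      · rintro ⟨a, ha, rfl⟩
        rwa [Nat.xor_assoc, Nat.xor_self, Nat.xor_zero]

def L0 : List ℕ := [1, 2, 3, 4, 5, 7, 8, 9, 10, 11, 12, 13, 14, 15, 16, 18, 20, 24, 32, 34, 36]

lemma G0 : G L0 1 0 = 1 + 21 * 4194304 + 175 * 4194304 ^ 2 + 735 * 4194304 ^ 3 +
    1624 * 4194304 ^ 4 + 1764 * 4194304 ^ 5 + 720 * 4194304 ^ 6 := by decide +kernel

lemma all : cnt 0 L0 [0] 0 = 1 ∧ cnt 1 L0 [0] 0 = 21 ∧ cnt 2 L0 [0] 0 = 175 ∧
    cnt 3 L0 [0] 0 = 735 ∧ cnt 4 L0 [0] 0 = 1624 ∧ cnt 5 L0 [0] 0 = 1764 ∧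
    cnt 6 L0 [0] 0 = 720 := by
  have h := G_eq L0 [0] 1 0 (by decide) (by decide +kernel)
  rw [G0] at h
  simp only [Finset.sum_range_succ, Finset.range_zero, Finset.sum_empty] at h
  have b : ∀ k, cnt k L0 [0] 0 ≤ 2097152 := fun k => cnt_le k L0 [0] 0
  have b0 := b 0
  have b1 := b 1
  have b2 := b 2
  have b3 := b 3
  have b4 := b 4
  have b5 := b 5
  have b6 := b 6
  generalize cnt 0 L0 [0] 0 = x0 at *
  generalize cnt 1 L0 [0] 0 = x1 at *
  generalize cnt 2 L0 [0] 0 = x2 at *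
  generalize cnt 3 L0 [0] 0 = x3 at *
  generalize cnt 4 L0 [0] 0 = x4 at *
  generalize cnt 5 L0 [0] 0 = x5 at *
  generalize cnt 6 L0 [0] 0 = x6 at *
  clear b
  omega

lemma g0 : g 0 L0 [0] 0 = 1 := by rw [g_cnt, all.1]; norm_num
lemma g1 : g 1 L0 [0] 0 = -21 := by rw [g_cnt, all.2.1]; norm_num
lemma g2 : g 2 L0 [0] 0 = 175 := by rw [g_cnt, all.2.2.1]; norm_num
lemma g3 : g 3 L0 [0] 0 = -735 := by rw [g_cnt, all.2.2.2.1]; norm_num
lemma g4 : g 4 L0 [0] 0 = 1624 := by rw [g_cnt, all.2.2.2.2.1]; norm_num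
lemma g5 : g 5 L0 [0] 0 = -1764 := by rw [g_cnt, all.2.2.2.2.2.1]; norm_num
lemma g6 : g 6 L0 [0] 0 = 720 := by rw [g_cnt, all.2.2.2.2.2.2]; norm_num

end Pool.Agent.H28.BSData
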