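import Mathlib

/-!
A product of four endomorphisms of a complete metric group that is of the first Baire class
but discontinuous.
-/

namespace Pool.Agent.H28.Baire

open Filter Topology

abbrev A := ℤ_[2]

/-- permutations of `A × Fin 3`, with the discrete metric -/
def K : Type := Equiv.Perm (A × Fin 3)

instance : Group K := inferInstanceAs (Group (Equiv.Perm (A × Fin 3)))

open Classical in
noncomputable instance : MetricSpace K where
  dist x y := if x = y then 0 else 1
  dist_self x := by simp
  dist_comm x y := by simp only [eq_comm]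
  dist_triangle x y z := by
    by_cases h1 : x = z
    · rw [if_pos h1]; positivity
    · by_cases h2 : x = y
      · subst h2; simp
      · rw [if_neg h1, if_neg h2]
        have : (0 : ℝ) ≤ if y = z then 0 else 1 := by positivity
        linarith
  eq_of_dist_eq_zero := by
    intro x y h
    by_contra hh
    simp [hh] at h

lemma eq_of_dist {x y : K} (h : dist x y < 1) : x = y := by
  by_contra hh
  have : dist x y = 1 := if_neg hh
  linarith

instance : DiscreteTopology K := by
  rw [discreteTopology_iff_isOpen_singleton]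
  intro x
  rw [Metric.isOpen_singleton_iff]
  exact ⟨1, one_pos, fun y hy => eq_of_dist hy⟩

instance : CompleteSpace K := by
  refine Metric.complete_of_cauchySeq_tendsto fun u hu => ?_
  obtain ⟨N, hN⟩ := Metric.cauchySeq_iff'.1 hu 1 one_pos
  exact ⟨u N, tendsto_atTop_of_eventually_const fun n hn => eq_of_dist (hN n hn)⟩

abbrev G := Multiplicative A × K

noncomputable def tau : Multiplicative A →* K where
  toFun x := Equiv.prodCongr (Equiv.addLeft x.toAdd) (Equiv.refl _)
  map_one' := Equiv.ext fun p => by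
    show (0 + p.1, p.2) = p
    simp
  map_mul' x y := Equiv.ext fun p => by
    show (x.toAdd + y.toAdd + p.1, p.2) = (x.toAdd + (y.toAdd + p.1), p.2)
    rw [add_assoc]

def lam : (A → Equiv.Perm (Fin 3)) →* K where
  toFun f := Equiv.prodCongrRight f
  map_one' := Equiv.ext fun _ => rfl
  map_mul' _ _ := Equiv.ext fun _ => rfl

lemma lam_inj : Function.Injective lam := by
  intro f g h
  funext b
  refine Equiv.ext fun s => ?_
  have := congrArg (fun σ : Equiv.Perm (A × Fin 3) => (σ (b, s)).2) h
  exact this

open Classical in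
noncomputable def ms (a : A) (g : Equiv.Perm (Fin 3)) : A → Equiv.Perm (Fin 3) :=
  fun b => if b = a then g else 1

lemma tau_lam (x : Multiplicative A) (g : Equiv.Perm (Fin 3)) :
    tau x * lam (ms 0 g) = lam (ms x.toAdd g) * tau x := by
  refine Equiv.ext fun p => ?_
  show (x.toAdd + p.1, ms 0 g p.1 p.2) = (x.toAdd + p.1, ms x.toAdd g (x.toAdd + p.1) p.2)
  have h : ms 0 g p.1 = ms x.toAdd g (x.toAdd + p.1) := by
    unfold ms
    by_cases hp : p.1 = 0
    · rw [if_pos hp, if_pos (by rw [hp, add_zero])]
    · rw [if_neg hp, if_neg fun h => hp (add_left_cancel (h.trans (add_zero _).symm))]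
  rw [h]

noncomputable def hm (c : K) (σ : Multiplicative A →* Multiplicative A) : G →* G :=
  (MonoidHom.inr _ _).comp ((MulAut.conj c).toMonoidHom.comp
    (tau.comp (σ.comp (MonoidHom.fst _ _))))

noncomputable def ga : K := lam (ms 0 (Equiv.swap 0 1))

noncomputable def et : K := lam (ms 1 (Equiv.swap 1 2))

noncomputable def U : Fin 4 → G →* G :=
  ![hm 1 (MonoidHom.id _), hm ga invMonoidHom, hm (et * ga) (MonoidHom.id _), hm et invMonoidHom]

lemma U_prod (x : G) : (List.ofFn fun i => U i x).prod =
    (1, lam ((ms x.1.toAdd (Equiv.swap 0 1) * (ms 0 (Equiv.swap 0 1))⁻¹) * ms 1 (Equiv.swap 1 2) *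
      (ms x.1.toAdd (Equiv.swap 0 1) * (ms 0 (Equiv.swap 0 1))⁻¹)⁻¹ *
        (ms 1 (Equiv.swap 1 2))⁻¹)) := by
  have h : lam (ms x.1.toAdd (Equiv.swap 0 1)) = tau x.1 * ga * (tau x.1)⁻¹ := by
    rw [ga, tau_lam]; group
  simp only [map_mul, map_inv, h]
  refine Prod.ext (by simp [U, hm, List.ofFn_succ]) ?_
  simp only [U, hm, List.ofFn_succ, List.ofFn_zero, List.prod_cons, List.prod_nil, Prod.snd_mul]
  simp [ga, et, mul_assoc]

lemma prod_ne {x : G} (hx : x.1.toAdd ≠ 1) : (List.ofFn fun i => U i x).prod = 1 := by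
  rw [U_prod]
  refine Prod.ext rfl ?_
  rw [Prod.snd_one, ← map_one lam]
  refine congrArg lam ?_
  funext b
  by_cases hb : b = 1
  · subst hb
    simp [ms, hx.symm]
  · have h1 : ms 1 (Equiv.swap 1 2) b = 1 := if_neg hb
    simp only [Pi.mul_apply, Pi.inv_apply, Pi.one_apply, h1]
    group

lemma prod_one : ∃ c : G, c ≠ 1 ∧ ∀ x : G, x.1.toAdd = 1 → (List.ofFn fun i => U i x).prod = c := by
  refine ⟨_, ?_, fun x hx => by rw [U_prod, hx]⟩
  intro h
  have h1 := lam_inj ((congrArg Prod.snd h).trans (map_one lam).symm)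
  have h2 := congrFun h1 1
  simp only [ms, Pi.mul_apply, Pi.inv_apply, if_true, one_ne_zero, if_false, Pi.one_apply] at h2
  revert h2
  decide

lemma two_pow : Tendsto (fun k : ℕ => (2 : A) ^ k) atTop (𝓝 0) := by
  apply tendsto_pow_atTop_nhds_zero_of_norm_lt_one
  have := PadicInt.norm_p (p := 2)
  push_cast at this
  rw [this]; norm_num

theorem main : (∃ a b : G, a * b ≠ b * a) ∧
    (∀ S : Set (G → G), (∀ f : G → G, Continuous f → f ∈ S) →
      (∀ (f : ℕ → G → G) (g : G → G), (∀ k, f k ∈ S) →
        (∀ x, Tendsto (fun k => f k x) atTop (nhds (g x))) → g ∈ S) →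
      (fun x => (List.ofFn (fun i => U i x)).prod) ∈ S) ∧
    ¬ Continuous (fun x => (List.ofFn (fun i => U i x)).prod) := by
  classical
  obtain ⟨c, hc, hc'⟩ := prod_one
  refine ⟨?_, ?_, ?_⟩
  · refine ⟨(1, lam fun _ => Equiv.swap 0 1), (1, lam fun _ => Equiv.swap 1 2), fun h => ?_⟩
    have h1 := congrArg Prod.snd h
    simp only [Prod.snd_mul, ← map_mul] at h1
    have h2 := congrFun (lam_inj h1) 0
    simp only [Pi.mul_apply] at h2
    revert h2
    decide
  · intro S h1 h2
    refine h2 (fun k x => if x.1.toAdd ∈ Metric.ball (1 : A) (1 / ((k : ℝ) + 1)) then c else 1)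
      _ (fun k => h1 _ ?_) ?_
    · have hcl : IsClopen {x : G | x.1.toAdd ∈ Metric.ball (1 : A) (1 / ((k : ℝ) + 1))} :=
        (IsUltrametricDist.isClopen_ball (1 : A) _).preimage
          (continuous_toAdd.comp continuous_fst)
      refine Continuous.if ?_ continuous_const continuous_const
      intro x hx
      rw [hcl.frontier_eq] at hx
      exact absurd hx (Set.notMem_empty _)
    · intro x
      by_cases hx : x.1.toAdd = 1
      · rw [hc' x hx]
        refine tendsto_const_nhds.congr fun k => (if_pos ?_).symm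
        rw [hx]
        exact Metric.mem_ball_self (by positivity)
      · rw [prod_ne hx]
        refine tendsto_const_nhds.congr' ?_
        filter_upwards [tendsto_one_div_add_atTop_nhds_zero_nat.eventually
          (gt_mem_nhds (dist_pos.2 hx))] with k hk
        exact (if_neg fun h => lt_asymm hk h).symm
  · intro h
    have h1 : Tendsto (fun k : ℕ => ((Multiplicative.ofAdd (1 + (2 : A) ^ k), 1) : G)) atTop
        (𝓝 (Multiplicative.ofAdd (1 + 0), 1)) :=
      ((continuous_ofAdd.tendsto _).comp (tendsto_const_nhds.add two_pow)).prodMk_nhds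
        tendsto_const_nhds
    have h2 := (h.tendsto _).comp h1
    rw [hc' _ (by simp)] at h2
    have h3 : ∀ k : ℕ, (List.ofFn fun i =>
        U i ((Multiplicative.ofAdd (1 + (2 : A) ^ k), 1) : G)).prod = 1 :=
      fun k => prod_ne (by simp)
    exact hc (tendsto_nhds_unique h2 (tendsto_const_nhds.congr fun k => (h3 k).symm))

end Pool.Agent.H28.Baire
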