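import Mathlib

set_option autoImplicit false

namespace Pool.Agent.H28.BaireG

open Set Submodule Cardinal Filter Topology BoundedContinuousFunction

lemma indep {V ι : Type} [AddCommGroup V] [Module ℝ V] [LinearOrder ι] (v : ι → V)
    (h : ∀ i, v i ∉ span ℝ (v '' Iio i)) : LinearIndependent ℝ v := by
  classical
  refine linearIndependent_iff'.2 fun s g hs i hi => by_contra fun h0 => ?_
  obtain ⟨m, hm, hm'⟩ := (s.filter (g · ≠ 0)).exists_max_image id ⟨i, by simp [hi, h0]⟩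
  rw [Finset.mem_filter] at hm
  rw [← Finset.add_sum_erase _ _ hm.1, add_eq_zero_iff_eq_neg] at hs
  refine h m ((smul_mem_iff _ hm.2).1 (hs ▸ neg_mem (sum_mem fun j hj => ?_)))
  rw [Finset.mem_erase] at hj
  by_cases h1 : g j = 0
  · simp [h1]
  · exact smul_mem _ _ (subset_span ⟨j, lt_of_le_of_ne (hm' j (by simp [hj.2, h1])) hj.1, rfl⟩)

lemma ext {V ι : Type} [AddCommGroup V] [Module ℝ V] {v : ι → V} (hv : LinearIndependent ℝ v)
    (r : ι → ℝ) : ∃ φ : V →ₗ[ℝ] ℝ, ∀ i, φ (v i) = r i := by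
  obtain ⟨g, hg⟩ := (Finsupp.linearCombination ℝ v).exists_leftInverse_of_injective
    (LinearMap.ker_eq_bot.2 hv)
  refine ⟨Finsupp.linearCombination ℝ r ∘ₗ g, fun i => ?_⟩
  have := LinearMap.congr_fun hg (Finsupp.single i 1)
  simp only [LinearMap.comp_apply, Finsupp.linearCombination_single, one_smul,
    LinearMap.id_apply] at this
  simp [this]

/-- countable closure under a finitary countably valued operation -/
lemma close {α : Type} (op : List α → Set α) (h : ∀ l, (op l).Countable) {A : Set α}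
    (hA : A.Countable) : ∃ B : Set α, B.Countable ∧ A ⊆ B ∧ ∀ l, (∀ a ∈ l, a ∈ B) → op l ⊆ B := by
  let S : ℕ → Set α := fun n => Nat.rec A (fun _ B => B ∪ ⋃ l : List B, op (l.map (↑))) n
  have h1 : ∀ n, (S n).Countable := fun n => by
    induction n with
    | zero => exact hA
    | succ n ih => have := ih.to_subtype; exact ih.union (countable_iUnion fun l => h _)
  have h2 : Monotone S := monotone_nat_of_le_succ fun n => subset_union_left
  refine ⟨⋃ n, S n, countable_iUnion h1, subset_iUnion S 0, fun l hl => ?_⟩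
  obtain ⟨n, hn⟩ : ∃ n, ∀ a ∈ l, a ∈ S n := by
    induction l with
    | nil => simp
    | cons a l ih =>
      obtain ⟨n, hn⟩ := ih fun a ha => hl a (by simp [ha])
      obtain ⟨m, hm⟩ := mem_iUnion.1 (hl a (by simp))
      exact ⟨max m n, List.forall_mem_cons.2 ⟨h2 (le_max_left _ _) hm,
        fun a ha => h2 (le_max_right _ _) (hn a ha)⟩⟩
  refine subset_iUnion_of_subset (n + 1) (subset_union_of_subset_right
    (subset_iUnion_of_subset (l.attachWith _ hn) (by rw [List.attachWith_map_subtype_val])) _)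

abbrev X := ℕ →ᵇ ℝ
abbrev F := {z : ℕ → X // LinearIndependent ℝ z}
abbrev Box := X × ℝ × List (F × ℝ)

def box (b : Box) : Set (X × (F → ℝ)) :=
  {p | dist p.1 b.1 < b.2.1 ∧ ∀ q ∈ b.2.2, dist (p.2 q.1) q.2 < b.2.1}

def W (t : ℕ → ℕ → Box) : Set (X × (F → ℝ)) := ⋂ n, ⋃ k, box (t n k)

def Good (A : Set X) : Prop := ∀ s : Set X, #s < 𝔠 → ¬ A ⊆ span ℝ s

lemma card : #(ℕ → ℕ → Box) ≤ 𝔠 := by
  have a : ∀ α : Type, #α ≤ 𝔠 → #(ℕ → α) ≤ 𝔠 := fun α h => by
    simpa using power_le_power_right (c := ℵ₀) h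
  have b : ∀ α β : Type, #α ≤ 𝔠 → #β ≤ 𝔠 → #(α × β) ≤ 𝔠 := fun α β h h' => by
    simpa using mul_le_mul' h h'
  have hX : #X ≤ 𝔠 := (mk_le_of_injective DFunLike.coe_injective).trans (a _ mk_real.le)
  exact a _ (a _ (b _ _ hX (b _ _ mk_real.le ((mk_list_le_max _).trans (max_le aleph0_le_continuum
    (b _ _ ((mk_subtype_le _).trans (a _ hX)) mk_real.le))))))

theorem exists_Φ : ∃ Φ : X →ₗ[ℝ] (F → ℝ), (∀ (z : F) n, Φ (z.1 n) z = n) ∧
    ∀ t, Good (Prod.fst '' W t) → ∃ x, (x, Φ x) ∈ W t := by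
  classical
  obtain ⟨e, he⟩ : ∃ e : (𝔠 : Cardinal.{0}).ord.ToType → ℕ → ℕ → Box, e.Surjective := by
    obtain ⟨f⟩ := (Cardinal.le_def _ _).1 (card.trans (mk_ord_toType 𝔠).ge)
    exact ⟨_, Function.invFun_surjective f.injective⟩
  let Z := fun t : ℕ → ℕ → Box => ⋃ n, ⋃ k, ⋃ q ∈ {q | q ∈ (t n k).2.2}, range q.1.1
  have hZ : ∀ t, (Z t).Countable := fun t => countable_iUnion fun n => countable_iUnion fun k =>
    (List.finite_toSet _).countable.biUnion fun _ _ => countable_range _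
  have h1 : ∀ i (y : Iio i → X), ∃ p : X × (F → ℝ), Good (Prod.fst '' W (e i)) →
      p ∈ W (e i) ∧ p.1 ∉ span ℝ (range y ∪ Z (e i)) := fun i y => by
    by_cases h : Good (Prod.fst '' W (e i))
    · obtain ⟨_, ⟨p, hp, rfl⟩, h'⟩ := not_subset.1 (h (range y ∪ Z (e i)) ((mk_union_le _ _).trans_lt
        (add_lt_of_lt aleph0_le_continuum (mk_range_le.trans_lt (mk_Iio_toType_ord_lt i))
        ((hZ _).le_aleph0.trans_lt aleph0_lt_continuum))))
      exact ⟨p, fun _ => ⟨hp, h'⟩⟩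
    · exact ⟨0, fun h' => absurd h' h⟩
  choose c hc using h1
  let x : (𝔠 : Cardinal.{0}).ord.ToType → X :=
    wellFounded_lt.fix fun i y => (c i fun j => y j j.2).1
  have hx : ∀ i, x i = (c i fun j => x j).1 := fun i => wellFounded_lt.fix_eq _ i
  have h2 : ∀ z : F, ∃ φ : X →ₗ[ℝ] ℝ, (∀ n, φ (z.1 n) = n) ∧ ∀ i, Good (Prod.fst '' W (e i)) →
      range z.1 ⊆ Z (e i) → φ (x i) = (c i fun j => x j).2 z := fun z => by
    obtain ⟨φ, hφ⟩ := ext z.2 fun n => n
    obtain ⟨ψ, hψ⟩ := ext (indep (ι := {i // Good (Prod.fst '' W (e i)) ∧ range z.1 ⊆ Z (e i)})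
      (fun i => (span ℝ (range z.1)).mkQ (x i)) fun i h => (hc i (fun j => x j) i.2.1).2 (by
        rw [← hx]
        have : x i ∈ comap (span ℝ (range z.1)).mkQ
            (map (span ℝ (range z.1)).mkQ (span ℝ (range fun j : Iio i.1 => x j))) := by
          refine mem_comap.2 (span_le.2 ?_ h)
          rintro _ ⟨j, hj, rfl⟩
          exact mem_map_of_mem (subset_span ⟨⟨j, hj⟩, rfl⟩)
        rw [comap_map_mkQ] at this
        exact SetLike.le_def.1 (sup_le (span_mono (i.2.2.trans subset_union_right))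
          (span_mono subset_union_left)) this))
      fun i => (c i fun j => x j).2 z - φ (x i)
    refine ⟨φ + ψ ∘ₗ (span ℝ (range z.1)).mkQ, fun n => ?_, fun i h h' => ?_⟩
    · simp [hφ, (Quotient.mk_eq_zero _).2 (subset_span (mem_range_self n))]
    · rw [LinearMap.add_apply, LinearMap.comp_apply, hψ ⟨i, h, h'⟩, add_sub_cancel]
  choose φ h3 h4 using h2
  refine ⟨LinearMap.pi φ, h3, fun t ht => ?_⟩
  obtain ⟨i, rfl⟩ := he t
  refine ⟨x i, mem_iInter.2 fun n => ?_⟩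
  obtain ⟨k, hk⟩ := mem_iUnion.1 (mem_iInter.1 (hc i (fun j => x j) ht).1 n)
  refine mem_iUnion.2 ⟨k, by rw [hx]; exact hk.1, fun q hq => ?_⟩
  have := h4 q.1 i ht (subset_iUnion_of_subset n (subset_iUnion_of_subset k
    (subset_biUnion_of_mem (u := fun q : F × ℝ => range q.1.1) hq)))
  simpa [this] using hk.2 q hq

noncomputable def g (u : Icc (0 : ℝ) (1 / 2)) : X :=
  ofNormedAddCommGroupDiscrete (fun n => u.1 ^ n) 1 fun n => by
    rw [norm_pow, Real.norm_of_nonneg u.2.1]; exact pow_le_one₀ u.2.1 (by linarith [u.2.2])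

lemma g_le (u : Icc (0 : ℝ) (1 / 2)) : ‖g u‖ ≤ 1 := (norm_le zero_le_one).2 fun n => by
  show ‖u.1 ^ n‖ ≤ 1
  rw [norm_pow, Real.norm_of_nonneg u.2.1]; exact pow_le_one₀ u.2.1 (by linarith [u.2.2])

lemma g_cont : Continuous g := (LipschitzWith.of_dist_le_mul (K := 2) fun u v =>
  (dist_le (by positivity)).2 fun n => (abs_pow_sub_pow_le u.1 v.1 n).trans (by
    rw [mul_assoc, mul_comm]
    refine mul_le_mul_of_nonneg_right ?_ (abs_nonneg _)
    have h : max |u.1| |v.1| ^ (n - 1) ≤ (1 / 2) ^ (n - 1) := pow_le_pow_left₀ (by positivity)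
      (max_le (abs_le.2 ⟨by linarith [u.2.1], u.2.2⟩) (abs_le.2 ⟨by linarith [v.2.1], v.2.2⟩)) _
    refine (mul_le_mul_of_nonneg_left h n.cast_nonneg).trans ?_
    rw [one_div, inv_pow, ← div_eq_mul_inv, div_le_iff₀ (by positivity)]
    cases n with
    | zero => simp
    | succ n => exact_mod_cast (by rw [Nat.add_sub_cancel, ← pow_succ']; exact Nat.lt_two_pow_self.le :
        n + 1 ≤ 2 * 2 ^ (n + 1 - 1)))).continuous

lemma good {A : Set X} {δ : ℝ} (hδ : δ ≠ 0) (h : ∀ u, ∃ a ∈ A, ∃ b ∈ A, δ • g u = a - b) :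
    Good A := fun s hs hA => by
  have h1 : LinearIndependent ℝ g := .of_comp (LinearMap.pi fun n : Multiplicative ℕ =>
    (evalCLM ℝ n.toAdd).toLinearMap) ((linearIndependent_monoidHom (Multiplicative ℕ) ℝ).comp
      (fun u : Icc (0 : ℝ) (1 / 2) => powersHom ℝ u.1)
      ((powersHom ℝ).injective.comp Subtype.val_injective))
  have h2 : ∀ u, g u ∈ span ℝ s := fun u => by
    obtain ⟨a, ha, b, hb, e⟩ := h u
    exact (smul_mem_iff _ hδ).1 (e ▸ sub_mem (hA ha) (hA hb))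
  have h3 := (LinearIndependent.of_comp (v := fun u => (⟨g u, h2 u⟩ : span ℝ s))
    (span ℝ s).subtype h1).cardinal_le_rank
  rw [mk_Icc_real (by norm_num)] at h3
  exact (h3.trans (rank_span_le s)).not_gt hs

lemma basis {Y I : Type} [PseudoMetricSpace Y] {x : Y × (I → ℝ)} {N : Set (Y × (I → ℝ))}
    (h : N ∈ 𝓝 x) : ∃ ε > 0, ∃ l : List I, ∀ p : Y × (I → ℝ), dist p.1 x.1 < ε →
      (∀ i ∈ l, dist (p.2 i) (x.2 i) < ε) → p ∈ N := by
  obtain ⟨u, hu, v, hv, h⟩ := mem_nhds_prod_iff.1 h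
  rw [nhds_pi, Filter.mem_pi] at hv
  obtain ⟨J, hJ, t, ht, hv⟩ := hv
  obtain ⟨ε, ⟨h1, h2⟩, h3⟩ := ((((eventually_ball_subset hu).and ((eventually_all_finite hJ).2
    fun i _ => eventually_ball_subset (ht i))).filter_mono nhdsWithin_le_nhds).and
    (self_mem_nhdsWithin (s := Ioi 0))).exists
  exact ⟨ε, h3, hJ.toFinset.toList, fun p a b => h ⟨h1 a, hv fun i hi => h2 i hi (b i (by simpa))⟩⟩

lemma box_open (b : Box) : IsOpen (box b) := by
  have := (isOpen_lt (f := fun p : X × (F → ℝ) => dist p.1 b.1) (g := fun _ => b.2.1) (by fun_prop)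
    (by fun_prop)).inter ((List.finite_toSet b.2.2).isOpen_biInter
    (f := fun q : F × ℝ => {p : X × (F → ℝ) | dist (p.2 q.1) q.2 < b.2.1}) fun q _ =>
    isOpen_lt (by fun_prop) (by fun_prop))
  have e : box b = _ := Set.ext fun p => and_congr_right fun _ => (mem_iInter₂
    (s := fun (q : F × ℝ) (_ : q ∈ b.2.2) => {p : X × (F → ℝ) | dist (p.2 q.1) q.2 < b.2.1})).symm
  exact e ▸ this

theorem baire (Φ : X →ₗ[ℝ] (F → ℝ)) (hΦ : ∀ t, Good (Prod.fst '' W t) → ∃ x, (x, Φ x) ∈ W t) :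
    BaireSpace Φ.graph := by
  classical
  refine ⟨fun U hU hd => dense_iff_inter_open.2 fun V hV ⟨e0, he0⟩ => ?_⟩
  have cen : ∀ O : Set Φ.graph, IsOpen O → ∀ e ∈ O, ∃ b : Box, b.1 = e.1.1 ∧ (b.1, Φ b.1) ∈ box b ∧
      ∀ y, (y, Φ y) ∈ box b → ⟨(y, Φ y), rfl⟩ ∈ O := by
    rintro _ ⟨O, hO, rfl⟩ ⟨⟨x, r⟩, hr⟩ he
    obtain rfl : r = Φ x := hr
    obtain ⟨ε, h0, l, h⟩ := basis (hO.mem_nhds he)
    exact ⟨(x, ε, l.map fun i => (i, Φ x i)), rfl, ⟨by simpa, List.forall_mem_map.2 fun i _ => by simpa⟩,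
      fun y hy => h _ hy.1 fun i hi => hy.2 _ (List.mem_map_of_mem hi)⟩
  have hp : ∀ n (q : Box), ∃ b : Box, (box q).Nonempty → (b.1, Φ b.1) ∈ box q ∧
      (b.1, Φ b.1) ∈ box b ∧ ∀ y, (y, Φ y) ∈ box b → ⟨(y, Φ y), rfl⟩ ∈ U n := fun n q => by
    by_cases h : (box q).Nonempty
    swap
    · exact ⟨q, fun h' => absurd h' h⟩
    obtain ⟨p, hp⟩ := h
    have h0 : 0 < q.2.1 := dist_nonneg.trans_lt hp.1
    obtain ⟨x, hx⟩ := hΦ (fun _ _ => q) (good (δ := q.2.1 / 2) (by positivity) fun u =>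
      ⟨q.1 + _, ⟨(_, p.2), by
        simp only [W, iUnion_const, iInter_const]
        refine ⟨?_, hp.2⟩
        rw [dist_self_add_left, norm_smul, Real.norm_of_nonneg (by positivity)]
        nlinarith [g_le u], rfl⟩, q.1, ⟨(_, p.2), by
        simp only [W, iUnion_const, iInter_const]
        exact ⟨by simpa, hp.2⟩, rfl⟩, (add_sub_cancel_left _ _).symm⟩)
    obtain ⟨⟨⟨y, r⟩, hr⟩, h1, h2⟩ := (hd n).inter_open_nonempty _
      ((box_open q).preimage continuous_subtype_val) ⟨⟨(x, Φ x), rfl⟩, by simpa [W] using hx⟩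
    obtain rfl : r = Φ y := hr
    obtain ⟨b, rfl, h⟩ := cen _ (hU n) _ h2
    exact ⟨b, fun _ => ⟨h1, h⟩⟩
  choose pk hpk using hp
  obtain ⟨b0, -, hb0, hb0'⟩ := cen V hV e0 he0
  have h0 : 0 < b0.2.1 := dist_nonneg.trans_lt hb0.1
  obtain ⟨D, hD, hD'⟩ := TopologicalSpace.isSeparable_range (g_cont.const_smul (b0.2.1 / 2))
  obtain ⟨B, hB, hB0, hB1⟩ := close (fun l : List Box =>
    range (fun r : {b // b ∈ l} × {b // b ∈ l} => (r.1.1.1 - r.2.1.1, 1, [])) ∪
    range fun r : {b // b ∈ l} × ℕ × ℚ × List ({φ : F // φ ∈ l.flatMap fun b : Box => b.2.2.map Prod.fst} × ℚ) =>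
      pk r.2.1 (r.1.1.1, r.2.2.1, r.2.2.2.map fun q => (q.1.1, (q.2 : ℝ))))
    (fun l => by
      have : Countable {b // b ∈ l} := (List.finite_toSet l).countable.to_subtype
      have : Countable {φ : F // φ ∈ l.flatMap fun b : Box => b.2.2.map Prod.fst} :=
        (List.finite_toSet _).countable.to_subtype
      exact (countable_range _).union (countable_range _))
    ((hD.image fun d => (d, 1, [])).insert b0)
  let C : AddSubgroup X := .ofSub (Prod.fst '' B) ⟨_, b0, hB0 (.inl rfl), rfl⟩ (by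
    rintro _ ⟨a, ha, rfl⟩ _ ⟨b, hb, rfl⟩
    exact ⟨_, hB1 [a, b] (by simp [ha, hb]) (.inl ⟨(⟨a, by simp⟩, ⟨b, by simp⟩), rfl⟩), rfl⟩)
  let F0 := {φ | ∃ b ∈ B, φ ∈ b.2.2.map Prod.fst}
  have : Countable F0 := ((hB.biUnion fun b _ => (List.finite_toSet (b.2.2.map Prod.fst)).countable).mono
    (fun φ ⟨b, h, h'⟩ => mem_biUnion h h' : F0 ⊆ _)).to_subtype
  have : CompleteSpace C.topologicalClosure := C.isClosed_topologicalClosure.completeSpace_coe
  let j := fun p : C.topologicalClosure × (F0 → ℝ) =>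
    ((p.1, fun φ => if h : φ ∈ F0 then p.2 ⟨φ, h⟩ else 0) : X × (F → ℝ))
  have hj : Continuous j := (continuous_subtype_val.comp continuous_fst).prodMk
    (continuous_pi fun φ => by split_ifs <;> fun_prop)
  have hjb : ∀ b (hb : b ∈ B), (b.1, Φ b.1) ∈ box b → j (⟨b.1, C.le_topologicalClosure
      ⟨b, hb, rfl⟩⟩, fun i => Φ b.1 i) ∈ box b := fun b hb h => ⟨h.1, fun q hq => by
    simpa [j, show q.1 ∈ F0 from ⟨b, hb, List.mem_map_of_mem hq⟩] using h.2 q hq⟩
  let G := fun n => {b ∈ B | ∀ y, (y, Φ y) ∈ box b → ⟨(y, Φ y), rfl⟩ ∈ U n}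
  have hO : ∀ n, Dense (j ⁻¹' ⋃ b ∈ G n, box b) := fun n p => mem_closure_iff_nhds.2 fun N hN => by
    obtain ⟨ε, hε, l, h⟩ := basis hN
    obtain ⟨_, ⟨b1, hb1, rfl⟩, h1⟩ := Metric.mem_closure_iff.1 p.1.2 (ε / 2) (by positivity)
    obtain ⟨e, he, he'⟩ := exists_rat_btwn (half_pos hε)
    choose ρ hρ using fun i => exists_rat_near (p.2 i) (half_pos hε)
    choose w hw hw' using fun i : F0 => i.2
    have hm : ∀ i ∈ l, i.1 ∈ (b1 :: l.map w).flatMap fun b : Box => b.2.2.map Prod.fst := fun i hi =>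
      List.mem_flatMap.2 ⟨w i, by simp [List.mem_map_of_mem hi], hw' i⟩
    have h2 := hB1 (b1 :: l.map w) (List.forall_mem_cons.2 ⟨hb1, List.forall_mem_map.2 fun i _ => hw i⟩)
      (.inr ⟨(⟨b1, by simp⟩, n, e, l.attach.map fun i => (⟨i.1.1, hm _ i.2⟩, ρ i.1)), rfl⟩)
    simp only [List.map_map] at h2
    obtain ⟨h3, h4, h5⟩ := hpk n (b1.1, e, l.attach.map fun i => (i.1.1, ρ i.1))
      ⟨(b1.1, fun φ => if h : φ ∈ F0 then ρ ⟨φ, h⟩ else 0), by simpa using he,
        List.forall_mem_map.2 fun i _ => by simpa [i.1.2] using he⟩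
    refine ⟨_, h _ ?_ fun i hi => ?_, mem_biUnion ⟨h2, h5⟩ (hjb _ h2 h4)⟩
    · have := dist_triangle_right _ _ _ |>.trans_lt (add_lt_add h3.1 h1)
      exact this.trans (by simp only; linarith)
    · have := h3.2 _ (List.mem_map_of_mem (List.mem_attach _ ⟨i, hi⟩))
      exact (dist_triangle_right _ _ _).trans_lt ((add_lt_add this (hρ i)).trans (by
        simp only; linarith))
  choose t ht using fun n => (hB.mono (sep_subset _ _) : (G n).Countable).exists_eq_range (by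
    obtain ⟨p, hp⟩ := (hO n).nonempty
    obtain ⟨b, hb, -⟩ := mem_iUnion₂.1 hp
    exact ⟨b, hb⟩)
  obtain ⟨x, hx⟩ := hΦ (fun n => Nat.casesOn n (fun _ => b0) t) (good (δ := b0.2.1 / 2)
    (by positivity) fun u => by
      let γ : C.topologicalClosure × (F0 → ℝ) := (⟨(b0.2.1 / 2) • g u, closure_mono
        (fun d hd => ⟨_, hB0 (.inr ⟨d, hd, rfl⟩), rfl⟩ : D ⊆ Prod.fst '' B) (hD' ⟨u, rfl⟩)⟩, 0)
      have ho : ∀ n, IsOpen (j ⁻¹' ⋃ b ∈ G n, box b) := fun n =>
        (isOpen_biUnion fun b _ => box_open b).preimage hj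
      obtain ⟨p, ⟨a1, a2⟩, a3⟩ := (dense_iInter_of_isOpen (fun n => (ho n).inter ((ho n).preimage
        (continuous_add_const γ))) fun n => (hO n).inter_of_isOpen_left ((hO n).preimage
        (isOpenMap_add_right γ)) (ho n)).inter_open_nonempty _ (((box_open b0).preimage hj).inter
        (((box_open b0).preimage hj).preimage (continuous_add_const γ)))
        ⟨_, hjb b0 (hB0 (.inl rfl)) hb0, by
          refine ⟨?_, by simpa [j, γ] using (hjb b0 (hB0 (.inl rfl)) hb0).2⟩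
          show dist (b0.1 + _) b0.1 < _
          rw [dist_self_add_left, norm_smul, Real.norm_of_nonneg (by positivity)]
          nlinarith [g_le u]⟩
      have k : ∀ p, j p ∈ box b0 → (∀ n, j p ∈ ⋃ b ∈ G n, box b) →
          j p ∈ W fun n => Nat.casesOn n (fun _ => b0) t := fun p a b => mem_iInter.2 fun n => by
        cases n with
        | zero => exact mem_iUnion.2 ⟨0, a⟩
        | succ n => simpa [ht n] using b n
      exact ⟨_, ⟨_, k _ a2 fun n => (mem_iInter.1 a3 n).2, rfl⟩, _,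
        ⟨_, k _ a1 fun n => (mem_iInter.1 a3 n).1, rfl⟩, (add_sub_cancel_left _ _).symm⟩)
  refine ⟨⟨(x, Φ x), rfl⟩, hb0' x (by simpa using mem_iInter.1 hx 0), mem_iInter.2 fun n => ?_⟩
  obtain ⟨k, hk⟩ := mem_iUnion.1 (mem_iInter.1 hx (n + 1))
  exact ((ht n).ge ⟨k, rfl⟩).2 x hk

end Pool.Agent.H28.BaireG
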