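import Mathlib

set_option autoImplicit false

namespace Pool.Agent.H28.Budget

open Finset Filter Topology

/-- edges of the complete graph on `Fin n` -/
abbrev E (n : ℕ) : Type := {e : Sym2 (Fin n) // ¬ e.IsDiag}

/-- orderings of the edges of the complete graph -/
abbrev Ord (n : ℕ) : Type := Fin (n.choose 2) ≃ E n

/-- the first `t` edges, in order -/
def pre {n : ℕ} (σ : Ord n) (t : ℕ) : List (E n) := (List.ofFn σ).take t

/-- the graph whose edges are those at the positions in `I` -/
def grOf {n : ℕ} (σ : Ord n) (I : Set (Fin (n.choose 2))) : SimpleGraph (Fin n) :=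
  SimpleGraph.fromEdgeSet {e | ∃ i ∈ I, (σ i).1 = e}

/-- the graph `G_t` of the random graph process -/
def proc {n : ℕ} (σ : Ord n) (t : ℕ) : SimpleGraph (Fin n) := grOf σ {i | i.1 < t}

/-- positions among the first `t` at which the strategy buys -/
def bought {n : ℕ} (buy : List (E n) → Bool) (σ : Ord n) (t : ℕ) : Set (Fin (n.choose 2)) :=
  {i | i.1 < t ∧ buy (pre σ (i.1 + 1)) = true}

/-- hitting time -/
noncomputable def hit {n : ℕ} (P : Set (SimpleGraph (Fin n))) (σ : Ord n) : ℕ :=
  sInf {t | proc σ t ∈ P}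

/-- uniform probability on orderings -/
noncomputable def prob {n : ℕ} (A : Ord n → Prop) : ℝ :=
  (Nat.card {σ // A σ} : ℝ) / Nat.card (Ord n)

/-- asymptotically almost surely -/
def aas (A : ∀ n, Ord n → Prop) : Prop := Tendsto (fun n => prob (A n)) atTop (𝓝 1)

lemma cardE (n : ℕ) : Fintype.card (E n) = n.choose 2 := by
  rw [Sym2.card_subtype_not_diag, Fintype.card_fin]

lemma ordNe (n : ℕ) : Nonempty (Ord n) :=
  ⟨(Fintype.equivFinOfCardEq (cardE n)).symm⟩

lemma ord_pos (n : ℕ) : (0 : ℝ) < Fintype.card (Ord n) := by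
  have := ordNe n
  exact_mod_cast Fintype.card_pos

open Classical in
lemma prob_eq {n : ℕ} (A : Ord n → Prop) :
    prob A = ((univ.filter A).card : ℝ) / Fintype.card (Ord n) := by
  rw [prob, Nat.card_eq_fintype_card, Nat.card_eq_fintype_card, Fintype.card_subtype]

open Classical in
lemma aas_of (A : ∀ n, Ord n → Prop) (u : ℕ → ℝ) (hu : Tendsto u atTop (𝓝 0))
    (h : ∀ᶠ n in atTop, ((univ.filter (fun σ => ¬ A n σ)).card : ℝ)
      ≤ u n * Fintype.card (Ord n)) : aas A := by
  have h1 : Tendsto (fun n => 1 - u n) atTop (𝓝 1) := by simpa using hu.const_sub 1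
  refine tendsto_of_tendsto_of_tendsto_of_le_of_le' h1 tendsto_const_nhds ?_ ?_
  · filter_upwards [h] with n hn
    rw [prob_eq, le_div_iff₀ (ord_pos n)]
    have := card_filter_add_card_filter_not (s := univ) (A n)
    rw [card_univ] at this
    have h2 : ((univ.filter (A n)).card : ℝ) + (univ.filter (fun σ => ¬ A n σ)).card
        = Fintype.card (Ord n) := by exact_mod_cast this
    linarith
  · refine Eventually.of_forall fun n => ?_
    rw [prob_eq, div_le_one (ord_pos n)]
    exact_mod_cast card_le_univ _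

/-! ### first moment -/

/-- orderings in which all edges of `A` come before time `t` -/
def early {n : ℕ} (t : ℕ) (A : Finset (E n)) : Finset (Ord n) :=
  univ.filter (fun σ => ∀ a ∈ A, (σ.symm a).1 < t)

lemma early_swap {n : ℕ} (t : ℕ) (A : Finset (E n)) (e e' : E n) (he : e ∉ A) (he' : e' ∉ A) :
    (early t (insert e A)).card ≤ (early t (insert e' A)).card := by
  refine card_le_card_of_injOn (fun σ => σ.trans (Equiv.swap e e')) ?_ ?_
  · intro σ hσ
    simp only [early, coe_filter, mem_univ, true_and, Set.mem_setOf_eq, mem_insert,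
      forall_eq_or_imp] at hσ ⊢
    refine ⟨by simpa using hσ.1, fun a ha => ?_⟩
    have := hσ.2 a ha
    have h1 : Equiv.swap e e' a = a :=
      Equiv.swap_apply_of_ne_of_ne (fun h => he (h ▸ ha)) (fun h => he' (h ▸ ha))
    simpa [h1] using this
  · intro σ _ τ _ h
    ext i
    have := congrArg (fun ρ : Ord n => ρ i) h
    simp only [Equiv.trans_apply] at this
    rw [(Equiv.swap e e').injective this]

lemma card_lt_le {N : ℕ} (t : ℕ) : (univ.filter (fun i : Fin N => i.1 < t)).card ≤ t := by
  calc _ ≤ (range t).card := card_le_card_of_injOn (fun i => i.1)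
        (fun i hi => by simpa using hi) (fun i _ j _ h => Fin.ext h)
    _ = t := card_range t

lemma early_step {n : ℕ} (t : ℕ) (A : Finset (E n)) (e : E n) (he : e ∉ A) :
    (n.choose 2 - A.card) * (early t (insert e A)).card ≤ t * (early t A).card := by
  have h1 : (n.choose 2 - A.card) * (early t (insert e A)).card
      ≤ ∑ e' ∈ Aᶜ, (early t (insert e' A)).card := by
    rw [← cardE, ← card_compl, ← smul_eq_mul, ← sum_const]
    exact sum_le_sum fun e' he' => early_swap t A e e' he (mem_compl.1 he')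
  refine h1.trans ?_
  have h2 : ∀ e', (early t (insert e' A)).card
      = ∑ σ ∈ early t A, if (σ.symm e').1 < t then 1 else 0 := by
    intro e'
    rw [← card_filter]
    congr 1
    ext σ
    simp [early, and_comm]
  simp only [h2]
  rw [sum_comm, mul_comm, ← smul_eq_mul, ← sum_const]
  refine sum_le_sum fun σ _ => ?_
  rw [← card_filter]
  refine le_trans ?_ (card_lt_le (N := n.choose 2) t)
  refine card_le_card_of_injOn σ.symm (fun a ha => ?_) σ.symm.injective.injOn
  simp only [coe_filter, Set.mem_setOf_eq, mem_univ, true_and] at ha ⊢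
  exact ha.2

lemma early_le {n : ℕ} (t s : ℕ) (hs : s < n.choose 2) (A : Finset (E n)) (hA : A.card ≤ s) :
    ((early t A).card : ℝ)
      ≤ ((t : ℝ) / ((n.choose 2 - s : ℕ) : ℝ)) ^ A.card * Fintype.card (Ord n) := by
  have h0 : (0 : ℝ) < ((n.choose 2 - s : ℕ) : ℝ) := by exact_mod_cast Nat.sub_pos_of_lt hs
  induction A using Finset.induction_on with
  | empty => simp [early]
  | insert e A he ih =>
    rw [card_insert_of_notMem he] at hA ⊢
    have h1 := ih (by omega)
    have h2 : (n.choose 2 - s) * (early t (insert e A)).card ≤ t * (early t A).card :=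
      le_trans (Nat.mul_le_mul_right _ (by omega)) (early_step t A e he)
    have h3 : ((n.choose 2 - s : ℕ) : ℝ) * (early t (insert e A)).card
        ≤ t * (early t A).card := by exact_mod_cast h2
    rw [pow_succ, mul_right_comm, mul_div_assoc', le_div_iff₀ h0]
    have h4 : (0 : ℝ) ≤ t := by positivity
    nlinarith [mul_le_mul_of_nonneg_left h1 h4]

lemma bfs {V : Type} (H : SimpleGraph V) (r : V) (s : ℕ)
    (hs : s ≤ {w | H.Reachable r w}.ncard) (k : ℕ) (hk1 : 1 ≤ k) (hk : k ≤ s) :
    ∃ (v : ℕ → V) (par : ℕ → ℕ) (p : ℕ), v 0 = r ∧ par 0 = 0 ∧ p < k ∧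
      (∀ i < k, ∀ j < k, v i = v j → i = j) ∧ (∀ i < k, ∀ j < k, i ≤ j → par i ≤ par j) ∧
      (∀ i < k, par i ≤ p) ∧ (∀ i < k, i ≠ 0 → par i < i ∧ H.Adj (v i) (v (par i))) ∧
      ∀ j < p, ∀ w, H.Adj (v j) w → ∃ i < k, v i = w := by
  classical
  induction k, hk1 using Nat.le_induction with
  | base =>
    refine ⟨fun _ => r, fun _ => 0, 0, rfl, rfl, one_pos, ?_, ?_, ?_, ?_, ?_⟩
    · intro i hi j hj _; omega
    · intro i _ j _ _; exact le_rfl
    · intro i _; exact le_rfl
    · intro i hi h; omega
    · intro j hj; omega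
  | succ k hk1 ih =>
    obtain ⟨v, par, p, h0, hp0, hp, hinj, hmono, hle, hadj, hcl⟩ := ih (by omega)
    have hex : ∃ j, j < k ∧ ∃ w, H.Adj (v j) w ∧ ¬ ∃ i < k, v i = w := by
      by_contra hc
      push Not at hc
      have hsub : {w | H.Reachable r w} ⊆ ((range k).image v : Finset V) := by
        intro w hw
        have hw' : Relation.ReflTransGen H.Adj r w := (H.reachable_iff_reflTransGen r w).1 hw
        simp only [coe_image, coe_range, Set.mem_image, Set.mem_Iio]
        clear hw
        induction hw' with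
        | refl => exact ⟨0, by omega, h0⟩
        | tail _ hab ih2 =>
          obtain ⟨j, hj, rfl⟩ := ih2
          exact hc j hj _ hab
      have h1 := Set.ncard_le_ncard hsub (Finset.finite_toSet _)
      rw [Set.ncard_coe_finset] at h1
      have h2 := card_image_le (s := range k) (f := v)
      rw [card_range] at h2
      omega
    obtain ⟨hj, w, hw, hw'⟩ := Nat.find_spec hex
    have hmin := fun j (h : j < Nat.find hex) => Nat.find_min hex h
    set j := Nat.find hex
    have hpj : p ≤ j := by
      by_contra h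
      exact hw' (hcl j (by omega) w hw)
    have hv : ∀ i < k, Function.update v k w i = v i := fun i hi =>
      Function.update_of_ne (by omega) _ _
    have hq : ∀ i < k, Function.update par k j i = par i := fun i hi =>
      Function.update_of_ne (by omega) _ _
    refine ⟨Function.update v k w, Function.update par k j, j, by rw [hv 0 (by omega), h0],
      by rw [hq 0 (by omega), hp0], by omega, ?_, ?_, ?_, ?_, ?_⟩
    · intro a ha b hb hab
      rcases Nat.lt_succ_iff_lt_or_eq.1 ha with ha | rfl <;>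
        rcases Nat.lt_succ_iff_lt_or_eq.1 hb with hb | rfl
      · rw [hv a ha, hv b hb] at hab; exact hinj a ha b hb hab
      · rw [hv a ha, Function.update_self] at hab; exact absurd ⟨a, ha, hab⟩ hw'
      · rw [hv b hb, Function.update_self] at hab; exact absurd ⟨b, hb, hab.symm⟩ hw'
      · rfl
    · intro a ha b hb hab
      rcases Nat.lt_succ_iff_lt_or_eq.1 ha with ha | rfl <;>
        rcases Nat.lt_succ_iff_lt_or_eq.1 hb with hb | rfl
      · rw [hq a ha, hq b hb]; exact hmono a ha b hb hab
      · rw [hq a ha, Function.update_self]; exact (hle a ha).trans hpj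
      · omega
      · exact le_rfl
    · intro a ha
      rcases Nat.lt_succ_iff_lt_or_eq.1 ha with ha | rfl
      · rw [hq a ha]; exact (hle a ha).trans hpj
      · rw [Function.update_self]
    · intro a ha ha0
      rcases Nat.lt_succ_iff_lt_or_eq.1 ha with ha | rfl
      · have := hadj a ha ha0
        rw [hq a ha, hv a ha, hv _ (by omega)]; exact this
      · rw [Function.update_self, Function.update_self, hv j hj]; exact ⟨hj, hw.symm⟩
    · intro a ha x hx
      rw [hv a (by omega)] at hx
      have := hmin a ha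
      push Not at this
      obtain ⟨i, hi, rfl⟩ := this (by omega) x hx
      exact ⟨i, by omega, hv i hi⟩

open Classical in
lemma mono_card (s : ℕ) :
    (univ.filter (fun par : Fin s → Fin s => Monotone par)).card ≤ 4 ^ s := by
  have h : (4 : ℕ) ^ s = (range (2 * s)).powerset.card := by
    rw [card_powerset, card_range, pow_mul]; norm_num
  rw [h]
  refine card_le_card_of_injOn (fun par => univ.image (fun i : Fin s => i.1 + (par i).1)) ?_ ?_
  · intro par _
    simp only [coe_powerset, Set.mem_preimage, Set.mem_powerset_iff, coe_image, coe_univ,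
      Set.image_univ, coe_range]
    rintro _ ⟨i, rfl⟩
    have := i.2
    have := (par i).2
    simp only [Set.mem_Iio]; omega
  · intro p hp q hq h
    simp only [coe_filter, mem_univ, true_and, Set.mem_setOf_eq] at hp hq
    have sm : ∀ p : Fin s → Fin s, Monotone p → StrictMono (fun i : Fin s => i.1 + (p i).1) := by
      intro p hp a b hab
      have h1 : (p a).1 ≤ (p b).1 := hp hab.le
      have h2 : a.1 < b.1 := hab
      simp only; omega
    have h2 := ((sm p hp).range_inj (sm q hq)).1 (by
      have := congrArg (fun t : Finset ℕ => (t : Set ℕ)) h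
      simpa using this)
    funext i
    have := congrFun h2 i
    exact Fin.ext (by omega)

open Classical in
lemma first_moment {n : ℕ} (t s : ℕ) (hs1 : 1 ≤ s) (hs : s < n.choose 2)
    (ht : t ≤ n.choose 2 - s) :
    ((univ.filter (fun σ : Ord n => ∃ r, s ≤ {w | (proc σ t).Reachable r w}.ncard)).card : ℝ)
      ≤ (n : ℝ) ^ s * 4 ^ s * ((t : ℝ) / ((n.choose 2 - s : ℕ) : ℝ)) ^ (s - 1)
        * Fintype.card (Ord n) := by
  set q : ℝ := (t : ℝ) / ((n.choose 2 - s : ℕ) : ℝ) with hq
  have hq0 : 0 ≤ q := by positivity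
  have hq1 : q ≤ 1 := div_le_one_of_le₀ (by exact_mod_cast ht) (by positivity)
  set A : (Fin s → Fin n) × (Fin s → Fin s) → Finset (E n) := fun z =>
    univ.filter (fun a => ∃ i : Fin s, i.1 ≠ 0 ∧ a.1 = s(z.1 i, z.1 (z.2 i))) with hA
  set Z := (univ ×ˢ univ.filter (fun par : Fin s → Fin s => Monotone par)).filter
    (fun z : (Fin s → Fin n) × (Fin s → Fin s) => s - 1 ≤ (A z).card) with hZ
  have hsub : univ.filter (fun σ : Ord n => ∃ r, s ≤ {w | (proc σ t).Reachable r w}.ncard)
      ⊆ Z.biUnion (fun z => early t (A z)) := by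
    intro σ hσ
    obtain ⟨r, hr⟩ := (mem_filter.1 hσ).2
    obtain ⟨v, par, p, -, hp0, hp, hinj, hmono, hle, hadj, -⟩ := bfs _ r s hr s hs1 le_rfl
    have hpar : ∀ i : Fin s, par i.1 < s := fun i => (hle i i.2).trans_lt hp
    refine mem_biUnion.2 ⟨(fun i => v i.1, fun i => ⟨par i.1, hpar i⟩), ?_, ?_⟩
    · refine mem_filter.2 ⟨mem_product.2 ⟨mem_univ _, mem_filter.2 ⟨mem_univ _, ?_⟩⟩, ?_⟩
      · intro a b hab
        exact hmono a a.2 b b.2 hab
      · have hc : (univ.erase (⟨0, hs1⟩ : Fin s)).card = s - 1 := by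
          rw [card_erase_of_mem (mem_univ _), card_univ, Fintype.card_fin]
        rw [← hc, ← card_image_of_injective _ Subtype.val_injective]
        refine card_le_card_of_injOn (fun i => s(v i.1, v (par i.1))) ?_ ?_
        · intro i hi
          have hi0 : i.1 ≠ 0 := fun h => (mem_erase.1 hi).1 (Fin.ext h)
          simp only [coe_image, Set.mem_image, hA, coe_filter, mem_univ, true_and,
            Set.mem_setOf_eq]
          exact ⟨⟨s(v i.1, v (par i.1)), by simpa using (hadj i i.2 hi0).2.ne⟩, ⟨i, hi0, rfl⟩, rfl⟩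
        · intro i hi j hj h
          have hi0 : i.1 ≠ 0 := fun h => (mem_erase.1 hi).1 (Fin.ext h)
          have hj0 : j.1 ≠ 0 := fun h => (mem_erase.1 hj).1 (Fin.ext h)
          have a1 := (hadj i i.2 hi0).1
          have a2 := (hadj j j.2 hj0).1
          rcases Sym2.eq_iff.1 h with ⟨h1, _⟩ | ⟨h1, h2⟩
          · exact Fin.ext (hinj _ i.2 _ j.2 h1)
          · have b1 := hinj _ i.2 _ (hpar j) h1
            have b2 := hinj _ (hpar i) _ j.2 h2
            omega
    · refine mem_filter.2 ⟨mem_univ _, fun a ha => ?_⟩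
      obtain ⟨i, hi0, hi⟩ := (mem_filter.1 ha).2
      have h1 := (hadj i i.2 hi0).2
      simp only [proc, grOf, SimpleGraph.fromEdgeSet_adj, Set.mem_setOf_eq] at h1
      obtain ⟨⟨j, hj, hj'⟩, -⟩ := h1
      have : a = σ j := Subtype.ext (hi.trans hj'.symm)
      rw [this, Equiv.symm_apply_apply]
      exact hj
  have h1 : ∀ z ∈ Z, ((early t (A z)).card : ℝ) ≤ q ^ (s - 1) * Fintype.card (Ord n) := by
    intro z hz
    obtain ⟨A', hA', hc⟩ := exists_subset_card_eq (mem_filter.1 hz).2
    have h2 : early t (A z) ⊆ early t A' := fun σ hσ =>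
      mem_filter.2 ⟨mem_univ _, fun a ha => (mem_filter.1 hσ).2 a (hA' ha)⟩
    have h3 := early_le t s hs A' (by omega)
    rw [hc] at h3
    exact le_trans (by exact_mod_cast card_le_card h2) h3
  have h2 : Z.card ≤ n ^ s * 4 ^ s := by
    refine (card_filter_le _ _).trans ?_
    rw [card_product, card_univ, Fintype.card_fun, Fintype.card_fin, Fintype.card_fin]
    exact Nat.mul_le_mul_left _ (mono_card s)
  have h3 : (Z.card : ℝ) ≤ (n : ℝ) ^ s * 4 ^ s := by exact_mod_cast h2
  calc _ ≤ ((∑ z ∈ Z, (early t (A z)).card : ℕ) : ℝ) := by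
        exact_mod_cast (card_le_card hsub).trans card_biUnion_le
    _ ≤ ∑ _z ∈ Z, q ^ (s - 1) * Fintype.card (Ord n) := by
        push_cast; exact sum_le_sum h1
    _ = Z.card * (q ^ (s - 1) * Fintype.card (Ord n)) := by rw [sum_const, nsmul_eq_mul]
    _ ≤ _ := by rw [mul_assoc _ (q ^ (s - 1))]; gcongr

/-! ### conditioning on the past -/

lemma pre_succ {n : ℕ} (σ : Ord n) (t : ℕ) (ht : t < n.choose 2) :
    pre σ (t + 1) = pre σ t ++ [σ ⟨t, ht⟩] := by
  unfold pre
  rw [List.take_add_one, List.getElem?_ofFn]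
  simp [ht]

lemma pre_of_le {n : ℕ} (σ : Ord n) (t : ℕ) (ht : n.choose 2 ≤ t) :
    pre σ (t + 1) = pre σ t := by
  unfold pre
  rw [List.take_of_length_le (by simp; omega), List.take_of_length_le (by simpa using ht)]

lemma cond_step {n : ℕ} (t : ℕ) (ht : t < n.choose 2) (F : List (E n) → E n → ℝ) :
    ((univ.filter (fun j : Fin (n.choose 2) => t ≤ j.1)).card : ℝ)
        * ∑ σ : Ord n, F (pre σ t) (σ ⟨t, ht⟩)
      = ∑ σ : Ord n, ∑ j ∈ univ.filter (fun j : Fin (n.choose 2) => t ≤ j.1),
          F (pre σ t) (σ j) := by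
  rw [sum_comm, ← nsmul_eq_mul, ← sum_const]
  refine sum_congr rfl fun j hj => ?_
  have hj' : t ≤ j.1 := (mem_filter.1 hj).2
  refine Fintype.sum_equiv (Equiv.equivCongr (Equiv.swap ⟨t, ht⟩ j) (Equiv.refl _)) _ _ fun σ => ?_
  have e1 : ∀ i, (Equiv.equivCongr (Equiv.swap ⟨t, ht⟩ j) (Equiv.refl _)) σ i
      = σ (Equiv.swap ⟨t, ht⟩ j i) := fun i => by simp
  have e2 : pre ((Equiv.equivCongr (Equiv.swap ⟨t, ht⟩ j) (Equiv.refl _)) σ) t = pre σ t := by
    unfold pre
    apply List.ext_getElem (by simp)
    intro i h1 h2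
    have hi : i < t := by simp at h1; omega
    simp only [List.getElem_take, List.getElem_ofFn, e1]
    rw [Equiv.swap_apply_of_ne_of_ne]
    · intro h; have := congrArg Fin.val h; simp at this; omega
    · intro h; have := congrArg Fin.val h; simp at this; omega
  rw [e2, e1, Equiv.swap_apply_right]

end Pool.Agent.H28.Budget
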