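import Pool.Agent.H28.Budget1

set_option autoImplicit false

namespace Pool.Agent.H28.Budget

open Finset Filter Topology

lemma builder {n : ℕ} {X : Type} (B : X → Finset (E n)) (Z : X → ℝ) (Good : X → Prop) (x0 : X)
    (h0 : Good x0) (hB0 : B x0 = ∅) (T : ℕ) (hT : T ≤ n.choose 2) (ρ : ℝ) (hρ : 0 ≤ ρ)
    (hstep : ∀ x, Good x → ∃ f : E n → X,
      (∀ e, Good (f e) ∧ (B (f e) = B x ∨ B (f e) = insert e (B x))) ∧
      ∀ R : Finset (E n), n.choose 2 ≤ R.card + T → ∑ e ∈ R, Z (f e) ≤ ρ * R.card * Z x) :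
    ∃ (buy : List (E n) → Bool) (y : Ord n → X),
      (∀ σ, Good (y σ) ∧ (B (y σ) : Set (E n)) = σ '' bought buy σ T) ∧
      ∑ σ, Z (y σ) ≤ ρ ^ T * Z x0 * Fintype.card (Ord n) := by
  classical
  haveI : Nonempty X := ⟨x0⟩
  choose! f hf1 hf2 using hstep
  have hg : ∀ (l : List (E n)) x, Good x → Good (l.foldl f x) := by
    intro l
    induction l with
    | nil => intro x hx; exact hx
    | cons a l ih => intro x hx; exact ih _ (hf1 x hx a).1
  set run : List (E n) → X := fun l => l.foldl f x0 with hrun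
  have hr : ∀ l e, run (l ++ [e]) = f (run l) e := fun l e => by simp [hrun]
  have hgr : ∀ l, Good (run l) := fun l => hg l x0 h0
  set buy : List (E n) → Bool := fun l => decide (B (run l) ≠ B (run l.dropLast)) with hbuy
  refine ⟨buy, fun σ => run (pre σ T), fun σ => ⟨hgr _, ?_⟩, ?_⟩
  · have : ∀ t ≤ T, (B (run (pre σ t)) : Set (E n)) = σ '' bought buy σ t := by
      intro t
      induction t with
      | zero => intro _; simp [pre, hrun, hB0, bought]
      | succ t ih =>
        intro ht
        have ht' : t < n.choose 2 := by omega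
        have ih := ih (by omega)
        have hb : buy (pre σ (t + 1)) = true ↔
            B (f (run (pre σ t)) (σ ⟨t, ht'⟩)) ≠ B (run (pre σ t)) := by
          simp only [hbuy, decide_eq_true_eq]
          rw [pre_succ σ t ht', hr, List.dropLast_concat]
        rw [pre_succ σ t ht', hr]
        by_cases hc : buy (pre σ (t + 1)) = true
        · have h1 : bought buy σ (t + 1) = insert ⟨t, ht'⟩ (bought buy σ t) := by
            ext i
            simp only [bought, Set.mem_setOf_eq, Set.mem_insert_iff]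
            constructor
            · rintro ⟨h1, h2⟩
              rcases Nat.lt_succ_iff_lt_or_eq.1 h1 with h | h
              · exact Or.inr ⟨h, h2⟩
              · exact Or.inl (Fin.ext h)
            · rintro (rfl | ⟨h1, h2⟩)
              · exact ⟨Nat.lt_succ_self _, hc⟩
              · exact ⟨by omega, h2⟩
          rw [h1, Set.image_insert_eq, ← ih,
            ((hf1 _ (hgr _) _).2).resolve_left (hb.1 hc), coe_insert]
        · have h1 : bought buy σ (t + 1) = bought buy σ t := by
            ext i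
            simp only [bought, Set.mem_setOf_eq]
            constructor
            · rintro ⟨h1, h2⟩
              rcases Nat.lt_succ_iff_lt_or_eq.1 h1 with h | h
              · exact ⟨h, h2⟩
              · rw [h] at h2; exact absurd h2 hc
            · rintro ⟨h1, h2⟩
              exact ⟨by omega, h2⟩
          rw [h1, ← ih, not_not.1 (fun h => hc (hb.2 h))]
    exact this T le_rfl
  · have : ∀ t ≤ T, ∑ σ : Ord n, Z (run (pre σ t)) ≤ ρ ^ t * Z x0 * Fintype.card (Ord n) := by
      intro t
      induction t with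
      | zero => intro _; simp [pre, hrun, mul_comm]
      | succ t ih =>
        intro ht
        have ht' : t < n.choose 2 := by omega
        have ih := ih (by omega)
        set J := univ.filter (fun j : Fin (n.choose 2) => t ≤ j.1) with hJ
        have hJ0 : (0 : ℝ) < J.card := by
          have : J.Nonempty := ⟨⟨t, ht'⟩, by simp [hJ]⟩
          exact_mod_cast card_pos.2 this
        have hJ1 : n.choose 2 ≤ J.card + T := by
          have h1 := card_filter_add_card_filter_not (s := univ)
            (fun j : Fin (n.choose 2) => t ≤ j.1)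
          have h2 := card_lt_le (N := n.choose 2) t
          simp only [not_le, card_univ, Fintype.card_fin] at h1
          rw [← hJ] at h1
          omega
        have h1 := cond_step t ht' (fun l e => Z (f (run l) e))
        have h2 : ∑ σ : Ord n, ∑ j ∈ J, Z (f (run (pre σ t)) (σ j))
            ≤ ∑ σ : Ord n, ρ * J.card * Z (run (pre σ t)) := by
          refine sum_le_sum fun σ _ => ?_
          have h3 := hf2 _ (hgr (pre σ t)) (J.map σ.toEmbedding) (by rwa [card_map])
          rwa [sum_map, card_map] at h3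
        rw [← h1, ← mul_sum] at h2
        have h3 : ∑ σ : Ord n, Z (run (pre σ (t + 1)))
            = ∑ σ : Ord n, Z (f (run (pre σ t)) (σ ⟨t, ht'⟩)) :=
          sum_congr rfl fun σ _ => by rw [pre_succ σ t ht', hr]
        rw [h3]
        refine le_of_mul_le_mul_left (h2.trans ?_) hJ0
        have := mul_le_mul_of_nonneg_left ih (mul_nonneg hρ hJ0.le)
        calc _ ≤ _ := this
          _ = _ := by ring
    exact this T le_rfl

/-- degree in an edge set -/
def dg {n : ℕ} (B : Finset (E n)) (v : Fin n) : ℕ := (B.filter (fun e => v ∈ e.1)).card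

/-- graph of an edge set -/
def gr {n : ℕ} (B : Finset (E n)) : SimpleGraph (Fin n) :=
  SimpleGraph.fromEdgeSet {e | ∃ a ∈ B, a.1 = e}

/-- the vertices with a given label -/
def tr {n : ℕ} (lab : Fin n → ℕ) (i : ℕ) : Finset (Fin n) := univ.filter (fun v => lab v = i)

/-- target numbers of trees -/
def mm (s k : ℕ) : ℕ := s * ∏ j ∈ Ico k s, 2 * (s / j + 1)

/-- number of trees of a given size -/
def cnt {n : ℕ} (M : ℕ) (lab : Fin n → ℕ) (k : ℕ) : ℕ :=
  ((range M).filter (fun i => (tr lab i).card = k)).card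

/-- invariants of the state -/
structure Good {n : ℕ} (s : ℕ) (x : ℕ × ℕ × Finset (E n) × (Fin n → ℕ)) : Prop where
  k1 : 1 ≤ x.1
  ks : x.1 ≤ s
  cz : x.1 = s → x.2.1 = 0
  cl : x.1 < s → x.2.1 < mm s (x.1 + 1)
  d3 : ∀ v, dg x.2.2.1 v ≤ 3
  d0 : ∀ v, mm s 1 ≤ x.2.2.2 v → dg x.2.2.1 v = 0
  ds : ∀ i < mm s 1, ∑ v ∈ tr x.2.2.2 i, dg x.2.2.1 v + 2 ≤ 2 * (tr x.2.2.2 i).card
  cn : ∀ v w, x.2.2.2 v < mm s 1 → x.2.2.2 v = x.2.2.2 w → (gr x.2.2.1).Reachable v w
  fr : n ≤ (univ.filter (fun v => mm s 1 ≤ x.2.2.2 v)).card + mm s 1 + x.2.2.1.card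
  c1 : mm s x.1 ≤ cnt (mm s 1) x.2.2.2 x.1 + x.2.1
  c2 : x.2.1 ≤ cnt (mm s 1) x.2.2.2 (x.1 + 1)
  bd : x.2.2.1.card + mm s x.1 ≤ mm s 1 + x.2.1

lemma mm_succ (s k : ℕ) (hk : k < s) : mm s k = 2 * (s / k + 1) * mm s (k + 1) := by
  unfold mm
  rw [prod_eq_prod_Ico_succ_bot hk]; ring

lemma mm_ge (s k : ℕ) : s ≤ mm s k :=
  Nat.le_mul_of_pos_right _ (prod_pos fun j _ => by positivity)

lemma good_init {n : ℕ} (s : ℕ) (hs : 2 ≤ s) (hM : mm s 1 ≤ n) :
    Good (n := n) s (1, 0, ∅, fun v => v.1) := by
  have ht : ∀ i < mm s 1, (tr (fun v : Fin n => v.1) i).card = 1 := by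
    intro i hi
    rw [card_eq_one]
    exact ⟨⟨i, by omega⟩, by ext v; simp [tr, Fin.ext_iff]⟩
  refine ⟨le_rfl, by simp; omega, fun _ => rfl, fun _ => ?_, by simp [dg], by simp [dg], ?_, ?_,
    ?_, ?_, by simp, by simp⟩
  · have := mm_ge s 2; show 0 < mm s 2; omega
  · intro i hi; simp [dg, ht i hi]
  · intro v w _ h; rw [Fin.ext h]
  · have h1 := card_filter_add_card_filter_not (s := univ) (fun j : Fin n => mm s 1 ≤ j.1)
    have h2 := card_lt_le (N := n) (mm s 1)
    simp only [not_le, card_univ, Fintype.card_fin] at h1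
    simp only; omega
  · simp only [cnt]
    rw [filter_true_of_mem (fun i hi => ht i (mem_range.1 hi))]; simp

lemma dg_insert {n : ℕ} (B : Finset (E n)) (e : E n) (he : e ∉ B) (u : Fin n) :
    dg (insert e B) u = dg B u + if u ∈ e.1 then 1 else 0 := by
  unfold dg
  rw [filter_insert]
  split_ifs with h
  · rw [card_insert_of_notMem (fun h' => he (mem_filter.1 h').1)]
  · rfl

lemma gr_mono {n : ℕ} {A B : Finset (E n)} (h : A ⊆ B) : gr A ≤ gr B :=
  SimpleGraph.fromEdgeSet_mono fun _ ⟨a, ha, h'⟩ => ⟨a, h ha, h'⟩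

lemma good_step {n : ℕ} (s k c : ℕ) (B : Finset (E n)) (lab : Fin n → ℕ)
    (g : Good s (k, c, B, lab)) (hk : k < s) (e : E n) (v w : Fin n) (he : e.1 = s(v, w))
    (hv : lab v < mm s 1) (hvk : (tr lab (lab v)).card = k) (hd : dg B v ≤ 2)
    (hw : mm s 1 ≤ lab w) :
    Good s (if c + 1 = mm s (k + 1) then k + 1 else k, if c + 1 = mm s (k + 1) then 0 else c + 1,
      insert e B, Function.update lab w (lab v)) := by
  obtain ⟨k1, ks, cz, cl, d3, d0, ds, cn, fr, c1, c2, bd⟩ := g
  dsimp only at *
  have hvw : v ≠ w := fun h => by rw [h] at hv; omega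
  have heB : e ∉ B := fun h => by
    have := d0 w hw
    rw [dg, card_eq_zero] at this
    exact notMem_empty e (this ▸ mem_filter.2 ⟨h, by simp [he]⟩)
  have hdg : ∀ u, dg (insert e B) u = dg B u + (if u = v then 1 else 0)
      + (if u = w then 1 else 0) := by
    intro u
    rw [dg_insert B e heB, he]
    by_cases h1 : u = v <;> by_cases h2 : u = w <;> simp_all
  have hwt : ∀ i < mm s 1, w ∉ tr lab i := fun i hi h => by
    have := (mem_filter.1 h).2; omega
  have ht1 : tr (Function.update lab w (lab v)) (lab v) = insert w (tr lab (lab v)) := by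
    ext u
    by_cases h : u = w <;> simp [tr, h]
  have ht2 : ∀ i < mm s 1, i ≠ lab v → tr (Function.update lab w (lab v)) i = tr lab i := by
    intro i hi hi'
    ext u
    by_cases h : u = w
    · subst h; simp [tr, hi'.symm]; omega
    · simp [tr, h]
  have hc1 : cnt (mm s 1) lab k ≤ cnt (mm s 1) (Function.update lab w (lab v)) k + 1 := by
    unfold cnt
    refine le_trans (card_le_card (t := insert (lab v) _) fun i hi => ?_) (card_insert_le _ _)
    by_cases h : i = lab v
    · simp [h]
    · obtain ⟨h1, h2⟩ := mem_filter.1 hi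
      exact mem_insert_of_mem (mem_filter.2 ⟨h1, by rwa [ht2 i (mem_range.1 h1) h]⟩)
  have hc2 : cnt (mm s 1) lab (k + 1) + 1
      ≤ cnt (mm s 1) (Function.update lab w (lab v)) (k + 1) := by
    unfold cnt
    rw [← card_insert_of_notMem (a := lab v) (fun h => by have := (mem_filter.1 h).2; omega)]
    refine card_le_card fun i hi => ?_
    by_cases h : i = lab v
    · rw [h]
      exact mem_filter.2 ⟨mem_range.2 hv, by rw [ht1, card_insert_of_notMem (hwt _ hv), hvk]⟩
    · obtain ⟨h1, h2⟩ := mem_filter.1 ((mem_insert.1 hi).resolve_left h)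
      exact mem_filter.2 ⟨h1, by rwa [ht2 i (mem_range.1 h1) h]⟩
  have hcl := cl hk
  have hmm := mm_succ s k hk
  have hmm2 : 2 * mm s (k + 1) ≤ mm s k := by
    rw [hmm]; exact Nat.mul_le_mul_right _ (Nat.le_mul_of_pos_right _ (Nat.succ_pos _))
  have hadj : (gr (insert e B)).Adj v w := by
    simp only [gr, SimpleGraph.fromEdgeSet_adj, Set.mem_setOf_eq]
    exact ⟨⟨e, mem_insert_self _ _, he⟩, hvw⟩
  have hcn : ∀ a b, lab a < mm s 1 → lab a = lab b → (gr (insert e B)).Reachable a b :=
    fun a b h1 h2 => (cn a b h1 h2).mono (gr_mono (subset_insert _ _))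
  constructor <;> dsimp only
  · split_ifs <;> omega
  · split_ifs <;> omega
  · split_ifs <;> omega
  · split_ifs
    · intro _; have := mm_ge s (k + 1 + 1); omega
    · omega
  · intro u
    rw [hdg]
    have := d3 u
    have := d0 w hw
    split_ifs with h1 h2 h2
    · exact absurd (h1.symm.trans h2) hvw
    · rw [h1]; omega
    · rw [h2]; omega
    · omega
  · intro u hu
    have h2 : u ≠ w := fun h => by rw [h, Function.update_self] at hu; omega
    rw [Function.update_of_ne h2] at hu
    have h1 : u ≠ v := fun h => by rw [h] at hu; omega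
    rw [hdg, d0 u hu]; simp [h1, h2]
  · intro i hi
    have h0 := ds i hi
    simp only [hdg, sum_add_distrib, sum_ite_eq']
    by_cases h : i = lab v
    · subst h
      have : v ∈ tr lab (lab v) := by simp [tr]
      rw [ht1, sum_insert (hwt _ hv), card_insert_of_notMem (hwt _ hv), d0 w hw]
      simp only [mem_insert, this, or_true, true_or, if_true]
      omega
    · have : v ∉ tr lab i := by simp [tr, Ne.symm h]
      rw [ht2 i hi h]
      simp only [this, hwt i hi, if_false]
      omega
  · intro a b ha hab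
    by_cases h1 : a = w <;> by_cases h2 : b = w
    · rw [h1, h2]
    · rw [h1, Function.update_self, Function.update_of_ne h2] at hab
      rw [h1]; exact hadj.symm.reachable.trans (hcn v b hv hab)
    · rw [Function.update_of_ne h1] at ha
      rw [h2, Function.update_self, Function.update_of_ne h1] at hab
      rw [h2]; exact (hcn a v ha hab).trans hadj.reachable
    · rw [Function.update_of_ne h1] at ha hab
      rw [Function.update_of_ne h2] at hab
      exact hcn a b ha hab
  · rw [card_insert_of_notMem heB]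
    have : (univ.filter (fun v => mm s 1 ≤ lab v)).card ≤
        (univ.filter (fun u => mm s 1 ≤ Function.update lab w (lab v) u)).card + 1 := by
      refine le_trans (card_le_card (t := insert w _) fun u hu => ?_) (card_insert_le _ _)
      by_cases h : u = w
      · simp [h]
      · refine mem_insert_of_mem (mem_filter.2 ⟨mem_univ _, ?_⟩)
        rw [Function.update_of_ne h]; exact (mem_filter.1 hu).2
    omega
  · split_ifs <;> omega
  · split_ifs <;> omega
  · rw [card_insert_of_notMem heB]
    split_ifs <;> omega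

/-- useful edges -/
def use {n : ℕ} (s k : ℕ) (B : Finset (E n)) (lab : Fin n → ℕ) (e : E n) : Prop :=
  ∃ v w, e.1 = s(v, w) ∧ lab v < mm s 1 ∧ (tr lab (lab v)).card = k ∧ dg B v ≤ 2 ∧
    mm s 1 ≤ lab w

open Classical in
lemma use_card {n : ℕ} (s k c : ℕ) (B : Finset (E n)) (lab : Fin n → ℕ)
    (g : Good s (k, c, B, lab)) (hk : k < s) (hM : 4 * mm s 1 ≤ n) :
    s * mm s (k + 1) * n ≤ 6 * (univ.filter (use s k B lab)).card := by
  obtain ⟨k1, ks, cz, cl, d3, d0, ds, cn, fr, c1, c2, bd⟩ := g
  dsimp only at *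
  have hcl := cl hk
  have hmm := mm_succ s k hk
  set W := univ.filter (fun v => mm s 1 ≤ lab v) with hW
  set I := (range (mm s 1)).filter (fun i => (tr lab i).card = k) with hI
  set V := I.biUnion (fun i => (tr lab i).filter (fun v => dg B v ≤ 2)) with hV
  have h1 : n ≤ 2 * W.card := by
    have : mm s (k + 1) ≤ mm s k := by
      rw [hmm]; exact Nat.le_mul_of_pos_left _ (by positivity)
    omega
  have h2 : k * I.card ≤ 3 * V.card := by
    rw [hV, card_biUnion, mul_sum, mul_comm k, ← smul_eq_mul, ← sum_const]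
    · refine sum_le_sum fun i hi => ?_
      obtain ⟨a1, a2⟩ := mem_filter.1 hi
      have a3 := ds i (mem_range.1 a1)
      have a4 := card_filter_add_card_filter_not (s := tr lab i) (fun v => dg B v ≤ 2)
      have a5 : ((tr lab i).filter (fun v => ¬ dg B v ≤ 2)).card • 3
          ≤ ∑ v ∈ tr lab i, dg B v :=
        (card_nsmul_le_sum _ _ _ fun v hv => by have := (mem_filter.1 hv).2; omega).trans
          (sum_le_sum_of_subset (filter_subset _ _))
      rw [smul_eq_mul] at a5
      omega
    · intro i _ j _ hij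
      refine disjoint_left.2 fun v h1 h2 => hij ?_
      exact ((mem_filter.1 (mem_filter.1 h1).1).2).symm.trans (mem_filter.1 (mem_filter.1 h2).1).2
  have h3 : s * mm s (k + 1) ≤ k * I.card := by
    have a1 : (s / k + 1) * mm s (k + 1) ≤ I.card := by
      have : cnt (mm s 1) lab k = I.card := rfl
      nlinarith [Nat.zero_le (s / k * mm s (k + 1))]
    have a2 : s ≤ k * (s / k + 1) := (Nat.lt_mul_div_succ s k1).le
    calc _ ≤ k * (s / k + 1) * mm s (k + 1) := Nat.mul_le_mul_right _ a2
      _ ≤ _ := by rw [mul_assoc]; exact Nat.mul_le_mul_left _ a1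
  have hVm : ∀ v ∈ V, lab v < mm s 1 ∧ (tr lab (lab v)).card = k ∧ dg B v ≤ 2 := by
    intro v hv
    obtain ⟨i, hi, hv⟩ := mem_biUnion.1 hv
    obtain ⟨a1, a2⟩ := mem_filter.1 hi
    obtain ⟨a3, a4⟩ := mem_filter.1 hv
    rw [(mem_filter.1 a3).2]
    exact ⟨mem_range.1 a1, a2, a4⟩
  have h4 : V.card * W.card ≤ (univ.filter (use s k B lab)).card := by
    rw [← card_product, ← card_image_of_injective (univ.filter (use s k B lab))
      Subtype.val_injective]
    refine card_le_card_of_injOn (fun z => s(z.1, z.2)) ?_ ?_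
    · rintro ⟨v, w⟩ hz
      obtain ⟨a1, a2⟩ := mem_product.1 hz
      have a3 := (mem_filter.1 a2).2
      obtain ⟨b1, b2, b3⟩ := hVm v a1
      have a4 : v ≠ w := fun h => by subst h; dsimp only at a3; omega
      simp only [coe_image, Set.mem_image, coe_filter, mem_univ, true_and, Set.mem_setOf_eq]
      exact ⟨⟨s(v, w), by simpa using a4⟩, ⟨v, w, rfl, b1, b2, b3, a3⟩, rfl⟩
    · rintro ⟨v, w⟩ hz ⟨v', w'⟩ hz' h
      rcases Sym2.eq_iff.1 h with ⟨a1, a2⟩ | ⟨a1, a2⟩
      · exact Prod.ext a1 a2
      · have b1 := (hVm v (mem_product.1 hz).1).1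
        have b2 := (mem_filter.1 (mem_product.1 hz').2).2
        dsimp only at a1 b2
        rw [a1] at b1; omega
  calc s * mm s (k + 1) * n ≤ (3 * V.card) * (2 * W.card) := Nat.mul_le_mul (h3.trans h2) h1
    _ = 6 * (V.card * W.card) := by ring
    _ ≤ _ := Nat.mul_le_mul_left _ h4

end Pool.Agent.H28.Budget
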