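import Pool.Agent.H28.Budget2

set_option autoImplicit false

namespace Pool.Agent.H28.Budget

open Finset Filter Topology

/-- potential -/
noncomputable def pot {n : ℕ} (s : ℕ) (x : ℕ × ℕ × Finset (E n) × (Fin n → ℕ)) : ℝ :=
  if x.1 < s then Real.exp (-(s * ((x.1 : ℝ) + (x.2.1 : ℝ) / mm s (x.1 + 1)))) else 0

/-- graphs containing a connected subgraph of maximum degree at most 3 on `s` vertices -/
def PP (s n : ℕ) : Set (SimpleGraph (Fin n)) :=
  {G | ∃ H ≤ G, (∀ v, (H.neighborSet v).ncard ≤ 3) ∧ ∃ v, s ≤ {w | H.Reachable v w}.ncard}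

lemma pot_nonneg {n : ℕ} (s : ℕ) (x : ℕ × ℕ × Finset (E n) × (Fin n → ℕ)) : 0 ≤ pot s x := by
  unfold pot; split_ifs <;> positivity

lemma exp_neg_le (x : ℝ) (h0 : 0 ≤ x) (h1 : x ≤ 1) : Real.exp (-x) ≤ 1 - x / 2 := by
  have h2 := Real.add_one_le_exp x
  have h3 : Real.exp (-x) * Real.exp x = 1 := by rw [← Real.exp_add]; simp
  have h4 := Real.exp_pos (-x)
  nlinarith [mul_le_mul_of_nonneg_left h2 h4.le, mul_nonneg h0 (sub_nonneg.2 h1)]

open Classical in
lemma step_ex {n : ℕ} (s : ℕ) (hs : 17 ≤ s) (hM : 4 * mm s 1 ≤ n)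
    (x : ℕ × ℕ × Finset (E n) × (Fin n → ℕ)) (g : Good s x) :
    ∃ f : E n → ℕ × ℕ × Finset (E n) × (Fin n → ℕ),
      (∀ e, Good s (f e) ∧ ((f e).2.2.1 = x.2.2.1 ∨ (f e).2.2.1 = insert e x.2.2.1)) ∧
      ∀ R : Finset (E n), n.choose 2 ≤ R.card + 24 * n →
        ∑ e ∈ R, pot s (f e) ≤ (1 - (s : ℝ) ^ 2 / (12 * n)) * R.card * pot s x := by
  obtain ⟨k, c, B, lab⟩ := x
  by_cases hk : k < s
  swap
  · refine ⟨fun _ => (k, c, B, lab), fun e => ⟨g, Or.inl rfl⟩, fun R _ => ?_⟩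
    simp [pot, hk]
  have hm := mm_ge s (k + 1)
  have hm1 := mm_ge s 1
  have hm' : (s : ℝ) ≤ mm s (k + 1) := by exact_mod_cast hm
  have hs' : (17 : ℝ) ≤ s := by exact_mod_cast hs
  have hm0 : (0 : ℝ) < mm s (k + 1) := by linarith
  have hn0 : (0 : ℝ) < n := by exact_mod_cast (by omega : 0 < n)
  set δ : ℝ := (s : ℝ) / mm s (k + 1) / 2 with hδ
  have hex : ∀ e : E n, ∃ y : ℕ × ℕ × Finset (E n) × (Fin n → ℕ),
      (Good s y ∧ (y.2.2.1 = B ∨ y.2.2.1 = insert e B)) ∧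
        pot s y ≤ (1 - if use s k B lab e then δ else 0) * pot s (k, c, B, lab) := by
    intro e
    by_cases hu : use s k B lab e
    swap
    · exact ⟨_, ⟨g, Or.inl rfl⟩, by simp [hu]⟩
    rw [if_pos hu]
    obtain ⟨v, w, h1, h2, h3, h4, h5⟩ := hu
    refine ⟨_, ⟨good_step s k c B lab g hk e v w h1 h2 h3 h4 h5, Or.inr rfl⟩, ?_⟩
    have h6 := exp_neg_le ((s : ℝ) / mm s (k + 1)) (by positivity) (div_le_one_of_le₀ hm' hm0.le)
    have h7 : Real.exp (-(s * ((k : ℝ) + ((c : ℝ) + 1) / mm s (k + 1))))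
        ≤ (1 - δ) * pot s (k, c, B, lab) := by
      simp only [pot, if_pos hk]
      refine le_trans (le_of_eq ?_) (mul_le_mul_of_nonneg_right h6 (Real.exp_pos _).le)
      rw [← Real.exp_add]; congr 1; ring
    refine le_trans ?_ h7
    by_cases hc : c + 1 = mm s (k + 1)
    · simp only [pot, if_pos hc]
      split_ifs
      · have : (c : ℝ) + 1 = mm s (k + 1) := by exact_mod_cast hc
        rw [this, div_self hm0.ne']; simp
      · positivity
    · simp only [pot, if_neg hc, if_pos hk]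
      push_cast; exact le_rfl
  choose f hf1 hf2 using hex
  refine ⟨f, hf1, fun R hR => (sum_le_sum fun e _ => hf2 e).trans ?_⟩
  rw [← sum_mul]
  refine mul_le_mul_of_nonneg_right ?_ (pot_nonneg _ _)
  rw [sum_sub_distrib, ← sum_filter]
  simp only [sum_const, nsmul_eq_mul, mul_one]
  have h1 := use_card s k c B lab g hk hM
  have h2 : (univ.filter (use s k B lab)).card ≤ (R.filter (use s k B lab)).card + 24 * n := by
    have a1 : univ.filter (use s k B lab) ⊆ R.filter (use s k B lab) ∪ Rᶜ := by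
      intro e he
      by_cases h : e ∈ R <;> simp_all
    have a2 := (card_le_card a1).trans (card_union_le _ _)
    rw [card_compl, cardE] at a2
    omega
  have h3 : 2 * R.card ≤ n * n := by
    have a1 := card_le_univ R
    rw [cardE, Nat.choose_two_right] at a1
    have a2 := Nat.mul_div_le (n * (n - 1)) 2
    have a3 : n * (n - 1) ≤ n * n := Nat.mul_le_mul_left _ (Nat.sub_le _ _)
    omega
  have h4 : s * mm s (k + 1) * n ≤ 12 * (R.filter (use s k B lab)).card := by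
    have : 17 * 17 * n ≤ s * mm s (k + 1) * n :=
      Nat.mul_le_mul_right _ (Nat.mul_le_mul hs (hs.trans hm))
    omega
  have h3' : 2 * (R.card : ℝ) ≤ n * n := by exact_mod_cast h3
  have h4' : (s : ℝ) * mm s (k + 1) * n ≤ 12 * (R.filter (use s k B lab)).card := by
    exact_mod_cast h4
  have h5 : (s : ℝ) ^ 2 / (12 * n) * R.card ≤ (s : ℝ) ^ 2 * n / 24 := by
    rw [div_mul_eq_mul_div, div_le_div_iff₀ (by positivity) (by positivity)]
    nlinarith [mul_le_mul_of_nonneg_left h3' (sq_nonneg (s : ℝ))]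
  have h6 : (s : ℝ) ^ 2 * n / 24 ≤ (R.filter (use s k B lab)).card * δ := by
    rw [hδ, div_div, mul_div_assoc', div_le_div_iff₀ (by positivity) (by positivity)]
    nlinarith [mul_le_mul_of_nonneg_left h4' (by linarith : (0 : ℝ) ≤ s)]
  linarith

lemma nb_le_dg {n : ℕ} (B : Finset (E n)) (v : Fin n) :
    ((gr B).neighborSet v).ncard ≤ dg B v := by
  rw [dg, ← card_image_of_injective _ Subtype.val_injective, ← Set.ncard_coe_finset]
  refine Set.ncard_le_ncard_of_injOn (fun w => s(v, w)) ?_ ?_ (Finset.finite_toSet _)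
  · intro w hw
    simp only [gr, SimpleGraph.mem_neighborSet, SimpleGraph.fromEdgeSet_adj,
      Set.mem_setOf_eq] at hw
    obtain ⟨⟨a, ha, ha'⟩, -⟩ := hw
    simp only [coe_image, Set.mem_image, coe_filter, Set.mem_setOf_eq]
    exact ⟨a, ⟨ha, by simp [ha']⟩, ha'⟩
  · intro a _ b _ h
    exact Sym2.congr_right.1 h

open Classical in
lemma strat {n : ℕ} (s : ℕ) (hs : 17 ≤ s) (hM : 4 * mm s 1 ≤ n) (hT : 24 * n ≤ n.choose 2)
    (hsn : s ^ 2 ≤ 12 * n) :
    ∃ buy : List (E n) → Bool, (∀ σ, (bought buy σ (24 * n)).ncard ≤ mm s 1) ∧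
      ((univ.filter (fun σ : Ord n => ¬ grOf σ (bought buy σ (24 * n)) ∈ PP s n)).card : ℝ)
        ≤ Real.exp (-(s : ℝ) ^ 2) * Fintype.card (Ord n) := by
  have hm1 := mm_ge s 1
  have hn0 : (0 : ℝ) < n := by exact_mod_cast (by omega : 0 < n)
  have hsn' : (s : ℝ) ^ 2 ≤ 12 * n := by exact_mod_cast hsn
  have hρ : 0 ≤ 1 - (s : ℝ) ^ 2 / (12 * n) := sub_nonneg.2 (div_le_one_of_le₀ hsn' (by positivity))
  obtain ⟨buy, y, h1, h2⟩ := builder (fun x => x.2.2.1) (pot s) (Good s) _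
    (good_init (n := n) s (by omega) (by omega)) rfl (24 * n) hT _ hρ (step_ex s hs hM)
  refine ⟨buy, fun σ => ?_, ?_⟩
  · obtain ⟨g, h⟩ := h1 σ
    rw [← Set.ncard_image_of_injective _ σ.injective, ← h, Set.ncard_coe_finset]
    have a1 := g.bd
    rcases g.ks.lt_or_eq with a2 | a2
    · have a3 := g.cl a2
      have a4 : mm s ((y σ).1 + 1) ≤ mm s (y σ).1 := by
        rw [mm_succ s _ a2]; exact Nat.le_mul_of_pos_left _ (by positivity)
      omega
    · have := g.cz a2; omega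
  have h3 : ∀ σ ∈ univ.filter (fun σ : Ord n => ¬ grOf σ (bought buy σ (24 * n)) ∈ PP s n),
      Real.exp (-(s : ℝ) ^ 2) ≤ pot s (y σ) := by
    intro σ hσ
    obtain ⟨g, h⟩ := h1 σ
    rcases g.ks.lt_or_eq with a2 | a2
    · have a3 := g.cl a2
      have a4 : ((y σ).2.1 : ℝ) / mm s ((y σ).1 + 1) ≤ 1 :=
        div_le_one_of_le₀ (by exact_mod_cast a3.le) (by positivity)
      have a5 : ((y σ).1 : ℝ) + 1 ≤ s := by exact_mod_cast a2
      simp only [pot, if_pos a2]
      refine Real.exp_le_exp.2 ?_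
      have : (0 : ℝ) ≤ s := by positivity
      nlinarith
    · refine absurd ?_ (mem_filter.1 hσ).2
      have a3 : grOf σ (bought buy σ (24 * n)) = gr (y σ).2.2.1 := by
        unfold grOf gr
        congr 1
        ext e
        simp only [Set.mem_setOf_eq, ← mem_coe, h, Set.exists_mem_image]
      rw [a3]
      refine ⟨_, le_rfl, fun v => (nb_le_dg _ v).trans (g.d3 v), ?_⟩
      have a4 := g.c1
      have a5 := mm_ge s s
      rw [g.cz a2, a2] at a4
      obtain ⟨i, hi⟩ : ((range (mm s 1)).filter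
          (fun i => (tr (y σ).2.2.2 i).card = s)).Nonempty := by
        rw [← card_pos]; unfold cnt at a4; omega
      obtain ⟨b1, b2⟩ := mem_filter.1 hi
      obtain ⟨v, hv⟩ : (tr (y σ).2.2.2 i).Nonempty := by rw [← card_pos]; omega
      have b3 := (mem_filter.1 hv).2
      refine ⟨v, ?_⟩
      rw [← b2, ← Set.ncard_coe_finset]
      refine Set.ncard_le_ncard (fun w hw => ?_) (Set.toFinite _)
      exact g.cn v w (b3 ▸ mem_range.1 b1) (b3.trans (mem_filter.1 hw).2.symm)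
  have h4 := (card_nsmul_le_sum _ _ _ h3).trans ((sum_le_sum_of_subset_of_nonneg
    (subset_univ _) fun σ _ _ => pot_nonneg s (y σ)).trans h2)
  have h5 : pot (n := n) s (1, 0, ∅, fun v => v.1) ≤ 1 := by
    unfold pot; split_ifs
    · exact Real.exp_le_one_iff.2 (neg_nonpos.2 (by positivity))
    · exact zero_le_one
  have h6 : (1 - (s : ℝ) ^ 2 / (12 * n)) ^ (24 * n)
      ≤ Real.exp (-(s : ℝ) ^ 2) * Real.exp (-(s : ℝ) ^ 2) := by
    refine (pow_le_pow_left₀ hρ (Real.one_sub_le_exp_neg _) _).trans (le_of_eq ?_)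
    rw [← Real.exp_nat_mul, ← Real.exp_add]
    congr 1; push_cast; field_simp; ring
  rw [nsmul_eq_mul] at h4
  refine le_of_mul_le_mul_right (h4.trans ?_) (Real.exp_pos (-(s : ℝ) ^ 2))
  have h7 := mul_le_mul h6 h5 (pot_nonneg _ _) (by positivity)
  have h8 := mul_le_mul_of_nonneg_right h7 (ord_pos n).le
  calc _ ≤ _ := h8
    _ = _ := by ring

lemma mm_le (s : ℕ) (hs : 1 ≤ s) : mm s 1 ≤ s * 16 ^ s := by
  refine Nat.mul_le_mul_left _ ?_
  have h1 : ((∏ j ∈ Ico 1 s, 2 * (s / j + 1) : ℕ) : ℝ) ≤ ∏ j ∈ Ico 1 s, (4 * s / j : ℝ) := by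
    push_cast
    refine prod_le_prod (fun j _ => by positivity) fun j hj => ?_
    obtain ⟨a1, a2⟩ := mem_Ico.1 hj
    have a3 : (0 : ℝ) < j := by exact_mod_cast a1
    have a4 : ((s / j : ℕ) : ℝ) ≤ s / j := Nat.cast_div_le
    have a5 : (1 : ℝ) ≤ s / j := (one_le_div a3).2 (by exact_mod_cast a2.le)
    rw [mul_div_assoc]; linarith
  have h2 : ∏ j ∈ Ico 1 s, (4 * s / j : ℝ) = (4 * s) ^ (s - 1) / (s - 1).factorial := by
    rw [prod_div_distrib, prod_const, Nat.card_Ico, ← Nat.cast_prod]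
    obtain ⟨t, rfl⟩ := Nat.exists_eq_add_of_le' hs
    rw [prod_Ico_id_eq_factorial]; simp
  have h3 := Real.pow_div_factorial_le_exp (s : ℝ) (by positivity) (s - 1)
  have h4 : Real.exp s ≤ 4 ^ s := by
    rw [← Real.exp_one_pow]
    exact pow_le_pow_left₀ (Real.exp_pos _).le (by linarith [Real.exp_one_lt_d9]) _
  have h5 : (4 : ℝ) ^ (s - 1) ≤ 4 ^ s := pow_le_pow_right₀ (by norm_num) (Nat.sub_le _ _)
  have h6 : ((∏ j ∈ Ico 1 s, 2 * (s / j + 1) : ℕ) : ℝ) ≤ 16 ^ s := by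
    refine h1.trans ?_
    rw [h2, mul_pow, mul_div_assoc, show (16 : ℝ) = 4 * 4 by norm_num, mul_pow]
    exact mul_le_mul h5 (h3.trans h4) (by positivity) (by positivity)
  exact_mod_cast h6

end Pool.Agent.H28.Budget
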