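import Mathlib

set_option autoImplicit false

namespace Pool.Agent.H28.Chord

open Finset Relation

variable {V : Type*}

/-- every cycle `f 0, …, f n` of length `n + 1 ≥ 4` has a chord -/
def Chordal (G : SimpleGraph V) : Prop :=
  ∀ (n : ℕ) (f : ℕ → V), 3 ≤ n → Set.InjOn f (Set.Iic n) → (∀ i < n, G.Adj (f i) (f (i + 1))) →
    G.Adj (f n) (f 0) → ∃ i j, i + 1 < j ∧ j ≤ n ∧ ¬ (i = 0 ∧ j = n) ∧ G.Adj (f i) (f j)

lemma clique_of {G : SimpleGraph V} (hG : Chordal G) {C : Set V} {x y u w : V}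
    (hC : ∀ c ∈ C, c ≠ x ∧ ¬ G.Adj x c)
    (hy : ∀ c ∈ C, ReflTransGen (fun a b => G.Adj a b ∧ a ∈ C ∧ b ∈ C) y c)
    (hu : G.Adj x u) (hw : G.Adj x w) (hu' : ∃ c ∈ C, G.Adj u c) (hw' : ∃ c ∈ C, G.Adj w c)
    (huw : u ≠ w) : G.Adj u w := by
  classical
  by_contra hn
  let P : ℕ → V → Prop := fun n z => ∃ f : ℕ → V, f 0 = u ∧ f n = z ∧
    (∀ i < n, G.Adj (f i) (f (i + 1))) ∧ ∀ i, 0 < i → i < n → f i ∈ C
  have ext : ∀ n c z, P n c → c ∈ C → G.Adj c z → P (n + 1) z := by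
    rintro n c z ⟨f, f0, fn, fa, fc⟩ hc hz
    refine ⟨fun i => if i ≤ n then f i else z, by simpa, by simp, fun i hi => ?_, fun i h1 h2 => ?_⟩
    · grind
    · grind
  have hQ : ∀ c, ReflTransGen (fun a b => G.Adj a b ∧ a ∈ C ∧ b ∈ C) y c →
      ((∃ n, P n y) ↔ ∃ n, P n c) := by
    intro c hc
    induction hc with
    | refl => rfl
    | tail _ h ih => exact ih.trans ⟨fun ⟨n, hn⟩ => ⟨_, ext n _ _ hn h.2.1 h.1⟩,
        fun ⟨n, hn⟩ => ⟨_, ext n _ _ hn h.2.2 h.1.symm⟩⟩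
  obtain ⟨c, hc, huc⟩ := hu'
  obtain ⟨d, hd, hwd⟩ := hw'
  have h1 : ∃ n, P n w := by
    obtain ⟨n, hn⟩ := (hQ d (hy d hd)).1 ((hQ c (hy c hc)).2
      ⟨1, fun i => if i = 0 then u else c, by simp, by simp, by simpa, by omega⟩)
    exact ⟨_, ext n d w hn hd hwd.symm⟩
  obtain ⟨f, f0, fn, fa, fc⟩ := Nat.find_spec h1
  have hm := fun m => Nat.find_min h1 (m := m)
  generalize Nat.find h1 = n at *
  clear hQ hy ext h1 hc hd huc hwd
  have cut : ∀ i j, i + 1 < j → j ≤ n → ¬ G.Adj (f i) (f j) := fun i j h2 h3 h4 => by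
    obtain ⟨e, rfl⟩ : ∃ e, j = i + 1 + e := ⟨j - (i + 1), by omega⟩
    refine hm (n - e) (by omega) ⟨fun k => if k ≤ i then f k else f (k + e), by simpa, ?_,
      fun k hk => ?_, fun k h5 h6 => ?_⟩
    · simp only [if_neg (show ¬ n - e ≤ i by omega), Nat.sub_add_cancel (show e ≤ n by omega), fn]
    · rcases lt_trichotomy k i with h | rfl | h
      · simp only [if_pos h.le, if_pos (show k + 1 ≤ i from h)]; exact fa k (by omega)
      · simpa using h4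
      · simp only [if_neg h.not_ge, if_neg (show ¬ k + 1 ≤ i by omega), add_right_comm k 1]
        exact fa _ (by omega)
    · dsimp only
      split_ifs <;> exact fc _ (by omega) (by omega)
  have h2 : 2 ≤ n := by
    rcases n with _ | _ | n
    · exact absurd (f0.symm.trans fn) huw
    · exact absurd (f0 ▸ fn ▸ fa 0 (by omega)) hn
    · omega
  have h3 : ∀ i j, i < j → j ≤ n → f i ≠ f j := fun i j h4 h5 h6 => by
    by_cases h7 : j = n
    · by_cases h8 : i = 0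
      · exact huw (by rw [← f0, ← fn, ← h7, ← h6, h8])
      · exact (hC _ (fc i (by omega) (by omega))).2 (by rw [h6, h7, fn]; exact hw)
    · exact cut i (j + 1) (by omega) (by omega) (h6 ▸ fa j (by omega))
  have h4 : ∀ i ≤ n, f i ≠ x := fun i hi h => by
    have := hu.ne'; have := hw.ne'; have := fc i; grind
  obtain ⟨i, j, h5, h6, h7, h8⟩ := hG (n + 1) (fun k => if k ≤ n then f k else x) (by omega)
    (fun i hi j hj h => by
      have := h3 i j; have := h3 j i; have := h4 i; have := h4 j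
      simp only [Set.mem_Iic] at hi hj; grind)
    (fun i hi => by have := hw.symm; grind) (by simpa [f0])
  by_cases h9 : j ≤ n
  · exact cut i j h5 h9 (by grind)
  · exact (hC _ (fc i (by omega) (by omega))).2 (G.adj_symm (by grind))

/-- `v` is simplicial in the subgraph induced on `S` -/
def Simp (G : SimpleGraph V) (S : Finset V) (v : V) : Prop :=
  ∀ a ∈ S, ∀ b ∈ S, G.Adj v a → G.Adj v b → a ≠ b → G.Adj a b

lemma dirac_aux {G : SimpleGraph V} (hG : Chordal G) (S : Finset V) : ∀ x ∈ S, ∀ y ∈ S, y ≠ x →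
    ¬ G.Adj x y → ∃ v ∈ S, v ≠ x ∧ ¬ G.Adj x v ∧ Simp G S v := by
  classical
  induction S using Finset.strongInduction with
  | H S ih =>
  intro x hx y hy h1 h2
  let r : V → V → Prop := fun a b => G.Adj a b ∧ b ∈ S ∧ b ≠ x ∧ ¬ G.Adj x b
  let C : Set V := {c | ReflTransGen r y c}
  have hC : ∀ c ∈ C, c ∈ S ∧ c ≠ x ∧ ¬ G.Adj x c := fun c hc => by
    induction hc with
    | refl => exact ⟨hy, h1, h2⟩
    | tail _ h => exact h.2
  have hy' : ∀ c ∈ C, ReflTransGen (fun a b => G.Adj a b ∧ a ∈ C ∧ b ∈ C) y c := fun c hc => by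
    induction hc with
    | refl => exact .refl
    | tail h h' ih => exact ih.tail ⟨h'.1, h, h.tail h'⟩
  let T := S.filter fun z => z ∈ C ∨ (G.Adj x z ∧ ∃ c ∈ C, G.Adj z c)
  have hT : T ⊂ S := (filter_ssubset).2 ⟨x, hx, fun h => h.elim (fun h => (hC x h).2.1 rfl)
    fun h => h.1.ne rfl⟩
  have hN : ∀ c ∈ C, ∀ z ∈ S, G.Adj c z → z ∈ T := fun c hc z hz h => mem_filter.2 ⟨hz, by
    by_cases h3 : G.Adj x z
    · exact .inr ⟨h3, c, hc, h.symm⟩
    · exact .inl (hc.tail ⟨h, hz, fun h4 => (hC c hc).2.2 (h4 ▸ h.symm), h3⟩)⟩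
  suffices ∃ v ∈ C, Simp G T v by
    obtain ⟨v, hv, hs⟩ := this
    exact ⟨v, (hC v hv).1, (hC v hv).2.1, (hC v hv).2.2, fun a ha b hb h3 h4 =>
      hs a (hN v hv a ha h3) b (hN v hv b hb h4) h3 h4⟩
  by_cases h3 : ∃ s ∈ T, s ∉ C ∧ ∃ t ∈ T, t ≠ s ∧ ¬ G.Adj s t
  · obtain ⟨s, hs, hsC, t, ht, h4, h5⟩ := h3
    obtain ⟨v, hv, h6, h7, h8⟩ := ih T hT s hs t ht h4 h5
    refine ⟨v, by_contra fun h9 => ?_, h8⟩
    have a1 := (mem_filter.1 hs).2.resolve_left hsC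
    have a2 := (mem_filter.1 hv).2.resolve_left h9
    exact h7 (clique_of hG (fun c hc => (hC c hc).2) hy' a1.1 a2.1 a1.2 a2.2 h6.symm)
  by_cases h4 : ∃ s ∈ T, ∃ t ∈ T, t ≠ s ∧ ¬ G.Adj s t
  · obtain ⟨s, hs, t, ht, h5, h6⟩ := h4
    obtain ⟨v, hv, h7, h8, h9⟩ := ih T hT s hs t ht h5 h6
    exact ⟨v, by_contra fun h => h3 ⟨v, hv, h, s, hs, h7.symm, fun h' => h8 h'.symm⟩, h9⟩
  · exact ⟨y, .refl, fun a ha b hb _ _ h => by_contra fun h' => h4 ⟨a, ha, b, hb, h.symm, h'⟩⟩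

/-- Dirac: a nonempty finite part of a chordal graph has a simplicial vertex -/
theorem dirac {G : SimpleGraph V} (hG : Chordal G) {S : Finset V} (hS : S.Nonempty) :
    ∃ v ∈ S, Simp G S v := by
  by_cases h : ∃ s ∈ S, ∃ t ∈ S, t ≠ s ∧ ¬ G.Adj s t
  · obtain ⟨s, hs, t, ht, h1, h2⟩ := h
    obtain ⟨v, hv, -, -, h3⟩ := dirac_aux hG S s hs t ht h1 h2
    exact ⟨v, hv, h3⟩
  · obtain ⟨y, hy⟩ := hS
    exact ⟨y, hy, fun a ha b hb _ _ h1 => by_contra fun h' => h ⟨a, ha, b, hb, h1.symm, h'⟩⟩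

end Pool.Agent.H28.Chord
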