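import Pool.Agent.H28.GenSL

set_option autoImplicit false

/-! Building a simply transitive group of homeomorphisms by transfinite recursion. -/

namespace Pool.Agent.H28.FreeAct

open Set Pool.Agent.H28.GenSL

variable {X K : Type} [TopologicalSpace X] [Group K]

structure Inv (κ : X → K) (G : Subgroup (X ≃ₜ X)) (L : Subgroup K) : Prop where
  lab : ∀ a ∈ G, ∀ x, κ (a x) * (κ x)⁻¹ ∈ L
  free : ∀ a ∈ G, ∀ x, a x = x → a = 1
  out : ∀ a ∈ G, ∀ x, κ x ∉ L → κ (a x) = κ x → a = 1

inductive Q {H : Type} [Group H] (G : Subgroup H) (g : H) : Bool → H → Prop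
  | base (ε : Bool) (a : H) : a ∈ G → Q G g ε (sg ε g * a)
  | step (ε ε' : Bool) (a w : H) : Q G g ε w → a ∈ G → (ε' ≠ ε → a ≠ 1) →
      Q G g ε' (sg ε' g * a * w)

lemma sg_cancel {H : Type} [Group H] {ε ε' : Bool} (h : ε' ≠ ε) (g : H) :
    sg ε' g * sg ε g = 1 := by
  cases ε <;> cases ε' <;> simp_all [sg]

lemma normal {H : Type} [Group H] (G : Subgroup H) (g : H) {b : H}
    (hb : b ∈ Subgroup.closure (insert g (G : Set H))) :
    b ∈ G ∨ ∃ a ∈ G, ∃ ε w, Q G g ε w ∧ b = a * w := by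
  have h1 : ∀ x ∈ G, ∀ y, (y ∈ G ∨ ∃ a ∈ G, ∃ ε w, Q G g ε w ∧ y = a * w) →
      (x * y ∈ G ∨ ∃ a ∈ G, ∃ ε w, Q G g ε w ∧ x * y = a * w) := by
    rintro x hx y (hy | ⟨a, ha, ε, w, hw, rfl⟩)
    · exact Or.inl (mul_mem hx hy)
    · exact Or.inr ⟨x * a, mul_mem hx ha, ε, w, hw, by rw [mul_assoc]⟩
  have h2 : ∀ ε' y, (y ∈ G ∨ ∃ a ∈ G, ∃ ε w, Q G g ε w ∧ y = a * w) →
      (sg ε' g * y ∈ G ∨ ∃ a ∈ G, ∃ ε w, Q G g ε w ∧ sg ε' g * y = a * w) := by
    rintro ε' y (hy | ⟨a, ha, ε, w, hw, rfl⟩)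
    · exact Or.inr ⟨1, one_mem _, ε', _, Q.base ε' y hy, by rw [one_mul]⟩
    · by_cases h : ε' ≠ ε → a ≠ 1
      · exact Or.inr ⟨1, one_mem _, ε', _, Q.step ε ε' a w hw ha h, by rw [one_mul, mul_assoc]⟩
      · push Not at h
        obtain ⟨hne, rfl⟩ := h
        cases hw with
        | base _ a0 ha0 =>
          left
          rwa [one_mul, ← mul_assoc, sg_cancel hne, one_mul]
        | step ε0 _ a0 w0 hw0 ha0 _ =>
          right
          refine ⟨a0, ha0, ε0, w0, hw0, ?_⟩
          rw [one_mul, ← mul_assoc, ← mul_assoc, sg_cancel hne, one_mul]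
  induction hb using Subgroup.closure_induction_left with
  | one => exact Or.inl (one_mem _)
  | mul_left x hx y _ ih =>
    rcases hx with rfl | hx
    · exact h2 true y ih
    · exact h1 x hx y ih
  | inv_mul_cancel x hx y _ ih =>
    rcases hx with rfl | hx
    · exact h2 false y ih
    · exact h1 _ (inv_mem hx) y ih

lemma Q_mem {H : Type} [Group H] {G : Subgroup H} {g : H} {ε : Bool} {w : H} (h : Q G g ε w) :
    w ∈ Subgroup.closure (insert g (G : Set H)) := by
  have hg : ∀ ε, sg ε g ∈ Subgroup.closure (insert g (G : Set H)) := fun ε => by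
    cases ε
    · exact inv_mem (Subgroup.subset_closure (mem_insert _ _))
    · exact Subgroup.subset_closure (mem_insert _ _)
  induction h with
  | base ε a ha => exact mul_mem (hg ε) (Subgroup.subset_closure (mem_insert_of_mem _ ha))
  | step ε ε' a w _ ha _ ih =>
    exact mul_mem (mul_mem (hg ε') (Subgroup.subset_closure (mem_insert_of_mem _ ha))) ih

theorem Inv.step {κ : X → K} {G : Subgroup (X ≃ₜ X)} {L L' : Subgroup K} (hI : Inv κ G L)
    {g : X ≃ₜ X} {p0 p : X} {t : ℕ → K} (h0 : κ p0 ∈ L) (h1 : κ p ∈ L) (hg : g p0 = p)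
    (hgen : ∀ x, x ≠ p0 → ∃ n, κ (g x) = t n * κ x) (hF : Free L t)
    (horb : ∀ a ∈ G, a p0 ≠ p) (hL : L ≤ L') (ht : ∀ n, t n ∈ L') :
    Inv κ (Subgroup.closure (insert g (G : Set (X ≃ₜ X)))) L' := by
  let sp : Bool → X := fun ε => bif ε then p0 else p
  have hspL : ∀ ε, κ (sp ε) ∈ L := fun ε => by cases ε; exacts [h1, h0]
  have hsp : ∀ ε, sg ε g (sp ε) = sp (!ε) := fun ε => by
    cases ε
    · exact (Homeomorph.symm_apply_eq g).2 hg.symm
    · exact hg
  have huse : ∀ ε y, y ≠ sp ε → ∃ n, κ (sg ε g y) = sg ε (t n) * κ y := fun ε y hy => by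
    cases ε
    · obtain ⟨n, hn⟩ := hgen (g.symm y) (fun h => hy (by
        rw [Homeomorph.symm_apply_eq] at h
        rw [h, hg]; rfl))
      refine ⟨n, ?_⟩
      rw [Homeomorph.apply_symm_apply] at hn
      rw [hn]
      simp [sg]
    · exact hgen y hy
  have horb' : ∀ ε, ∀ a ∈ G, a (sp (!ε)) ≠ sp ε := fun ε a ha h => by
    cases ε
    · exact horb a ha h
    · exact horb _ (inv_mem ha) ((Homeomorph.symm_apply_eq a).2 h.symm)
  have hlabG : ∀ a ∈ G, ∀ y, ∃ α ∈ L, κ (a y) = α * κ y ∧ (κ y ∉ L → a ≠ 1 → α ≠ 1) :=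
    fun a ha y => ⟨_, hI.lab a ha y, by group, fun hy hne h =>
      hne (hI.out a ha y hy (mul_inv_eq_one.1 h))⟩
  have hlab : ∀ a ∈ Subgroup.closure (insert g (G : Set (X ≃ₜ X))), ∀ x,
      κ (a x) * (κ x)⁻¹ ∈ L' := by
    intro a ha
    induction ha using Subgroup.closure_induction with
    | mem a ha =>
      intro x
      rcases ha with rfl | ha
      · by_cases hx : x = p0
        · rw [hx, hg]
          exact hL (mul_mem h1 (inv_mem h0))
        · obtain ⟨n, hn⟩ := hgen x hx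
          rw [hn, mul_inv_cancel_right]
          exact ht n
      · exact hL (hI.lab a ha x)
    | one => intro x; simp
    | mul a b _ _ iha ihb =>
      intro x
      have := mul_mem (iha (b x)) (ihb x)
      rwa [mul_assoc, inv_mul_cancel_left] at this
    | inv a _ ih =>
      intro x
      have := inv_mem (ih (a⁻¹ x))
      rw [mul_inv_rev, inv_inv] at this
      simpa using this
  have hB : ∀ x, (∀ b ∈ Subgroup.closure (insert g (G : Set (X ≃ₜ X))), κ (b x) ∉ L) →
      ∀ b ∈ Subgroup.closure (insert g (G : Set (X ≃ₜ X))), κ (b x) = κ x → b = 1 := by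
    intro x hx
    have key : ∀ ε w, Q G g ε w → ∃ z, Red L t ε z ∧ ∃ α ∈ L, κ (w x) = z * α * κ x := by
      intro ε w hw
      induction hw with
      | base ε a ha =>
        obtain ⟨α, hα, e, -⟩ := hlabG a ha x
        obtain ⟨n, hn⟩ := huse ε (a x) (fun h =>
          hx a (Subgroup.subset_closure (mem_insert_of_mem _ ha)) (h ▸ hspL ε))
        exact ⟨_, Red.base ε n, α, hα, by rw [Homeomorph.mul_apply, hn, e, mul_assoc]⟩
      | step ε ε' a w hw ha hred ih =>
        obtain ⟨z, hz, α0, hα0, e0⟩ := ih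
        obtain ⟨α, hα, e, hne⟩ := hlabG a ha (w x)
        obtain ⟨n, hn⟩ := huse ε' (a (w x)) (fun h =>
          hx (a * w) (mul_mem (Subgroup.subset_closure (mem_insert_of_mem _ ha)) (Q_mem hw))
            (by rw [Homeomorph.mul_apply, h]; exact hspL ε'))
        refine ⟨_, Red.step ε ε' n α z hz hα (fun h => hne (hx w (Q_mem hw)) (hred h)), α0, hα0, ?_⟩
        rw [Homeomorph.mul_apply, Homeomorph.mul_apply, hn, e, e0]
        simp only [mul_assoc]
    intro b hb hbx
    rcases normal G g hb with h | ⟨a, ha, ε, w, hw, rfl⟩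
    · exact hI.out b h x (hx 1 (one_mem _)) hbx
    · obtain ⟨z, hz, α0, hα0, e0⟩ := key ε w hw
      obtain ⟨α, hα, e, -⟩ := hlabG a ha (w x)
      rw [Homeomorph.mul_apply, e, e0] at hbx
      have : z = α⁻¹ * α0⁻¹ := by
        calc z = α⁻¹ * (α * (z * α0 * κ x)) * (κ x)⁻¹ * α0⁻¹ := by group
          _ = _ := by rw [hbx]; group
      exact absurd (this ▸ mul_mem (inv_mem hα) (inv_mem hα0)) (hF ε z hz)
  have hC : ∀ x, κ x ∈ L →
      ∀ b ∈ Subgroup.closure (insert g (G : Set (X ≃ₜ X))), b x = x → b = 1 := by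
    intro x hx
    have key : ∀ ε w, Q G g ε w → (∃ z, Red L t ε z ∧ ∃ α ∈ L, κ (w x) = z * α) ∨
        ∃ a ∈ G, a x = sp ε ∧ w x = sp (!ε) := by
      intro ε w hw
      induction hw with
      | base ε a ha =>
        by_cases h : a x = sp ε
        · exact Or.inr ⟨a, ha, h, by rw [Homeomorph.mul_apply, h, hsp]⟩
        · obtain ⟨α, hα, e, -⟩ := hlabG a ha x
          obtain ⟨n, hn⟩ := huse ε (a x) h
          exact Or.inl ⟨_, Red.base ε n, _, mul_mem hα hx, by rw [Homeomorph.mul_apply, hn, e]⟩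
      | step ε ε' a w hw ha hred ih =>
        left
        obtain ⟨α, hα, e, hne⟩ := hlabG a ha (w x)
        rcases ih with ⟨z, hz, α0, hα0, e0⟩ | ⟨a0, ha0, -, e0⟩
        · have hout : κ (w x) ∉ L := fun h =>
            hF ε z hz (by simpa [e0] using mul_mem h (inv_mem hα0))
          obtain ⟨n, hn⟩ := huse ε' (a (w x)) (fun h => hout (by
            have := mul_mem (inv_mem hα) (hspL ε')
            rwa [← h, e, inv_mul_cancel_left] at this))
          refine ⟨_, Red.step ε ε' n α z hz hα (fun h => hne hout (hred h)), α0, hα0, ?_⟩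
          rw [Homeomorph.mul_apply, Homeomorph.mul_apply, hn, e, e0]
          simp only [mul_assoc]
        · obtain ⟨n, hn⟩ := huse ε' (a (w x)) (fun h => by
            rw [e0] at h
            by_cases hε : ε' = ε
            · exact horb' ε a ha (hε ▸ h)
            · have : ε' = !ε := by cases ε <;> cases ε' <;> simp_all
              exact hred hε (hI.free a ha _ (this ▸ h)))
          refine ⟨_, Red.base ε' n, _, mul_mem hα (hspL (!ε)), ?_⟩
          rw [Homeomorph.mul_apply, Homeomorph.mul_apply, hn, e, e0]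
    intro b hb hbx
    rcases normal G g hb with h | ⟨a, ha, ε, w, hw, rfl⟩
    · exact hI.free b h x hbx
    · rw [Homeomorph.mul_apply] at hbx
      rcases key ε w hw with ⟨z, hz, α0, hα0, e0⟩ | ⟨a0, ha0, e1, e0⟩
      · obtain ⟨α, hα, e, -⟩ := hlabG a ha (w x)
        rw [hbx, e0] at e
        have : z = α⁻¹ * κ x * α0⁻¹ := by rw [e]; group
        exact absurd (this ▸ mul_mem (mul_mem (inv_mem hα) hx) (inv_mem hα0)) (hF ε z hz)
      · exact absurd (by rw [Homeomorph.mul_apply, ← e0, hbx, e1]) (horb' ε _ (mul_mem ha0 ha))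
  refine ⟨hlab, fun a ha x hx => ?_, fun a ha x hx hax => hB x (fun b hb h => hx ?_) a ha hax⟩
  · by_cases h : ∃ b ∈ Subgroup.closure (insert g (G : Set (X ≃ₜ X))), κ (b x) ∈ L
    · obtain ⟨b, hb, hbx⟩ := h
      have := hC (b x) hbx (b * a * b⁻¹) (mul_mem (mul_mem hb ha) (inv_mem hb)) (by simp [hx])
      calc a = b⁻¹ * (b * a * b⁻¹) * b := by group
        _ = 1 := by rw [this]; group
    · push Not at h
      exact hB x h a ha (by rw [hx])
  · have := mul_mem (inv_mem (hlab b hb x)) (hL h)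
    simpa using this

open Cardinal in
theorem exists_regular (κ : X → K) (hX : #X ≤ 𝔠) (p0 : X) (h0 : κ p0 = 1) (A : (ℕ → K) → Prop)
    (hgen : ∀ s : Set K, ∃ m, A m ∧
      (#s < 𝔠 → ∀ k ∈ Subgroup.closure s, Free (Subgroup.closure s) (fun n => k * m n)))
    (hg : ∀ m, A m → ∀ p, ∃ g : X ≃ₜ X, g p0 = p ∧ ∀ x, x ≠ p0 → ∃ n, κ (g x) = κ p * m n * κ x) :
    ∃ G : Subgroup (X ≃ₜ X), (∀ a ∈ G, ∀ x, a x = x → a = 1) ∧ ∀ p, ∃ a ∈ G, a p0 = p := by
  classical
  obtain ⟨r, wo, hr⟩ := Cardinal.exists_ord_eq X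
  choose μ hμA hμ using hgen
  let M : X → ℕ → K := wo.wf.fix fun i f =>
    μ (insert (κ i) (range fun q : {j // r j i} × Option ℕ =>
      q.2.elim (κ q.1.1) (f q.1.1 q.1.2)))
  let S : X → Set K := fun i => insert (κ i) (range fun q : {j // r j i} × Option ℕ =>
      q.2.elim (κ q.1.1) (M q.1.1))
  have hM : ∀ i, M i = μ (S i) := fun i => wo.wf.fix_eq _ i
  have hS : ∀ i, #(S i) < 𝔠 := fun i => by
    refine mk_insert_le.trans_lt (add_lt_of_lt aleph0_le_continuum (mk_range_le.trans_lt ?_)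
      (one_lt_aleph0.trans aleph0_lt_continuum))
    rw [mk_prod, lift_id, lift_id]
    refine mul_lt_of_lt aleph0_le_continuum ?_ (mk_le_aleph0.trans_lt aleph0_lt_continuum)
    have := Cardinal.card_typein_lt i hr
    rw [Ordinal.card_typein] at this
    exact this.trans_le hX
  choose g hg0 hg1 using fun i => hg (M i) (hM i ▸ hμA _) i
  let act : X → Prop := wo.wf.fix fun i f =>
    ∀ a ∈ Subgroup.closure {b | ∃ j, ∃ h : r j i, f j h ∧ b = g j}, a p0 ≠ i
  have hact : ∀ i, act i ↔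
      ∀ a ∈ Subgroup.closure {b | ∃ j, ∃ _ : r j i, act j ∧ b = g j}, a p0 ≠ i :=
    fun i => iff_of_eq (wo.wf.fix_eq _ i)
  let GG : Set X → Subgroup (X ≃ₜ X) := fun T => Subgroup.closure {b | ∃ j, ∃ _ : j ∈ T, act j ∧ b = g j}
  have hmono : ∀ T T', T ⊆ T' → GG T ≤ GG T' := fun T T' h =>
    Subgroup.closure_mono fun b ⟨j, hj, h'⟩ => ⟨j, h hj, h'⟩
  let le : X → Set X := fun i => {j | r j i ∨ j = i}
  have hle : ∀ i j, r j i → le j ⊆ le i := by
    rintro i j h k (hk | rfl)
    · exact Or.inl (_root_.trans hk h)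
    · exact Or.inl h
  have hdir : ∀ T, ∀ a ∈ GG T, a = 1 ∨ ∃ j ∈ T, a ∈ GG (le j) := by
    intro T a ha
    induction ha using Subgroup.closure_induction with
    | mem a ha =>
      obtain ⟨j, hj, h⟩ := ha
      exact Or.inr ⟨j, hj, Subgroup.subset_closure ⟨j, Or.inr rfl, h⟩⟩
    | one => exact Or.inl rfl
    | mul a b _ _ iha ihb =>
      rcases iha with rfl | ⟨i, hi, ha⟩
      · rwa [one_mul]
      rcases ihb with rfl | ⟨j, hj, hb⟩
      · rw [mul_one]; exact Or.inr ⟨i, hi, ha⟩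
      rcases trichotomous_of r i j with h | rfl | h
      · exact Or.inr ⟨j, hj, mul_mem (hmono _ _ (hle _ _ h) ha) hb⟩
      · exact Or.inr ⟨i, hi, mul_mem ha hb⟩
      · exact Or.inr ⟨i, hi, mul_mem ha (hmono _ _ (hle _ _ h) hb)⟩
    | inv a _ ih =>
      rcases ih with rfl | ⟨i, hi, ha⟩
      · exact Or.inl inv_one
      · exact Or.inr ⟨i, hi, inv_mem ha⟩
  let LL : X → Subgroup K := fun i => Subgroup.closure (S i ∪ range (M i))
  have hLL : ∀ i j, r j i → LL j ≤ Subgroup.closure (S i) := fun i j h =>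
    Subgroup.closure_mono (by
      rintro k ((rfl | ⟨⟨j', o⟩, rfl⟩) | ⟨n, rfl⟩)
      · exact Or.inr ⟨(⟨j, h⟩, none), rfl⟩
      · exact Or.inr ⟨(⟨j'.1, _root_.trans j'.2 h⟩, o), rfl⟩
      · exact Or.inr ⟨(⟨j, h⟩, some n), rfl⟩)
  have hSL : ∀ i, Subgroup.closure (S i) ≤ LL i := fun i =>
    Subgroup.closure_mono subset_union_left
  have main : ∀ i, Inv κ (GG (le i)) (LL i) := by
    intro i
    induction i using wo.wf.induction with
    | _ i ih =>
    have hlim : Inv κ (GG {j | r j i}) (Subgroup.closure (S i)) := by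
      refine ⟨fun a ha x => ?_, fun a ha x hx => ?_, fun a ha x hx hax => ?_⟩
      · rcases hdir _ a ha with rfl | ⟨j, hj, h⟩
        · simp
        · exact hLL i j hj ((ih j hj).lab a h x)
      · rcases hdir _ a ha with rfl | ⟨j, hj, h⟩
        · rfl
        · exact (ih j hj).free a h x hx
      · rcases hdir _ a ha with rfl | ⟨j, hj, h⟩
        · rfl
        · exact (ih j hj).out a h x (fun h' => hx (hLL i j hj h')) hax
    have hki : κ i ∈ Subgroup.closure (S i) := Subgroup.subset_closure (mem_insert _ _)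
    by_cases hi : act i
    · have hst := hlim.step (L' := LL i) (t := fun n => κ i * M i n) (h0 ▸ one_mem _) hki (hg0 i)
        (hg1 i) (by rw [hM]; exact hμ _ (hS i) _ hki) ((hact i).1 hi) (hSL i)
        (fun n => mul_mem (hSL i hki) (Subgroup.subset_closure (Or.inr ⟨n, rfl⟩)))
      have hsub : GG (le i) ≤ Subgroup.closure (insert (g i) (GG {j | r j i} : Set (X ≃ₜ X))) :=
        Subgroup.closure_mono (by
          rintro b ⟨j, hj | rfl, h1, rfl⟩
          · exact Or.inr (Subgroup.subset_closure ⟨j, hj, h1, rfl⟩)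
          · exact Or.inl rfl)
      exact ⟨fun a ha => hst.lab a (hsub ha), fun a ha => hst.free a (hsub ha),
        fun a ha => hst.out a (hsub ha)⟩
    · have hsub : GG (le i) ≤ GG {j | r j i} :=
        Subgroup.closure_mono (by
          rintro b ⟨j, hj | rfl, h1, rfl⟩
          · exact ⟨j, hj, h1, rfl⟩
          · exact absurd h1 hi)
      exact ⟨fun a ha x => hSL i (hlim.lab a (hsub ha) x), fun a ha => hlim.free a (hsub ha),
        fun a ha x hx => hlim.out a (hsub ha) x fun h => hx (hSL i h)⟩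
  refine ⟨GG univ, fun a ha x hx => ?_, fun p => ?_⟩
  · rcases hdir _ a ha with rfl | ⟨j, -, h⟩
    · rfl
    · exact (main j).free a h x hx
  · by_cases hp : act p
    · exact ⟨g p, Subgroup.subset_closure ⟨p, trivial, hp, rfl⟩, hg0 p⟩
    · rw [hact] at hp
      push Not at hp
      obtain ⟨a, ha, hap⟩ := hp
      exact ⟨a, hmono {j | r j p} univ (subset_univ _) ha, hap⟩

end Pool.Agent.H28.FreeAct
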