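import Mathlib

set_option autoImplicit false
open MeasureTheory Set WithLp UnitAddTorus
open scoped ComplexConjugate InnerProductSpace

namespace Pool.Agent.H28.Gabor

abbrev E := EuclideanSpace ℝ (Fin 2)

noncomputable def e (b x : E) : ℂ :=
  Complex.exp (-2 * (Real.pi : ℂ) * Complex.I * ((inner ℝ x b : ℝ) : ℂ))

noncomputable def c (x : E) : ℤ × ℤ := (⌈x 0⌉, ⌈x 1⌉)

noncomputable def io (n : ℤ × ℤ) : E := !₂[(n.1 : ℝ), (n.2 : ℝ)]

def Q : Set E := c ⁻¹' {0}

lemma e_add (b x y : E) : e b (x + y) = e b x * e b y := by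
  simp only [e, inner_add_left, Complex.ofReal_add, mul_add, Complex.exp_add]

lemma e_add' (b b' x : E) : e (b + b') x = e b x * e b' x := by
  simp only [e, inner_add_right, Complex.ofReal_add, mul_add, Complex.exp_add]

lemma e_conj (b x : E) : conj (e b x) = e (-b) x := by
  simp only [e, ← Complex.exp_conj, inner_neg_right, map_mul, map_neg, Complex.conj_ofReal,
    Complex.conj_I, Complex.ofReal_neg, map_ofNat]
  congr 1; ring

lemma e_zero (x : E) : e 0 x = 1 := by simp [e]

lemma e_mul_conj (b x : E) : e b x * conj (e b x) = 1 := by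
  rw [e_conj, ← e_add', add_neg_cancel, e_zero]

lemma norm_e (b x : E) : ‖e b x‖ = 1 := by
  have := congrArg norm (e_mul_conj b x)
  rw [norm_mul, Complex.norm_conj, norm_one] at this
  nlinarith [norm_nonneg (e b x)]

lemma cont_e (b : E) : Continuous (e b) := by unfold e; fun_prop

lemma e_apply (b x : E) : e b x = Complex.exp (-2 * Real.pi * Complex.I * (x 0 * b 0)) *
    Complex.exp (-2 * Real.pi * Complex.I * (x 1 * b 1)) := by
  simp only [e, ← Complex.exp_add, PiLp.inner_apply, Fin.sum_univ_two]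
  congr 1; simp; ring

lemma meas_c : Measurable c := by unfold c; fun_prop

lemma c_add (x : E) (n : ℤ × ℤ) : c (x + io n) = c x + n := by
  simp [c, io, Prod.ext_iff]

lemma io_add (n m : ℤ × ℤ) : io (n + m) = io n + io m := by
  ext i; fin_cases i <;> simp [io]

lemma io_neg (n : ℤ × ℤ) : io (-n) = -io n := by
  ext i; fin_cases i <;> simp [io]

lemma meas_Q : MeasurableSet Q := meas_c (measurableSet_singleton _)

noncomputable def ro (t : UnitAddTorus (Fin 2)) : E :=
  toLp 2 (measurableEquivPiIoc (fun _ => (-1 : ℝ)) t).1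

noncomputable abbrev μT : Measure (UnitAddTorus (Fin 2)) :=
  Measure.pi fun _ => AddCircle.haarAddCircle

lemma ms : MeasurableSet {x : Fin 2 → ℝ | ∀ i, x i ∈ Ioc (-1 : ℝ) (-1 + 1)} :=
  MeasurableSet.univ_pi' (fun _ => measurableSet_Ioc)

lemma emb_ro : MeasurableEmbedding ro :=
  (MeasurableEquiv.toLp 2 _).measurableEmbedding.comp ((MeasurableEmbedding.subtype_coe ms).comp
    (measurableEquivPiIoc (fun _ => (-1 : ℝ))).measurableEmbedding)

lemma mp_ro : MeasurePreserving ro μT (volume.restrict Q) := by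
  have h := (PiLp.volume_preserving_toLp (Fin 2)).restrict_preimage meas_Q
  have : (toLp 2 : (Fin 2 → ℝ) → E) ⁻¹' Q = {x | ∀ i, x i ∈ Ioc (-1 : ℝ) (-1 + 1)} := by
    ext x
    simp [Q, c, Prod.ext_iff, Int.ceil_eq_zero_iff, Fin.forall_fin_two]
  rw [this] at h
  exact h.comp ((measurePreserving_subtype_coe ms).comp
    (measurePreserving_equivPiIoc (fun _ => (-1 : ℝ))))

instance : IsProbabilityMeasure (volume.restrict Q) :=
  mp_ro.map_eq ▸ Measure.isProbabilityMeasure_map mp_ro.measurable.aemeasurable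

lemma e_ro (m : Fin 2 → ℤ) (t : UnitAddTorus (Fin 2)) :
    conj (e (io (m 0, m 1)) (ro t)) = mFourier m t := by
  have h : ∀ i, t i = ((ro t i : ℝ) : UnitAddCircle) := fun i =>
    (congrFun ((measurableEquivPiIoc (fun _ => (-1 : ℝ))).symm_apply_apply t) i).symm
  rw [e_conj, e_apply, mFourier, ContinuousMap.coe_mk, Fin.prod_univ_two, h 0, h 1,
    fourier_coe_apply, fourier_coe_apply]
  congr 2 <;> simp [io] <;> ring

lemma int_e (m : ℤ × ℤ) (hm : m ≠ 0) : ∫ q in Q, e (io m) q = 0 := by
  rw [← mp_ro.integral_comp emb_ro]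
  have h := orthonormal_iff_ite.1 (orthonormal_mFourier (d := Fin 2)) ![m.1, m.2] 0
  rw [if_neg, ContinuousMap.inner_toLp] at h
  · refine Eq.trans (integral_congr_ae (Filter.Eventually.of_forall fun t => ?_)) h
    simp [← e_ro, mFourier_zero]
  · intro h
    exact hm (Prod.ext (congrFun h 0) (congrFun h 1))

lemma uniq (g : E → ℂ) (hg : MemLp g 2 (volume.restrict Q))
    (h : ∀ m, ∫ q in Q, g q * conj (e (io m) q) = 0) : g =ᵐ[volume.restrict Q] 0 := by
  have hG := hg.comp_measurePreserving mp_ro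
  have h0 : hG.toLp _ = 0 := by
    refine (mFourierBasis (d := Fin 2)).repr.injective ?_
    ext i
    rw [map_zero]
    refine (mFourierBasis_repr _ i).trans ?_
    have := h ((-i) 0, (-i) 1)
    rw [← mp_ro.integral_comp emb_ro] at this
    refine Eq.trans (integral_congr_ae ?_) this
    filter_upwards [hG.coeFn_toLp] with t ht
    rw [e_ro, smul_eq_mul, mul_comm]
    exact congrArg (· * _) ht
  rw [← mp_ro.map_eq]
  refine emb_ro.ae_map_iff.2 ?_
  filter_upwards [hG.coeFn_toLp, Lp.coeFn_zero ℂ 2 μT] with t ht h2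
  rw [h0, h2] at ht
  exact ht.symm

lemma mp_cell (n : ℤ × ℤ) :
    MeasurePreserving (· + io n) (volume.restrict Q) (volume.restrict (c ⁻¹' {n})) := by
  have h := (measurePreserving_add_right volume (io n)).restrict_preimage
    (meas_c (measurableSet_singleton n))
  convert h using 2
  ext x; simp [Q, c_add]

lemma mp_cell' (n : ℤ × ℤ) :
    MeasurePreserving (· - io n) (volume.restrict (c ⁻¹' {n})) (volume.restrict Q) := by
  have h := (measurePreserving_sub_right volume (io n)).restrict_preimage meas_Q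
  convert h using 2
  ext x; simp [Q, sub_eq_add_neg, ← io_neg, c_add, add_neg_eq_zero]

lemma int_cell (n : ℤ × ℤ) (g : E → ℂ) : ∫ x in c ⁻¹' {n}, g x = ∫ q in Q, g (q + io n) :=
  ((mp_cell n).integral_comp (measurableEmbedding_addRight _) g).symm

lemma decomp (F : Finset (ℤ × ℤ)) (g : E → ℂ) (hg : IntegrableOn g (c ⁻¹' F)) :
    ∫ x in c ⁻¹' F, g x = ∑ n ∈ F, ∫ q in Q, g (q + io n) := by
  have : c ⁻¹' F = ⋃ n ∈ F, c ⁻¹' {n} := by ext; simp
  rw [this, integral_biUnion_finset _ (fun n _ => meas_c (measurableSet_singleton n))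
    (fun n _ m _ h => (disjoint_singleton.2 h).preimage c)
    (fun n hn => hg.mono_set (preimage_mono (by simpa)))]
  simp only [int_cell]

lemma vol_cell (n : ℤ × ℤ) : volume (c ⁻¹' {n}) = 1 := by
  have := (mp_cell n).measure_preimage MeasurableSet.univ.nullMeasurableSet
  rw [preimage_univ, measure_univ, Measure.restrict_apply_univ] at this
  exact this.symm

lemma vol_K (F : Finset (ℤ × ℤ)) : volume (c ⁻¹' F) < ⊤ := by
  have : c ⁻¹' F = ⋃ n ∈ F, c ⁻¹' {n} := by ext; simp
  rw [this]
  exact measure_biUnion_lt_top F.finite_toSet fun n _ => by simp [vol_cell]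

end Pool.Agent.H28.Gabor
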