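import Mathlib
import Pool.Agent.H28.GaborA

set_option autoImplicit false
open MeasureTheory Set
open scoped ComplexConjugate InnerProductSpace

namespace Pool.Agent.H28.Gabor

lemma inn {μ : Measure E} {f g : E → ℂ} (hf : MemLp f 2 μ) (hg : MemLp g 2 μ) :
    ⟪hf.toLp f, hg.toLp g⟫_ℂ = ∫ x, g x * conj (f x) ∂μ := by
  rw [L2.inner_def]
  refine integral_congr_ae ?_
  filter_upwards [hf.coeFn_toLp, hg.coeFn_toLp] with x h1 h2
  rw [h1, h2, RCLike.inner_apply]

noncomputable def P (n : ℤ × ℤ) (u : E → ℂ) : E → ℂ :=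
  (c ⁻¹' {n}).indicator fun x => u (x - io n)

lemma memP (n : ℤ × ℤ) {u : E → ℂ} (hu : MemLp u 2 (volume.restrict Q)) (K : Set E) :
    MemLp (P n u) 2 (volume.restrict K) :=
  ((memLp_indicator_iff_restrict (meas_c (measurableSet_singleton n))).2
    (hu.comp_measurePreserving (mp_cell' n))).restrict K

lemma intP (F : Finset (ℤ × ℤ)) {n : ℤ × ℤ} (hn : n ∈ F) (u g : E → ℂ) :
    ∫ x in c ⁻¹' F, P n u x * conj (g x) = ∫ q in Q, u q * conj (g (q + io n)) := by
  have : c ⁻¹' F ∩ c ⁻¹' {n} = c ⁻¹' {n} := inter_eq_right.2 (preimage_mono (by simpa))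
  have h : ∀ x, P n u x * conj (g x) =
      (c ⁻¹' {n}).indicator (fun x => u (x - io n) * conj (g x)) x := fun x =>
    (indicator_mul_left _ _ (fun x => conj (g x))).symm
  simp only [h]
  rw [setIntegral_indicator (meas_c (measurableSet_singleton n)), this, int_cell]
  simp

lemma nonspec (F : Finset (ℤ × ℤ)) (z x0 : ℤ × ℤ) (hx0 : x0 ∈ F)
    (hz : ∀ y ∈ F, ∃ x1 ∈ F, ∃ x2 ∈ F, x1 ≠ x2 ∧ z + x2 = x1 + y) (B : Set E)
    (ho : ∀ b ∈ B, ∀ b' ∈ B, b ≠ b' → ∫ x in c ⁻¹' F, e b x * conj (e b' x) = 0)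
    (hc : ∀ f : E → ℂ, MemLp f 2 (volume.restrict (c ⁻¹' F)) →
      (∀ b ∈ B, ∫ x in c ⁻¹' F, f x * conj (e b x) = 0) →
        f =ᵐ[volume.restrict (c ⁻¹' F)] 0) : False := by
  classical
  set μ := volume.restrict (c ⁻¹' (F : Set (ℤ × ℤ))) with hμ
  haveI : IsFiniteMeasure μ := isFiniteMeasure_restrict.2 (vol_K F).ne
  have hpos : 0 < μ.real univ := by
    refine ENNReal.toReal_pos (ne_of_gt ?_) (measure_ne_top _ _)
    rw [hμ, Measure.restrict_apply_univ]
    exact (zero_lt_one.trans_eq (vol_cell x0).symm).trans_le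
      (measure_mono (preimage_mono (by simpa)))
  obtain ⟨k, hk⟩ : ∃ k : ℝ, k * k * μ.real univ = 1 :=
    ⟨(√(μ.real univ))⁻¹, by rw [← mul_inv, Real.mul_self_sqrt hpos.le, inv_mul_cancel₀ hpos.ne']⟩
  have hk0 : (k : ℂ) ≠ 0 := by
    rintro h; rw [Complex.ofReal_eq_zero] at h; simp [h] at hk
  have he : ∀ b, MemLp (fun x => (k : ℂ) * e b x) 2 μ := fun b =>
    MemLp.of_bound (continuous_const.mul (cont_e b)).aestronglyMeasurable ‖(k : ℂ)‖
      (Filter.Eventually.of_forall fun x => by rw [norm_mul, norm_e, mul_one])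
  let v : B → Lp ℂ 2 μ := fun b => (he b).toLp _
  have hv : Orthonormal ℂ v := by
    refine orthonormal_iff_ite.2 fun b b' => ?_
    have : ∀ x, (k : ℂ) * e b' x * conj ((k : ℂ) * e b x) = k * k * (e b' x * conj (e b x)) :=
      fun x => by simp only [map_mul, Complex.conj_ofReal]; ring
    simp only [v, inn, this, integral_const_mul]
    split_ifs with h
    · subst h
      simp only [e_mul_conj, integral_const, Complex.real_smul, mul_one]
      exact_mod_cast hk
    · rw [ho _ b'.2 _ b.2 fun h' => h (Subtype.ext h'.symm), mul_zero]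
  have hsp : (Submodule.span ℂ (range v))ᗮ = ⊥ := by
    refine (Submodule.eq_bot_iff _).2 fun f hf => Lp.eq_zero_iff_ae_eq_zero.2
      (hc f (Lp.memLp f) fun b hb => ?_)
    have := hf (v ⟨b, hb⟩) (Submodule.subset_span (mem_range_self _))
    rw [← Lp.toLp_coeFn f (Lp.memLp f)] at this
    simp only [v, inn, map_mul, Complex.conj_ofReal, mul_left_comm _ (k : ℂ),
      integral_const_mul] at this
    exact (mul_eq_zero.1 this).resolve_left hk0
  let β := HilbertBasis.mkOfOrthogonalEqBot hv hsp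
  have hβ : ∀ b, β b = v b := congrFun (HilbertBasis.coe_mkOfOrthogonalEqBot hv hsp)
  let A : B → (E → ℂ) → ℂ := fun b u => ∫ q in Q, u q * conj ((k : ℂ) * e b q)
  have hA : ∀ (b : B) n, n ∈ F → ∀ u (hu : MemLp u 2 (volume.restrict Q)),
      ⟪β b, (memP n hu _).toLp _⟫_ℂ = conj (e b (io n)) * A b u := fun b n hn u hu => by
    rw [hβ, inn, intP F hn, ← integral_const_mul]
    refine integral_congr_ae (Filter.Eventually.of_forall fun q => ?_)
    simp only [e_add, map_mul]; ring
  have h1 : MemLp (fun _ : E => (1 : ℂ)) 2 (volume.restrict Q) := memLp_const 1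
  have hs : Memℓp (fun b : B => conj (e b (io z)) * A b fun _ => 1) 2 :=
    (β.repr ((memP x0 h1 _).toLp _)).2.mono' fun b => by
      rw [β.repr_apply_apply, hA b x0 hx0 _ h1]; simp [norm_e]
  let g := β.repr.symm ⟨_, hs⟩
  have hg : ∀ b, ⟪β b, g⟫_ℂ = conj (e b (io z)) * A b fun _ => 1 := fun b => by
    rw [← β.repr_apply_apply, LinearIsometryEquiv.apply_symm_apply]
  have key : ∀ y ∈ F, ∀ u (hu : MemLp u 2 (volume.restrict Q)),
      ⟪g, (memP y hu _).toLp _⟫_ℂ = 0 := fun y hy u hu => by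
    obtain ⟨x1, h1', x2, h2, hne, hxy⟩ := hz y hy
    have e0 : ⟪(memP x1 h1 (c ⁻¹' F)).toLp _, (memP x2 hu _).toLp _⟫_ℂ = 0 := by
      rw [inn, intP F h2]
      refine setIntegral_eq_zero_of_forall_eq_zero fun q hq => ?_
      have : c q = 0 := hq
      rw [P, indicator_of_notMem (by simp [c_add, this, hne.symm]), map_zero, mul_zero]
    rw [← e0, ← β.tsum_inner_mul_inner, ← β.tsum_inner_mul_inner]
    refine tsum_congr fun b => ?_
    rw [← inner_conj_symm g, ← inner_conj_symm (MemLp.toLp _ _), hg, hA b _ hy _ hu,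
      hA b _ h1' _ h1, hA b _ h2 _ hu]
    have := congrArg (fun n => e b (io n)) hxy
    simp only [io_add, e_add] at this
    have a1 := e_mul_conj b (io x2)
    have a2 := e_mul_conj b (io y)
    simp only [map_mul, Complex.conj_conj]
    linear_combination (conj (A b fun _ => 1) * A b u) * (conj (e b (io y)) * conj (e b (io x2)) *
      this - e b (io z) * conj (e b (io y)) * a1 + e b (io x1) * conj (e b (io x2)) * a2)
  have hgQ : ∀ y ∈ F, MemLp (fun q => g (q + io y)) 2 (volume.restrict Q) := fun y hy =>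
    ((Lp.memLp g).mono_measure (Measure.restrict_mono (preimage_mono (by simpa))
      le_rfl)).comp_measurePreserving (mp_cell y)
  have g0 : g = 0 := by
    rw [← inner_self_eq_zero (𝕜 := ℂ), L2.inner_def, decomp F _ (L2.integrable_inner g g)]
    refine Finset.sum_eq_zero fun y hy => ?_
    have := (congrArg (⟪·, _⟫_ℂ) (Lp.toLp_coeFn g (Lp.memLp g))).trans (key y hy _ (hgQ y hy))
    rw [inn, intP F hy] at this
    simpa only [RCLike.inner_apply] using this
  have f0 : (memP x0 h1 (c ⁻¹' F)).toLp _ = 0 := β.repr.injective (by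
    ext b
    have := hg b
    rw [g0, inner_zero_right, eq_comm, mul_eq_zero] at this
    rw [β.repr_apply_apply, hA b x0 hx0 _ h1, this.resolve_left fun h => by
      simpa [h] using e_mul_conj b (io z)]
    simp)
  have := inn (memP x0 h1 (c ⁻¹' F)) (memP x0 h1 _)
  rw [f0, inner_zero_left, intP F hx0, setIntegral_congr_fun meas_Q (g := fun _ => 1)
    (fun q hq => by
      have : c q = 0 := hq
      simp [P, c_add, this])] at this
  simp at this

end Pool.Agent.H28.Gabor
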