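import Mathlib
import Pool.Agent.H28.GaborB

set_option autoImplicit false
open MeasureTheory Set
open scoped ComplexConjugate InnerProductSpace

namespace Pool.Agent.H28.Gabor

def F : Finset (ℤ × ℤ) :=
  {(0, 0), (2, 0), (3, 1), (4, 1), (0, 2), (2, 2), (1, 3), (5, 3), (1, 4), (5, 4), (3, 5), (4, 5)}

lemma hole : ∀ y ∈ F, ∃ x1 ∈ F, ∃ x2 ∈ F, x1 ≠ x2 ∧ (3, 3) + x2 = x1 + y := by decide

lemma bdF : ∀ y ∈ F, 0 ≤ y.1 ∧ y.1 ≤ 5 ∧ 0 ≤ y.2 ∧ y.2 ≤ 5 := by decide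

lemma sumF (g : ℤ × ℤ → ℂ) : ∑ y ∈ F, g y = g (0, 0) + g (2, 0) + g (3, 1) + g (4, 1) + g (0, 2) +
    g (2, 2) + g (1, 3) + g (5, 3) + g (1, 4) + g (5, 4) + g (3, 5) + g (4, 5) := by
  simp only [F]
  repeat rw [Finset.sum_insert (by decide)]
  rw [Finset.sum_singleton]; ring

lemma disc (s t : ℤ) (T Y : ℂ) (hT : T ^ 4 = -1) (h : s ≠ 0 ∨ t ≠ 0) :
    ∑ y ∈ F, (if y + (6 * s, -t) ∈ F then (T ^ t) ^ y.1 * Y ^ y.2 else 0) = 0 := by
  by_cases h0 : s = 0 ∧ -5 ≤ t ∧ t ≤ 5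
  · obtain ⟨rfl, h1, h2⟩ := h0
    have hS : T⁻¹ ^ 4 = -1 := by rw [inv_pow, hT]; norm_num
    rw [sumF]
    generalize hS' : T⁻¹ = S at hS
    interval_cases t <;> simp [F, ← inv_pow, hS'] at h ⊢
    all_goals first
      | linear_combination (Y ^ 5 * S ^ 12) * hS
      | linear_combination (Y ^ 2) * hS
      | linear_combination (Y ^ 3 * S) * hS
      | linear_combination (Y ^ 4 * T) * hT
      | linear_combination (Y ^ 2) * hT
      | linear_combination (Y ^ 5 * T ^ 12) * hT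
      | linear_combination (Y * S ^ 12) * hS
      | linear_combination hS
  · refine Finset.sum_eq_zero fun y hy => if_neg fun h' => h0 ?_
    have := bdF y hy
    have := bdF _ h'
    simp only [Prod.fst_add, Prod.snd_add] at this
    omega

lemma two {x y u v : ℂ} (hu : u ≠ 0) (hv : v ≠ 0) (h : x * u + y * v = 0)
    (h' : x * u - y * v = 0) : x = 0 ∧ y = 0 :=
  ⟨(mul_eq_zero.1 (by linear_combination (h + h') / 2)).resolve_right hu,
    (mul_eq_zero.1 (by linear_combination (h - h') / 2)).resolve_right hv⟩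

lemma compl (φ : ℤ × ℤ → ℂ) (T W : ℂ) (hT : T ^ 4 = -1) (hW : IsPrimitiveRoot W 6)
    (h : ∀ s t : ℤ, ∀ l : Fin 6,
      ∑ y ∈ F, φ (y + (6 * s, t)) * ((T ^ t) ^ y.1 * (W ^ (l : ℕ)) ^ y.2) = 0) (n : ℤ × ℤ) :
    φ n = 0 := by
  have row : ∀ s t : ℤ, ![φ (6 * s, t) + φ (2 + 6 * s, t) * (T ^ t) ^ 2,
      φ (3 + 6 * s, 1 + t) * (T ^ t) ^ 3 + φ (4 + 6 * s, 1 + t) * (T ^ t) ^ 4,
      φ (6 * s, 2 + t) + φ (2 + 6 * s, 2 + t) * (T ^ t) ^ 2,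
      φ (1 + 6 * s, 3 + t) * T ^ t + φ (5 + 6 * s, 3 + t) * (T ^ t) ^ 5,
      φ (1 + 6 * s, 4 + t) * T ^ t + φ (5 + 6 * s, 4 + t) * (T ^ t) ^ 5,
      φ (3 + 6 * s, 5 + t) * (T ^ t) ^ 3 + φ (4 + 6 * s, 5 + t) * (T ^ t) ^ 4] = 0 := fun s t => by
    refine Matrix.eq_zero_of_forall_pow_sum_mul_pow_eq_zero (f := fun j : Fin 6 => W ^ (j : ℕ))
      (fun i j hij => Fin.ext (hW.pow_inj i.2 j.2 hij)) fun l => ?_
    have := h s t l
    rw [sumF] at this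
    simp [Fin.sum_univ_six, ← pow_mul, mul_comm _ (l : ℕ)] at this ⊢
    simp only [pow_mul] at this ⊢
    linear_combination this
  obtain ⟨n, r⟩ := n
  obtain ⟨r, rfl⟩ : ∃ r', r = 5 + r' := ⟨r - 5, by ring⟩
  have T0 : T ≠ 0 := by rintro rfl; norm_num at hT
  have V0 : T ^ r ≠ 0 := zpow_ne_zero _ T0
  have e0 := congrFun (row (n / 6) (5 + r)) 0
  have e1 := congrFun (row (n / 6) (4 + r)) 1
  have e2 := congrFun (row (n / 6) (3 + r)) 2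
  have e3 := congrFun (row (n / 6) (2 + r)) 3
  have e4 := congrFun (row (n / 6) (1 + r)) 4
  have e5 := congrFun (row (n / 6) r) 5
  simp [← add_assoc, zpow_add₀ T0] at e0 e1 e2 e3 e4 e5
  generalize T ^ r = V at *
  have a := two (x := φ (6 * (n / 6), 5 + r)) (y := φ (2 + 6 * (n / 6), 5 + r)) one_ne_zero
    (pow_ne_zero 2 (mul_ne_zero (pow_ne_zero 3 T0) V0)) (by linear_combination e2)
    (by linear_combination e0 - φ (2 + 6 * (n / 6), 5 + r) * V ^ 2 * T ^ 6 * hT)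
  have b := two (x := φ (3 + 6 * (n / 6), 5 + r)) (y := φ (4 + 6 * (n / 6), 5 + r))
    (pow_ne_zero 3 V0) (pow_ne_zero 4 V0) e5 (by rw [hT] at e1; linear_combination -e1)
  have d := two (x := φ (1 + 6 * (n / 6), 5 + r)) (y := φ (5 + 6 * (n / 6), 5 + r))
    (mul_ne_zero (pow_ne_zero 2 T0) V0) (mul_ne_zero (pow_ne_zero 6 T0) (pow_ne_zero 5 V0))
    (by linear_combination T * e4)
    (by linear_combination e3 - φ (5 + 6 * (n / 6), 5 + r) * V ^ 5 * T ^ 6 * hT)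
  have : n = 6 * (n / 6) ∨ n = 1 + 6 * (n / 6) ∨ n = 2 + 6 * (n / 6) ∨ n = 3 + 6 * (n / 6) ∨
    n = 4 + 6 * (n / 6) ∨ n = 5 + 6 * (n / 6) := by omega
  rcases this with h | h | h | h | h | h <;> rw [h]
  exacts [a.1, d.1, a.2, b.1, b.2, d.2]

end Pool.Agent.H28.Gabor
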