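import Mathlib

/-!
A free factor of a normal subgroup of the free group of rank two with full relative growth.
-/

namespace Pool.Agent.H28.Gap

open FreeGroup hiding map_mul map_one map_inv
open Filter Topology

abbrev F := FreeGroup Bool

def a : F := of false

def b : F := of true

def H : Subgroup F := Subgroup.closure {g | ∃ i : ℤ, 1 ≤ i ∧ g = a ^ (-i) * b * a ^ i}

lemma gen_mem {i : ℤ} (h : 1 ≤ i) : a ^ (-i) * b * a ^ i ∈ H :=
  Subgroup.subset_closure ⟨i, h, rfl⟩

def gen (l : ℤ) : H := if h : 1 ≤ l then ⟨_, gen_mem h⟩ else 1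

abbrev X := ℤ × ℤ × (ℤ → H)

def sh : Multiplicative ℤ →* Equiv.Perm X where
  toFun i := Equiv.prodCongr (Equiv.addLeft i.toAdd) (Equiv.refl _)
  map_one' := Equiv.ext fun p => by
    show (0 + p.1, p.2) = p
    simp
  map_mul' x y := Equiv.ext fun p => by
    show (x.toAdd + y.toAdd + p.1, p.2) = (x.toAdd + (y.toAdd + p.1), p.2)
    rw [add_assoc]

def be : Equiv.Perm X where
  toFun p := if p.1 = 0 then (p.1, p.2.1 + 1, p.2.2)
    else (p.1, p.2.1, Function.update p.2.2 p.2.1 (gen p.1 * p.2.2 p.2.1))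
  invFun p := if p.1 = 0 then (p.1, p.2.1 - 1, p.2.2)
    else (p.1, p.2.1, Function.update p.2.2 p.2.1 ((gen p.1)⁻¹ * p.2.2 p.2.1))
  left_inv := by
    rintro ⟨l, c, f⟩
    by_cases h : l = 0 <;> simp [h]
  right_inv := by
    rintro ⟨l, c, f⟩
    by_cases h : l = 0 <;> simp [h]

def Φ : F →* Equiv.Perm X :=
  FreeGroup.lift fun s => if s then be else sh (Multiplicative.ofAdd 1)

lemma Φ_b : Φ b = be := by simp [Φ, b]

lemma Φ_a (i : ℤ) (p : X) : Φ (a ^ i) p = (i + p.1, p.2) := by
  have : Φ (a ^ i) = sh (Multiplicative.ofAdd i) := by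
    rw [map_zpow]
    have h1 : Φ a = sh (Multiplicative.ofAdd 1) := by simp [Φ, a]
    rw [h1, ← map_zpow, ← ofAdd_zsmul]
    simp
  rw [this]; rfl

lemma Φ_H (g : F) (hg : g ∈ H) : ∀ (c : ℤ) (f : ℤ → H),
    Φ g (0, c, f) = (0, c, Function.update f c (⟨g, hg⟩ * f c)) := by
  induction hg using Subgroup.closure_induction with
  | mem g hg =>
    obtain ⟨i, hi, rfl⟩ := hg
    intro c f
    have h0 : i ≠ 0 := by omega
    rw [map_mul, map_mul, Equiv.Perm.mul_apply, Equiv.Perm.mul_apply, Φ_a, Φ_a, Φ_b]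
    simp [be, h0, gen, hi]
  | one =>
    intro c f
    have : (⟨1, H.one_mem⟩ : H) = 1 := rfl
    rw [map_one, this]; simp
  | mul g k hg hk ihg ihk =>
    intro c f
    have : (⟨g * k, H.mul_mem hg hk⟩ : H) = ⟨g, hg⟩ * ⟨k, hk⟩ := rfl
    rw [map_mul, Equiv.Perm.mul_apply, ihk, ihg, this]
    simp [mul_assoc]
  | inv g hg ih =>
    intro c f
    have : (⟨g⁻¹, H.inv_mem hg⟩ : H) = (⟨g, hg⟩ : H)⁻¹ := rfl
    rw [map_inv, Equiv.Perm.inv_eq_iff_eq, ih, this]
    simp

def emb : Monoid.Coprod H (Multiplicative ℕ) →* F :=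
  Monoid.Coprod.lift H.subtype (powersHom F b)

def D : ℕ → (ℤ → H) → Monoid.Coprod H (Multiplicative ℕ)
  | 0, f => Monoid.Coprod.inl (f 0)
  | c + 1, f => Monoid.Coprod.inl (f (c + 1 : ℕ)) *
      (Monoid.Coprod.inr (Multiplicative.ofAdd 1) * D c f)

lemma D_congr (c : ℕ) (f g : ℤ → H) (h : ∀ j : ℤ, j ≤ c → f j = g j) : D c f = D c g := by
  induction c with
  | zero => simp only [D]; rw [h 0 le_rfl]
  | succ c ih =>
    simp only [D]
    rw [h _ le_rfl, ih fun j hj => h j (by push_cast; omega)]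

lemma D_update (c : ℕ) (f : ℤ → H) (h : H) :
    D c (Function.update f c (h * f c)) = Monoid.Coprod.inl h * D c f := by
  cases c with
  | zero => simp [D]
  | succ c =>
    simp only [D, Function.update_self, map_mul, mul_assoc]
    rw [D_congr c _ f fun j hj => Function.update_of_ne (by push_cast; omega) _ _]

lemma decode (x : Monoid.Coprod H (Multiplicative ℕ)) : ∃ (c : ℕ) (f : ℤ → H),
    Φ (emb x) (0, 0, 1) = (0, (c : ℤ), f) ∧ (∀ j : ℤ, c < j → f j = 1) ∧ D c f = x := by
  induction x using Monoid.Coprod.induction_on' with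
  | one => exact ⟨0, 1, by simp, fun _ _ => rfl, by simp [D]⟩
  | inl_mul h x ih =>
    obtain ⟨c, f, h1, h2, h3⟩ := ih
    refine ⟨c, Function.update f c (h * f c), ?_, ?_, ?_⟩
    · rw [map_mul, map_mul, Equiv.Perm.mul_apply, h1]
      exact Φ_H h.1 h.2 c f
    · intro j hj
      rw [Function.update_of_ne hj.ne', h2 j hj]
    · rw [D_update, h3]
  | inr_mul n x ih =>
    obtain ⟨k, rfl⟩ : ∃ k : ℕ, Multiplicative.ofAdd k = n := ⟨n.toAdd, rfl⟩
    induction k with
    | zero => simpa using ih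
    | succ n ihn =>
      obtain ⟨c, f, h1, h2, h3⟩ := ihn
      have e : Monoid.Coprod.inr (Multiplicative.ofAdd (n + 1)) * x =
          Monoid.Coprod.inr (Multiplicative.ofAdd 1) *
            (Monoid.Coprod.inr (Multiplicative.ofAdd n) * x) := by
        rw [← mul_assoc, ← map_mul, ← ofAdd_add, add_comm]
      refine ⟨c + 1, f, ?_, fun j hj => h2 j (by push_cast at hj; omega), ?_⟩
      · rw [e, map_mul, map_mul, Equiv.Perm.mul_apply, h1]
        have : emb (Monoid.Coprod.inr (Multiplicative.ofAdd 1)) = b := by simp [emb]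
        rw [this, Φ_b]
        simp [be]
      · rw [e, D, h2 _ (by push_cast; omega), h3]; simp

lemma emb_inj : Function.Injective emb := by
  intro x y h
  obtain ⟨c, f, h1, -, h3⟩ := decode x
  obtain ⟨c', f', h1', -, h3'⟩ := decode y
  rw [h, h1'] at h1
  simp only [Prod.mk.injEq, Nat.cast_inj, true_and] at h1
  rw [← h3, ← h3', h1.1, h1.2]

lemma H_ne : H ≠ ⊥ := by
  intro h
  have h1 : a ^ (-(1 : ℤ)) * b * a ^ (1 : ℤ) ∈ H := gen_mem le_rfl
  rw [h, Subgroup.mem_bot] at h1
  have h2 : b = 1 := by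
    have : b = a * (a ^ (-(1 : ℤ)) * b * a ^ (1 : ℤ)) * a⁻¹ := by group
    rw [this, h1]; group
  exact FreeGroup.of_ne_one _ h2

/-! ### counting -/

abbrev W := List (Bool × Bool)

def ex (L : W) : ℤ := (L.map fun x => if x.1 then 0 else if x.2 then 1 else -1).sum

lemma ex_cons (x : Bool × Bool) (L : W) :
    ex (x :: L) = (if x.1 then 0 else if x.2 then 1 else -1) + ex L := by simp [ex]

lemma ex_append (L M : W) : ex (L ++ M) = ex L + ex M := by simp [ex]

lemma ex_le (L : W) : -(L.length : ℤ) ≤ ex L ∧ ex L ≤ L.length := by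
  induction L with
  | nil => simp [ex]
  | cons x L ih =>
    rw [ex_cons, List.length_cons]
    push_cast
    split_ifs <;> omega

lemma conj_mem (m : ℤ) (L : W) (h : (L.length : ℤ) < m) :
    a ^ (-(m + ex L)) * mk L * a ^ m ∈ H := by
  induction L with
  | nil => simp [ex, ← one_eq_mk]
  | cons x L ih =>
    rw [List.length_cons] at h
    push_cast at h
    have ih' := ih (by omega)
    have h1 := (ex_le L).1
    have h2 : 1 ≤ m + ex L := by omega
    have e : mk (x :: L) = mk [x] * mk L := by rw [mul_mk]; rfl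
    rw [e, ex_cons]
    obtain ⟨s, t⟩ := x
    cases s <;> cases t
    · have : (mk [(false, false)] : F) = a⁻¹ := rfl
      rw [this]
      convert ih' using 1
      simp only [Bool.false_eq_true, if_false]
      group
    · have : (mk [(false, true)] : F) = a := rfl
      rw [this]
      convert ih' using 1
      simp only [Bool.false_eq_true, if_false, if_true]
      group
    · have : (mk [(true, false)] : F) = b⁻¹ := rfl
      rw [this]
      convert H.mul_mem (H.inv_mem (gen_mem h2)) ih' using 1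
      simp only [if_true]
      group
    · have : (mk [(true, true)] : F) = b := rfl
      rw [this]
      convert H.mul_mem (gen_mem h2) ih' using 1
      simp only [if_true]
      group

def Good (L : W) : Prop :=
  FreeGroup.IsReduced L ∧ (∀ x ∈ L.head?, x.1 = true) ∧ ∀ x ∈ L.getLast?, x.1 = false

lemma Good.append {L M : W} (hL : Good L) (hM : Good M) : Good (L ++ M) := by
  refine ⟨List.isChain_append.2 ⟨hL.1, hM.1, fun x hx y hy h => ?_⟩, ?_, ?_⟩
  · rw [hL.2.2 x hx, hM.2.1 y hy] at h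
    exact absurd h (by simp)
  · intro x hx
    rw [List.head?_append] at hx
    cases h : L.head? with
    | none => rw [h] at hx; exact hM.2.1 x (by simpa using hx)
    | some y => rw [h] at hx; exact hL.2.1 x (by rw [h]; simpa using hx)
  · intro x hx
    rw [List.getLast?_append] at hx
    cases h : M.getLast? with
    | none => rw [h] at hx; exact hL.2.2 x (by simpa using hx)
    | some y => rw [h] at hx; exact hM.2.2 x (by rw [h]; simpa using hx)

def piece (w : W) : W :=
  (true, true) :: (false, (w.head?.map Prod.snd).getD true) ::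
    (w ++ [(false, (w.getLast?.map Prod.snd).getD true)])

lemma piece_inj : Function.Injective piece := by
  intro u v h
  simp only [piece, List.cons.injEq, true_and] at h
  exact (List.append_inj' h.2 rfl).1

lemma piece_good {w : W} (h : FreeGroup.IsReduced w) : Good (piece w) := by
  refine ⟨?_, by simp [piece], ?_⟩
  · unfold piece FreeGroup.IsReduced
    rw [List.isChain_cons_cons, List.isChain_cons, List.isChain_append]
    refine ⟨by simp, ?_, h, by simp, ?_⟩
    · cases w with
      | nil => simp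
      | cons x w => simp
    · intro x hx y hy _
      simp only [List.head?_cons, Option.mem_def, Option.some.injEq] at hx hy
      rw [← hy, hx]; rfl
  · intro x hx
    unfold piece at hx
    rw [← List.cons_append, ← List.cons_append, List.getLast?_append] at hx
    simp only [List.getLast?_singleton, Option.mem_def, Option.some_or, Option.some.injEq] at hx
    rw [← hx]

def fl (x : Bool × Bool) : Bool × Bool := if x.1 then x else (x.1, !x.2)

lemma fl_inj : Function.Injective fl := by decide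

lemma ex_fl (L : W) : ex (L.map fl) = -ex L := by
  induction L with
  | nil => simp [ex]
  | cons x L ih =>
    rw [List.map_cons, ex_cons, ex_cons, ih]
    obtain ⟨s, t⟩ := x
    cases s <;> cases t <;> simp [fl] <;> ring

lemma Good.fl {L : W} (h : Good L) : Good (L.map fl) := by
  have h1 : ∀ x, (Gap.fl x).1 = x.1 := by decide
  have h2 : ∀ x y : Bool × Bool, (x.1 = y.1 → x.2 = y.2) →
    ((Gap.fl x).1 = (Gap.fl y).1 → (Gap.fl x).2 = (Gap.fl y).2) := by decide
  refine ⟨List.isChain_map_of_isChain _ h2 h.1, ?_, ?_⟩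
  · intro x hx
    rw [List.head?_map, Option.mem_def, Option.map_eq_some_iff] at hx
    obtain ⟨y, hy, rfl⟩ := hx
    rw [h1]; exact h.2.1 y hy
  · intro x hx
    rw [List.getLast?_map, Option.mem_def, Option.map_eq_some_iff] at hx
    obtain ⟨y, hy, rfl⟩ := hx
    rw [h1]; exact h.2.2 y hy

lemma card_app (A B : Finset W) (l : ℕ) (h : ∀ w ∈ A, w.length = l) :
    (Finset.image₂ (· ++ ·) A B).card = A.card * B.card := by
  rw [Finset.card_image₂_iff]
  rintro ⟨u, v⟩ ⟨hu, -⟩ ⟨u', v'⟩ ⟨hu', -⟩ hh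
  obtain ⟨h1, h2⟩ := List.append_inj hh ((h u hu).trans (h u' hu').symm)
  exact Prod.ext h1 h2

def ball (n : ℕ) : Set F := {g | g.norm ≤ n}

lemma ball_inj (n : ℕ) : Set.InjOn (fun (g : F) (i : Fin n) => g.toWord[i.val]?) (ball n) := by
  intro g hg k hk h
  apply toWord_injective
  apply List.ext_getElem?
  intro i
  by_cases hi : i < n
  · exact congrFun h ⟨i, hi⟩
  · have h1 : g.toWord.length ≤ n := hg
    have h2 : k.toWord.length ≤ n := hk
    rw [List.getElem?_eq_none (by omega), List.getElem?_eq_none (by omega)]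

lemma ball_finite (n : ℕ) : (ball n).Finite :=
  Set.Finite.of_finite_image (Set.toFinite _) (ball_inj n)

lemma ball_card (n : ℕ) : (ball n).ncard ≤ 5 ^ n := by
  have := Set.ncard_le_ncard_of_injOn _ (t := Set.univ) (fun _ _ => Set.mem_univ _) (ball_inj n)
  rw [Set.ncard_univ, Nat.card_eq_fintype_card] at this
  simpa using this

lemma comb (n : ℕ) : ∃ c : ℕ, (ball n).ncard ≤ c * ((n + 1) * (2 * n + 7)) ∧
    ∀ k : ℕ, (c * c) ^ k ≤ {g | g ∈ H ∧ g ∈ ball ((k + 2) * (2 * n + 6) + 2)}.ncard := by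
  classical
  let T := (ball_finite n).toFinset
  let cl : F → ℕ × ℤ := fun g => (g.norm, ex (piece g.toWord))
  let R : Finset (ℕ × ℤ) := Finset.range (n + 1) ×ˢ Finset.Icc (-(n + 3 : ℤ)) (n + 3)
  have hlen : ∀ w : W, (piece w).length = w.length + 3 := fun w => by simp [piece]
  have hR : ∀ g ∈ T, cl g ∈ R := by
    intro g hg
    have h1 : g.toWord.length ≤ n := (ball_finite n).mem_toFinset.1 hg
    have h2 := ex_le (piece g.toWord)
    rw [hlen] at h2
    simp only [cl, R, Finset.mem_product, Finset.mem_range, Finset.mem_Icc, FreeGroup.norm]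
    push_cast at h2
    omega
  obtain ⟨r, hr, hmax⟩ := R.exists_max_image (fun r => (T.filter fun g => cl g = r).card)
    ⟨(0, 0), by simp [R]; omega⟩
  have hcR : R.card = (n + 1) * (2 * n + 7) := by
    simp only [R, Finset.card_product, Finset.card_range, Int.card_Icc]
    congr 1
    omega
  refine ⟨(T.filter fun g => cl g = r).card, ?_, fun k => ?_⟩
  · rw [Set.ncard_eq_toFinset_card _ (ball_finite n), ← hcR]
    exact Finset.card_le_mul_card_image_of_maps_to hR _ hmax
  have hr1 : r.1 ≤ n := by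
    have := (Finset.mem_product.1 hr).1
    rw [Finset.mem_range] at this
    omega
  let C : Finset W := (T.filter fun g => cl g = r).image fun g => piece g.toWord
  have hC : C.card = (T.filter fun g => cl g = r).card :=
    Finset.card_image_of_injective _ (piece_inj.comp toWord_injective)
  have hC' : ∀ w ∈ C, Good w ∧ w.length = r.1 + 3 ∧ ex w = r.2 := by
    intro w hw
    obtain ⟨g, hg, rfl⟩ := Finset.mem_image.1 hw
    have := (Finset.mem_filter.1 hg).2
    rw [← this]
    exact ⟨piece_good isReduced_toWord, hlen _, rfl⟩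
  let B : Finset W := Finset.image₂ (· ++ ·) C (C.image (List.map fl))
  have hB : B.card = C.card * C.card := by
    rw [card_app _ _ _ fun w hw => (hC' w hw).2.1,
      Finset.card_image_of_injective _ (List.map_injective_iff.2 fl_inj)]
  have hB' : ∀ w ∈ B, Good w ∧ w.length = 2 * r.1 + 6 ∧
      a ^ (-((2 * n + 7 : ℕ) : ℤ)) * mk w * a ^ ((2 * n + 7 : ℕ) : ℤ) ∈ H := by
    intro w hw
    obtain ⟨u, hu, v, hv, rfl⟩ := Finset.mem_image₂.1 hw
    obtain ⟨v, hv', rfl⟩ := Finset.mem_image.1 hv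
    clear hv
    have hv := hv'
    obtain ⟨u1, u2, u3⟩ := hC' u hu
    obtain ⟨v1, v2, v3⟩ := hC' v hv
    have hl : (u ++ v.map fl).length = 2 * r.1 + 6 := by
      rw [List.length_append, List.length_map]; omega
    refine ⟨u1.append v1.fl, hl, ?_⟩
    have := conj_mem ((2 * n + 7 : ℕ) : ℤ) (u ++ v.map fl) (by rw [hl]; push_cast; omega)
    rwa [ex_append, ex_fl, u3, v3, add_neg_cancel, add_zero] at this
  obtain ⟨P, hP, hP'⟩ : ∃ P : Finset W, P.card = B.card ^ k ∧ ∀ w ∈ P, Good w ∧
      w.length = k * (2 * r.1 + 6) ∧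
      a ^ (-((2 * n + 7 : ℕ) : ℤ)) * mk w * a ^ ((2 * n + 7 : ℕ) : ℤ) ∈ H := by
    induction k with
    | zero =>
      refine ⟨{[]}, by simp, fun w hw => ?_⟩
      rw [Finset.mem_singleton.1 hw]
      exact ⟨⟨FreeGroup.IsReduced.nil, by simp, by simp⟩, by simp, by
        rw [← one_eq_mk, mul_one, ← zpow_add, neg_add_cancel, zpow_zero]; exact H.one_mem⟩
    | succ k ih =>
      obtain ⟨P, hP, hP'⟩ := ih
      refine ⟨Finset.image₂ (· ++ ·) B P, ?_, fun w hw => ?_⟩
      · rw [card_app _ _ _ fun w hw => (hB' w hw).2.1, hP, pow_succ']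
      · obtain ⟨u, hu, v, hv, rfl⟩ := Finset.mem_image₂.1 hw
        obtain ⟨u1, u2, u3⟩ := hB' u hu
        obtain ⟨v1, v2, v3⟩ := hP' v hv
        refine ⟨u1.append v1, by rw [List.length_append, u2, v2]; ring, ?_⟩
        rw [← mul_mk]
        convert H.mul_mem u3 v3 using 1
        group
  rw [← hC, ← hB, ← hP, ← Set.ncard_coe_finset]
  refine Set.ncard_le_ncard_of_injOn
    (fun w => a ^ (-((2 * n + 7 : ℕ) : ℤ)) * mk w * a ^ ((2 * n + 7 : ℕ) : ℤ)) ?_ ?_
    ((ball_finite _).subset fun g hg => hg.2)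
  · intro w hw
    obtain ⟨w1, w2, w3⟩ := hP' w hw
    refine ⟨w3, ?_⟩
    show FreeGroup.norm _ ≤ _
    have h1 : (a ^ ((2 * n + 7 : ℕ) : ℤ)).norm = 2 * n + 7 := by rw [zpow_natCast, a, norm_of_pow]
    have h2 : (a ^ (-((2 * n + 7 : ℕ) : ℤ))).norm = 2 * n + 7 := by rw [zpow_neg, norm_inv_eq, h1]
    have h3 := norm_mul_le (a ^ (-((2 * n + 7 : ℕ) : ℤ)) * mk w) (a ^ ((2 * n + 7 : ℕ) : ℤ))
    have h4 := norm_mul_le (a ^ (-((2 * n + 7 : ℕ) : ℤ))) (mk w)
    have h5 : (mk w : F).norm ≤ w.length := norm_mk_le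
    have h6 : k * (2 * r.1 + 6) ≤ k * (2 * n + 6) := Nat.mul_le_mul_left _ (by omega)
    have h7 : (k + 2) * (2 * n + 6) = k * (2 * n + 6) + 4 * n + 12 := by ring
    omega
  · intro u hu v hv h
    have h1 : (mk u : F) = mk v := mul_left_cancel (mul_right_cancel h)
    have h2 := congrArg toWord h1
    rwa [toWord_mk, toWord_mk, (hP' u hu).1.1.reduce_eq, (hP' v hv).1.1.reduce_eq] at h2

lemma mem_ball (n : ℕ) (g : F) : (∃ l : List F, l.length ≤ n ∧
    (∀ x ∈ l, x ∈ ({a, b} : Finset F) ∨ x⁻¹ ∈ ({a, b} : Finset F)) ∧ l.prod = g) ↔ g ∈ ball n := by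
  constructor
  · rintro ⟨l, h1, h2, rfl⟩
    refine le_trans ?_ h1
    clear h1
    induction l with
    | nil => simp
    | cons x l ih =>
      have h3 := ih fun y hy => h2 y (List.mem_cons_of_mem _ hy)
      have h4 : x.norm = 1 := by
        rcases h2 x List.mem_cons_self with h | h
        · simp only [Finset.mem_insert, Finset.mem_singleton] at h
          rcases h with rfl | rfl <;> exact norm_of _
        · rw [← norm_inv_eq]
          simp only [Finset.mem_insert, Finset.mem_singleton] at h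
          rcases h with h | h <;> rw [h] <;> exact norm_of _
      have h5 := norm_mul_le x l.prod
      rw [List.prod_cons, List.length_cons]
      omega
  · intro h
    refine ⟨g.toWord.map fun x => mk [x], by rw [List.length_map]; exact h, ?_, ?_⟩
    · intro x hx
      obtain ⟨⟨s, t⟩, -, rfl⟩ := List.mem_map.1 hx
      cases s <;> cases t
      · right; exact Finset.mem_insert_self _ _
      · left; exact Finset.mem_insert_self _ _
      · right; exact Finset.mem_insert_of_mem (Finset.mem_singleton_self _)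
      · left; exact Finset.mem_insert_of_mem (Finset.mem_singleton_self _)
    · conv_rhs => rw [← mk_toWord (x := g)]
      induction g.toWord with
      | nil => rfl
      | cons x l ih => rw [List.map_cons, List.prod_cons, ih, mul_mk]; rfl

lemma closure_eq : Subgroup.closure (({a, b} : Finset F) : Set F) = ⊤ := by
  rw [← FreeGroup.closure_range_of]
  congr 1
  ext x
  simp only [Finset.coe_insert, Finset.coe_singleton, Set.mem_insert_iff, Set.mem_singleton_iff,
    Set.mem_range, Bool.exists_bool, a, b, eq_comm]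

/-! ### analysis -/

lemma analysis (u v : ℕ → ℕ) (hu : ∀ n, u n ≤ 5 ^ n)
    (h : ∀ n, ∃ c : ℕ, v n ≤ c * ((n + 1) * (2 * n + 7)) ∧
      ∀ k : ℕ, (c * c) ^ k ≤ u ((k + 2) * (2 * n + 6) + 2)) :
    ¬ limsup (fun n : ℕ => (u n : ℝ) ^ ((1 : ℝ) / (n : ℝ))) atTop <
      limsup (fun n : ℕ => (v n : ℝ) ^ ((1 : ℝ) / (n : ℝ))) atTop := by
  intro hlt
  have hroot : ∀ (x : ℝ) (n : ℕ), 0 ≤ x → n ≠ 0 → (x ^ ((1 : ℝ) / (n : ℝ))) ^ n = x := by
    intro x n hx hn
    rw [one_div]; exact Real.rpow_inv_natCast_pow hx hn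
  have hbd : IsBoundedUnder (· ≤ ·) atTop (fun n : ℕ => (u n : ℝ) ^ ((1 : ℝ) / (n : ℝ))) := by
    refine isBoundedUnder_of_eventually_le (a := 5) ?_
    filter_upwards [eventually_ne_atTop 0] with n hn
    refine le_of_pow_le_pow_left₀ hn (by norm_num) ?_
    rw [hroot _ _ (Nat.cast_nonneg _) hn]
    exact_mod_cast hu n
  have h0 : 0 ≤ limsup (fun n : ℕ => (u n : ℝ) ^ ((1 : ℝ) / (n : ℝ))) atTop :=
    le_limsup_of_frequently_le (Frequently.of_forall fun n => by positivity) hbd
  obtain ⟨r1, h1, h1'⟩ := exists_between hlt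
  obtain ⟨r2, h2, h2'⟩ := exists_between h1'
  obtain ⟨r3, h3, h3'⟩ := exists_between h2'
  have p1 : 0 < r1 := lt_of_le_of_lt h0 h1
  have p2 : 0 < r2 := p1.trans h2
  have p3 : 0 < r3 := p2.trans h3
  have e1 := eventually_lt_of_limsup_lt h1 hbd
  have e2 := frequently_lt_of_lt_limsup
    (isCoboundedUnder_le_of_le atTop (x := 0) fun n => by positivity) h3'
  have e3 : ∀ᶠ n : ℕ in atTop, r2 ^ (n + 3) * (((n : ℝ) + 1) * (2 * n + 7)) ≤ r3 ^ n := by
    have hq : |r2 / r3| < 1 := by
      rw [abs_of_pos (div_pos p2 p3), div_lt_one p3]; exact h3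
    have t := (tendsto_pow_const_mul_const_pow_of_abs_lt_one 2 hq).const_mul (18 * r2 ^ 3)
    rw [mul_zero] at t
    filter_upwards [t.eventually (gt_mem_nhds one_pos), eventually_ge_atTop 1] with n hn hn1
    have hn' : (1 : ℝ) ≤ n := by exact_mod_cast hn1
    rw [div_pow, ← mul_div_assoc, ← mul_div_assoc, div_lt_one (pow_pos p3 n)] at hn
    have h4 : ((n : ℝ) + 1) * (2 * n + 7) ≤ 18 * n ^ 2 := by nlinarith
    have h5 := mul_le_mul_of_nonneg_left h4 (pow_pos p2 (n + 3)).le
    refine h5.trans (le_trans (le_of_eq ?_) hn.le)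
    ring
  obtain ⟨n, hn1, hn2, hn3⟩ := (e2.and_eventually (e3.and (eventually_ne_atTop 0))).exists
  obtain ⟨c, hc1, hc2⟩ := h n
  have h4 : r3 ^ n ≤ v n := by
    rw [← hroot (v n) n (Nat.cast_nonneg _) hn3]
    exact pow_le_pow_left₀ p3.le hn1.le n
  have h5 : r2 ^ (n + 3) ≤ c := by
    have h6 : (v n : ℝ) ≤ c * (((n : ℝ) + 1) * (2 * n + 7)) := by exact_mod_cast hc1
    exact le_of_mul_le_mul_right (hn2.trans (h4.trans h6)) (by positivity)
  have tN : Tendsto (fun k : ℕ => (k + 2) * (2 * n + 6) + 2) atTop atTop :=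
    tendsto_atTop_mono (fun k => by show k ≤ _; nlinarith) tendsto_id
  have hq : 1 < (r2 / r1) ^ (2 * n + 6) :=
    one_lt_pow₀ ((one_lt_div p1).2 h2) (by omega)
  obtain ⟨k, hk1, hk2⟩ := ((tN.eventually e1).and
    ((tendsto_pow_atTop_atTop_of_one_lt hq).eventually_ge_atTop (r1 ^ (4 * n + 14)))).exists
  have h6 : (u ((k + 2) * (2 * n + 6) + 2) : ℝ) < r1 ^ ((k + 2) * (2 * n + 6) + 2) := by
    rw [← hroot (u ((k + 2) * (2 * n + 6) + 2)) ((k + 2) * (2 * n + 6) + 2)
      (Nat.cast_nonneg _) (by omega)]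
    exact pow_lt_pow_left₀ hk1 (by positivity) (by omega)
  have h7 : ((c : ℝ) * c) ^ k ≤ u ((k + 2) * (2 * n + 6) + 2) := by exact_mod_cast hc2 k
  have h8 : (r2 ^ (2 * n + 6)) ^ k ≤ ((c : ℝ) * c) ^ k := by
    refine pow_le_pow_left₀ (by positivity) ?_ k
    have : r2 ^ (2 * n + 6) = r2 ^ (n + 3) * r2 ^ (n + 3) := by ring
    rw [this]
    exact mul_le_mul h5 h5 (by positivity) (by positivity)
  rw [div_pow, div_pow, le_div_iff₀ (by positivity)] at hk2
  have h9 : r1 ^ ((k + 2) * (2 * n + 6) + 2) = r1 ^ (4 * n + 14) * (r1 ^ (2 * n + 6)) ^ k := by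
    ring
  linarith

end Pool.Agent.H28.Gap
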