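import Mathlib

set_option autoImplicit false

/-! Generic elements of `SL₂` which are free over a small subgroup. -/

namespace Pool.Agent.H28.GenSL

open Set Polynomial Cardinal
open scoped MatrixGroups

section Defs

variable {K : Type} [Group K]

def sg : Bool → K → K
  | true, x => x
  | false, x => x⁻¹

inductive Red (L : Subgroup K) (t : ℕ → K) : Bool → K → Prop
  | base (ε : Bool) (n : ℕ) : Red L t ε (sg ε (t n))
  | step (ε ε' : Bool) (n : ℕ) (α z : K) : Red L t ε z → α ∈ L → (ε' ≠ ε → α ≠ 1) →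
      Red L t ε' (sg ε' (t n) * α * z)

def Free (L : Subgroup K) (t : ℕ → K) : Prop := ∀ ε z, Red L t ε z → z ∉ L

end Defs

variable {R : Type} [CommRing R]

noncomputable def PS (E : Set R) : Subalgebra ℤ R[X] := Algebra.adjoin ℤ (insert X (C '' E))

lemma X_mem (E : Set R) : X ∈ PS E := Algebra.subset_adjoin (mem_insert _ _)

lemma C_mem {E : Set R} {a : R} (h : a ∈ E) : C a ∈ PS E :=
  Algebra.subset_adjoin (mem_insert_of_mem _ (mem_image_of_mem _ h))

lemma PS_mono {E E' : Set R} (h : E ⊆ E') : PS E ≤ PS E' :=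
  Algebra.adjoin_mono (insert_subset_insert (image_mono h))

def Gen (E : Set R) (τ : R) : Prop := ∀ P ∈ PS E, P.eval τ = 0 → P = 0

lemma exists_gen [IsDomain R] (hR : 𝔠 ≤ #R) (E : Set R) (hE : #E < 𝔠) : ∃ τ, Gen E τ := by
  by_contra hne
  simp only [Gen, not_exists, not_forall] at hne
  choose P hP h0 h1 using hne
  have hS : #(PS E) < #R := by
    refine ((Algebra.cardinalMk_adjoin_le ℤ _).trans_lt ?_).trans_le hR
    refine max_lt (max_lt (by simpa using aleph0_lt_continuum) ?_) aleph0_lt_continuum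
    refine mk_insert_le.trans_lt (add_lt_of_lt aleph0_le_continuum (mk_image_le.trans_lt hE) ?_)
    exact one_lt_aleph0.trans aleph0_lt_continuum
  haveI : Infinite R := Cardinal.infinite_iff.2 (aleph0_le_continuum.trans hR)
  obtain ⟨a, ha⟩ := Cardinal.exists_infinite_fiber (fun τ => (⟨P τ, hP τ⟩ : PS E)) hS
  have hinf := Set.infinite_coe_iff.1 ha
  obtain ⟨τ, hτ⟩ := hinf.nonempty
  have hτ' : P τ = a.1 := congrArg Subtype.val hτ
  refine h1 τ (hτ' ▸ eq_zero_of_infinite_isRoot _ (hinf.mono fun σ hσ => ?_))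
  have hσ' : P σ = a.1 := congrArg Subtype.val hσ
  exact hσ' ▸ h0 σ

def uu (ξ c : R) : SL(2, R) := ⟨!![1 - c * ξ, c; -(c * ξ ^ 2), 1 + c * ξ], by
  rw [Matrix.det_fin_two_of]; ring⟩

lemma uu_inv (ξ c : R) : (uu ξ c)⁻¹ = uu ξ (-c) := by
  rw [Matrix.SpecialLinearGroup.SL2_inv_expl]
  ext i j
  fin_cases i <;> fin_cases j <;> simp [uu, sub_eq_add_neg]

lemma mul_ap (A B : SL(2, R)) (i j : Fin 2) : (A * B) i j = A i 0 * B 0 j + A i 1 * B 1 j := by
  simp [Matrix.mul_apply, Fin.sum_univ_two]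

/-- matrices whose entries are constants of `PS E` -/
def LE (E : Set R) : Subgroup SL(2, R) where
  carrier := {A | ∀ i j, C (A i j) ∈ PS E}
  one_mem' := fun i j => by
    by_cases h : i = j
    · simp [h]
    · simp [Matrix.one_apply_ne h]
  mul_mem' := fun {A B} hA hB i j => by
    rw [mul_ap, map_add, map_mul, map_mul]
    exact add_mem (mul_mem (hA _ _) (hB _ _)) (mul_mem (hA _ _) (hB _ _))
  inv_mem' := fun {A} hA i j => by
    rw [Matrix.SpecialLinearGroup.SL2_inv_expl]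
    fin_cases i <;> fin_cases j
    · exact hA 1 1
    · simpa using hA 0 1
    · simpa using hA 1 0
    · exact hA 0 0

def Ld (E : Set R) (τ : R) (z : SL(2, R)) (d : ℕ) (a b : R) : Prop :=
  ∃ p q : R[X], p ∈ PS E ∧ q ∈ PS E ∧ p.natDegree ≤ d ∧ q.natDegree ≤ d ∧ p.coeff d = a ∧
    q.coeff d = b ∧ z 0 1 = p.eval τ ∧ z 1 1 = q.eval τ

variable {E : Set R} {τ : R}

lemma Ld_one : Ld E τ 1 0 0 1 :=
  ⟨0, 1, zero_mem _, one_mem _, by simp, by simp, by simp, by simp, by simp, by simp⟩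

lemma Ld_const {A z : SL(2, R)} {d : ℕ} {a b : R} (hA : A ∈ LE E) (h : Ld E τ z d a b) :
    Ld E τ (A * z) d (A 0 0 * a + A 0 1 * b) (A 1 0 * a + A 1 1 * b) := by
  obtain ⟨p, q, hp, hq, dp, dq, rfl, rfl, ep, eq⟩ := h
  refine ⟨C (A 0 0) * p + C (A 0 1) * q, C (A 1 0) * p + C (A 1 1) * q,
    add_mem (mul_mem (hA _ _) hp) (mul_mem (hA _ _) hq),
    add_mem (mul_mem (hA _ _) hp) (mul_mem (hA _ _) hq), ?_, ?_, ?_, ?_, ?_, ?_⟩
  · exact natDegree_add_le_of_degree_le ((natDegree_C_mul_le _ _).trans dp)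
      ((natDegree_C_mul_le _ _).trans dq)
  · exact natDegree_add_le_of_degree_le ((natDegree_C_mul_le _ _).trans dp)
      ((natDegree_C_mul_le _ _).trans dq)
  · simp
  · simp
  · rw [mul_ap, ep, eq]; simp
  · rw [mul_ap, ep, eq]; simp

lemma Ld_uu {z : SL(2, R)} {d : ℕ} {a b ξ c : R} (hξ : C ξ ∈ PS E) (hc : C c ∈ PS E)
    (h : Ld E τ z d a b) :
    Ld E τ (uu ξ (c * τ) * z) (d + 1) (c * (b - ξ * a)) (c * (b - ξ * a) * ξ) := by
  obtain ⟨p, q, hp, hq, dp, dq, rfl, rfl, ep, eq⟩ := h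
  have hw : q - C ξ * p ∈ PS E := sub_mem hq (mul_mem hξ hp)
  have dw : (q - C ξ * p).natDegree ≤ d :=
    (natDegree_sub_le _ _).trans (max_le dq ((natDegree_C_mul_le _ _).trans dp))
  have dx : (X * (q - C ξ * p)).natDegree ≤ d + 1 :=
    natDegree_mul_le.trans (by have := natDegree_X_le (R := R); omega)
  refine ⟨p + C c * (X * (q - C ξ * p)), q + C (c * ξ) * (X * (q - C ξ * p)),
    add_mem hp (mul_mem hc (mul_mem (X_mem _) hw)),
    add_mem hq (mul_mem (by rw [map_mul]; exact mul_mem hc hξ) (mul_mem (X_mem _) hw)),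
    ?_, ?_, ?_, ?_, ?_, ?_⟩
  · exact natDegree_add_le_of_degree_le (by omega) ((natDegree_C_mul_le _ _).trans dx)
  · exact natDegree_add_le_of_degree_le (by omega) ((natDegree_C_mul_le _ _).trans dx)
  · rw [coeff_add, coeff_C_mul, coeff_X_mul, coeff_eq_zero_of_natDegree_lt (by omega)]
    simp
  · rw [coeff_add, coeff_C_mul, coeff_X_mul, coeff_eq_zero_of_natDegree_lt (by omega)]
    simp only [coeff_sub, coeff_C_mul]
    ring
  · rw [mul_ap, ep, eq]
    simp [uu]
    ring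
  · rw [mul_ap, ep, eq]
    simp [uu]
    ring

lemma Ld_not (hτ : Gen E τ) {z : SL(2, R)} {d : ℕ} {a b : R} (h : Ld E τ z (d + 1) a b)
    (hz : z ∈ LE E) : a = 0 := by
  obtain ⟨p, q, hp, hq, dp, dq, rfl, rfl, ep, eq⟩ := h
  have := hτ (p - C (z 0 1)) (sub_mem hp (hz _ _)) (by simp [ep])
  rw [sub_eq_zero.1 this]
  simp

lemma Ld_two [IsDomain R] {z : SL(2, R)} {d : ℕ} {a b ξ η c : R} (hξ : C ξ ∈ PS E)
    (hη : C η ∈ PS E) (hc : C c ∈ PS E) (hc0 : c ≠ 0) (hne : η - ξ ≠ 0) (hab : b - η * a ≠ 0)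
    (h : Ld E τ z d a b) :
    ∃ s, s ≠ 0 ∧ Ld E τ (uu ξ (c * τ) * uu η (c * τ) * z) (d + 1 + 1) s (s * ξ) := by
  refine ⟨_, ?_, by rw [mul_assoc]; exact Ld_uu hξ hc (Ld_uu hη hc h)⟩
  have : c * (c * (b - η * a) * η - ξ * (c * (b - η * a))) = c * c * (b - η * a) * (η - ξ) := by
    ring
  rw [this]
  exact mul_ne_zero (mul_ne_zero (mul_ne_zero hc0 hc0) hab) hne

def ff (ξ : R) (A : SL(2, R)) (η : R) : R := (A 1 0 + A 1 1 * η) - ξ * (A 0 0 + A 0 1 * η)

lemma det_eq (A : SL(2, R)) : A 0 0 * A 1 1 - A 0 1 * A 1 0 = 1 := by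
  have := A.det_coe
  rwa [Matrix.det_fin_two] at this

lemma ff_self (h2 : ∀ a : R, a * a = 1 → a = 1) {ξ : R} (hξ : Gen E ξ) {A : SL(2, R)}
    (hA : A ∈ LE E) (h : ff ξ A ξ = 0) : A = 1 := by
  have := hξ (C (A 1 0) + (C (A 1 1) - C (A 0 0)) * X - C (A 0 1) * X ^ 2)
    (sub_mem (add_mem (hA _ _) (mul_mem (sub_mem (hA _ _) (hA _ _)) (X_mem _)))
      (mul_mem (hA _ _) (pow_mem (X_mem _) 2))) (by
        rw [← h]; simp [ff]; ring)
  have h0 := congrArg (coeff · 0) this
  have h1 := congrArg (coeff · 1) this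
  have h3 := congrArg (coeff · 2) this
  simp [sub_mul, coeff_X, coeff_C] at h0 h1 h3
  have hd := det_eq A
  rw [h3, zero_mul, sub_zero, sub_eq_zero.1 h1] at hd
  have h4 := h2 _ hd
  ext i j
  fin_cases i <;> fin_cases j
  · simpa using h4
  · simpa using h3
  · simpa using h0
  · simpa [sub_eq_zero.1 h1] using h4

lemma lin_zero {η a b : R} (hη : Gen E η) (ha : C a ∈ PS E) (hb : C b ∈ PS E)
    (h : a + b * η = 0) : a = 0 ∧ b = 0 := by
  have := hη (C a + C b * X) (add_mem ha (mul_mem hb (X_mem _))) (by simpa using h)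
  have h0 := congrArg (coeff · 0) this
  have h1 := congrArg (coeff · 1) this
  simp [coeff_X, coeff_C] at h0 h1
  exact ⟨h0, h1⟩

lemma ff_left [Nontrivial R] {ξ η : R} (hη : Gen E η) (hξ : C ξ ∈ PS E) {A : SL(2, R)}
    (hA : A ∈ LE E) : ff η A ξ ≠ 0 := by
  intro h
  have := lin_zero (a := A 1 0 + A 1 1 * ξ) (b := -(A 0 0 + A 0 1 * ξ)) hη
    (by rw [map_add, map_mul]; exact add_mem (hA _ _) (mul_mem (hA _ _) hξ))
    (by rw [map_neg, map_add, map_mul]; exact neg_mem (add_mem (hA _ _) (mul_mem (hA _ _) hξ)))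
    (by rw [← h, ff]; ring)
  have hd := det_eq A
  exact one_ne_zero (by linear_combination -hd - A 0 1 * this.1 - A 1 1 * this.2 : (1 : R) = 0)

lemma ff_right [Nontrivial R] {ξ η : R} (hη : Gen E η) (hξ : C ξ ∈ PS E) {A : SL(2, R)}
    (hA : A ∈ LE E) : ff ξ A η ≠ 0 := by
  intro h
  have := lin_zero (a := A 1 0 - ξ * A 0 0) (b := A 1 1 - ξ * A 0 1) hη
    (by rw [map_sub, map_mul]; exact sub_mem (hA _ _) (mul_mem hξ (hA _ _)))
    (by rw [map_sub, map_mul]; exact sub_mem (hA _ _) (mul_mem hξ (hA _ _)))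
    (by rw [← h, ff]; ring)
  have hd := det_eq A
  exact one_ne_zero (by linear_combination -hd - A 0 1 * this.1 + A 0 0 * this.2 : (1 : R) = 0)

lemma LE_mono {E E' : Set R} (h : E ⊆ E') : LE E ≤ LE E' := fun _ hA i j => PS_mono h (hA i j)

theorem exists_free [IsDomain R] (hR : 𝔠 ≤ #R) (h2 : ∀ a : R, a * a = 1 → a = 1)
    (π : R) (hπ : π ≠ 0) (s : Set SL(2, R)) (hs : #s < 𝔠) :
    ∃ ξ η τ : R, ∀ k ∈ Subgroup.closure s, Free (Subgroup.closure s)
      (fun n => k * (uu ξ (π ^ (n + 1) * τ) * uu η (π ^ (n + 1) * τ))) := by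
  have hins : ∀ (E : Set R) (a : R), #E < 𝔠 → #(insert a E : Set R) < 𝔠 := fun E a hE =>
    mk_insert_le.trans_lt (add_lt_of_lt aleph0_le_continuum hE
      (one_lt_aleph0.trans aleph0_lt_continuum))
  let E0 : Set R := range fun q : s × (Fin 2 × Fin 2) => q.1.1 q.2.1 q.2.2
  have hE0 : #E0 < 𝔠 := by
    refine mk_range_le.trans_lt ?_
    rw [mk_prod, lift_id, lift_id]
    exact mul_lt_of_lt aleph0_le_continuum hs ((lt_aleph0_of_finite _).trans aleph0_lt_continuum)
  obtain ⟨ξ, hξ⟩ := exists_gen hR E0 hE0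
  obtain ⟨η, hη⟩ := exists_gen hR (insert ξ E0) (hins _ _ hE0)
  obtain ⟨τ, hτ⟩ := exists_gen hR (insert π (insert η (insert ξ E0)))
    (hins _ _ (hins _ _ (hins _ _ hE0)))
  set E3 : Set R := insert π (insert η (insert ξ E0)) with hE3
  have hL0 : Subgroup.closure s ≤ LE E0 := (Subgroup.closure_le _).2 fun A hA i j =>
    C_mem ⟨(⟨A, hA⟩, i, j), rfl⟩
  have hL1 : Subgroup.closure s ≤ LE (insert ξ E0) := hL0.trans (LE_mono (subset_insert _ _))
  have hL3 : Subgroup.closure s ≤ LE E3 :=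
    hL1.trans (LE_mono ((subset_insert _ _).trans (subset_insert _ _)))
  have hξ1 : C ξ ∈ PS (insert ξ E0) := C_mem (mem_insert _ _)
  have hξ3 : C ξ ∈ PS E3 := C_mem (by simp [hE3])
  have hη3 : C η ∈ PS E3 := C_mem (by simp [hE3])
  have hc3 : ∀ n, C (π ^ (n + 1)) ∈ PS E3 := fun n => by
    rw [map_pow]; exact pow_mem (C_mem (by simp [hE3])) _
  have hc3' : ∀ n, C (-π ^ (n + 1)) ∈ PS E3 := fun n => by
    rw [map_neg]; exact neg_mem (hc3 n)
  have hη0 : Gen E0 η := fun P hP => hη P (PS_mono (subset_insert _ _) hP)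
  have hne : η - ξ ≠ 0 := by simpa [ff] using ff_right hη hξ1 (one_mem _)
  have hne' : ξ - η ≠ 0 := fun h => hne (by linear_combination -h)
  refine ⟨ξ, η, τ, fun k hk => ?_⟩
  have key : ∀ ε z, Red (Subgroup.closure s)
      (fun n => k * (uu ξ (π ^ (n + 1) * τ) * uu η (π ^ (n + 1) * τ))) ε z →
      ∃ b ∈ Subgroup.closure s, ∃ d a, a ≠ 0 ∧
        Ld E3 τ ((bif ε then k else 1)⁻¹ * z * b) (d + 1) a (a * bif ε then ξ else η) := by
    have hfalse : ∀ n, sg false (k * (uu ξ (π ^ (n + 1) * τ) * uu η (π ^ (n + 1) * τ))) =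
        uu η (-π ^ (n + 1) * τ) * uu ξ (-π ^ (n + 1) * τ) * k⁻¹ := fun n => by
      simp only [sg, mul_inv_rev, uu_inv, neg_mul]
    intro ε z h
    induction h with
    | base ε n =>
      cases ε with
      | true =>
        obtain ⟨a, ha, h⟩ := Ld_two (τ := τ) hξ3 hη3 (hc3 n) (pow_ne_zero _ hπ) hne
          (by simp) Ld_one
        exact ⟨1, one_mem _, 1, a, ha, by simpa [sg] using h⟩
      | false =>
        obtain ⟨a, ha, h⟩ := Ld_two (τ := τ) hη3 hξ3 (hc3' n) (neg_ne_zero.2 (pow_ne_zero _ hπ))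
          hne' (by simp) Ld_one
        refine ⟨k, hk, 1, a, ha, ?_⟩
        rw [hfalse]
        simpa using h
    | step ε ε' n α z _ hα hred ih =>
      obtain ⟨b, hb, d, a, ha, h⟩ := ih
      have hκ : (bif ε then k else 1) ∈ Subgroup.closure s := by
        cases ε
        · exact one_mem _
        · exact hk
      cases ε' with
      | true =>
        have hA := mul_mem hα hκ
        have hf : ff η (α * bif ε then k else 1) (bif ε then ξ else η) ≠ 0 := by
          cases ε with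
          | true => exact ff_left hη hξ1 (hL1 hA)
          | false =>
            intro h0
            exact hred (by simp) (by simpa using ff_self h2 hη0 (hL0 hA) h0)
        obtain ⟨a', ha', h'⟩ := Ld_two (τ := τ) hξ3 hη3 (hc3 n) (pow_ne_zero _ hπ) hne
          (fun h0 => mul_ne_zero ha hf (by rw [← h0, ff]; ring)) (Ld_const (hL3 hA) h)
        refine ⟨b, hb, d + 1 + 1, a', ha', ?_⟩
        convert h' using 1
        · simp only [sg, cond_true]
          group
        · rfl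
      | false =>
        have hA := mul_mem (mul_mem (inv_mem hk) hα) hκ
        have hf : ff ξ (k⁻¹ * α * bif ε then k else 1) (bif ε then ξ else η) ≠ 0 := by
          cases ε with
          | false => exact ff_right hη hξ1 (hL1 hA)
          | true =>
            intro h0
            have := ff_self h2 hξ (hL0 hA) h0
            refine hred (by simp) ?_
            simp only [cond_true] at this
            calc α = k * (k⁻¹ * α * k) * k⁻¹ := by group
              _ = 1 := by rw [this]; group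
        obtain ⟨a', ha', h'⟩ := Ld_two (τ := τ) hη3 hξ3 (hc3' n)
          (neg_ne_zero.2 (pow_ne_zero _ hπ)) hne'
          (fun h0 => mul_ne_zero ha hf (by rw [← h0, ff]; ring)) (Ld_const (hL3 hA) h)
        refine ⟨b, hb, d + 1 + 1, a', ha', ?_⟩
        rw [hfalse]
        convert h' using 1
        · simp only [cond_false]
          group
        · rfl
  intro ε z hz hzL
  obtain ⟨b, hb, d, a, ha, h⟩ := key ε z hz
  refine ha (Ld_not hτ h (hL3 (mul_mem (mul_mem (inv_mem ?_) hzL) hb)))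
  cases ε
  · exact one_mem _
  · exact hk

section PS2

open scoped PowerSeries.WithPiTopology

abbrev RR : Type := PowerSeries (ZMod 2)

abbrev KK : Type := SL(2, RR)

instance : CompactSpace RR := inferInstanceAs (CompactSpace ((Unit →₀ ℕ) → ZMod 2))

instance : CompactSpace (Matrix (Fin 2) (Fin 2) RR) :=
  inferInstanceAs (CompactSpace (Fin 2 → Fin 2 → RR))

instance : CompactSpace KK :=
  Matrix.SpecialLinearGroup.isClosedEmbedding_val.compactSpace

instance : T2Space KK :=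
  Matrix.SpecialLinearGroup.isClosedEmbedding_val.isEmbedding.t2Space

lemma card_RR : #RR = 𝔠 := by
  have : #RR = #((Unit →₀ ℕ) → ZMod 2) := rfl
  rw [this, ← power_def]
  simp

lemma card_KK : #KK ≤ 𝔠 := by
  refine (mk_subtype_le _).trans ?_
  have : #(Matrix (Fin 2) (Fin 2) RR) = #(Fin 2 → Fin 2 → RR) := rfl
  have h : (𝔠 : Cardinal.{0}) ^ #(Fin 2) ≤ 𝔠 :=
    (power_le_power_left continuum_ne_zero (lt_aleph0_of_finite _).le).trans
      continuum_power_aleph0.le
  rw [this, ← power_def, ← power_def, card_RR]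
  exact (power_le_power_right h).trans h

noncomputable def NN (n : ℕ) : Subgroup KK :=
  (Matrix.SpecialLinearGroup.map
    (Ideal.Quotient.mk (Ideal.span {(PowerSeries.X : RR) ^ n}))).ker

lemma mem_NN {n : ℕ} {A : KK} : A ∈ NN n ↔
    ∀ i j, (PowerSeries.X : RR) ^ n ∣ A i j - (1 : KK) i j := by
  rw [NN, MonoidHom.mem_ker, ← map_one (Matrix.SpecialLinearGroup.map
    (Ideal.Quotient.mk (Ideal.span {(PowerSeries.X : RR) ^ n}))), Matrix.SpecialLinearGroup.ext_iff]
  refine forall_congr' fun i => forall_congr' fun j => ?_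
  rw [← Ideal.mem_span_singleton, ← Ideal.Quotient.eq]
  rfl

lemma NN_zero : NN 0 = ⊤ := by
  ext A
  simp [mem_NN]

lemma NN_anti : Antitone NN := fun n m h A hA =>
  mem_NN.2 fun i j => (pow_dvd_pow _ h).trans (mem_NN.1 hA i j)

lemma NN_clopen (n : ℕ) : IsClopen (NN n : Set KK) := by
  have : (NN n : Set KK) = ⋂ i, ⋂ j, ⋂ m ∈ Finset.range n,
      (fun A : KK => PowerSeries.coeff m (A i j - (1 : KK) i j)) ⁻¹' {0} := by
    ext A
    simp only [SetLike.mem_coe, mem_NN, PowerSeries.X_pow_dvd_iff, mem_iInter, Finset.mem_range,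
      mem_preimage, mem_singleton_iff]
  rw [this]
  refine isClopen_iInter_of_finite fun i => isClopen_iInter_of_finite fun j =>
    isClopen_biInter_finset fun m _ => (isClopen_discrete _).preimage ?_
  refine (PowerSeries.WithPiTopology.continuous_coeff _ m).comp (Continuous.sub ?_ continuous_const)
  exact (continuous_apply j).comp (Matrix.SpecialLinearGroup.continuous_apply _ continuous_id i)

lemma NN_inter (A : KK) (h : ∀ n, A ∈ NN n) : A = 1 := by
  refine Matrix.SpecialLinearGroup.ext _ _ fun i j => sub_eq_zero.1 ?_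
  ext m
  exact PowerSeries.X_pow_dvd_iff.1 (mem_NN.1 (h (m + 1)) i j) m (by omega)

lemma uu_mem (n : ℕ) (ξ τ : RR) : uu ξ (PowerSeries.X ^ n * τ) ∈ NN n := by
  refine mem_NN.2 fun i j => ?_
  fin_cases i <;> fin_cases j <;> simp [uu, mul_assoc]

theorem gen_KK (s : Set KK) : ∃ m : ℕ → KK, (∀ n, m n ∈ NN (n + 1)) ∧
    (#s < 𝔠 → ∀ k ∈ Subgroup.closure s, Free (Subgroup.closure s) (fun n => k * m n)) := by
  by_cases hs : #s < 𝔠
  · have h2 : ∀ a : RR, a * a = 1 → a = 1 := fun a h => by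
      have h0 : (2 : RR) = 0 := by
        rw [← map_ofNat (PowerSeries.C (R := ZMod 2)) 2, show (2 : ZMod 2) = 0 from rfl, map_zero]
      have : (a - 1) * (a - 1) = 0 := by linear_combination h + (1 - a) * h0
      exact sub_eq_zero.1 (mul_self_eq_zero.1 this)
    obtain ⟨ξ, η, τ, h⟩ := exists_free card_RR.ge h2 PowerSeries.X PowerSeries.X_ne_zero s hs
    exact ⟨_, fun n => mul_mem (uu_mem _ _ _) (uu_mem _ _ _), fun _ => h⟩
  · exact ⟨fun _ => 1, fun _ => one_mem _, fun h => absurd h hs⟩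

end PS2

end Pool.Agent.H28.GenSL
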