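import Mathlib

set_option autoImplicit false

namespace Pool.Agent.H28.HermA

open Polynomial Filter Topology Finset

section ring
variable {A : Type*} [CommRing A]

/-- Taylor coefficients of the exponential of a quadratic -/
def H (u v : A) : ℕ → A
  | 0 => 1
  | 1 => u
  | k + 2 => u * H u v (k + 1) + 2 * (k + 1) * v * H u v k

lemma H_succ (u v : A) (k : ℕ) : H u v (k + 1) = u * H u v k + 2 * k * v * H u v (k - 1) := by
  cases k <;> simp [H]

lemma H_map {B F : Type*} [CommRing B] [FunLike F A B] [RingHomClass F A B] (φ : F) (u v : A)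
    (k : ℕ) : φ (H u v k) = H (φ u) (φ v) k := by
  induction k using Nat.twoStepInduction with
  | zero => simp [H]
  | one => simp [H]
  | more k h1 h2 => simp [H, h1, h2, map_ofNat]

lemma H_hom (r u v : A) (k : ℕ) : H (r * u) (r ^ 2 * v) k = r ^ k * H u v k := by
  induction k using Nat.twoStepInduction with
  | zero => simp [H]
  | one => simp [H]
  | more k h1 h2 => simp only [H, h1, h2]; ring

lemma H_zero (u : A) (k : ℕ) : H u 0 k = u ^ k := by
  induction k with
  | zero => simp [H]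
  | succ k h => rw [H_succ, h]; ring

lemma H_even (v : A) (j : ℕ) : j.factorial * H 0 v (2 * j) = (2 * j).factorial * v ^ j := by
  induction j with
  | zero => simp [H]
  | succ j h =>
    rw [show 2 * (j + 1) = 2 * j + 1 + 1 by ring, H, Nat.factorial_succ, Nat.factorial_succ,
      Nat.factorial_succ]
    push_cast
    linear_combination (2 * (j + 1) * (2 * j + 1) * v : A) * h

lemma aux (a b : ℕ → A) (k : ℕ) :
    ∑ p ∈ antidiagonal k, (k.choose p.1 : A) * (a p.1 * (p.2 * b (p.2 - 1))) =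
      k * ∑ p ∈ antidiagonal (k - 1), ((k - 1).choose p.1 : A) * (a p.1 * b p.2) := by
  cases k with
  | zero => simp
  | succ l =>
    rw [Nat.sum_antidiagonal_succ', mul_sum]
    simp only [Nat.cast_zero, zero_mul, mul_zero, zero_add, Nat.add_sub_cancel]
    refine sum_congr rfl fun p hp => ?_
    have := congrArg (Nat.cast : ℕ → A) (Nat.choose_mul_succ_eq l p.1)
    rw [show l + 1 - p.1 = p.2 + 1 by have := mem_antidiagonal.1 hp; omega] at this
    push_cast at this ⊢
    linear_combination -(a p.1 * b p.2) * this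

lemma swap (f : ℕ → ℕ → A) (k : ℕ) : ∑ p ∈ antidiagonal k, (k.choose p.2 : A) * f p.1 p.2 =
    ∑ p ∈ antidiagonal k, (k.choose p.1 : A) * f p.1 p.2 :=
  sum_congr rfl fun p hp => by rw [Nat.choose_symm_of_eq_add (mem_antidiagonal.1 hp).symm]

lemma H_add (u v u' v' : A) (k : ℕ) : H (u + u') (v + v') k =
    ∑ p ∈ antidiagonal k, (k.choose p.1 : A) * (H u v p.1 * H u' v' p.2) := by
  induction k using Nat.strong_induction_on with
  | _ k ih =>
    cases k with
    | zero => simp [H]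
    | succ k =>
      have h1 := aux (H u v) (H u' v') k
      have h2 := aux (H u' v') (H u v) k
      rw [← Nat.sum_antidiagonal_swap, ← Nat.sum_antidiagonal_swap (n := k - 1)] at h2
      simp only [Prod.fst_swap, Prod.snd_swap] at h2
      rw [swap (fun i j => H u' v' j * (i * H u v (i - 1))), swap fun i j => H u' v' j * H u v i]
        at h2
      rw [H_succ, ih k (by omega), ih (k - 1) (by omega),
        sum_antidiagonal_choose_succ_mul (fun i j => H u v i * H u' v' j),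
        swap fun i j => H u v (i + 1) * H u' v' j]
      simp only [H_succ, mul_comm (H u' v' _) (H u v _)] at h2 ⊢
      have e : ∀ p : ℕ × ℕ, (k.choose p.1 : A) * (H u v p.1 * (u' * H u' v' p.2 +
          2 * p.2 * v' * H u' v' (p.2 - 1))) + k.choose p.1 * ((u * H u v p.1 +
          2 * p.1 * v * H u v (p.1 - 1)) * H u' v' p.2) =
          (u + u') * (k.choose p.1 * (H u v p.1 * H u' v' p.2)) +
          2 * v' * (k.choose p.1 * (H u v p.1 * (p.2 * H u' v' (p.2 - 1)))) +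
          2 * v * (k.choose p.1 * (H u' v' p.2 * (p.1 * H u v (p.1 - 1)))) := fun p => by ring
      rw [← sum_add_distrib, sum_congr rfl fun p _ => e p, sum_add_distrib, sum_add_distrib,
        ← mul_sum, ← mul_sum, ← mul_sum, h1, h2]
      ring

lemma H_der (u : A[X]) (v : A) (k : ℕ) :
    derivative (H u (C v) k) = k * derivative u * H u (C v) (k - 1) := by
  induction k using Nat.twoStepInduction with
  | zero => simp [H]
  | one => simp [H]
  | more k h1 h2 =>
    rw [H, show k + 2 - 1 = k + 1 from rfl]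
    simp only [derivative_add, derivative_mul, h1, h2, derivative_C, Nat.add_sub_cancel,
      derivative_ofNat, derivative_natCast, derivative_one]
    rw [H_succ]; push_cast; ring

/-- the umbral functional -/
noncomputable def Lam (γ : ℕ → A) : A[X] →ₗ[A] A :=
  lsum fun n => LinearMap.toSpanSingleton A A (γ n)

lemma Lam_pow (γ : ℕ → A) (n : ℕ) : Lam γ (X ^ n) = γ n := by
  simp [Lam, ← monomial_one_right_eq_X_pow]

lemma Lam_C (γ : ℕ → A) (a : A) (p : A[X]) : Lam γ (C a * p) = a * Lam γ p := by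
  rw [← smul_eq_C_mul, map_smul, smul_eq_mul]

lemma Lam_bin (γ : ℕ → A) (s : A[X]) (a b : A) (n : ℕ) : Lam γ ((C a * s + C b) ^ n) =
    ∑ p ∈ antidiagonal n, (n.choose p.1 : A) * (a ^ p.1 * b ^ p.2 * Lam γ (s ^ p.1)) := by
  rw [(Commute.all _ _).add_pow', map_sum]
  refine sum_congr rfl fun p _ => ?_
  rw [← Lam_C, map_nsmul, nsmul_eq_mul, mul_pow, C_mul, C_pow, C_pow]
  congr 2; ring

end ring

lemma itd (u v : ℂ) (k : ℕ) : iteratedDeriv k (fun z => Complex.exp (u * z + v * z ^ 2)) =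
    fun z => H (u + 2 * v * z) v k * Complex.exp (u * z + v * z ^ 2) := by
  induction k with
  | zero => simp [H]
  | succ k ih =>
    rw [iteratedDeriv_succ, ih]
    ext z
    have e : ∀ (w : ℂ) j, (H (C u + C (2 * v) * X) (C v) j).eval w = H (u + 2 * v * w) v j :=
      fun w j => (H_map (evalRingHom w) _ _ j).trans (by simp)
    have h1 := (H (C u + C (2 * v) * X) (C v) k).hasDerivAt z
    simp only [H_der, eval_mul, e] at h1
    have h2 : HasDerivAt (fun z => u * z + v * z ^ 2) (u + 2 * v * z) z := by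
      refine (((hasDerivAt_id' z).const_mul u).fun_add
        ((hasDerivAt_pow 2 z).const_mul v)).congr_deriv ?_
      simp; ring
    rw [(h1.fun_mul h2.cexp).deriv, H_succ]
    simp; ring

lemma H_le (u v : ℂ) (k : ℕ) (R M : ℝ) (hR : 0 < R)
    (h : ∀ z : ℂ, ‖z‖ = R → (u * z + v * z ^ 2).re ≤ M) :
    ‖H u v k‖ ≤ k.factorial * Real.exp M / R ^ k := by
  have := Complex.norm_iteratedDeriv_le_of_forall_mem_sphere_norm_le (c := 0)
    (f := fun z => Complex.exp (u * z + v * z ^ 2)) (C := Real.exp M) k hR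
    (Differentiable.diffContOnCl (by fun_prop)) fun z hz => by
      rw [Complex.norm_exp]; exact Real.exp_le_exp.2 (h z (by simpa using hz))
  simpa [itd] using this

lemma coeff_le (G : ℂ[X]) (i : ℕ) (R M : ℝ) (hR : 0 < R)
    (h : ∀ z : ℂ, ‖z‖ = R → ‖G.eval z‖ ≤ M) : ‖G.coeff i‖ ≤ M / R ^ i := by
  have := Complex.norm_iteratedDeriv_le_of_forall_mem_sphere_norm_le (c := 0)
    (f := fun z => G.eval z) (C := M) i hR G.differentiable.diffContOnCl
    fun z hz => h z (by simpa using hz)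
  have e : ∀ k, iteratedDeriv k (fun z => G.eval z) = fun z => (derivative^[k] G).eval z := by
    intro k
    induction k with
    | zero => simp
    | succ k ih => rw [iteratedDeriv_succ, ih, Function.iterate_succ_apply']; ext z; simp
  rw [e] at this
  simp only [← coeff_zero_eq_eval_zero, coeff_iterate_derivative, zero_add, Nat.descFactorial_self,
    nsmul_eq_mul, norm_mul, Complex.norm_natCast, mul_div_assoc] at this
  exact le_of_mul_le_mul_left this (by positivity)

lemma fun_le (ℓ : ℂ[X] →ₗ[ℂ] ℂ) (p s G : ℂ[X]) (K ρ R M : ℝ) (h0 : 0 ≤ ρ) (hR : ρ < R)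
    (h : ∀ i, ‖ℓ (p * s ^ i)‖ ≤ K * ρ ^ i) (hM : ∀ z : ℂ, ‖z‖ = R → ‖G.eval z‖ ≤ M) :
    ‖ℓ (p * G.comp s)‖ ≤ K * (1 - ρ / R)⁻¹ * M := by
  have R0 : 0 < R := h0.trans_lt hR
  have K0 : 0 ≤ K := by simpa using (norm_nonneg _).trans (h 0)
  have M0 : 0 ≤ M := (norm_nonneg _).trans (hM R (by simp [R0.le]))
  have x1 : ρ / R < 1 := (div_lt_one R0).2 hR
  rw [comp, eval₂_eq_sum_range, mul_sum, map_sum]
  refine (norm_sum_le_of_le _ (n := fun i => K * M * (ρ / R) ^ i) fun i _ => ?_).trans ?_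
  · rw [mul_left_comm, ← smul_eq_C_mul, map_smul, norm_smul]
    refine (mul_le_mul (coeff_le G i R M R0 hM) (h i) (by positivity) (by positivity)).trans_eq ?_
    rw [div_pow]; ring
  · rw [← mul_sum, mul_right_comm, ← tsum_geometric_of_lt_one (by positivity) x1]
    gcongr
    exact (summable_geometric_of_lt_one (by positivity) x1).sum_le_tsum _ fun _ _ => by positivity

/-- the cubic map with attracting fixed points zero and one -/
noncomputable def S (w : ℂ[X]) : ℂ[X] := 3 * w ^ 2 - 2 * w ^ 3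

lemma S_le (w : ℂ[X]) (z : ℂ) (h : ‖w.eval z‖ ≤ 1 / 4) (j : ℕ) :
    ‖(S^[j] w).eval z‖ ≤ (7 / 8) ^ j / 4 := by
  induction j with
  | zero => simpa using h
  | succ j ih =>
    rw [Function.iterate_succ_apply', S]
    set t := (S^[j] w).eval z
    have h1 : (7 / 8 : ℝ) ^ j ≤ 1 := pow_le_one₀ (by norm_num) (by norm_num)
    have h2 := norm_sub_le (3 * t ^ 2) (2 * t ^ 3)
    simp only [eval_sub, eval_mul, eval_pow, eval_ofNat, norm_mul, norm_pow,
      Complex.norm_ofNat] at h2 ⊢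
    have h3 := norm_nonneg t
    have h4 : ‖t‖ ≤ 1 / 4 := by linarith
    have : ‖t‖ ^ 2 ≤ ‖t‖ / 4 := by nlinarith
    rw [pow_succ (7 / 8 : ℝ)]
    nlinarith

lemma S_comp (w s : ℂ[X]) (j : ℕ) : (S^[j] w).comp s = S^[j] (w.comp s) := by
  induction j with
  | zero => rfl
  | succ j ih => rw [Function.iterate_succ_apply', Function.iterate_succ_apply', ← ih]; simp [S]

lemma S_one (w : ℂ[X]) (j : ℕ) : S^[j] (1 - w) = 1 - S^[j] w := by
  induction j with
  | zero => rfl
  | succ j ih =>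
    rw [Function.iterate_succ_apply', Function.iterate_succ_apply', ih, S, S]; ring

lemma near (ℓ : ℂ[X] →ₗ[ℂ] ℂ) (c : ℂ) (K ε : ℝ) (hε : 0 < ε)
    (h : ∀ i, ‖ℓ ((X - C c) ^ i)‖ ≤ K * ε ^ i) (F : ℂ[X]) (M : ℝ)
    (hM : ∀ r : ℂ, ‖r - c‖ = 2 * ε → ‖F.eval r‖ ≤ M) : ‖ℓ F‖ ≤ 2 * K * M := by
  have := fun_le ℓ 1 (X - C c) (F.comp (X + C c)) K ε (2 * ε) M hε.le (by linarith)
    (by simpa using h) fun z hz => by simpa using hM (z + c) (by simpa using hz)
  rw [comp_assoc, one_mul, show ε / (2 * ε) = 1 / 2 by field_simp] at this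
  simp only [add_comp, X_comp, C_comp, sub_add_cancel, comp_X] at this
  linarith

lemma runge (ℓ : ℂ[X] →ₗ[ℂ] ℂ) (c : ℂ)
    (hE : ∀ ε : ℝ, 0 < ε → ∃ K : ℝ, ∀ i, ‖ℓ ((X - C c) ^ i)‖ ≤ K * ε ^ i) (p q : ℂ[X])
    (hq : q.eval c = 1) (K θ : ℝ) (h0 : 0 ≤ θ) (h1 : θ < 1)
    (h : ∀ i, ‖ℓ (p * q ^ i)‖ ≤ K * θ ^ i) : ℓ p = 0 := by
  obtain ⟨a, ha⟩ := exists_pow_lt_of_lt_one (show (0 : ℝ) < 1 / 4 by norm_num)
    (show (θ + 1) / 2 < 1 by linarith)
  obtain ⟨δ, δ0, hδ⟩ := Metric.continuousAt_iff.1 ((1 - q ^ a).continuous.continuousAt (x := c))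
    (1 / 4) (by norm_num : (0 : ℝ) < 1 / 4)
  obtain ⟨K', hK⟩ := hE (δ / 4) (by positivity)
  obtain ⟨B, hB⟩ := (isCompact_sphere c (2 * (δ / 4))).exists_bound_of_continuousOn
    p.continuous.continuousOn
  have key : ∀ j : ℕ, ‖ℓ p‖ ≤ K * (1 - θ / ((θ + 1) / 2))⁻¹ * ((7 / 8) ^ j / 4) +
      2 * K' * (B * ((7 / 8) ^ j / 4)) := fun j => by
    have e1 := fun_le ℓ p q (S^[j] (X ^ a)) K θ ((θ + 1) / 2) _ h0 (by linarith) h fun z hz =>
      S_le _ z (by simpa [hz] using ha.le) j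
    have e2 := near ℓ c K' _ (by positivity) hK (p * S^[j] (1 - q ^ a)) (B * ((7 / 8) ^ j / 4))
      fun r hr => by
        rw [eval_mul, norm_mul]
        have b := hB r (by simpa using hr)
        refine mul_le_mul b (S_le _ r ?_ j) (by positivity) ((norm_nonneg _).trans b)
        have := @hδ r (by rw [dist_eq_norm, hr]; linarith)
        simpa [hq] using this.le
    rw [S_comp, X_pow_comp] at e1
    rw [S_one, mul_sub, mul_one, map_sub] at e2
    linarith [norm_sub_norm_le (ℓ p) (ℓ (p * S^[j] (q ^ a)))]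
  have t := (tendsto_pow_atTop_nhds_zero_of_lt_one (r := (7 / 8 : ℝ)) (by norm_num)
    (by norm_num)).div_const 4
  have := ge_of_tendsto' ((t.const_mul _).add ((t.const_mul B).const_mul _)) key
  simpa using this

lemma par (G : ℂ[X]) (hG : G = 0 ∨ ∀ z, G.eval z = 0 → z.im = 0) (z : ℂ) (y : ℝ) (hy : ‖z‖ = y) :
    ‖G.eval z‖ * ‖G.eval (-z)‖ ≤ ‖G.eval (Complex.I * y)‖ * ‖G.eval (-(Complex.I * y))‖ := by
  rcases hG with rfl | hG
  · simp
  have sp : G.Splits := IsAlgClosed.splits _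
  have key : ∀ s : Multiset ℂ, (∀ a ∈ s, a.im = 0) →
      ‖(s.map (z - ·)).prod‖ * ‖(s.map (-z - ·)).prod‖ ≤
      ‖(s.map (Complex.I * y - ·)).prod‖ * ‖(s.map (-(Complex.I * y) - ·)).prod‖ := by
    intro s
    induction s using Multiset.induction_on with
    | empty => simp
    | cons a s ih =>
      intro hs
      have i1 := ih fun b hb => hs b (Multiset.mem_cons_of_mem hb)
      have ha : a = a.re := Complex.ext rfl (by simpa using hs a (Multiset.mem_cons_self _ _))
      have p : ‖z - a‖ * ‖-z - a‖ ≤ ‖Complex.I * y - a‖ * ‖-(Complex.I * y) - a‖ := by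
        rw [← norm_mul, ← norm_mul, ha, show (z - a.re) * (-z - a.re) = a.re ^ 2 - z ^ 2 by ring,
          show (Complex.I * y - a.re) * (-(Complex.I * y) - a.re) = (a.re ^ 2 + y ^ 2 : ℝ) by
            push_cast; linear_combination -(y : ℂ) ^ 2 * Complex.I_sq,
          Complex.norm_real, Real.norm_of_nonneg (by positivity)]
        refine (norm_sub_le _ _).trans ?_
        rw [norm_pow, norm_pow, hy, Complex.norm_real, Real.norm_eq_abs, sq_abs]
      simp only [Multiset.map_cons, Multiset.prod_cons, norm_mul]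
      have := mul_le_mul p i1 (by positivity) (by positivity)
      linarith
  have := key G.roots fun a ha => hG a (isRoot_of_mem_roots ha)
  simp only [sp.eval_eq_prod_roots, norm_mul]
  have := mul_le_mul_of_nonneg_left this (mul_self_nonneg ‖G.leadingCoeff‖)
  linarith

/-- the coefficient polynomials, umbrally -/
noncomputable def f (γ : ℕ → ℂ) (k : ℕ) (z : ℂ) : ℂ :=
  Lam γ (H (C z * (X - 1)) (C (1 / 4) * (1 - X ^ 2)) k)

lemma core (γ : ℕ → ℂ) (hQ : ∀ k, (∀ z, f γ k z = 0) ∨ ∀ z, f γ k z = 0 → z.im = 0) (c : ℂ)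
    (K ε : ℝ) (hε : 0 < ε) (h : ∀ i, ‖Lam γ ((X - C c) ^ i)‖ ≤ K * ε ^ i) (m j : ℕ) (y R M : ℝ)
    (hy : 0 < y) (hR : 0 < R) (hM : ∀ r l : ℂ, ‖r - c‖ = 2 * ε → ‖l‖ = R →
      (Complex.I * y * (r - 1) * l + 1 / 4 * (1 - r ^ 2) * l ^ 2).re ≤ M) :
    ‖Lam γ ((X - 1) ^ m * (1 - X ^ 2) ^ j)‖ * (y * R) ^ m * (R ^ 2) ^ j ≤
      2 * K * m.factorial * j.factorial * 4 ^ j * Real.exp M := by
  set k := m + 2 * j with hk
  set v : ℂ[X] := C (1 / 4) * (1 - X ^ 2) with hv
  let G : ℂ[X] := ∑ p ∈ antidiagonal k,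
    monomial p.1 (k.choose p.1 * Lam γ ((X - 1) ^ p.1 * H 0 v p.2))
  have eG : ∀ z, G.eval z = f γ k z := fun z => by
    have := H_add (C z * (X - 1)) 0 0 v k
    rw [add_zero, zero_add] at this
    rw [f, this, map_sum, eval_finset_sum]
    refine sum_congr rfl fun p _ => ?_
    rw [eval_monomial, H_zero, mul_pow, ← C_pow, mul_assoc (C _), ← nsmul_eq_mul, ← nsmul_eq_mul,
      map_nsmul, Lam_C, nsmul_eq_mul, nsmul_eq_mul]
    ring
  have cG : G.coeff m = k.choose m * Lam γ ((X - 1) ^ m * H 0 v (2 * j)) := by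
    rw [finset_sum_coeff, sum_eq_single_of_mem (m, 2 * j) (by simp [hk])]
    · simp
    · intro p hp hne
      rw [coeff_monomial, if_neg]
      intro e
      exact hne (Prod.ext e (by have := mem_antidiagonal.1 hp; simp only; omega))
  have pG : ∀ z, ‖G.eval (-z)‖ = ‖G.eval z‖ := fun z => by
    have := H_hom (C (-1)) (C z * (X - 1)) v k
    rw [← mul_assoc, ← C_mul, ← C_pow, ← C_pow, neg_one_sq, C_1, one_mul, neg_one_mul] at this
    rw [eG, eG, f, f, this, Lam_C, norm_mul, norm_pow, norm_neg, norm_one, one_pow, one_mul]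
  have b1 := coeff_le G m y ‖G.eval (Complex.I * y)‖ hy fun z hz => by
    have := par G ((hQ k).imp (fun h => Polynomial.funext fun z => by simp [eG, h])
      fun h z hz => h z (by rwa [eG] at hz)) z y hz
    rw [pG, pG] at this
    exact le_of_sq_le_sq (by simpa [sq] using this) (norm_nonneg _) |>.trans' (le_abs_self _)
  have b2 : ‖G.eval (Complex.I * y)‖ ≤ 2 * K * (k.factorial * Real.exp M / R ^ k) := by
    rw [eG]
    refine near _ c K ε hε h _ _ fun r hr => ?_
    rw [show ∀ p : ℂ[X], p.eval r = evalRingHom r p from fun _ => rfl, H_map]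
    exact H_le _ _ k R M hR fun l hl => by simpa using hM r l hr hl
  have e1 : j.factorial * 4 ^ j * ‖Lam γ ((X - 1) ^ m * H 0 v (2 * j))‖ =
      (2 * j).factorial * ‖Lam γ ((X - 1) ^ m * (1 - X ^ 2) ^ j)‖ := by
    have := congrArg (fun p => ‖Lam γ ((X - 1) ^ m * p)‖) (H_even v j)
    simp only [hv, mul_pow, ← C_pow, mul_left_comm ((X - 1 : ℂ[X]) ^ m), ← C_eq_natCast, Lam_C,
      norm_mul, norm_pow, Complex.norm_natCast] at this
    rw [mul_right_comm, this]
    simp; field_simp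
  have e2 : (k.choose m * m.factorial * (2 * j).factorial : ℝ) = k.factorial := by
    have := Nat.choose_mul_factorial_mul_factorial (show m ≤ k by omega)
    rw [show k - m = 2 * j by omega] at this
    exact_mod_cast this
  rw [cG, norm_mul, Complex.norm_natCast, le_div_iff₀ (by positivity)] at b1
  have b3 := b1.trans b2
  rw [← mul_div_assoc, le_div_iff₀ (by positivity), ← e2, hk, pow_add, pow_mul, ← hk] at b3
  have c0 : (0 : ℝ) < k.choose m * (2 * j).factorial := by
    have := Nat.choose_pos (show m ≤ k by omega); positivity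
  refine le_of_mul_le_mul_left ?_ c0
  have := mul_le_mul_of_nonneg_left b3 (show (0 : ℝ) ≤ j.factorial * 4 ^ j by positivity)
  rw [mul_pow]
  linear_combination this - (k.choose m * y ^ m * R ^ m * (R ^ 2) ^ j) * e1

lemma fact_le (n : ℕ) (hn : 1 ≤ n) : (n.factorial * 2 ^ n : ℝ) ≤ 2 * n ^ n := by
  induction n, hn using Nat.le_induction with
  | base => simp
  | succ n hn ih =>
    have n0 : (0 : ℝ) < n := by exact_mod_cast hn
    have := mul_le_mul_of_nonneg_left (one_add_mul_le_pow (a := (1 / n : ℝ))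
      (by linarith [one_div_pos.2 n0]) n) (pow_pos n0 n).le
    rw [← mul_pow, mul_one_div_cancel n0.ne', show (n : ℝ) * (1 + 1 / n) = n + 1 by field_simp]
      at this
    rw [Nat.factorial_succ, pow_succ, pow_succ]
    push_cast
    nlinarith

theorem stepA (γ : ℕ → ℂ) (s : ℝ) (h1 : -1 < s) (h2 : s < 1)
    (hE : ∀ ε : ℝ, 0 < ε → ∃ K : ℝ, ∀ i, ‖Lam γ ((X - C (s : ℂ)) ^ i)‖ ≤ K * ε ^ i)
    (hQ : ∀ k, (∀ z, f γ k z = 0) ∨ ∀ z, f γ k z = 0 → z.im = 0) (n : ℕ) : γ n = 0 := by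
  suffices h : ∀ a, Lam γ ((X - 1) ^ a) = 0 by
    have := Lam_bin γ (X - 1) 1 1 n
    rw [C_1, one_mul, sub_add_cancel, Lam_pow] at this
    simpa [h] using this
  intro a
  obtain ⟨τ, hτ⟩ : ∃ τ, τ = 1 - s := ⟨_, rfl⟩
  obtain ⟨κ, hκ⟩ : ∃ κ, κ = 1 - s ^ 2 := ⟨_, rfl⟩
  have τ0 : 0 < τ := by linarith
  have κ0 : 0 < κ := by nlinarith
  have κ1 : κ ≤ 1 := by nlinarith
  obtain ⟨K, hK⟩ := hE (τ * κ / 112) (by positivity)
  have K0 : 0 ≤ K := by simpa using (norm_nonneg _).trans (hK 0)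
  have θ1 : Real.exp (5 / 4) / 4 < 1 := by
    have e1 := Real.exp_one_lt_d9
    have e2 := Real.add_one_le_exp (-(1 / 4))
    have e3 : Real.exp (5 / 4) * Real.exp (-(1 / 4)) = Real.exp 1 := by
      rw [← Real.exp_add]; norm_num
    nlinarith [Real.exp_pos (5 / 4)]
  refine runge _ s hE _ (C (-(1 / (τ * κ) : ℝ) : ℂ) * ((X - 1) * (1 - X ^ 2))) ?_
    (8 * K * (τ * (1 + a)) ^ a + ‖Lam γ ((X - 1) ^ a)‖) _ (by positivity) θ1 fun n => ?_
  · have : (τ * κ : ℂ) ≠ 0 := by exact_mod_cast (mul_pos τ0 κ0).ne'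
    simp only [eval_mul, eval_C, eval_sub, eval_X, eval_one, eval_pow]
    push_cast
    rw [neg_mul, one_div, neg_eq_iff_eq_neg, inv_mul_eq_iff_eq_mul₀ this, hτ, hκ]
    push_cast; ring
  rcases Nat.eq_zero_or_pos n with rfl | hn
  · simp; positivity
  have n0 : (0 : ℝ) < n := by exact_mod_cast hn
  have n1 : (1 : ℝ) ≤ n := by exact_mod_cast hn
  obtain ⟨R, R0, hR⟩ : ∃ R : ℝ, 0 < R ∧ R ^ 2 = 4 * n / κ :=
    ⟨√(4 * n / κ), by positivity, Real.sq_sqrt (by positivity)⟩
  obtain ⟨y, y0, hy⟩ : ∃ y : ℝ, 0 < y ∧ y * R = n / τ := ⟨n / τ / R, by positivity, by field_simp⟩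
  have := core γ hQ s K _ (by positivity) hK (n + a) n y R (n * (5 / 4)) y0 R0 fun r l hr hl => by
    obtain ⟨d, rfl⟩ : ∃ d, r = s + d := ⟨r - s, by ring⟩
    rw [add_sub_cancel_left] at hr
    have d1 : ‖d‖ ≤ 1 := by rw [hr]; nlinarith
    have s1 : ‖(s : ℂ)‖ ≤ 1 := by rw [Complex.norm_real]; exact abs_le.2 ⟨h1.le, h2.le⟩
    rw [show Complex.I * y * (s + d - 1) * l + 1 / 4 * (1 - (s + d) ^ 2) * l ^ 2 =
      (-(Complex.I * (y * τ : ℝ) * l) + (κ / 4 : ℝ) * l ^ 2) +
      (Complex.I * y * d * l - 1 / 4 * (d * (2 * s + d)) * l ^ 2) by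
        rw [hτ, hκ]; push_cast; ring, Complex.add_re]
    have a1 : (Complex.I * y * d * l - 1 / 4 * (d * (2 * s + d)) * l ^ 2).re ≤ (n : ℝ) / 8 := by
      refine (Complex.re_le_norm _).trans ((norm_sub_le _ _).trans ?_)
      have : ‖2 * s + d‖ ≤ 3 := (norm_add_le _ _).trans (by rw [norm_mul]; simp at s1 ⊢; linarith)
      simp only [norm_mul, norm_pow, hl, hR, Complex.norm_I, Complex.norm_real, one_mul,
        Real.norm_of_nonneg y0.le, mul_right_comm y, hy, hr]
      have e : ‖(1 / 4 : ℂ)‖ = 1 / 4 := by simp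
      have := mul_le_mul_of_nonneg_left this (show 0 ≤ τ * n / 56 by positivity)
      rw [e, show n / τ * (2 * (τ * κ / 112)) = n * κ / 56 by field_simp; ring,
        show 1 / 4 * (2 * (τ * κ / 112) * ‖2 * s + d‖) * (4 * n / κ) =
          τ * n / 56 * ‖2 * s + d‖ by field_simp; ring]
      nlinarith
    have a2 : (-(Complex.I * (y * τ : ℝ) * l) + (κ / 4 : ℝ) * l ^ 2).re ≤ n * (9 / 8) := by
      have e1 : l.re ^ 2 + l.im ^ 2 = R ^ 2 := by
        rw [← hl, Complex.sq_norm, Complex.normSq_apply]; ring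
      obtain ⟨b, hb⟩ : ∃ b, l.im = R * b := ⟨l.im / R, by field_simp⟩
      have e2 : y * τ * (R * b) = n * b := by
        rw [show y * τ * (R * b) = y * R * τ * b by ring, hy]; field_simp
      have e3 : κ / 4 * R ^ 2 = n := by rw [hR]; field_simp
      rw [show (-(Complex.I * (y * τ : ℝ) * l) + (κ / 4 : ℝ) * l ^ 2).re =
        y * τ * l.im + κ / 4 * (l.re ^ 2 - l.im ^ 2) by
          simp only [sq, Complex.add_re, Complex.neg_re, Complex.mul_re, Complex.mul_im,
            Complex.I_re, Complex.I_im, Complex.ofReal_re, Complex.ofReal_im]; ring,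
        show l.re ^ 2 = R ^ 2 - l.im ^ 2 by linarith, hb, e2,
        show κ / 4 * (R ^ 2 - (R * b) ^ 2 - (R * b) ^ 2) = κ / 4 * R ^ 2 * (1 - 2 * b ^ 2) by ring,
        e3]
      nlinarith [mul_nonneg n0.le (sq_nonneg (b - 1 / 4))]
    linarith
  rw [hy, hR, Real.exp_nat_mul] at this
  rw [mul_pow, mul_pow, ← C_pow, mul_left_comm, ← mul_assoc ((X - 1 : ℂ[X]) ^ a), ← pow_add,
    add_comm a, Lam_C, norm_mul, norm_pow, norm_neg, Complex.norm_real,
    Real.norm_of_nonneg (by positivity)]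
  set N := ‖Lam γ ((X - 1) ^ (n + a) * (1 - X ^ 2) ^ n)‖
  have f1 := fact_le n hn
  have f2 : ((n + a).factorial : ℝ) ≤ n.factorial * ((1 + a) * n) ^ a := by
    rw [← Nat.factorial_mul_ascFactorial]
    push_cast
    gcongr
    refine (Nat.cast_le.2 (Nat.ascFactorial_le_pow_add n a)).trans ?_
    push_cast
    gcongr
    nlinarith [(a.cast_nonneg : (0 : ℝ) ≤ a)]
  have f3 : (n.factorial : ℝ) ≤ 2 * n ^ n / 2 ^ n := by rwa [le_div_iff₀ (by positivity)]
  have f4 : 2 * K * (n + a).factorial * n.factorial * 4 ^ n * Real.exp (5 / 4) ^ n ≤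
      2 * K * (2 * n ^ n / 2 ^ n * ((1 + a) * n) ^ a) * (2 * n ^ n / 2 ^ n) * 4 ^ n *
        Real.exp (5 / 4) ^ n := by
    gcongr
    exact f2.trans (by gcongr)
  refine le_trans ?_ (mul_le_mul_of_nonneg_right (le_add_of_nonneg_right (norm_nonneg _))
    (by positivity))
  refine le_of_mul_le_mul_right ?_ (show (0 : ℝ) < n ^ n * n ^ n * n ^ a * 4 ^ n / τ ^ a by
    positivity)
  refine le_of_eq_of_le ?_ ((this.trans f4).trans_eq ?_)
  · simp only [div_pow, mul_pow, pow_add, one_pow]; field_simp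
  · simp only [div_pow, mul_pow, show (4 : ℝ) = 2 * 2 by norm_num]; field_simp; ring

end Pool.Agent.H28.HermA
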