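import Mathlib

set_option autoImplicit false

namespace Pool.Agent.H28.Schur

open Polynomial Filter Topology Finset

def NZ (G : ℂ[X]) : Prop := ∀ x : ℂ, 0 < x.im → G.eval x ≠ 0

lemma harnack (G : ℂ[X]) (hG : NZ G) (N : ℕ) (hN : G.natDegree ≤ N) (z w : ℂ) (hz : 0 < z.im) :
    ‖G.eval w‖ ≤ (1 + ‖w - z‖ / z.im) ^ N * ‖G.eval z‖ := by
  have sp : G.Splits := IsAlgClosed.splits _
  set c := 1 + ‖w - z‖ / z.im
  have c1 : 1 ≤ c := le_add_of_nonneg_right (by positivity)
  have key : ∀ s : Multiset ℂ, (∀ a ∈ s, a.im ≤ 0) →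
      ‖(s.map (w - ·)).prod‖ ≤ c ^ s.card * ‖(s.map (z - ·)).prod‖ := by
    intro s
    induction s using Multiset.induction_on with
    | empty => simp
    | cons a s ih =>
      intro hs
      have i1 := ih fun b hb => hs b (Multiset.mem_cons_of_mem hb)
      have ha := hs a (Multiset.mem_cons_self _ _)
      have p1 : z.im ≤ ‖z - a‖ := by
        have := Complex.im_le_norm (z - a); rw [Complex.sub_im] at this; linarith
      have p2 : ‖w - a‖ ≤ c * ‖z - a‖ := by
        have := norm_sub_le_norm_sub_add_norm_sub w z a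
        have e : ‖w - z‖ / z.im * z.im = ‖w - z‖ := by field_simp
        have := mul_le_mul_of_nonneg_left p1 (show 0 ≤ ‖w - z‖ / z.im by positivity)
        simp only [c]; linarith
      simp only [Multiset.map_cons, Multiset.prod_cons, norm_mul, Multiset.card_cons, pow_succ]
      have := mul_le_mul p2 i1 (by positivity) (by positivity)
      linarith
  have := key G.roots fun a ha => not_lt.1 fun h => hG a h (isRoot_of_mem_roots ha)
  rw [sp.eval_eq_prod_roots, sp.eval_eq_prod_roots, norm_mul, norm_mul, mul_left_comm]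
  gcongr
  exact this.trans (by gcongr; exact (card_roots' G).trans hN)

lemma hurwitz {ι : Type*} (l : Filter ι) [l.NeBot] (q : ι → ℂ[X]) (p : ℂ[X]) (N : ℕ)
    (hd : ∀ n, (q n).natDegree ≤ N) (hc : ∀ k, Tendsto (fun n => (q n).coeff k) l (𝓝 (p.coeff k)))
    (hz : ∀ᶠ n in l, q n = 0 ∨ NZ (q n)) : p = 0 ∨ NZ p := by
  have hp : p.natDegree ≤ N := natDegree_le_iff_coeff_eq_zero.2 fun k hk =>
    tendsto_nhds_unique (hc k) (tendsto_const_nhds.congr fun n =>
      (coeff_eq_zero_of_natDegree_lt ((hd n).trans_lt hk)).symm)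
  have he : ∀ w, Tendsto (fun n => (q n).eval w) l (𝓝 (p.eval w)) := fun w => by
    rw [eval_eq_sum_range' (Nat.lt_succ_of_le hp)]
    refine (tendsto_finset_sum _ fun k _ => (hc k).mul_const _).congr fun n => ?_
    rw [eval_eq_sum_range' (Nat.lt_succ_of_le (hd n))]
  refine or_iff_not_imp_right.2 fun h => ?_
  simp only [NZ, not_forall, not_not] at h
  obtain ⟨z, h1, h2⟩ := h
  refine Polynomial.funext fun w => ?_
  have := le_of_tendsto_of_tendsto (he w).norm
    ((he z).norm.const_mul ((1 + ‖w - z‖ / z.im) ^ N)) (hz.mono fun n hn => by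
      rcases hn with hn | hn
      · simp [hn]
      · exact harnack _ hn N (hd n) z w h1)
  simpa [h2] using this

/-- only real zeros -/
def RR (f : ℝ[X]) : Prop := f = 0 ∨ ∀ z : ℂ, aeval z f = 0 → z.im = 0

lemma RR_iff (f : ℝ[X]) : RR f ↔ f.map (algebraMap ℝ ℂ) = 0 ∨ NZ (f.map (algebraMap ℝ ℂ)) := by
  rw [RR, Polynomial.map_eq_zero]
  refine or_congr Iff.rfl ⟨fun h x hx e => hx.ne' (h x (by rwa [eval_map_algebraMap] at e)),
    fun h z hz => ?_⟩
  by_contra h0
  rcases lt_or_gt_of_ne h0 with h1 | h1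
  · refine h (starRingEnd ℂ z) (by simpa using h1) ?_
    rw [eval_map_algebraMap, aeval_conj, hz, map_zero]
  · exact h z h1 (by rwa [eval_map_algebraMap])

lemma RR_lim {ι : Type*} (l : Filter ι) [l.NeBot] (q : ι → ℝ[X]) (p : ℝ[X]) (N : ℕ)
    (hd : ∀ n, (q n).natDegree ≤ N) (hc : ∀ k, Tendsto (fun n => (q n).coeff k) l (𝓝 (p.coeff k)))
    (hz : ∀ᶠ n in l, RR (q n)) : RR p := by
  rw [RR_iff]
  refine hurwitz l (fun n => (q n).map _) _ N (fun n => natDegree_map_le.trans (hd n))
    (fun k => ?_) (hz.mono fun n => (RR_iff _).1)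
  simp only [coeff_map]
  exact (Complex.continuous_ofReal.tendsto _).comp (hc k)

lemma step (G : ℂ[X]) (hG : NZ G) (y a : ℂ) (hy : 0 < y.im) (ha : a.im = 0 ∧ a.re < 0) :
    NZ (y • derivative G - a • G) := by
  intro x hx e
  have sp : G.Splits := IsAlgClosed.splits _
  have h0 := hG x hx
  simp only [eval_sub, eval_smul, smul_eq_mul, sp.eval_derivative_eq_eval_mul_sum h0] at e
  set S := (G.roots.map fun z => 1 / (x - z)).sum
  have hS : S.im ≤ 0 := by
    refine Multiset.sum_induction (fun u : ℂ => u.im ≤ 0) _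
      (fun u v hu hv => by rw [Complex.add_im]; linarith) (by simp) fun u hu => ?_
    obtain ⟨z, hz, rfl⟩ := Multiset.mem_map.1 hu
    have : z.im ≤ 0 := not_lt.1 fun h => hG z h (isRoot_of_mem_roots hz)
    rw [one_div, Complex.inv_im, Complex.sub_im]
    exact div_nonpos_of_nonpos_of_nonneg (by linarith) (Complex.normSq_nonneg _)
  have e' : y * S = a := mul_left_cancel₀ h0 (by linear_combination e)
  have e1 := congrArg Complex.re e'
  have e2 := congrArg Complex.im e'
  rw [Complex.mul_re] at e1; rw [Complex.mul_im, ha.1] at e2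
  have : y.im * a.re = -(S.im * (y.re ^ 2 + y.im ^ 2)) := by
    rw [← e1]; linear_combination y.re * e2
  nlinarith [mul_pos hy (neg_pos.2 ha.2), mul_nonneg (neg_nonneg.2 hS)
    (add_nonneg (sq_nonneg y.re) (sq_nonneg y.im))]

lemma oper (Q G : ℂ[X]) (hQ : ∀ a, Q.eval a = 0 → a.im = 0 ∧ a.re < 0) (hG : NZ G) (y : ℂ)
    (hy : 0 < y.im) :
    NZ (∑ k ∈ range (Q.natDegree + 1), (Q.coeff k * y ^ k) • derivative^[k] G) := by
  set L : Module.End ℂ ℂ[X] := y • derivative
  have e : ∑ k ∈ range (Q.natDegree + 1), (Q.coeff k * y ^ k) • derivative^[k] G = aeval L Q G := by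
    rw [aeval_eq_sum_range, LinearMap.sum_apply]
    refine sum_congr rfl fun k _ => ?_
    simp only [L, _root_.smul_pow, LinearMap.smul_apply, mul_smul]
    rw [Module.End.pow_apply]
  have Q0 : Q ≠ 0 := by rintro rfl; simpa using (hQ 0 (by simp)).2
  have key : ∀ s : Multiset ℂ, (∀ a ∈ s, a.im = 0 ∧ a.re < 0) →
      NZ (aeval L (s.map (X - C ·)).prod G) := by
    intro s
    induction s using Multiset.induction_on with
    | empty => simpa using hG
    | cons a s ih =>
      intro hs
      have := step _ (ih fun b hb => hs b (Multiset.mem_cons_of_mem hb)) y a hy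
        (hs a (Multiset.mem_cons_self _ _))
      simpa [L, Algebra.algebraMap_eq_smul_one] using this
  have sp : Q.Splits := IsAlgClosed.splits _
  rw [e, sp.eq_prod_roots]
  intro x hx
  have := key Q.roots (fun a ha => hQ a (isRoot_of_mem_roots ha)) x hx
  simpa [Algebra.algebraMap_eq_smul_one, Q0] using this

/-- Schur's composition theorem -/
theorem schur (q f g : ℝ[X]) (hq : ∀ z : ℂ, aeval z q = 0 → z.im = 0 ∧ z.re ≤ 0) (hf : RR f)
    (hg : ∀ k, g.coeff k = k.factorial * q.coeff k * f.coeff k) : RR g := by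
  rcases (RR_iff f).1 hf with h | h
  · left; ext k; rw [Polynomial.map_eq_zero] at h; simp [hg, h]
  set Q := q.map (algebraMap ℝ ℂ)
  set G := f.map (algebraMap ℝ ℂ)
  let R : ℝ → ℂ[X] := fun δ => ∑ k ∈ range (Q.natDegree + 1),
    monomial k ((taylor (δ : ℂ) Q).coeff k * (derivative^[k] G).eval (δ * Complex.I))
  rw [RR_iff]
  refine hurwitz (𝓝[>] 0) R _ Q.natDegree (fun δ => natDegree_sum_le_of_forall_le _ _ fun k hk =>
    (natDegree_monomial_le _).trans (Nat.lt_succ_iff.1 (mem_range.1 hk))) (fun k => ?_) ?_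
  · simp only [R, finset_sum_coeff, coeff_monomial, sum_ite_eq', mem_range]
    split_ifs with hk
    · refine tendsto_nhdsWithin_of_tendsto_nhds (Continuous.tendsto' ?_ _ _ ?_)
      · simp only [taylor_coeff]; fun_prop
      · rw [Complex.ofReal_zero, zero_mul, ← coeff_zero_eq_eval_zero, coeff_iterate_derivative]
        simp [hg, Q, G, Nat.descFactorial_self]; ring
    · have : q.coeff k = 0 := coeff_eq_zero_of_natDegree_lt (by simpa [Q] using hk)
      simp [hg, this]
  · filter_upwards [self_mem_nhdsWithin] with δ (hδ : 0 < δ)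
    right; intro y hy
    have := oper (taylor (δ : ℂ) Q) G (fun a ha => by
      rw [taylor_eval, eval_map_algebraMap] at ha
      have := hq _ ha
      simp only [Complex.add_im, Complex.ofReal_im, add_zero, Complex.add_re,
        Complex.ofReal_re] at this
      exact ⟨this.1, by linarith [this.2]⟩) h y hy (δ * Complex.I) (by simpa using hδ)
    rw [natDegree_taylor] at this
    refine fun e => this ?_
    rw [← e]
    simp only [R, eval_finset_sum, eval_smul, eval_monomial, smul_eq_mul]
    exact sum_congr rfl fun k _ => by ring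

/-- the easy half of the Polya-Schur theorem -/
theorem ms_of_approx (γ : ℕ → ℝ) (q : ℕ → ℝ[X])
    (hq : ∀ n, ∀ z : ℂ, aeval z (q n) = 0 → z.im = 0 ∧ z.re ≤ 0)
    (hc : ∀ k, Tendsto (fun n => (q n).coeff k) atTop (𝓝 (γ k / k.factorial))) (f g : ℝ[X])
    (hf : RR f) (hg : ∀ k, g.coeff k = γ k * f.coeff k) : RR g := by
  let G : ℕ → ℝ[X] := fun n => ∑ k ∈ range (f.natDegree + 1),
    monomial k (k.factorial * (q n).coeff k * f.coeff k)
  have cG : ∀ n k, (G n).coeff k = k.factorial * (q n).coeff k * f.coeff k := fun n k => by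
    simp only [G, finset_sum_coeff, coeff_monomial, sum_ite_eq', mem_range]
    split_ifs with hk
    · rfl
    · rw [coeff_eq_zero_of_natDegree_lt (p := f) (by omega), mul_zero]
  refine RR_lim atTop G g f.natDegree (fun n => natDegree_le_iff_coeff_eq_zero.2 fun k hk => by
    rw [cG, coeff_eq_zero_of_natDegree_lt hk, mul_zero]) (fun k => ?_)
    (Eventually.of_forall fun n => schur (q n) f _ (hq n) hf (cG n))
  simp only [cG, hg]
  have := ((hc k).const_mul (k.factorial : ℝ)).mul_const (f.coeff k)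
  rwa [mul_div_cancel₀ _ (by positivity)] at this

end Pool.Agent.H28.Schur
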