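import Mathlib
import Pool.Agent.H28.Schur
import Pool.Agent.H28.HermA

set_option autoImplicit false

namespace Pool.Agent.H28.HermB

open Polynomial Filter Topology Finset Pool.Agent.H28.Schur Pool.Agent.H28.HermA

def NN (p : ℝ[X]) : Prop := ∀ k, 0 ≤ p.coeff k

lemma NN.mul {p q : ℝ[X]} (hp : NN p) (hq : NN q) : NN (p * q) := fun k => by
  rw [coeff_mul]; exact sum_nonneg fun c _ => mul_nonneg (hp _) (hq _)

lemma NN.eval_ge {p : ℝ[X]} (hp : NN p) (x : ℝ) (hx : 0 ≤ x) (k : ℕ) :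
    p.coeff k * x ^ k ≤ p.eval x := by
  rw [eval_eq_sum_range' (n := p.natDegree + k + 1) (by omega)]
  exact single_le_sum (f := fun i => p.coeff i * x ^ i)
    (fun i _ => mul_nonneg (hp i) (pow_nonneg hx i)) (mem_range.2 (by omega))

noncomputable def Pr (S : Multiset ℝ) : ℝ[X] := (S.map fun b => 1 + C b * X).prod

lemma Pr_cons (b : ℝ) (S : Multiset ℝ) : Pr (b ::ₘ S) = Pr S + C b * (X * Pr S) := by
  simp only [Pr, Multiset.map_cons, Multiset.prod_cons]; ring

lemma Pr_basic (S : Multiset ℝ) (h : ∀ b ∈ S, 0 ≤ b) : NN (Pr S) ∧ (Pr S).coeff 0 = 1 ∧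
    (Pr S).coeff 1 = S.sum ∧ (Pr S).natDegree ≤ S.card := by
  induction S using Multiset.induction_on with
  | empty => simp [Pr, NN, coeff_one]; intro k; split_ifs <;> simp
  | cons b S ih =>
    obtain ⟨h1, h2, h3, h4⟩ := ih fun c hc => h c (Multiset.mem_cons_of_mem hc)
    have hb := h b (Multiset.mem_cons_self _ _)
    rw [Pr_cons]
    refine ⟨fun k => ?_, by simp [h2], by simp [h2, h3, add_comm], ?_⟩
    · cases k with
      | zero => simp [h2]
      | succ k => simpa using add_nonneg (h1 (k + 1)) (mul_nonneg hb (h1 k))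
    · rw [Multiset.card_cons]
      refine natDegree_add_le_of_degree_le (by omega) ((natDegree_C_mul_le _ _).trans
        (natDegree_mul_le.trans ?_))
      have := natDegree_X_le (R := ℝ); omega

lemma Pr_rec (S : Multiset ℝ) (θ : ℝ) (h : ∀ b ∈ S, 0 ≤ b ∧ b ≤ θ) (k : ℕ) :
    (k + 1) * (Pr S).coeff (k + 1) ≤ S.sum * (Pr S).coeff k ∧
    S.sum * (Pr S).coeff k ≤ (k + 1) * (Pr S).coeff (k + 1) + θ * k * (Pr S).coeff k := by
  induction S using Multiset.induction_on generalizing k with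
  | empty => cases k <;> simp [Pr, coeff_one]
  | cons b S ih =>
    have ih := ih fun c hc => h c (Multiset.mem_cons_of_mem hc)
    obtain ⟨b0, b1⟩ := h b (Multiset.mem_cons_self _ _)
    have nn := (Pr_basic S fun c hc => (h c (Multiset.mem_cons_of_mem hc)).1).1
    rw [Pr_cons, Multiset.sum_cons]
    cases k with
    | zero => have := ih 0; simp at this ⊢; constructor <;> linarith [this.1, this.2]
    | succ k =>
      obtain ⟨a1, a2⟩ := ih k
      obtain ⟨a3, a4⟩ := ih (k + 1)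
      simp only [coeff_add, coeff_C_mul, coeff_X_mul]
      push_cast at a3 a4 ⊢
      have := mul_le_mul_of_nonneg_left a1 b0
      have := mul_le_mul_of_nonneg_left a2 b0
      have := mul_nonneg b0 (mul_nonneg b0 (nn k))
      have := mul_nonneg (sub_nonneg.2 b1) (mul_nonneg b0 (nn k))
      constructor <;> linarith

lemma Pr_approx (S : Multiset ℝ) (θ B : ℝ) (h : ∀ b ∈ S, 0 ≤ b ∧ b ≤ θ) (θ0 : 0 ≤ θ)
    (hB : S.sum ≤ B) (k : ℕ) : k.factorial * (Pr S).coeff k ≤ S.sum ^ k ∧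
    S.sum ^ k - k.factorial * (Pr S).coeff k ≤ θ * (k ^ 2 * (B + 1) ^ k) := by
  obtain ⟨nn, c0, -⟩ := Pr_basic S fun c hc => (h c hc).1
  have s0 : 0 ≤ S.sum := Multiset.sum_nonneg fun c hc => (h c hc).1
  induction k with
  | zero => simp [c0]
  | succ k ih =>
    obtain ⟨a1, a2⟩ := Pr_rec S θ h k
    have f0 : (0 : ℝ) ≤ k.factorial := by positivity
    have k0 : (0 : ℝ) ≤ k := by positivity
    have a3 := mul_le_mul_of_nonneg_left a1 f0
    have a4 := mul_le_mul_of_nonneg_left a2 f0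
    have a5 := mul_le_mul_of_nonneg_left ih.1 s0
    have a6 := mul_le_mul (show S.sum ≤ B + 1 by linarith) ih.2 (sub_nonneg.2 ih.1) (by linarith)
    have a7 : S.sum ^ k ≤ (B + 1) ^ k := pow_le_pow_left₀ s0 (by linarith) k
    have a8 := mul_le_mul_of_nonneg_left (ih.1.trans a7) (mul_nonneg θ0 k0)
    have a9 : 0 ≤ θ * (B + 1) ^ k := mul_nonneg θ0 (pow_nonneg (by linarith) k)
    rw [Nat.factorial_succ, pow_succ S.sum, pow_succ (B + 1)]
    push_cast
    refine ⟨by linarith, ?_⟩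
    nlinarith [mul_nonneg a9 k0, mul_nonneg (mul_nonneg a9 k0) (show 0 ≤ B by linarith),
      mul_nonneg a9 (show 0 ≤ B by linarith)]

lemma fact (R : ℝ[X]) (nn : NN R) (h0 : 0 < R.coeff 0) (hR : RR R) :
    ∃ S : Multiset ℝ, (∀ b ∈ S, 0 ≤ b) ∧ R = C (R.coeff 0) * Pr S := by
  have R0 : R ≠ 0 := by rintro rfl; simp at h0
  have sp : R.Splits := Splits.of_splits_map (algebraMap ℝ ℂ) (IsAlgClosed.splits _) fun a ha =>
    ⟨a.re, Complex.ext rfl (by
      have := hR.resolve_left R0 a (by simpa [eval_map_algebraMap] using isRoot_of_mem_roots ha)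
      simp [this])⟩
  have neg : ∀ z ∈ R.roots, z < 0 := fun z hz => not_le.1 fun h => by
    have := nn.eval_ge z h 0
    rw [isRoot_of_mem_roots hz] at this
    simp at this; linarith
  have e : R = C (R.leadingCoeff * (R.roots.map fun z => -z).prod) *
      Pr (R.roots.map fun z => -z⁻¹) := by
    conv_lhs => rw [sp.eq_prod_roots]
    rw [C_mul, mul_assoc, Pr, map_multiset_prod C, Multiset.map_map, Multiset.map_map,
      ← Multiset.prod_map_mul]
    congr 2
    refine Multiset.map_congr rfl fun z hz => ?_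
    simp only [Function.comp]
    rw [mul_add, ← mul_assoc, ← C_mul, neg_mul_neg, mul_inv_cancel₀ (neg z hz).ne]
    simp; ring
  have hS : ∀ b ∈ R.roots.map fun z => -z⁻¹, 0 ≤ b := fun b hb => by
    obtain ⟨z, hz, rfl⟩ := Multiset.mem_map.1 hb
    exact neg_nonneg.2 (inv_nonpos.2 (neg z hz).le)
  refine ⟨_, hS, ?_⟩
  have := congrArg (coeff · 0) e
  simp only [coeff_C_mul, (Pr_basic _ hS).2.1, mul_one] at this
  rw [this]; exact e

/-- splitting off the small factors -/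
def Dec (p : ℝ[X]) (M : ℕ) (θ B s : ℝ) : Prop := ∃ U V : ℝ[X], p = U * V ∧ NN U ∧
  U.natDegree ≤ M ∧ (∀ i, U.coeff i ≤ p.coeff i) ∧ 0 ≤ s ∧ ∀ k, k.factorial * V.coeff k ≤ s ^ k ∧
    s ^ k - k.factorial * V.coeff k ≤ θ * (k ^ 2 * (B + 1) ^ k)

lemma decomp (p : ℝ[X]) (nn : NN p) (hp : RR p) (m : ℕ) (θ B : ℝ) (θ0 : 0 < θ)
    (h1 : ∀ d < m, p.coeff d = 0) (h2 : 0 < p.coeff m) (h3 : p.coeff (m + 1) ≤ B * p.coeff m) :
    ∃ s, Dec p (m + ⌊B / θ⌋₊) θ B s := by
  classical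
  obtain ⟨R, rfl⟩ := X_pow_dvd_iff.2 h1
  have cR : ∀ k, R.coeff k = (X ^ m * R).coeff (k + m) := fun k => (coeff_X_pow_mul R m k).symm
  have r0 : 0 < R.coeff 0 := by rwa [cR, zero_add]
  replace h3 : R.coeff 1 ≤ B * R.coeff 0 := by rwa [cR, cR, zero_add, add_comm]
  obtain ⟨S, hS, e⟩ := fact R (fun k => cR k ▸ nn _) r0 (Or.inr fun z hz =>
    hp.resolve_left (fun h => by simp [h] at h2) z (by simp [hz]))
  have sB : S.sum ≤ B := by
    rw [e, coeff_C_mul, coeff_C_mul, (Pr_basic S hS).2.1, (Pr_basic S hS).2.2.1] at h3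
    nlinarith
  set S1 := S.filter (· ≤ θ)
  set S2 := S.filter fun b => ¬ b ≤ θ
  have eS : S1 + S2 = S := Multiset.filter_add_not _ S
  have g1 : ∀ b ∈ S1, 0 ≤ b ∧ b ≤ θ := fun b hb =>
    ⟨hS b (Multiset.mem_of_mem_filter hb), (Multiset.mem_filter.1 hb).2⟩
  have g2 : ∀ b ∈ S2, 0 ≤ b := fun b hb => hS b (Multiset.mem_of_mem_filter hb)
  have s1 : 0 ≤ S1.sum := Multiset.sum_nonneg fun c hc => (g1 c hc).1
  have s2 : 0 ≤ S2.sum := Multiset.sum_nonneg g2
  rw [← eS, Multiset.sum_add] at sB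
  have nU : NN (X ^ m * (C (R.coeff 0) * Pr S2)) := NN.mul
    (fun k => by rw [coeff_X_pow]; split_ifs <;> simp)
    fun k => by rw [coeff_C_mul]; exact mul_nonneg r0.le ((Pr_basic S2 g2).1 k)
  have eP : X ^ m * R = X ^ m * (C (R.coeff 0) * Pr S2) * Pr S1 := by
    conv_lhs => rw [e, ← eS]
    simp only [Pr, Multiset.map_add, Multiset.prod_add]; ring
  obtain ⟨n1, c1, -⟩ := Pr_basic S1 fun c hc => (g1 c hc).1
  refine ⟨S1.sum, _, Pr S1, eP, nU, ?_, fun i => ?_, s1, Pr_approx S1 θ B g1 θ0.le (by linarith)⟩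
  · refine natDegree_mul_le.trans (add_le_add (natDegree_X_pow_le m) ((natDegree_C_mul_le _ _).trans
      ((Pr_basic S2 g2).2.2.2.trans (Nat.le_floor ?_))))
    have := Multiset.card_nsmul_le_sum (s := S2) (a := θ) fun b hb =>
      (not_le.1 (Multiset.mem_filter.1 hb).2).le
    rw [nsmul_eq_mul] at this
    rw [le_div_iff₀ θ0]; linarith
  · rw [eP, coeff_mul _ (Pr S1)]
    refine le_of_eq_of_le (by simp [c1]) (single_le_sum (a := (i, 0))
      (fun c _ => mul_nonneg (nU _) (n1 _)) (by simp))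

lemma boundA {p : ℝ[X]} {M : ℕ} {θ B s : ℝ} (h : Dec p M θ B s) (a : ℕ → ℝ)
    (ha : ∀ i, p.coeff i ≤ a i) (η : ℝ) (η0 : 0 < η) (k : ℕ) : k.factorial * p.coeff k ≤
      (∑ i ∈ range (M + 1), a i * (i.factorial / η ^ i)) * (η + s) ^ k := by
  obtain ⟨U, V, e, nU, dU, hU, s0, hV⟩ := h
  rw [e, U.as_sum_range_C_mul_X_pow' (Nat.lt_succ_of_le dU), sum_mul, finset_sum_coeff, mul_sum,
    sum_mul]
  refine sum_le_sum fun i _ => ?_
  rw [mul_assoc, coeff_C_mul, coeff_X_pow_mul', mul_left_comm, mul_assoc]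
  have a0 := (nU i).trans ((hU i).trans (ha i))
  split_ifs with hi
  · refine (mul_le_mul_of_nonneg_left ?_ (nU i)).trans
      (mul_le_mul_of_nonneg_right ((hU i).trans (ha i)) (by positivity))
    have t := single_le_sum (f := fun j => η ^ j * s ^ (k - j) * (k.choose j : ℝ))
      (fun j _ => by positivity) (mem_range.2 (Nat.lt_succ_of_le hi))
    rw [← add_pow] at t
    rw [← Nat.choose_mul_factorial_mul_factorial hi, div_mul_eq_mul_div,
      le_div_iff₀ (by positivity)]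
    push_cast
    have := mul_le_mul_of_nonneg_left (hV (k - i)).1
      (show (0 : ℝ) ≤ k.choose i * i.factorial * η ^ i by positivity)
    have := mul_le_mul_of_nonneg_left t (show (0 : ℝ) ≤ i.factorial by positivity)
    linarith
  · simp only [mul_zero]; positivity

lemma boundB (a : ℕ → ℝ) (B σ : ℝ) (σ0 : 0 ≤ σ) (B0 : 0 ≤ B) (n : ℕ) : ∃ c : ℝ,
    ∀ (p : ℝ[X]) (M : ℕ) (θ s : ℝ), Dec p M θ B s → (∀ i, p.coeff i ≤ a i) → 0 ≤ θ → θ ≤ 1 →
      σ - θ ≤ s → -(θ * c) ≤ ∑ x ∈ antidiagonal n, p.coeff x.1 * ((-σ) ^ x.2 / x.2.factorial) := by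
  let c : ℕ → ℝ := fun l => 1 + ∑ x ∈ antidiagonal l, x.1 ^ 2 * (B + 1) ^ x.1 * σ ^ x.2
  have c0 : ∀ l, 0 ≤ c l := fun l => by positivity
  refine ⟨∑ x ∈ antidiagonal n, a x.1 * c x.2, ?_⟩
  rintro p M θ s ⟨U, V, e, nU, -, hU, s0, hV⟩ ha θ0 θ1 hs
  let E : PowerSeries ℝ := PowerSeries.mk fun j => (-σ) ^ j / j.factorial
  have eE : ∀ (q : ℝ[X]) (l : ℕ), PowerSeries.coeff l ((q : PowerSeries ℝ) * E) =
      ∑ x ∈ antidiagonal l, q.coeff x.1 * ((-σ) ^ x.2 / x.2.factorial) := fun q l => by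
    simp [PowerSeries.coeff_mul, E]
  have hl : ∀ l, -(θ * c l) ≤ PowerSeries.coeff l ((V : PowerSeries ℝ) * E) := fun l => by
    have b1 : -θ ≤ (s + -σ) ^ l / l.factorial := by
      have f1 : (1 : ℝ) ≤ l.factorial := by exact_mod_cast l.factorial_pos
      rw [le_div_iff₀ (by positivity)]
      rcases le_total 0 (s + -σ) with h | h
      · nlinarith [pow_nonneg h l]
      · cases l with
        | zero => simp; linarith
        | succ l =>
          have := neg_abs_le ((s + -σ) ^ (l + 1))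
          rw [abs_pow, pow_succ |s + -σ|, abs_of_nonpos h] at this
          have := pow_le_one₀ (n := l) (neg_nonneg.2 h) (by linarith)
          nlinarith [pow_nonneg (neg_nonneg.2 h) l]
    rw [(Commute.all _ _).add_pow', sum_div] at b1
    rw [eE, mul_add, mul_one, mul_sum, neg_add, ← sub_eq_add_neg, sub_le_iff_le_add,
      ← sum_add_distrib]
    refine b1.trans (sum_le_sum fun x hx => ?_)
    have f1 : (1 : ℝ) ≤ x.1.factorial := by exact_mod_cast x.1.factorial_pos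
    have f2 : (1 : ℝ) ≤ x.2.factorial := by exact_mod_cast x.2.factorial_pos
    rw [nsmul_eq_mul, ← mem_antidiagonal.1 hx, Nat.cast_add_choose ℝ, ← sub_le_iff_le_add',
      show ((x.1 + x.2).factorial / (x.1.factorial * x.2.factorial) * (s ^ x.1 * (-σ) ^ x.2) /
        (x.1 + x.2).factorial - V.coeff x.1 * ((-σ) ^ x.2 / x.2.factorial) : ℝ) =
        (s ^ x.1 - x.1.factorial * V.coeff x.1) * (-σ) ^ x.2 / (x.1.factorial * x.2.factorial) by
          field_simp]
    refine (le_abs_self _).trans ?_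
    rw [abs_div, abs_mul, abs_pow, abs_neg, abs_of_nonneg σ0,
      abs_of_nonneg (sub_nonneg.2 (hV _).1), abs_of_nonneg (by positivity), ← mul_assoc]
    exact (div_le_self (mul_nonneg (sub_nonneg.2 (hV _).1) (by positivity))
      (one_le_mul_of_one_le_of_one_le f1 f2)).trans (by gcongr; exact (hV _).2)
  rw [← eE, e, Polynomial.coe_mul, mul_assoc, PowerSeries.coeff_mul, mul_sum, ← sum_neg_distrib]
  refine sum_le_sum fun x _ => ?_
  rw [Polynomial.coeff_coe]
  have := mul_le_mul_of_nonneg_left (hl x.2) (nU x.1)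
  have := mul_le_mul_of_nonneg_right ((hU x.1).trans (ha x.1)) (mul_nonneg θ0 (c0 x.2))
  linarith

lemma lim_choose (k : ℕ) :
    Tendsto (fun n : ℕ => (n.choose k : ℝ) * (1 / n) ^ k) atTop (𝓝 (1 / k.factorial)) := by
  have := (isEquivalent_choose k).mul
    (Asymptotics.IsEquivalent.refl (u := fun n : ℕ => (1 / n : ℝ) ^ k))
  refine this.symm.tendsto_nhds (tendsto_const_nhds.congr' ?_)
  filter_upwards [eventually_gt_atTop 0] with n hn
  simp only [Pi.mul_apply, one_div_pow]; field_simp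

/-- rescaled Jensen polynomials -/
noncomputable def J (δ : ℕ → ℝ) (N : ℕ) : ℝ[X] :=
  ∑ k ∈ range (N + 1), monomial k (N.choose k * (1 / N) ^ k * δ k)

lemma J_coeff (δ : ℕ → ℝ) (N k : ℕ) : (J δ N).coeff k = N.choose k * (1 / N) ^ k * δ k := by
  simp only [J, finset_sum_coeff, coeff_monomial, sum_ite_eq', mem_range]
  split_ifs with hk
  · rfl
  · simp [Nat.choose_eq_zero_of_lt (show N < k by omega)]

lemma J_lim (δ : ℕ → ℝ) (k : ℕ) :
    Tendsto (fun N => (J δ N).coeff k) atTop (𝓝 (1 / k.factorial * δ k)) := by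
  simp only [J_coeff]; exact (lim_choose k).mul_const _

theorem shift (δ : ℕ → ℝ) (h0 : ∀ n, 0 ≤ δ n) (hJ : ∀ N, RR (J δ N)) (σ : ℝ) (σ0 : 0 ≤ σ)
    (hσ : ∀ ρ, 0 ≤ ρ → ρ < σ → ¬ ∃ K, ∀ n, δ n ≤ K * ρ ^ n) (n : ℕ) :
    0 ≤ Lam δ ((X - C σ) ^ n) := by
  classical
  rcases σ0.eq_or_lt with rfl | σp
  · simpa [Lam_pow] using h0 n
  have ex : ∃ m, δ m ≠ 0 := by
    by_contra! h
    exact hσ 0 le_rfl σp ⟨0, fun n => by simp [h]⟩
  set m := Nat.find ex
  let a : ℕ → ℝ := fun k => 1 / k.factorial * δ k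
  have am : 0 < a m := mul_pos (by positivity) ((h0 m).lt_of_ne' (Nat.find_spec ex))
  have a0 : 0 ≤ a (m + 1) := mul_nonneg (by positivity) (h0 _)
  have ha : ∀ N k, (J δ N).coeff k ≤ a k := fun N k => by
    rw [J_coeff]
    refine mul_le_mul_of_nonneg_right ((mul_le_mul_of_nonneg_right (Nat.choose_le_pow_div k N)
      (by positivity)).trans ?_) (h0 k)
    rw [div_mul_eq_mul_div, ← mul_pow]
    gcongr
    exact pow_le_one₀ (by positivity) (by rw [mul_one_div]; exact div_self_le_one _)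
  obtain ⟨c, hc⟩ := boundB a (2 * a (m + 1) / a m) σ σ0 (by positivity) n
  have key : ∀ θ : ℝ, 0 < θ → θ ≤ 1 →
      -(θ * c) ≤ ∑ x ∈ antidiagonal n, a x.1 * ((-σ) ^ x.2 / x.2.factorial) := fun θ θ0 θ1 => by
    set B := 2 * a (m + 1) / a m with hB
    have ev : ∀ᶠ N in atTop, ∃ s, Dec (J δ N) (m + ⌊B / θ⌋₊) θ B s := by
      filter_upwards [(J_lim δ m).eventually (lt_mem_nhds (half_lt_self am))] with N hN
      refine decomp _ (fun k => by rw [J_coeff]; exact mul_nonneg (by positivity) (h0 k)) (hJ N)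
        m θ B θ0 (fun d hd => by simp [J_coeff, not_not.1 (Nat.find_min ex hd)])
        ((half_pos am).trans hN) ((ha N _).trans ?_)
      refine le_of_eq_of_le (?_ : _ = B * (a m / 2))
        (mul_le_mul_of_nonneg_left hN.le (by positivity))
      rw [hB]; field_simp
    by_cases fr : ∃ᶠ N in atTop, ∃ s, Dec (J δ N) (m + ⌊B / θ⌋₊) θ B s ∧ σ - θ ≤ s
    · refine isClosed_Ici.mem_of_frequently_of_tendsto (fr.mono ?_)
        (tendsto_finset_sum _ fun (x : ℕ × ℕ) _ => (J_lim δ x.1).mul_const _)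
      rintro N ⟨s, h1, h2⟩
      exact hc _ _ θ s h1 (ha N) θ0.le θ1 h2
    · have ev2 := (not_frequently.1 fr).and ev
      obtain ⟨N, h1, s, h2⟩ := ev2.exists
      have : 0 ≤ σ - θ := by
        obtain ⟨_, _, _, _, _, _, s0, _⟩ := id h2
        exact s0.trans (not_le.1 fun h => h1 ⟨s, h2, h⟩).le
      refine (hσ (θ / 2 + (σ - θ)) (by linarith) (by linarith)
        ⟨∑ i ∈ range (m + ⌊B / θ⌋₊ + 1), a i * (i.factorial / (θ / 2) ^ i), fun k => ?_⟩).elim
      have := (J_lim δ k).const_mul (k.factorial : ℝ)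
      rw [← mul_assoc, mul_one_div_cancel (by positivity), one_mul] at this
      refine le_of_tendsto this (ev2.mono ?_)
      rintro N ⟨h1, s, h2⟩
      refine (boundA h2 a (ha N) (θ / 2) (by positivity) k).trans ?_
      obtain ⟨_, _, _, _, _, _, s0, _⟩ := id h2
      gcongr
      · exact sum_nonneg fun i _ => mul_nonneg (mul_nonneg (by positivity) (h0 i)) (by positivity)
      · exact (not_le.1 fun h => h1 ⟨s, h2, h⟩).le
  have t : Tendsto (fun θ : ℝ => -(θ * c)) (𝓝[>] 0) (𝓝 0) :=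
    tendsto_nhdsWithin_of_tendsto_nhds (Continuous.tendsto' (by fun_prop) _ _ (by simp))
  have := le_of_tendsto t (by
    filter_upwards [Ioc_mem_nhdsGT one_pos] with θ hθ using key θ hθ.1 hθ.2)
  have e := Lam_bin δ X 1 (-σ) n
  rw [C_1, one_mul, C_neg, ← sub_eq_add_neg] at e
  rw [e]
  refine (mul_nonneg (Nat.cast_nonneg n.factorial) this).trans_eq ?_
  rw [mul_sum]
  refine sum_congr rfl fun x hx => ?_
  rw [← mem_antidiagonal.1 hx, Nat.cast_add_choose ℝ, Lam_pow]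
  simp only [a, one_pow]; field_simp

theorem type_zero (δ : ℕ → ℝ) (σ : ℝ) (σ0 : 0 ≤ σ) (he : ∀ n, 0 ≤ Lam δ ((X - C σ) ^ n))
    (hσ : ∀ η, 0 < η → ∃ K, ∀ n, δ n ≤ K * (σ + η) ^ n) (ε : ℝ) (ε0 : 0 < ε) :
    ∃ K, ∀ n, Lam δ ((X - C σ) ^ n) ≤ K * ε ^ n := by
  obtain ⟨K, hK⟩ := hσ (ε / 2) (by positivity)
  obtain ⟨t, t0, ht⟩ : ∃ t : ℝ, 0 < t ∧ 1 - σ * t = ε * t :=
    ⟨1 / (σ + ε), by positivity, by field_simp; ring⟩
  have x0 : 0 ≤ (σ + ε / 2) * t := by positivity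
  have x1 : (σ + ε / 2) * t < 1 := by nlinarith [mul_pos ε0 t0]
  have K0 : 0 ≤ K := by
    have h1 := he 0
    have h2 := Lam_pow δ 0
    have h3 := hK 0
    simp only [pow_zero, mul_one] at h1 h2 h3
    linarith
  refine ⟨K * (1 - (σ + ε / 2) * t)⁻¹ * (ε * t), fun n => ?_⟩
  have s1 := (hasSum_choose_mul_geometric_of_norm_lt_one n (r := σ * t) (by
    rw [Real.norm_of_nonneg (by positivity)]; nlinarith [mul_pos ε0 t0])).mul_left
    (Lam δ ((X - C σ) ^ n) * t ^ n)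
  have := hasSum_le (fun j => ?_) s1 ((hasSum_geometric_of_lt_one x0 x1).mul_left K)
  · rw [ht, mul_one_div, div_le_iff₀ (by positivity), pow_succ, mul_pow] at this
    exact le_of_mul_le_mul_right (by linarith) (pow_pos t0 n)
  have e := Lam_bin δ (X - C σ) 1 σ (j + n)
  rw [C_1, one_mul, sub_add_cancel, Lam_pow] at e
  have b := single_le_sum (a := (n, j)) (s := antidiagonal (j + n))
    (f := fun p => ((j + n).choose p.1 : ℝ) * (1 ^ p.1 * σ ^ p.2 * Lam δ ((X - C σ) ^ p.1)))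
    (fun p _ => mul_nonneg (by positivity) (mul_nonneg (by positivity) (he _)))
    (by simp [add_comm])
  have b2 := mul_le_mul_of_nonneg_right ((b.trans_eq e.symm).trans (hK _))
    (pow_pos t0 (j + n)).le
  have b3 := mul_le_mul_of_nonneg_left (pow_le_one₀ (n := n) x0 x1.le)
    (mul_nonneg K0 (pow_nonneg x0 j))
  simp only [pow_add, mul_pow, one_pow] at b2 b3 ⊢
  linarith

end Pool.Agent.H28.HermB
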