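import Mathlib
import Pool.Agent.H28.Schur
import Pool.Agent.H28.Polya

set_option autoImplicit false

namespace Pool.Agent.H28.MS

open Polynomial Finset Filter Topology Pool.Agent.H28.Schur

def MS (γ : ℕ → ℝ) : Prop :=
  ∀ f g : ℝ[X], RR f → (∀ k, g.coeff k = γ k * f.coeff k) → RR g

noncomputable def sc (γ : ℕ → ℝ) (f : ℝ[X]) : ℝ[X] :=
  ∑ k ∈ range (f.natDegree + 1), monomial k (γ k * f.coeff k)

lemma coeff_sc (γ : ℕ → ℝ) (f : ℝ[X]) (k : ℕ) : (sc γ f).coeff k = γ k * f.coeff k := by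
  simp only [sc, finset_sum_coeff, coeff_monomial, sum_ite_eq', mem_range]
  split_ifs with hk
  · rfl
  · rw [coeff_eq_zero_of_natDegree_lt (p := f) (by omega), mul_zero]

lemma MS.mul {α β : ℕ → ℝ} (ha : MS α) (hb : MS β) : MS fun k => α k * β k := fun f g hf hg =>
  ha (sc β f) g (hb f _ hf (coeff_sc β f)) fun k => by rw [hg, coeff_sc, mul_assoc]

lemma MS.lim (α : ℕ → ℕ → ℝ) (γ : ℕ → ℝ) (ha : ∀ n, MS (α n))
    (hl : ∀ k, Tendsto (fun n => α n k) atTop (𝓝 (γ k))) : MS γ := fun f g hf hg =>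
  RR_lim atTop (fun n => sc (α n) f) g f.natDegree
    (fun n => natDegree_le_iff_coeff_eq_zero.2 fun k hk => by
      rw [coeff_sc, coeff_eq_zero_of_natDegree_lt hk, mul_zero])
    (fun k => by simp only [coeff_sc, hg]; exact (hl k).mul_const _)
    (Eventually.of_forall fun n => ha n f _ hf (coeff_sc _ f))

lemma RR_reflect (n : ℕ) (f : ℝ[X]) (hn : f.natDegree ≤ n) (hf : RR f) : RR (reflect n f) := by
  rcases hf with rfl | hf
  · left; simp
  refine Or.inr fun z hz => ?_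
  rcases eq_or_ne z 0 with rfl | z0
  · rfl
  letI := invertibleOfNonzero (inv_ne_zero z0)
  have := eval₂_reflect_mul_pow (algebraMap ℝ ℂ) z⁻¹ n f hn
  rw [invOf_eq_inv, inv_inv, ← aeval_def, hz, zero_mul, ← aeval_def] at this
  have := hf _ this.symm
  rw [Complex.inv_im, div_eq_zero_iff, neg_eq_zero, Complex.normSq_eq_zero] at this
  exact this.resolve_right z0

lemma MS_inv_fact : MS fun k => 1 / k.factorial := fun f g hf hg => by
  set n := f.natDegree
  have gn : g.natDegree ≤ n := natDegree_le_iff_coeff_eq_zero.2 fun k hk => by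
    rw [hg, coeff_eq_zero_of_natDegree_lt hk, mul_zero]
  have := schur ((1 + X) ^ n) (reflect n f) (reflect n (C (n.factorial : ℝ) * g)) (fun z hz => by
    simp only [map_pow, map_add, map_one, aeval_X] at hz
    obtain rfl : z = -1 := by linear_combination eq_zero_of_pow_eq_zero hz
    simp) (RR_reflect n f le_rfl hf) fun k => by
      rw [coeff_reflect, coeff_reflect, coeff_C_mul, hg, coeff_one_add_X_pow]
      rcases le_or_gt k n with h | h
      · rw [revAt_le h, ← Nat.choose_mul_factorial_mul_factorial h]; push_cast; field_simp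
      · rw [revAt_eq_self_of_lt h, coeff_eq_zero_of_natDegree_lt h]; simp
  have := RR_reflect n _ (natDegree_le_iff_coeff_eq_zero.2 fun k hk => by
    rw [coeff_reflect, revAt_eq_self_of_lt hk, coeff_C_mul,
      coeff_eq_zero_of_natDegree_lt (gn.trans_lt hk), mul_zero]) this
  rw [reflect_reflect] at this
  have n0 : (n.factorial : ℝ) ≠ 0 := by positivity
  exact this.imp (fun h => (mul_eq_zero.1 h).resolve_left (C_ne_zero.2 n0)) fun h z hz =>
    h z (by rw [map_mul, hz, mul_zero])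

noncomputable def E (c : ℝ) (n : ℕ) : ℝ[X] := ((1 + X) ^ n).comp (C (c / n) * X)

lemma E_root (c : ℝ) (hc : 0 ≤ c) (n : ℕ) (z : ℂ) (hz : aeval z (E c n) = 0) :
    z.im = 0 ∧ z.re ≤ 0 := by
  simp only [E, aeval_comp, map_pow, map_add, map_one, aeval_X, map_mul, aeval_C,
    Complex.coe_algebraMap] at hz
  have := eq_zero_of_pow_eq_zero hz
  have c0 : 0 ≤ c / n := by positivity
  generalize c / n = d at *
  have e1 := congrArg Complex.re this
  have e2 := congrArg Complex.im this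
  simp at e1 e2
  exact ⟨e2.resolve_left (by rintro rfl; simp at e1), by by_contra! h; nlinarith⟩

lemma E_coeff (c : ℝ) (n k : ℕ) : (E c n).coeff k = n.choose k * (c / n) ^ k := by
  rw [E, comp_C_mul_X_coeff, coeff_one_add_X_pow]

lemma E_lim (c : ℝ) (k : ℕ) :
    Tendsto (fun n => (E c n).coeff k) atTop (𝓝 (c ^ k / k.factorial)) := by
  have := (isEquivalent_choose k).mul (Asymptotics.IsEquivalent.refl (u := fun n : ℕ => (c / n) ^ k))
  simp only [E_coeff]
  refine this.symm.tendsto_nhds (tendsto_const_nhds.congr' ?_)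
  filter_upwards [eventually_gt_atTop 0] with n hn
  have : (n : ℝ) ≠ 0 := by positivity
  simp only [Pi.mul_apply, div_pow]; field_simp

lemma MS_lin (a b c : ℝ) (ha : 0 < a) (hb : 0 ≤ b) (hc : 0 < c) :
    MS fun k => (a + b * k) * c ^ k := by
  refine ms_of_approx _ (fun n => (C a + C (b * c) * X) * E c n) (fun n z hz => ?_) fun k => ?_
  · rw [map_mul, mul_eq_zero] at hz
    refine hz.elim (fun h => ?_) (E_root c hc.le n z)
    simp only [map_add, map_mul, aeval_C, aeval_X, Complex.coe_algebraMap] at h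
    have e1 := congrArg Complex.re h
    have e2 := congrArg Complex.im h
    simp [hc.ne'] at e1 e2
    exact ⟨e2.resolve_left (by rintro rfl; simp at e1; linarith), by
      by_contra! h; nlinarith [mul_nonneg (mul_nonneg hb hc.le) h.le]⟩
  · simp only [add_mul, mul_assoc, coeff_add, coeff_C_mul]
    rcases k with _ | k
    · simpa using (E_lim c 0).const_mul a
    · simp only [coeff_X_mul]
      refine (((E_lim c (k + 1)).const_mul a).add (((E_lim c k).const_mul c).const_mul b)).trans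
        (le_of_eq (congrArg 𝓝 ?_))
      rw [Nat.factorial_succ]; push_cast; field_simp; ring

lemma MS_central : MS fun k => (k.centralBinom : ℝ) / k.factorial := by
  let L : ℕ → ℝ[X] := fun n => sc (fun k => 1 / k.factorial) (E 1 n)
  have c0 : ∀ n k, 0 ≤ (L n).coeff k := fun n k => by rw [coeff_sc, E_coeff]; positivity
  have c1 : ∀ n, (L n).coeff 0 = 1 := fun n => by simp [L, coeff_sc, E_coeff]
  refine ms_of_approx _ (fun n => L n * L n) (fun n z hz => ?_) fun k => ?_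
  · rw [map_mul, mul_self_eq_zero] at hz
    have h1 := (MS_inv_fact _ _ (Or.inr fun z hz => (E_root 1 zero_le_one n z hz).1)
      (coeff_sc _ (E 1 n))).resolve_left (fun h : L n = 0 => by simpa [h] using c1 n) z hz
    refine ⟨h1, ?_⟩
    by_contra! h
    obtain ⟨x, rfl⟩ : ∃ x : ℝ, z = x := ⟨z.re, by simp [Complex.ext_iff, h1]⟩
    rw [← Complex.coe_algebraMap, aeval_algebraMap_apply, Complex.coe_algebraMap,
      Complex.ofReal_eq_zero, aeval_eq_sum_range, sum_range_succ', c1] at hz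
    have x0 : 0 < x := by simpa using h
    have : 0 ≤ ∑ k ∈ range (L n).natDegree, (L n).coeff (k + 1) • x ^ (k + 1) :=
      sum_nonneg fun k _ => mul_nonneg (c0 n _) (by positivity)
    simp at hz this; linarith
  · simp only [coeff_mul, L, coeff_sc]
    refine (tendsto_finset_sum _ fun ij _ => ((E_lim 1 ij.1).const_mul _).mul
      ((E_lim 1 ij.2).const_mul _)).trans (le_of_eq (congrArg 𝓝 ?_))
    rw [Nat.centralBinom_eq_two_mul_choose, two_mul, Nat.add_choose_eq]; push_cast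
    rw [sum_div, sum_div]
    refine sum_congr rfl fun ij h => ?_
    have h := mem_antidiagonal.1 h
    rw [Nat.cast_choose ℝ (show ij.1 ≤ k by omega), Nat.cast_choose ℝ (show ij.2 ≤ k by omega),
      show k - ij.1 = ij.2 by omega, show k - ij.2 = ij.1 by omega, one_pow, one_pow]
    field_simp

open MeasureTheory Set in
/-- an increasing density produced by a change of variables -/
lemma branch (s : Set ℝ) (hs : MeasurableSet s) (φ φ' ρ : ℝ → ℝ) (M : ℝ) (M0 : 0 ≤ M)
    (hd : ∀ x ∈ s, HasDerivAt φ (φ' x) x) (hi : InjOn φ s) (him : φ '' s = Set.Ioo 0 1)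
    (hρ : ∀ x ∈ s, 0 ≤ ρ x ∧ ρ x ≤ M) (hm : ∀ x ∈ s, ∀ y ∈ s, φ x ≤ φ y → ρ x ≤ ρ y) :
    ∃ h : ℝ → ℝ, MonotoneOn h (Set.Icc 0 1) ∧ 0 ≤ h 0 ∧ h 1 = M ∧ ∀ k : ℕ,
      ∫ w in (0 : ℝ)..1, h w * w ^ (2 * k + 1) = ∫ x in s, |φ' x| * ρ x * φ x ^ k / 2 := by
  have bd : ∀ w : ℝ, BddAbove (ρ '' {x ∈ s | φ x ≤ w ^ 2}) := fun w =>
    ⟨M, by rintro _ ⟨x, hx, rfl⟩; exact (hρ x hx.1).2⟩
  have nn : ∀ w : ℝ, 0 ≤ sSup (ρ '' {x ∈ s | φ x ≤ w ^ 2}) := fun w =>
    Real.sSup_nonneg (by rintro _ ⟨x, hx, rfl⟩; exact (hρ x hx.1).1)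
  have mem : ∀ x ∈ s, φ x ∈ Set.Ioo (0 : ℝ) 1 := fun x hx => him ▸ mem_image_of_mem φ hx
  refine ⟨fun w => if w < 1 then sSup (ρ '' {x ∈ s | φ x ≤ w ^ 2}) else M, fun v hv w hw hvw => ?_,
    by simpa using nn 0, by simp, fun k => ?_⟩
  · simp only; split_ifs with h1 h2 h2
    · exact Real.sSup_le (by
        rintro _ ⟨x, hx, rfl⟩
        exact le_csSup (bd w) ⟨x, ⟨hx.1, hx.2.trans (pow_le_pow_left₀ hv.1 hvw 2)⟩, rfl⟩) (nn w)
    · exact Real.sSup_le (by rintro _ ⟨x, hx, rfl⟩; exact (hρ x hx.1).2) M0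
    exacts [by linarith, le_rfl]
  have im : (fun x => √(φ x)) '' s = Set.Ioo 0 1 := by
    ext w; constructor
    · rintro ⟨x, hx, rfl⟩
      exact ⟨Real.sqrt_pos.2 (mem x hx).1, by rw [Real.sqrt_lt' one_pos]; simpa using (mem x hx).2⟩
    · rintro ⟨h0, h1⟩
      obtain ⟨x, hx, e⟩ : w ^ 2 ∈ φ '' s := him ▸ ⟨by positivity, by nlinarith⟩
      exact ⟨x, hx, by simp only [e, Real.sqrt_sq h0.le]⟩
  rw [intervalIntegral.integral_of_le zero_le_one, integral_Ioc_eq_integral_Ioo, ← im,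
    integral_image_eq_integral_abs_deriv_smul hs
      (fun x hx => ((hd x hx).sqrt (mem x hx).1.ne').hasDerivWithinAt)
      fun x hx y hy e => hi hx hy ((Real.sqrt_inj (mem x hx).1.le (mem y hy).1.le).1 e)]
  refine setIntegral_congr_fun hs fun x hx => ?_
  have p := Real.sqrt_pos.2 (mem x hx).1
  have q := Real.sq_sqrt (mem x hx).1.le
  have e : sSup (ρ '' {y ∈ s | φ y ≤ φ x}) = ρ x := IsGreatest.csSup_eq
    ⟨⟨x, ⟨hx, le_rfl⟩, rfl⟩, by rintro _ ⟨y, hy, rfl⟩; exact hm y hy.1 x hx hy.2⟩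
  simp only [if_pos (show √(φ x) < 1 from (im ▸ mem_image_of_mem _ hx : √(φ x) ∈ Set.Ioo (0 : ℝ) 1).2),
    q, e, smul_eq_mul, abs_div, abs_of_pos (mul_pos two_pos p), pow_succ, pow_mul]
  field_simp

end Pool.Agent.H28.MS
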