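import Mathlib
import Pool.Agent.H28.MS
import Pool.Agent.H28.HermB

set_option autoImplicit false

namespace Pool.Agent.H28.HermC

open Polynomial Filter Topology Finset Pool.Agent.H28.Schur Pool.Agent.H28.HermA
  Pool.Agent.H28.HermB Pool.Agent.H28.MS

/-- the creation operator -/
noncomputable def A : Module.End ℂ ℂ[X] := LinearMap.mulLeft ℂ X - (1 / 2 : ℂ) • derivative

noncomputable def W (k : ℕ) : Module.End ℂ ℂ[X] := A ^ k * derivative ^ k

noncomputable def Φ : ℂ[X] →ₗ[ℂ] Module.End ℂ ℂ[X] :=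
  lsum fun k => LinearMap.toSpanSingleton ℂ _ (W k)

lemma Φ_mon (k : ℕ) (c : ℂ) : Φ (monomial k c) = c • W k := by simp [Φ]

lemma Φ_X (q : ℂ[X]) : Φ (X * q) = A * Φ q * derivative := by
  induction q using Polynomial.induction_on' with
  | add p q hp hq => simp only [mul_add, add_mul, map_add, hp, hq]
  | monomial k c =>
    rw [X_mul_monomial, Φ_mon, Φ_mon, W, W, pow_succ' A, pow_succ]
    simp only [mul_smul_comm, smul_mul_assoc, mul_assoc]

lemma lucas (G : ℂ[X]) (hG : NZ G) : derivative G = 0 ∨ NZ (derivative G) := by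
  refine or_iff_not_imp_left.2 fun h x hx e => ?_
  have h0 : 0 < G.degree := natDegree_pos_iff_degree_pos.1 (Nat.pos_of_ne_zero fun h0 =>
    h (derivative_of_natDegree_zero h0))
  have := convexHull_min (t := {c : ℂ | c.im ≤ 0}) (fun z hz => not_lt.1 fun hz' => hG z hz'
    (by simpa using (mem_rootSet.1 hz).2)) (convex_halfSpace_im_le 0)
    (rootSet_derivative_subset_convexHull_rootSet h0 (mem_rootSet.2 ⟨h, by simpa using e⟩))
  exact hx.not_ge this

lemma logder (G : ℂ[X]) (hG : NZ G) (x : ℂ) (hx : 0 < x.im) :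
    ∃ S : ℂ, S.im ≤ 0 ∧ (derivative G).eval x = G.eval x * S := by
  have sp : G.Splits := IsAlgClosed.splits _
  refine ⟨_, ?_, sp.eval_derivative_eq_eval_mul_sum (hG x hx)⟩
  refine Multiset.sum_induction (fun u : ℂ => u.im ≤ 0) _
    (fun u v hu hv => by rw [Complex.add_im]; linarith) (by simp) fun u hu => ?_
  obtain ⟨z, hz, rfl⟩ := Multiset.mem_map.1 hu
  have : z.im ≤ 0 := not_lt.1 fun h => hG z h (isRoot_of_mem_roots hz)
  rw [one_div, Complex.inv_im, Complex.sub_im]
  exact div_nonpos_of_nonpos_of_nonneg (by linarith) (Complex.normSq_nonneg _)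

lemma Φ_prod (s : Multiset ℂ) (hs : ∀ a ∈ s, a.im = 0 ∧ a.re < 0) (p : ℂ[X]) (hp : NZ p) :
    NZ (Φ (s.map (X - C ·)).prod p) := by
  induction s using Multiset.induction_on generalizing p with
  | empty =>
    rw [Multiset.map_zero, Multiset.prod_zero, ← monomial_zero_one, Φ_mon]
    simpa [W] using hp
  | cons a s ih =>
    have ih := ih fun b hb => hs b (Multiset.mem_cons_of_mem hb)
    have ha := hs a (Multiset.mem_cons_self _ _)
    rw [Multiset.map_cons, Multiset.prod_cons, sub_mul, ← smul_eq_C_mul, map_sub, map_smul, Φ_X]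
    set F := Φ (s.map (X - C ·)).prod
    intro x hx e
    obtain ⟨S, h1, h2⟩ : ∃ S : ℂ, S.im ≤ 0 ∧ (derivative (F (derivative p))).eval x =
        (F (derivative p)).eval x * S := by
      rcases lucas p hp with h | h
      · exact ⟨0, le_rfl, by simp [h]⟩
      · exact logder _ (ih _ h) x hx
    refine ih _ (step p hp (x - 1 / 2 * S) a (by simp; linarith) ha) x hx ?_
    simp only [A, LinearMap.sub_apply, Module.End.mul_apply, LinearMap.mulLeft_apply,
      LinearMap.smul_apply, eval_sub, eval_mul, eval_X, eval_smul, smul_eq_mul, h2, map_sub,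
      map_smul] at e ⊢
    linear_combination e

lemma Φ_eq (q p : ℂ[X]) (d : ℕ) (hd : p.natDegree ≤ d) :
    Φ q p = ∑ k ∈ range (d + 1), q.coeff k • W k p := by
  induction q using Polynomial.induction_on' with
  | add p q hp hq => simp [hp, hq, add_smul, sum_add_distrib]
  | monomial k c =>
    simp only [Φ_mon, coeff_monomial, ite_smul, zero_smul, sum_ite_eq, mem_range,
      LinearMap.smul_apply]
    split_ifs with hk
    · rfl
    · rw [W, Module.End.mul_apply, Module.End.pow_apply derivative,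
        iterate_derivative_eq_zero (by omega), map_zero, smul_zero]

lemma lim_comb {ι : Type*} (l : Filter ι) [l.NeBot] (c : ι → ℕ → ℂ) (a : ℕ → ℂ) (w : ℕ → ℂ[X])
    (s : Finset ℕ) (hc : ∀ k, Tendsto (fun n => c n k) l (𝓝 (a k)))
    (h : ∀ᶠ n in l, ∑ k ∈ s, c n k • w k = 0 ∨ NZ (∑ k ∈ s, c n k • w k)) :
    ∑ k ∈ s, a k • w k = 0 ∨ NZ (∑ k ∈ s, a k • w k) :=
  hurwitz l _ _ (s.sup fun k => (w k).natDegree) (fun n => natDegree_sum_le_of_forall_le _ _
    fun k hk => (natDegree_smul_le _ _).trans (le_sup (f := fun k => (w k).natDegree) hk))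
    (fun j => by
      simp only [finset_sum_coeff, coeff_smul]
      exact tendsto_finset_sum _ fun k _ => (hc k).smul_const _) h

lemma Φ_le (q : ℂ[X]) (hq : ∀ a, q.eval a = 0 → a.im = 0 ∧ a.re ≤ 0) (p : ℂ[X]) (hp : NZ p) :
    Φ q p = 0 ∨ NZ (Φ q p) := by
  rw [Φ_eq q p _ le_rfl]
  refine lim_comb (𝓝[>] (0 : ℝ)) (fun δ k => (taylor (δ : ℂ) q).coeff k) _ _ _ (fun k => ?_) ?_
  · refine tendsto_nhdsWithin_of_tendsto_nhds (Continuous.tendsto' ?_ _ _ (by simp))
    simp only [taylor_coeff]; fun_prop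
  · filter_upwards [self_mem_nhdsWithin] with δ (hδ : 0 < δ)
    rw [← Φ_eq _ p _ le_rfl, (IsAlgClosed.splits (taylor (δ : ℂ) q)).eq_prod_roots,
      ← smul_eq_C_mul, map_smul, LinearMap.smul_apply]
    refine or_iff_not_imp_left.2 fun h x hx => ?_
    rw [eval_smul, smul_ne_zero_iff]
    refine ⟨fun h0 => h (by rw [h0, zero_smul]), Φ_prod _ (fun a ha => ?_) p hp x hx⟩
    have := hq _ (by simpa [taylor_eval] using isRoot_of_mem_roots ha)
    simp only [Complex.add_im, Complex.ofReal_im, add_zero, Complex.add_re,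
      Complex.ofReal_re] at this
    exact ⟨this.1, by linarith [this.2]⟩

theorem piot (g : ℕ → ℝ) (g0 : ∀ n, 0 ≤ g n)
    (hJ : ∀ᶠ N in atTop, ∀ z : ℂ, aeval z (J g N) = 0 → z.im = 0) (p : ℂ[X]) (hp : NZ p) (d : ℕ)
    (hd : p.natDegree ≤ d) : let r := ∑ k ∈ range (d + 1), ((1 / k.factorial * g k : ℝ) : ℂ) • W k p
    r = 0 ∨ NZ r := by
  refine lim_comb atTop (fun N k => ((J g N).map (algebraMap ℝ ℂ)).coeff k) _ _ _ (fun k => ?_)
    (hJ.mono fun N hN => ?_)
  · simp only [coeff_map]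
    exact (Complex.continuous_ofReal.tendsto _).comp (J_lim g k)
  rw [← Φ_eq _ p d hd]
  refine Φ_le _ (fun a ha => ?_) p hp
  rw [eval_map_algebraMap] at ha
  refine ⟨hN a ha, not_lt.1 fun h => ?_⟩
  have nn : NN (J g N) := fun k => by rw [J_coeff]; exact mul_nonneg (by positivity) (g0 k)
  have e : a = algebraMap ℝ ℂ a.re := Complex.ext rfl (by simp [hN a ha])
  rw [e, aeval_algebraMap_apply_eq_algebraMap_eval, map_eq_zero] at ha
  have : J g N = 0 := by
    ext k
    have := nn.eval_ge _ h.le k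
    rw [ha] at this
    exact le_antisymm (by simpa [pow_pos h k, mul_nonpos_iff_pos_imp_nonpos] using
      nonpos_of_mul_nonpos_left this (pow_pos h k)) (nn k)
  simpa using hN Complex.I (by simp [this])

lemma Lam_cast (γ : ℕ → ℝ) (p : ℝ[X]) :
    Lam (fun n => (γ n : ℂ)) (p.map (algebraMap ℝ ℂ)) = (Lam γ p : ℝ) := by
  induction p using Polynomial.induction_on' with
  | add p q hp hq => simp [hp, hq]
  | monomial k c => simp [Lam]

lemma J_shift (δ : ℕ → ℝ) (N : ℕ) (h : RR (J δ N)) (h0 : J δ N ≠ 0) (z : ℂ)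
    (hz : aeval z (J (fun n => Lam δ ((X - C 1) ^ n)) N) = 0) : z.im = 0 := by
  by_contra hi
  have ev : ∀ (γ : ℕ → ℝ) (z : ℂ), aeval z (J γ N) = ∑ p ∈ antidiagonal N,
      (N.choose p.1 : ℂ) * ((z * (1 / N : ℝ)) ^ p.1 * γ p.1) := fun γ z => by
    rw [J, map_sum, Nat.sum_antidiagonal_eq_sum_range_succ_mk]
    refine sum_congr rfl fun k _ => ?_
    rw [aeval_monomial, Complex.coe_algebraMap]; push_cast; ring
  obtain ⟨c, hc⟩ : ∃ c : ℝ, c = 1 / N := ⟨_, rfl⟩
  rw [← hc] at ev
  have w1 : 1 - z * c ≠ 0 := fun e => by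
    have e1 := congrArg Complex.im e
    have e2 := congrArg Complex.re e
    simp [hi] at e1
    simp [e1] at e2
  have e1 := Lam_bin (fun n => (δ n : ℂ)) (X - 1) (z * c) 1 N
  have e2 := Lam_bin (fun n => (δ n : ℂ)) X (z * c) (1 - z * c) N
  rw [show C (z * c) * X + C (1 - z * c) = C (z * c) * (X - 1) + C 1 by
    simp only [map_sub, map_one]; ring, e1] at e2
  have e3 : (1 - z * c) ^ N * aeval (z / (1 - z * c)) (J δ N) = 0 := by
    rw [← hz, ev, ev, mul_sum]
    refine (sum_congr rfl fun p hp => ?_).trans (e2.symm.trans (sum_congr rfl fun p _ => ?_))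
    · rw [Lam_pow, ← mem_antidiagonal.1 hp, pow_add, div_mul_eq_mul_div, div_pow]; field_simp
    · rw [← Lam_cast]; simp
  have := h.resolve_left h0 _ ((mul_eq_zero.1 e3).resolve_left (pow_ne_zero _ w1))
  have n0 := Complex.normSq_pos.2 w1
  rw [Complex.div_im, sub_eq_zero, div_left_inj' n0.ne'] at this
  simp at this
  exact hi (by linarith)

lemma expand {K : Type*} [CommRing K] (z c : K) (k : ℕ) : (X - C z) ^ k =
    ∑ p ∈ antidiagonal k, ((k.choose p.1 : K) * H (-z) c p.1) • H X (C (-c)) p.2 := by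
  have := H_add (C (-z)) (C c) X (C (-c)) k
  rw [← C_add, add_neg_cancel, C_0, H_zero, C_neg, neg_add_eq_sub] at this
  rw [this]
  refine sum_congr rfl fun p _ => ?_
  rw [smul_eq_C_mul, C_mul, H_map C, C_neg, mul_assoc]; simp

/-- monic Hermite polynomials -/
noncomputable def P (n : ℕ) : ℝ[X] := H X (C (-(1 / 4))) n

lemma ext_P {M : Type*} [AddCommGroup M] [Module ℝ M] (F G : ℝ[X] →ₗ[ℝ] M) (d : ℕ)
    (h : ∀ n ≤ d, F (P n) = G (P n)) (p : ℝ[X]) (hp : p.natDegree ≤ d) : F p = G p := by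
  rw [p.as_sum_range_C_mul_X_pow, map_sum, map_sum]
  refine sum_congr rfl fun k hk => ?_
  have := expand (0 : ℝ) (1 / 4) k
  rw [C_0, sub_zero] at this
  rw [← smul_eq_C_mul, map_smul, map_smul, this, map_sum, map_sum]
  refine congrArg _ (sum_congr rfl fun x hx => ?_)
  rw [map_smul, map_smul]
  exact congrArg _ (h _ (by have := mem_antidiagonal.1 hx; have := mem_range.1 hk; omega))

lemma herm (n : ℕ) : ((hermite n).map (Int.castRingHom ℝ)).comp (C √2 * X) = √2 ^ n • P n := by
  have e : (hermite n).map (Int.castRingHom ℝ) = H X (C (-(1 / 2))) n := by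
    induction n with
    | zero => simp [H]
    | succ n ih =>
      rw [hermite_succ, Polynomial.map_sub, Polynomial.map_mul, map_X, ← derivative_map, ih, H_der,
        H_succ]
      have : (2 : ℝ[X]) * C (1 / 2) = 1 := by rw [← C_ofNat, ← C_mul]; simp
      simp only [C_neg, derivative_X]
      linear_combination ((n : ℝ[X]) * H X (-C (1 / 2 : ℝ)) (n - 1)) * this
  rw [e, smul_eq_C_mul, C_pow, P, ← H_hom, ← C_pow, ← C_mul, Real.sq_sqrt (by norm_num),
    ← coe_compRingHom_apply, H_map]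
  norm_num

lemma W_P (k n : ℕ) : W k ((P n).map (algebraMap ℝ ℂ)) =
    (n.descFactorial k : ℂ) • (P n).map (algebraMap ℝ ℂ) := by
  have e : ∀ n, (P n).map (algebraMap ℝ ℂ) = H X (C (-(1 / 4))) n := fun n => by
    rw [P, ← coe_mapRingHom, H_map]; simp
  have d1 : ∀ n, derivative (H X (C (-(1 / 4 : ℂ))) n) = (n : ℂ) • H X (C (-(1 / 4))) (n - 1) :=
    fun n => by rw [H_der, smul_eq_C_mul]; simp
  have a1 : ∀ n, A (H X (C (-(1 / 4 : ℂ))) n) = H X (C (-(1 / 4))) (n + 1) := fun n => by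
    rw [H_succ, A, LinearMap.sub_apply, LinearMap.smul_apply, d1, smul_smul, smul_eq_C_mul,
      sub_eq_add_neg, ← neg_mul, ← C_neg, ← C_ofNat, ← C_eq_natCast, ← C_mul, ← C_mul]
    congr 3; ring
  rw [e]
  induction k generalizing n with
  | zero => simp [W]
  | succ k ih =>
    rw [W, pow_succ' A, pow_succ, mul_assoc, ← mul_assoc (A ^ k), ← W, Module.End.mul_apply,
      Module.End.mul_apply, d1, map_smul, ih, map_smul, map_smul, a1, smul_smul]
    cases n with
    | zero => simp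
    | succ n => rw [Nat.succ_descFactorial_succ]; simp

theorem pres (δ : ℕ → ℝ) (hδ : MS δ) (m : ℕ) (hm : 0 < δ m)
    (hg : ∀ n, 0 ≤ Lam δ ((X - C 1) ^ n)) (T : ℝ[X] →ₗ[ℝ] ℝ[X]) (hT : ∀ n, T (P n) = δ n • P n)
    (p : ℝ[X]) (hp : RR p) : RR (T p) := by
  rcases (RR_iff p).1 hp with h | h
  · left; rw [Polynomial.map_eq_zero] at h; simp [h]
  have := piot _ hg (by
    filter_upwards [(J_lim δ m).eventually (lt_mem_nhds (show 0 < 1 / m.factorial * δ m by
      positivity))] with N hN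
    exact J_shift δ N (hδ (E 1 N) _ (Or.inr fun z hz => (E_root 1 one_pos.le N z hz).1)
      fun k => by rw [J_coeff, E_coeff, mul_comm]) fun h0 => by simp [h0] at hN) _ h _
    natDegree_map_le
  let ι : ℝ[X] →ₗ[ℝ] ℂ[X] := (mapAlgHom (Algebra.ofId ℝ ℂ)).toLinearMap
  have hι : ∀ q, ι q = q.map (algebraMap ℝ ℂ) := fun q => rfl
  have e := ext_P (ι ∘ₗ T) (((∑ k ∈ range (p.natDegree + 1), ((1 / k.factorial *
    Lam δ ((X - C 1) ^ k) : ℝ) : ℂ) • W k).restrictScalars ℝ) ∘ₗ ι) _ (fun n hn => ?_) p le_rfl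
  · rw [RR_iff]
    convert this using 2 <;> simpa [LinearMap.sum_apply, hι] using e
  have b := Lam_bin δ (X - C 1) 1 1 n
  rw [C_1, one_mul, sub_add_cancel, Lam_pow, Nat.sum_antidiagonal_eq_sum_range_succ_mk] at b
  rw [LinearMap.comp_apply, hT, map_smul]
  simp only [LinearMap.comp_apply, LinearMap.restrictScalars_apply, LinearMap.sum_apply,
    LinearMap.smul_apply, hι, W_P, smul_smul, ← sum_smul]
  rw [← Complex.coe_smul, b, ← sum_subset (range_mono (Nat.succ_le_succ hn)) fun k _ hk => by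
    simp [Nat.descFactorial_eq_zero_iff_lt.2 (show n < k by simpa using hk)], Complex.ofReal_sum]
  refine congrArg (· • _) (sum_congr rfl fun k _ => ?_)
  rw [Nat.descFactorial_eq_factorial_mul_choose]
  have : (k.factorial : ℂ) ≠ 0 := by exact_mod_cast k.factorial_ne_zero
  push_cast
  field_simp
  simp

lemma MS_geo (ε η : ℝ) (hη : η ≠ 0) : MS fun n => ε * η ^ n := fun f g hf hg => by
  have e : g = C ε * f.comp (C η * X) := by
    ext k; rw [hg, coeff_C_mul, comp_C_mul_X_coeff]; ring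
  rcases eq_or_ne ε 0 with rfl | hε
  · left; simp [e]
  refine hf.imp (fun h => by simp [e, h]) fun h z hz => ?_
  have := h (η * z) (by simpa [e, hε, aeval_comp] using hz)
  simpa [hη] using this

lemma MS_shift {γ : ℕ → ℝ} (h : MS γ) (k : ℕ) : MS fun n => γ (n + k) := fun f g hf hg => by
  refine (h (X ^ k * f) (X ^ k * g) (hf.imp (fun h => by simp [h]) fun h z hz => ?_)
    fun j => ?_).imp (fun h => by simpa using h) fun h z hz => h z (by simp [hz])
  · rw [map_mul, mul_eq_zero] at hz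
    exact hz.elim (fun h => by simp at h; simp [h.1]) (h z)
  · simp only [coeff_X_pow_mul', hg]
    split_ifs with hj
    · rw [Nat.sub_add_cancel hj]
    · simp

lemma disc (a b c : ℝ) (h : RR (C a + C b * X + C c * X ^ 2)) : 4 * a * c ≤ b ^ 2 := by
  by_contra! hn
  have c0 : c ≠ 0 := by rintro rfl; nlinarith
  obtain ⟨s, s0, hs⟩ : ∃ s : ℝ, 0 < s ∧ s ^ 2 = 4 * a * c - b ^ 2 :=
    ⟨√_, Real.sqrt_pos.2 (by linarith), Real.sq_sqrt (by linarith)⟩
  rcases h with h | h
  · exact c0 (by simpa [coeff_X, coeff_C] using congrArg (coeff · 2) h)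
  have := h ((-b / (2 * c) : ℝ) + (s / (2 * c) : ℝ) * Complex.I) (by
    have c1 : (c : ℂ) ≠ 0 := by exact_mod_cast c0
    have hs' : (s : ℂ) ^ 2 = 4 * a * c - b ^ 2 := by exact_mod_cast hs
    simp only [map_add, map_mul, map_pow, aeval_C, aeval_X, Complex.coe_algebraMap]
    push_cast
    field_simp
    linear_combination (s : ℂ) ^ 2 * Complex.I_sq - hs')
  simp only [Complex.add_im, Complex.ofReal_im, Complex.mul_im, Complex.ofReal_re, Complex.I_im,
    Complex.I_re, mul_one, mul_zero, add_zero, zero_add, div_eq_zero_iff, mul_eq_zero] at this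
  simp [s0.ne', c0] at this

lemma RR_pow (n : ℕ) : RR ((1 + X) ^ n) := Or.inr fun z hz => by
  simp only [map_pow, map_add, map_one, aeval_X] at hz
  simpa using congrArg Complex.im (pow_eq_zero_iff'.1 hz).1

lemma turan {γ : ℕ → ℝ} (h : MS γ) : 0 ≤ γ 0 * γ 2 ∧ γ 0 * γ 2 ≤ γ 1 ^ 2 := by
  have h1 := disc (-γ 0) 0 (γ 2) (h (C (-1) + C 0 * X + C 1 * X ^ 2) _ (Or.inr fun z hz => by
    have : (z - 1) * (z + 1) = 0 := by simp at hz; linear_combination hz
    rcases mul_eq_zero.1 this with h | h <;> simpa using congrArg Complex.im h) fun k => by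
      rcases k with _ | _ | _ | k <;> simp [coeff_X, coeff_C, coeff_X_pow, coeff_one])
  have h2 := disc (γ 0) (γ 1 * 2) (γ 2) (h _ _ (RR_pow 2) fun k => by
    rw [coeff_one_add_X_pow]
    rcases k with _ | _ | _ | k <;> simp [coeff_X, coeff_C, coeff_X_pow, Nat.choose])
  constructor <;> nlinarith

lemma gap {γ : ℕ → ℝ} (h : MS γ) (h0 : γ 0 ≠ 0) (h1 : γ 1 = 0) (n : ℕ) : γ (n + 1) = 0 := by
  induction n using Nat.strong_induction_on with
  | _ n ih =>
    rcases n with _ | _ | n
    · exact h1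
    · have := turan h
      rw [h1] at this
      exact (mul_eq_zero.1 (by linarith [this.1, this.2])).resolve_left h0
    by_contra hn
    have r := (h _ (C (γ 0) + monomial (n + 3) (γ (n + 3))) (RR_pow (n + 3)) fun k => by
      rw [coeff_one_add_X_pow, coeff_add, coeff_monomial]
      rcases k with _ | k
      · simp
      · rcases lt_trichotomy k (n + 2) with hk | rfl | hk
        · simp [ih k hk, hk.ne']
        · simp
        · simp [Nat.choose_eq_zero_of_lt (show n + 3 < k + 1 by omega), hk.ne]).resolve_left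
      fun e => h0 (by simpa using congrArg (coeff · 0) e)
    have g0 : (γ (n + 3) : ℂ) ≠ 0 := by exact_mod_cast hn
    obtain ⟨z, hz⟩ := IsAlgClosed.exists_pow_nat_eq (-γ 0 / γ (n + 3) : ℂ) (n := n + 3) (by omega)
    have pr := Complex.isPrimitiveRoot_exp (n + 3) (by omega)
    set ζ := Complex.exp (2 * Real.pi * Complex.I / (n + 3 : ℕ))
    have i1 := r z (by simp [aeval_monomial, hz]; field_simp; ring)
    have i2 := r (z * ζ) (by simp [aeval_monomial, mul_pow, pr.pow_eq_one, hz]; field_simp; ring)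
    have z0 : z.re ≠ 0 := fun e => by
      rw [show z = 0 from Complex.ext e i1, zero_pow (by omega), eq_comm] at hz
      simp [g0, h0] at hz
    have i3 : ζ.im = 0 := by simpa [i1, z0] using i2
    have n1 : Complex.normSq ζ = 1 := by
      rw [← Complex.sq_norm, pr.norm'_eq_one (by omega), one_pow]
    have := Nat.le_of_dvd two_pos ((pr.pow_eq_one_iff_dvd 2).1 (Complex.ext
      (by simpa [sq, Complex.normSq_apply, i3] using n1) (by simp [sq, i3])))
    omega

lemma struct {δ : ℕ → ℝ} (h : MS δ) (m : ℕ) (h0 : ∀ d < m, δ d = 0) (h1 : 0 < δ m)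
    (h2 : 0 ≤ δ (m + 1)) : (∀ n, 0 ≤ δ n) ∧ ∃ ρ, 0 ≤ ρ ∧ ∃ K, ∀ n, δ n ≤ K * ρ ^ n := by
  have z : ∀ k, δ (k + m) = 0 → ∀ i, δ (i + (k + m)) = 0 := fun k => by
    induction k with
    | zero => intro e; exact (h1.ne' (by simpa using e)).elim
    | succ k ih =>
      intro e i
      rw [show i + (k + 1 + m) = i + 1 + (k + m) by ring]
      by_cases e' : δ (k + m) = 0
      · exact ih e' _
      · exact gap (MS_shift h (k + m)) (by simpa using e') (by rw [← e]; congr 1; ring) i
  set ρ := δ (m + 1) / δ m + 1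
  have ρ0 : 0 < ρ := by positivity
  have key : ∀ k, 0 ≤ δ (k + m) ∧ 0 ≤ δ (1 + (k + m)) ∧ δ (1 + (k + m)) ≤ ρ * δ (k + m) := by
    intro k
    induction k with
    | zero =>
      simp only [zero_add, add_comm 1, ρ, add_mul, div_mul_cancel₀ _ h1.ne']
      exact ⟨h1.le, h2, by linarith⟩
    | succ k ih =>
      obtain ⟨a1, a2, a3⟩ := ih
      rw [show k + 1 + m = 1 + (k + m) by ring, show 1 + (1 + (k + m)) = 2 + (k + m) by ring]
      rcases a1.eq_or_lt with e | e
      · simp [z k e.symm]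
      · have := turan (MS_shift h (k + m))
        simp only [zero_add] at this
        exact ⟨a2, nonneg_of_mul_nonneg_right this.1 e |> fun h => by nlinarith [this.1],
          by nlinarith [this.2]⟩
  have b : ∀ k, δ (k + m) ≤ δ m * ρ ^ k := fun k => by
    induction k with
    | zero => simp
    | succ k ih =>
      rw [show k + 1 + m = 1 + (k + m) by ring, pow_succ]
      nlinarith [(key k).2.2]
  refine ⟨fun n => ?_, ρ, ρ0.le, δ m / ρ ^ m, fun n => ?_⟩ <;> rcases lt_or_ge n m with hn | hn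
  · exact (h0 n hn).ge
  · simpa [Nat.sub_add_cancel hn] using (key (n - m)).1
  · rw [h0 n hn]; positivity
  · obtain ⟨k, rfl⟩ := Nat.exists_eq_add_of_le' hn
    refine (b k).trans_eq ?_
    rw [pow_add]; field_simp

end Pool.Agent.H28.HermC
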