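import Mathlib

set_option autoImplicit false

namespace Pool.Agent.H28.Hur

open Filter Topology MeasureTheory Set Metric Complex

/-- a zero free entire function of order two and finite type is a Gaussian -/
lemma quad (G : ℂ → ℂ) (hG : Differentiable ℂ G) (h0 : ∀ w, G w ≠ 0) (A B : ℝ) (hB : 0 < B)
    (hb : ∀ w, ‖G w‖ ≤ A * Real.exp (B * ‖w‖ ^ 2)) :
    ∃ c₁ c₂ : ℂ, ∀ w, G w = G 0 * exp (c₁ * w + c₂ * w ^ 2) := by
  obtain ⟨η, η0, hη⟩ := (show Differentiable ℂ fun w => deriv G w / G w from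
    hG.deriv.div hG h0).isExactOn_univ.with_val_at 0 0
  have dη : Differentiable ℂ η := fun z => (hη z trivial).differentiableAt
  have e : ∀ w, G w = G 0 * exp (η w) := fun w => by
    have := is_const_of_deriv_eq_zero (f := fun w => G w * exp (-η w)) (by fun_prop) (fun z => by
      refine ((hG z).hasDerivAt.mul (hη z trivial).neg.cexp).deriv.trans ?_
      have := h0 z; simp only [Pi.neg_apply]; field_simp; ring) w 0
    simp only [η0, neg_zero, exp_zero, mul_one] at this
    rw [← this, mul_assoc, ← exp_add]; simp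
  have g0 := norm_pos_iff.2 (h0 0)
  have A0 : ‖G 0‖ ≤ A := by simpa using hb 0
  set K := Real.log (A / ‖G 0‖)
  have K0 : 0 ≤ K := Real.log_nonneg ((one_le_div g0).2 A0)
  have re : ∀ w, (η w).re ≤ K + B * ‖w‖ ^ 2 := fun w => by
    have := hb w
    rw [e, norm_mul, norm_exp] at this
    rw [← Real.exp_le_exp, Real.exp_add, Real.exp_log (div_pos (g0.trans_le A0) g0),
      div_mul_eq_mul_div, le_div_iff₀' g0]; exact this
  have nb : ∀ w, 1 ≤ ‖w‖ → ‖η w‖ ≤ (2 * K + 8 * B) * ‖w‖ ^ 2 := fun w hw => by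
    have := borelCaratheodory_zero (M := K + B * (2 * ‖w‖) ^ 2) (R := 2 * ‖w‖) (z := w)
      (by positivity) dη.differentiableOn (fun z hz => (re z).trans (by
        have := (mem_ball_zero_iff.1 hz).le; gcongr)) (by positivity)
      (mem_ball_zero_iff.2 (by linarith)) η0
    rw [show 2 * ‖w‖ - ‖w‖ = ‖w‖ by ring, mul_div_cancel_right₀ _ (by positivity)] at this
    nlinarith [mul_le_mul_of_nonneg_left (one_le_pow₀ hw : 1 ≤ ‖w‖ ^ 2) K0]
  have ds : ∀ f : ℂ → ℂ, Differentiable ℂ f → Differentiable ℂ (dslope f 0) := fun f hf =>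
    differentiableOn_univ.1 ((differentiableOn_dslope univ_mem).2 hf.differentiableOn)
  set η₁ := dslope η 0
  set η₂ := dslope η₁ 0
  have e1 : ∀ w, η w = η₁ 0 * w + η₂ w * w ^ 2 := fun w => by
    have h1 := sub_smul_dslope η 0 w
    have h2 := sub_smul_dslope η₁ 0 w
    simp only [sub_zero, smul_eq_mul, η0] at h1 h2
    linear_combination -h1 - w * h2
  obtain ⟨C, hC⟩ := (isCompact_closedBall (0 : ℂ) 1).exists_bound_of_continuousOn
    (ds _ (ds _ dη)).continuous.continuousOn
  obtain ⟨c, hc⟩ := (ds _ (ds _ dη)).exists_const_forall_eq_of_bounded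
    (isBounded_iff_forall_norm_le.2 ⟨max C (2 * K + 8 * B + ‖η₁ 0‖), by
      rintro _ ⟨w, rfl⟩
      rcases le_total ‖w‖ 1 with h | h
      · exact le_max_of_le_left (hC w (mem_closedBall_zero_iff.2 h))
      · refine le_max_of_le_right (le_of_mul_le_mul_right ?_ (show 0 < ‖w‖ ^ 2 by positivity))
        have h1 := norm_sub_le (η w) (η₁ 0 * w)
        rw [e1, add_sub_cancel_left, ← e1, norm_mul, norm_mul, norm_pow] at h1
        have := nb w h
        nlinarith [mul_le_mul_of_nonneg_left (show ‖w‖ ≤ ‖w‖ ^ 2 by nlinarith) (norm_nonneg (η₁ 0))]⟩)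
  exact ⟨η₁ 0, c, fun w => by rw [e, e1, ← hc w]⟩

lemma hurwitz (G : ℂ → ℂ) (hG : Differentiable ℂ G) (w₀ w₁ : ℂ) (h0 : G w₀ = 0) (h1 : G w₁ ≠ 0) :
    ∃ r > 0, ∃ m > 0, ∀ f : ℂ → ℂ, DifferentiableOn ℂ f (closedBall w₀ r) →
      (∀ w ∈ closedBall w₀ r, ‖f w - G w‖ < m) → ∃ w ∈ closedBall w₀ r, f w = 0 := by
  have an : AnalyticOnNhd ℂ G univ := fun z _ => hG.analyticAt z
  have := (an w₀ trivial).eventually_eq_zero_or_eventually_ne_zero.resolve_left fun h =>
    h1 (an.eqOn_zero_of_preconnected_of_eventuallyEq_zero isPreconnected_univ trivial h trivial)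
  obtain ⟨ε, ε0, hε⟩ := Metric.eventually_nhds_iff_ball.1 (eventually_nhdsWithin_iff.1 this)
  have r0 : 0 < ε / 2 := half_pos ε0
  obtain ⟨z, hz, hm⟩ := (isCompact_sphere w₀ (ε / 2)).exists_isMinOn
    (NormedSpace.sphere_nonempty.2 r0.le) hG.continuous.norm.continuousOn
  have z0 : 0 < ‖G z‖ := norm_pos_iff.2 (hε z (sphere_subset_ball (half_lt_self ε0) hz)
    (ne_of_mem_sphere hz r0.ne'))
  refine ⟨ε / 2, r0, ‖G z‖ / 2, half_pos z0, fun f hf hb => ?_⟩
  by_contra! h
  have := norm_le_of_forall_mem_frontier_norm_le (f := fun w => (f w)⁻¹) isBounded_ball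
    (DifferentiableOn.diffContOnCl (by rw [closure_ball _ r0.ne']; exact hf.inv h))
    (C := (‖G z‖ / 2)⁻¹) (fun w hw => by
      rw [frontier_ball _ r0.ne'] at hw
      have h2 : ‖G z‖ ≤ ‖G w‖ := hm hw
      have h3 := hb w (sphere_subset_closedBall hw)
      have h4 := norm_sub_norm_le (G w) (f w)
      rw [norm_sub_rev] at h4
      rw [norm_inv]; exact inv_anti₀ (half_pos z0) (by linarith))
    (subset_closure (mem_ball_self r0))
  have h3 := hb w₀ (mem_closedBall_self r0.le)
  rw [h0, sub_zero] at h3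
  rw [norm_inv] at this
  exact this.not_gt (inv_strictAnti₀ (norm_pos_iff.2 (h _ (mem_closedBall_self r0.le))) h3)

/-- one sided Fourier transform -/
noncomputable def T (g : ℝ → ℝ) (w : ℂ) : ℂ := ∫ s in Ioi (0 : ℝ), g s * exp (I * w * s)

lemma nexp (g : ℝ → ℝ) (w : ℂ) (R s : ℝ) (hw : ‖w‖ ≤ R) (hs : 0 ≤ s) :
    ‖g s * exp (I * w * s)‖ ≤ |g s| * Real.exp (R * s) := by
  rw [norm_mul, norm_real]
  refine mul_le_mul_of_nonneg_left ((norm_exp_le_exp_norm _).trans ?_) (abs_nonneg _)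
  rw [norm_mul, norm_mul, norm_I, one_mul, norm_real, Real.norm_of_nonneg hs]; gcongr

lemma T_int (g : ℝ → ℝ) (hg : Measurable g) (R : ℝ)
    (h : IntegrableOn (fun s => |g s| * Real.exp (R * s)) (Ioi 0)) (w : ℂ) (hw : ‖w‖ ≤ R) :
    IntegrableOn (fun s : ℝ => g s * exp (I * w * s)) (Ioi 0) :=
  h.mono' (Measurable.aestronglyMeasurable (by fun_prop))
    ((ae_restrict_mem measurableSet_Ioi).mono fun s hs => nexp g w R s hw (le_of_lt hs))

lemma T_diff (g : ℝ → ℝ) (hg : Measurable g) (R : ℝ)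
    (h : IntegrableOn (fun s => |g s| * Real.exp ((R + 1) * s)) (Ioi 0)) :
    DifferentiableOn ℂ (T g) (ball 0 R) := fun w hw => by
  refine (hasDerivAt_integral_of_dominated_loc_of_deriv_le (isOpen_ball.mem_nhds hw)
    (F := fun w (s : ℝ) => g s * exp (I * w * s)) (μ := volume.restrict (Ioi 0))
    (F' := fun w (s : ℝ) => g s * (exp (I * w * s) * (I * s)))
    (Eventually.of_forall fun w => Measurable.aestronglyMeasurable (by fun_prop))
    (T_int g hg _ h w (by linarith [mem_ball_zero_iff.1 hw]))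
    (Measurable.aestronglyMeasurable (by fun_prop))
    ((ae_restrict_mem measurableSet_Ioi).mono fun s (hs : 0 < s) z hz => ?_) h
    (Eventually.of_forall fun s z _ => ?_)).2.differentiableAt.differentiableWithinAt
  · rw [← mul_assoc, norm_mul, norm_mul I, norm_I, one_mul, norm_real, Real.norm_of_nonneg hs.le,
      add_mul, Real.exp_add, ← mul_assoc, one_mul]
    exact mul_le_mul (nexp g z R s (mem_ball_zero_iff.1 hz).le hs.le)
      (by linarith [Real.add_one_le_exp s]) hs.le (by positivity)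
  · simpa using ((((hasDerivAt_id z).const_mul I).mul_const (s : ℂ)).cexp).const_mul (g s : ℂ)

lemma gauss_int (b R : ℝ) (hb : 0 < b) :
    IntegrableOn (fun s => |Real.exp (-b * s ^ 2)| * Real.exp (R * s)) (Ioi 0) := by
  refine (((integrable_exp_neg_mul_sq (half_pos hb)).mul_const
    (Real.exp (R ^ 2 / (2 * b)))).integrableOn).mono'
    (Measurable.aestronglyMeasurable (by fun_prop)) (Eventually.of_forall fun s => ?_)
  rw [Real.norm_of_nonneg (by positivity), abs_of_pos (Real.exp_pos _), ← Real.exp_add,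
    ← Real.exp_add, Real.exp_le_exp]
  have : 0 ≤ (b * s - R) ^ 2 / (2 * b) := by positivity
  have e : (b * s - R) ^ 2 / (2 * b) = b / 2 * s ^ 2 - R * s + R ^ 2 / (2 * b) := by
    field_simp; ring
  linarith

lemma T_gauss_diff (b : ℝ) (hb : 0 < b) : Differentiable ℂ (T fun s => Real.exp (-b * s ^ 2)) :=
  fun w => (T_diff _ (by fun_prop) (‖w‖ + 1) (gauss_int b _ hb)).differentiableAt
    (isOpen_ball.mem_nhds (mem_ball_zero_iff.2 (by linarith)))

lemma T_real (g : ℝ → ℝ) (τ : ℝ) :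
    T g (I * τ) = (∫ s in Ioi (0 : ℝ), g s * Real.exp (-τ * s) : ℝ) := by
  rw [T, ← integral_complex_ofReal]
  refine integral_congr_ae (Eventually.of_forall fun s => ?_)
  simp only [coe_algebraMap, ofReal_mul, ofReal_exp, ofReal_neg]
  congr 2; linear_combination (τ * s : ℂ) * I_sq

/-- the half Gaussian transform has a zero -/
lemma gauss_zero (b : ℝ) (hb : 0 < b) : (∃ w, T (fun s => Real.exp (-b * s ^ 2)) w = 0) ∧
    T (fun s => Real.exp (-b * s ^ 2)) 0 ≠ 0 := by
  set g : ℝ → ℝ := fun τ => ∫ s in Ioi (0 : ℝ), Real.exp (-b * s ^ 2) * Real.exp (-τ * s) with hg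
  have gi : ∀ τ, IntegrableOn (fun s => Real.exp (-b * s ^ 2) * Real.exp (-τ * s)) (Ioi 0) :=
    fun τ => by simpa only [abs_of_pos (Real.exp_pos _)] using gauss_int b (-τ) hb
  have low : ∀ B τ : ℝ, 0 ≤ B → 0 ≤ τ → Real.exp (-b * (B + 1) ^ 2 + τ * B) ≤ g (-τ) := by
    intro B τ hB hτ
    refine le_trans ?_ (setIntegral_mono_set (s := Ioo B (B + 1)) (gi _)
      (Eventually.of_forall fun s => by positivity)
      (Eventually.of_forall fun s hs => hB.trans_lt hs.1))
    have := setIntegral_mono_on (μ := volume) (s := Ioo B (B + 1))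
      (f := fun _ => Real.exp (-b * (B + 1) ^ 2 + τ * B)) (integrableOn_const (by simp))
      ((gi (-τ)).mono_set fun s hs => hB.trans_lt hs.1) measurableSet_Ioo fun s hs => by
        rw [← Real.exp_add, Real.exp_le_exp]
        have := hs.1; have := hs.2
        nlinarith [mul_le_mul_of_nonneg_left this.le hb.le,
          mul_le_mul_of_nonneg_left (pow_le_pow_left₀ (by linarith) hs.2.le 2) hb.le]
    simpa using this
  have g0 : 0 < g 0 := by simpa using (Real.exp_pos _).trans_le (low 0 0 le_rfl le_rfl)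
  have T0 : T (fun s => Real.exp (-b * s ^ 2)) 0 = g 0 := by
    have := T_real (fun s => Real.exp (-b * s ^ 2)) 0
    rwa [ofReal_zero, mul_zero] at this
  refine ⟨?_, by rw [T0]; exact_mod_cast g0.ne'⟩
  by_contra! h
  obtain ⟨c₁, c₂, hc⟩ := quad _ (T_gauss_diff b hb) h
    (∫ s in Ioi (0 : ℝ), Real.exp (-(b / 2) * s ^ 2)) (1 / (2 * b)) (by positivity) fun w => by
      rw [← integral_mul_const]
      refine norm_integral_le_of_norm_le ((integrable_exp_neg_mul_sq (half_pos hb)).mul_const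
        _).integrableOn ((ae_restrict_mem measurableSet_Ioi).mono fun s (hs : 0 < s) =>
          (nexp (fun s => Real.exp (-b * s ^ 2)) w _ s le_rfl hs.le).trans ?_)
      rw [abs_of_pos (Real.exp_pos _), ← Real.exp_add, ← Real.exp_add, Real.exp_le_exp]
      have : 0 ≤ (b * s - ‖w‖) ^ 2 / (2 * b) := by positivity
      have e : (b * s - ‖w‖) ^ 2 / (2 * b) = b / 2 * s ^ 2 - ‖w‖ * s + 1 / (2 * b) * ‖w‖ ^ 2 := by
        field_simp; ring
      linarith
  have e : ∀ τ : ℝ, |g τ| = g 0 * Real.exp (-c₁.im * τ - c₂.re * τ ^ 2) := fun τ => by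
    have := congrArg norm (hc (I * τ))
    rw [T_real, T0, norm_mul, norm_exp, norm_real, norm_real, Real.norm_of_nonneg g0.le] at this
    rw [← Real.norm_eq_abs, this]; congr 2
    simp [mul_pow, ← ofReal_pow]; ring
  have up : ∀ τ : ℝ, 0 ≤ τ → -c₁.im * τ - c₂.re * τ ^ 2 ≤ 0 := fun τ hτ => by
    have : |g τ| ≤ g 0 := by
      rw [abs_of_nonneg (integral_nonneg fun s => by positivity)]
      refine setIntegral_mono_on (gi _) (gi _) measurableSet_Ioi fun s (hs : 0 < s) => ?_
      gcongr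
    rw [e] at this
    exact Real.exp_le_one_iff.1 (le_of_mul_le_mul_left (by simpa using this) g0)
  have c2 : 0 ≤ c₂.re := by
    by_contra! h2
    have p : 0 < (|c₁.im| + 1) / -c₂.re := div_pos (by positivity) (by linarith)
    have := up _ p.le
    have e2 : -c₂.re * ((|c₁.im| + 1) / -c₂.re) = |c₁.im| + 1 := mul_div_cancel₀ _ (by linarith)
    nlinarith [le_abs_self c₁.im]
  set B := |c₁.im| + 1
  set τ := |Real.log (g 0)| + b * (B + 1) ^ 2 + 1
  have t0 : 0 ≤ τ := by positivity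
  have := (low B τ (by positivity) t0).trans (le_abs_self _)
  rw [e, ← Real.exp_log g0, ← Real.exp_add, Real.exp_le_exp] at this
  nlinarith [le_abs_self (Real.log (g 0)), mul_le_mul_of_nonneg_right (le_abs_self c₁.im) t0,
    mul_nonneg c2 (sq_nonneg τ)]

end Pool.Agent.H28.Hur
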