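import Mathlib

set_option autoImplicit false

namespace Pool.Agent.H28.IdemA

structure Hyp {D : Type} [DivisionRing D] (w : D → ℝ → ℝ) : Prop where
  mul : ∀ x y : D, x ≠ 0 → y ≠ 0 → ∀ t, w (x * y) t = w x (w y t)
  mono : ∀ x : D, x ≠ 0 → StrictMono (w x)
  add : ∀ x y : D, x ≠ 0 → y ≠ 0 → x + y ≠ 0 → ∀ t, min (w x t) (w y t) ≤ w (x + y) t
  aff : ∀ a b : ℝ, 0 < a → ∃ g : D, g ≠ 0 ∧ ∀ t, w g t = a * t + b

variable {D : Type} [DivisionRing D] {w : D → ℝ → ℝ}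

lemma Hyp.one (H : Hyp w) (t : ℝ) : w 1 t = t := by
  have h := H.mul 1 1 one_ne_zero one_ne_zero t
  rw [mul_one] at h
  exact ((H.mono 1 one_ne_zero).injective h).symm

lemma Hyp.neg_one (H : Hyp w) (t : ℝ) : w (-1) t = t := by
  have h0 : (-1 : D) ≠ 0 := neg_ne_zero.2 one_ne_zero
  have h := H.mul (-1) (-1) h0 h0 t
  rw [neg_mul_neg, mul_one, H.one] at h
  rcases lt_trichotomy (w (-1) t) t with h1 | h1 | h1
  · have := H.mono _ h0 h1
    linarith
  · exact h1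
  · have := H.mono _ h0 h1
    linarith

lemma Hyp.neg (H : Hyp w) (x : D) (hx : x ≠ 0) (t : ℝ) : w (-x) t = w x t := by
  have h0 : (-1 : D) ≠ 0 := neg_ne_zero.2 one_ne_zero
  have h := H.mul (-1) x h0 hx t
  rw [neg_one_mul, H.neg_one] at h
  exact h

lemma Hyp.inv_l (H : Hyp w) (x : D) (hx : x ≠ 0) (t : ℝ) : w x⁻¹ (w x t) = t := by
  rw [← H.mul _ _ (inv_ne_zero hx) hx, inv_mul_cancel₀ hx, H.one]

lemma Hyp.inv_r (H : Hyp w) (x : D) (hx : x ≠ 0) (t : ℝ) : w x (w x⁻¹ t) = t := by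
  rw [← H.mul _ _ hx (inv_ne_zero hx), mul_inv_cancel₀ hx, H.one]

lemma Hyp.steep (H : Hyp w) (u t c : ℝ) (h : u < t) :
    ∃ g : D, g ≠ 0 ∧ w g u < c ∧ 1 < w g t := by
  have hp : 0 < t - u := by linarith
  have ha : 0 < (|c - 1| + 2) / (t - u) := div_pos (by positivity) hp
  obtain ⟨g, hg, hw⟩ := H.aff ((|c - 1| + 2) / (t - u)) (c - 1 - (|c - 1| + 2) / (t - u) * u) ha
  refine ⟨g, hg, by rw [hw]; linarith, ?_⟩
  rw [hw]
  have h1 : (|c - 1| + 2) / (t - u) * (t - u) = |c - 1| + 2 := div_mul_cancel₀ _ hp.ne'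
  have h2 : -(c - 1) ≤ |c - 1| := neg_le_abs _
  nlinarith

/-- The additive group of elements moving `t` above `1`. -/
def AG (H : Hyp w) (t : ℝ) : AddSubgroup D where
  carrier := {x | x ≠ 0 → 1 < w x t}
  zero_mem' := fun h => absurd rfl h
  add_mem' := by
    intro x y hx hy hxy
    by_cases h1 : x = 0
    · subst h1
      rw [zero_add] at hxy ⊢
      exact hy hxy
    by_cases h2 : y = 0
    · subst h2
      rw [add_zero] at hxy ⊢
      exact hx hxy
    exact lt_of_lt_of_le (lt_min (hx h1) (hy h2)) (H.add x y h1 h2 hxy t)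
  neg_mem' := by
    intro x hx h
    have h1 : x ≠ 0 := neg_ne_zero.1 h
    rw [H.neg x h1]
    exact hx h1

lemma mem_AG (H : Hyp w) (t : ℝ) (x : D) : x ∈ AG H t ↔ (x ≠ 0 → 1 < w x t) := Iff.rfl

/-- The ring. -/
def A (H : Hyp w) : NonUnitalSubring D where
  __ := AG H 0
  mul_mem' := by
    intro x y hx hy hxy
    have h1 : x ≠ 0 := left_ne_zero_of_mul hxy
    have h2 : y ≠ 0 := right_ne_zero_of_mul hxy
    rw [H.mul x y h1 h2]
    have h3 : (0 : ℝ) < w y 0 := lt_trans one_pos (hy h2)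
    exact lt_trans (hx h1) (H.mono x h1 h3)

lemma mem_A (H : Hyp w) (x : D) : x ∈ A H ↔ (x ≠ 0 → 1 < w x 0) := Iff.rfl

lemma exists_ne (H : Hyp w) : ∃ x : A H, x ≠ 0 := by
  obtain ⟨g, hg, -, h⟩ := H.steep (-1) 0 0 (by norm_num)
  exact ⟨⟨g, fun _ => h⟩, fun h0 => hg (congrArg Subtype.val h0)⟩

lemma simple (H : Hyp w) : IsSimpleRing (A H) := by
  obtain ⟨x0, hx0⟩ := exists_ne H
  haveI : Nontrivial (A H) := ⟨⟨x0, 0, hx0⟩⟩
  refine IsSimpleRing.of_eq_bot_or_eq_top fun I => ?_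
  by_cases hI : I = ⊥
  · exact Or.inl hI
  right
  obtain ⟨x, hxI, hx⟩ : ∃ x ∈ I, x ≠ 0 := by
    by_contra hc
    push Not at hc
    exact hI (eq_bot_iff.2 fun z hz => by simpa using hc z hz)
  have hx' : (x : D) ≠ 0 := fun h => hx (Subtype.ext h)
  refine eq_top_iff.2 fun y _ => ?_
  by_cases hy : y = 0
  · rw [hy]; exact I.zero_mem
  have hy' : (y : D) ≠ 0 := fun h => hy (Subtype.ext h)
  have hu : w (y : D)⁻¹ 1 < 0 := by
    apply (H.mono _ hy').lt_iff_lt.1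
    rw [H.inv_r _ hy']
    exact y.2 hy'
  obtain ⟨b, hb, hb1, hb2⟩ := H.steep _ _ (w (x : D)⁻¹ 0) hu
  have ha : (y : D) * b⁻¹ * (x : D)⁻¹ ∈ A H := by
    intro _
    rw [H.mul _ _ (mul_ne_zero hy' (inv_ne_zero hb)) (inv_ne_zero hx'),
      H.mul _ _ hy' (inv_ne_zero hb)]
    have h1 : w (y : D)⁻¹ 1 < w b⁻¹ (w (x : D)⁻¹ 0) := by
      apply (H.mono _ hb).lt_iff_lt.1
      rw [H.inv_r _ hb]
      exact hb1
    have h2 := H.mono _ hy' h1
    rwa [H.inv_r _ hy'] at h2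
  have hE : y = (⟨_, ha⟩ : A H) * x * (⟨b, fun _ => hb2⟩ : A H) := by
    apply Subtype.ext
    change (y : D) = (y : D) * b⁻¹ * (x : D)⁻¹ * x * b
    rw [inv_mul_cancel_right₀ hx', inv_mul_cancel_right₀ hb]
  rw [hE]
  exact I.mul_mem_right _ _ (I.mul_mem_left _ _ hxI)

lemma no_unit (H : Hyp w) (e : A H) (he : ∀ x : A H, e * x = x) : False := by
  obtain ⟨x0, hx0⟩ := exists_ne H
  have hx' : (x0 : D) ≠ 0 := fun h => hx0 (Subtype.ext h)
  have h1 : (e : D) * x0 = x0 := congrArg Subtype.val (he x0)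
  have h2 : (e : D) = 1 := mul_right_cancel₀ hx' (by rw [h1, one_mul])
  have h3 := e.2 (by rw [h2]; exact one_ne_zero)
  rw [h2, H.one] at h3
  linarith

lemma classify (H : Hyp w) (L : NonUnitalSubring (A H)) (hL : L ≠ ⊥)
    (hl : ∀ r x : A H, x ∈ L → r * x ∈ L)
    (hc : AddSubgroup.closure {z : A H | ∃ a ∈ L, ∃ b ∈ L, z = a * b} = L.toAddSubgroup) :
    ∃ t : ℝ, t ≤ 0 ∧ ∀ y : A H, y ∈ L ↔ (y : D) ∈ AG H t := by
  set U : Set ℝ := {u | ∃ x : A H, x ∈ L ∧ (x : D) ≠ 0 ∧ u = w (x : D)⁻¹ 1} with hU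
  have hub : ∀ u ∈ U, u ≤ 0 := by
    rintro u ⟨x, -, hx, rfl⟩
    apply le_of_lt
    apply (H.mono _ hx).lt_iff_lt.1
    rw [H.inv_r _ hx]
    exact x.2 hx
  have hne : U.Nonempty := by
    by_contra hn
    apply hL
    refine eq_bot_iff.2 fun x hx => ?_
    by_contra h0
    have h0' : (x : D) ≠ 0 := fun h => h0 (NonUnitalSubring.mem_bot.2 (Subtype.ext h : x = 0))
    exact hn ⟨_, x, hx, h0', rfl⟩
  have hbd : BddAbove U := ⟨0, hub⟩
  refine ⟨sSup U, csSup_le hne hub, fun y => ⟨fun hy => ?_, fun hy => ?_⟩⟩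
  · have h1 : y ∈ AddSubgroup.closure {z : A H | ∃ a ∈ L, ∃ b ∈ L, z = a * b} := by
      rw [hc]; exact hy
    have h2 : AddSubgroup.closure {z : A H | ∃ a ∈ L, ∃ b ∈ L, z = a * b} ≤
        (AG H (sSup U)).comap (A H).toAddSubgroup.subtype := by
      rw [AddSubgroup.closure_le]
      rintro z ⟨a, -, b, hb, rfl⟩ hab
      change (a : D) * b ≠ 0 at hab
      change 1 < w ((a : D) * b) _
      have h1 : (a : D) ≠ 0 := left_ne_zero_of_mul hab
      have h2 : (b : D) ≠ 0 := right_ne_zero_of_mul hab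
      rw [H.mul _ _ h1 h2]
      have h3 : w (b : D)⁻¹ 1 ≤ sSup U := le_csSup hbd ⟨b, hb, h2, rfl⟩
      have h4 := (H.mono _ h2).monotone h3
      rw [H.inv_r _ h2] at h4
      have h5 : (0 : ℝ) < w (b : D) (sSup U) := by linarith
      exact lt_trans (a.2 h1) (H.mono _ h1 h5)
    exact h2 h1
  · by_cases hy0 : (y : D) = 0
    · have : y = 0 := Subtype.ext hy0
      rw [this]; exact L.zero_mem
    have hu : w (y : D)⁻¹ 1 < sSup U := by
      apply (H.mono _ hy0).lt_iff_lt.1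
      rw [H.inv_r _ hy0]
      exact hy hy0
    obtain ⟨u, ⟨x, hxL, hx, rfl⟩, hux⟩ := exists_lt_of_lt_csSup hne hu
    set r : D := (y : D) * (x : D)⁻¹ with hr
    have hr0 : r ≠ 0 := mul_ne_zero hy0 (inv_ne_zero hx)
    have hr1 : 1 < w r 1 := by
      rw [hr, H.mul _ _ hy0 (inv_ne_zero hx)]
      have := H.mono _ hy0 hux
      rwa [H.inv_r _ hy0] at this
    have hmem : ∀ z : A H, r * z ∈ A H := by
      intro z hz
      have h2 : (z : D) ≠ 0 := right_ne_zero_of_mul hz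
      rw [H.mul _ _ hr0 h2]
      exact lt_trans hr1 (H.mono _ hr0 (z.2 h2))
    let φ : A H →+ A H :=
      { toFun := fun z => ⟨r * z, hmem z⟩
        map_zero' := Subtype.ext (by simp)
        map_add' := fun a b => Subtype.ext (by simp [mul_add]) }
    have h2 : AddSubgroup.closure {z : A H | ∃ a ∈ L, ∃ b ∈ L, z = a * b} ≤
        L.toAddSubgroup.comap φ := by
      rw [AddSubgroup.closure_le]
      rintro z ⟨a, -, b, hb, rfl⟩
      have : φ (a * b) = φ a * b := Subtype.ext (by simp [φ, mul_assoc])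
      change φ (a * b) ∈ L
      rw [this]
      exact hl _ _ hb
    have h1 : x ∈ AddSubgroup.closure {z : A H | ∃ a ∈ L, ∃ b ∈ L, z = a * b} := by
      rw [hc]; exact hxL
    have h3 : φ x ∈ L := h2 h1
    have h4 : φ x = y := Subtype.ext (by
      change r * x = y
      rw [hr, inv_mul_cancel_right₀ hx])
    rwa [h4] at h3

lemma iso (H : Hyp w) (L : NonUnitalSubring (A H)) (t : ℝ) (ht : t ≤ 0)
    (hL : ∀ y : A H, y ∈ L ↔ (y : D) ∈ AG H t) : Nonempty (L ≃+* A H) := by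
  have hp : 0 < 1 - t := by linarith
  obtain ⟨g, hg, hw⟩ := H.aff (1 / (1 - t)) (1 - 1 / (1 - t)) (by positivity)
  have hg1 : w g 1 = 1 := by rw [hw]; ring
  have hgt : w g t = 0 := by rw [hw]; field_simp; ring
  have hi1 : w g⁻¹ 1 = 1 := by
    have := H.inv_l g hg 1
    rwa [hg1] at this
  have hi0 : w g⁻¹ 0 = t := by
    have := H.inv_l g hg t
    rwa [hgt] at this
  have hmem : ∀ y : L, g * ((y : A H) : D) * g⁻¹ ∈ A H := by
    intro y hy
    have h2 : ((y : A H) : D) ≠ 0 := right_ne_zero_of_mul (left_ne_zero_of_mul hy)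
    rw [H.mul _ _ (mul_ne_zero hg h2) (inv_ne_zero hg), H.mul _ _ hg h2, hi0]
    have := H.mono _ hg ((hL y).1 y.2 h2)
    rwa [hg1] at this
  let f : L →ₙ+* A H :=
    { toFun := fun y => ⟨_, hmem y⟩
      map_zero' := Subtype.ext (by simp)
      map_add' := fun a b => Subtype.ext (by simp [mul_add, add_mul])
      map_mul' := fun a b => Subtype.ext (by
        change g * (((a : A H) : D) * ((b : A H) : D)) * g⁻¹ =
          g * ((a : A H) : D) * g⁻¹ * (g * ((b : A H) : D) * g⁻¹)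
        simp only [mul_assoc, inv_mul_cancel_left₀ hg]) }
  refine ⟨RingEquiv.ofBijective f ⟨fun a b hab => ?_, fun z => ?_⟩⟩
  · have h1 : g * ((a : A H) : D) * g⁻¹ = g * ((b : A H) : D) * g⁻¹ := congrArg Subtype.val hab
    have h2 := mul_left_cancel₀ hg (mul_right_cancel₀ (inv_ne_zero hg) h1)
    exact Subtype.ext (Subtype.ext h2)
  · have h1 : g⁻¹ * (z : D) * g ∈ AG H t := by
      intro hy
      have h2 : (z : D) ≠ 0 := right_ne_zero_of_mul (left_ne_zero_of_mul hy)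
      rw [H.mul _ _ (mul_ne_zero (inv_ne_zero hg) h2) hg, H.mul _ _ (inv_ne_zero hg) h2, hgt]
      have := H.mono _ (inv_ne_zero hg) (z.2 h2)
      rwa [hi1] at this
    have h2 : g⁻¹ * (z : D) * g ∈ A H := by
      intro hy
      exact lt_of_lt_of_le (h1 hy) ((H.mono _ hy).monotone ht)
    refine ⟨⟨⟨_, h2⟩, (hL _).2 h1⟩, Subtype.ext ?_⟩
    change g * (g⁻¹ * (z : D) * g) * g⁻¹ = z
    simp only [← mul_assoc, mul_inv_cancel₀ hg, one_mul, mul_inv_cancel_right₀ hg]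

theorem main (H : Hyp w) :
    ∃ (R : Type) (inst : NonUnitalRing R),
      IsSimpleRing R ∧ NoZeroDivisors R ∧
      (¬ ∃ e : R, (∀ x : R, e * x = x ∧ x * e = x) ∧
          ∀ x : R, x ≠ 0 → ∃ y : R, x * y = e ∧ y * x = e) ∧
      ∀ L : NonUnitalSubring R, L ≠ ⊥ →
        (∀ r x : R, x ∈ L → r * x ∈ L) →
        AddSubgroup.closure {z : R | ∃ a ∈ L, ∃ b ∈ L, z = a * b} = L.toAddSubgroup →
        Nonempty (L ≃+* R) := by
  refine ⟨A H, inferInstance, simple H, ⟨fun {a b} h => ?_⟩, ?_, fun L h1 h2 h3 => ?_⟩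
  · have h1 : (a : D) * b = 0 := congrArg Subtype.val h
    rcases mul_eq_zero.1 h1 with h2 | h2
    · exact Or.inl (Subtype.ext h2)
    · exact Or.inr (Subtype.ext h2)
  · rintro ⟨e, he, -⟩
    exact no_unit H e fun x => (he x).1
  · obtain ⟨t, ht, hL⟩ := classify H L h1 h2 h3
    exact iso H L t ht hL

end Pool.Agent.H28.IdemA
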