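import Mathlib
import Pool.Agent.H28.IdemA

set_option autoImplicit false

namespace Pool.Agent.H28.IdemB

open SkewMonoidAlgebra Pointwise

/-- Folner sets in abelian groups. -/
lemma card_pow_le {G : Type} [CommGroup G] [DecidableEq G] (T : Finset G) (n : ℕ) :
    (T ^ n).card ≤ (n + 1) ^ T.card := by
  have h : ∀ n : ℕ, ∀ x ∈ T ^ n, ∃ f : G → ℕ, (∀ g, f g ≤ n) ∧ x = ∏ g ∈ T, g ^ f g := by
    intro n
    induction n with
    | zero =>
      intro x hx
      rw [pow_zero, Finset.mem_one] at hx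
      exact ⟨fun _ => 0, fun _ => le_rfl, by simp [hx]⟩
    | succ n ih =>
      intro x hx
      rw [pow_succ, Finset.mem_mul] at hx
      obtain ⟨y, hy, a, ha, rfl⟩ := hx
      obtain ⟨f, hf, rfl⟩ := ih y hy
      refine ⟨fun g => f g + if g = a then 1 else 0, fun g => ?_, ?_⟩
      · have := hf g
        dsimp only
        split_ifs <;> omega
      · simp only [pow_add, Finset.prod_mul_distrib, pow_ite, pow_one, pow_zero,
          Finset.prod_ite_eq', ha, if_true]
  have h2 : T ^ n ⊆ Finset.univ.image (fun f : T → Fin (n + 1) => ∏ g : T, (g : G) ^ (f g : ℕ)) := by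
    intro x hx
    obtain ⟨f, hf, rfl⟩ := h n x hx
    refine Finset.mem_image.2 ⟨fun g => ⟨f g, Nat.lt_succ_of_le (hf g)⟩, Finset.mem_univ _, ?_⟩
    exact Finset.prod_coe_sort T (fun g => g ^ f g)
  refine (Finset.card_le_card h2).trans (Finset.card_image_le.trans ?_)
  simp

lemma folner {G : Type} [CommGroup G] [DecidableEq G] (T : Finset G) (hT : T.Nonempty) :
    ∃ F : Finset G, (F * T).card < 2 * F.card := by
  by_contra hc
  push Not at hc
  have h1 : ∀ n : ℕ, 2 ^ n ≤ (T ^ n).card := by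
    intro n
    induction n with
    | zero => simp
    | succ n ih =>
      have := hc (T ^ n)
      rw [← pow_succ] at this
      rw [pow_succ]
      omega
  have h2 := tendsto_pow_const_div_const_pow_of_one_lt T.card (r := (2 : ℝ)) one_lt_two
  have h3 := (Filter.tendsto_add_atTop_iff_nat 1).2 h2
  obtain ⟨n, hn⟩ := (h3.eventually (gt_mem_nhds (show (0 : ℝ) < 1 / 2 by norm_num))).exists
  have h4 : (2 : ℝ) ^ n ≤ ((n + 1 : ℕ) : ℝ) ^ T.card := by
    exact_mod_cast (h1 n).trans (card_pow_le T n)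
  rw [div_lt_iff₀ (by positivity), pow_succ] at hn
  nlinarith

variable {K G : Type} [Field K] [CommGroup G] [MulSemiringAction G K]

lemma ore [NoZeroDivisors (SkewMonoidAlgebra K G)] (p q : SkewMonoidAlgebra K G) (hq : q ≠ 0) :
    ∃ u v : SkewMonoidAlgebra K G, u ≠ 0 ∧ u * p = v * q := by
  classical
  obtain ⟨F, hF⟩ := folner (insert 1 (p.support ∪ q.support)) (Finset.insert_nonempty _ _)
  set T := insert 1 (p.support ∪ q.support) with hT
  let E : (F → K) →ₗ[K] SkewMonoidAlgebra K G :=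
    { toFun := fun u => ∑ g : F, single (g : G) (u g)
      map_add' := fun a b => by simp [single_add, Finset.sum_add_distrib]
      map_smul' := fun c a => by simp [Finset.smul_sum, smul_single] }
  have hEc : ∀ (u : F → K) (g : F), (E u).coeff g = u g := by
    intro u g
    change (coeffAddEquiv (∑ g : F, single (g : G) (u g))) (g : G) = u g
    rw [_root_.map_sum, Finset.sum_apply']
    rw [Finset.sum_eq_single g]
    · simp
    · intro b _ hb
      have : (b : G) ≠ g := fun h => hb (Subtype.ext h)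
      simp [Finsupp.single_apply, this]
    · simp
  have hEs : ∀ u : F → K, (E u).support ⊆ F := by
    intro u x hx
    by_contra hxF
    rw [mem_support_iff] at hx
    apply hx
    change (coeffAddEquiv (∑ g : F, single (g : G) (u g))) x = 0
    rw [_root_.map_sum, Finset.sum_apply']
    refine Finset.sum_eq_zero fun b _ => ?_
    have : (b : G) ≠ x := fun h => hxF (h ▸ b.2)
    simp [Finsupp.single_apply, this]
  let Φ : ((F → K) × (F → K)) →ₗ[K] ((F * T : Finset G) → K) :=
    { toFun := fun uv x => (E uv.1 * p - E uv.2 * q).coeff x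
      map_add' := fun a b => by
        funext x
        simp [add_mul]
        ring
      map_smul' := fun c a => by
        funext x
        simp [mul_sub, smul_mul_assoc] }
  have hk : LinearMap.ker Φ ≠ ⊥ := by
    apply LinearMap.ker_ne_bot_of_finrank_lt
    simp only [Module.finrank_prod, Module.finrank_fintype_fun_eq_card, Fintype.card_coe]
    omega
  obtain ⟨uv, huv, h0⟩ := Submodule.exists_mem_ne_zero_of_ne_bot hk
  have hz : E uv.1 * p = E uv.2 * q := by
    rw [← sub_eq_zero]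
    ext x
    by_cases hx : x ∈ F * T
    · exact congrFun huv ⟨x, hx⟩
    · have h1 : (E uv.1 * p).coeff x = 0 := by
        rw [← notMem_support_iff]
        intro h
        refine hx (Finset.mul_subset_mul (hEs _) ?_ (support_mul _ _ h))
        intro y hy
        simp [hT, hy]
      have h2 : (E uv.2 * q).coeff x = 0 := by
        rw [← notMem_support_iff]
        intro h
        refine hx (Finset.mul_subset_mul (hEs _) ?_ (support_mul _ _ h))
        intro y hy
        simp [hT, hy]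
      simp [h1, h2]
  refine ⟨_, _, fun h => h0 ?_, hz⟩
  rw [h, zero_mul] at hz
  have h2 : E uv.2 = 0 := (mul_eq_zero.1 hz.symm).resolve_right hq
  refine Prod.ext (funext fun g => ?_) (funext fun g => ?_)
  · rw [← hEc uv.1 g, h]; simp
  · rw [← hEc uv.2 g, h2]; simp


section Val

abbrev P := {x : ℝ // 0 < x}

variable {L : Type} [Field L] [MulSemiringAction P L] (V : AddValuation L (WithTop ℝ))

/-- `r` is the minimum of `V (p g) + g t`. -/
def IsW (p : SkewMonoidAlgebra L P) (t r : ℝ) : Prop :=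
  (∀ g : P, ((r - g * t : ℝ) : WithTop ℝ) ≤ V (p.coeff g)) ∧
    ∃ g : P, V (p.coeff g) = ((r - g * t : ℝ) : WithTop ℝ)

variable {V}

lemma IsW.ne_zero {p : SkewMonoidAlgebra L P} {t r : ℝ} (h : IsW V p t r) : p ≠ 0 := by
  rintro rfl
  obtain ⟨g, hg⟩ := h.2
  rw [coeff_zero, Finsupp.zero_apply, V.map_zero] at hg
  exact WithTop.top_ne_coe hg

lemma IsW.le {p : SkewMonoidAlgebra L P} {t r r' : ℝ}
    (h' : ∀ g : P, ((r' - g * t : ℝ) : WithTop ℝ) ≤ V (p.coeff g)) (h : IsW V p t r) : r' ≤ r := by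
  obtain ⟨g, hg⟩ := h.2
  have := h' g
  rw [hg, WithTop.coe_le_coe] at this
  linarith

lemma IsW.unique {p : SkewMonoidAlgebra L P} {t r r' : ℝ} (h : IsW V p t r) (h' : IsW V p t r') :
    r = r' := le_antisymm (IsW.le h.1 h') (IsW.le h'.1 h)

lemma IsW.top {p : SkewMonoidAlgebra L P} {t r : ℝ} (h : IsW V p t r) :
    ∃ g : P, V (p.coeff g) = ((r - g * t : ℝ) : WithTop ℝ) ∧
      ∀ g' : P, g < g' → ((r - g' * t : ℝ) : WithTop ℝ) < V (p.coeff g') := by
  classical
  have hne : (p.support.filter fun g : P => V (p.coeff g) = ((r - g * t : ℝ) : WithTop ℝ)).Nonempty := by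
    obtain ⟨g, hg⟩ := h.2
    refine ⟨g, Finset.mem_filter.2 ⟨mem_support_iff.2 fun h0 => ?_, hg⟩⟩
    rw [h0, V.map_zero] at hg
    exact WithTop.top_ne_coe hg
  refine ⟨_, (Finset.mem_filter.1 (Finset.max'_mem _ hne)).2, fun g' hg' => ?_⟩
  refine lt_of_le_of_ne (h.1 g') fun he => ?_
  refine absurd (Finset.le_max' _ g' (Finset.mem_filter.2 ⟨mem_support_iff.2 fun h0 => ?_, he.symm⟩))
    (not_le.2 hg')
  rw [h0, V.map_zero] at he
  exact WithTop.coe_ne_top he

lemma exists_real (c : L) (hc : c ≠ 0) : ∃ m : ℝ, V c = m := by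
  have : V c ≠ ⊤ := by simpa using hc
  obtain ⟨m, hm⟩ := WithTop.ne_top_iff_exists.1 this
  exact ⟨m, hm.symm⟩

lemma exists_W (p : SkewMonoidAlgebra L P) (hp : p ≠ 0) (t : ℝ) : ∃ r, IsW V p t r := by
  have hne : p.support.Nonempty := Finset.nonempty_iff_ne_empty.2 fun h => hp (support_eq_empty.1 h)
  obtain ⟨g, hg, hmin⟩ := Finset.exists_min_image p.support
    (fun g : P => (V (p.coeff g)).untopD 0 + g * t) hne
  obtain ⟨m, hm⟩ := exists_real (V := V) _ (mem_support_iff.1 hg)
  refine ⟨m + g * t, fun g' => ?_, g, by rw [hm]; congr 1; ring⟩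
  by_cases h0 : p.coeff g' = 0
  · simp [h0]
  obtain ⟨m', hm'⟩ := exists_real (V := V) _ h0
  have := hmin g' (mem_support_iff.2 h0)
  simp only [hm, hm', WithTop.untopD_coe] at this
  rw [hm', WithTop.coe_le_coe]
  linarith

lemma exists_W' (p : SkewMonoidAlgebra L P) (hp : p ≠ 0) (r : ℝ) : ∃ t, IsW V p t r := by
  have hne : p.support.Nonempty := Finset.nonempty_iff_ne_empty.2 fun h => hp (support_eq_empty.1 h)
  obtain ⟨g, hg, hmax⟩ := Finset.exists_max_image p.support
    (fun g : P => (r - (V (p.coeff g)).untopD 0) / g) hne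
  obtain ⟨m, hm⟩ := exists_real (V := V) _ (mem_support_iff.1 hg)
  have hg0 : (g : ℝ) ≠ 0 := g.2.ne'
  refine ⟨(r - m) / g, fun g' => ?_, g, by rw [hm]; congr 1; field_simp; ring⟩
  by_cases h0 : p.coeff g' = 0
  · simp [h0]
  obtain ⟨m', hm'⟩ := exists_real (V := V) _ h0
  have := hmax g' (mem_support_iff.2 h0)
  simp only [hm, hm', WithTop.untopD_coe] at this
  rw [hm', WithTop.coe_le_coe]
  rw [div_le_iff₀ g'.2] at this
  linarith

lemma IsW.mul (hV : ∀ (a : P) (c : L), V (a • c) = WithTop.map (fun x => (a : ℝ) * x) (V c))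
    {p q : SkewMonoidAlgebra L P} {t u r : ℝ} (hq : IsW V q t u) (hp : IsW V p u r) :
    IsW V (p * q) t r := by
  classical
  have hle : ∀ (a : P) (c : L) (m : ℝ), (m : WithTop ℝ) ≤ V c →
      (((a : ℝ) * m : ℝ) : WithTop ℝ) ≤ V (a • c) := by
    intro a c m h
    rw [hV]
    induction h2 : V c with
    | top => simp
    | coe z =>
      rw [h2, WithTop.coe_le_coe] at h
      rw [WithTop.map_coe, WithTop.coe_le_coe]
      exact mul_le_mul_of_nonneg_left h a.2.le
  have hlt : ∀ (a : P) (c : L) (m : ℝ), (m : WithTop ℝ) < V c →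
      (((a : ℝ) * m : ℝ) : WithTop ℝ) < V (a • c) := by
    intro a c m h
    rw [hV]
    induction h2 : V c with
    | top => exact WithTop.coe_lt_top _
    | coe z =>
      rw [h2, WithTop.coe_lt_coe] at h
      rw [WithTop.map_coe, WithTop.coe_lt_coe]
      exact mul_lt_mul_of_pos_left h a.2
  have key : ∀ a x : P, ((r - x * t : ℝ) : WithTop ℝ) =
      ((r - a * u : ℝ) : WithTop ℝ) + (((a : ℝ) * (u - (a⁻¹ * x : P) * t) : ℝ) : WithTop ℝ) := by
    intro a x
    rw [← WithTop.coe_add]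
    congr 1
    have : (a : ℝ) ≠ 0 := a.2.ne'
    simp only [Positive.val_mul, Positive.coe_inv]
    field_simp
    ring
  constructor
  · intro x
    rw [coeff_mul_left, sum_def']
    refine V.map_le_sum fun a _ => ?_
    rw [V.map_mul, key a x]
    exact add_le_add (hp.1 a) (hle _ _ _ (hq.1 _))
  · obtain ⟨a0, ha0, ha⟩ := hp.top
    obtain ⟨b0, hb0, hb⟩ := hq.top
    refine ⟨a0 * b0, ?_⟩
    have hmem : a0 ∈ p.support := mem_support_iff.2 fun h0 => by
      rw [h0, V.map_zero] at ha0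
      exact WithTop.top_ne_coe ha0
    rw [coeff_mul_left, sum_def', ← Finset.add_sum_erase _ _ hmem]
    have h1 : V (p.coeff a0 * a0 • q.coeff (a0⁻¹ * (a0 * b0))) =
        ((r - (a0 * b0 : P) * t : ℝ) : WithTop ℝ) := by
      rw [V.map_mul, key a0, inv_mul_cancel_left, ha0, hV, hb0, WithTop.map_coe]
    rw [V.map_add_eq_of_lt_left, h1]
    rw [h1]
    refine V.map_lt_sum WithTop.coe_ne_top fun a ha' => ?_
    rw [V.map_mul, key a]
    rcases lt_or_gt_of_ne (Finset.ne_of_mem_erase ha') with h | h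
    · have h2 : b0 < a⁻¹ * (a0 * b0) := by
        rw [lt_inv_mul_iff_mul_lt]
        exact mul_lt_mul_left h b0
      exact WithTop.add_lt_add_of_le_of_lt WithTop.coe_ne_top (hp.1 a) (hlt _ _ _ (hb _ h2))
    · exact WithTop.add_lt_add_of_lt_of_le WithTop.coe_ne_top (ha a h) (hle _ _ _ (hq.1 _))

open Classical in
/-- The piecewise linear map attached to `p`. -/
noncomputable def W (V : AddValuation L (WithTop ℝ)) (p : SkewMonoidAlgebra L P) (t : ℝ) : ℝ :=
  if h : p = 0 then 0 else (exists_W (V := V) p h t).choose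

lemma W_spec (p : SkewMonoidAlgebra L P) (hp : p ≠ 0) (t : ℝ) : IsW V p t (W V p t) := by
  rw [W, dif_neg hp]
  exact (exists_W (V := V) p hp t).choose_spec

lemma W_mono (p : SkewMonoidAlgebra L P) (hp : p ≠ 0) : StrictMono (W V p) := by
  intro t t' h
  obtain ⟨g, hg⟩ := (W_spec (V := V) p hp t').2
  have := (W_spec (V := V) p hp t).1 g
  rw [hg, WithTop.coe_le_coe] at this
  have h2 := mul_lt_mul_of_pos_left h g.2
  linarith

lemma W_surj (p : SkewMonoidAlgebra L P) (hp : p ≠ 0) : Function.Surjective (W V p) := by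
  intro r
  obtain ⟨t, ht⟩ := exists_W' (V := V) p hp r
  exact ⟨t, (W_spec p hp t).unique ht⟩

lemma W_add (p q : SkewMonoidAlgebra L P) (hp : p ≠ 0) (hq : q ≠ 0) (hpq : p + q ≠ 0) (t : ℝ) :
    min (W V p t) (W V q t) ≤ W V (p + q) t := by
  refine IsW.le (fun g => ?_) (W_spec _ hpq t)
  have h1 := (W_spec (V := V) p hp t).1 g
  have h2 := (W_spec (V := V) q hq t).1 g
  rw [coeff_add, Finsupp.add_apply]
  refine V.map_le_add (le_trans ?_ h1) (le_trans ?_ h2)
  · exact WithTop.coe_le_coe.2 (by linarith [min_le_left (W V p t) (W V q t)])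
  · exact WithTop.coe_le_coe.2 (by linarith [min_le_right (W V p t) (W V q t)])

lemma W_single (a : P) (c : L) (b : ℝ) (hc : V c = b) (t : ℝ) :
    IsW V (single a c) t (a * t + b) := by
  classical
  refine ⟨fun g => ?_, a, by simp [hc]⟩
  rw [coeff_single_apply]
  split_ifs with h
  · subst h
    simp [hc]
  · simp

end Val


section Loc

open nonZeroDivisors OreLocalization

theorem localize {S : Type} [Ring S] [Nontrivial S] [NoZeroDivisors S] (W : S → ℝ → ℝ)
    (hore : ∀ p q : S, q ≠ 0 → ∃ u v : S, u ≠ 0 ∧ u * p = v * q)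
    (hmul : ∀ x y : S, x ≠ 0 → y ≠ 0 → ∀ t, W (x * y) t = W x (W y t))
    (hmono : ∀ x : S, x ≠ 0 → StrictMono (W x))
    (hsurj : ∀ x : S, x ≠ 0 → Function.Surjective (W x))
    (hadd : ∀ x y : S, x ≠ 0 → y ≠ 0 → x + y ≠ 0 → ∀ t, min (W x t) (W y t) ≤ W (x + y) t)
    (haff : ∀ a b : ℝ, 0 < a → ∃ g : S, g ≠ 0 ∧ ∀ t, W g t = a * t + b) :
    ∃ (D : Type) (_ : DivisionRing D) (w : D → ℝ → ℝ), IdemA.Hyp w := by
  obtain ⟨inst⟩ : Nonempty (OreSet S⁰) := by
    rw [nonempty_oreSet_iff_of_noZeroDivisors]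
    intro r s
    obtain ⟨u, v, hu, h⟩ := hore r s (nonZeroDivisors.ne_zero s.2)
    exact ⟨v, ⟨u, mem_nonZeroDivisors_of_ne_zero hu⟩, h⟩
  let ι : S →+* S[S⁰⁻¹] := numeratorRingHom
  have hι : Function.Injective ι := numeratorHom_inj inf_le_left
  have hι0 : ∀ s : S, s ≠ 0 → ι s ≠ 0 := fun s hs h => hs (hι (by rw [h, map_zero]))
  have hfrac : ∀ x : S[S⁰⁻¹], ∃ s r : S, s ≠ 0 ∧ ι s * x = ι r := by
    intro x
    induction x using OreLocalization.ind with
    | c r s =>
      refine ⟨s, r, nonZeroDivisors.ne_zero s.2, ?_⟩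
      exact OreLocalization.mul_cancel (R := S) (r := r) (s := s) (t := 1)
  choose den num hden hnum using hfrac
  have hn0 : ∀ (x : S[S⁰⁻¹]) (s r : S), x ≠ 0 → s ≠ 0 → ι s * x = ι r → r ≠ 0 := by
    intro x s r hx hs h hr
    rw [hr, map_zero] at h
    exact mul_ne_zero (hι0 s hs) hx h
  choose Winv hWinv using hsurj
  let w : S[S⁰⁻¹] → ℝ → ℝ := fun x t => Winv (den x) (hden x) (W (num x) t)
  have key : ∀ (x : S[S⁰⁻¹]) (s r : S), x ≠ 0 → s ≠ 0 → ι s * x = ι r → ∀ t,
      W s (w x t) = W r t := by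
    intro x s r hx hs h t
    obtain ⟨u, v, hu, huv⟩ := hore s (den x) (hden x)
    have hv : v ≠ 0 := left_ne_zero_of_mul (huv ▸ mul_ne_zero hu hs)
    have h1 : u * r = v * num x := by
      apply hι
      rw [map_mul, map_mul, ← h, ← hnum, ← mul_assoc, ← mul_assoc, ← map_mul, ← map_mul, huv]
    apply (hmono u hu).injective
    rw [← hmul _ _ hu hs, huv, hmul _ _ hv (hden x), hWinv, ← hmul _ _ hv (hn0 x _ _ hx (hden x) (hnum x)),
      ← h1, hmul _ _ hu (hn0 x _ _ hx hs h)]
  refine ⟨S[S⁰⁻¹], inferInstance, w, ⟨fun x y hx hy t => ?_, fun x hx t t' h => ?_,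
    fun x y hx hy hxy t => ?_, fun a b ha => ?_⟩⟩
  · have hnx := hn0 x _ _ hx (hden x) (hnum x)
    have hny := hn0 y _ _ hy (hden y) (hnum y)
    obtain ⟨u, v, hu, huv⟩ := hore (num x) (den y) (hden y)
    have hv : v ≠ 0 := left_ne_zero_of_mul (huv ▸ mul_ne_zero hu hnx)
    have h1 : ι (u * den x) * (x * y) = ι (v * num y) := by
      rw [map_mul, map_mul, mul_assoc, ← mul_assoc (ι (den x)), hnum, ← mul_assoc, ← map_mul, huv,
        map_mul, mul_assoc, hnum]
    have h2 := key _ _ _ (mul_ne_zero hx hy) (mul_ne_zero hu (hden x)) h1 t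
    apply (hmono _ (mul_ne_zero hu (hden x))).injective
    rw [h2, hmul _ _ hv hny, ← key y _ _ hy (hden y) (hnum y), ← hmul _ _ hv (hden y), ← huv,
      hmul _ _ hu hnx, hmul _ _ hu (hden x), key x _ _ hx (hden x) (hnum x)]
  · apply (hmono _ (hden x)).lt_iff_lt.1
    rw [key x _ _ hx (hden x) (hnum x), key x _ _ hx (hden x) (hnum x)]
    exact hmono _ (hn0 x _ _ hx (hden x) (hnum x)) h
  · obtain ⟨u, v, hu, huv⟩ := hore (den x) (den y) (hden y)
    have hs : u * den x ≠ 0 := mul_ne_zero hu (hden x)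
    have h1 : ι (u * den x) * x = ι (u * num x) := by
      rw [map_mul, map_mul, mul_assoc, hnum]
    have h2 : ι (u * den x) * y = ι (v * num y) := by
      rw [huv, map_mul, map_mul, mul_assoc, hnum]
    have h3 : ι (u * den x) * (x + y) = ι (u * num x + v * num y) := by
      rw [mul_add, h1, h2, map_add]
    apply (hmono _ hs).le_iff_le.1
    rw [(hmono _ hs).monotone.map_min, key _ _ _ hx hs h1, key _ _ _ hy hs h2, key _ _ _ hxy hs h3]
    exact hadd _ _ (hn0 _ _ _ hx hs h1) (hn0 _ _ _ hy hs h2) (hn0 _ _ _ hxy hs h3) t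
  · obtain ⟨g, hg, hw⟩ := haff a b ha
    refine ⟨ι g, hι0 g hg, fun t => ?_⟩
    have h1 := key (ι g) g (g * g) (hι0 g hg) hg (map_mul ι g g).symm t
    rw [hmul _ _ hg hg] at h1
    rw [(hmono g hg).injective h1, hw]

end Loc

section Hahn

abbrev HK := HahnSeries ℝ ℚ

noncomputable def sc (a : P) : HK →+* HK :=
  HahnSeries.embDomainRingHom (AddMonoidHom.mulLeft (a : ℝ)) (mul_right_injective₀ a.2.ne')
    (fun _ _ => mul_le_mul_iff_right₀ a.2)

lemma sc_coeff (a : P) (c : HK) (y : ℝ) : (sc a c).coeff ((a : ℝ) * y) = c.coeff y :=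
  HahnSeries.embDomain_coeff (f := ⟨⟨AddMonoidHom.mulLeft (a : ℝ), mul_right_injective₀ a.2.ne'⟩,
    mul_le_mul_iff_right₀ a.2⟩)

noncomputable def scHom : P →* (HK →+* HK) where
  toFun := sc
  map_one' := by
    ext c y
    have := sc_coeff 1 c y
    simpa using this
  map_mul' a b := by
    ext c y
    have h : y = ((a * b : P) : ℝ) * (y / ((a * b : P) : ℝ)) := (mul_div_cancel₀ _ (a * b).2.ne').symm
    rw [h, sc_coeff]
    change _ = (sc a (sc b c)).coeff _
    rw [Positive.val_mul, mul_assoc, sc_coeff, sc_coeff]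

noncomputable instance act : MulSemiringAction P HK := MulSemiringAction.compHom HK scHom

lemma hV (a : P) (c : HK) : HahnSeries.addVal ℝ ℚ (a • c) =
    WithTop.map (fun x => (a : ℝ) * x) (HahnSeries.addVal ℝ ℚ c) := by
  rw [HahnSeries.addVal_apply, HahnSeries.addVal_apply]
  exact HahnSeries.orderTop_embDomain (f := ⟨⟨AddMonoidHom.mulLeft (a : ℝ),
    mul_right_injective₀ a.2.ne'⟩, mul_le_mul_iff_right₀ a.2⟩)

theorem exists_hyp : ∃ (D : Type) (_ : DivisionRing D) (w : D → ℝ → ℝ), IdemA.Hyp w := by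
  haveI : NoZeroDivisors (SkewMonoidAlgebra HK P) := ⟨fun {p q} h => by
    by_contra hc
    push Not at hc
    exact (IsW.mul hV (W_spec q hc.2 0) (W_spec p hc.1 _)).ne_zero h⟩
  refine localize (S := SkewMonoidAlgebra HK P) (W (HahnSeries.addVal ℝ ℚ)) ore ?_ W_mono W_surj
    W_add ?_
  · intro x y hx hy t
    exact (W_spec _ (mul_ne_zero hx hy) t).unique (IsW.mul hV (W_spec y hy t) (W_spec x hx _))
  · intro a b ha
    have hc : HahnSeries.addVal ℝ ℚ (HahnSeries.single b (1 : ℚ)) = b := by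
      rw [HahnSeries.addVal_apply, HahnSeries.orderTop_single one_ne_zero]
    have h := fun t => W_single (V := HahnSeries.addVal ℝ ℚ) ⟨a, ha⟩ _ b hc t
    exact ⟨_, (h 0).ne_zero, fun t => (W_spec _ (h 0).ne_zero t).unique (h t)⟩

end Hahn

end Pool.Agent.H28.IdemB
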