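import Mathlib

namespace Pool.Agent.H28.Joints

open Finset

theorem count_lemma {β γ : Type*} [DecidableEq β] [DecidableEq γ] (P : Finset β) (𝔏 : Finset γ)
    (t x : β → γ) (ht : ∀ p ∈ P, t p ∈ 𝔏) (hx : ∀ p ∈ P, x p ∈ 𝔏)
    (h1 : ∀ a ∈ P, ∀ b ∈ P, t a = t b → x a = x b → a = b)
    (h2 : ∀ X ∈ 𝔏, ∀ Y ∈ 𝔏, (P.filter (fun q => ∃ a ∈ P, ∃ b ∈ P, a ≠ b ∧ t a = t q ∧ t b = t q ∧
      x a = X ∧ x b = Y)).card ≤ 𝔏.card) :
    P.card ^ 3 ≤ 2 * 𝔏.card ^ 5 := by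
  classical
  set T : Finset (β × β × β) :=
    (P ×ˢ P ×ˢ P).filter (fun z => t z.1 = t z.2.2 ∧ t z.2.1 = t z.2.2) with hT
  have hTcard : T.card = ∑ l ∈ 𝔏, (P.filter (fun p => t p = l)).card ^ 3 := by
    rw [card_eq_sum_card_fiberwise (f := fun z : β × β × β => t z.2.2) (t := 𝔏)]
    · refine sum_congr rfl fun l _ => ?_
      have : T.filter (fun z => t z.2.2 = l) =
          (P.filter (fun p => t p = l)) ×ˢ (P.filter (fun p => t p = l)) ×ˢ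
            (P.filter (fun p => t p = l)) := by
        ext ⟨a, b, q⟩
        simp only [hT, mem_filter, mem_product]
        constructor
        · rintro ⟨⟨⟨ha, hb, hq⟩, h3, h4⟩, h5⟩
          exact ⟨⟨ha, h3.trans h5⟩, ⟨hb, h4.trans h5⟩, hq, h5⟩
        · rintro ⟨⟨ha, h3⟩, ⟨hb, h4⟩, hq, h5⟩
          exact ⟨⟨⟨ha, hb, hq⟩, h3.trans h5.symm, h4.trans h5.symm⟩, h5⟩
      rw [this, card_product, card_product]; ring
    · intro z hz
      simp only [hT, coe_filter, mem_product, Set.mem_setOf_eq] at hz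
      exact ht _ hz.1.2.2
  have hP : P.card = ∑ l ∈ 𝔏, (P.filter (fun p => t p = l)).card :=
    card_eq_sum_card_fiberwise (fun p hp => ht p hp)
  have hpow : P.card ^ 3 ≤ 𝔏.card ^ 2 * T.card := by
    rw [hTcard, hP]
    exact pow_sum_le_card_mul_sum_pow (fun _ _ => Nat.zero_le _) 2
  have hT1 : (T.filter (fun z => z.1 ≠ z.2.1)).card ≤ 𝔏.card * (𝔏 ×ˢ 𝔏).card := by
    apply card_le_mul_card_image_of_maps_to (f := fun z : β × β × β => (x z.1, x z.2.1))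
    · intro z hz
      simp only [hT, mem_filter, mem_product] at hz ⊢
      exact ⟨hx _ hz.1.1.1, hx _ hz.1.1.2.1⟩
    · rintro ⟨X, Y⟩ hXY
      rw [mem_product] at hXY
      refine le_trans ?_ (h2 X hXY.1 Y hXY.2)
      apply card_le_card_of_injOn (fun z => z.2.2)
      · rintro ⟨a, b, q⟩ hz
        simp only [hT, coe_filter, mem_filter, mem_product, Set.mem_setOf_eq, Prod.mk.injEq] at hz ⊢
        obtain ⟨⟨⟨⟨ha, hb, hq⟩, h3, h4⟩, hne⟩, h5, h6⟩ := hz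
        exact ⟨hq, a, ha, b, hb, hne, h3, h4, h5, h6⟩
      · rintro ⟨a, b, q⟩ hz ⟨a', b', q'⟩ hz' hqq
        simp only [hT, coe_filter, mem_filter, mem_product, Set.mem_setOf_eq, Prod.mk.injEq]
          at hz hz' hqq ⊢
        obtain ⟨⟨⟨⟨ha, hb, hq⟩, h3, h4⟩, hne⟩, h5, h6⟩ := hz
        obtain ⟨⟨⟨⟨ha', hb', hq'⟩, h3', h4'⟩, hne'⟩, h5', h6'⟩ := hz'
        subst hqq
        exact ⟨h1 a ha a' ha' (h3.trans h3'.symm) (h5.trans h5'.symm),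
          h1 b hb b' hb' (h4.trans h4'.symm) (h6.trans h6'.symm), rfl⟩
  have hT2 : (T.filter (fun z => ¬ z.1 ≠ z.2.1)).card ≤ (𝔏 ×ˢ 𝔏 ×ˢ 𝔏).card := by
    apply card_le_card_of_injOn (fun z => (x z.1, x z.2.2, t z.2.2))
    · rintro ⟨a, b, q⟩ hz
      simp only [hT, coe_filter, mem_filter, mem_product, Set.mem_setOf_eq, coe_product,
        Set.mem_prod, mem_coe] at hz ⊢
      obtain ⟨⟨⟨ha, hb, hq⟩, h3, h4⟩, hne⟩ := hz
      exact ⟨hx _ ha, hx _ hq, ht _ hq⟩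
    · rintro ⟨a, b, q⟩ hz ⟨a', b', q'⟩ hz' hqq
      simp only [hT, coe_filter, mem_filter, mem_product, Set.mem_setOf_eq, Prod.mk.injEq,
        ne_eq, not_not] at hz hz' hqq ⊢
      obtain ⟨⟨⟨ha, hb, hq⟩, h3, h4⟩, hne⟩ := hz
      obtain ⟨⟨⟨ha', hb', hq'⟩, h3', h4'⟩, hne'⟩ := hz'
      obtain ⟨e1, e2, e3⟩ := hqq
      have hq2 : q = q' := h1 q hq q' hq' e3 e2
      have ha2 : a = a' := h1 a ha a' ha' (h3.trans (e3.trans h3'.symm)) e1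
      exact ⟨ha2, hne.symm.trans (ha2.trans hne'), hq2⟩
  have hsplit := card_filter_add_card_filter_not (s := T) (fun z => z.1 ≠ z.2.1)
  rw [card_product] at hT1
  rw [card_product, card_product] at hT2
  calc P.card ^ 3 ≤ 𝔏.card ^ 2 * T.card := hpow
    _ ≤ 𝔏.card ^ 2 * (𝔏.card * (𝔏.card * 𝔏.card) + 𝔏.card * (𝔏.card * 𝔏.card)) := by
        gcongr
        omega
    _ = 2 * 𝔏.card ^ 5 := by ring

variable {α : Type*} {M : Matroid α}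

theorem line_subset_closure (hs : ∀ e ∈ M.E, ∀ f ∈ M.E, M.Indep {e, f}) {l : Set α}
    (hl : M.IsFlat l) (hr : M.eRk l = 2) {a b : α} (hab : a ≠ b) (ha : a ∈ l) (hb : b ∈ l) :
    M.closure {a, b} = l := by
  have hI : M.Indep {a, b} := hs a (hl.subset_ground ha) b (hl.subset_ground hb)
  have hsub : ({a, b} : Set α) ⊆ l := by
    rintro z (rfl | rfl)
    · exact ha
    · exact hb
  have hB : M.IsBasis {a, b} l :=
    hI.isBasis_of_eRk_ge (Set.toFinite _) hsub (by rw [hr, hI.eRk_eq_encard, Set.encard_pair hab])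
      hl.subset_ground
  rw [hB.closure_eq_closure, hl.closure]

theorem joints_bound {n : ℕ} (hn : 4 ≤ n) (hs : ∀ e ∈ M.E, ∀ f ∈ M.E, M.Indep {e, f})
    (𝔏 : Finset (Set α)) (h𝔏 : ∀ l ∈ 𝔏, M.IsFlat l ∧ M.eRk l = 2) (P : Finset α)
    (hP : ∀ p ∈ P, ∃ l : Fin n → Set α, (∀ i, l i ∈ 𝔏 ∧ p ∈ l i) ∧
      ((n : ℕ∞) + 1 ≤ M.eRk (⋃ i, l i))) :
    P.card ^ 3 ≤ 2 * 𝔏.card ^ 5 := by
  classical
  have key : ∀ p ∈ P, ∀ F : Set α, M.eRk F ≤ 4 → ∃ l ∈ 𝔏, p ∈ l ∧ ¬ l ⊆ F := by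
    intro p hp F hF
    obtain ⟨l, hl, hr⟩ := hP p hp
    by_contra hcon
    push Not at hcon
    have hsub : (⋃ i, l i) ⊆ F := Set.iUnion_subset fun i => hcon _ (hl i).1 (hl i).2
    have h5 : (n : ℕ∞) + 1 ≤ 4 := hr.trans ((M.eRk_mono hsub).trans hF)
    have : n + 1 ≤ 4 := by exact_mod_cast h5
    omega
  have hex : ∀ p : α, ∃ t x : Set α, p ∈ P → t ∈ 𝔏 ∧ x ∈ 𝔏 ∧ p ∈ t ∧ p ∈ x ∧ t ≠ x := by
    intro p
    by_cases hp : p ∈ P
    · obtain ⟨t, ht, hpt, -⟩ := key p hp ∅ (by simp)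
      obtain ⟨x, hx, hpx, hxt⟩ := key p hp t (by rw [(h𝔏 t ht).2]; norm_num)
      exact ⟨t, x, fun _ => ⟨ht, hx, hpt, hpx, fun h => hxt (h ▸ subset_rfl)⟩⟩
    · exact ⟨∅, ∅, fun h => absurd h hp⟩
  choose t x htx using hex
  have two : ∀ l ∈ 𝔏, ∀ l' ∈ 𝔏, ∀ a b : α, a ≠ b → a ∈ l → b ∈ l → a ∈ l' → b ∈ l' → l = l' := by
    intro l hl l' hl' a b hab h1 h2 h3 h4
    rw [← line_subset_closure hs (h𝔏 l hl).1 (h𝔏 l hl).2 hab h1 h2,
      ← line_subset_closure hs (h𝔏 l' hl').1 (h𝔏 l' hl').2 hab h3 h4]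
  refine count_lemma P 𝔏 t x (fun p hp => (htx p hp).1) (fun p hp => (htx p hp).2.1) ?_ ?_
  · intro a ha b hb h1 h2
    by_contra hab
    obtain ⟨ha1, ha2, ha3, ha4, ha5⟩ := htx a ha
    obtain ⟨hb1, hb2, hb3, hb4, hb5⟩ := htx b hb
    exact ha5 (two _ ha1 _ ha2 a b hab ha3 (h1 ▸ hb3) ha4 (h2 ▸ hb4))
  · intro X hX Y hY
    set F := M.closure (X ∪ Y) with hF
    have hFr : M.eRk F ≤ 4 := by
      rw [hF, M.eRk_closure_eq]
      refine (M.eRk_union_le_eRk_add_eRk X Y).trans ?_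
      rw [(h𝔏 X hX).2, (h𝔏 Y hY).2]; norm_num
    have hXY : X ∪ Y ⊆ F :=
      M.subset_closure _ (Set.union_subset (h𝔏 X hX).1.subset_ground (h𝔏 Y hY).1.subset_ground)
    have inF : ∀ l ∈ 𝔏, ∀ a b : α, a ≠ b → a ∈ l → b ∈ l → a ∈ F → b ∈ F → l ⊆ F := by
      intro l hl a b hab h1 h2 h3 h4
      rw [← line_subset_closure hs (h𝔏 l hl).1 (h𝔏 l hl).2 hab h1 h2]
      apply M.closure_subset_closure_of_subset_closure
      rintro z (rfl | rfl)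
      · exact h3
      · exact h4
    have hg : ∀ p : α, ∃ g : Set α, p ∈ P → g ∈ 𝔏 ∧ p ∈ g ∧ ¬ g ⊆ F := by
      intro p
      by_cases hp : p ∈ P
      · obtain ⟨g, h1, h2, h3⟩ := key p hp F hFr
        exact ⟨g, fun _ => ⟨h1, h2, h3⟩⟩
      · exact ⟨∅, fun h => absurd h hp⟩
    choose g hg using hg
    have memF : ∀ q ∈ P.filter (fun q => ∃ a ∈ P, ∃ b ∈ P, a ≠ b ∧ t a = t q ∧ t b = t q ∧
        x a = X ∧ x b = Y), q ∈ P ∧ q ∈ F := by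
      intro q hq
      rw [mem_filter] at hq
      obtain ⟨hq, a, ha, b, hb, hab, h1, h2, h3, h4⟩ := hq
      refine ⟨hq, inF (t q) (htx q hq).1 a b hab (h1 ▸ (htx a ha).2.2.1) (h2 ▸ (htx b hb).2.2.1)
        (hXY (Or.inl (h3 ▸ (htx a ha).2.2.2.1))) (hXY (Or.inr (h4 ▸ (htx b hb).2.2.2.1)))
        (htx q hq).2.2.1⟩
    apply card_le_card_of_injOn g
    · intro q hq
      exact (hg q (memF q hq).1).1
    · intro q hq q' hq' hqq
      by_contra hne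
      obtain ⟨h1, h2⟩ := memF q hq
      obtain ⟨h1', h2'⟩ := memF q' hq'
      exact (hg q h1).2.2 (inF _ (hg q h1).1 q q' hne (hg q h1).2.1 (hqq ▸ (hg q' h1').2.1) h2 h2')

end Pool.Agent.H28.Joints
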