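import Mathlib
set_option autoImplicit false
open Polynomial
namespace Pool.Agent.H28.LieML

theorem aeval_mem {K O : Type} [Field K] [AddCommGroup O] [Module K O] (T : O →ₗ[K] O)
    (U : Submodule K O) (hU : ∀ f ∈ U, T f ∈ U) (p : K[X]) : ∀ f ∈ U, (aeval T p) f ∈ U := by
  induction p using Polynomial.induction_on with
  | C a =>
    intro f hf
    rw [aeval_C, Module.algebraMap_end_apply]
    exact U.smul_mem _ hf
  | add p q hp hq =>
    intro f hf
    rw [map_add, LinearMap.add_apply]
    exact U.add_mem (hp f hf) (hq f hf)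
  | monomial n a h =>
    intro f hf
    rw [pow_succ, ← mul_assoc, map_mul, aeval_X, Module.End.mul_apply]
    exact h _ (hU f hf)

theorem ML {K O : Type} [Field K] [CommRing O] [Algebra K O] (A : Subalgebra K O)
    (ε : O →ₐ[K] K) (w : O) (hwA : w ∈ A) (hw : ∀ f ∈ A, f * w = ε f • w)
    (hunit : ∀ f ∈ A, ε f ≠ 0 → ∃ f' ∈ A, f' * f = 1)
    (B : O →ₗ[K] O) (D : O → O) (hBA : ∀ f ∈ A, B f ∈ A) (hDA : ∀ f ∈ A, D f ∈ A)
    (hBD : ∀ f ∈ A, ∀ g, B (f * g) = D f * g + f * B g)
    (hS : ∀ I : Submodule K O, (∀ f ∈ A, ∀ g ∈ I, f * g ∈ I) → (∀ g ∈ I, B g ∈ I) → w ∈ I →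
      (1 : O) ∈ I)
    (K0 : Subfield K) (hK0 : ∀ l : ℕ, ε ((B ^ l) w) ∈ K0)
    (t : K) (ht : t ∉ K0)
    (hirr : ∀ P : K0[X], P.Monic → 0 < P.natDegree → ∀ γ : K0, γ ≠ 0 →
      Irreducible (P.map K0.subtype - C ((γ : K) * t)))
    (γ0 : K) (hγ0 : γ0 ∈ K0) (hγ0' : γ0 ≠ 0)
    (T : O →ₗ[K] O) (hT : ∀ f ∈ A, T f = B f + (γ0 * t * ε f) • w) :
    (∀ U : Submodule K O, (∀ f ∈ U, f ∈ A) → (∀ f ∈ U, T f ∈ U) → (∃ f ∈ U, f ≠ 0) →
      ∀ f ∈ A, f ∈ U) ∧ (∀ f ∈ A, T f = 0 → f = 0) := by
  classical
  set e : ℕ → O := fun i => (B ^ i) w with he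
  have e0 : e 0 = w := by simp [he]
  have eS : ∀ i, e (i + 1) = B (e i) := by
    intro i; simp only [he]; rw [pow_succ', Module.End.mul_apply]
  have eadd : ∀ l i, (B ^ l) (e i) = e (l + i) := by
    intro l i; simp only [he]; rw [pow_add, Module.End.mul_apply]
  have eA : ∀ i, e i ∈ A := by
    intro i
    induction i with
    | zero => rw [e0]; exact hwA
    | succ i ih => rw [eS]; exact hBA _ ih
  set I : ℕ → Submodule K O := fun n => Submodule.span K (e '' Set.Iio n) with hI
  have Imono : ∀ n, I n ≤ I (n + 1) := fun n =>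
    Submodule.span_mono (Set.image_mono (Set.Iio_subset_Iio (Nat.le_succ n)))
  have eI : ∀ n, e n ∈ I (n + 1) := fun n =>
    Submodule.subset_span ⟨n, Nat.lt_succ_self n, rfl⟩
  have BI : ∀ n, ∀ g ∈ I n, B g ∈ I (n + 1) := by
    intro n g hg
    have : (I n).map B ≤ I (n + 1) := by
      simp only [hI]
      rw [Submodule.map_span, Submodule.span_le]
      rintro _ ⟨_, ⟨i, hi, rfl⟩, rfl⟩
      refine Submodule.subset_span ⟨i + 1, ?_, eS i⟩
      simp only [Set.mem_Iio] at hi ⊢; omega
    exact this ⟨g, hg, rfl⟩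
  have mulI : ∀ n, ∀ f ∈ A, f * e n ∈ I (n + 1) := by
    intro n
    induction n with
    | zero =>
      intro f hf
      have h0 := eI 0
      rw [e0] at h0 ⊢
      rw [hw f hf]
      exact Submodule.smul_mem _ _ h0
    | succ n ih =>
      intro f hf
      have h1 : f * e (n + 1) = B (f * e n) - D f * e n := by
        rw [hBD f hf, eS]; ring
      rw [h1]
      exact Submodule.sub_mem _ (BI _ _ (ih f hf)) (Imono _ (ih _ (hDA f hf)))
  have hex : ∃ n, ε (e n) ≠ 0 := by
    by_contra hc
    push Not at hc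
    have hIle : ∀ n, I n ≤ Submodule.span K (Set.range e) := fun n =>
      Submodule.span_mono (Set.image_subset_range _ _)
    have h1 : (1 : O) ∈ Submodule.span K (Set.range e) := by
      refine hS _ ?_ ?_ ?_
      · intro f hf g hg
        induction hg using Submodule.span_induction with
        | mem x hx =>
          obtain ⟨i, rfl⟩ := hx
          exact hIle _ (mulI i f hf)
        | zero => simp
        | add x y _ _ hx hy => rw [mul_add]; exact Submodule.add_mem _ hx hy
        | smul a x _ hx => rw [mul_smul_comm]; exact Submodule.smul_mem _ _ hx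
      · intro g hg
        induction hg using Submodule.span_induction with
        | mem x hx =>
          obtain ⟨i, rfl⟩ := hx
          rw [← eS]
          exact Submodule.subset_span ⟨i + 1, rfl⟩
        | zero => simp
        | add x y _ _ hx hy => rw [map_add]; exact Submodule.add_mem _ hx hy
        | smul a x _ hx => rw [map_smul]; exact Submodule.smul_mem _ _ hx
      · exact Submodule.subset_span ⟨0, e0⟩
    have h2 : ∀ g ∈ Submodule.span K (Set.range e), ε g = 0 := by
      intro g hg
      induction hg using Submodule.span_induction with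
      | mem x hx =>
        obtain ⟨i, rfl⟩ := hx
        exact hc i
      | zero => simp
      | add x y _ _ hx hy => rw [map_add, hx, hy, add_zero]
      | smul a x _ hx => rw [map_smul, hx, smul_zero]
    have := h2 1 h1
    simp at this
  set n := Nat.find hex with hn
  have hn1 : ε (e n) ≠ 0 := Nat.find_spec hex
  have hn0 : ∀ i < n, ε (e i) = 0 := fun i hi => by
    have := Nat.find_min hex hi
    simpa using this
  have AI : ∀ f ∈ A, f ∈ I (n + 1) := by
    intro f hf
    obtain ⟨f', hf', h1⟩ := hunit _ (eA n) hn1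
    have : f = (f * f') * e n := by rw [mul_assoc, h1, mul_one]
    rw [this]
    exact mulI n _ (A.mul_mem hf hf')
  have Te : ∀ i ≤ n, (T ^ i) w = e i := by
    intro i hi
    induction i with
    | zero => simp [e0]
    | succ i ih =>
      rw [pow_succ', Module.End.mul_apply, ih (by omega), hT _ (eA i), hn0 i (by omega), eS]
      simp
  have Tn : (T ^ (n + 1)) w = e (n + 1) + (γ0 * t * ε (e n)) • w := by
    rw [pow_succ', Module.End.mul_apply, Te n le_rfl, hT _ (eA n), eS]
  have Isucc : ∀ j, ∀ v ∈ I (j + 1), ∃ c : K, ∃ v' ∈ I j, v = c • e j + v' := by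
    intro j v hv
    have : e '' Set.Iio (j + 1) = insert (e j) (e '' Set.Iio j) := by
      rw [← Set.image_insert_eq]
      congr 1
      ext i
      simp only [Set.mem_Iio, Set.mem_insert_iff]
      omega
    simp only [hI] at hv
    rw [this, Submodule.mem_span_insert] at hv
    exact hv
  have Ivan : ∀ j ≤ n, ∀ v ∈ I j, ε ((B ^ (n - j)) v) = 0 := by
    intro j hj v hv
    induction hv using Submodule.span_induction with
    | mem x hx =>
      obtain ⟨i, hi, rfl⟩ := hx
      rw [eadd]
      simp only [Set.mem_Iio] at hi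
      exact hn0 _ (by omega)
    | zero => simp
    | add x y _ _ hx hy => rw [map_add, map_add, hx, hy, add_zero]
    | smul a x _ hx => rw [map_smul, map_smul, hx, smul_zero]
  have repK0 : ∀ j ≤ n + 1, ∀ v ∈ I j, (∀ l, ε ((B ^ l) v) ∈ K0) →
      ∃ P : K0[X], P.degree < j ∧ v = aeval T (P.map K0.subtype) w := by
    intro j
    induction j with
    | zero =>
      intro _ v hv _
      have : v = 0 := by simpa [hI] using hv
      exact ⟨0, by simp, by simp [this]⟩
    | succ j ih =>
      intro hj v hv hv0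
      obtain ⟨c, v', hv', rfl⟩ := Isucc j v hv
      have hc : c ∈ K0 := by
        have h1 := hv0 (n - j)
        rw [map_add, map_add, Ivan j (by omega) v' hv', add_zero, map_smul, eadd,
          show n - j + j = n by omega, map_smul, smul_eq_mul] at h1
        have h2 : c = c * ε (e n) / ε (e n) := by field_simp
        rw [h2]
        exact K0.div_mem h1 (hK0 n)
      obtain ⟨P, hP, hP2⟩ := ih (by omega) v' hv' (by
        intro l
        have h1 := hv0 l
        rw [map_add, map_add, map_smul, eadd, map_smul, smul_eq_mul] at h1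
        have h2 := K0.sub_mem h1 (K0.mul_mem hc (hK0 (l + j)))
        simpa [he] using h2)
      refine ⟨C ⟨c, hc⟩ * X ^ j + P, ?_, ?_⟩
      · refine lt_of_le_of_lt (degree_add_le _ _) (max_lt ?_ ?_)
        · refine lt_of_le_of_lt (degree_C_mul_X_pow_le _ _) ?_
          exact_mod_cast Nat.lt_succ_self j
        · refine lt_trans hP ?_
          exact_mod_cast Nat.lt_succ_self j
      · rw [Polynomial.map_add, map_add, LinearMap.add_apply, ← hP2]
        congr 1
        simp only [Polynomial.map_mul, map_C, Polynomial.map_pow, map_X, map_mul, aeval_C,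
          map_pow, aeval_X, Module.End.mul_apply, Module.algebraMap_end_apply]
        rw [Te j (by omega)]
        rfl
  have rep : ∀ f ∈ A, ∃ p : K[X], f = aeval T p w := by
    intro f hf
    have h1 := AI f hf
    clear hf
    induction h1 using Submodule.span_induction with
    | mem x hx =>
      obtain ⟨i, hi, rfl⟩ := hx
      simp only [Set.mem_Iio] at hi
      exact ⟨X ^ i, by rw [map_pow, aeval_X, Te i (by omega)]⟩
    | zero => exact ⟨0, by simp⟩
    | add x y _ _ hx hy =>
      obtain ⟨p, rfl⟩ := hx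
      obtain ⟨q, rfl⟩ := hy
      exact ⟨p + q, by simp⟩
    | smul a x _ hx =>
      obtain ⟨p, rfl⟩ := hx
      exact ⟨a • p, by simp⟩
  obtain ⟨P, hP, hP2⟩ := repK0 (n + 1) le_rfl (e (n + 1)) (AI _ (eA _)) (by
    intro l; rw [eadd]; exact hK0 _)
  have hmon : (X ^ (n + 1) - P).Monic := monic_X_pow_sub hP
  have hdeg : 0 < (X ^ (n + 1) - P).natDegree := by
    have : (X ^ (n + 1) - P).degree = ((n + 1 : ℕ) : WithBot ℕ) := by
      rw [degree_sub_eq_left_of_degree_lt (by rwa [degree_X_pow]), degree_X_pow]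
    rw [natDegree_eq_of_degree_eq_some this]; omega
  set γ : K0 := ⟨γ0 * ε (e n), K0.mul_mem hγ0 (hK0 n)⟩ with hγ
  have hγne : γ ≠ 0 := by
    intro h
    have : γ0 * ε (e n) = 0 := congrArg Subtype.val h
    exact mul_ne_zero hγ0' hn1 this
  set χ : K[X] := (X ^ (n + 1) - P).map K0.subtype - C ((γ : K) * t) with hχ
  have hχirr : Irreducible χ := hirr _ hmon hdeg γ hγne
  have hχw : aeval T χ w = 0 := by
    rw [hχ, map_sub, Polynomial.map_sub, map_sub, LinearMap.sub_apply, LinearMap.sub_apply, ← hP2,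
      Polynomial.map_pow, map_X, map_pow, aeval_X, Tn, aeval_C, Module.algebraMap_end_apply]
    simp only [hγ]
    rw [show γ0 * ε (e n) * t = γ0 * t * ε (e n) by ring]
    abel
  have hcomm : ∀ p q : K[X], aeval T p (aeval T q w) = aeval T (p * q) w := by
    intro p q; rw [map_mul, Module.End.mul_apply]
  refine ⟨?_, ?_⟩
  · rintro U hUA hUT ⟨f, hf, hf0⟩ g hg
    obtain ⟨p, rfl⟩ := rep f (hUA f hf)
    obtain ⟨q, rfl⟩ := rep g hg
    have hnd : ¬ χ ∣ p := by
      rintro ⟨r, rfl⟩
      apply hf0
      rw [mul_comm, ← hcomm, hχw, map_zero]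
    obtain ⟨α, β, hαβ⟩ := (hχirr.coprime_iff_not_dvd).2 hnd
    have hwU : w ∈ U := by
      have h1 : aeval T β (aeval T p w) = w := by
        have h2 : aeval T (α * χ + β * p) w = w := by rw [hαβ]; simp
        rw [map_add, LinearMap.add_apply, ← hcomm, ← hcomm, hχw, map_zero, zero_add] at h2
        exact h2
      rw [← h1]
      exact aeval_mem T U hUT β _ hf
    exact aeval_mem T U hUT q _ hwU
  · intro f hf hTf
    obtain ⟨p, hp⟩ := rep f hf
    have h1 : aeval T χ f = 0 := by
      rw [hp, hcomm, mul_comm, ← hcomm, hχw, map_zero]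
    have h2 : aeval T χ f = χ.coeff 0 • f := by
      conv_lhs => rw [← X_mul_divX_add χ, mul_comm, map_add, map_mul, aeval_X, aeval_C]
      rw [LinearMap.add_apply, Module.End.mul_apply, hTf, map_zero, zero_add,
        Module.algebraMap_end_apply]
    have h3 : χ.coeff 0 ≠ 0 := by
      intro h0
      rw [hχ, coeff_sub, coeff_map, coeff_C_zero, sub_eq_zero] at h0
      apply ht
      have hγK : (γ : K) ≠ 0 := fun h => hγne (Subtype.ext h)
      have : t = K0.subtype ((X ^ (n + 1) - P).coeff 0) / (γ : K) := by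
        rw [h0]; field_simp
      rw [this]
      exact K0.div_mem (Subtype.property _) γ.2
    rw [h2] at h1
    exact (smul_eq_zero.1 h1).resolve_left h3

theorem irr_of_gen {K : Type} [Field K] (K0 : Subfield K) (t : K)
    (htr : ∀ p : K0[X], aeval t p = 0 → p = 0)
    (hsurj : ∀ z : K, ∃ p q : K0[X], z = aeval t p / aeval t q)
    (P : K0[X]) (hP : P.Monic) (hd : 0 < P.natDegree) (γ : K0) (hγ : γ ≠ 0) :
    Irreducible (P.map K0.subtype - C ((γ : K) * t)) := by
  letI : Algebra K0[X] K := (aeval t : K0[X] →ₐ[K0] K).toRingHom.toAlgebra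
  have hal : ∀ p : K0[X], algebraMap K0[X] K p = aeval t p := fun _ => rfl
  haveI : FaithfulSMul K0[X] K := by
    rw [faithfulSMul_iff_algebraMap_injective, injective_iff_map_eq_zero]
    exact htr
  haveI : IsFractionRing K0[X] K := IsFractionRing.of_field _ _ hsurj
  set Q : K0[X][X] := P.map C - C (C γ * X) with hQ
  have hQm : Q.Monic := by
    refine (hP.map C).sub_of_left ?_
    refine lt_of_le_of_lt degree_C_le ?_
    rw [hP.degree_map]
    exact natDegree_pos_iff_degree_pos.1 hd
  have hQi : Irreducible Q := by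
    rw [← MulEquiv.irreducible_iff (Polynomial.Bivariate.swap (R := K0))]
    have h0 := map_sub (Polynomial.Bivariate.swap (R := K0)) (P.map C) (C (C γ * X))
    have : Polynomial.Bivariate.swap (R := K0) Q = C (-C γ) * (X - C (C γ⁻¹ * P)) := by
      rw [hQ, h0, Bivariate.swap_map_C, Bivariate.swap_C, Polynomial.map_mul, map_C, map_X,
        mul_sub, ← map_mul, neg_mul, ← mul_assoc, ← map_mul, mul_inv_cancel₀ hγ]
      simp
      ring
    rw [this]
    refine (irreducible_isUnit_mul ?_).2 (irreducible_X_sub_C _)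
    exact isUnit_C.2 (isUnit_C.2 (IsUnit.mk0 γ hγ)).neg
  have := (hQm.irreducible_iff_irreducible_map_fraction_map (K := K)).1 hQi
  convert this using 1
  rw [hQ, Polynomial.map_sub, Polynomial.map_map, map_C, hal]
  congr 1
  · congr 1
    ext x
    simp [hal]
    rfl
  · simp
    left
    rfl

end Pool.Agent.H28.LieML
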