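import Mathlib
import Pool.Agent.H28.LieML
set_option autoImplicit false
open Polynomial
namespace Pool.Agent.H28.LiePr

abbrev G : Type := ℕ →₀ ZMod 2
abbrev O (K : Type) [Field K] : Type := AddMonoidAlgebra K G

variable {K : Type} [Field K] [Algebra (ZMod 2) K]

lemma two_K : (2 : K) = 0 := by
  have h := map_natCast (algebraMap (ZMod 2) K) 2
  have h2 : ((2 : ℕ) : ZMod 2) = 0 := by decide
  rw [h2, map_zero] at h
  exact_mod_cast h.symm

lemma two_O : (2 : O K) = 0 := by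
  have h := map_natCast (algebraMap K (O K)) 2
  have h2 : ((2 : ℕ) : K) = 0 := by exact_mod_cast two_K
  rw [h2, map_zero] at h
  exact_mod_cast h.symm

lemma add_self_O (f : O K) : f + f = 0 := by rw [← two_mul, two_O, zero_mul]

lemma add_self_G (γ : G) : γ + γ = 0 := by
  ext i
  simp only [Finsupp.add_apply, Finsupp.zero_apply]
  generalize γ i = a
  revert a
  decide

noncomputable def g (i : ℕ) : O K := AddMonoidAlgebra.single (Finsupp.single i 1) 1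

noncomputable def ε : O K →ₐ[K] K := AddMonoidAlgebra.lift K K G 1

omit [Algebra (ZMod 2) K] in
lemma ε_single (γ : G) (c : K) : ε (AddMonoidAlgebra.single γ c) = c := by
  simp [ε]

omit [Algebra (ZMod 2) K] in
lemma ε_g (i : ℕ) : ε (g i : O K) = 1 := ε_single _ _

omit [Algebra (ZMod 2) K] in
lemma g_sq (i : ℕ) : (g i : O K) * g i = 1 := by
  rw [g, AddMonoidAlgebra.single_mul_single, add_self_G, mul_one]
  rfl

lemma sq (f : O K) : f * f = algebraMap K (O K) (ε f * ε f) := by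
  induction f using AddMonoidAlgebra.induction_linear with
  | zero => simp
  | add f f' hf hf' =>
    have h1 : (f + f') * (f + f') = f * f + f' * f' + 2 * (f * f') := by ring
    have h2 : ε (f + f') * ε (f + f') = ε f * ε f + ε f' * ε f' + 2 * (ε f * ε f') := by
      rw [map_add]; ring
    rw [h1, h2, two_O, two_K, zero_mul, zero_mul, add_zero, add_zero, map_add, hf, hf']
  | single γ c =>
    rw [AddMonoidAlgebra.single_mul_single, add_self_G, ε_single]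
    rfl

lemma inv_mul (f : O K) (hf : ε f ≠ 0) : ((ε f * ε f)⁻¹ • f) * f = 1 := by
  rw [smul_mul_assoc, sq, Algebra.algebraMap_eq_smul_one, smul_smul,
    inv_mul_cancel₀ (mul_ne_zero hf hf), one_smul]

noncomputable def lam (u : ℕ → O K) : G →ₗ[ZMod 2] O K := Finsupp.linearCombination (ZMod 2) u

noncomputable def d (u : ℕ → O K) : O K →ₗ[K] O K :=
  (AddMonoidAlgebra.basis G K).constr K (fun γ => lam u γ * AddMonoidAlgebra.single γ 1)

lemma d_single (u : ℕ → O K) (γ : G) (c : K) :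
    d u (AddMonoidAlgebra.single γ c) = lam u γ * AddMonoidAlgebra.single γ c := by
  have h1 : (AddMonoidAlgebra.single γ c : O K) = c • AddMonoidAlgebra.single γ 1 := by simp
  have h2 : d u (AddMonoidAlgebra.single γ 1) = lam u γ * AddMonoidAlgebra.single γ 1 :=
    (AddMonoidAlgebra.basis G K).constr_basis K _ γ
  rw [h1, map_smul, h2, mul_smul_comm]

lemma d_mul (u : ℕ → O K) (f f' : O K) : d u (f * f') = d u f * f' + f * d u f' := by
  induction f using AddMonoidAlgebra.induction_linear with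
  | zero => simp
  | add f1 f2 h1 h2 => rw [add_mul, map_add, h1, h2, map_add]; ring
  | single γ c =>
    induction f' using AddMonoidAlgebra.induction_linear with
    | zero => simp
    | add f1 f2 h1 h2 => rw [mul_add, map_add, h1, h2, map_add]; ring
    | single γ' c' =>
      rw [d_single, d_single, mul_assoc, mul_left_comm (AddMonoidAlgebra.single γ c),
        AddMonoidAlgebra.single_mul_single, d_single, map_add, add_mul]

lemma d_g (u : ℕ → O K) (i : ℕ) : d u (g i) = u i * g i := by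
  rw [g, d_single, lam, Finsupp.linearCombination_single, one_smul]

lemma d_one (u : ℕ → O K) : d u 1 = 0 := by
  have := d_mul u 1 1
  rw [mul_one, mul_one, one_mul, add_self_O] at this
  exact this

lemma d_alg (u : ℕ → O K) (c : K) : d u (algebraMap K (O K) c) = 0 := by
  rw [Algebra.algebraMap_eq_smul_one, map_smul, d_one, smul_zero]

lemma d_adjoin (u : ℕ → O K) {F : Type} [CommRing F] [Algebra F (O K)]
    (hF : ∀ c : F, d u (algebraMap F (O K) c) = 0) (s : Set (O K))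
    (hs : ∀ y ∈ s, d u y ∈ Algebra.adjoin F s) :
    ∀ f ∈ Algebra.adjoin F s, d u f ∈ Algebra.adjoin F s := by
  intro f hf
  induction hf using Algebra.adjoin_induction with
  | mem y hy => exact hs y hy
  | algebraMap c => rw [hF]; exact zero_mem _
  | add y z _ _ hy hz => rw [map_add]; exact add_mem hy hz
  | mul y z hy' hz' hy hz => rw [d_mul]; exact add_mem (mul_mem hy hz') (mul_mem hy' hz)

/-- the subalgebra of level `m` -/
noncomputable def Om (K : Type) [Field K] (m : ℕ) : Subalgebra K (O K) :=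
  Algebra.adjoin K (g '' Set.Iio m)

omit [Algebra (ZMod 2) K] in
lemma g_mem {i m : ℕ} (h : i < m) : (g i : O K) ∈ Om K m := Algebra.subset_adjoin ⟨i, h, rfl⟩

omit [Algebra (ZMod 2) K] in
lemma Om_mono {m n : ℕ} (h : m ≤ n) : Om K m ≤ Om K n :=
  Algebra.adjoin_mono (Set.image_mono (Set.Iio_subset_Iio h))

lemma delta_zero (m : ℕ) : ∀ f ∈ Om K m, d (Pi.single m 1) f = 0 := by
  intro f hf
  induction hf using Algebra.adjoin_induction with
  | mem y hy =>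
    obtain ⟨i, hi, rfl⟩ := hy
    rw [d_g, Pi.single_eq_of_ne (ne_of_lt hi), zero_mul]
  | algebraMap c => exact d_alg _ c
  | add y z _ _ hy hz => rw [map_add, hy, hz, add_zero]
  | mul y z hy' hz' hy hz => rw [d_mul, hy, hz]; simp

lemma uniq (m : ℕ) (f0 f1 : O K) (h0 : f0 ∈ Om K m) (h1 : f1 ∈ Om K m)
    (h : f1 * g m = f0) : f1 = 0 := by
  have := congrArg (d (Pi.single m 1)) h
  rw [d_mul, delta_zero m f0 h0, delta_zero m f1 h1, d_g, Pi.single_eq_same, one_mul, zero_mul,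
    zero_add] at this
  rw [← mul_one f1, ← g_sq m, ← mul_assoc, this, zero_mul]

noncomputable def w (K : Type) [Field K] (m : ℕ) : O K := ∏ i ∈ Finset.range m, (1 + g i)

omit [Algebra (ZMod 2) K] in
lemma w_mem (m : ℕ) : w K m ∈ Om K m :=
  prod_mem fun _ hi => add_mem (one_mem _) (g_mem (Finset.mem_range.1 hi))

omit [Algebra (ZMod 2) K] in
lemma w_succ (m : ℕ) : w K (m + 1) = w K m + w K m * g m := by
  rw [w, Finset.prod_range_succ, mul_add, mul_one, w]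

lemma w_ne (m : ℕ) : w K m ≠ 0 := by
  induction m with
  | zero => simp [w]
  | succ m ih =>
    intro h
    rw [w_succ, add_comm, add_eq_zero_iff_eq_neg] at h
    exact ih (uniq m _ _ (neg_mem (w_mem m)) (w_mem m) h)

omit [Algebra (ZMod 2) K] in
lemma mul_w (m : ℕ) : ∀ f ∈ Om K m, f * w K m = ε f • w K m := by
  intro f hf
  induction hf using Algebra.adjoin_induction with
  | mem y hy =>
    obtain ⟨i, hi, rfl⟩ := hy
    rw [ε_g, one_smul, w, ← Finset.mul_prod_erase _ _ (Finset.mem_range.2 hi), ← mul_assoc,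
      mul_add, g_sq, mul_one, add_comm]
  | algebraMap c => rw [AlgHom.commutes, Algebra.smul_def]; rfl
  | add y z _ _ hy hz => rw [map_add, add_mul, hy, hz, add_smul]
  | mul y z hy' hz' hy hz => rw [mul_assoc, hz, mul_smul_comm, hy, map_mul, smul_smul, mul_comm]

lemma dimlem {k W : Type} [Field k] [AddCommGroup W] [Module k W] [FiniteDimensional k W]
    (V : Submodule k (W × W)) (h0 : ∀ p ∈ V, p.1 = 0 → p.2 = 0) (h1 : ∀ y, ∃ x, (x, y) ∈ V) :
    ∀ p ∈ V, p.2 = 0 → p.1 = 0 := by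
  let π0 : V →ₗ[k] W := LinearMap.fst k _ _ ∘ₗ V.subtype
  let π1 : V →ₗ[k] W := LinearMap.snd k _ _ ∘ₗ V.subtype
  have i0 : Function.Injective π0 := by
    rw [injective_iff_map_eq_zero]
    rintro ⟨⟨p0, p1⟩, hp⟩ h
    exact Subtype.ext (Prod.ext h (h0 _ hp h))
  have s1 : Function.Surjective π1 := by
    intro y
    obtain ⟨x, hx⟩ := h1 y
    exact ⟨⟨(x, y), hx⟩, rfl⟩
  have e1 : Module.finrank k V = Module.finrank k W :=
    le_antisymm (LinearMap.finrank_le_finrank_of_injective i0)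
      (LinearMap.finrank_le_finrank_of_surjective s1)
  have i1 := (LinearMap.injective_iff_surjective_of_finrank_eq_finrank e1).2 s1
  intro p hp h
  have h3 : (⟨p, hp⟩ : V) = 0 := (injective_iff_map_eq_zero π1).1 i1 _ h
  exact congrArg (fun q : V => q.1.1) h3

/-- the data of the generic parameters -/
structure Data (K : Type) [Field K] where
  b : ℕ → K
  tt : ℕ → Finset ℕ → K
  k : Subfield K
  K0 : ℕ → Subfield K
  hb0 : ∀ i, b i ≠ 0
  hbk : ∀ i, b i * b i ∈ k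
  htk : ∀ m S, tt m S ∈ k
  hinj : ∀ a ∈ Algebra.adjoin k (Set.range fun i => b i • (g i : O K)), ε a = 0 → a = 0
  h1 : ∀ m i, b i ∈ K0 m
  h2 : ∀ m m' S, m' ≠ m → tt m' S ∈ K0 m
  h3 : ∀ m S, tt m S - tt m ∅ * ∏ i ∈ S, b i ∈ K0 m
  h4 : ∀ m, tt m ∅ ∉ K0 m
  h5 : ∀ m, ∀ P : (K0 m)[X], P.Monic → 0 < P.natDegree → ∀ γ : K0 m, γ ≠ 0 →
      Irreducible (P.map (K0 m).subtype - C ((γ : K) * tt m ∅))
  h6 : ∀ y, ∀ᶠ m in Filter.atTop, y ∈ K0 m

namespace Data
variable (Δ : Data K)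

noncomputable def β (S : Finset ℕ) : K := ∏ i ∈ S, Δ.b i
noncomputable def x (i : ℕ) : O K := Δ.b i • g i
noncomputable def u (m : ℕ) : O K :=
  ∑ S ∈ (Finset.range m).powerset, (Δ.tt m S * (Δ.β S)⁻¹) • ∏ i ∈ S, g i
noncomputable def E (m : ℕ) : Subalgebra Δ.k (O K) := Algebra.adjoin Δ.k (Δ.x '' Set.Iio m)
noncomputable def R0 (m : ℕ) : Subalgebra (Δ.K0 m) (O K) :=
  Algebra.adjoin (Δ.K0 m) (g '' Set.Iio m)

omit [Algebra (ZMod 2) K] in
lemma β_ne (S : Finset ℕ) : Δ.β S ≠ 0 := Finset.prod_ne_zero_iff.2 fun i _ => Δ.hb0 i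

omit [Algebra (ZMod 2) K] in
lemma prod_g_mem {F : Type} [CommRing F] [Algebra F (O K)] {i m : ℕ} (h : i ≤ m)
    {S : Finset ℕ} (hS : S ∈ (Finset.range i).powerset) :
    (∏ j ∈ S, g j : O K) ∈ Algebra.adjoin F ((g : ℕ → O K) '' Set.Iio m) :=
  prod_mem fun j hj => Algebra.subset_adjoin ⟨j, lt_of_lt_of_le
    (Finset.mem_range.1 (Finset.mem_powerset.1 hS hj)) h, rfl⟩

omit [Algebra (ZMod 2) K] in
lemma u_mem_Om {i m : ℕ} (h : i ≤ m) : Δ.u i ∈ Om K m :=
  sum_mem fun _ hS => Subalgebra.smul_mem _ (prod_g_mem h hS) _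

omit [Algebra (ZMod 2) K] in
lemma smul_mem_sub {F : Subfield K} (A : Subalgebra F (O K)) {c : K} (hc : c ∈ F) {y : O K}
    (hy : y ∈ A) : c • y ∈ A := A.smul_mem hy (⟨c, hc⟩ : F)

omit [Algebra (ZMod 2) K] in
lemma β_mem (m : ℕ) (S : Finset ℕ) : Δ.β S ∈ Δ.K0 m := prod_mem fun i _ => Δ.h1 m i

omit [Algebra (ZMod 2) K] in
lemma u_mem_R0 {i m : ℕ} (h : i < m) : Δ.u i ∈ Δ.R0 m :=
  sum_mem fun S hS => smul_mem_sub _ (mul_mem (Δ.h2 m i S h.ne) (inv_mem (Δ.β_mem m S)))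
    (prod_g_mem h.le hS)

omit [Algebra (ZMod 2) K] in
lemma w_eq (m : ℕ) : w K m = ∑ S ∈ (Finset.range m).powerset, ∏ i ∈ S, g i :=
  Finset.prod_one_add _

omit [Algebra (ZMod 2) K] in
lemma u'_mem_R0 (m : ℕ) : Δ.u m - Δ.tt m ∅ • w K m ∈ Δ.R0 m := by
  rw [u, w_eq, Finset.smul_sum, ← Finset.sum_sub_distrib]
  refine sum_mem fun S hS => ?_
  rw [← sub_smul]
  refine smul_mem_sub _ ?_ (prod_g_mem le_rfl hS)
  have : Δ.tt m S * (Δ.β S)⁻¹ - Δ.tt m ∅ = (Δ.tt m S - Δ.tt m ∅ * Δ.β S) * (Δ.β S)⁻¹ := by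
    have := Δ.β_ne S
    field_simp
  rw [this]
  exact mul_mem (Δ.h3 m S) (inv_mem (Δ.β_mem m S))

omit [Algebra (ZMod 2) K] in
lemma w_mem_R0 (m : ℕ) : w K m ∈ Δ.R0 m := by
  rw [w_eq]
  exact sum_mem fun S hS => prod_g_mem le_rfl hS

omit [Algebra (ZMod 2) K] in
lemma ε_R0 (m : ℕ) : ∀ f ∈ Δ.R0 m, ε f ∈ Δ.K0 m := by
  intro f hf
  induction hf using Algebra.adjoin_induction with
  | mem y hy =>
    obtain ⟨i, _, rfl⟩ := hy
    rw [ε_g]; exact one_mem _
  | algebraMap c =>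
    rw [IsScalarTower.algebraMap_apply (Δ.K0 m) K (O K), AlgHom.commutes]
    exact c.2
  | add y z _ _ hy hz => rw [map_add]; exact add_mem hy hz
  | mul y z _ _ hy hz => rw [map_mul]; exact mul_mem hy hz

omit [Algebra (ZMod 2) K] in
lemma sub_le_Om {F : Subfield K} {m : ℕ} {s : Set (O K)} (hs : ∀ y ∈ s, y ∈ Om K m) :
    ∀ f ∈ Algebra.adjoin F s, f ∈ Om K m := by
  intro f hf
  induction hf using Algebra.adjoin_induction with
  | mem y hy => exact hs y hy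
  | algebraMap c =>
    rw [IsScalarTower.algebraMap_apply F K (O K)]
    exact Subalgebra.algebraMap_mem _ _
  | add y z _ _ hy hz => exact add_mem hy hz
  | mul y z _ _ hy hz => exact mul_mem hy hz

omit [Algebra (ZMod 2) K] in
lemma R0_le (m : ℕ) : ∀ f ∈ Δ.R0 m, f ∈ Om K m :=
  sub_le_Om (by rintro _ ⟨i, hi, rfl⟩; exact g_mem hi)

omit [Algebra (ZMod 2) K] in
lemma E_le (m : ℕ) : ∀ f ∈ Δ.E m, f ∈ Om K m :=
  sub_le_Om (by rintro _ ⟨i, hi, rfl⟩; exact Subalgebra.smul_mem _ (g_mem hi) _)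

lemma d_sub (v : ℕ → O K) {F : Subfield K} (c : F) : d v (algebraMap F (O K) c) = 0 := by
  rw [IsScalarTower.algebraMap_apply F K (O K), d_alg]

lemma d_Om (m : ℕ) : ∀ f ∈ Om K m, d Δ.u f ∈ Om K m :=
  d_adjoin _ (d_alg _) _ (by
    rintro _ ⟨i, hi, rfl⟩
    rw [d_g]
    exact mul_mem (Δ.u_mem_Om (le_of_lt hi)) (g_mem hi))

lemma d_R0 (m : ℕ) : ∀ f ∈ Δ.R0 m, d Δ.u f ∈ Δ.R0 m := by
  refine d_adjoin Δ.u (F := Δ.K0 m) (fun c => d_sub Δ.u c) (g '' Set.Iio m) ?_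
  rintro _ ⟨i, hi, rfl⟩
  rw [d_g]
  have h1 : Δ.u i ∈ Algebra.adjoin (Δ.K0 m) ((g : ℕ → O K) '' Set.Iio m) := Δ.u_mem_R0 hi
  exact Subalgebra.mul_mem _ h1 (Algebra.subset_adjoin ⟨i, hi, rfl⟩)

/-- simplicity at level `m` -/
def Simp (m : ℕ) : Prop := ∀ I : Submodule K (O K), (∀ f ∈ Om K m, ∀ y ∈ I, f * y ∈ I) →
  (∀ y ∈ I, d Δ.u y ∈ I) → w K m ∈ I → (1 : O K) ∈ I

lemma ML' (m : ℕ) (hS : Δ.Simp m) (a : O K) (ha : a ∈ Δ.R0 m) (ha0 : ε a ≠ 0) :
    (∀ U : Submodule K (O K), (∀ f ∈ U, f ∈ Om K m) →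
      (∀ f ∈ U, d Δ.u (a * f) + Δ.u m * a * f ∈ U) → (∃ f ∈ U, f ≠ 0) →
      ∀ f ∈ Om K m, f ∈ U) ∧
    (∀ f ∈ Om K m, d Δ.u (a * f) + Δ.u m * a * f = 0 → f = 0) := by
  have haO := Δ.R0_le m a ha
  set u' := Δ.u m - Δ.tt m ∅ • w K m with hu'
  have hu'R := Δ.u'_mem_R0 m
  let B : O K →ₗ[K] O K := d Δ.u ∘ₗ LinearMap.mulLeft K a + LinearMap.mulLeft K (u' * a)
  have hB : ∀ f, B f = d Δ.u (a * f) + u' * a * f := fun _ => rfl
  let T : O K →ₗ[K] O K := d Δ.u ∘ₗ LinearMap.mulLeft K a + LinearMap.mulLeft K (Δ.u m * a)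
  have hT : ∀ f, T f = d Δ.u (a * f) + Δ.u m * a * f := fun _ => rfl
  have hBR : ∀ f ∈ Δ.R0 m, B f ∈ Δ.R0 m := fun f hf => by
    rw [hB]; exact add_mem (Δ.d_R0 m _ (mul_mem ha hf)) (mul_mem (mul_mem hu'R ha) hf)
  refine LieML.ML (Om K m) ε (w K m) (w_mem m) (mul_w m) ?_ B (fun f => a * d Δ.u f) ?_ ?_ ?_ ?_
    (Δ.K0 m) ?_ (Δ.tt m ∅) (Δ.h4 m) (Δ.h5 m) (ε a) (Δ.ε_R0 m a ha) ha0 T ?_
  · intro f hf hf0
    exact ⟨_, Subalgebra.smul_mem _ hf _, inv_mul f hf0⟩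
  · intro f hf
    rw [hB]
    exact add_mem (Δ.d_Om m _ (mul_mem haO hf)) (mul_mem (mul_mem (Δ.R0_le m _ hu'R) haO) hf)
  · intro f hf
    exact mul_mem haO (Δ.d_Om m _ hf)
  · intro f _ y
    rw [hB, hB, mul_left_comm a f y, d_mul]
    ring
  · intro I hI hIB hw
    refine hS I hI ?_ hw
    intro y hy
    have h1 : a * d Δ.u y = B y - (d Δ.u a + u' * a) * y := by
      rw [hB, d_mul]; ring
    have h2 : a * d Δ.u y ∈ I := by
      rw [h1]
      exact I.sub_mem (hIB y hy) (hI _ (add_mem (Δ.d_Om m _ haO)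
        (mul_mem (Δ.R0_le m _ hu'R) haO)) y hy)
    have h3 := hI _ (Subalgebra.smul_mem _ haO (ε a * ε a)⁻¹) _ h2
    rwa [← mul_assoc, inv_mul a ha0, one_mul] at h3
  · intro l
    refine Δ.ε_R0 m _ ?_
    induction l with
    | zero => simpa using Δ.w_mem_R0 m
    | succ l ih => rw [pow_succ', Module.End.mul_apply]; exact hBR _ ih
  · intro f hf
    have h1 := mul_w m _ (mul_mem haO hf)
    rw [hT, hB, hu', sub_mul, sub_mul, smul_mul_assoc, smul_mul_assoc, mul_assoc (w K m),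
      mul_comm (w K m), h1, smul_smul, map_mul ε,
      show Δ.tt m ∅ * (ε a * ε f) = ε a * Δ.tt m ∅ * ε f by ring]
    abel

lemma simp_all (m : ℕ) : Δ.Simp m := by
  induction m with
  | zero =>
    intro I _ _ hw
    simpa [w] using hw
  | succ m ih =>
    intro I hI hId hw
    obtain ⟨M1, M2⟩ := Δ.ML' m ih 1 (one_mem _) (by simp)
    simp only [one_mul, mul_one] at M1 M2
    have hle : ∀ f ∈ Om K m, f ∈ Om K (m + 1) := fun f hf => Om_mono (Nat.le_succ m) hf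
    have hg : (g m : O K) ∈ Om K (m + 1) := g_mem (Nat.lt_succ_self m)
    have hdg : ∀ f : O K, d Δ.u (f * g m) = (d Δ.u f + Δ.u m * f) * g m := by
      intro f; rw [d_mul, d_g]; ring
    let U : Submodule K (O K) :=
      { carrier := {f1 | f1 ∈ Om K m ∧ ∃ f0 ∈ Om K m, f0 + f1 * g m ∈ I}
        zero_mem' := ⟨zero_mem _, 0, zero_mem _, by simp⟩
        add_mem' := by
          rintro y z ⟨hy, y0, hy0, hy1⟩ ⟨hz, z0, hz0, hz1⟩
          refine ⟨add_mem hy hz, y0 + z0, add_mem hy0 hz0, ?_⟩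
          have := I.add_mem hy1 hz1
          convert this using 1
          ring
        smul_mem' := by
          rintro c y ⟨hy, y0, hy0, hy1⟩
          refine ⟨Subalgebra.smul_mem _ hy c, c • y0, Subalgebra.smul_mem _ hy0 c, ?_⟩
          have := I.smul_mem c hy1
          rwa [smul_add, ← smul_mul_assoc] at this }
    obtain ⟨-, c, hc, hcI⟩ := M1 U (fun f hf => hf.1) (by
      rintro f ⟨hf, f0, hf0, hf1⟩
      refine ⟨add_mem (Δ.d_Om m _ hf) (mul_mem (Δ.u_mem_Om le_rfl) hf), d Δ.u f0,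
        Δ.d_Om m _ hf0, ?_⟩
      have := hId _ hf1
      rwa [map_add, hdg] at this) ⟨w K m, ⟨w_mem m, w K m, w_mem m, by rwa [← w_succ]⟩, w_ne m⟩
      1 (one_mem _)
    rw [one_mul] at hcI
    have hgI : (g m : O K) ∈ I → (1 : O K) ∈ I := fun h => by
      have := hI _ hg _ h
      rwa [g_sq] at this
    let U0 : Submodule K (O K) :=
      { carrier := {f1 | f1 ∈ Om K m ∧ f1 * g m ∈ I}
        zero_mem' := ⟨zero_mem _, by simp⟩
        add_mem' := by
          rintro y z ⟨hy, hy1⟩ ⟨hz, hz1⟩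
          exact ⟨add_mem hy hz, by rw [add_mul]; exact I.add_mem hy1 hz1⟩
        smul_mem' := by
          rintro c y ⟨hy, hy1⟩
          exact ⟨Subalgebra.smul_mem _ hy c, by rw [smul_mul_assoc]; exact I.smul_mem c hy1⟩ }
    have hTc : d Δ.u c + Δ.u m * c ∈ Om K m :=
      add_mem (Δ.d_Om m _ hc) (mul_mem (Δ.u_mem_Om le_rfl) hc)
    by_cases h0 : d Δ.u c + Δ.u m * c = 0
    · have := M2 c hc h0
      rw [this, zero_add] at hcI
      exact hgI hcI
    · have h1 : d Δ.u c + Δ.u m * c ∈ I := by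
        have h2 := I.add_mem (hId _ hcI) (hI _ (hle _ (Δ.u_mem_Om le_rfl)) _ hcI)
        rw [map_add, d_g] at h2
        have h3 : d Δ.u c + Δ.u m * g m + Δ.u m * (c + g m) =
            d Δ.u c + Δ.u m * c + (Δ.u m * g m + Δ.u m * g m) := by ring
        rwa [h3, add_self_O, add_zero] at h2
      have h4 := M1 U0 (fun f hf => hf.1) (by
        rintro f ⟨hf, hf1⟩
        refine ⟨add_mem (Δ.d_Om m _ hf) (mul_mem (Δ.u_mem_Om le_rfl) hf), ?_⟩
        rw [← hdg]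
        exact hId _ hf1) ⟨_, ⟨hTc, by rw [mul_comm]; exact hI _ hg _ h1⟩, h0⟩ 1 (one_mem _)
      have h5 := h4.2
      rw [one_mul] at h5
      exact hgI h5

omit [Algebra (ZMod 2) K] in
lemma x_sq (i : ℕ) : Δ.x i * Δ.x i = (⟨Δ.b i * Δ.b i, Δ.hbk i⟩ : Δ.k) • (1 : O K) := by
  rw [x, smul_mul_smul_comm, g_sq]
  rfl

omit [Algebra (ZMod 2) K] in
lemma x_mem {i m : ℕ} (h : i < m) : Δ.x i ∈ Δ.E m := Algebra.subset_adjoin ⟨i, h, rfl⟩

omit [Algebra (ZMod 2) K] in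
lemma E_mono {m n : ℕ} (h : m ≤ n) : Δ.E m ≤ Δ.E n :=
  Algebra.adjoin_mono (Set.image_mono (Set.Iio_subset_Iio h))

omit [Algebra (ZMod 2) K] in
lemma prod_x (S : Finset ℕ) : ∏ i ∈ S, Δ.x i = Δ.β S • ∏ i ∈ S, (g i : O K) := by
  simp only [x, β, Finset.prod_smul]

omit [Algebra (ZMod 2) K] in
lemma u_mem_E {i m : ℕ} (h : i ≤ m) : Δ.u i ∈ Δ.E m := by
  refine sum_mem fun S hS => ?_
  have h1 : (Δ.tt i S * (Δ.β S)⁻¹) • ∏ j ∈ S, (g j : O K) =
      (Δ.tt i S * (Δ.β S * Δ.β S)⁻¹) • ∏ j ∈ S, Δ.x j := by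
    rw [prod_x, smul_smul]
    congr 1
    have := Δ.β_ne S
    field_simp
  rw [h1]
  refine smul_mem_sub _ (mul_mem (Δ.htk i S) (inv_mem ?_)) ?_
  · rw [β, ← Finset.prod_mul_distrib]
    exact prod_mem fun j _ => Δ.hbk j
  · exact prod_mem fun j hj => Δ.x_mem (lt_of_lt_of_le
      (Finset.mem_range.1 (Finset.mem_powerset.1 hS hj)) h)

lemma d_x (i : ℕ) : d Δ.u (Δ.x i) = Δ.u i * Δ.x i := by
  rw [x, map_smul, d_g, mul_smul_comm]

lemma d_E (m : ℕ) : ∀ f ∈ Δ.E m, d Δ.u f ∈ Δ.E m := by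
  refine d_adjoin Δ.u (F := Δ.k) (fun c => d_sub Δ.u c) (Δ.x '' Set.Iio m) ?_
  rintro _ ⟨i, hi, rfl⟩
  rw [d_x]
  have h1 : Δ.u i ∈ Algebra.adjoin Δ.k (Δ.x '' Set.Iio m) := Δ.u_mem_E (le_of_lt hi)
  exact Subalgebra.mul_mem _ h1 (Algebra.subset_adjoin ⟨i, hi, rfl⟩)

omit [Algebra (ZMod 2) K] in
lemma E_dec (m : ℕ) : ∀ f ∈ Δ.E (m + 1), ∃ f0 ∈ Δ.E m, ∃ f1 ∈ Δ.E m, f = f0 + f1 * Δ.x m := by
  intro f hf
  induction hf using Algebra.adjoin_induction with
  | mem y hy =>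
    obtain ⟨i, hi, rfl⟩ := hy
    rcases Nat.lt_succ_iff_lt_or_eq.1 hi with h | rfl
    · exact ⟨_, Δ.x_mem h, 0, zero_mem _, by simp⟩
    · exact ⟨0, zero_mem _, 1, one_mem _, by simp⟩
  | algebraMap c => exact ⟨_, Subalgebra.algebraMap_mem _ c, 0, zero_mem _, by simp⟩
  | add y z _ _ hy hz =>
    obtain ⟨y0, hy0, y1, hy1, rfl⟩ := hy
    obtain ⟨z0, hz0, z1, hz1, rfl⟩ := hz
    exact ⟨y0 + z0, add_mem hy0 hz0, y1 + z1, add_mem hy1 hz1, by ring⟩
  | mul y z _ _ hy hz =>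
    obtain ⟨y0, hy0, y1, hy1, rfl⟩ := hy
    obtain ⟨z0, hz0, z1, hz1, rfl⟩ := hz
    refine ⟨y0 * z0 + y1 * z1 * (Δ.x m * Δ.x m), add_mem (mul_mem hy0 hz0)
      (mul_mem (mul_mem hy1 hz1) ?_), y0 * z1 + y1 * z0,
      add_mem (mul_mem hy0 hz1) (mul_mem hy1 hz0), by ring⟩
    rw [x_sq]
    exact Subalgebra.smul_mem _ (one_mem _) _

omit [Algebra (ZMod 2) K] in
lemma E_fin (m : ℕ) : Module.Finite Δ.k (Δ.E m) := by
  refine Algebra.finite_adjoin_of_finite_of_isIntegral ((Set.finite_Iio m).image _) ?_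
  rintro _ ⟨i, _, rfl⟩
  refine ⟨X ^ 2 - C ⟨Δ.b i * Δ.b i, Δ.hbk i⟩, monic_X_pow_sub_C _ two_ne_zero, ?_⟩
  rw [eval₂_sub, eval₂_X_pow, eval₂_C, pow_two, x_sq, Algebra.algebraMap_eq_smul_one, sub_self]

omit [Algebra (ZMod 2) K] in
lemma E_R0 (m0 : ℕ) : ∀ a ∈ Δ.E m0, ∀ᶠ m in Filter.atTop, a ∈ Δ.R0 m := by
  intro a ha
  induction ha using Algebra.adjoin_induction with
  | mem y hy =>
    obtain ⟨i, _, rfl⟩ := hy
    filter_upwards [Filter.eventually_gt_atTop i] with m hm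
    exact smul_mem_sub _ (Δ.h1 m i) (Algebra.subset_adjoin ⟨i, hm, rfl⟩)
  | algebraMap c =>
    filter_upwards [Δ.h6 c] with m hm
    rw [IsScalarTower.algebraMap_apply Δ.k K (O K), Algebra.algebraMap_eq_smul_one]
    exact smul_mem_sub _ hm (one_mem _)
  | add y z _ _ hy hz =>
    filter_upwards [hy, hz] with m h1 h2 using add_mem h1 h2
  | mul y z _ _ hy hz =>
    filter_upwards [hy, hz] with m h1 h2 using mul_mem h1 h2

/-- span of the monomials -/
noncomputable def Eh : Submodule Δ.k (O K) :=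
  Submodule.span Δ.k (Set.range fun S : Finset ℕ => ∏ i ∈ S, Δ.x i)

omit [Algebra (ZMod 2) K] in
lemma E_Eh (m : ℕ) : ∀ f ∈ Δ.E m, f ∈ Δ.Eh := by
  have key : ∀ f ∈ Δ.E m, ∀ e ∈ Δ.Eh, f * e ∈ Δ.Eh := by
    intro f hf
    induction hf using Algebra.adjoin_induction with
    | mem y hy =>
      obtain ⟨i, _, rfl⟩ := hy
      intro e he
      induction he using Submodule.span_induction with
      | mem z hz =>
        obtain ⟨S, rfl⟩ := hz
        by_cases hi : i ∈ S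
        · simp only
          rw [← Finset.mul_prod_erase S _ hi, ← mul_assoc, x_sq, smul_mul_assoc, one_mul]
          exact Submodule.smul_mem _ _ (Submodule.subset_span ⟨S.erase i, rfl⟩)
        · simp only
          rw [← Finset.prod_insert hi]
          exact Submodule.subset_span ⟨insert i S, rfl⟩
      | zero => simp
      | add y z _ _ hy hz => rw [mul_add]; exact add_mem hy hz
      | smul c y _ hy => rw [mul_smul_comm]; exact Submodule.smul_mem _ _ hy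
    | algebraMap c =>
      intro e he
      rw [← Algebra.smul_def]
      exact Submodule.smul_mem _ _ he
    | add y z _ _ hy hz => intro e he; rw [add_mul]; exact add_mem (hy e he) (hz e he)
    | mul y z _ _ hy hz => intro e he; rw [mul_assoc]; exact hy _ (hz e he)
  intro f hf
  have := key f hf 1 (Submodule.subset_span ⟨∅, by simp⟩)
  rwa [mul_one] at this

omit [Algebra (ZMod 2) K] in
lemma prod_x_single (S : Finset ℕ) : ∃ γ : G, γ.support = S ∧
    ∏ i ∈ S, Δ.x i = AddMonoidAlgebra.single γ (Δ.β S) := by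
  classical
  refine ⟨∑ i ∈ S, Finsupp.single i 1, ?_, ?_⟩
  · ext j
    simp only [Finsupp.mem_support_iff, Finsupp.finsetSum_apply, Finsupp.single_apply,
      Finset.sum_ite_eq', ne_eq, ite_eq_right_iff, one_ne_zero, imp_false, not_not]
  · induction S using Finset.induction_on with
    | empty => simp [β]; rfl
    | insert i S hi ih =>
      rw [Finset.prod_insert hi, Finset.sum_insert hi, ih, β, β, Finset.prod_insert hi, x, g,
        AddMonoidAlgebra.smul_single, AddMonoidAlgebra.single_mul_single, smul_eq_mul, mul_one]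

omit [Algebra (ZMod 2) K] in
lemma descend (U : Submodule Δ.k (O K)) (hU : U ≤ Δ.Eh) (e : O K) (he : e ∈ Δ.Eh)
    (h : e ∈ Submodule.span K (U : Set (O K))) : e ∈ U := by
  obtain ⟨ρ, hρ⟩ := (Algebra.linearMap Δ.k K).exists_leftInverse_of_injective
    (LinearMap.ker_eq_bot.2 (FaithfulSMul.algebraMap_injective Δ.k K))
  have hρ1 : ρ 1 = 1 := by
    have := LinearMap.congr_fun hρ 1
    simpa using this
  let L : G → (K →ₗ[Δ.k] O K) := fun γ =>
    (AddMonoidAlgebra.lsingle γ : K →ₗ[Δ.k] O K) ∘ₗ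
      LinearMap.toSpanSingleton Δ.k K (Δ.β γ.support) ∘ₗ ρ ∘ₗ
        LinearMap.mulLeft Δ.k (Δ.β γ.support)⁻¹
  let R : O K →ₗ[Δ.k] O K := Finsupp.lsum Δ.k L ∘ₗ
    (AddMonoidAlgebra.coeffLinearEquiv Δ.k : O K ≃ₗ[Δ.k] (G →₀ K)).toLinearMap
  have hR : ∀ γ c, R (AddMonoidAlgebra.single γ c) =
      AddMonoidAlgebra.single γ (ρ ((Δ.β γ.support)⁻¹ * c) • Δ.β γ.support) := by
    intro γ c
    simp [R, L]
  have hRE : ∀ y ∈ Δ.Eh, ∀ c : K, R (c • y) = ρ c • y := by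
    intro y hy
    induction hy using Submodule.span_induction with
    | mem z hz =>
      obtain ⟨S, rfl⟩ := hz
      obtain ⟨γ, hγ, h2⟩ := Δ.prod_x_single S
      intro c
      simp only
      rw [h2, AddMonoidAlgebra.smul_single, hR, hγ, AddMonoidAlgebra.smul_single, smul_eq_mul,
        mul_comm c, ← mul_assoc, inv_mul_cancel₀ (Δ.β_ne S), one_mul]
    | zero => simp
    | add y z _ _ hy hz => intro c; rw [smul_add, map_add, hy, hz, smul_add]
    | smul a y _ hy =>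
      intro c
      rw [smul_comm c a y, map_smul, hy, smul_comm]
  have hRU : ∀ y ∈ Submodule.span K (U : Set (O K)), ∀ c : K, R (c • y) ∈ U := by
    intro y hy
    induction hy using Submodule.span_induction with
    | mem z hz => intro c; rw [hRE z (hU hz)]; exact U.smul_mem _ hz
    | zero => simp
    | add y z _ _ hy hz => intro c; rw [smul_add, map_add]; exact add_mem (hy c) (hz c)
    | smul a y _ hy => intro c; rw [smul_smul]; exact hy _
  have := hRU e h 1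
  rwa [hRE e he, hρ1, one_smul] at this

lemma MLk (m : ℕ) (a : O K) (ha : a ∈ Δ.R0 m) (ha0 : ε a ≠ 0) (U : Submodule Δ.k (O K))
    (hU : ∀ f ∈ U, f ∈ Δ.E m) (hT : ∀ f ∈ U, d Δ.u (a * f) + Δ.u m * a * f ∈ U)
    (hne : ∃ f ∈ U, f ≠ 0) : ∀ f ∈ Δ.E m, f ∈ U := by
  intro f hf
  refine Δ.descend U (fun y hy => Δ.E_Eh m y (hU y hy)) f (Δ.E_Eh m f hf) ?_
  refine (Δ.ML' m (Δ.simp_all m) a ha ha0).1 _ ?_ ?_ ?_ f (Δ.E_le m f hf)
  · intro y hy
    induction hy using Submodule.span_induction with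
    | mem z hz => exact Δ.E_le m z (hU z hz)
    | zero => exact zero_mem _
    | add y z _ _ hy hz => exact add_mem hy hz
    | smul c y _ hy => exact Subalgebra.smul_mem _ hy c
  · intro y hy
    induction hy using Submodule.span_induction with
    | mem z hz => exact Submodule.subset_span (hT z hz)
    | zero => simp
    | add y z _ _ hy hz =>
      have := add_mem hy hz
      rw [mul_add, map_add, mul_add]
      convert this using 1
      ring
    | smul c y _ hy =>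
      have := Submodule.smul_mem _ c hy
      rwa [mul_smul_comm, map_smul, mul_smul_comm, ← smul_add]
  · obtain ⟨y, hy, hy0⟩ := hne
    exact ⟨y, Submodule.subset_span hy, hy0⟩

lemma level (H : Submodule Δ.k (O K)) (hbr : ∀ f ∈ H, ∀ y ∈ H, d Δ.u (f * y) ∈ H) (m : ℕ)
    (a : O K) (haH : a ∈ H) (haE : a ∈ Δ.E m) (haR : a ∈ Δ.R0 m) (ha : a ≠ 0)
    (h : O K) (hH : h ∈ H) (hE : h ∈ Δ.E (m + 1)) (hE' : h ∉ Δ.E m) :
    ∀ f ∈ Δ.E m, d Δ.u f ∈ H := by
  have ha0 : ε a ≠ 0 := fun h0 => ha (Δ.hinj a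
    (Algebra.adjoin_mono (Set.image_subset_range _ _) haE) h0)
  have hdx : ∀ f : O K, d Δ.u (a * (f * Δ.x m)) = (d Δ.u (a * f) + Δ.u m * a * f) * Δ.x m := by
    intro f; rw [← mul_assoc, d_mul, d_x]; ring
  have hTE : ∀ f ∈ Δ.E m, d Δ.u (a * f) + Δ.u m * a * f ∈ Δ.E m := fun f hf =>
    add_mem (Δ.d_E m _ (mul_mem haE hf)) (mul_mem (mul_mem (Δ.u_mem_E le_rfl) haE) hf)
  let U : Submodule Δ.k (O K) :=
    { carrier := {f1 | f1 ∈ Δ.E m ∧ ∃ f0 ∈ Δ.E m, f0 + f1 * Δ.x m ∈ H}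
      zero_mem' := ⟨zero_mem _, 0, zero_mem _, by simp⟩
      add_mem' := by
        rintro y z ⟨hy, y0, hy0, hy1⟩ ⟨hz, z0, hz0, hz1⟩
        refine ⟨add_mem hy hz, y0 + z0, add_mem hy0 hz0, ?_⟩
        have := H.add_mem hy1 hz1
        convert this using 1
        ring
      smul_mem' := by
        rintro c y ⟨hy, y0, hy0, hy1⟩
        refine ⟨Subalgebra.smul_mem _ hy c, c • y0, Subalgebra.smul_mem _ hy0 c, ?_⟩
        have := H.smul_mem c hy1
        rwa [smul_add, ← smul_mul_assoc] at this }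
  have hU : ∀ f ∈ Δ.E m, f ∈ U := by
    refine Δ.MLk m a haR ha0 U (fun f hf => hf.1) ?_ ?_
    · rintro f ⟨hf, f0, hf0, hf1⟩
      refine ⟨hTE f hf, d Δ.u (a * f0), Δ.d_E m _ (mul_mem haE hf0), ?_⟩
      have := hbr a haH _ hf1
      rwa [mul_add, map_add, hdx] at this
    · obtain ⟨f0, hf0, f1, hf1, rfl⟩ := Δ.E_dec m h hE
      refine ⟨f1, ⟨hf1, f0, hf0, hH⟩, ?_⟩
      rintro rfl
      apply hE'
      simpa using hf0
  let U0 : Submodule Δ.k (O K) :=
    { carrier := {f1 | f1 ∈ Δ.E m ∧ f1 * Δ.x m ∈ H}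
      zero_mem' := ⟨zero_mem _, by simp⟩
      add_mem' := by
        rintro y z ⟨hy, hy1⟩ ⟨hz, hz1⟩
        exact ⟨add_mem hy hz, by rw [add_mul]; exact H.add_mem hy1 hz1⟩
      smul_mem' := by
        rintro c y ⟨hy, hy1⟩
        exact ⟨Subalgebra.smul_mem _ hy c, by rw [smul_mul_assoc]; exact H.smul_mem c hy1⟩ }
  have hne : ∃ f ∈ U0, f ≠ 0 := by
    by_contra hc
    push Not at hc
    let A : Submodule Δ.k (O K) := Subalgebra.toSubmodule (Δ.E m)
    haveI : FiniteDimensional Δ.k A := Δ.E_fin m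
    let Φ : (A × A) →ₗ[Δ.k] O K := LinearMap.coprod A.subtype
      (LinearMap.mulRight Δ.k (Δ.x m) ∘ₗ A.subtype)
    let V : Submodule Δ.k (A × A) := H.comap Φ
    have hV : ∀ p : A × A, p ∈ V ↔ p.1.1 + p.2.1 * Δ.x m ∈ H := fun _ => Iff.rfl
    have h3 := dimlem (k := Δ.k) (W := A) V (fun p hp h0 => by
      have h1 := (hV _).1 hp
      rw [h0] at h1
      simp only [ZeroMemClass.coe_zero, zero_add] at h1
      exact Subtype.ext (hc p.2.1 ⟨p.2.2, h1⟩)) (fun y => by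
      obtain ⟨-, f0, hf0, hf1⟩ := hU y.1 y.2
      exact ⟨⟨f0, hf0⟩, (hV _).2 hf1⟩) (⟨a, haE⟩, 0) ((hV _).2 (by simpa using haH)) rfl
    exact ha (congrArg Subtype.val h3)
  have hU0 : ∀ f ∈ Δ.E m, f ∈ U0 := by
    refine Δ.MLk m a haR ha0 U0 (fun f hf => hf.1) ?_ hne
    rintro f ⟨hf, hf1⟩
    refine ⟨hTE f hf, ?_⟩
    rw [← hdx]
    exact hbr a haH _ hf1
  intro f hf
  have h1 := hbr _ (hU0 f hf).2 _ (hU0 1 (one_mem _)).2
  rw [one_mul, mul_assoc, x_sq, mul_smul_comm, mul_one] at h1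
  have h2 : d Δ.u ((⟨Δ.b m * Δ.b m, Δ.hbk m⟩ : Δ.k) • f) =
      (⟨Δ.b m * Δ.b m, Δ.hbk m⟩ : Δ.k) • d Δ.u f := map_smul (d Δ.u) (Δ.b m * Δ.b m) f
  rw [h2] at h1
  refine (H.smul_mem_iff ?_).1 h1
  intro h0
  exact mul_ne_zero (Δ.hb0 m) (Δ.hb0 m) (congrArg Subtype.val h0)

lemma core (H : Submodule Δ.k (O K)) (hHE : ∀ f ∈ H, ∃ m, f ∈ Δ.E m)
    (hbr : ∀ f ∈ H, ∀ y ∈ H, d Δ.u (f * y) ∈ H) (hinf : ¬ FiniteDimensional Δ.k H) :
    ∀ m, ∀ f ∈ Δ.E m, d Δ.u f ∈ H := by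
  classical
  have hnot : ∀ M, ∃ h ∈ H, h ∉ Δ.E M := by
    intro M
    by_contra hc
    push Not at hc
    haveI : FiniteDimensional Δ.k (Subalgebra.toSubmodule (Δ.E M)) := Δ.E_fin M
    exact hinf (Submodule.finiteDimensional_of_le (S₂ := Subalgebra.toSubmodule (Δ.E M)) hc)
  obtain ⟨a, haH, ha⟩ := hnot 0
  have ha0 : a ≠ 0 := by rintro rfl; exact ha (zero_mem _)
  obtain ⟨m0, hm0⟩ := hHE a haH
  obtain ⟨m1, hm1⟩ := Filter.eventually_atTop.1 (Δ.E_R0 m0 a hm0)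
  intro m f hf
  obtain ⟨h, hH, hh⟩ := hnot (max m (max m0 m1))
  have hex := hHE h hH
  have hN := Nat.find_spec hex
  have hlt : max m (max m0 m1) < Nat.find hex := by
    by_contra hc
    exact hh (Δ.E_mono (not_lt.1 hc) hN)
  obtain ⟨n, hn⟩ : ∃ n, Nat.find hex = n + 1 := ⟨Nat.find hex - 1, by omega⟩
  have hn' : h ∉ Δ.E n := Nat.find_min hex (by omega)
  rw [hn] at hN hlt
  exact Δ.level H hbr n a haH (Δ.E_mono (by omega) hm0) (hm1 n (by omega)) ha0 h hH hN hn' f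
    (Δ.E_mono (by omega) hf)

lemma d_ksmul (c : Δ.k) (f : O K) : d Δ.u (c • f) = c • d Δ.u f := map_smul (d Δ.u) (c : K) f

/-- the underlying space of the Lie algebra -/
def L : Submodule Δ.k (O K) where
  carrier := {y | ∃ m, ∃ f ∈ Δ.E m, y = d Δ.u f}
  zero_mem' := ⟨0, 0, zero_mem _, by simp⟩
  add_mem' := by
    rintro _ _ ⟨m, f, hf, rfl⟩ ⟨n, f', hf', rfl⟩
    exact ⟨max m n, f + f', add_mem (Δ.E_mono (le_max_left _ _) hf)
      (Δ.E_mono (le_max_right _ _) hf'), by rw [map_add]⟩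
  smul_mem' := by
    rintro c _ ⟨m, f, hf, rfl⟩
    exact ⟨m, c • f, Subalgebra.smul_mem _ hf c, by rw [d_ksmul]⟩

lemma L_E {y : O K} (hy : y ∈ Δ.L) : ∃ m, y ∈ Δ.E m := by
  obtain ⟨m, f, hf, rfl⟩ := hy
  exact ⟨m, Δ.d_E m f hf⟩

lemma br_mem (y z : Δ.L) : d Δ.u (y.1 * z.1) ∈ Δ.L := by
  obtain ⟨m, hm⟩ := Δ.L_E y.2
  obtain ⟨n, hn⟩ := Δ.L_E z.2
  exact ⟨max m n, _, mul_mem (Δ.E_mono (le_max_left _ _) hm) (Δ.E_mono (le_max_right _ _) hn), rfl⟩

noncomputable instance : LieRing Δ.L where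
  bracket y z := ⟨d Δ.u (y.1 * z.1), Δ.br_mem y z⟩
  add_lie y z v := Subtype.ext (by
    change d Δ.u ((y.1 + z.1) * v.1) = d Δ.u (y.1 * v.1) + d Δ.u (z.1 * v.1)
    rw [add_mul, map_add])
  lie_add y z v := Subtype.ext (by
    change d Δ.u (y.1 * (z.1 + v.1)) = d Δ.u (y.1 * z.1) + d Δ.u (y.1 * v.1)
    rw [mul_add, map_add])
  lie_self y := Subtype.ext (by
    change d Δ.u (y.1 * y.1) = 0
    rw [sq, d_alg])
  leibniz_lie y z v := Subtype.ext (by
    change d Δ.u (y.1 * d Δ.u (z.1 * v.1)) =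
      d Δ.u (d Δ.u (y.1 * z.1) * v.1) + d Δ.u (z.1 * d Δ.u (y.1 * v.1))
    rw [← map_add]
    congr 1
    rw [d_mul, d_mul, d_mul]
    have := add_self_O (d Δ.u y.1 * z.1 * v.1)
    linear_combination (exp := 1) (-1 : O K) * this)

lemma br_val (y z : Δ.L) : (⁅y, z⁆ : Δ.L).1 = d Δ.u (y.1 * z.1) := rfl

noncomputable instance : LieAlgebra Δ.k Δ.L where
  lie_smul c y z := Subtype.ext (by
    change d Δ.u (y.1 * (c • z.1)) = c • d Δ.u (y.1 * z.1)
    rw [mul_smul_comm, d_ksmul])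

theorem proper_fin (H : LieSubalgebra Δ.k Δ.L) (hH : H ≠ ⊤) : FiniteDimensional Δ.k H := by
  by_contra hinf
  apply hH
  have hinf' : ¬ FiniteDimensional Δ.k (H.toSubmodule.map Δ.L.subtype) := by
    intro h
    exact hinf (LinearEquiv.finiteDimensional
      (Submodule.equivMapOfInjective Δ.L.subtype Δ.L.injective_subtype H.toSubmodule).symm)
  have := Δ.core (H.toSubmodule.map Δ.L.subtype) (by
    rintro _ ⟨y, _, rfl⟩
    exact Δ.L_E y.2) (by
    rintro _ ⟨y, hy, rfl⟩ _ ⟨z, hz, rfl⟩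
    exact ⟨⁅y, z⁆, H.lie_mem hy hz, rfl⟩) hinf'
  rw [eq_top_iff]
  rintro ⟨_, m, f, hf, rfl⟩ -
  obtain ⟨z, hz, hz'⟩ := this m f hf
  have h2 : z = ⟨d Δ.u f, m, f, hf, rfl⟩ := Subtype.ext hz'
  rw [← h2]
  exact hz

theorem not_fg : ¬ ∃ s : Set Δ.L, s.Finite ∧ LieSubalgebra.lieSpan Δ.k Δ.L s = ⊤ := by
  rintro ⟨s, hs, hsp⟩
  have h1 : ∀ᶠ m in Filter.atTop, ∀ y ∈ s, y.1 ∈ Δ.E m := by
    rw [Filter.eventually_all_finite hs]
    intro y _
    obtain ⟨n, hn⟩ := Δ.L_E y.2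
    filter_upwards [Filter.eventually_ge_atTop n] with m hm using Δ.E_mono hm hn
  obtain ⟨m, hm⟩ := h1.exists
  let H : LieSubalgebra Δ.k Δ.L :=
    { toSubmodule := (Subalgebra.toSubmodule (Δ.E m)).comap Δ.L.subtype
      lie_mem' := fun {y z} hy hz => Δ.d_E m _ (mul_mem hy hz) }
  have h2 : LieSubalgebra.lieSpan Δ.k Δ.L s ≤ H := LieSubalgebra.lieSpan_le.2 hm
  rw [hsp] at h2
  have h3 : d Δ.u (Δ.x m) ∈ Δ.E m :=
    h2 (LieSubalgebra.mem_top (⟨d Δ.u (Δ.x m), m + 1, Δ.x m, Δ.x_mem (Nat.lt_succ_self m), rfl⟩ :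
      Δ.L))
  have h4 := Δ.E_le m _ h3
  have h5 : (Δ.b m • Δ.u m) * g m = d Δ.u (Δ.x m) := by
    rw [d_x, x, smul_mul_assoc, mul_smul_comm]
  have h6 := uniq m _ _ h4 (Subalgebra.smul_mem _ (Δ.u_mem_Om le_rfl) _) h5
  have h7 : Δ.u m = 0 := (smul_eq_zero.1 h6).resolve_left (Δ.hb0 m)
  have h8 := (Δ.ML' m (Δ.simp_all m) 1 (one_mem _) (by simp)).2 1 (one_mem _) (by
    simp [h7, d_one])
  exact one_ne_zero h8

end Data

abbrev σ : Type := ℕ ⊕ (ℕ × Finset ℕ)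
abbrev Pl : Type := MvPolynomial σ (ZMod 2)
abbrev KK : Type := FractionRing Pl

noncomputable def bb (i : ℕ) : KK := algebraMap Pl KK (MvPolynomial.X (Sum.inl i))
noncomputable def tt (m : ℕ) (S : Finset ℕ) : KK :=
  algebraMap Pl KK (MvPolynomial.X (Sum.inr (m, S)))

noncomputable def φ0 : Pl →ₐ[ZMod 2] O KK :=
  MvPolynomial.aeval (Sum.elim (fun i => bb i • g i) (fun p => algebraMap KK (O KK) (tt p.1 p.2)))

lemma ε_φ0 (p : Pl) : ε (φ0 p) = algebraMap Pl KK p := by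
  induction p using MvPolynomial.induction_on with
  | C c =>
    rw [φ0, MvPolynomial.aeval_C, IsScalarTower.algebraMap_apply (ZMod 2) KK (O KK),
      AlgHom.commutes, IsScalarTower.algebraMap_apply (ZMod 2) Pl KK]
    rfl
  | add p q hp hq => rw [map_add, map_add, map_add, hp, hq]
  | mul_X p v hp =>
    rw [map_mul, map_mul, map_mul, hp]
    congr 1
    rw [φ0, MvPolynomial.aeval_X]
    rcases v with i | q
    · simp only [Sum.elim_inl]
      rw [map_smul, ε_g, smul_eq_mul, mul_one, bb]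
    · simp only [Sum.elim_inr]
      rw [AlgHom.commutes]
      rfl

lemma φ0_unit (y : nonZeroDivisors Pl) : IsUnit ((φ0 : Pl →+* O KK) y) := by
  have h : ε (φ0 y) ≠ 0 := by
    rw [ε_φ0]
    exact IsFractionRing.to_map_ne_zero_of_mem_nonZeroDivisors y.2
  exact IsUnit.of_mul_eq_one_right _ (inv_mul _ h)

noncomputable def φ : KK →+* O KK := IsLocalization.lift (M := nonZeroDivisors Pl) φ0_unit

lemma φ_alg (p : Pl) : φ (algebraMap Pl KK p) = φ0 p := IsLocalization.lift_eq _ _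

lemma ε_φ (y : KK) : ε (φ y) = y := by
  have : (ε : O KK →ₐ[KK] KK).toRingHom.comp φ = RingHom.id KK := by
    refine IsLocalization.ringHom_ext (nonZeroDivisors Pl) (RingHom.ext fun p => ?_)
    simp only [RingHom.comp_apply, RingHom.id_apply]
    rw [φ_alg]
    exact ε_φ0 p
  exact RingHom.congr_fun this y

lemma φ_b (i : ℕ) : φ (bb i) = bb i • g i := by
  rw [bb, φ_alg, φ0, MvPolynomial.aeval_X]
  rfl

noncomputable def kk : Subfield KK := φ.eqLocusField (algebraMap KK (O KK))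

noncomputable def ψ0 (m j : ℕ) : Pl →ₐ[ZMod 2] Pl :=
  MvPolynomial.aeval (Sum.elim (fun i => MvPolynomial.X (Sum.inl i))
    (fun p => MvPolynomial.X (Sum.inr p) + if p.1 = m then
      MvPolynomial.X (Sum.inl 0) ^ j * ∏ i ∈ p.2, MvPolynomial.X (Sum.inl i) else 0))

lemma ψ0_b (m j i : ℕ) : ψ0 m j (MvPolynomial.X (Sum.inl i)) = MvPolynomial.X (Sum.inl i) := by
  simp [ψ0]

lemma ψ0_t (m j : ℕ) (p : ℕ × Finset ℕ) : ψ0 m j (MvPolynomial.X (Sum.inr p)) =
    MvPolynomial.X (Sum.inr p) + if p.1 = m then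
      MvPolynomial.X (Sum.inl 0) ^ j * ∏ i ∈ p.2, MvPolynomial.X (Sum.inl i) else 0 := by
  simp [ψ0]

lemma ψ0_inv (m j : ℕ) (p : Pl) : ψ0 m j (ψ0 m j p) = p := by
  have : (ψ0 m j).comp (ψ0 m j) = AlgHom.id _ _ := by
    refine MvPolynomial.algHom_ext fun v => ?_
    rcases v with i | q
    · simp [ψ0_b]
    · simp only [AlgHom.comp_apply, AlgHom.id_apply, ψ0_t, map_add]
      split_ifs
      · simp only [map_mul, map_pow, map_prod, ψ0_b]
        rw [add_assoc, CharTwo.add_self_eq_zero, add_zero]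
      · simp
  exact AlgHom.congr_fun this p

lemma ψ0_inj (m j : ℕ) :
    Function.Injective ((algebraMap Pl KK).comp (ψ0 m j : Pl →+* Pl)) :=
  (IsFractionRing.injective Pl KK).comp (Function.LeftInverse.injective (ψ0_inv m j))

noncomputable def ψ (m j : ℕ) : KK →+* KK := IsFractionRing.lift (ψ0_inj m j)

lemma ψ_alg (m j : ℕ) (p : Pl) : ψ m j (algebraMap Pl KK p) = algebraMap Pl KK (ψ0 m j p) :=
  IsFractionRing.lift_algebraMap _ _

noncomputable def K0 (m : ℕ) : Subfield KK := ⨅ j, (ψ m j).eqLocusField (RingHom.id KK)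

lemma mem_K0 {m : ℕ} {y : KK} : y ∈ K0 m ↔ ∀ j, ψ m j y = y := by
  simp [K0, Subfield.mem_iInf]

lemma ψ_b (m j i : ℕ) : ψ m j (bb i) = bb i := by rw [bb, ψ_alg, ψ0_b]

lemma ψ_t (m j : ℕ) (S : Finset ℕ) : ψ m j (tt m S) = tt m S + bb 0 ^ j * ∏ i ∈ S, bb i := by
  rw [tt, ψ_alg, ψ0_t]
  simp [bb]

lemma b_K0 (m i : ℕ) : bb i ∈ K0 m := mem_K0.2 fun j => ψ_b m j i

lemma t_K0 (m m' : ℕ) (S : Finset ℕ) (h : m' ≠ m) : tt m' S ∈ K0 m := mem_K0.2 fun j => by
  rw [tt, ψ_alg, ψ0_t]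
  simp [h]

lemma s_K0 (m : ℕ) (S : Finset ℕ) : tt m S - tt m ∅ * ∏ i ∈ S, bb i ∈ K0 m := mem_K0.2 fun j => by
  rw [map_sub, map_mul, ψ_t, ψ_t, map_prod]
  simp only [ψ_b, Finset.prod_empty]
  ring

lemma b_ne (i : ℕ) : bb i ≠ 0 := by
  rw [bb, Ne, IsFractionRing.to_map_eq_zero_iff]
  exact MvPolynomial.X_ne_zero _

lemma trans (m : ℕ) (p : (K0 m)[X]) (hp : aeval (tt m ∅) p = 0) : p = 0 := by
  have h1 : ∀ j, (p.map (K0 m).subtype).IsRoot (tt m ∅ + bb 0 ^ j) := by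
    intro j
    have h2 : ψ m j (aeval (tt m ∅) p) = 0 := by rw [hp, map_zero]
    rw [aeval_def, hom_eval₂, ψ_t, Finset.prod_empty, mul_one] at h2
    rw [IsRoot.def, eval_map, ← h2]
    congr 1
    ext c
    exact (mem_K0.1 c.2 j).symm
  have h3 : Function.Injective fun j : ℕ => tt m ∅ + bb 0 ^ j := by
    intro i j hij
    simp only [add_right_inj, bb, ← map_pow] at hij
    have h4 := IsFractionRing.injective Pl KK hij
    have h5 := congrArg MvPolynomial.totalDegree h4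
    simpa using h5
  have h6 := eq_zero_of_infinite_isRoot _ (Set.infinite_of_injective_forall_mem h3 h1)
  exact (Polynomial.map_eq_zero_iff (K0 m).subtype.injective).1 h6

lemma const_K0 (m : ℕ) (c : ZMod 2) : algebraMap Pl KK (MvPolynomial.C c) ∈ K0 m :=
  mem_K0.2 fun j => by
    rw [ψ_alg]
    congr 1
    exact (ψ0 m j).commutes c

lemma surj0 (m : ℕ) (p : Pl) : ∃ q : (K0 m)[X], algebraMap Pl KK p = aeval (tt m ∅) q := by
  induction p using MvPolynomial.induction_on with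
  | C c => exact ⟨C ⟨_, const_K0 m c⟩, by rw [aeval_C]; rfl⟩
  | add p q hp hq =>
    obtain ⟨p', hp'⟩ := hp
    obtain ⟨q', hq'⟩ := hq
    exact ⟨p' + q', by rw [map_add, map_add, hp', hq']⟩
  | mul_X p v hp =>
    obtain ⟨p', hp'⟩ := hp
    suffices ∃ q : (K0 m)[X], algebraMap Pl KK (MvPolynomial.X v) = aeval (tt m ∅) q by
      obtain ⟨q', hq'⟩ := this
      exact ⟨p' * q', by rw [map_mul, map_mul, hp', hq']⟩
    rcases v with i | ⟨m', S⟩
    · exact ⟨C ⟨_, b_K0 m i⟩, by rw [aeval_C]; rfl⟩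
    · by_cases h : m' = m
      · subst h
        refine ⟨C ⟨_, s_K0 m' S⟩ + X * C ⟨∏ i ∈ S, bb i, prod_mem fun i _ => b_K0 m' i⟩, ?_⟩
        rw [map_add, map_mul, aeval_C, aeval_C, aeval_X]
        exact (sub_add_cancel _ _).symm
      · exact ⟨C ⟨_, t_K0 m m' S h⟩, by rw [aeval_C]; rfl⟩

lemma ev_K0 (p : Pl) : ∀ᶠ m in Filter.atTop, algebraMap Pl KK p ∈ K0 m := by
  induction p using MvPolynomial.induction_on with
  | C c => exact Filter.Eventually.of_forall fun m => const_K0 m c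
  | add p q hp hq =>
    filter_upwards [hp, hq] with m h1 h2
    rw [map_add]; exact add_mem h1 h2
  | mul_X p v hp =>
    rcases v with i | ⟨m', S⟩
    · filter_upwards [hp] with m h1
      rw [map_mul]; exact mul_mem h1 (b_K0 m i)
    · filter_upwards [hp, Filter.eventually_gt_atTop m'] with m h1 h2
      rw [map_mul]; exact mul_mem h1 (t_K0 m m' S h2.ne)

noncomputable def data : Data KK where
  b := bb
  tt := tt
  k := kk
  K0 := K0
  hb0 := b_ne
  hbk i := by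
    rw [kk, RingHom.mem_eqLocusField, map_mul, φ_b, smul_mul_smul_comm, g_sq,
      Algebra.algebraMap_eq_smul_one]
  htk m S := by
    rw [kk, RingHom.mem_eqLocusField]
    conv_lhs => rw [tt, φ_alg, φ0, MvPolynomial.aeval_X]
    rfl
  hinj a ha h0 := by
    have : ∃ y, a = φ y := by
      clear h0
      induction ha using Algebra.adjoin_induction with
      | mem y hy =>
        obtain ⟨i, rfl⟩ := hy
        exact ⟨bb i, (φ_b i).symm⟩
      | algebraMap c =>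
        refine ⟨c, ?_⟩
        rw [IsScalarTower.algebraMap_apply kk KK (O KK)]
        exact c.2.symm
      | add y z _ _ hy hz =>
        obtain ⟨y', rfl⟩ := hy
        obtain ⟨z', rfl⟩ := hz
        exact ⟨y' + z', (map_add φ _ _).symm⟩
      | mul y z _ _ hy hz =>
        obtain ⟨y', rfl⟩ := hy
        obtain ⟨z', rfl⟩ := hz
        exact ⟨y' * z', (map_mul φ _ _).symm⟩
    obtain ⟨y, rfl⟩ := this
    rw [ε_φ] at h0
    rw [h0, map_zero]
  h1 := b_K0
  h2 := t_K0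
  h3 := s_K0
  h4 m h := by
    have h1 := mem_K0.1 h 0
    rw [ψ_t] at h1
    simp at h1
  h5 m := LieML.irr_of_gen (K0 m) (tt m ∅) (trans m) (by
    intro z
    obtain ⟨p, q, _, rfl⟩ := IsFractionRing.div_surjective (A := Pl) z
    obtain ⟨p', hp'⟩ := surj0 m p
    obtain ⟨q', hq'⟩ := surj0 m q
    exact ⟨p', q', by rw [hp', hq']⟩)
  h6 z := by
    obtain ⟨p, q, _, rfl⟩ := IsFractionRing.div_surjective (A := Pl) z
    filter_upwards [ev_K0 p, ev_K0 q] with m h1 h2 using div_mem h1 h2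

theorem main : ∃ (K : Type) (_ : Field K) (L : Type) (_ : LieRing L) (_ : LieAlgebra K L),
      (¬ ∃ s : Set L, s.Finite ∧ LieSubalgebra.lieSpan K L s = ⊤) ∧
      ∀ H : LieSubalgebra K L, H ≠ ⊤ → FiniteDimensional K H :=
  ⟨data.k, inferInstance, data.L, inferInstance, inferInstance, data.not_fg, data.proper_fin⟩

end Pool.Agent.H28.LiePr
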