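import Mathlib

set_option autoImplicit false

namespace Pool.Agent.H28.MeasExt

open MeasureTheory Set Filter Topology
open scoped InnerProductSpace

lemma sand {V D : Type*} [AddCommGroup V] [Module ℝ V] [AddCommGroup D] [Module ℝ D]
    (F : V × D → ℝ) (h1 : ∀ c : ℝ, 0 < c → ∀ x, F (c • x) = c * F x)
    (h2 : ∀ x y, F (x + y) ≤ F x + F y) (h3 : ∀ d, 0 ≤ F (0, d)) :
    ∃ ω : V →ₗ[ℝ] ℝ, ∀ v d, ω v ≤ F (v, d) := by
  obtain ⟨g, hg, hF⟩ := exists_extension_of_le_sublinear
    ⟨LinearMap.range (LinearMap.inr ℝ V D), 0⟩ F h1 h2 (by rintro ⟨_, d, rfl⟩; exact h3 d)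
  refine ⟨g ∘ₗ LinearMap.inl ℝ V D, fun v d => le_of_eq_of_le ?_ (hF (v, d))⟩
  have : g (0, d) = 0 := hg ⟨(0, d), d, rfl⟩
  rw [show (v, d) = (v, 0) + (0, d) by simp, map_add, this, add_zero]; rfl

variable {H : Type*} [NormedAddCommGroup H] [InnerProductSpace ℂ H]

lemma proj_comm (K : Submodule ℂ H) [K.HasOrthogonalProjection] (W : H →L[ℂ] H)
    (h1 : ∀ v ∈ K, W v ∈ K) (h2 : ∀ v ∈ Kᗮ, W v ∈ Kᗮ) (v : H) :
    K.starProjection (W v) = W (K.starProjection v) :=
  Submodule.eq_starProjection_of_mem_orthogonal (h1 _ (K.starProjection_apply_mem v))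
    (by rw [← map_sub]; exact h2 _ (K.sub_starProjection_mem_orthogonal v))

lemma closed_left (F : ℝ → H) : IsClosed {v : H | AEMeasurable fun t => ⟪v, F t⟫_ℂ} :=
  IsSeqClosed.isClosed fun _ _ hu hv => aemeasurable_of_tendsto_metrizable_ae' hu
    (Eventually.of_forall fun _ => hv.inner tendsto_const_nhds)

lemma joint (G F : ℝ → H) (hG : Continuous G) (hF : ∀ v, AEMeasurable fun t => ⟪v, F t⟫_ℂ) :
    AEMeasurable fun t => ⟪G t, F t⟫_ℂ := by
  have := measurable_uncurry_of_continuous_of_measurable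
    (α := NullMeasurableSpace ℝ volume) (u := fun s t => ⟪G s, F t⟫_ℂ)
    (fun t => hG.inner continuous_const) fun s => (hF (G s)).nullMeasurable
  have h : Measurable fun t : NullMeasurableSpace ℝ volume =>
      ((t, t) : ℝ × NullMeasurableSpace ℝ volume) :=
    Measurable.prodMk (measurable_id.nullMeasurable (μ := volume)) measurable_id
  exact NullMeasurable.aemeasurable (this.comp h)

/-- vectors all of whose matrix coefficients are measurable -/
def Meas (U : ℝ → H →L[ℂ] H) : Submodule ℂ H where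
  carrier := {ζ | ∀ θ, AEMeasurable fun t => ⟪θ, U t ζ⟫_ℂ}
  add_mem' ha hb θ := by simpa [inner_add_right] using (ha θ).fun_add (hb θ)
  zero_mem' θ := by simp
  smul_mem' c a ha θ := by simpa [inner_smul_right] using (ha θ).const_mul c

lemma Meas_closed (U : ℝ → H →L[ℂ] H) : IsClosed (Meas U : Set H) :=
  IsSeqClosed.isClosed fun _ _ hu hv θ => aemeasurable_of_tendsto_metrizable_ae'
    (fun n => hu n θ) (Eventually.of_forall fun t =>
      tendsto_const_nhds.inner (((U t).continuous.tendsto _).comp hv))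

variable [CompleteSpace H]

noncomputable def e (δ a : ℝ) (x : H) : Lp H 2 (volume : Measure ℝ) :=
  indicatorConstLp 2 (measurableSet_Icc (a := a) (b := a + δ)) measure_Icc_lt_top.ne x

lemma inner_e (δ a b : ℝ) (x y : H) : ⟪e δ a x, e δ b y⟫_ℂ =
    (max (min (a + δ) (b + δ) - max a b) 0 : ℝ) * ⟪x, y⟫_ℂ := by
  rw [e, e, L2.inner_indicatorConstLp_indicatorConstLp _ _ measure_Icc_lt_top.ne
    measure_Icc_lt_top.ne, Icc_inter_Icc, Real.volume_real_Icc,
    Complex.real_smul]

lemma e_cont (δ : ℝ) (x : H) : Continuous fun a => e δ a x := by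
  refine continuous_iff_continuousAt.2 fun b => tendsto_iff_norm_sub_tendsto_zero.2 ?_
  have h : ∀ a, ‖e δ a x - e δ b x‖ = √(⟪e δ a x, e δ a x⟫_ℂ - ⟪e δ a x, e δ b x⟫_ℂ -
      ⟪e δ b x, e δ a x⟫_ℂ + ⟪e δ b x, e δ b x⟫_ℂ).re := fun a => by
    rw [← inner_sub_sub_self, @norm_eq_sqrt_re_inner ℂ]; rfl
  simp only [h, inner_e]
  exact Continuous.tendsto' (by fun_prop) _ _ (by simp)

noncomputable def W (U : ℝ → H →L[ℂ] H) (t : ℝ) :
    Lp H 2 (volume : Measure ℝ) →L[ℂ] Lp H 2 (volume : Measure ℝ) :=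
  (Lp.compMeasurePreservingₗᵢ ℂ (· - t) (measurePreserving_sub_right volume t)
    ).toContinuousLinearMap ∘L (U t).compLpL 2 volume

lemma W_inner (U : ℝ → H →L[ℂ] H) (hin : ∀ a v w, ⟪U a v, U a w⟫_ℂ = ⟪v, w⟫_ℂ) (t : ℝ)
    (x y : Lp H 2 (volume : Measure ℝ)) : ⟪W U t x, W U t y⟫_ℂ = ⟪x, y⟫_ℂ := by
  simp only [W, ContinuousLinearMap.comp_apply, LinearIsometry.coe_toContinuousLinearMap,
    LinearIsometry.inner_map_map]
  rw [L2.inner_def, L2.inner_def]
  refine integral_congr_ae ?_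
  filter_upwards [(U t).coeFn_compLpL x, (U t).coeFn_compLpL y] with s h1 h2
  rw [h1, h2, hin]

lemma W_e (U : ℝ → H →L[ℂ] H) (t δ a : ℝ) (x : H) : W U t (e δ a x) = e δ (a + t) (U t x) := by
  have h : (U t).compLpL 2 volume (e δ a x) = e δ a (U t x) := by
    ext1
    filter_upwards [(U t).coeFn_compLpL (e δ a x),
      indicatorConstLp_coeFn (p := 2) (hs := measurableSet_Icc (a := a) (b := a + δ))
        (hμs := measure_Icc_lt_top.ne) (c := x) (μ := volume),
      indicatorConstLp_coeFn (p := 2) (hs := measurableSet_Icc (a := a) (b := a + δ))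
        (hμs := measure_Icc_lt_top.ne) (c := U t x) (μ := volume)] with s h1 h2 h3
    rw [h1, e, e, h2, h3]
    by_cases hs : s ∈ Icc a (a + δ) <;> simp [hs]
  rw [W, ContinuousLinearMap.comp_apply, h]
  refine (Lp.indicatorConstLp_compMeasurePreserving _ _ _
    (measurePreserving_sub_right volume t)).trans ?_
  rw [e]
  congr 1
  ext s
  simp only [mem_preimage, mem_Icc]
  constructor <;> rintro ⟨h1, h2⟩ <;> constructor <;> linarith

theorem key (U : ℝ → H →L[ℂ] H) (h0 : ∀ v, U 0 v = v) (hadd : ∀ a b v, U (a + b) v = U a (U b v))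
    (hin : ∀ a v w, ⟪U a v, U a w⟫_ℂ = ⟪v, w⟫_ℂ) (x η : H) (δ : ℝ) (hδ : 0 < δ)
    (hm : AEMeasurable (fun t => ⟪η, U t x⟫_ℂ) (volume.restrict (Icc (-δ) δ)))
    (hx : x ∈ (Meas U)ᗮ) : ⟪η, x⟫_ℂ = 0 := by
  let S : Set (Lp H 2 (volume : Measure ℝ)) := range fun a => e δ a (U a x)
  let K := (Submodule.span ℂ S).topologicalClosure
  have sub : ∀ (T : Submodule ℂ (Lp H 2 (volume : Measure ℝ))),
      IsClosed (T : Set (Lp H 2 (volume : Measure ℝ))) → (∀ a, e δ a (U a x) ∈ T) → K ≤ T := fun T h1 h2 =>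
    Submodule.topologicalClosure_minimal _ (Submodule.span_le.2 (range_subset_iff.2 h2)) h1
  have gen : ∀ a, e δ a (U a x) ∈ K := fun a =>
    Submodule.le_topologicalClosure _ (Submodule.subset_span ⟨a, rfl⟩)
  have sa : ∀ u v, ⟪u, K.starProjection v⟫_ℂ = ⟪K.starProjection u, v⟫_ℂ := fun u v =>
    (K.inner_starProjection_left_eq_right u v).symm
  have cm : ∀ t v, K.starProjection (W U t v) = W U t (K.starProjection v) := fun t =>
    proj_comm K _ (sub (K.comap (W U t).toLinearMap)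
      ((Submodule.isClosed_topologicalClosure _).preimage (W U t).continuous) fun a => by
        change W U t _ ∈ K
        rw [W_e, ← hadd, add_comm t]; exact gen _) fun v hv u hu =>
      sub (LinearMap.ker (innerSL ℂ (W U t v)).toLinearMap) (innerSL ℂ (W U t v)).isClosed_ker
        (fun a => by
          change ⟪W U t v, _⟫_ℂ = 0
          have := W_e U t δ (a - t) (U (a - t) x)
          rw [← hadd, sub_add_cancel, add_sub_cancel] at this
          rw [← this, W_inner U hin, inner_eq_zero_symm]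
          exact hv _ (gen _)) hu |> inner_eq_zero_symm.1
  have wm : ∀ y, AEMeasurable fun t => ⟪y, W U t (K.starProjection (e δ 0 η))⟫_ℂ := fun y => by
    simp only [← cm, sa]
    let T : Submodule ℂ (Lp H 2 (volume : Measure ℝ)) :=
      { carrier := {v | AEMeasurable fun t => ⟪v, W U t (e δ 0 η)⟫_ℂ}
        add_mem' := fun ha hb => by simpa [inner_add_left] using ha.fun_add hb
        zero_mem' := by simp
        smul_mem' := fun c a ha => by simpa [inner_smul_left] using ha.const_mul _ }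
    refine sub T (closed_left _) (fun a => ?_) (K.starProjection_apply_mem y)
    have m1 := ((aemeasurable_indicator_iff measurableSet_Icc).2 hm).comp_quasiMeasurePreserving
      (Measure.measurePreserving_sub_left volume a).quasiMeasurePreserving
    have m2 : Measurable fun t => ((max (min (a + δ) (t + δ) - max a t) 0 : ℝ) : ℂ) := by fun_prop
    refine (m2.aemeasurable.mul (Complex.continuous_conj.measurable.comp_aemeasurable m1)).congr
      (Eventually.of_forall fun t => ?_)
    simp only [Pi.mul_apply, Function.comp_apply, W_e, inner_e, zero_add]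
    by_cases h : a - t ∈ Icc (-δ) δ
    · rw [indicator_of_mem h, inner_conj_symm, ← hin t, ← hadd, add_sub_cancel]
    · rw [max_eq_right, Complex.ofReal_zero, zero_mul, zero_mul]
      rw [mem_Icc, not_and_or, not_le, not_le] at h
      rcases h with h | h
      · linarith [min_le_left (a + δ) (t + δ), le_max_right a t]
      · linarith [min_le_right (a + δ) (t + δ), le_max_left a t]
  have sl : ∀ θ, ⟪θ, ∫ s in Icc 0 (0 + δ), K.starProjection (e δ 0 η) s⟫_ℂ =
      ⟪e δ 0 θ, K.starProjection (e δ 0 η)⟫_ℂ := fun θ =>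
    (L2.inner_indicatorConstLp_eq_inner_setIntegral ℂ _ _ _ _).symm
  have := hx (∫ s in Icc 0 (0 + δ), K.starProjection (e δ 0 η) s) fun θ => by
    refine (joint (fun t => e δ t θ) _ (e_cont δ θ) wm).congr (Eventually.of_forall fun t => ?_)
    have e1 : U t (U (-t) θ) = θ := by rw [← hadd, add_neg_cancel, h0]
    simp only
    conv_rhs => rw [← e1, hin, sl, ← W_inner U hin t, W_e, e1, zero_add]
  have g0 := gen 0
  rw [h0] at g0
  rw [inner_eq_zero_symm, sl, sa, Submodule.starProjection_eq_self_iff.2 g0, inner_e] at this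
  rw [inner_eq_zero_symm]
  simpa [hδ.le, hδ.ne'] using this

theorem ext (U : ℝ → H →L[ℂ] H) (h0 : ∀ v, U 0 v = v) (hadd : ∀ a b v, U (a + b) v = U a (U b v))
    (hin : ∀ a v w, ⟪U a v, U a w⟫_ℂ = ⟪v, w⟫_ℂ) (ξ η : H) (I : Set ℝ) (hI : IsOpen I)
    (hm : AEMeasurable (fun t => ⟪η, U t ξ⟫_ℂ) (volume.restrict I)) :
    ∃ ζ : H, (AEMeasurable fun t => ⟪η, U t ζ⟫_ℂ) ∧ ∀ t ∈ I, ⟪η, U t ζ⟫_ℂ = ⟪η, U t ξ⟫_ℂ := by
  haveI := (Meas_closed U).completeSpace_coe
  have hp := (Meas U).starProjection_apply_mem ξ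
  refine ⟨_, hp η, fun t ht => ?_⟩
  obtain ⟨δ, hδ, hb⟩ := Metric.nhds_basis_closedBall.mem_iff.1 (hI.mem_nhds ht)
  rw [eq_comm, ← sub_eq_zero, ← inner_sub_right, ← map_sub]
  refine key U h0 hadd hin _ η δ hδ ?_ fun ζ hζ => ?_
  · have m := ((hm.mono_set hb).sub (hp η).restrict).comp_quasiMeasurePreserving
      ((measurePreserving_add_right volume t).restrict_preimage
        measurableSet_closedBall).quasiMeasurePreserving
    rw [show (· + t) ⁻¹' Metric.closedBall t δ = Icc (-δ) δ by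
      ext s; simp [abs_le, Real.dist_eq]] at m
    refine m.congr (Eventually.of_forall fun s => ?_)
    simp [← hadd, inner_sub_right]
  · have e1 : U t (U (-t) ζ) = ζ := by rw [← hadd, add_neg_cancel, h0]
    rw [← e1, hin]
    refine (Meas U).sub_starProjection_mem_orthogonal ξ _ fun θ => ?_
    simpa [← hadd, Function.comp_def] using (hζ θ).comp_quasiMeasurePreserving
      (measurePreserving_add_right volume (-t)).quasiMeasurePreserving

end Pool.Agent.H28.MeasExt
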