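import Mathlib

/-!
Permutation pairs with a unique occurrence and unbounded Moebius function.
-/

namespace Pool.Agent.H28.Mobius

open Finset

abbrev Z := Σ n : ℕ, Equiv.Perm (Fin n)

def Le (x y : Z) : Prop :=
  ∃ e : Fin x.1 → Fin y.1, StrictMono e ∧ ∀ i j, x.2 i < x.2 j ↔ y.2 (e i) < y.2 (e j)

lemma Le.refl (x : Z) : Le x x := ⟨id, strictMono_id, fun _ _ => Iff.rfl⟩

lemma perm_eq {n : ℕ} {a b : Equiv.Perm (Fin n)} (h : ∀ i j, a i < a j ↔ b i < b j) : a = b := by
  have hs : StrictMono (fun i => b (a.symm i)) := fun i j hij => (h _ _).1 (by simpa using hij)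
  refine Equiv.ext fun i => ?_
  have h1 := hs.le_apply (x := a i)
  have h2 := hs.apply_le (x := a i)
  simp only [Equiv.symm_apply_apply] at h1 h2
  exact le_antisymm h1 h2

lemma Le.eq_of {n : ℕ} {a b : Equiv.Perm (Fin n)} (h : Le ⟨n, a⟩ ⟨n, b⟩) : a = b := by
  obtain ⟨e, he, h⟩ := h
  have : ∀ i, e i = i := fun i => le_antisymm he.apply_le he.le_apply
  exact perm_eq fun i j => by simpa [this] using h i j

open Classical in
noncomputable def M (x : Z) (n : ℕ) (π : Equiv.Perm (Fin n)) : ℤ :=
  if x = ⟨n, π⟩ then 1 else if Le x ⟨n, π⟩ then
    -∑ k : Fin n, ∑ ρ : Equiv.Perm (Fin k.val),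
      if Le x ⟨k.val, ρ⟩ ∧ Le ⟨k.val, ρ⟩ ⟨n, π⟩ then M x k.val ρ else 0
  else 0
termination_by n
decreasing_by exact k.isLt

open Classical in
lemma exists_mob : ∃ m : Z → Z → ℤ, (∀ x, m x x = 1) ∧ (∀ x y, ¬ Le x y → m x y = 0) ∧
    ∀ x y, x ≠ y → Le x y → ∑ k ∈ range (y.1 + 1), ∑ ρ : Equiv.Perm (Fin k),
      (if Le x ⟨k, ρ⟩ ∧ Le ⟨k, ρ⟩ y then m x ⟨k, ρ⟩ else 0) = 0 := by
  refine ⟨fun x y => M x y.1 y.2, ?_, ?_, ?_⟩
  · intro x
    show M x x.1 x.2 = 1
    rw [M.eq_1, if_pos rfl]
  · intro x y h
    have : x ≠ y := fun hh => h (hh ▸ Le.refl x)
    show M x y.1 y.2 = 0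
    rw [M.eq_1, if_neg this, if_neg h]
  · rintro x ⟨n, π⟩ h1 h2
    rw [Finset.sum_range_succ, Finset.sum_eq_single π, if_pos ⟨h2, Le.refl _⟩]
    · simp only
      rw [M.eq_1 x n π, if_neg h1, if_pos h2, Finset.sum_range]
      exact add_neg_cancel _
    · intro ρ _ hρ
      exact if_neg fun h => hρ h.2.eq_of
    · simp

section General

variable {α : Type} [DecidableEq α] (p v : α → ℕ)

def Emb (z : Z) (e : Fin z.1 → α) : Prop :=
  (∀ i j, i < j ↔ p (e i) < p (e j)) ∧ ∀ i j, z.2 i < z.2 j ↔ v (e i) < v (e j)

def Pat (z : Z) (T : Finset α) : Prop := ∃ e, Emb p v z e ∧ univ.image e = T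

def Pres (φ : α → α) (T : Finset α) : Prop :=
  ∀ a ∈ T, ∀ b ∈ T, (p a < p b ↔ p (φ a) < p (φ b)) ∧ (v a < v b ↔ v (φ a) < v (φ b))

def C (T : Finset α) : Finset (ℕ × ℕ) :=
  T.image fun a => (#(T.filter fun b => p b < p a), #(T.filter fun b => v b < v a))

def I (z : Z) : Finset (ℕ × ℕ) := univ.image fun i => (i.val, (z.2 i).val)

variable {p v}

omit [DecidableEq α] in
lemma Emb.inj {z : Z} {e : Fin z.1 → α} (h : Emb p v z e) : Function.Injective e := by
  intro i j hij
  have h1 := h.1 i j
  have h2 := h.1 j i
  rw [hij] at h1 h2
  exact le_antisymm (not_lt.1 fun hh => lt_irrefl _ (h2.1 hh)) (not_lt.1 fun hh => lt_irrefl _ (h1.1 hh))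

lemma exists_pat (hp : Function.Injective p) (hv : Function.Injective v) (T : Finset α) :
    ∃ z, Pat p v z T := by
  letI : LinearOrder α := LinearOrder.lift' p hp
  let e : Fin T.card → α := T.orderEmbOfFin rfl
  have he : StrictMono e := (T.orderEmbOfFin rfl).strictMono
  have hs : StrictMono ((v ∘ e) ∘ Tuple.sort (v ∘ e)) :=
    (Tuple.monotone_sort _).strictMono_of_injective
      ((hv.comp he.injective).comp (Equiv.injective _))
  refine ⟨⟨T.card, (Tuple.sort (v ∘ e)).symm⟩, e, ⟨fun i j => he.lt_iff_lt.symm, fun i j => ?_⟩, ?_⟩
  · rw [← hs.lt_iff_lt]; simp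
  · apply Finset.coe_injective
    rw [coe_image, coe_univ, Set.image_univ]
    exact T.range_orderEmbOfFin rfl

lemma I_inj : Function.Injective I := by
  rintro ⟨n, a⟩ ⟨k, b⟩ h
  have hc : ∀ z : Z, #(I z) = z.1 := fun z => by
    rw [I, card_image_of_injective _ fun i j hij => Fin.ext (Prod.ext_iff.1 hij).1]; simp
  have hnk : n = k := (hc ⟨n, a⟩).symm.trans ((congrArg card h).trans (hc ⟨k, b⟩))
  subst hnk
  congr 1
  refine Equiv.ext fun i => ?_
  have : (i.val, (a i).val) ∈ I ⟨n, b⟩ := h ▸ mem_image_of_mem _ (mem_univ i)
  obtain ⟨j, -, hj⟩ := mem_image.1 this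
  obtain ⟨h1, h2⟩ := Prod.ext_iff.1 hj
  rw [← Fin.ext h2, Fin.ext h1]

lemma Pat.code {z : Z} {T : Finset α} (h : Pat p v z T) : I z = C p v T := by
  obtain ⟨e, he, rfl⟩ := h
  rw [I, C, image_image]
  refine image_congr fun i _ => Prod.ext ?_ ?_
  · simp only [Function.comp]
    rw [filter_image, card_image_of_injective _ he.inj, ← Fin.card_Iio]
    congr 1; ext j; simp [he.1]
  · simp only [Function.comp]
    rw [filter_image, card_image_of_injective _ he.inj, ← Fin.card_Iio]
    symm
    refine card_bij (fun j _ => z.2 j) ?_ ?_ ?_
    · intro j hj; simpa [he.2] using hj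
    · intro a _ b _ hab; exact z.2.injective hab
    · intro b hb
      exact ⟨z.2.symm b, by simpa [← he.2] using hb, by simp⟩

lemma Pat.unique {z z' : Z} {T : Finset α} (h : Pat p v z T) (h' : Pat p v z' T) : z = z' :=
  I_inj (h.code.trans h'.code.symm)

lemma Pat.map {z : Z} {T : Finset α} {φ : α → α} (h : Pat p v z T) (hφ : Pres p v φ T) :
    Pat p v z (T.image φ) := by
  obtain ⟨e, he, rfl⟩ := h
  have hm : ∀ i, e i ∈ univ.image e := fun i => mem_image_of_mem _ (mem_univ i)
  exact ⟨φ ∘ e, ⟨fun i j => (he.1 i j).trans (hφ _ (hm i) _ (hm j)).1,
    fun i j => (he.2 i j).trans (hφ _ (hm i) _ (hm j)).2⟩, by rw [image_image]⟩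

lemma Emb.iso {z : Z} {e e' : Fin z.1 → α} (he : Emb p v z e) (he' : Emb p v z e') :
    ∃ φ : α → α, Pres p v φ (univ.image e) ∧ ∀ i, φ (e i) = e' i := by
  refine ⟨Function.extend e e' id, ?_, fun i => he.inj.extend_apply _ _ i⟩
  intro a ha b hb
  obtain ⟨i, -, rfl⟩ := mem_image.1 ha
  obtain ⟨j, -, rfl⟩ := mem_image.1 hb
  rw [he.inj.extend_apply, he.inj.extend_apply]
  exact ⟨(he.1 i j).symm.trans (he'.1 i j), (he.2 i j).symm.trans (he'.2 i j)⟩

lemma Pat.iso {z : Z} {T T' : Finset α} (h : Pat p v z T) (h' : Pat p v z T') :
    ∃ φ : α → α, Pres p v φ T ∧ T.image φ = T' := by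
  obtain ⟨e, he, rfl⟩ := h
  obtain ⟨e', he', rfl⟩ := h'
  obtain ⟨φ, h1, h2⟩ := he.iso he'
  exact ⟨φ, h1, by rw [image_image]; exact image_congr fun i _ => h2 i⟩

omit [DecidableEq α] in
lemma Emb.comp {z y : Z} {f : Fin y.1 → α} (hf : Emb p v y f) {e : Fin z.1 → Fin y.1}
    (he : StrictMono e ∧ ∀ i j, z.2 i < z.2 j ↔ y.2 (e i) < y.2 (e j)) : Emb p v z (f ∘ e) :=
  ⟨fun _ _ => he.1.lt_iff_lt.symm.trans (hf.1 _ _), fun i j => (he.2 i j).trans (hf.2 _ _)⟩

lemma Pat.le_iff {z y : Z} {T : Finset α} (h : Pat p v y T) :
    Le z y ↔ ∃ T' ⊆ T, Pat p v z T' := by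
  obtain ⟨f, hf, rfl⟩ := h
  constructor
  · rintro ⟨e, he⟩
    refine ⟨_, ?_, f ∘ e, hf.comp he, rfl⟩
    intro a ha
    obtain ⟨i, -, rfl⟩ := mem_image.1 ha
    exact mem_image_of_mem _ (mem_univ _)
  · rintro ⟨T', hT, e, he, rfl⟩
    have : ∀ i, ∃ j, f j = e i := fun i => by
      simpa using hT (mem_image_of_mem _ (mem_univ i))
    choose g hg using this
    refine ⟨g, fun i j hij => (hf.1 _ _).2 ?_, fun i j => ?_⟩
    · rw [hg, hg]; exact (he.1 i j).1 hij
    · rw [hf.2, hg, hg]; exact he.2 i j

end General

/-! ### the gadget -/

def v0 : Fin 12 → ℕ := ![10, 1, 3, 7, 0, 5, 8, 2, 4, 11, 9, 6]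

def io (a : Fin 8) : Fin 12 := ⟨a.val + 1, by omega⟩

def full (W : Finset (Fin 8)) : Finset (Fin 12) := {0, 9, 10, 11} ∪ W.image io

def TBL : ℕ := 0x7ac53961842b0000069b4285173a0000069b4385172a00000058a32741690000079b5386142a00000068a427513900000068a437512900000005793264180000069b4285731a00000058a317462900000058a3274619000000047921635800000068a42753190000000579316428000000057932641800000000468215370000069b5381742a00000058a427163900000058a4371629000000047932615800000068a537142900000005794261380000000579436128000000004683251700000058a427631900000004793165280000000479326518000000003682154700000005794263180000000046831527000000004683251700000000035721460000079b5361842a00000068a425173900000068a4351729000000057932416800000078a536142900000006794251380000000679435128000000005683241700000068a4257319000000057931462800000005793246180000000046821357000000067942531800000000568314270000000056832417000000000457213600000068a531742900000005794216380000000579431628000000004683215700000006795314280000000056842137000000005684312700000000045732160000000579426318000000004683152700000000468325170000000003572146000000005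68423170000000004573126000000000457321600000000003462150000069b4851732a00000058a374162900000058a3741629000000047926315800000068a475132900000005793641280000000579364128000000004682531700000058a3746219000000047926351800000004792635180000000036815247000000057936421800000000468253170000000046825317000000000357142600000058a471632900000004793615280000000479361528000000003682514700000005794613280000000046835127000000004683512700000000035724160000000479365218000000003682541700000000368254170000000002571436000000004683521700000000035724160000000003572416000000000024613500000068a451732900000005793416280000000579341628000000004682315700000006794513280000000056834127000000005683412700000000045723160000000579346218000000004682351700000000468235170000000003571246000000005683421700000000045723160000000004572316000000000034612500000005794163280000000046831527000000004683152700000000035721460000000056841327000000000457312600000000045731260000000000346215000000004683521700000000035724160000000003572416000000000024613500000000045732160000000000346215000000000034621500000000000235140000069b3851742a00000058a27416390000005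8a3741629000000047926315800000068a375142900000005792641380000000579364128000000004682531700000058a2746319000000047916352800000004792635180000000036815247000000057926431800000000468153270000000046825317000000000357142600000058a371642900000004792615380000000479361528000000003682514700000005793614280000000046825137000000004683512700000000035724160000000479265318000000003681542700000000368254170000000002571436000000004682531700000000035714260000000003572416000000000024613500000068a3517429000000057924163800000005793416280000000046823157000000067935142800000000568241370000000056834127000000000457231600000005792463180000000046813527000000004682351700000000035712460000000056824317000000000457132600000000045723160000000000346125000000057931642800000000468215370000000046831527000000000357214600000000568314270000000004572136000000000457312600000000003462150000000046825317000000000357142600000000035724160000000000246135000000000457231600000000003461250000000000346215000000000002351400000058a7416329000000047963152800000004796315280000000036852147000000057964132800000000468531270000000046853127000000000357421600000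004796352180000000036852417000000003685241700000000025741360000000046853217000000000357421600000000035742160000000000246315000000047961532800000000368514270000000036851427000000000257413600000000468513270000000003574126000000000357412600000000002463150000000036854217000000000257431600000000025743160000000000146325000000000357421600000000002463150000000000246315000000000001352400000005794163280000000046831527000000004683152700000000035721460000000056841327000000000457312600000000045731260000000000346215000000004683521700000000035724160000000003572416000000000024613500000000045732160000000000346215000000000034621500000000000235140000000046815327000000000357142600000000035714260000000000246135000000000457132600000000003461250000000000346125000000000002351400000000035742160000000000246315000000000024631500000000000135240000000000346215000000000002351400000000000235140000000000001243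

def HT : ℕ := 0x92392492452c92492492492c924924924924924924924924924924924924924924924924924b2492c92492492492492492492492492492392492c9249249249249249249248e492492492492492492b92492492492c92492492392492492492492492c92492492492492492c8e4923924924924924924924924924924924924924b24b24924b2492492492492492492492492c9249649249249249249249249249249249249248e4b2492492392492492c92492492392492492492492492492392492492492492492492392392492492492492492492492492492492492492492492492492492492492492c92492c924b249249249248e4924924924b23924924924924924924924924923924b6492cb249249249239249249249238e39249249249249248e492c924924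

def cls (W : Finset (Fin 8)) : ℕ := (TBL >>> (64 * ∑ a ∈ W, 2 ^ a.val)) % 2 ^ 64

def h (c : ℕ) : ℤ := (((HT >>> (3 * (c % 796))) % 8 : ℕ) : ℤ) - 4

def dec (c : ℕ) : Finset (ℕ × ℕ) :=
  ((range 12).filter fun i => c / 16 ^ i % 16 ≠ 0).image fun i => (i, c / 16 ^ i % 16 - 1)

def num (s : Finset (ℕ × ℕ)) : ℕ := ∑ q ∈ s, (q.2 + 1) * 16 ^ q.1

lemma v0_lt : ∀ a, v0 a < 12 := by decide

lemma v0_inj : Function.Injective v0 := by decide

set_option synthInstance.maxSize 2000 in
lemma rigid : ∀ a b c d : Fin 12, a < b → b < c → c < d → v0 d < v0 c → v0 c < v0 a →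
    v0 a < v0 b → a = 0 ∧ b = 9 ∧ c = 10 ∧ d = 11 := by decide +kernel

lemma code_ok : ∀ W : Finset (Fin 8), C Fin.val v0 (full W) = dec (cls W) ∧
    num (dec (cls W)) = cls W := by decide +kernel

lemma h_rec : ∀ W : Finset (Fin 8), W ≠ ∅ → ∑ c ∈ W.powerset.image cls, h c = 0 := by
  decide +kernel

lemma h_bot : h (cls ∅) = 1 := by decide +kernel

lemma h_top : h (cls univ) = -2 := by decide +kernel

end Pool.Agent.H28.Mobius
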