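import Pool.Agent.H28.Mobius

namespace Pool.Agent.H28.Mobius

open Finset

lemma sum_image_congr {A B D : Type} [DecidableEq B] [DecidableEq D] (s : Finset A) (f : A → B)
    (g : A → D) (F : B → ℤ) (G : D → ℤ) (h1 : ∀ a b, f a = f b ↔ g a = g b)
    (h2 : ∀ a, F (f a) = G (g a)) : ∑ z ∈ s.image f, F z = ∑ c ∈ s.image g, G c := by
  have hex : ∀ z ∈ s.image f, ∃ a ∈ s, f a = z := fun z hz => mem_image.1 hz
  choose r hr1 hr2 using hex
  refine Finset.sum_bij (fun z hz => g (r z hz)) ?_ ?_ ?_ ?_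
  · intro z hz; exact mem_image_of_mem _ (hr1 z hz)
  · intro z hz z' hz' hh
    rw [← hr2 z hz, ← hr2 z' hz']; exact (h1 _ _).2 hh
  · intro c hc
    obtain ⟨a, ha, rfl⟩ := mem_image.1 hc
    exact ⟨f a, mem_image_of_mem _ ha, (h1 _ _).1 (hr2 _ _)⟩
  · intro z hz
    rw [← h2, hr2]

lemma mem_full {W : Finset (Fin 8)} {a : Fin 12} :
    a ∈ full W ↔ (a = 0 ∨ a = 9 ∨ a = 10 ∨ a = 11) ∨ ∃ b ∈ W, io b = a := by
  simp [full, or_assoc]

lemma io_mem_full {W : Finset (Fin 8)} {b : Fin 8} : io b ∈ full W ↔ b ∈ W := by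
  rw [mem_full]
  constructor
  · rintro (h | ⟨c, hc, h⟩)
    · exfalso; revert h; revert b; decide
    · have : c = b := Fin.ext (by simpa [io, Fin.ext_iff] using h)
      exact this ▸ hc
  · intro h; exact Or.inr ⟨b, h, rfl⟩

lemma frame_or (a : Fin 12) : (a = 0 ∨ a = 9 ∨ a = 10 ∨ a = 11) ∨ ∃ b, io b = a := by
  revert a; decide

lemma cls_iff (W W' : Finset (Fin 8)) : cls W = cls W' ↔
    ∃ φ : Fin 12 → Fin 12, Pres Fin.val v0 φ (full W) ∧ (full W).image φ = full W' := by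
  obtain ⟨z, hz⟩ := exists_pat Fin.val_injective v0_inj (full W)
  constructor
  · intro h
    obtain ⟨z', hz'⟩ := exists_pat Fin.val_injective v0_inj (full W')
    have : z = z' := I_inj (by rw [hz.code, hz'.code, (code_ok W).1, (code_ok W').1, h])
    exact hz.iso (this ▸ hz')
  · rintro ⟨φ, h1, h2⟩
    have hz' := hz.map h1
    rw [h2] at hz'
    rw [← (code_ok W).2, ← (code_ok W').2, ← (code_ok W).1, ← (code_ok W').1, ← hz.code,
      ← hz'.code]

variable {k : ℕ}

def P (x : Fin k × Fin 12) : ℕ := 12 * x.1.val + x.2.val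

def V (x : Fin k × Fin 12) : ℕ := 12 * x.1.val + v0 x.2

lemma P_inj : Function.Injective (P (k := k)) := by
  rintro ⟨i, a⟩ ⟨j, b⟩ h
  simp only [P] at h
  exact Prod.ext (Fin.ext (by simp only; omega)) (Fin.ext (by simp only; omega))

lemma V_inj : Function.Injective (V (k := k)) := by
  rintro ⟨i, a⟩ ⟨j, b⟩ h
  simp only [V] at h
  have := v0_lt a
  have := v0_lt b
  exact Prod.ext (Fin.ext (by simp only; omega)) (v0_inj (by simp only; omega))

def big (W : Fin k → Finset (Fin 8)) : Finset (Fin k × Fin 12) :=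
  univ.filter fun x => x.2 ∈ full (W x.1)

lemma mem_big {W : Fin k → Finset (Fin 8)} {x : Fin k × Fin 12} :
    x ∈ big W ↔ x.2 ∈ full (W x.1) := by simp [big]

lemma fix {W : Fin k → Finset (Fin 8)} {φ : Fin k × Fin 12 → Fin k × Fin 12}
    (h : Pres P V φ (big W)) (i : Fin k) :
    φ (i, 0) = (i, 0) ∧ φ (i, 9) = (i, 9) ∧ φ (i, 10) = (i, 10) ∧ φ (i, 11) = (i, 11) := by
  have m0 : ∀ i, ((i, 0) : Fin k × Fin 12) ∈ big W := fun i => mem_big.2 (mem_full.2 (by simp))
  have key : ∀ i, φ (i, 0) = ((φ (i, 0)).1, 0) ∧ φ (i, 9) = ((φ (i, 0)).1, 9) ∧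
      φ (i, 10) = ((φ (i, 0)).1, 10) ∧ φ (i, 11) = ((φ (i, 0)).1, 11) := by
    intro i
    have m1 : ((i, 9) : Fin k × Fin 12) ∈ big W := mem_big.2 (mem_full.2 (by simp))
    have m2 : ((i, 10) : Fin k × Fin 12) ∈ big W := mem_big.2 (mem_full.2 (by simp))
    have m3 : ((i, 11) : Fin k × Fin 12) ∈ big W := mem_big.2 (mem_full.2 (by simp))
    have h1 := (h _ (m0 i) _ m1).1.1 (by simp [P])
    have h2 := (h _ m1 _ m2).1.1 (by simp [P])
    have h3 := (h _ m2 _ m3).1.1 (by simp [P])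
    have h4 := (h _ m3 _ m2).2.1 (by simp [V, v0])
    have h5 := (h _ m2 _ (m0 i)).2.1 (by simp [V, v0])
    have h6 := (h _ (m0 i) _ m1).2.1 (by simp [V, v0])
    generalize φ (i, 0) = q0 at *
    generalize φ (i, 9) = q1 at *
    generalize φ (i, 10) = q2 at *
    generalize φ (i, 11) = q3 at *
    obtain ⟨j0, a⟩ := q0
    obtain ⟨j1, b⟩ := q1
    obtain ⟨j2, c⟩ := q2
    obtain ⟨j3, d⟩ := q3
    simp only [P, V] at h1 h2 h3 h4 h5 h6
    have := v0_lt a
    have := v0_lt b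
    have := v0_lt c
    have := v0_lt d
    have e1 : j1 = j0 := Fin.ext (by omega)
    have e2 : j2 = j0 := Fin.ext (by omega)
    have e3 : j3 = j0 := Fin.ext (by omega)
    subst e1 e2 e3
    obtain ⟨rfl, rfl, rfl, rfl⟩ := rigid a b c d (by omega) (by omega) (by omega) (by omega)
      (by omega) (by omega)
    exact ⟨rfl, rfl, rfl, rfl⟩
  have hs : StrictMono fun i => (φ (i, 0)).1 := by
    intro i j hij
    have h1 := (h _ (m0 i) _ (m0 j)).1.1 (by simp only [P]; omega)
    rw [(key i).1, (key j).1] at h1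
    simp only [P] at h1
    show (φ (i, 0)).1 < (φ (j, 0)).1
    omega
  have : (φ (i, 0)).1 = i := le_antisymm hs.apply_le hs.le_apply
  have hk := key i
  rw [this] at hk
  exact hk

lemma fix_bot {φ : Fin k × Fin 12 → Fin k × Fin 12} (h : Pres P V φ (big fun _ => ∅)) :
    ∀ x ∈ big (fun _ => ∅), φ x = x := by
  rintro ⟨i, a⟩ hx
  obtain ⟨h1, h2, h3, h4⟩ := fix h i
  rcases mem_full.1 (mem_big.1 hx) with (rfl | rfl | rfl | rfl) | ⟨b, hb, -⟩
  · exact h1
  · exact h2
  · exact h3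
  · exact h4
  · simp at hb

noncomputable def pat (W : Fin k → Finset (Fin 8)) : Z := (exists_pat P_inj V_inj (big W)).choose

lemma pat_spec (W : Fin k → Finset (Fin 8)) : Pat P V (pat W) (big W) :=
  (exists_pat P_inj V_inj (big W)).choose_spec

lemma pat_iff (W W' : Fin k → Finset (Fin 8)) :
    pat W = pat W' ↔ (fun i => cls (W i)) = fun i => cls (W' i) := by
  constructor
  · intro h
    obtain ⟨φ, h1, h2⟩ := (pat_spec W).iso (h ▸ pat_spec W')
    have hb : ∀ x ∈ big W, (φ x).1 = x.1 := by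
      rintro ⟨i, a⟩ hx
      obtain ⟨f0, -, -, f3⟩ := fix h1 i
      have m0 : ((i, 0) : Fin k × Fin 12) ∈ big W := mem_big.2 (mem_full.2 (by simp))
      have m3 : ((i, 11) : Fin k × Fin 12) ∈ big W := mem_big.2 (mem_full.2 (by simp))
      have g1 := (h1 _ hx _ m0).1
      have g2 := (h1 _ m3 _ hx).1
      rw [f0] at g1
      rw [f3] at g2
      simp only [P] at g1 g2
      exact Fin.ext (by simp only; omega)
    funext i
    rw [cls_iff]
    refine ⟨fun a => (φ (i, a)).2, ?_, ?_⟩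
    · intro a ha b hb'
      have ma : (i, a) ∈ big W := mem_big.2 ha
      have mb : (i, b) ∈ big W := mem_big.2 hb'
      have := h1 _ ma _ mb
      simp only [P, V, hb _ ma, hb _ mb, add_lt_add_iff_left] at this
      exact this
    · ext c
      rw [mem_image]
      constructor
      · rintro ⟨a, ha, rfl⟩
        have ma : (i, a) ∈ big W := mem_big.2 ha
        have := mem_big.1 (h2 ▸ mem_image_of_mem φ ma)
        rwa [hb _ ma] at this
      · intro hc
        have : (i, c) ∈ (big W).image φ := h2 ▸ mem_big.2 hc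
        obtain ⟨⟨j, a⟩, hx, hx'⟩ := mem_image.1 this
        have hj : j = i := by have := hb _ hx; rw [hx'] at this; exact this.symm
        subst hj
        exact ⟨a, mem_big.1 hx, by rw [hx']⟩
  · intro h
    have : ∀ i, ∃ φ : Fin 12 → Fin 12, Pres Fin.val v0 φ (full (W i)) ∧
      (full (W i)).image φ = full (W' i) := fun i => (cls_iff _ _).1 (congrFun h i)
    choose φ h1 h2 using this
    have h3 : Pres P V (fun x : Fin k × Fin 12 => (x.1, φ x.1 x.2)) (big W) := by
      rintro ⟨i, a⟩ ha ⟨j, b⟩ hb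
      simp only [P, V]
      by_cases hij : i = j
      · subst hij
        simp only [add_lt_add_iff_left]
        exact h1 i a (mem_big.1 ha) b (mem_big.1 hb)
      · have : i.val ≠ j.val := fun hh => hij (Fin.ext hh)
        have := v0_lt a
        have := v0_lt b
        have := v0_lt (φ i a)
        have := v0_lt (φ j b)
        constructor <;> omega
    have h4 : (big W).image (fun x : Fin k × Fin 12 => (x.1, φ x.1 x.2)) = big W' := by
      ext ⟨i, c⟩
      rw [mem_big, ← h2, mem_image, mem_image]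
      constructor
      · rintro ⟨⟨j, a⟩, ha, hh⟩
        obtain ⟨rfl, rfl⟩ := Prod.mk.inj hh
        exact ⟨a, mem_big.1 ha, rfl⟩
      · rintro ⟨a, ha, hh⟩
        exact ⟨(i, a), mem_big.2 ha, Prod.ext rfl hh⟩
    exact ((pat_spec W).map h3).unique (h4 ▸ pat_spec W')

lemma interval (W : Fin k → Finset (Fin 8)) (z : Z) :
    Le (pat (k := k) fun _ => ∅) z ∧ Le z (pat W) ↔
      ∃ W' ∈ Fintype.piFinset fun i => (W i).powerset, pat W' = z := by
  constructor
  · rintro ⟨h1, h2⟩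
    obtain ⟨T, hT, hz⟩ := (pat_spec W).le_iff.1 h2
    obtain ⟨S, hS, hs⟩ := hz.le_iff.1 h1
    obtain ⟨φ, h3, h4⟩ := (pat_spec fun _ => ∅).iso hs
    have h5 : big (fun _ => ∅) ⊆ T := fun x hx =>
      hS (h4 ▸ fix_bot h3 x hx ▸ mem_image_of_mem φ hx)
    have h6 : big (fun i => univ.filter fun b => (i, io b) ∈ T) = T := by
      ext ⟨i, a⟩
      rw [mem_big]
      rcases frame_or a with ha | ⟨b, rfl⟩
      · exact ⟨fun _ => h5 (mem_big.2 (mem_full.2 (Or.inl ha))), fun _ => mem_full.2 (Or.inl ha)⟩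
      · rw [io_mem_full]; simp
    refine ⟨fun i => univ.filter fun b => (i, io b) ∈ T, ?_, (pat_spec _).unique (h6.symm ▸ hz)⟩
    rw [Fintype.mem_piFinset]
    intro i
    rw [mem_powerset]
    intro b hb
    exact io_mem_full.1 (mem_big.1 (hT (mem_filter.1 hb).2))
  · rintro ⟨W', hW, rfl⟩
    rw [Fintype.mem_piFinset] at hW
    have mono : ∀ {A B : Fin k → Finset (Fin 8)}, (∀ i, A i ⊆ B i) → big A ⊆ big B := by
      intro A B hAB x hx
      rw [mem_big, mem_full] at hx ⊢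
      exact hx.imp id fun ⟨b, hb, h⟩ => ⟨b, hAB _ hb, h⟩
    exact ⟨(pat_spec W').le_iff.2 ⟨_, mono fun i => empty_subset _, pat_spec _⟩,
      (pat_spec W).le_iff.2 ⟨_, mono fun i => mem_powerset.1 (hW i), pat_spec _⟩⟩

lemma Le.fst_le {x y : Z} (h : Le x y) : x.1 ≤ y.1 := by
  obtain ⟨e, he, -⟩ := h
  simpa using Fintype.card_le_of_injective e he.injective

open Classical in
lemma mob_val (m : Z → Z → ℤ) (h1 : ∀ x, m x x = 1)
    (h3 : ∀ x y, x ≠ y → Le x y → ∑ k ∈ range (y.1 + 1), ∑ ρ : Equiv.Perm (Fin k),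
      (if Le x ⟨k, ρ⟩ ∧ Le ⟨k, ρ⟩ y then m x ⟨k, ρ⟩ else 0) = 0) (W : Fin k → Finset (Fin 8)) :
    m (pat (k := k) fun _ => ∅) (pat W) = ∏ i, h (cls (W i)) := by
  induction W using WellFoundedLT.induction with
  | ind W ih =>
  by_cases hW : pat (k := k) (fun _ => ∅) = pat W
  · rw [← hW, h1]
    refine (Finset.prod_eq_one fun i _ => ?_).symm
    rw [← congrFun ((pat_iff _ _).1 hW) i, h_bot]
  have hle : Le (pat (k := k) fun _ => ∅) (pat W) :=
    ((interval W (pat W)).2 ⟨W, by simp, rfl⟩).1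
  have hsum := h3 _ _ hW hle
  rw [Finset.sum_sigma', ← Finset.sum_filter] at hsum
  have hset : ((range ((pat W).1 + 1)).sigma fun k => (univ : Finset (Equiv.Perm (Fin k)))).filter
      (fun x => Le (pat (k := k) fun _ => ∅) ⟨x.1, x.2⟩ ∧ Le ⟨x.1, x.2⟩ (pat W)) =
      (Fintype.piFinset fun i => (W i).powerset).image pat := by
    ext z
    rw [mem_filter, mem_image, ← interval, mem_sigma, mem_range]
    exact ⟨fun hh => hh.2, fun hh => ⟨⟨Nat.lt_succ_of_le hh.2.fst_le, mem_univ _⟩, hh⟩⟩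
  rw [hset] at hsum
  let H : Z → ℤ := fun z => if hz : ∃ W' : Fin k → Finset (Fin 8), pat W' = z then
    ∏ i, h (cls (hz.choose i)) else 0
  have hH : ∀ W' : Fin k → Finset (Fin 8), H (pat W') = ∏ i, h (cls (W' i)) := by
    intro W'
    have hz : ∃ W'' : Fin k → Finset (Fin 8), pat W'' = pat W' := ⟨W', rfl⟩
    simp only [H, dif_pos hz]
    exact Finset.prod_congr rfl fun i _ => by rw [congrFun ((pat_iff _ _).1 hz.choose_spec) i]
  have hsum2 : ∑ z ∈ (Fintype.piFinset fun i => (W i).powerset).image pat, H z = 0 := by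
    rw [sum_image_congr _ pat (fun W' i => cls (W' i)) H (fun c => ∏ i, h (c i)) pat_iff hH]
    have := Fintype.piFinset_image (fun (_ : Fin k) => cls) (fun i => (W i).powerset)
    rw [← this, ← Finset.prod_univ_sum]
    obtain ⟨i, hi⟩ : ∃ i, W i ≠ ∅ := by
      by_contra hh
      push Not at hh
      exact hW (by congr 1; funext i; exact (hh i).symm)
    exact Finset.prod_eq_zero (mem_univ i) (h_rec _ hi)
  have hsum3 : ∑ z ∈ (Fintype.piFinset fun i => (W i).powerset).image pat,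
      (m (pat (k := k) fun _ => ∅) z - H z) = 0 := by
    rw [Finset.sum_sub_distrib, hsum2, sub_zero]; exact hsum
  rw [Finset.sum_eq_single (pat W), hH] at hsum3
  · linarith
  · intro z hz hne
    obtain ⟨W', hW', rfl⟩ := mem_image.1 hz
    rw [Fintype.mem_piFinset] at hW'
    have hlt : W' < W := lt_of_le_of_ne (fun i => mem_powerset.1 (hW' i)) fun hh => hne (hh ▸ rfl)
    rw [ih W' hlt, hH, sub_self]
  · intro hh
    exact absurd (mem_image_of_mem pat (by simp)) hh

lemma occ_one (W : Fin k → Finset (Fin 8)) :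
    {e : Fin (pat (k := k) fun _ => ∅).1 → Fin (pat W).1 | StrictMono e ∧
      ∀ i j, (pat (k := k) fun _ => ∅).2 i < (pat (k := k) fun _ => ∅).2 j ↔
        (pat W).2 (e i) < (pat W).2 (e j)}.ncard = 1 := by
  obtain ⟨e, he⟩ : Le (pat (k := k) fun _ => ∅) (pat W) :=
    ((interval W (pat W)).2 ⟨W, by simp, rfl⟩).1
  obtain ⟨f, hf, -⟩ := pat_spec W
  obtain ⟨g, hg, hg'⟩ := pat_spec (k := k) fun _ => ∅
  have key : ∀ e' : Fin (pat (k := k) fun _ => ∅).1 → Fin (pat W).1, (StrictMono e' ∧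
      ∀ i j, (pat (k := k) fun _ => ∅).2 i < (pat (k := k) fun _ => ∅).2 j ↔
        (pat W).2 (e' i) < (pat W).2 (e' j)) → ∀ i, f (e' i) = g i := by
    intro e' he' i
    obtain ⟨φ, h1, h2⟩ := hg.iso (hf.comp he')
    rw [hg'] at h1
    have := fix_bot h1 (g i) (hg' ▸ mem_image_of_mem g (mem_univ i))
    rw [h2] at this
    exact this
  refine Set.ncard_eq_one.2 ⟨e, Set.eq_singleton_iff_unique_mem.2 ⟨he, fun e' he' => ?_⟩⟩
  funext i
  exact hf.inj ((key e' he' i).trans (key e he i).symm)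

end Pool.Agent.H28.Mobius
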