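import Mathlib

namespace Pool.Agent.H28.Mols9

def T : Fin 8 → Fin 9 → Fin 9 → Fin 9 :=
  ![![![7, 4, 1, 2, 5, 8, 6, 3, 0], ![6, 3, 8, 7, 4, 0, 2, 5, 1], ![8, 5, 6, 3, 1, 7, 4, 0, 2], ![1, 6, 4, 0, 8, 5, 7, 2, 3], ![0, 7, 5, 6, 2, 3, 1, 8, 4], ![2, 8, 3, 1, 6, 4, 0, 7, 5], ![3, 1, 7, 8, 0, 2, 5, 4, 6], ![4, 0, 2, 5, 3, 6, 8, 1, 7], ![5, 2, 0, 4, 7, 1, 3, 6, 8]], ![![4, 7, 8, 3, 6, 1, 5, 2, 0], ![3, 6, 0, 5, 2, 8, 4, 7, 1], ![5, 8, 7, 0, 4, 6, 1, 3, 2], ![6, 1, 5, 2, 7, 4, 8, 0, 3], ![7, 0, 3, 8, 1, 5, 2, 6, 4], ![8, 2, 4, 7, 0, 3, 6, 1, 5], ![1, 3, 2, 4, 5, 7, 0, 8, 6], ![0, 4, 6, 1, 8, 2, 3, 5, 7], ![2, 5, 1, 6, 3, 0, 7, 4, 8]], ![![8, 1, 3, 4, 2, 6, 7, 5, 0], ![0, 8, 4, 2, 3, 7, 5, 6,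 1], ![3, 4, 8, 6, 7, 5, 0, 1, 2], ![4, 2, 6, 8, 5, 0, 1, 7, 3], ![2, 3, 7, 5, 8, 1, 6, 0, 4], ![6, 7, 2, 0, 1, 8, 3, 4, 5], ![7, 5, 0, 1, 4, 3, 8, 2, 6], ![5, 6, 1, 3, 0, 4, 2, 8, 7], ![1, 0, 5, 7, 6, 2, 4, 3, 8]], ![![5, 3, 4, 6, 1, 2, 8, 7, 0], ![7, 2, 5, 3, 8, 6, 0, 4, 1], ![1, 7, 0, 8, 3, 4, 6, 5, 2], ![0, 5, 7, 4, 6, 8, 2, 1, 3], ![8, 6, 2, 1, 7, 0, 5, 3, 4], ![3, 0, 6, 2, 4, 1, 7, 8, 5], ![4, 8, 1, 7, 2, 5, 3, 0, 6], ![2, 1, 8, 0, 5, 3, 4, 6, 7], ![6, 4, 3, 5, 0, 7, 1, 2, 8]], ![![2, 6, 5, 8, 4, 7, 3, 1, 0], ![4, 5, 3, 0, 7, 2, 6, 8, 1], ![6, 0, 1, 4, 8, 3, 5, 7, 2], ![7, 8, 2, 6, 0, 1, 4, 5, 3], ![5, 1, 6, 7, 3, 8, 0, 2, 4], ![1, 4, 7, 3, 2, 0, 8, 6, 5], ![0, 2, 8, 5, 1, 4, 7, 3,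 6], ![8, 3, 0, 2, 6, 5, 1, 4, 7], ![3, 7, 4, 1, 5, 6, 2, 0, 8]], ![![1, 8, 6, 5, 7, 3, 2, 4, 0], ![8, 0, 7, 6, 5, 4, 3, 2, 1], ![4, 3, 5, 1, 0, 8, 7, 6, 2], ![2, 4, 0, 7, 1, 6, 5, 8, 3], ![3, 2, 1, 0, 6, 7, 8, 5, 4], ![7, 6, 8, 4, 3, 2, 1, 0, 5], ![5, 7, 3, 2, 8, 0, 4, 1, 6], ![6, 5, 4, 8, 2, 1, 0, 3, 7], ![0, 1, 2, 3, 4, 5, 6, 7, 8]], ![![6, 2, 7, 1, 3, 5, 4, 8, 0], ![5, 4, 2, 8, 6, 3, 7, 0, 1], ![0, 6, 3, 7, 5, 1, 8, 4, 2], ![8, 7, 1, 5, 4, 2, 0, 6, 3], ![1, 5, 8, 2, 0, 6, 3, 7, 4], ![4, 1, 0, 6, 8, 7, 2, 3, 5], ![2, 0, 4, 3, 7, 8, 1, 5, 6], ![3, 8, 5, 4, 1, 0, 6, 2, 7], ![7, 3, 6, 0, 2, 4, 5, 1, 8]], ![![3, 5, 2, 7, 8, 4, 1, 6, 0], ![2, 7, 6, 4, 0, 5, 8, 3, 1], ![7, 1, 4, 5, 6, 0, 3,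 8, 2], ![5, 0, 8, 1, 2, 7, 6, 4, 3], ![6, 8, 0, 3, 5, 2, 7, 1, 4], ![0, 3, 1, 8, 7, 6, 4, 2, 5], ![8, 4, 5, 0, 3, 1, 2, 7, 6], ![1, 2, 3, 6, 4, 8, 5, 0, 7], ![4, 6, 7, 2, 1, 3, 0, 5, 8]]]

def W : Fin 8 → Fin 8 → Fin 9 :=
  ![![0, 0, 1, 1, 1, 3, 4, 4], ![0, 0, 1, 1, 1, 6, 7, 7], ![0, 0, 1, 1, 2, 2, 6, 7], ![0, 0, 1, 1, 1, 2, 3, 3], ![0, 0, 1, 1, 1, 5, 6, 6], ![0, 0, 1, 1, 2, 3, 7, 5], ![0, 0, 1, 1, 1, 4, 2, 2], ![0, 0, 1, 1, 1, 7, 5, 5]]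

theorem row_inj : ∀ k a x y, T k a x = T k a y → x = y := by decide +kernel

theorem col_inj : ∀ k a x y, T k x a = T k y a → x = y := by decide +kernel

theorem orth : ∀ k l : Fin 8, k ≠ l → ∀ a b c d, T k a b = T k c d → T l a b = T l c d →
    a = c ∧ b = d := by decide +kernel

theorem quad : ∀ k, T k (W k 0) (W k 1) = T k (W k 4) (W k 5) ∧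
    T k (W k 0) (W k 3) = T k (W k 4) (W k 7) ∧
    T k (W k 2) (W k 1) = T k (W k 6) (W k 5) ∧
    T k (W k 2) (W k 3) ≠ T k (W k 6) (W k 7) := by decide +kernel

end Pool.Agent.H28.Mols9
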