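import Mathlib

set_option autoImplicit false

namespace Pool.Agent.H28.PartSum

open Finset PowerSeries

/-- weakly decreasing `n`-tuples of naturals with sum `n` -/
def Lam (n : ℕ) : Finset (Fin n → ℕ) :=
  (Nat.antidiagonalTuple n n).filter fun l => ∀ i j, i ≤ j → l j ≤ l i

/-- the part `λ_{i+1}` (counting from zero), equal to `0` beyond the end -/
def part {n : ℕ} (l : Fin n → ℕ) (i : ℕ) : ℕ := if h : i < n then l ⟨i, h⟩ else 0

/-- the product of binomial coefficients -/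
def Cf {n : ℕ} (l : Fin n → ℕ) : ℕ := ∏ i : Fin n, (l i).choose (part l (i + 1))

/-- truncated series -/
noncomputable def Y : ℕ → (ℕ → ℚ) → ℚ⟦X⟧
  | 0, _ => 0
  | m + 1, x => C (x 0) * X * (1 + Y m fun i => x (i + 1))

lemma sum_succ (m N : ℕ) (f : (Fin (m + 1) → ℕ) → ℚ) :
    ∑ l ∈ Nat.antidiagonalTuple (m + 1) N, f l
      = ∑ p ∈ antidiagonal N, ∑ t ∈ Nat.antidiagonalTuple m p.2, f (Fin.cons p.1 t) := by
  rw [sum_sigma']
  refine sum_nbij' (fun l => ⟨(l 0, ∑ i, Fin.tail l i), Fin.tail l⟩)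
    (fun z => Fin.cons z.1.1 z.2) ?_ ?_ ?_ ?_ ?_
  · intro l hl
    simpa [Nat.mem_antidiagonalTuple, Fin.sum_univ_succ, Fin.tail] using hl
  · rintro ⟨⟨a, b⟩, t⟩ h
    simp only [mem_sigma, HasAntidiagonal.mem_antidiagonal, Nat.mem_antidiagonalTuple] at h
    simp [Nat.mem_antidiagonalTuple, h.2, h.1]
  · intro l _; simp
  · rintro ⟨⟨a, b⟩, t⟩ h
    simp only [mem_sigma, HasAntidiagonal.mem_antidiagonal, Nat.mem_antidiagonalTuple] at h
    simp [h.2]
  · intro l _; simp

lemma part_cons {m : ℕ} (a : ℕ) (t : Fin m → ℕ) (i : ℕ) :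
    part (Fin.cons a t : Fin (m + 1) → ℕ) (i + 1) = part t i := by
  unfold part
  by_cases h : i < m
  · rw [dif_pos h, dif_pos (by omega)]; rfl
  · rw [dif_neg h, dif_neg (by omega)]

lemma Cf_cons {m : ℕ} (a : ℕ) (t : Fin m → ℕ) :
    Cf (Fin.cons a t : Fin (m + 1) → ℕ) = a.choose (part t 0) * Cf t := by
  simp [Cf, Fin.prod_univ_succ, part_cons]

lemma main (m : ℕ) : ∀ (x : ℕ → ℚ) (w : ℕ → ℚ) (N : ℕ),
    ∑ l ∈ Nat.antidiagonalTuple m N, w (part l 0) * Cf l * ∏ i : Fin m, x i ^ l i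
      = ∑ j ∈ range (N + 1), w j * coeff N (Y m x ^ j) := by
  induction m with
  | zero =>
    intro x w N
    rw [sum_range_succ']
    rcases N with _ | N <;> simp [Y, part, Cf, coeff_one]
  | succ m ih =>
    intro x w N
    rw [sum_succ, Nat.sum_antidiagonal_eq_sum_range_succ
      (fun a b => ∑ t ∈ Nat.antidiagonalTuple m b, w (part (Fin.cons a t : Fin (m + 1) → ℕ) 0)
        * Cf (Fin.cons a t : Fin (m + 1) → ℕ)
          * ∏ i : Fin (m + 1), x i ^ (Fin.cons a t : Fin (m + 1) → ℕ) i)]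
    refine sum_congr rfl fun j hj => ?_
    have h1 := ih (fun i => x (i + 1)) (fun k => j.choose k) (N - j)
    have hY : X ∣ Y m fun i => x (i + 1) := by
      cases m <;> simp [Y, mul_assoc, mul_left_comm _ X]
    have h2 : coeff (N - j) ((1 + Y m fun i => x (i + 1)) ^ j)
        = ∑ k ∈ range (N - j + 1), j.choose k * coeff (N - j) ((Y m fun i => x (i + 1)) ^ k) := by
      rw [add_comm, add_pow, map_sum]
      simp only [one_pow, mul_one]
      refine (sum_subset (range_subset_range.2 (le_max_left _ (N - j + 1))) fun k _ hk => by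
          rw [Nat.choose_eq_zero_of_lt (by simpa using hk)]; simp).trans (Eq.trans ?_
        (sum_subset (range_subset_range.2 (le_max_right (j + 1) _)) fun k _ hk => by
          rw [X_pow_dvd_iff.1 (pow_dvd_pow_of_dvd hY k) _ (by simpa using hk), mul_zero]).symm)
      refine sum_congr rfl fun k _ => ?_
      rw [← map_natCast C, coeff_mul_C, mul_comm]
    rw [Y, mul_pow, mul_pow, ← map_pow, mul_assoc, coeff_C_mul, coeff_X_pow_mul',
      if_pos (by simpa [Nat.lt_succ_iff] using hj), h2, ← h1, mul_sum, mul_sum]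
    refine sum_congr rfl fun t _ => ?_
    rw [Cf_cons, Fin.prod_univ_succ]
    simp [part]; ring

lemma lam_sum (n : ℕ) (f g : (Fin n → ℕ) → ℚ) :
    ∑ l ∈ Lam n, f l * Cf l * g l = ∑ l ∈ Nat.antidiagonalTuple n n, f l * Cf l * g l := by
  refine sum_filter_of_ne fun l _ h => ?_
  have h1 : Cf l ≠ 0 := by rintro h'; simp [h'] at h
  cases n with
  | zero => intro i; exact i.elim0
  | succ n =>
    refine Fin.antitone_iff_succ_le.2 fun i => ?_
    have := prod_ne_zero_iff.1 h1 i.castSucc (mem_univ _)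
    rw [Ne, Nat.choose_eq_zero_iff, not_lt, part, dif_pos (by simp)] at this
    exact this

lemma coeff_Y (m : ℕ) : ∀ (x : ℕ → ℚ) (k : ℕ), k < m →
    coeff (k + 1) (Y m x) = ∏ i ∈ range (k + 1), x i := by
  induction m with
  | zero => intro x k h; omega
  | succ m ih =>
    intro x k h
    rw [Y, mul_assoc, coeff_C_mul, coeff_succ_X_mul, prod_range_succ', mul_comm]
    rcases k with _ | k
    · cases m <;> simp [Y]
    · rw [map_add, ih _ k (by omega)]; simp [coeff_one]

lemma red (n : ℕ) (x : ℕ → ℚ) (s : ℚ) (T : ℚ⟦X⟧)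
    (h : (1 - C s * (X * PowerSeries.mk fun k => ∏ i ∈ range (k + 1), x i)) ^ 2 * T = 1) :
    ∑ j ∈ range (n + 1), (1 + j) * s ^ j * coeff n (Y n x ^ j) = coeff n T := by
  set y : ℚ⟦X⟧ := X * PowerSeries.mk fun k => ∏ i ∈ range (k + 1), x i with hy
  have h1 : X ^ (n + 1) ∣ Y n x - y := X_pow_dvd_iff.2 fun k hk => by
    rcases k with _ | k
    · cases n <;> simp [Y, hy]
    · rw [map_sub, coeff_Y n x k (by omega), hy, coeff_succ_X_mul, coeff_mk, sub_self]
  have h2 : ∀ j, coeff n (Y n x ^ j) = coeff n (y ^ j) := fun j => by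
    rw [← sub_eq_zero, ← map_sub]
    exact X_pow_dvd_iff.1 (h1.trans (sub_dvd_pow_sub_pow _ _ j)) n (by omega)
  have h3 : ∀ (z : ℚ⟦X⟧) N, (∑ j ∈ range N, (1 + j) * z ^ j) * (1 - z) ^ 2
      = 1 - z ^ N * ((1 + N) - N * z) := by
    intro z N
    induction N with
    | zero => simp
    | succ N ih => rw [sum_range_succ, add_mul, ih]; push_cast; ring
  have h4 : X ^ (n + 1) ∣ T - ∑ j ∈ range (n + 1), (1 + j) * (C s * y) ^ j := by
    have h6 : T - ∑ j ∈ range (n + 1), (1 + j) * (C s * y) ^ j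
        = (C s * y) ^ (n + 1) * (((1 + (n + 1 : ℕ)) - (n + 1 : ℕ) * (C s * y)) * T) := by
      linear_combination (-T) * h3 (C s * y) (n + 1)
        + (∑ j ∈ range (n + 1), (1 + j) * (C s * y) ^ j) * h
    rw [h6]
    exact (pow_dvd_pow_of_dvd ((dvd_mul_right _ _).mul_left _) _).mul_right _
  have h5 := X_pow_dvd_iff.1 h4 n (by omega)
  rw [map_sub, sub_eq_zero, map_sum] at h5
  rw [h5]
  refine sum_congr rfl fun j _ => ?_
  rw [h2, mul_pow (C s), ← map_pow, ← mul_assoc, ← map_natCast C, ← map_one C, ← map_add, ← map_mul,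
    coeff_C_mul]

lemma ode (w : ℚ⟦X⟧) (e : ℚ) (h : ∀ k : ℕ, coeff (k + 1) w * (k + 1) = (2 * k + e) * coeff k w)
    (k : ℕ) : coeff (k + 1) (w ^ 2) * (k + 1) = (2 * k + 2 * e) * coeff k (w ^ 2) := by
  have key : ∀ (v : ℚ⟦X⟧) (c : ℚ), (1 - C 2 * X) * d⁄dX ℚ v = C c * v ↔
      ∀ k : ℕ, coeff (k + 1) v * (k + 1) = (2 * k + c) * coeff k v := by
    intro v c
    rw [PowerSeries.ext_iff]
    refine forall_congr' fun k => ?_
    rw [sub_mul, one_mul, map_sub, mul_assoc, coeff_C_mul, coeff_C_mul, coeff_derivative]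
    rcases k with _ | k
    · simp
    · rw [coeff_succ_X_mul, coeff_derivative]
      push_cast
      constructor <;> intro h <;> linarith
  refine (key _ _).1 ?_ k
  have := (key w e).2 h
  have h2 : (C 2 : ℚ⟦X⟧) = 2 := map_ofNat _ _
  rw [pow_two, Derivation.leibniz, map_mul]
  rw [h2] at this ⊢
  simp only [smul_eq_mul]
  linear_combination (2 * w) * this

end Pool.Agent.H28.PartSum
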