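import Mathlib

set_option autoImplicit false

namespace Pool.Agent.H28.PathDP

open Finset

/-- digits in base `2^64` -/
def enc : ℕ → (ℕ → ℕ) → ℕ
  | 0, _ => 0
  | n + 1, c => 2 ^ 64 * enc n (fun i => c (i + 1)) + c 0

lemma enc_congr (n : ℕ) : ∀ c d : ℕ → ℕ, (∀ i < n, c i = d i) → enc n c = enc n d := by
  induction n with
  | zero => intros; rfl
  | succ n ih =>
    intro c d h
    rw [enc, enc, h 0 (by omega), ih _ _ fun i hi => h (i + 1) (by omega)]

lemma enc_add (n : ℕ) : ∀ c d : ℕ → ℕ, enc n (fun i => c i + d i) = enc n c + enc n d := by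
  induction n with
  | zero => intros; rfl
  | succ n ih => intro c d; rw [enc, enc, enc, ih]; ring

lemma enc_zero (n : ℕ) : enc n (fun _ => 0) = 0 := by
  induction n with
  | zero => rfl
  | succ n ih => rw [enc, ih, mul_zero]

lemma enc_app (n m : ℕ) : ∀ c : ℕ → ℕ,
    enc (n + m) c = enc n c + 2 ^ (64 * n) * enc m (fun i => c (i + n)) := by
  induction n with
  | zero => intro c; simp [enc]
  | succ n ih =>
    intro c
    rw [Nat.add_right_comm, enc, enc, ih]
    simp only [add_assoc]; ring

lemma enc_lt (n : ℕ) : ∀ c : ℕ → ℕ, (∀ i, c i < 2 ^ 64) → enc n c < 2 ^ (64 * n) := by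
  induction n with
  | zero => intros; simp [enc]
  | succ n ih =>
    intro c h
    have h1 := ih (fun i => c (i + 1)) fun i => h _
    have h2 := h 0
    rw [enc, mul_add, pow_add, mul_one]
    nlinarith [Nat.mul_le_mul_left (2 ^ 64) (Nat.succ_le_of_lt h1)]

lemma enc_shift (n t : ℕ) (ht : t ≤ n) (c : ℕ → ℕ) (h : ∀ i, c i < 2 ^ 64) :
    enc n c >>> (64 * t) = enc n (fun i => if i + t < n then c (i + t) else 0) := by
  obtain ⟨m, rfl⟩ := Nat.exists_eq_add_of_le ht
  rw [enc_app, Nat.shiftRight_eq_div_pow, Nat.add_mul_div_left _ _ (by positivity),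
    Nat.div_eq_of_lt (enc_lt t c h), zero_add, add_comm t m, enc_app,
    enc_congr t _ (fun _ => 0) (fun i _ => if_neg (by omega)), enc_zero, mul_zero, add_zero]
  exact enc_congr _ _ _ fun i hi => (if_pos (by omega)).symm

lemma enc_and (n : ℕ) : ∀ (c : ℕ → ℕ) (p : ℕ → Bool), (∀ i, c i < 2 ^ 64) →
    enc n c &&& enc n (fun i => if p i then 0 else 2 ^ 64 - 1)
      = enc n (fun i => if p i then 0 else c i) := by
  induction n with
  | zero => intros; simp [enc]
  | succ n ih =>
    intro c p h
    rw [enc, enc, enc, ← ih _ _ fun i => h _]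
    refine Nat.eq_of_testBit_eq fun j => ?_
    rw [Nat.testBit_and, Nat.testBit_two_pow_mul_add _ (h 0), Nat.testBit_two_pow_mul_add,
      Nat.testBit_two_pow_mul_add, Nat.testBit_and]
    · split_ifs with h1 h2
      · simp
      · rw [Nat.testBit_two_pow_sub_one]; simp [h1]
      · rfl
    · split_ifs; exacts [by norm_num, h 0]
    · split_ifs <;> norm_num

lemma addor (S w : ℕ) (h : S.testBit w = false) : S + 2 ^ w = S ||| 2 ^ w := by
  have h1 : S % 2 ^ (w + 1) < 2 ^ w := by
    by_contra h2
    have := Nat.testBit_of_two_pow_le_and_two_pow_add_one_gt (not_lt.1 h2)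
      (Nat.mod_lt _ (by positivity))
    simp [h] at this
  have h2 : S % 2 ^ (w + 1) + 2 ^ w < 2 ^ (w + 1) := by
    have := pow_succ 2 w; omega
  conv => congr <;> rw [← Nat.div_add_mod S (2 ^ (w + 1))]
  rw [add_assoc, Nat.two_pow_add_eq_or_of_lt h2, ← Nat.or_two_pow_eq_add_of_lt h1,
    Nat.two_pow_add_eq_or_of_lt (by omega), Nat.or_assoc]

/-- the mask of subsets avoiding `w` -/
def mk (w : ℕ) : ℕ → ℕ
  | 0 => 2 ^ 64 - 1
  | d + 1 => (1 + if d = w then 0 else 2 ^ (64 * 2 ^ d)) * mk w d

lemma mk_eq (w d : ℕ) :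
    mk w d = enc (2 ^ d) (fun i => if i.testBit w then 0 else 2 ^ 64 - 1) := by
  induction d with
  | zero => simp [mk, enc]
  | succ d ih =>
    rw [mk, pow_succ 2 d, mul_two, enc_app, ← ih]
    split_ifs with h
    · rw [enc_congr _ _ (fun _ => 0), enc_zero]
      · simp
      · intro i hi
        rw [← h, add_comm, Nat.testBit_two_pow_add_eq, Nat.testBit_lt_two_pow hi]; simp
    · rw [enc_congr _ _ (fun i => if i.testBit w then 0 else 2 ^ 64 - 1), ← ih]
      · ring
      · intro i hi
        rw [← Nat.or_two_pow_eq_add_of_lt hi, Nat.testBit_or, Nat.testBit_two_pow_of_ne h]; simp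

/-- all digits one -/
def ones : ℕ → ℕ
  | 0 => 1
  | d + 1 => (1 + 2 ^ (64 * 2 ^ d)) * ones d

lemma ones_eq (d : ℕ) : ones d = enc (2 ^ d) (fun _ => 1) := by
  induction d with
  | zero => rfl
  | succ d ih => rw [ones, pow_succ 2 d, mul_two, enc_app, ← ih]; ring

/-- continuations of a path -/
def Q (adj : ℕ → ℕ → Bool) : ℕ → ℕ → ℕ → Finset (List (Fin 16))
  | 0, _, _ => {[]}
  | r + 1, v, S => (univ.filter (fun w : Fin 16 => adj v w ∧ S.testBit w = false)).biUnion
      (fun w => (Q adj r w (S ||| 2 ^ w.1)).image (w :: ·))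

lemma mem_Q (adj : ℕ → ℕ → Bool) (r : ℕ) : ∀ v S l, l ∈ Q adj r v S ↔
    l.length = r ∧ l.Nodup ∧ (∀ x ∈ l, S.testBit x.1 = false) ∧
      (v :: l.map Fin.val).IsChain (fun a b => adj a b) := by
  induction r with
  | zero => intro v S l; cases l <;> simp [Q]
  | succ r ih =>
    intro v S l
    cases l with
    | nil => simp [Q]
    | cons x l =>
      simp only [Q, mem_biUnion, mem_filter, mem_univ, true_and, mem_image, List.cons.injEq,
        exists_eq_right_right, ih, List.length_cons, add_left_inj, List.nodup_cons,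
        List.forall_mem_cons, List.map_cons, List.isChain_cons_cons, Nat.testBit_or,
        Bool.or_eq_false_iff, Nat.testBit_two_pow, decide_eq_false_iff_not, Fin.val_inj]
      constructor
      · rintro ⟨⟨h1, h2⟩, h3, h4, h5, h6⟩
        exact ⟨h3, ⟨fun h => (h5 _ h).2 rfl, h4⟩, ⟨h2, fun y hy => (h5 y hy).1⟩, h1, h6⟩
      · rintro ⟨h1, ⟨h2, h3⟩, ⟨h4, h5⟩, h6, h7⟩
        exact ⟨⟨h6, h4⟩, h1, h3, fun y hy => ⟨h5 y hy, fun h => h2 (h ▸ hy)⟩, h7⟩

lemma card_Q (adj : ℕ → ℕ → Bool) (r v S : ℕ) : (Q adj (r + 1) v S).card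
    = ∑ w ∈ range 16, if adj v w then
        (if S.testBit w then 0 else (Q adj r w (S ||| 2 ^ w)).card) else 0 := by
  rw [Q, card_biUnion, sum_filter, ← Fin.sum_univ_eq_sum_range (fun w => if adj v w then
        (if S.testBit w then 0 else (Q adj r w (S ||| 2 ^ w)).card) else 0)]
  · refine sum_congr rfl fun w _ => ?_
    rw [card_image_of_injective _ List.cons_injective]
    cases adj v w <;> cases S.testBit w <;> simp
  · intro a _ b _ hab
    simp only [Function.onFun, disjoint_left, mem_image]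
    rintro _ ⟨x, -, rfl⟩ ⟨y, -, h⟩
    exact hab (List.cons.inj h).1.symm

lemma card_le (adj : ℕ → ℕ → Bool) (r : ℕ) : ∀ v S, (Q adj r v S).card ≤ 16 ^ r := by
  induction r with
  | zero => intro v S; simp [Q]
  | succ r ih =>
    intro v S
    rw [card_Q, pow_succ']
    refine (sum_le_card_nsmul _ _ (16 ^ r) fun w _ => ?_).trans (by simp)
    split_ifs <;> simp [ih]

/-- forcing evaluation -/
def force {α : Type} (x : ℕ) (f : ℕ → α) : α := Nat.casesOn x (f 0) (fun n => f (n + 1))

/-- forcing evaluation of a list -/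
def forceL {α : Type} : List ℕ → (List ℕ → α) → α
  | [], f => f []
  | x :: xs, f => force x fun y => forceL xs fun ys => f (y :: ys)

lemma forceL_eq {α : Type} (L : List ℕ) : ∀ f : List ℕ → α, forceL L f = f L := by
  induction L with
  | nil => intro f; rfl
  | cons x xs ih => intro f; cases x <;> simp [forceL, force, ih]

/-- the layered computation -/
def run (adj : ℕ → ℕ → Bool) (M : List ℕ) : ℕ → List ℕ → ℕ
  | 0, L => L.getD 16 0 % 2 ^ 64
  | r + 1, L => forceL ((List.range 16).map fun w => (L.getD w 0 >>> (64 * 2 ^ w)) &&& M.getD w 0)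
      fun T => forceL ((List.range 17).map fun v =>
        ((List.range 16).map fun w => if adj v w then T.getD w 0 else 0).sum) (run adj M r)

lemma enc_sum (n : ℕ) (s : Finset ℕ) (c : ℕ → ℕ → ℕ) :
    enc n (fun i => ∑ w ∈ s, c w i) = ∑ w ∈ s, enc n (c w) := by
  induction s using Finset.induction_on with
  | empty => simp [enc_zero]
  | insert a s ha ih => simp only [sum_insert ha]; rw [enc_add, ih]

lemma getD_map (n : ℕ) (f : ℕ → ℕ) (w : ℕ) (h : w < n) : ((List.range n).map f).getD w 0 = f w := by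
  simp [List.getD_eq_getElem?_getD, h]

lemma run_eq (adj : ℕ → ℕ → Bool) (r : ℕ) : ∀ j, r + j < 16 →
    run adj ((List.range 16).map fun w => mk w 16) r
      ((List.range 17).map fun v => enc (2 ^ 16) fun S => (Q adj j v S).card)
      = (Q adj (r + j) 16 0).card := by
  have hb : ∀ j < 16, ∀ v S, (Q adj j v S).card < 2 ^ 64 := fun j hj v S =>
    (card_le adj j v S).trans_lt
      ((Nat.pow_lt_pow_right (by norm_num) hj).trans_le (by norm_num))
  induction r with
  | zero =>
    intro j hj
    rw [run, getD_map _ _ _ (by norm_num), show 2 ^ 16 = 65535 + 1 from rfl, enc,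
      Nat.mul_add_mod, zero_add, Nat.mod_eq_of_lt (hb j (by omega) _ _)]
  | succ r ih =>
    intro j hj
    rw [run, forceL_eq, forceL_eq, Nat.add_right_comm, add_assoc, ← ih (j + 1) (by omega)]
    congr 1
    refine List.map_congr_left fun v _ => ?_
    simp only [card_Q]
    rw [enc_sum, ← List.sum_toFinset _ List.nodup_range, List.toFinset_range]
    refine sum_congr rfl fun w hw => ?_
    have hw := mem_range.1 hw
    split_ifs
    swap
    · exact (enc_zero _).symm
    rw [getD_map _ _ _ hw, getD_map _ _ _ (by omega), getD_map _ _ _ hw, mk_eq,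
      enc_shift _ _ (Nat.pow_le_pow_right (by norm_num) hw.le) _ (hb j (by omega) w), enc_and]
    · refine enc_congr _ _ _ fun i hi => ?_
      by_cases h : i.testBit w
      · simp [h]
      · have h1 := addor i w (by simpa using h)
        rw [if_neg h, if_neg h, h1,
          if_pos (Nat.or_lt_two_pow hi (Nat.pow_lt_pow_right (by norm_num) hw))]
    · intro i
      split_ifs
      · exact hb j (by omega) _ _
      · norm_num

/-- number of paths on `r` vertices -/
def total (adj : ℕ → ℕ → Bool) (r : ℕ) : ℕ :=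
  forceL ((List.range 16).map fun w => mk w 16) fun M =>
    forceL ((List.range 17).map fun _ => ones 16) (run adj M r)

lemma total_eq (adj : ℕ → ℕ → Bool) (r : ℕ) (hr : r < 16) :
    total adj r = (Q adj r 16 0).card := by
  rw [total, forceL_eq, forceL_eq, ones_eq]
  exact run_eq adj r 0 hr

end Pool.Agent.H28.PathDP
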