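import Mathlib
import Pool.Agent.H28.HermC

set_option autoImplicit false

namespace Pool.Agent.H28.Peetre

open Polynomial Finset Pool.Agent.H28.Schur

/-- the coefficient polynomials of a linear operator -/
noncomputable def Qc (T : ℝ[X] →ₗ[ℝ] ℝ[X]) (k : ℕ) : ℝ[X] :=
  (1 / k.factorial : ℝ) • ∑ p ∈ antidiagonal k, k.choose p.1 • (T (X ^ p.1) * (-X) ^ p.2)

lemma Qc_eval (T : ℝ[X] →ₗ[ℝ] ℝ[X]) (k : ℕ) (z : ℝ) :
    k.factorial * (Qc T k).eval z = (T ((X - C z) ^ k)).eval z := by
  rw [Qc, eval_smul, smul_eq_mul, ← mul_assoc, mul_one_div_cancel (by positivity), one_mul,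
    sub_eq_add_neg, (Commute.all _ _).add_pow', map_sum, eval_finset_sum, eval_finset_sum]
  refine sum_congr rfl fun p _ => ?_
  rw [map_nsmul, ← C_neg, ← C_pow, mul_comm _ (C _), ← smul_eq_C_mul, map_smul]
  simp [mul_comm, mul_left_comm]

lemma scaled (T : ℝ[X] →ₗ[ℝ] ℝ[X]) (c : ℝ) (p : ℝ[X]) (z : ℝ) :
    (∑ k ∈ range (p.natDegree + 1), c ^ k • Qc T k * derivative^[k] p).eval z =
      (T (p.comp (C c * (X - C z) + C z))).eval z := by
  have e : p.comp (C c * (X - C z) + C z) = (taylor z p).comp (C c * (X - C z)) := by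
    simp [taylor_apply, comp_assoc]
  rw [e, comp, eval₂_eq_sum_range, natDegree_taylor, map_sum, eval_finset_sum, eval_finset_sum]
  refine sum_congr rfl fun k _ => ?_
  rw [mul_pow, ← C_pow, ← mul_assoc, ← C_mul, ← smul_eq_C_mul, map_smul, eval_smul, ← Qc_eval,
    taylor_coeff, ← factorial_smul_hasseDeriv]
  simp; ring

theorem peetre (T : ℝ[X] →ₗ[ℝ] ℝ[X]) (p : ℝ[X]) :
    T p = ∑ k ∈ range (p.natDegree + 1), Qc T k * derivative^[k] p :=
  Polynomial.funext fun z => by simpa using (scaled T 1 p z).symm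

lemma logder (G : ℂ[X]) (hG : NZ G) (x : ℂ) (hx : 0 < x.im) :
    ∃ S : ℂ, (S = 0 ∨ S.im < 0) ∧ (derivative G).eval x = G.eval x * S := by
  have sp : G.Splits := IsAlgClosed.splits _
  refine ⟨_, ?_, sp.eval_derivative_eq_eval_mul_sum (hG x hx)⟩
  refine Multiset.sum_induction (fun u : ℂ => u = 0 ∨ u.im < 0) _ ?_ (by simp) fun u hu => ?_
  · rintro u v (rfl | hu) (rfl | hv) <;> simp [*]
    right; linarith
  obtain ⟨z, hz, rfl⟩ := Multiset.mem_map.1 hu
  have : z.im ≤ 0 := not_lt.1 fun h => hG z h (isRoot_of_mem_roots hz)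
  have h0 : 0 < (x - z).im := by rw [Complex.sub_im]; linarith
  right
  rw [one_div, Complex.inv_im]
  exact div_neg_of_neg_of_pos (by linarith)
    (Complex.normSq_pos.2 fun e => by simp [e] at h0)

lemma RR_op (p u : ℝ[X]) (c : ℝ) (hp : RR p)
    (h : ∀ x S : ℂ, 0 < x.im → S = 0 ∨ S.im < 0 → aeval x u + c * S ≠ 0) :
    RR (u * p + C c * derivative p) := by
  rcases (RR_iff p).1 hp with h0 | h0
  · left; rw [Polynomial.map_eq_zero] at h0; simp [h0]
  refine (RR_iff _).2 (Or.inr fun x hx e => ?_)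
  obtain ⟨S, h1, h2⟩ := logder _ h0 x hx
  rw [Polynomial.map_add, Polynomial.map_mul, Polynomial.map_mul, ← derivative_map, eval_add,
    eval_mul, eval_mul, h2, map_C, eval_C, eval_map_algebraMap u] at e
  exact mul_ne_zero (h0 x hx) (h x S hx h1) (by rw [← e]; simp; ring)

lemma RR_one (p : ℝ[X]) (c : ℝ) (hp : RR p) : RR (p + C c * derivative p) := by
  simpa using RR_op p 1 c hp fun x S _ hS e => by
    rcases hS with rfl | hS
    · simp at e
    · have e1 := congrArg Complex.im e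
      have e2 := congrArg Complex.re e
      simp [hS.ne] at e1
      simp [e1] at e2

lemma RR_cre (p : ℝ[X]) (hp : RR p) : RR (X * p - derivative p) := by
  simpa [sub_eq_add_neg] using RR_op p X (-1) hp fun x S hx hS e => by
    have e1 := congrArg Complex.im e
    rcases hS with rfl | hS <;> simp at e1 <;> linarith

lemma rank3 (T : ℝ[X] →ₗ[ℝ] ℝ[X]) (v : Fin 3 → ℝ[X]) (h : LinearIndependent ℝ fun i => T (v i)) :
    3 ≤ Module.rank ℝ (LinearMap.range T) := by
  have : LinearIndependent ℝ fun i => (⟨T (v i), v i, rfl⟩ : LinearMap.range T) :=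
    LinearIndependent.of_comp (LinearMap.range T).subtype h
  simpa using this.cardinal_lift_le_rank

end Pool.Agent.H28.Peetre
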