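import Mathlib

set_option autoImplicit false

namespace Pool.Agent.H28.Rotor

/-- directions -/
def dir : Fin 5 → ℤ × ℤ := ![(0, 1), (0, 1), (1, 0), (0, -1), (-1, 0)]

def rot (r : Fin 5) : ℕ → Fin 5
  | 0 => r
  | m + 1 => rot r m + 1

def cnt (r : Fin 5) (d : Fin 5) : ℕ → ℕ
  | 0 => 0
  | m + 1 => cnt r d m + if rot r m + 1 = d then 1 else 0

lemma cnt_mono (r d : Fin 5) {m n : ℕ} (h : m ≤ n) : cnt r d m ≤ cnt r d n := by
  induction h with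
  | refl => exact le_rfl
  | step _ ih => exact ih.trans (Nat.le_add_right _ _)

lemma cnt_five (r d : Fin 5) (m : ℕ) : cnt r d (m + 5) = cnt r d m + 1 := by
  have h : ∀ q d : Fin 5, (if q + 1 = d then 1 else 0) + (if q + 1 + 1 = d then 1 else 0) +
      (if q + 1 + 1 + 1 = d then 1 else 0) + (if q + 1 + 1 + 1 + 1 = d then 1 else 0) +
      (if q + 1 + 1 + 1 + 1 + 1 = d then 1 else 0) = (1 : ℕ) := by decide
  have := h (rot r m) d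
  show cnt r d m + (if rot r m + 1 = d then 1 else 0) + (if rot r m + 1 + 1 = d then 1 else 0) +
      (if rot r m + 1 + 1 + 1 = d then 1 else 0) + (if rot r m + 1 + 1 + 1 + 1 = d then 1 else 0) +
      (if rot r m + 1 + 1 + 1 + 1 + 1 = d then 1 else 0) = cnt r d m + 1
  rw [add_assoc, add_assoc, add_assoc, add_assoc, ← add_assoc (if rot r m + 1 = d then 1 else 0),
    ← add_assoc _ (if rot r m + 1 + 1 + 1 = d then 1 else 0),
    ← add_assoc _ (if rot r m + 1 + 1 + 1 + 1 = d then 1 else 0), this]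

def step (s : (ℤ × ℤ) × (ℤ × ℤ → Fin 5)) : (ℤ × ℤ) × (ℤ × ℤ → Fin 5) :=
  (s.1 + dir (s.2 s.1 + 1), Function.update s.2 s.1 (s.2 s.1 + 1))

def st (r₀ : ℤ × ℤ → Fin 5) (n : ℕ) : (ℤ × ℤ) × (ℤ × ℤ → Fin 5) := step^[n] ((0, 0), r₀)

lemma st_succ (r₀ : ℤ × ℤ → Fin 5) (n : ℕ) : st r₀ (n + 1) = step (st r₀ n) := by
  simp [st, Function.iterate_succ_apply']

/-- number of exits from `v` before time `n` -/
def ex (r₀ : ℤ × ℤ → Fin 5) (v : ℤ × ℤ) : ℕ → ℕ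
  | 0 => 0
  | n + 1 => ex r₀ v n + if (st r₀ n).1 = v then 1 else 0

lemma st_rot (r₀ : ℤ × ℤ → Fin 5) (n : ℕ) (v : ℤ × ℤ) :
    (st r₀ n).2 v = rot (r₀ v) (ex r₀ v n) := by
  induction n with
  | zero => simp [st, ex, rot]
  | succ n ih =>
    rw [st_succ]
    by_cases h : (st r₀ n).1 = v
    · simp only [step, ex, h, if_true, Function.update_self, rot, ih]
    · simp only [step, ex, h, if_false, add_zero]
      rw [Function.update_of_ne (Ne.symm h), ih]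

/-- inflow to `v` for an odometer `U` -/
def infl (r₀ : ℤ × ℤ → Fin 5) (U : ℤ × ℤ → ℕ) (v : ℤ × ℤ) : ℕ :=
  ∑ d : Fin 5, cnt (r₀ (v - dir d)) d (U (v - dir d))

lemma infl_mono (r₀ : ℤ × ℤ → Fin 5) {U V : ℤ × ℤ → ℕ} (h : ∀ w, U w ≤ V w) (v : ℤ × ℤ) :
    infl r₀ U v ≤ infl r₀ V v :=
  Finset.sum_le_sum fun _ _ => cnt_mono _ _ (h _)

lemma infl_succ (r₀ : ℤ × ℤ → Fin 5) (n : ℕ) (v : ℤ × ℤ) :
    infl r₀ (fun w => ex r₀ w (n + 1)) v =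
      infl r₀ (fun w => ex r₀ w n) v + if (st r₀ (n + 1)).1 = v then 1 else 0 := by
  set x := (st r₀ n).1 with hx
  set q := (st r₀ n).2 x + 1 with hq
  have h1 : (st r₀ (n + 1)).1 = x + dir q := by rw [st_succ]; rfl
  have h2 : ∀ d : Fin 5, cnt (r₀ (v - dir d)) d (ex r₀ (v - dir d) (n + 1)) =
      cnt (r₀ (v - dir d)) d (ex r₀ (v - dir d) n) +
        if q = d then (if x + dir q = v then 1 else 0) else 0 := by
    intro d
    by_cases h : x = v - dir d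
    · have e1 : ex r₀ (v - dir d) (n + 1) = ex r₀ (v - dir d) n + 1 := by
        simp only [ex, ← hx, h, if_true]
      rw [e1, cnt, ← st_rot, ← h, ← hq]
      by_cases hd : q = d
      · have : x + dir q = v := by rw [hd, h]; abel
        rw [if_pos hd, if_pos hd, if_pos this]
      · simp [hd]
    · have e1 : ex r₀ (v - dir d) (n + 1) = ex r₀ (v - dir d) n := by
        simp only [ex, ← hx, h, if_false, add_zero]
      rw [e1]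
      by_cases hd : q = d
      · have : ¬ (x + dir q = v) := by
          intro h'
          apply h
          rw [← h', hd]; abel
        simp [this]
      · simp [hd]
  simp only [infl, h2, Finset.sum_add_distrib, h1]
  congr 1
  rw [Finset.sum_ite_eq]
  simp

lemma inv (r₀ : ℤ × ℤ → Fin 5) (n : ℕ) (v : ℤ × ℤ) :
    infl r₀ (fun w => ex r₀ w n) v + (if (0, 0) = v then 1 else 0) =
      ex r₀ v n + if (st r₀ n).1 = v then 1 else 0 := by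
  induction n with
  | zero => simp [infl, ex, cnt, st]
  | succ n ih =>
    rw [infl_succ, ex]
    omega

lemma ex_le_card (r₀ : ℤ × ℤ → Fin 5) (v : ℤ × ℤ) (T : Finset ℕ)
    (hT : ∀ n, (st r₀ n).1 = v → n ∈ T) (n : ℕ) : ex r₀ v n ≤ T.card := by
  have : ex r₀ v n = ((Finset.range n).filter (fun i => (st r₀ i).1 = v)).card := by
    induction n with
    | zero => simp [ex]
    | succ n ih =>
      rw [ex, ih, Finset.range_add_one, Finset.filter_insert]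
      split_ifs with h
      · rw [Finset.card_insert_of_notMem (by simp)]
      · rfl
  rw [this]
  exact Finset.card_le_card fun i hi => hT i (Finset.mem_filter.1 hi).2

/-- least action principle -/
theorem infinite_of (r₀ : ℤ × ℤ → Fin 5)
    (h : ∀ k : ℕ, ∃ (U : ℤ × ℤ → ℕ) (S : Finset (ℤ × ℤ)), (∀ v, v ∉ S → U v = 0) ∧
      (∀ v, infl r₀ U v ≤ U v) ∧ k ≤ U (0, 0)) :
    ¬ Set.Finite {n : ℕ | (st r₀ n).1 = (0, 0)} := by
  intro hf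
  obtain ⟨U, S, hS, hU, hk⟩ := h hf.toFinset.card
  have h0 : ∀ n, ex r₀ (0, 0) n ≤ U (0, 0) := fun n =>
    (ex_le_card r₀ (0, 0) hf.toFinset (fun n hn => by simpa using hn) n).trans hk
  have hle : ∀ n v, ex r₀ v n ≤ U v := by
    intro n
    induction n with
    | zero => intro v; simp [ex]
    | succ n ih =>
      intro v
      by_cases hv : (0, 0) = v
      · rw [← hv]; exact h0 _
      · have h1 := inv r₀ n v
        have h2 := infl_mono r₀ ih v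
        have h3 := hU v
        rw [if_neg hv] at h1
        rw [ex]
        omega
  have hsum : ∀ n, ∑ v ∈ S, ex r₀ v n = n := by
    intro n
    induction n with
    | zero => simp [ex]
    | succ n ih =>
      have hx : (st r₀ n).1 ∈ S := by
        by_contra hx
        have := hle (n + 1) (st r₀ n).1
        rw [hS _ hx, ex, if_pos rfl] at this
        omega
      simp only [ex, Finset.sum_add_distrib, ih]
      rw [Finset.sum_ite_eq, if_pos hx]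
  have h1 := hsum (∑ v ∈ S, U v + 1)
  have h2 : ∑ v ∈ S, ex r₀ v (∑ v ∈ S, U v + 1) ≤ ∑ v ∈ S, U v :=
    Finset.sum_le_sum fun v _ => hle _ v
  omega

/-! geometry -/

def tN (a x y : ℤ) : ℕ :=
  if -a ≤ x ∧ x ≤ a ∧ -a - 1 ≤ y ∧ y ≤ a then 2
  else if -a < x ∧ ((x ≤ a ∧ y = a + 1) ∨ (a + 2 ≤ y ∧ x + y < 2 * a + 2) ∨
    (y ≤ -a - 2 ∧ x ≤ 2 * a + 2 + y)) then 1 else 0

def tE (a x y : ℤ) : ℕ :=
  if (-a - 1 ≤ x ∧ x ≤ a ∧ -a ≤ y ∧ y ≤ a) ∨ (-a ≤ x ∧ x ≤ a ∧ y = a + 1) ∨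
    (a + 2 ≤ y ∧ y ≤ 3 * a + 1 ∧ 2 * a + 2 ≤ x + y ∧ x < y) then 1 else 0

def tS (a x y : ℤ) : ℕ :=
  if (-a ≤ x ∧ x ≤ a + 1 ∧ -a ≤ y ∧ y ≤ a + 1) ∨
    (a + 2 ≤ x ∧ x ≤ 3 * a + 1 ∧ -x < y ∧ y ≤ x) then 1 else 0

def tW (a x y : ℤ) : ℕ :=
  if (-a ≤ x ∧ x ≤ a + 1 ∧ -a ≤ y ∧ y ≤ a) ∨ (-a < x ∧ x ≤ a + 1 ∧ y = -a - 1) ∨
    (y ≤ -a - 2 ∧ -3 * a - 1 ≤ y ∧ x ≤ -y ∧ 2 * a + 2 + y < x) then 1 else 0

def len (a x y : ℤ) : ℕ := tN a x y + tE a x y + tS a x y + tW a x y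

def ind (P : Prop) [Decidable P] : ℕ := if P then 1 else 0

lemma ind_le {P Q : Prop} [Decidable P] [Decidable Q] (h : P → Q) : ind P ≤ ind Q := by
  unfold ind
  split_ifs <;> simp_all

lemma ind4 {P1 P2 P3 P4 Q1 Q2 Q3 Q4 : Prop} [Decidable P1] [Decidable P2] [Decidable P3]
    [Decidable P4] [Decidable Q1] [Decidable Q2] [Decidable Q3] [Decidable Q4]
    (h12 : P1 → P2 → False) (h13 : P1 → P3 → False) (h14 : P1 → P4 → False)
    (h23 : P2 → P3 → False) (h24 : P2 → P4 → False) (h34 : P3 → P4 → False)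
    (h : P1 ∨ P2 ∨ P3 ∨ P4 → Q1 ∨ Q2 ∨ Q3 ∨ Q4) :
    ind P1 + ind P2 + ind P3 + ind P4 ≤ ind Q1 + ind Q2 + ind Q3 + ind Q4 := by
  have h1 : ind P1 + ind P2 + ind P3 + ind P4 ≤ ind (P1 ∨ P2 ∨ P3 ∨ P4) := by
    unfold ind
    by_cases a1 : P1 <;> by_cases a2 : P2 <;> by_cases a3 : P3 <;> by_cases a4 : P4 <;>
      simp_all
  have h2 : ind (Q1 ∨ Q2 ∨ Q3 ∨ Q4) ≤ ind Q1 + ind Q2 + ind Q3 + ind Q4 := by
    unfold ind
    by_cases a1 : Q1 <;> by_cases a2 : Q2 <;> by_cases a3 : Q3 <;> by_cases a4 : Q4 <;>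
      simp [a1, a2, a3, a4]
  exact h1.trans ((ind_le h).trans h2)

lemma tN_eq (a x y : ℤ) (ha : 0 ≤ a) : tN a x y =
    ind (-a ≤ x ∧ x ≤ a ∧ -a - 1 ≤ y ∧ y ≤ a) + ind (x = -a ∧ -a - 1 ≤ y ∧ y ≤ a) +
      ind (-a < x ∧ x ≤ a ∧ x - 2 * a - 2 ≤ y ∧ x + y < 2 * a + 2) := by
  unfold tN ind
  split_ifs <;> omega

lemma tE_eq (a x y : ℤ) (ha : 0 ≤ a) : tE a x y =
    ind (-a - 1 ≤ x ∧ x ≤ a ∧ -a ≤ y ∧ y ≤ a) + ind (-a ≤ x ∧ x ≤ a ∧ y = a + 1) +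
      ind (a + 2 ≤ y ∧ y ≤ 3 * a + 1 ∧ 2 * a + 2 ≤ x + y ∧ x < y) := by
  unfold tE ind
  split_ifs <;> omega

lemma tS_eq (a x y : ℤ) (ha : 0 ≤ a) : tS a x y =
    ind (-a ≤ x ∧ x ≤ a ∧ -a ≤ y ∧ y ≤ a + 1) + ind (x = a + 1 ∧ -a ≤ y ∧ y ≤ a + 1) +
      ind (a + 2 ≤ x ∧ x ≤ 3 * a + 1 ∧ -x < y ∧ y ≤ x) := by
  unfold tS ind
  split_ifs <;> omega

lemma tW_eq (a x y : ℤ) (ha : 0 ≤ a) : tW a x y =
    ind (-a ≤ x ∧ x ≤ a + 1 ∧ -a ≤ y ∧ y ≤ a) + ind (-a < x ∧ x ≤ a + 1 ∧ y = -a - 1) +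
      ind (y ≤ -a - 2 ∧ -3 * a - 1 ≤ y ∧ x ≤ -y ∧ 2 * a + 2 + y < x) := by
  unfold tW ind
  split_ifs <;> omega

lemma balance (a x y : ℤ) (ha : 0 ≤ a) :
    tN a x (y - 1) + tE a (x - 1) y + tS a x (y + 1) + tW a (x + 1) y ≤ len a x y := by
  unfold len
  rw [tN_eq _ _ _ ha, tN_eq _ _ _ ha, tE_eq _ _ _ ha, tE_eq _ _ _ ha, tS_eq _ _ _ ha,
    tS_eq _ _ _ ha, tW_eq _ _ _ ha, tW_eq _ _ _ ha]
  have h1 : ind (-a ≤ x ∧ x ≤ a ∧ -a - 1 ≤ y - 1 ∧ y - 1 ≤ a) ≤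
    ind (-a ≤ x ∧ x ≤ a ∧ -a ≤ y ∧ y ≤ a + 1) := ind_le (by omega)
  have h2 : ind (-a ≤ x ∧ x ≤ a ∧ -a ≤ y + 1 ∧ y + 1 ≤ a + 1) ≤
    ind (-a ≤ x ∧ x ≤ a ∧ -a - 1 ≤ y ∧ y ≤ a) := ind_le (by omega)
  have h3 : ind (-a - 1 ≤ x - 1 ∧ x - 1 ≤ a ∧ -a ≤ y ∧ y ≤ a) ≤
    ind (-a ≤ x ∧ x ≤ a + 1 ∧ -a ≤ y ∧ y ≤ a) := ind_le (by omega)
  have h4 : ind (-a ≤ x + 1 ∧ x + 1 ≤ a + 1 ∧ -a ≤ y ∧ y ≤ a) ≤
    ind (-a - 1 ≤ x ∧ x ≤ a ∧ -a ≤ y ∧ y ≤ a) := ind_le (by omega)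
  have h5 : ind (x = -a ∧ -a - 1 ≤ y - 1 ∧ y - 1 ≤ a) + ind (-a ≤ x - 1 ∧ x - 1 ≤ a ∧ y = a + 1) +
      ind (x = a + 1 ∧ -a ≤ y + 1 ∧ y + 1 ≤ a + 1) + ind (-a < x + 1 ∧ x + 1 ≤ a + 1 ∧ y = -a - 1) ≤
      ind (x = -a ∧ -a - 1 ≤ y ∧ y ≤ a) + ind (-a ≤ x ∧ x ≤ a ∧ y = a + 1) +
      ind (x = a + 1 ∧ -a ≤ y ∧ y ≤ a + 1) + ind (-a < x ∧ x ≤ a + 1 ∧ y = -a - 1) :=
    ind4 (by omega) (by omega) (by omega) (by omega) (by omega) (by omega) (by omega)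
  have h6 : ind (-a < x ∧ x ≤ a ∧ x - 2 * a - 2 ≤ y - 1 ∧ x + (y - 1) < 2 * a + 2) +
      ind (a + 2 ≤ y ∧ y ≤ 3 * a + 1 ∧ 2 * a + 2 ≤ x - 1 + y ∧ x - 1 < y) +
      ind (a + 2 ≤ x ∧ x ≤ 3 * a + 1 ∧ -x < y + 1 ∧ y + 1 ≤ x) +
      ind (y ≤ -a - 2 ∧ -3 * a - 1 ≤ y ∧ x + 1 ≤ -y ∧ 2 * a + 2 + y < x + 1) ≤
      ind (-a < x ∧ x ≤ a ∧ x - 2 * a - 2 ≤ y ∧ x + y < 2 * a + 2) +
      ind (a + 2 ≤ y ∧ y ≤ 3 * a + 1 ∧ 2 * a + 2 ≤ x + y ∧ x < y) +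
      ind (a + 2 ≤ x ∧ x ≤ 3 * a + 1 ∧ -x < y ∧ y ≤ x) +
      ind (y ≤ -a - 2 ∧ -3 * a - 1 ≤ y ∧ x ≤ -y ∧ 2 * a + 2 + y < x) :=
    ind4 (by omega) (by omega) (by omega) (by omega) (by omega) (by omega) (by omega)
  omega

lemma len_box (a x y : ℤ) (h : -a ≤ x ∧ x ≤ a ∧ -a ≤ y ∧ y ≤ a) :
    tN a x y = 2 ∧ tE a x y = 1 ∧ tS a x y = 1 ∧ tW a x y = 1 := by
  unfold tN tE tS tW
  split_ifs <;> omega

lemma len_out (a x y : ℤ) (ha : 0 ≤ a)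
    (h : ¬ (-(3 * a + 1) ≤ x ∧ x ≤ 3 * a + 1 ∧ -(3 * a + 1) ≤ y ∧ y ≤ 3 * a + 1)) :
    tN a x y = 0 ∧ tE a x y = 0 ∧ tS a x y = 0 ∧ tW a x y = 0 := by
  unfold tN tE tS tW
  split_ifs <;> omega

lemma ex_start (a x y : ℤ) (ha : 0 ≤ a) : ∃ r : Fin 5,
    cnt r 0 (len a x y) + cnt r 1 (len a x y) = tN a x y ∧ cnt r 2 (len a x y) = tE a x y ∧
      cnt r 3 (len a x y) = tS a x y ∧ cnt r 4 (len a x y) = tW a x y := by
  unfold len tN tE tS tW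
  split_ifs <;> first | decide | (exfalso; omega)

/-- box radii -/
def rad : ℕ → ℤ
  | 0 => 0
  | k + 1 => 3 * rad k + 1

lemma rad_ge (k : ℕ) : (k : ℤ) ≤ rad k := by
  induction k with
  | zero => simp [rad]
  | succ k ih => rw [rad]; push_cast; omega

def inB (k : ℕ) (v : ℤ × ℤ) : Prop := -rad k ≤ v.1 ∧ v.1 ≤ rad k ∧ -rad k ≤ v.2 ∧ v.2 ≤ rad k

instance (k : ℕ) (v : ℤ × ℤ) : Decidable (inB k v) := by unfold inB; infer_instance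

lemma rad_nonneg (k : ℕ) : 0 ≤ rad k := le_trans (Int.natCast_nonneg k) (rad_ge k)

lemma rad_mono {j k : ℕ} (h : j ≤ k) : rad j ≤ rad k := by
  induction h with
  | refl => exact le_rfl
  | step _ ih => rename_i m _; have := rad_nonneg m; rw [rad]; omega

lemma inB_mono {j k : ℕ} (h : j ≤ k) {v : ℤ × ℤ} (hv : inB j v) : inB k v := by
  have := rad_mono h
  unfold inB at *
  omega

lemma ex_inB (v : ℤ × ℤ) : ∃ k, inB (k + 1) v := by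
  refine ⟨v.1.natAbs + v.2.natAbs, ?_⟩
  have := rad_ge (v.1.natAbs + v.2.natAbs + 1)
  unfold inB
  omega

noncomputable def r0 (v : ℤ × ℤ) : Fin 5 :=
  (ex_start (rad (Nat.find (ex_inB v))) v.1 v.2 (rad_nonneg _)).choose

lemma r0_spec (k : ℕ) (v : ℤ × ℤ) (h1 : inB (k + 1) v) (h2 : ¬ inB k v) :
    cnt (r0 v) 0 (len (rad k) v.1 v.2) + cnt (r0 v) 1 (len (rad k) v.1 v.2) = tN (rad k) v.1 v.2 ∧
      cnt (r0 v) 2 (len (rad k) v.1 v.2) = tE (rad k) v.1 v.2 ∧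
      cnt (r0 v) 3 (len (rad k) v.1 v.2) = tS (rad k) v.1 v.2 ∧
      cnt (r0 v) 4 (len (rad k) v.1 v.2) = tW (rad k) v.1 v.2 := by
  have hk : Nat.find (ex_inB v) = k := by
    rw [Nat.find_eq_iff]
    exact ⟨h1, fun j hj h => h2 (inB_mono hj h)⟩
  have := (ex_start (rad (Nat.find (ex_inB v))) v.1 v.2 (rad_nonneg _)).choose_spec
  unfold r0
  rw [← hk]
  exact this

def odo (v : ℤ × ℤ) : ℕ → ℕ
  | 0 => 0
  | k + 1 => odo v k + len (rad k) v.1 v.2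

lemma odo_out (k : ℕ) (v : ℤ × ℤ) (h : ¬ inB k v) : odo v k = 0 := by
  induction k with
  | zero => rfl
  | succ k ih =>
    rw [odo, ih (fun h' => h (inB_mono (Nat.le_succ k) h'))]
    have := len_out (rad k) v.1 v.2 (rad_nonneg k) (by unfold inB at h; rw [rad] at h; exact h)
    unfold len
    omega

lemma cnt_odo (k : ℕ) (v : ℤ × ℤ) :
    cnt (r0 v) 0 (odo v (k + 1)) + cnt (r0 v) 1 (odo v (k + 1)) =
        cnt (r0 v) 0 (odo v k) + cnt (r0 v) 1 (odo v k) + tN (rad k) v.1 v.2 ∧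
      cnt (r0 v) 2 (odo v (k + 1)) = cnt (r0 v) 2 (odo v k) + tE (rad k) v.1 v.2 ∧
      cnt (r0 v) 3 (odo v (k + 1)) = cnt (r0 v) 3 (odo v k) + tS (rad k) v.1 v.2 ∧
      cnt (r0 v) 4 (odo v (k + 1)) = cnt (r0 v) 4 (odo v k) + tW (rad k) v.1 v.2 := by
  by_cases h : inB k v
  · obtain ⟨h1, h2, h3, h4⟩ := len_box (rad k) v.1 v.2 h
    have : odo v (k + 1) = odo v k + 5 := by rw [odo, len, h1, h2, h3, h4]
    rw [this, cnt_five, cnt_five, cnt_five, cnt_five, cnt_five]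
    omega
  · have h0 := odo_out k v h
    by_cases h' : inB (k + 1) v
    · have := r0_spec k v h' h
      rw [odo, h0, zero_add]
      simp only [cnt]
      omega
    · obtain ⟨h1, h2, h3, h4⟩ := len_out (rad k) v.1 v.2 (rad_nonneg k)
        (by unfold inB at h'; rw [rad] at h'; exact h')
      rw [odo_out _ _ h', h0, h1, h2, h3, h4]
      simp [cnt]

lemma infl_odo (k : ℕ) (v : ℤ × ℤ) : infl r0 (fun w => odo w k) v ≤ odo v k := by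
  induction k with
  | zero => simp [infl, odo, cnt]
  | succ k ih =>
    have hb := balance (rad k) v.1 v.2 (rad_nonneg k)
    have hN := (cnt_odo k (v - (0, 1))).1
    have hE := (cnt_odo k (v - (1, 0))).2.1
    have hS := (cnt_odo k (v - (0, -1))).2.2.1
    have hW := (cnt_odo k (v - (-1, 0))).2.2.2
    simp only [Prod.fst_sub, Prod.snd_sub, sub_zero, sub_neg_eq_add] at hN hE hS hW
    have e : ∀ j, infl r0 (fun w => odo w j) v =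
        cnt (r0 (v - (0, 1))) 0 (odo (v - (0, 1)) j) + cnt (r0 (v - (0, 1))) 1 (odo (v - (0, 1)) j) +
        cnt (r0 (v - (1, 0))) 2 (odo (v - (1, 0)) j) + cnt (r0 (v - (0, -1))) 3 (odo (v - (0, -1)) j) +
        cnt (r0 (v - (-1, 0))) 4 (odo (v - (-1, 0)) j) := by
      intro j
      rw [infl, Fin.sum_univ_five]
      rfl
    rw [e] at ih ⊢
    rw [show odo v (k + 1) = odo v k + len (rad k) v.1 v.2 from rfl]
    omega

lemma odo_zero (k : ℕ) : k ≤ odo (0, 0) k := by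
  induction k with
  | zero => exact le_rfl
  | succ k ih =>
    have hk := rad_nonneg k
    obtain ⟨h1, h2, h3, h4⟩ := len_box (rad k) 0 0 (by omega)
    rw [odo]
    simp only [len, h1, h2, h3, h4]
    omega

theorem recurrent : ¬ Set.Finite {n : ℕ | (st r0 n).1 = (0, 0)} := by
  refine infinite_of r0 fun k => ⟨fun w => odo w k,
    Finset.Icc (-rad k) (rad k) ×ˢ Finset.Icc (-rad k) (rad k), fun v hv => ?_, infl_odo k,
    odo_zero k⟩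
  apply odo_out
  intro h
  apply hv
  unfold inB at h
  simp only [Finset.mem_product, Finset.mem_Icc]
  omega

end Pool.Agent.H28.Rotor
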