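import Mathlib

set_option autoImplicit false

namespace Pool.Agent.H28.Shearer

open Finset Real

variable {α : Type*} [DecidableEq α]

/-- size of the fibre of `x` under projection to `A` -/
def fib (F : Finset (Finset α)) (A x : Finset α) : ℕ := (F.filter fun y => y ∩ A = x ∩ A).card

/-- minus the (unnormalised) entropy of the projection, up to a constant -/
noncomputable def S (F : Finset (Finset α)) (A : Finset α) : ℝ := ∑ x ∈ F, log (fib F A x)

lemma fib_pos {F : Finset (Finset α)} (A : Finset α) {x : Finset α} (hx : x ∈ F) :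
    (0 : ℝ) < fib F A x := Nat.cast_pos.2 (card_pos.2 ⟨x, mem_filter.2 ⟨hx, rfl⟩⟩)

lemma fib_congr (F : Finset (Finset α)) {A x y : Finset α} (h : x ∩ A = y ∩ A) :
    fib F A x = fib F A y := by simp [fib, h]

lemma inv_sum (F : Finset (Finset α)) (A : Finset α) (p : Finset α → Prop) [DecidablePred p]
    (h : ∀ x y, p x → p y → x ∩ A = y ∩ A) : ∑ x ∈ F with p x, (fib F A x : ℝ)⁻¹ ≤ 1 := by
  rcases (F.filter p).eq_empty_or_nonempty with h1 | ⟨x, hx⟩
  · simp [h1]
  rw [mem_filter] at hx
  rw [sum_congr rfl fun y hy => by rw [fib_congr F (h y x (mem_filter.1 hy).2 hx.2)], sum_const,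
    nsmul_eq_mul, ← div_eq_mul_inv, div_le_one (fib_pos A hx.1), Nat.cast_le]
  exact card_le_card fun y hy => mem_filter.2 ⟨(mem_filter.1 hy).1, h y x (mem_filter.1 hy).2 hx.2⟩

lemma submod (F : Finset (Finset α)) (A B : Finset α) :
    S F A + S F B ≤ S F (A ∪ B) + S F (A ∩ B) := by
  have h1 : ∑ x ∈ F, (fib F A x * fib F B x / (fib F (A ∪ B) x * fib F (A ∩ B) x) : ℝ)
      ≤ F.card := by
    calc _ = ∑ x ∈ F, ∑ y ∈ F, ∑ z ∈ F, if y ∩ A = x ∩ A ∧ z ∩ B = x ∩ B then
          ((fib F (A ∪ B) x : ℝ)⁻¹ * (fib F (A ∩ B) y : ℝ)⁻¹) else 0 := by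
          refine sum_congr rfl fun x _ => ?_
          rw [fib, fib, card_filter, card_filter, Nat.cast_sum, Nat.cast_sum, sum_mul_sum, sum_div]
          refine sum_congr rfl fun y _ => ?_
          rw [sum_div]
          refine sum_congr rfl fun z _ => ?_
          by_cases h : y ∩ A = x ∩ A
          · rw [fib_congr F (show y ∩ (A ∩ B) = x ∩ (A ∩ B) by rw [← inter_assoc, h, inter_assoc])]
            by_cases h' : z ∩ B = x ∩ B <;> simp [h, h', mul_comm]
          · simp [h]
      _ ≤ ∑ y ∈ F, ∑ z ∈ F with z ∩ (A ∩ B) = y ∩ (A ∩ B), (fib F (A ∩ B) y : ℝ)⁻¹ := by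
          rw [sum_comm]
          refine sum_le_sum fun y _ => ?_
          rw [sum_comm, sum_filter]
          refine sum_le_sum fun z _ => ?_
          rw [← sum_filter, ← sum_mul]
          split_ifs with h
          · exact mul_le_of_le_one_left (by positivity) (inv_sum F _ _ fun a b ha hb => by
              rw [inter_union_distrib_left, inter_union_distrib_left, ← ha.1, ← ha.2, hb.1, hb.2])
          · rw [filter_false_of_mem fun x _ hx => h ?_]
            · simp
            rw [← inter_assoc y, hx.1, inter_comm A, ← inter_assoc, hx.2, inter_right_comm]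
      _ = _ := by
          rw [card_eq_sum_ones, Nat.cast_sum]
          refine sum_congr rfl fun y hy => ?_
          rw [sum_const, nsmul_eq_mul, Nat.cast_one]
          exact mul_inv_cancel₀ (fib_pos _ hy).ne'
  rw [S, S, S, S, ← sub_nonpos, ← sum_add_distrib, ← sum_add_distrib, ← sum_sub_distrib]
  refine (sum_le_sum fun x hx => ?_).trans (show ∑ x ∈ F, (fib F A x * fib F B x /
    (fib F (A ∪ B) x * fib F (A ∩ B) x) - 1 : ℝ) ≤ 0 by simpa [sum_sub_distrib] using h1)
  have := fun C => fib_pos C hx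
  rw [← log_mul (this _).ne' (this _).ne', ← log_mul (this _).ne' (this _).ne',
    ← log_div (mul_pos (this _) (this _)).ne' (mul_pos (this _) (this _)).ne']
  exact log_le_sub_one_of_pos (div_pos (mul_pos (this _) (this _)) (mul_pos (this _) (this _)))

lemma S_anti (F : Finset (Finset α)) {A B : Finset α} (h : A ⊆ B) : S F B ≤ S F A :=
  sum_le_sum fun x hx => log_le_log (fib_pos _ hx) (Nat.cast_le.2 (card_le_card fun y hy => by
    rw [mem_filter] at hy ⊢
    exact ⟨hy.1, by rw [← inter_eq_left.2 h, inter_comm A, ← inter_assoc, hy.2, inter_assoc]⟩))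

lemma S_ge {F : Finset (Finset α)} (hF : F.Nonempty) (A : Finset α) :
    S F ∅ - S F A ≤ F.card * log (F.image (· ∩ A)).card := by
  have h0 : (0 : ℝ) < F.card := by simpa using card_pos.2 hF
  have h1 : (0 : ℝ) < (F.image (· ∩ A)).card := by simpa using hF
  have h2 : ∑ x ∈ F, (fib F A x : ℝ)⁻¹ ≤ (F.image (· ∩ A)).card := by
    rw [← sum_fiberwise_of_maps_to (g := (· ∩ A)) fun x hx => mem_image_of_mem _ hx,
      card_eq_sum_ones, Nat.cast_sum]
    exact sum_le_sum fun u _ => by simpa using inv_sum F A _ fun x y hx hy => hx.trans hy.symm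
  rw [← nsmul_eq_mul, ← sum_const, S, S, ← sum_sub_distrib, ← sub_nonpos, ← sum_sub_distrib]
  refine (sum_le_sum fun x hx => ?_).trans (show ∑ x ∈ F, (F.card / (F.image (· ∩ A)).card *
    (fib F A x : ℝ)⁻¹ - 1) ≤ 0 by
      rw [sum_sub_distrib, ← mul_sum, sub_nonpos, div_mul_eq_mul_div, div_le_iff₀ h1]
      simpa using mul_le_mul_of_nonneg_left h2 h0.le)
  have := fib_pos A hx
  refine le_trans (le_of_eq ?_) (log_le_sub_one_of_pos (by positivity))
  rw [log_mul (by positivity) (by positivity), log_div h0.ne' h1.ne', log_inv]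
  simp [fib]; ring

lemma chain (F : Finset (Finset α)) {ι : Type*} (I : Finset ι) (A : ι → Finset α) (k : ℕ)
    (Ω : Finset α) (h : ∀ e ∈ Ω, k ≤ (I.filter fun i => e ∈ A i).card) :
    k * (S F ∅ - S F Ω) ≤ ∑ i ∈ I, (S F ∅ - S F (Ω ∩ A i)) := by
  induction Ω using Finset.induction_on with
  | empty => simp
  | insert e Ω he ih =>
    have h1 := ih fun a ha => h a (mem_insert_of_mem ha)
    have h2 : (k : ℝ) * (S F Ω - S F (insert e Ω)) ≤
        ∑ i ∈ I, (S F (Ω ∩ A i) - S F (insert e Ω ∩ A i)) := by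
      have h3 := sub_nonneg.2 (S_anti F (subset_insert e Ω))
      refine (mul_le_mul_of_nonneg_right (Nat.cast_le.2 (h e (mem_insert_self _ _))) h3).trans ?_
      rw [← nsmul_eq_mul, ← sum_const, sum_filter]
      refine sum_le_sum fun i _ => ?_
      split_ifs with h4
      · have := submod F Ω (insert e Ω ∩ A i)
        rw [show Ω ∪ insert e Ω ∩ A i = insert e Ω by grind,
          show Ω ∩ (insert e Ω ∩ A i) = Ω ∩ A i by grind] at this
        linarith
      · rw [insert_inter_of_notMem h4, sub_self]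
    rw [sum_sub_distrib] at h1 h2 ⊢
    linarith

/-- Shearer's lemma -/
theorem shearer {F : Finset (Finset α)} {ι : Type*} (I : Finset ι) (A : ι → Finset α) (k : ℕ)
    (Ω : Finset α) (hΩ : ∀ x ∈ F, x ⊆ Ω) (h : ∀ e ∈ Ω, k ≤ (I.filter fun i => e ∈ A i).card)
    (hF : F.Nonempty) : F.card ^ k ≤ ∏ i ∈ I, (F.image (· ∩ A i)).card := by
  have h0 : (0 : ℝ) < F.card := by simpa using card_pos.2 hF
  have h1 := (chain F I A k Ω h).trans (sum_le_sum fun i _ => S_ge hF (Ω ∩ A i))
  have h2 : S F Ω = 0 := sum_eq_zero fun x hx => by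
    rw [fib, card_eq_one.2 ⟨x, ?_⟩]
    · simp
    ext y
    simp only [mem_filter, mem_singleton]
    exact ⟨fun h => by rw [← inter_eq_left.2 (hΩ y h.1), h.2, inter_eq_left.2 (hΩ x hx)],
      fun h => ⟨h ▸ hx, h ▸ rfl⟩⟩
  have h3 : ∀ i, F.image (· ∩ (Ω ∩ A i)) = F.image (· ∩ A i) := fun i =>
    image_congr fun x hx => by simp only [← inter_assoc, inter_eq_left.2 (hΩ x hx)]
  have h4 : ∀ i, (0 : ℝ) < (F.image (· ∩ A i)).card := fun i => by simpa using hF
  simp only [h2, h3, sub_zero, ← mul_sum] at h1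
  rw [show S F ∅ = F.card * log F.card by simp [S, fib], mul_left_comm,
    mul_le_mul_iff_right₀ h0, ← log_pow, ← log_prod fun i _ => (h4 i).ne',
    log_le_log_iff (by positivity) (prod_pos fun i _ => h4 i)] at h1
  exact_mod_cast h1

end Pool.Agent.H28.Shearer
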