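import Mathlib

/-!
Infinitely many smash products of `k[x]/(x^4)` with the group algebra of the Klein four group
in characteristic two.
-/

namespace Pool.Agent.H28.Smash

open Polynomial TensorProduct SkewMonoidAlgebra

noncomputable section

abbrev K := RatFunc (ZMod 2)

lemma two_K : (2 : K) = 0 := by
  have : ((2 : ℕ) : K) = 0 := CharP.cast_eq_zero K 2
  exact_mod_cast this

lemma two_eq (B : Type) [Ring B] [Algebra K B] : (2 : B) = 0 := by
  rw [← map_ofNat (algebraMap K B) 2, two_K, map_zero]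

def A : Type := AdjoinRoot (X ^ 4 : K[X])

instance : CommRing A := inferInstanceAs (CommRing (AdjoinRoot _))

instance : Algebra K A := inferInstanceAs (Algebra K (AdjoinRoot _))

def x : A := AdjoinRoot.root _

lemma x4 : x ^ 4 = 0 := by
  have := AdjoinRoot.eval₂_root (X ^ 4 : K[X])
  rw [eval₂_X_pow] at this
  exact this

def liftA {B : Type} [CommRing B] [Algebra K B] (y : B) (h : y ^ 4 = 0) : A →ₐ[K] B :=
  AdjoinRoot.liftAlgHom _ (Algebra.ofId K B) y (by rw [eval₂_X_pow]; exact h)

@[simp] lemma liftA_x {B : Type} [CommRing B] [Algebra K B] (y : B) (h : y ^ 4 = 0) :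
    liftA y h x = y := AdjoinRoot.liftAlgHom_root _ _ _ _

lemma extA {B : Type} [Semiring B] [Algebra K B] {f g : A →ₐ[K] B} (h : f x = g x) : f = g :=
  AdjoinRoot.algHom_ext h

def bA : Module.Basis (Fin 4) K A :=
  (AdjoinRoot.powerBasis' (monic_X_pow (R := K) 4)).basis.reindex (finCongr (natDegree_X_pow 4))

lemma bA_apply (i : Fin 4) : bA i = x ^ i.val := by
  exact (Module.Basis.reindex_apply (AdjoinRoot.powerBasis' (monic_X_pow (R := K) 4)).basis
    _ i).trans (PowerBasis.basis_eq_pow _ _)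

instance : Module.Finite K A := Module.Finite.of_basis bA

def comA : A →ₐ[K] A ⊗[K] A := liftA (x ⊗ₜ 1 + 1 ⊗ₜ x) (by
  have h1 : (x ⊗ₜ[K] (1 : A)) ^ 4 = 0 := by simp [x4]
  have h2 : ((1 : A) ⊗ₜ[K] x) ^ 4 = 0 := by simp [x4]
  have h3 := two_eq (A ⊗[K] A)
  generalize x ⊗ₜ[K] (1 : A) = u at *
  generalize (1 : A) ⊗ₜ[K] x = v at *
  linear_combination h1 + h2 + (2 * u ^ 3 * v + 3 * u ^ 2 * v ^ 2 + 2 * u * v ^ 3) * h3)

def couA : A →ₐ[K] K := liftA 0 (by simp)

lemma comA_x : comA x = x ⊗ₜ 1 + 1 ⊗ₜ x := liftA_x _ _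

lemma couA_x : couA x = 0 := liftA_x _ _

instance : Bialgebra K A := Bialgebra.ofAlgHom comA couA
  (extA (by simp [comA_x, add_tmul, tmul_add, add_assoc, Algebra.TensorProduct.one_def]))
  (extA (by simp [comA_x, couA_x]))
  (extA (by simp [comA_x, couA_x]))

lemma comul_A : Bialgebra.comulAlgHom K A = comA := rfl

lemma counit_A : Bialgebra.counitAlgHom K A = couA := rfl

lemma x_add_x : x + x = 0 := by linear_combination x * two_eq A

instance : HopfAlgebra K A := HopfAlgebra.ofAlgHom (AlgHom.id K A)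
  (extA (by simp [comul_A, counit_A, comA_x, couA_x, x_add_x]))
  (extA (by simp [comul_A, counit_A, comA_x, couA_x, x_add_x]))

lemma mul_comA (a : A) : LinearMap.mul' K A (comA a) = algebraMap K A (couA a) := by
  have : (Algebra.TensorProduct.lmul' K).comp comA = (Algebra.ofId K A).comp couA :=
    extA (by simp [comA_x, couA_x, x_add_x])
  exact congr($this a)

def σ (c : K) : A →ₐ[K] A := liftA (x + c • x ^ 2) (by
  rw [Algebra.smul_def]
  linear_combination (1 + algebraMap K A c * x) ^ 4 * x4)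

lemma σ_x (c : K) : σ c x = x + c • x ^ 2 := liftA_x _ _

lemma σ_x2 (c : K) : σ c (x ^ 2) = x ^ 2 := by
  rw [map_pow, σ_x, Algebra.smul_def]
  linear_combination (algebraMap K A c) ^ 2 * x4 + (algebraMap K A c * x ^ 3) * two_eq A

lemma σ_add (c d : K) : σ (c + d) = (σ c).comp (σ d) := extA (by
  simp only [AlgHom.comp_apply, σ_x, map_add, map_smul, σ_x2, add_smul, add_assoc])

lemma σ_zero : σ 0 = AlgHom.id K A := extA (by simp [σ_x])

lemma comA_x2 : comA (x ^ 2) = (x ^ 2) ⊗ₜ 1 + 1 ⊗ₜ (x ^ 2) := by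
  have h1 : (x ^ 2) ⊗ₜ[K] (1 : A) = (x ⊗ₜ[K] (1 : A)) ^ 2 := by simp
  have h2 : (1 : A) ⊗ₜ[K] (x ^ 2) = ((1 : A) ⊗ₜ[K] x) ^ 2 := by simp
  rw [map_pow, comA_x, h1, h2]
  linear_combination (x ⊗ₜ[K] (1 : A) * (1 : A) ⊗ₜ[K] x) * two_eq (A ⊗[K] A)

lemma comA_σ (c : K) : comA.comp (σ c) = (Algebra.TensorProduct.map (σ c) (σ c)).comp comA :=
  extA (by
    simp only [AlgHom.comp_apply, σ_x, map_add, map_smul, comA_x2, comA_x,
      Algebra.TensorProduct.map_tmul, map_one, add_tmul, tmul_add, smul_add, smul_tmul',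
      tmul_smul]
    abel)

lemma couA_σ (c : K) : couA.comp (σ c) = couA := extA (by simp [σ_x, couA_x])

abbrev G0 := Multiplicative (ZMod 2 × ZMod 2)

def chi (l : K) (g : G0) : K :=
  algebraMap (ZMod 2) K g.toAdd.1 + l * algebraMap (ZMod 2) K g.toAdd.2

/-- the Klein four group, acting on `A` through the parameter `l` -/
def Gp (_ : K) : Type := G0

instance (l : K) : Group (Gp l) := inferInstanceAs (Group G0)

instance (l : K) : MulSemiringAction (Gp l) A where
  smul g a := σ (chi l g) a
  one_smul a := by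
    show σ (chi l (1 : G0)) a = a
    simp [chi, σ_zero]
  mul_smul g h a := by
    show σ (chi l ((g * h : Gp l) : G0)) a = σ (chi l g) (σ (chi l h) a)
    have : chi l ((g * h : Gp l) : G0) = chi l g + chi l h := by
      show algebraMap (ZMod 2) K (_ + _) + l * algebraMap (ZMod 2) K (_ + _) = _
      simp only [chi, map_add]; ring
    rw [this, σ_add]; rfl
  smul_zero g := map_zero (σ _)
  smul_add g := map_add (σ _)
  smul_one g := map_one (σ _)
  smul_mul g := map_mul (σ _)

lemma smul_def {l : K} (g : Gp l) (a : A) : g • a = σ (chi l g) a := rfl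

instance (l : K) : SMulCommClass (Gp l) K A := ⟨fun _ r a => map_smul (σ _) r a⟩

abbrev E (l : K) := SkewMonoidAlgebra A (Gp l)

variable {l : K}

def iA (l : K) : A →ₐ[K] E l where
  __ := (singleOneRingHom : A →+* E l)
  commutes' _ := rfl

lemma iA_apply (a : A) : iA l a = single 1 a := rfl

lemma single_eq (g : Gp l) (a : A) : (single g a : E l) = iA l a * of A (Gp l) g := by
  simp [iA_apply]

lemma of_mul (g : Gp l) (a : A) : of A (Gp l) g * iA l a = iA l (g • a) * of A (Gp l) g := by
  simp [iA_apply]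

lemma extE {B : Type} [Semiring B] [Algebra K B] {f f' : E l →ₐ[K] B}
    (h1 : f (iA l x) = f' (iA l x)) (h2 : ∀ g, f (of A (Gp l) g) = f' (of A (Gp l) g)) :
    f = f' := by
  have h3 : f.comp (iA l) = f'.comp (iA l) := extA h1
  refine AlgHom.ext fun u => ?_
  induction u using SkewMonoidAlgebra.induction_on' with
  | single g a =>
    rw [single_eq, map_mul, map_mul, h2]
    exact congrArg (· * _) congr($h3 a)
  | add u v hu hv => rw [map_add, map_add, hu, hv]

def lsumE {B : Type} [AddCommGroup B] [Module K B] (f : Gp l → A →ₗ[K] B) : E l →ₗ[K] B :=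
  (Finsupp.lsum K f) ∘ₗ (coeffLinearEquiv (S := K) (k := A) (G := Gp l)).toLinearMap

lemma lsumE_single {B : Type} [AddCommGroup B] [Module K B] (f : Gp l → A →ₗ[K] B) (g : Gp l)
    (a : A) : lsumE f (single g a) = f g a := Finsupp.lsum_single K f g a

def dg (l : K) : Gp l →* E l ⊗[K] E l where
  toFun g := of A (Gp l) g ⊗ₜ of A (Gp l) g
  map_one' := by rw [map_one]; rfl
  map_mul' g h := by rw [map_mul, Algebra.TensorProduct.tmul_mul_tmul]

def comE (l : K) : E l →ₐ[K] E l ⊗[K] E l :=
  liftNCAlgHom ((Algebra.TensorProduct.map (iA l) (iA l)).comp comA) (dg l) (by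
    intro a g
    have h1 : comA (g • a) = Algebra.TensorProduct.map (σ (chi l g)) (σ (chi l g)) (comA a) :=
      congr($(comA_σ (chi l g)) a)
    rw [AlgHom.comp_apply, AlgHom.comp_apply, h1]
    induction comA a using TensorProduct.induction_on with
    | zero => simp
    | tmul u v =>
      show _ * (of A (Gp l) g ⊗ₜ of A (Gp l) g) = (of A (Gp l) g ⊗ₜ of A (Gp l) g) * _
      simp only [Algebra.TensorProduct.map_tmul, Algebra.TensorProduct.tmul_mul_tmul, of_mul,
        smul_def]
    | add u v hu hv => simp only [map_add, add_mul, mul_add, hu, hv])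

def couE (l : K) : E l →ₐ[K] K := liftNCAlgHom couA 1 (by
  intro a g
  have : couA (g • a) = couA a := congr($(couA_σ (chi l g)) a)
  simp [this])

lemma comE_single (g : Gp l) (a : A) : comE l (single g a) =
    Algebra.TensorProduct.map (iA l) (iA l) (comA a) * (of A (Gp l) g ⊗ₜ of A (Gp l) g) :=
  liftNC_single _ _ _ _

lemma couE_single (g : Gp l) (a : A) : couE l (single g a) = couA a :=
  (liftNC_single _ _ _ _).trans (mul_one _)

lemma comE_iA (a : A) : comE l (iA l a) = Algebra.TensorProduct.map (iA l) (iA l) (comA a) := by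
  rw [iA_apply, comE_single, map_one, ← Algebra.TensorProduct.one_def, mul_one]

lemma comE_x : comE l (iA l x) = iA l x ⊗ₜ 1 + 1 ⊗ₜ iA l x := by
  rw [comE_iA, comA_x]; simp

lemma comE_of (g : Gp l) : comE l (of A (Gp l) g) = of A (Gp l) g ⊗ₜ of A (Gp l) g := by
  rw [of_apply, comE_single, map_one, map_one, one_mul, of_apply]

lemma couE_x : couE l (iA l x) = 0 := by rw [iA_apply, couE_single, couA_x]

lemma couE_of (g : Gp l) : couE l (of A (Gp l) g) = 1 := by rw [of_apply, couE_single, map_one]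

instance (l : K) : Bialgebra K (E l) := Bialgebra.ofAlgHom (comE l) (couE l)
  (extE (by simp [comE_x, add_tmul, tmul_add, add_assoc, Algebra.TensorProduct.one_def])
    fun g => by simp [comE_of, -of_apply])
  (extE (by simp [comE_x, couE_x]) fun g => by simp [comE_of, couE_of, -of_apply])
  (extE (by simp [comE_x, couE_x]) fun g => by simp [comE_of, couE_of, -of_apply])

lemma comul_E (u : E l) : Coalgebra.comul (R := K) u = comE l u := rfl

lemma counit_E (u : E l) : Coalgebra.counit (R := K) u = couE l u := rfl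

def anti (l : K) : E l →ₗ[K] E l :=
  lsumE fun g : Gp l => (LinearMap.mulLeft K (of A (Gp l) g⁻¹)) ∘ₗ (iA l).toLinearMap

lemma anti_single (g : Gp l) (a : A) :
    anti l (iA l a * of A (Gp l) g) = of A (Gp l) g⁻¹ * iA l a := by
  rw [← single_eq, anti, lsumE_single]; rfl

instance (l : K) : HopfAlgebra K (E l) where
  antipode := anti l
  mul_antipode_rTensor_comul := lhom_ext fun g a => by
    have key : ∀ t : A ⊗[K] A, LinearMap.mul' K (E l) ((anti l).rTensor (E l)
        (Algebra.TensorProduct.map (iA l) (iA l) t * (of A (Gp l) g ⊗ₜ of A (Gp l) g))) =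
        of A (Gp l) g⁻¹ * iA l (LinearMap.mul' K A t) * of A (Gp l) g := by
      intro t
      induction t using TensorProduct.induction_on with
      | zero => simp
      | tmul u v =>
        simp only [Algebra.TensorProduct.map_tmul, Algebra.TensorProduct.tmul_mul_tmul,
          LinearMap.rTensor_tmul, LinearMap.mul'_apply, anti_single, map_mul, mul_assoc]
      | add u v hu hv => simp only [map_add, add_mul, mul_add, hu, hv]
    simp only [LinearMap.comp_apply, comul_E, counit_E, comE_single, couE_single, key, mul_comA,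
      AlgHom.commutes, Algebra.linearMap_apply]
    rw [← Algebra.commutes, mul_assoc, ← map_mul, inv_mul_cancel, map_one, mul_one]
  mul_antipode_lTensor_comul := lhom_ext fun g a => by
    have key : ∀ t : A ⊗[K] A, LinearMap.mul' K (E l) ((anti l).lTensor (E l)
        (Algebra.TensorProduct.map (iA l) (iA l) t * (of A (Gp l) g ⊗ₜ of A (Gp l) g))) =
        iA l (LinearMap.mul' K A t) := by
      intro t
      induction t using TensorProduct.induction_on with
      | zero => simp
      | tmul u v =>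
        simp only [Algebra.TensorProduct.map_tmul, Algebra.TensorProduct.tmul_mul_tmul,
          LinearMap.lTensor_tmul, LinearMap.mul'_apply, anti_single, map_mul]
        rw [mul_assoc, ← mul_assoc (of A (Gp l) g), ← map_mul (of A (Gp l)), mul_inv_cancel,
          map_one, one_mul]
      | add u v hu hv => simp only [map_add, add_mul, hu, hv]
    simp only [LinearMap.comp_apply, comul_E, counit_E, comE_single, couE_single, key, mul_comA,
      AlgHom.commutes, Algebra.linearMap_apply]

/-! ### factorization -/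

abbrev H := MonoidAlgebra K G0

def iB (l : K) : A →ₐc[K] E l := BialgHom.ofAlgHom (iA l)
  (extA ((couE_x (l := l)).trans couA_x.symm))
  (AlgHom.ext fun a => (comE_iA a).symm)

def jA (l : K) : H →ₐ[K] E l := MonoidAlgebra.lift K (E l) G0 (of A (Gp l))

lemma jA_single (g : Gp l) : jA l (MonoidAlgebra.single (M := G0) g 1) = of A (Gp l) g :=
  (MonoidAlgebra.lift_single _ _ _).trans (one_smul _ _)

def jB (l : K) : H →ₐc[K] E l := BialgHom.ofAlgHom (jA l)
  (MonoidAlgebra.algHom_ext (fun g => by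
    have h := jA_single (l := l) g
    simp only [AlgHom.comp_apply, h, Bialgebra.counitAlgHom_apply, counit_E]
    rw [MonoidAlgebra.counit_single]
    exact couE_of _) (Subsingleton.elim _ _))
  (MonoidAlgebra.algHom_ext (fun g => by
    have h := jA_single (l := l) g
    simp only [AlgHom.comp_apply, h, Bialgebra.comulAlgHom_apply, comul_E]
    rw [(MonoidAlgebra.isGroupLikeElem_single_one g).comul_eq_tmul_self,
      Algebra.TensorProduct.map_tmul, h]
    exact (comE_of _).symm) (Subsingleton.elim _ _))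

def mulMap (l : K) : A ⊗[K] H →ₗ[K] E l :=
  TensorProduct.lift (((LinearMap.mul K (E l)).comp (iB l).toLinearMap).compl₂ (jB l).toLinearMap)

lemma mulMap_tmul (a : A) (h : H) : mulMap l (a ⊗ₜ h) = iA l a * jA l h := rfl

def invMap (l : K) : E l →ₗ[K] A ⊗[K] H :=
  lsumE fun g : Gp l => (TensorProduct.mk K A H).flip (MonoidAlgebra.single (M := G0) g 1)

lemma invMap_single (g : Gp l) (a : A) :
    invMap l (single g a) = a ⊗ₜ MonoidAlgebra.single (M := G0) g 1 := lsumE_single _ _ _

lemma inv_mul (t : A ⊗[K] H) : invMap l (mulMap l t) = t := by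
  induction t using TensorProduct.induction_on with
  | zero => simp
  | tmul a h =>
    induction h using MonoidAlgebra.induction_on with
    | of g =>
      rw [mulMap_tmul, MonoidAlgebra.of_apply, jA_single (l := l) g, ← single_eq, invMap_single]
    | add u v hu hv => rw [tmul_add, map_add, map_add, hu, hv]
    | smul r u hu => rw [tmul_smul, map_smul, map_smul, hu]
  | add u v hu hv => rw [map_add, map_add, hu, hv]

lemma mul_inv (u : E l) : mulMap l (invMap l u) = u := by
  induction u using SkewMonoidAlgebra.induction_on' with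
  | single g a => rw [invMap_single, mulMap_tmul, jA_single, single_eq]
  | add u v hu hv => rw [map_add, map_add, hu, hv]

lemma mulMap_bij : Function.Bijective (mulMap l) :=
  Function.bijective_iff_has_inverse.2 ⟨invMap l, inv_mul, mul_inv⟩

lemma iA_inj : Function.Injective (iA l) := fun a b h => by
  have := congrArg (fun u : E l => u.coeff 1) h
  simpa [iA_apply] using this

lemma jA_inj : Function.Injective (jA l) := fun u v h => by
  have h1 : mulMap l (1 ⊗ₜ u) = mulMap l (1 ⊗ₜ v) := by rw [mulMap_tmul, mulMap_tmul, h]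
  have h2 := congrArg (fun t => TensorProduct.lid K H (couA.toLinearMap.rTensor H t))
    (mulMap_bij.1 h1)
  simpa using h2

/-! ### group-like and primitive elements -/

instance (l : K) : DecidableEq (Gp l) := inferInstanceAs (DecidableEq G0)

def c (i : Fin 4) : A →ₗ[K] K := bA.coord i

lemma c_pow (i j : Fin 4) : c i (x ^ j.val) = if j = i then 1 else 0 := by
  rw [← bA_apply, c, Module.Basis.coord_apply, Module.Basis.repr_self, Finsupp.single_apply]

lemma c_0 (i : Fin 4) : c i 1 = if 0 = i then 1 else 0 := by simpa using c_pow i 0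

lemma c_1 (i : Fin 4) : c i x = if 1 = i then 1 else 0 := by simpa using c_pow i 1

lemma c_2 (i : Fin 4) : c i (x ^ 2) = if 2 = i then 1 else 0 := c_pow i 2

lemma c_3 (i : Fin 4) : c i (x ^ 3) = if 3 = i then 1 else 0 := c_pow i 3

lemma expand (a : A) : a = c 0 a • 1 + c 1 a • x + c 2 a • x ^ 2 + c 3 a • x ^ 3 := by
  conv_lhs => rw [← bA.sum_repr a]
  simp [Fin.sum_univ_four, bA_apply, c]

lemma comA_x3 : comA (x ^ 3) =
    (x ^ 3) ⊗ₜ 1 + (x ^ 2) ⊗ₜ x + x ⊗ₜ (x ^ 2) + 1 ⊗ₜ (x ^ 3) := by
  rw [pow_succ, map_mul, comA_x2, comA_x]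
  simp only [mul_add, add_mul, Algebra.TensorProduct.tmul_mul_tmul, mul_one, one_mul]
  abel

def cc (i j : Fin 4) : A ⊗[K] A →ₗ[K] K := LinearMap.mul' K K ∘ₗ TensorProduct.map (c i) (c j)

lemma cc_tmul (i j : Fin 4) (u v : A) : cc i j (u ⊗ₜ v) = c i u * c j v := rfl

lemma cc_com (i j : Fin 4) (a : A) : cc i j (comA a) =
    c 0 a * (c i 1 * c j 1) + c 1 a * (c i x * c j 1 + c i 1 * c j x) +
    c 2 a * (c i (x ^ 2) * c j 1 + c i 1 * c j (x ^ 2)) +
    c 3 a * (c i (x ^ 3) * c j 1 + c i (x ^ 2) * c j x + c i x * c j (x ^ 2) +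
      c i 1 * c j (x ^ 3)) := by
  conv_lhs => rw [expand a]
  simp only [map_add, map_smul, map_one, comA_x, comA_x2, comA_x3, Algebra.TensorProduct.one_def,
    cc_tmul, smul_eq_mul]

lemma cc_i0 (i : Fin 4) (a : A) : cc i 0 (comA a) = c i a := by
  rw [cc_com]; fin_cases i <;> simp [c_0, c_1, c_2, c_3]

lemma cc_ii (i : Fin 4) (hi : i ≠ 0) (a : A) : cc i i (comA a) = 0 := by
  rw [cc_com]; fin_cases i <;> simp [c_0, c_1, c_2, c_3] at hi ⊢

lemma cc_12 (a : A) : cc 1 2 (comA a) = c 3 a := by
  rw [cc_com]; simp [c_0, c_1, c_2, c_3]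

def f (i : Fin 4) (g : Gp l) : E l →ₗ[K] K := lsumE fun h => if h = g then c i else 0

lemma f_apply (i : Fin 4) (g : Gp l) (u : E l) : f i g u = c i (u.coeff g) := by
  induction u using SkewMonoidAlgebra.induction_on' with
  | single h a =>
    rw [f, lsumE_single, coeff_single, Finsupp.single_apply]
    split_ifs <;> simp
  | add u v hu hv => rw [map_add, hu, hv, SkewMonoidAlgebra.coeff_add, Finsupp.add_apply, map_add]

def ff (i : Fin 4) (g : Gp l) (j : Fin 4) (h : Gp l) : E l ⊗[K] E l →ₗ[K] K :=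
  LinearMap.mul' K K ∘ₗ TensorProduct.map (f i g) (f j h)

lemma ff_tmul (i : Fin 4) (g : Gp l) (j : Fin 4) (h : Gp l) (u v : E l) :
    ff i g j h (u ⊗ₜ v) = c i (u.coeff g) * c j (v.coeff h) := by
  rw [← f_apply, ← f_apply]; rfl

lemma ff_com (i : Fin 4) (g : Gp l) (j : Fin 4) (h : Gp l) (u : E l) :
    ff i g j h (comE l u) = if g = h then cc i j (comA (u.coeff g)) else 0 := by
  induction u using SkewMonoidAlgebra.induction_on' with
  | single k a =>
    have key : ∀ t : A ⊗[K] A, ff i g j h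
        (Algebra.TensorProduct.map (iA l) (iA l) t * (of A (Gp l) k ⊗ₜ of A (Gp l) k)) =
        if k = g ∧ k = h then cc i j t else 0 := by
      intro t
      induction t using TensorProduct.induction_on with
      | zero => simp
      | tmul u v =>
        rw [Algebra.TensorProduct.map_tmul, Algebra.TensorProduct.tmul_mul_tmul, ← single_eq,
          ← single_eq, ff_tmul, cc_tmul, coeff_single, coeff_single, Finsupp.single_apply,
          Finsupp.single_apply]
        by_cases h1 : k = g <;> by_cases h2 : k = h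
        · rw [if_pos h1, if_pos h2, if_pos ⟨h1, h2⟩]
        · rw [if_neg h2, if_neg fun hh : k = g ∧ k = h => h2 hh.2, map_zero, mul_zero]
        · rw [if_neg h1, if_neg fun hh : k = g ∧ k = h => h1 hh.1, map_zero, zero_mul]
        · rw [if_neg h1, if_neg fun hh : k = g ∧ k = h => h1 hh.1, map_zero, zero_mul]
      | add u v hu hv =>
        simp only [map_add, add_mul, hu, hv]
        split_ifs <;> simp
    rw [comE_single, key, coeff_single, Finsupp.single_apply]
    by_cases h1 : k = g
    · subst h1; simp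
    · simp [h1]
  | add u v hu hv =>
    rw [map_add, map_add, hu, hv, SkewMonoidAlgebra.coeff_add, Finsupp.add_apply, map_add, map_add]
    split_ifs <;> simp

lemma grouplike {u : E l} (h : comE l u = u ⊗ₜ u) (h0 : u ≠ 0) : ∃ g, u = of A (Gp l) g := by
  have h1 : ∀ (g : Gp l) (i : Fin 4), i ≠ 0 → c i (u.coeff g) = 0 := by
    intro g i hi
    have := ff_com i g i g u
    rw [h, ff_tmul, if_pos rfl, cc_ii i hi] at this
    exact mul_self_eq_zero.1 this
  have h2 : ∀ g : Gp l, u.coeff g = c 0 (u.coeff g) • 1 := by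
    intro g
    conv_lhs => rw [expand (u.coeff g)]
    simp [h1]
  have h3 : ∀ g k : Gp l, c 0 (u.coeff g) * c 0 (u.coeff k) =
      if g = k then c 0 (u.coeff g) else 0 := by
    intro g k
    have := ff_com 0 g 0 k u
    rwa [h, ff_tmul, cc_i0] at this
  obtain ⟨g, hg⟩ : ∃ g, c 0 (u.coeff g) ≠ 0 := by
    by_contra hh
    push Not at hh
    exact h0 (SkewMonoidAlgebra.ext fun g => by rw [h2, hh]; simp)
  refine ⟨g, SkewMonoidAlgebra.ext fun k => ?_⟩
  rw [h2, of_apply, coeff_single, Finsupp.single_apply]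
  have h4 := h3 g k
  split_ifs at h4 ⊢ with h5
  · subst h5
    rw [mul_left_cancel₀ hg (h4.trans (mul_one _).symm), one_smul]
  · rw [(mul_eq_zero.1 h4).resolve_left hg, zero_smul]

lemma primitive {u : E l} (h : comE l u = u ⊗ₜ 1 + 1 ⊗ₜ u) :
    ∃ α β : K, u = iA l (α • x + β • x ^ 2) := by
  have one : ∀ g : Gp l, (1 : E l).coeff g = if 1 = g then 1 else 0 := by
    intro g
    rw [one_def, coeff_single, Finsupp.single_apply]
  refine ⟨c 1 (u.coeff 1), c 2 (u.coeff 1), SkewMonoidAlgebra.ext fun g => ?_⟩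
  rw [iA_apply, coeff_single, Finsupp.single_apply]
  split_ifs with hg
  · subst hg
    have h1 := ff_com 0 1 0 1 u
    have h2 := ff_com 1 1 2 1 u
    rw [h, map_add, ff_tmul, ff_tmul, one, if_pos rfl, if_pos rfl] at h1 h2
    rw [cc_i0] at h1
    rw [cc_12] at h2
    simp [c_0] at h1 h2
    conv_lhs => rw [expand (u.coeff 1)]
    simp [h1, ← h2]
  · have h1 : ∀ i, c i (u.coeff g) = 0 := by
      intro i
      have := ff_com i g 0 g u
      rw [h, map_add, ff_tmul, ff_tmul, one, if_neg hg, if_pos rfl, cc_i0] at this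
      simpa using this.symm
    rw [expand (u.coeff g)]
    simp [h1]

lemma iso_rel {l m : K} (φ : E l ≃ₐc[K] E m) :
    ∃ α : K, α ≠ 0 ∧ ∀ g : G0, ∃ g' : G0, chi m g' = α * chi l g := by
  have hcom : ∀ u, comE m (φ u) = TensorProduct.map φ.toLinearMap φ.toLinearMap (comE l u) :=
    fun u => (CoalgHomClass.map_comp_comul_apply φ u).symm
  obtain ⟨α, β, hp⟩ := primitive (u := φ (iA l x)) (by
    rw [hcom, comE_x, map_add]
    show φ _ ⊗ₜ φ 1 + φ 1 ⊗ₜ φ _ = _
    rw [map_one])
  have hsq : (α • x + β • x ^ 2) ^ 2 = (α ^ 2) • x ^ 2 := by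
    simp only [Algebra.smul_def, map_pow]
    linear_combination (algebraMap K A β) ^ 2 * x4 +
      (algebraMap K A α * algebraMap K A β * x ^ 3) * two_eq A
  have hα : α ≠ 0 := by
    rintro rfl
    have h1 : φ (iA l (x ^ 2)) = φ (iA l 0) := by
      rw [map_pow, map_pow, hp, ← map_pow, hsq]; simp
    have h2 := congrArg (c 2) (iA_inj (φ.injective h1))
    simp [c_2] at h2
  refine ⟨α, hα, fun g => ?_⟩
  obtain ⟨g', hg'⟩ := grouplike (u := φ (of A (Gp l) g)) (by rw [hcom, comE_of]; rfl)
    (by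
      intro h
      have h1 : of A (Gp l) g = 0 := φ.injective (h.trans (map_zero φ).symm)
      have h2 := couE_of (l := l) g
      rw [h1, map_zero] at h2
      exact zero_ne_one h2)
  refine ⟨g', ?_⟩
  have h1 := congrArg φ (of_mul (l := l) g x)
  rw [smul_def, σ_x, map_mul, map_mul, map_add, map_add, map_smul, map_smul, map_pow, map_pow, hp,
    hg', of_mul, ← map_pow, ← map_smul, ← map_add, ← single_eq, ← single_eq, hsq, smul_def,
    map_add, map_smul, map_smul, σ_x, σ_x2] at h1
  have h2 := congrArg (fun u : E m => c 2 (u.coeff g')) h1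
  simp [c_1, c_2] at h2
  apply mul_left_cancel₀ hα
  linear_combination h2

lemma chi_deg (n : ℕ) (hn : n ≠ 0) (g : G0) (h : chi (RatFunc.X ^ n) g ≠ 0) :
    (chi (RatFunc.X ^ n) g).intDegree = 0 ∨ (chi (RatFunc.X ^ n) g).intDegree = n := by
  have z : ∀ a : ZMod 2, a = 0 ∨ a = 1 := by decide
  have e1 : (RatFunc.X ^ n : K) = algebraMap (ZMod 2)[X] K (X ^ n) := by simp
  have e2 : (1 + RatFunc.X ^ n : K) = algebraMap (ZMod 2)[X] K (X ^ n + 1) := by simp [add_comm]
  unfold chi at h ⊢
  rcases z g.toAdd.1 with h1 | h1 <;> rcases z g.toAdd.2 with h2 | h2 <;>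
    simp only [h1, h2, map_zero, map_one, mul_zero, mul_one, zero_add, add_zero] at h ⊢
  · exact absurd rfl h
  · right; rw [e1, RatFunc.intDegree_polynomial, natDegree_X_pow]
  · left; exact RatFunc.intDegree_one
  · right
    rw [e2, RatFunc.intDegree_polynomial, ← C_1, natDegree_X_pow_add_C]

lemma not_iso {n n' : ℕ} (φ : E (RatFunc.X ^ (n + 1)) ≃ₐc[K] E (RatFunc.X ^ (n' + 1))) :
    n = n' := by
  obtain ⟨α, hα, h⟩ := iso_rel φ
  obtain ⟨g1, h1⟩ := h (Multiplicative.ofAdd (1, 0))
  obtain ⟨g2, h2⟩ := h (Multiplicative.ofAdd (0, 1))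
  have e1 : chi (RatFunc.X ^ (n + 1)) (Multiplicative.ofAdd (1, 0)) = 1 := by simp [chi]
  have e2 : chi (RatFunc.X ^ (n + 1)) (Multiplicative.ofAdd (0, 1)) = RatFunc.X ^ (n + 1) := by
    simp [chi]
  rw [e1, mul_one] at h1
  rw [e2] at h2
  have hX : (RatFunc.X ^ (n + 1) : K) ≠ 0 := pow_ne_zero _ RatFunc.X_ne_zero
  have d1 := chi_deg (n' + 1) (by omega) g1 (h1 ▸ hα)
  have d2 := chi_deg (n' + 1) (by omega) g2 (h2 ▸ mul_ne_zero hα hX)
  have e3 : (RatFunc.X ^ (n + 1) : K) = algebraMap (ZMod 2)[X] K (X ^ (n + 1)) := by simp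
  rw [h1] at d1
  rw [h2, RatFunc.intDegree_mul hα hX, e3, RatFunc.intDegree_polynomial, natDegree_X_pow] at d2
  omega

end

end Pool.Agent.H28.Smash
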