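import Mathlib

/-!
Steiner triple systems with a prescribed group action, through an invariant idempotent
commutative quasigroup and the Bose construction.
-/

namespace Pool.Agent.H28.Steiner

open Finset

/-- From a Steiner quasigroup to a Steiner triple system. -/
lemma sts_of_quasigroup {V : Type} [Fintype V] [DecidableEq V] (t : V → V → V)
    (hi : ∀ p, t p p = p) (hc : ∀ p q, t p q = t q p) (hl : ∀ p q, t p (t p q) = q) :
    ∃ B : Finset (Finset V), (∀ b ∈ B, b.card = 3) ∧
      (∀ x y : V, x ≠ y → ∃! b, b ∈ B ∧ x ∈ b ∧ y ∈ b) ∧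
      ∀ f : Equiv.Perm V, (∀ p q, f (t p q) = t (f p) (f q)) → ∀ b ∈ B, b.image f ∈ B := by
  have hr : ∀ p q, t q (t p q) = p := fun p q => by rw [hc p q, hl]
  refine ⟨(univ.filter fun pq : V × V => pq.1 ≠ pq.2).image fun pq => {pq.1, pq.2, t pq.1 pq.2},
    ?_, ?_, ?_⟩
  · intro b hb
    simp only [mem_image, mem_filter, mem_univ, true_and] at hb
    obtain ⟨⟨p, q⟩, hpq, rfl⟩ := hb
    have h1 : p ≠ t p q := fun h => hpq (by
      have := hl p q
      rw [← h, hi] at this; exact this)
    have h2 : q ≠ t p q := fun h => hpq (by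
      have := hr p q
      rw [← h, hi] at this; exact this.symm)
    exact Finset.card_eq_three.2 ⟨p, q, t p q, hpq, h1, h2, rfl⟩
  · intro x y hxy
    refine ⟨{x, y, t x y}, ⟨?_, by simp, by simp⟩, ?_⟩
    · simp only [mem_image, mem_filter, mem_univ, true_and]
      exact ⟨(x, y), hxy, rfl⟩
    · rintro b ⟨hb, hx, hy⟩
      simp only [mem_image, mem_filter, mem_univ, true_and] at hb
      obtain ⟨⟨p, q⟩, hpq, rfl⟩ := hb
      simp only [mem_insert, mem_singleton] at hx hy
      rcases hx with rfl | rfl | rfl <;> rcases hy with rfl | rfl | rfl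
      · exact absurd rfl hxy
      · rfl
      · rw [hl]; ext z; simp only [mem_insert, mem_singleton]; tauto
      · rw [hc x y]; ext z; simp only [mem_insert, mem_singleton]; tauto
      · exact absurd rfl hxy
      · rw [hr]; ext z; simp only [mem_insert, mem_singleton]; tauto
      · rw [hc (t y q) y, hl]; ext z; simp only [mem_insert, mem_singleton]; tauto
      · rw [hc (t p y) y, hr]; ext z; simp only [mem_insert, mem_singleton]; tauto
      · exact absurd rfl hxy
  · intro f hf b hb
    simp only [mem_image, mem_filter, mem_univ, true_and] at hb ⊢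
    obtain ⟨⟨p, q⟩, hpq, rfl⟩ := hb
    exact ⟨(f p, f q), fun h => hpq (f.injective h), by simp [hf]⟩

/-- The Bose construction. -/
lemma bose {Q : Type} [Finite Q] (m : Q → Q → Q) (hi : ∀ p, m p p = p)
    (hc : ∀ p q, m p q = m q p) (hl : ∀ p, Function.Injective (m p)) :
    ∃ t : Q × ZMod 3 → Q × ZMod 3 → Q × ZMod 3, (∀ p, t p p = p) ∧ (∀ p q, t p q = t q p) ∧
      (∀ p q, t p (t p q) = q) ∧
      ∀ f : Equiv.Perm Q, (∀ p q, f (m p q) = m (f p) (f q)) →
        ∀ p q, Prod.map f id (t p q) = t (Prod.map f id p) (Prod.map f id q) := by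
  classical
  have hs : ∀ p, Function.Surjective (m p) := fun p => Finite.injective_iff_surjective.1 (hl p)
  choose L hL using hs
  have hLm : ∀ x y, L x (m x y) = y := fun x y => hl x (hL _ _)
  have z1 : ∀ i : ZMod 3, i ≠ i + 1 := by decide
  have z2 : ∀ i j : ZMod 3, i ≠ j → j ≠ i + 1 → i = j + 1 := by decide
  have z3 : ∀ i j : ZMod 3, j = i + 1 → i ≠ j + 1 := by decide
  have z4 : ∀ i : ZMod 3, -(i + i) = i := by decide
  refine ⟨fun p q => if p.1 = q.1 then (p.1, -(p.2 + q.2)) else if p.2 = q.2 then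
    (m p.1 q.1, p.2 + 1) else if q.2 = p.2 + 1 then (L p.1 q.1, p.2) else (L q.1 p.1, q.2),
    ?_, ?_, ?_, ?_⟩
  · rintro ⟨x, i⟩; simp [z4]
  · rintro ⟨x, i⟩ ⟨y, j⟩
    simp only
    by_cases h1 : x = y
    · subst h1; simp [add_comm]
    · rw [if_neg h1, if_neg (Ne.symm h1)]
      by_cases h2 : i = j
      · subst h2; simp [hc x y]
      · rw [if_neg h2, if_neg (Ne.symm h2)]
        by_cases h3 : j = i + 1
        · rw [if_pos h3, if_neg (z3 _ _ h3)]
        · rw [if_neg h3, if_pos (z2 _ _ h2 h3)]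
  · rintro ⟨x, i⟩ ⟨y, j⟩
    simp only
    by_cases h1 : x = y
    · subst h1; simp
    · rw [if_neg h1]
      by_cases h2 : i = j
      · subst h2
        have h4 : x ≠ m x y := fun h => h1 (hl x (by rw [hi]; exact h))
        simp [h4, z1, hLm]
      · rw [if_neg h2]
        by_cases h3 : j = i + 1
        · have h4 : x ≠ L x y := fun h => h1 (by
            have := hL x y
            rw [← h, hi] at this; exact this)
          simp [h3, h4, hL]
        · have h4 : x ≠ L y x := fun h => h1 (hl x (by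
            have := hL y x
            rw [← h] at this; rw [hi, hc, this]))
          have h5 : L (L y x) x = y := hl (L y x) (by rw [hL, hc, hL])
          simp [h2, h3, h4, h5]
  · intro f hf
    have hfL : ∀ x y, f (L x y) = L (f x) (f y) := fun x y =>
      hl (f x) (by rw [← hf, hL, hL])
    rintro ⟨x, i⟩ ⟨y, j⟩
    simp only [Prod.map, id, f.apply_eq_iff_eq]
    split_ifs <;> simp [hf, hfL]

/-- an idempotent commutative quasigroup on any set of odd size -/
lemma odd_quasigroup {W : Type} [Fintype W] (h : Odd (Fintype.card W)) :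
    ∃ m : W → W → W, (∀ p, m p p = p) ∧ (∀ p q, m p q = m q p) ∧
      ∀ p, Function.Injective (m p) := by
  obtain ⟨k, hk⟩ := h
  have e : W ≃ ZMod (2 * k + 1) := Fintype.equivOfCardEq (by rw [hk, ZMod.card])
  have h2 : (2 : ZMod (2 * k + 1)) * ((k : ZMod (2 * k + 1)) + 1) = 1 := by
    have : ((2 * k + 1 : ℕ) : ZMod (2 * k + 1)) = 0 := ZMod.natCast_self _
    push_cast at this
    linear_combination this
  refine ⟨fun p q => e.symm ((e p + e q) * ((k : ZMod (2 * k + 1)) + 1)), ?_, ?_, ?_⟩
  · intro p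
    apply e.injective
    rw [Equiv.apply_symm_apply]
    linear_combination (e p) * h2
  · intro p q; simp only [add_comm (e p)]
  · intro p q r hqr
    have := e.symm.injective hqr
    apply e.injective
    linear_combination 2 * this - (e q - e r) * h2

section Main

variable {G M : Type} [Group G] [AddCommGroup M]

/-- colours carried by fixed points -/
def InW (x : G × M) : Prop := x.2 ≠ 0 ∨ (x.1 ≠ 1 ∧ x.1⁻¹ = x.1)

lemma odd_W [Fintype G] [Fintype M] [DecidablePred (InW (G := G) (M := M))]
    (hM : Even (Fintype.card M)) : Odd (Fintype.card {x : G × M // InW x}) := by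
  classical
  rw [← ZMod.natCast_eq_one_iff_odd]
  have h1 : Fintype.card {x : G × M // InW x} + Fintype.card {x : G × M // ¬ InW x} =
      Fintype.card G * Fintype.card M := by
    rw [← Fintype.card_prod, Fintype.card_subtype_compl, Nat.add_sub_cancel']
    exact Fintype.card_subtype_le _
  have h2 : Fintype.card {x : G × M // ¬ InW x} = #(univ.filter fun a : G => a⁻¹ ≠ a) + 1 := by
    rw [Fintype.card_subtype]
    have : (univ.filter fun x : G × M => ¬ InW x) =
        (insert 1 (univ.filter fun a : G => a⁻¹ ≠ a)).map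
          ⟨fun a => (a, (0 : M)), fun a b h => (Prod.ext_iff.1 h).1⟩ := by
      ext ⟨a, i⟩
      rw [mem_filter, mem_map]
      simp only [InW, mem_univ, true_and, mem_insert, mem_filter]
      constructor
      · intro h
        push Not at h
        exact ⟨a, by tauto, Prod.ext rfl h.1.symm⟩
      · rintro ⟨b, hb, h⟩
        obtain ⟨h3, h4⟩ := Prod.ext_iff.1 h
        have h3' : b = a := h3
        have h4' : (0 : M) = i := h4
        subst h3' h4'
        tauto
    rw [this, card_map, card_insert_of_notMem (by simp)]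
  have h3 : ((#(univ.filter fun a : G => a⁻¹ ≠ a) : ℕ) : ZMod 2) = 0 := by
    rw [Finset.card_eq_sum_ones, Nat.cast_sum]
    refine Finset.sum_involution (fun a _ => a⁻¹) ?_ ?_ ?_ ?_
    · intro a _; decide
    · intro a ha _; simpa using ha
    · intro a ha
      simp only [mem_filter, mem_univ, true_and, inv_inv] at ha ⊢
      exact ha.symm
    · intro a _; simp
  have h4 : ((Fintype.card M : ℕ) : ZMod 2) = 0 := (ZMod.natCast_eq_zero_iff_even).2 hM
  have h5 := congrArg (Nat.cast : ℕ → ZMod 2) h1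
  rw [h2] at h5
  push_cast at h5
  rw [h3, h4, mul_zero] at h5
  have h6 : ∀ z : ZMod 2, z + (0 + 1) = 0 → z = 1 := by decide
  exact h6 _ h5

lemma main_quasigroup [Fintype G] [Fintype M] (h2 : ∀ i : M, i + i = 0)
    (hM : Even (Fintype.card M)) (hGM : Fintype.card G < Fintype.card M) :
    ∃ (W : Type) (_ : Fintype W), Fintype.card W ≤ Fintype.card G * Fintype.card M ∧
      ∃ m : (G × M) ⊕ W → (G × M) ⊕ W → (G × M) ⊕ W, (∀ p, m p p = p) ∧
        (∀ p q, m p q = m q p) ∧ (∀ p, Function.Injective (m p)) ∧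
        ∀ g : G, ∀ p q, Sum.map (Prod.map (g * ·) id) id (m p q) =
          m (Sum.map (Prod.map (g * ·) id) id p) (Sum.map (Prod.map (g * ·) id) id q) := by
  classical
  obtain ⟨mW, hW1, hW2, hW3⟩ := odd_quasigroup (odd_W (G := G) hM)
  obtain ⟨oG, hoG⟩ : ∃ o : G → ℕ, Function.Injective o :=
    ⟨fun a => (Fintype.equivFin G a).val, fun a b h => (Fintype.equivFin G).injective (Fin.ext h)⟩
  obtain ⟨oM, hoM⟩ : ∃ o : M → ℕ, Function.Injective o :=
    ⟨fun a => (Fintype.equivFin M a).val, fun a b h => (Fintype.equivFin M).injective (Fin.ext h)⟩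
  obtain ⟨e, he, he0⟩ : ∃ e : G → M, Function.Injective e ∧ ∀ a, e a ≠ 0 := by
    have : Nonempty (G ↪ {i : M // i ≠ 0}) := by
      apply Function.Embedding.nonempty_of_card_le
      rw [Fintype.card_subtype_compl, Fintype.card_subtype_eq]
      omega
    obtain ⟨e⟩ := this
    exact ⟨fun a => (e a).1, fun a b h => e.injective (Subtype.ext h), fun a => (e a).2⟩
  have hsub : ∀ i j : M, i + j = 0 ↔ i = j := fun i j =>
    ⟨fun h => by have := h2 j; exact add_right_cancel (h.trans this.symm), fun h => h ▸ h2 i⟩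
  let f : G → G × M := fun a =>
    if a = 1 then (1, 0) else if oG a < oG a⁻¹ then (1, e a) else (a, e a⁻¹)
  obtain ⟨F, hF⟩ : ∃ F : Equiv.Perm (G × M), ∀ a : {a : G // a = 1 ∨ a⁻¹ ≠ a},
      F (a.1, 0) = f a.1 := by
    refine Equiv.Perm.exists_extending_pair (f := fun a : {a : G // a = 1 ∨ a⁻¹ ≠ a} =>
      ((a.1, 0) : G × M)) (g := fun a => f a.1) ?_ ?_
    · intro a b h
      exact Subtype.ext (Prod.ext_iff.1 h).1
    · rintro ⟨a, ha⟩ ⟨b, hb⟩ h
      simp only [f] at h
      refine Subtype.ext ?_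
      simp only
      split_ifs at h with h1 h3 h4 h5 h6 h7 h8 h9
      all_goals simp only [Prod.mk.injEq] at h
      · rw [h1, h3]
      · exact absurd h.2.symm (he0 _)
      · exact absurd h.1.symm h3
      · exact absurd h.2 (he0 _)
      · exact he h.2
      · exact absurd h.1.symm h6
      · exact absurd h.1 h1
      · exact absurd h.1 h1
      · exact h.1
  let δ : G × M → G × M → G × M := fun y z =>
    (if oM y.2 ≤ oM z.2 then y.1⁻¹ * z.1 else z.1⁻¹ * y.1, y.2 + z.2)
  let act : G × M → G × M → G × M := fun y x => (y.1 * x.1, y.2 + x.2)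
  have hact : ∀ y, Function.Injective (act y) := by
    rintro y ⟨a, i⟩ ⟨b, j⟩ h
    simpa [act] using h
  have hact' : ∀ x, Function.Injective (fun y => act y x) := by
    rintro y ⟨a, i⟩ ⟨b, j⟩ h
    simpa [act] using h
  have hδ : ∀ y, Function.Injective (δ y) := by
    rintro ⟨g, k⟩ ⟨a, i⟩ ⟨b, j⟩ h
    simp only [δ, Prod.mk.injEq, add_right_inj] at h
    obtain ⟨h1, rfl⟩ := h
    split_ifs at h1
    · simpa using h1
    · simpa using h1
  have hδs : ∀ y z, InW (δ y z) → δ z y = δ y z := by
    rintro ⟨g, i⟩ ⟨a, j⟩ h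
    simp only [δ, InW, Prod.mk.injEq] at h ⊢
    refine ⟨?_, add_comm _ _⟩
    by_cases hij : i = j
    · subst hij
      simp only [le_refl, if_true, h2, ne_eq, not_true, false_or] at h ⊢
      rw [← h.2]; simp
    · have : oM i ≠ oM j := fun h => hij (hoM h)
      split_ifs <;> first | rfl | omega
  let m : (G × M) ⊕ {x : G × M // InW x} → (G × M) ⊕ {x : G × M // InW x} →
      (G × M) ⊕ {x : G × M // InW x} := fun p q =>
    match p, q with
    | .inl y, .inl z => if h : InW (δ y z) then .inr ⟨δ y z, h⟩ else .inl (act y (F (δ y z)))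
    | .inl y, .inr w => .inl (act y (F w.1))
    | .inr w, .inl y => .inl (act y (F w.1))
    | .inr w, .inr w' => .inr (mW w w')
  refine ⟨{x : G × M // InW x}, inferInstance, ?_, m, ?_, ?_, ?_, ?_⟩
  · rw [← Fintype.card_prod]; exact Fintype.card_subtype_le _
  · rintro (⟨g, i⟩ | w)
    · have h1 : δ (g, i) (g, i) = (1, 0) := by simp [δ, h2]
      have h3 : F (1, 0) = (1, 0) := by
        have := hF ⟨1, Or.inl rfl⟩
        simpa [f] using this
      have h4 : ¬ InW (δ (g, i) (g, i)) := by rw [h1]; simp [InW]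
      simp only [m]
      rw [dif_neg h4, h1, h3]; simp [act]
    · simp only [m, hW1]
  · rintro (y | w) (z | w')
    · simp only [m]
      by_cases h : InW (δ y z)
      · have h' : InW (δ z y) := by rw [hδs _ _ h]; exact h
        rw [dif_pos h, dif_pos h']
        congr 2
        exact (hδs _ _ h).symm
      · have h' : ¬ InW (δ z y) := fun h' => h (by rw [hδs _ _ h']; exact h')
        rw [dif_neg h, dif_neg h']
        obtain ⟨g, i⟩ := y
        obtain ⟨a, j⟩ := z
        have hij : i = j := by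
          by_contra hij
          exact h (Or.inl fun hh => hij ((hsub i j).1 hh))
        subst hij
        obtain ⟨b, rfl⟩ : ∃ b, a = g * b := ⟨g⁻¹ * a, by simp⟩
        have e1 : δ (g, i) (g * b, i) = (b, 0) := by simp [δ, h2]
        have e2 : δ (g * b, i) (g, i) = (b⁻¹, 0) := by simp [δ, h2]
        rw [e1] at h
        have hb : b = 1 ∨ b⁻¹ ≠ b := by
          simp only [InW] at h; tauto
        have hb' : b⁻¹ = 1 ∨ b⁻¹⁻¹ ≠ b⁻¹ := by
          rcases hb with hb | hb
          · left; simp [hb]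
          · right; rw [inv_inv]; exact hb.symm
        rw [e1, e2, hF ⟨b, hb⟩, hF ⟨b⁻¹, hb'⟩]
        by_cases hb1 : b = 1
        · simp [hb1]
        · have hb2 : oG b⁻¹ ≠ oG b := fun hh => (hb.resolve_left hb1) (hoG hh)
          have hb3 : ¬ b⁻¹ = 1 := by simpa using hb1
          simp only [f, if_neg hb1, if_neg hb3, inv_inv]
          split_ifs with h5 h6 h6
          · omega
          · simp [act]
          · simp [act]
          · omega
    · rfl
    · rfl
    · simp only [m, hW2 w]
  · rintro (y | w) (z | v) (z' | v') h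
    · simp only [m] at h
      split_ifs at h with h1 h3 h3
      · simp only [Sum.inr.injEq, Subtype.mk.injEq] at h
        rw [hδ y h]
      · rw [hδ y (F.injective (hact y (Sum.inl.inj h)))]
    · simp only [m] at h
      split_ifs at h with h1
      exact absurd (F.injective (hact y (Sum.inl.inj h)) ▸ v'.2) h1
    · simp only [m] at h
      split_ifs at h with h1
      exact absurd (F.injective (hact y (Sum.inl.inj h)) ▸ v.2) h1
    · simp only [m] at h
      rw [Subtype.ext (F.injective (hact y (Sum.inl.inj h)))]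
    · simp only [m] at h
      rw [hact' _ (Sum.inl.inj h)]
    · simp only [m] at h
      exact absurd h (by simp)
    · simp only [m] at h
      exact absurd h (by simp)
    · simp only [m] at h
      rw [hW3 w (Sum.inr.inj h)]
  · intro g
    have hδg : ∀ y z, δ (Prod.map (g * ·) id y) (Prod.map (g * ·) id z) = δ y z := by
      rintro ⟨a, i⟩ ⟨b, j⟩
      simp [δ, mul_assoc]
    have hag : ∀ y x, act (Prod.map (g * ·) id y) x = Prod.map (g * ·) id (act y x) := by
      rintro ⟨a, i⟩ ⟨b, j⟩
      simp [act, mul_assoc]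
    rintro (y | w) (z | v)
    · simp only [m, Sum.map_inl, hδg, hag]
      split_ifs <;> rfl
    · simp only [m, Sum.map_inl, Sum.map_inr, id, hag]
    · simp only [m, Sum.map_inl, Sum.map_inr, id, hag]
    · rfl

end Main

theorem main (G : Type) [Group G] [Fintype G] :
    ∃ (V : Type) (_ : Fintype V) (_ : DecidableEq V) (B : Finset (Finset V)),
      (∀ b ∈ B, b.card = 3) ∧
      (∀ x y : V, x ≠ y → ∃! b, b ∈ B ∧ x ∈ b ∧ y ∈ b) ∧
      Fintype.card V ≤ (Fintype.card G) ^ 6 ∧
      ∃ φ : G →* Equiv.Perm V, Function.Injective φ ∧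
        ∀ g : G, ∀ b ∈ B, b.image (⇑(φ g)) ∈ B := by
  classical
  by_cases h1 : Fintype.card G = 1
  · have : Subsingleton G := Fintype.card_le_one_iff_subsingleton.1 h1.le
    refine ⟨Unit, inferInstance, inferInstance, ∅, by simp, ?_, by simp [h1], 1,
      fun a b _ => Subsingleton.elim a b, by simp⟩
    intro x y h
    exact absurd rfl h
  have h0 : 0 < Fintype.card G := Fintype.card_pos
  set n := Fintype.card G with hn
  have hcM : Fintype.card (Fin (Nat.log 2 n + 1) → ZMod 2) = 2 ^ (Nat.log 2 n + 1) := by simp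
  have hlt : n < 2 ^ (Nat.log 2 n + 1) := Nat.lt_pow_succ_log_self (by norm_num) n
  have hle : 2 ^ (Nat.log 2 n + 1) ≤ 2 * n := by
    rw [pow_succ, mul_comm]
    exact Nat.mul_le_mul_left 2 (Nat.pow_log_le_self 2 h0.ne')
  obtain ⟨W, _, hW, m, hm1, hm2, hm3, hm4⟩ :=
    main_quasigroup (G := G) (M := Fin (Nat.log 2 n + 1) → ZMod 2)
      (fun i => by ext k; exact CharTwo.add_self_eq_zero _)
      (by rw [hcM]; exact (Nat.even_pow.2 ⟨even_two, by omega⟩)) (by rw [hcM]; exact hlt)
  obtain ⟨t, ht1, ht2, ht3, ht4⟩ := bose m hm1 hm2 hm3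
  obtain ⟨B, hB1, hB2, hB3⟩ := sts_of_quasigroup t ht1 ht2 ht3
  let ψ : G → Equiv.Perm ((G × (Fin (Nat.log 2 n + 1) → ZMod 2)) ⊕ W) := fun g =>
    Equiv.sumCongr (Equiv.prodCongr (Equiv.mulLeft g) (Equiv.refl _)) (Equiv.refl _)
  let φ : G →* Equiv.Perm (((G × (Fin (Nat.log 2 n + 1) → ZMod 2)) ⊕ W) × ZMod 3) :=
    { toFun := fun g => Equiv.prodCongr (ψ g) (Equiv.refl _)
      map_one' := by
        refine Equiv.ext ?_
        rintro ⟨⟨a, i⟩ | w, j⟩ <;> simp [ψ]
      map_mul' := by
        intro g h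
        refine Equiv.ext ?_
        rintro ⟨⟨a, i⟩ | w, j⟩ <;> simp [ψ, mul_assoc] }
  refine ⟨_, inferInstance, inferInstance, B, hB1, hB2, ?_, φ, ?_, ?_⟩
  · rw [Fintype.card_prod, Fintype.card_sum, Fintype.card_prod, ZMod.card, ← hn, hcM]
    rw [hcM, ← hn] at hW
    have h2 : 2 ≤ n := by omega
    have h3 : n * 2 ^ (Nat.log 2 n + 1) ≤ n * (2 * n) := Nat.mul_le_mul_left n hle
    have h4 : 2 ^ 4 ≤ n ^ 4 := Nat.pow_le_pow_left h2 4
    have h5 : n ^ 6 = n ^ 4 * (n * n) := by ring
    have h6 : 2 ^ 4 * (n * n) ≤ n ^ 4 * (n * n) := Nat.mul_le_mul_right _ h4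
    nlinarith
  · intro g h hgh
    have := congrArg (fun σ : Equiv.Perm _ => σ (Sum.inl (1, 0), 0)) hgh
    simpa [φ, ψ] using this
  · intro g
    exact hB3 (φ g) (ht4 (ψ g) (hm4 g))

end Pool.Agent.H28.Steiner
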