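import Mathlib

set_option autoImplicit false

namespace Pool.Agent.H28.TanBlock

open Module

section Defs
variable {F : Type} [Field F] {α : Type} {n : ℕ}

/-- Rank of a set of elements in the matroid represented by the vectors `v`. -/
noncomputable def rk (v : α → Fin n → F) (X : Set α) : ℕ :=
  finrank F (Submodule.span F (v '' X))

/-- Flats of the matroid represented by `v`. -/
def IsFlat (v : α → Fin n → F) (X : Set α) : Prop :=
  ∀ e, v e ∈ Submodule.span F (v '' X) → e ∈ X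

/-- No loops and no parallel pairs. -/
def Simple (v : α → Fin n → F) : Prop :=
  (∀ e, v e ≠ 0) ∧ ∀ e f, e ≠ f → LinearIndependent F ![v e, v f]

/-- The minor `M / C \ D` has critical exponent at most `k` (Crapo-Rota form): some `k` linear
forms on the quotient by the span of `C` have no common zero on the remaining elements. -/
def CritLe (v : α → Fin n → F) (C D : Set α) (k : ℕ) : Prop :=
  ∃ φ : Fin k → ((Fin n → F) →ₗ[F] F), (∀ i, ∀ e ∈ C, φ i (v e) = 0) ∧
    ∀ e, e ∉ C → e ∉ D → ∃ i, φ i (v e) ≠ 0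

/-- The minor `M / C \ D` has no loop. -/
def Loopless (v : α → Fin n → F) (C D : Set α) : Prop :=
  ∀ e, e ∉ C → e ∉ D → v e ∉ Submodule.span F (v '' C)

/-- Tangential `k`-block over `F`. -/
def Tangential (v : α → Fin n → F) (k : ℕ) : Prop :=
  Simple v ∧ ¬ CritLe v ∅ ∅ k ∧
    ∀ C D : Set α, Disjoint C D → (C ∪ D).Nonempty → Loopless v C D → CritLe v C D k

/-- Edges of the complete graph on `N` vertices. -/
abbrev Edge (N : ℕ) := {e : Sym2 (Fin N) // ¬ e.IsDiag}

/-- Flats of the cycle matroid of `K_N`: an edge whose ends are joined inside `X` lies in `X`. -/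
def GraphicFlat {N : ℕ} (X : Set (Edge N)) : Prop :=
  ∀ (e : Edge N) (a b : Fin N), e.1 = s(a, b) →
    (SimpleGraph.fromEdgeSet (Subtype.val '' X)).Reachable a b → e ∈ X

/-- The matroid of `v` is isomorphic (through `g`) to the simplification of a quotient of
`M(K_N)`, the quotient being the matroid represented by `w`. -/
def Normal (v : α → Fin n → F) (N : ℕ) : Prop :=
  ∃ (m : ℕ) (w : Edge N → Fin m → F), (∀ X, IsFlat w X → GraphicFlat X) ∧
    ∃ g : α → Edge N, Function.Injective g ∧ Simple (w ∘ g) ∧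
      (∀ e, w e ≠ 0 → ∃ a, w e ∈ Submodule.span F {w (g a)}) ∧
      ∀ I : Set α, LinearIndepOn F v I ↔ LinearIndepOn F w (g '' I)

/-- Modular flats. -/
def Modular (v : α → Fin n → F) (H : Set α) : Prop :=
  IsFlat v H ∧ ∀ X, IsFlat v X → rk v H + rk v X = rk v (H ∪ X) + rk v (H ∩ X)

/-- There is a modular flat of rank `r(M) - 1`. -/
def HasModularHyperplane (v : α → Fin n → F) : Prop :=
  ∃ H, Modular v H ∧ rk v H + 1 = rk v Set.univ

/-- There is a chain of modular flats of ranks `0, 1, ..., r(M)`. -/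
def Supersolvable (v : α → Fin n → F) : Prop :=
  ∃ H : ℕ → Set α, (∀ i ≤ rk v Set.univ, Modular v (H i) ∧ rk v (H i) = i) ∧
    ∀ i < rk v Set.univ, H i ⊆ H (i + 1)

end Defs

instance : Fact (Nat.Prime 5) := ⟨by norm_num⟩

abbrev K := ZMod 5

def u : Fin 6 → Fin 3 → K :=
  ![![0, 0, 0], ![1, 0, 0], ![0, 1, 0], ![0, 0, 1], ![1, 1, 0], ![0, 1, 1]]

def d (a b : Fin 6) : Fin 3 → K := if a < b then u a - u b else u b - u a

lemma d_symm : ∀ a b, d a b = d b a := by decide +kernel

def w (e : Edge 6) : Fin 3 → K := Sym2.lift ⟨d, d_symm⟩ e.1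

def ga : Fin 10 → Fin 6 := ![0, 0, 0, 0, 0, 1, 1, 1, 3, 2]
def gb : Fin 10 → Fin 6 := ![1, 2, 3, 4, 5, 2, 3, 5, 4, 3]

lemma gab : ∀ i, ga i ≠ gb i := by decide

def g (i : Fin 10) : Edge 6 := ⟨s(ga i, gb i), by rw [Sym2.mk_isDiag_iff]; exact gab i⟩

def v (i : Fin 10) : Fin 3 → K := d (ga i) (gb i)

lemma wg : w ∘ g = v := rfl

lemma g_inj : Function.Injective g := by
  intro i j h
  have h1 : s(ga i, gb i) = s(ga j, gb j) := congrArg Subtype.val h
  revert i j
  decide +kernel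

lemma pair : ∀ e f : Fin 10, e ≠ f → ∀ s t : K, s • v e + t • v f = 0 → s = 0 ∧ t = 0 := by
  decide +kernel

lemma simple : Simple v :=
  ⟨by decide +kernel, fun e f h => LinearIndependent.pair_iff.2 (pair e f h)⟩

def form (c0 c1 c2 : K) : (Fin 3 → K) →ₗ[K] K :=
  c0 • LinearMap.proj 0 + c1 • LinearMap.proj 1 + c2 • LinearMap.proj 2

lemma form_apply (c0 c1 c2 : K) (x : Fin 3 → K) :
    form c0 c1 c2 x = c0 * x 0 + c1 * x 1 + c2 * x 2 := by
  simp [form]

lemma exists_form (f : (Fin 3 → K) →ₗ[K] K) : ∃ c0 c1 c2, f = form c0 c1 c2 := by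
  refine ⟨f (fun j => if 0 = j then 1 else 0), f (fun j => if 1 = j then 1 else 0),
    f (fun j => if 2 = j then 1 else 0), LinearMap.ext fun x => ?_⟩
  rw [LinearMap.pi_apply_eq_sum_univ f x, Fin.sum_univ_three, form_apply]
  simp only [smul_eq_mul]
  ring

lemma block : ∀ c0 c1 c2 : K, ∃ e, c0 * v e 0 + c1 * v e 1 + c2 * v e 2 = 0 := by
  decide +kernel

lemma tangent : ∀ a : Fin 10, ∃ c0 c1 c2 : K, c0 * v a 0 + c1 * v a 1 + c2 * v a 2 = 0 ∧
    ∀ e, e ≠ a → c0 * v e 0 + c1 * v e 1 + c2 * v e 2 ≠ 0 := by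
  decide +kernel

def det (a b e : Fin 10) : K :=
  (v a 1 * v b 2 - v a 2 * v b 1) * v e 0 + (v a 2 * v b 0 - v a 0 * v b 2) * v e 1 +
    (v a 0 * v b 1 - v a 1 * v b 0) * v e 2

lemma nomod : ∀ c0 c1 c2 : K, (c0 = 0 ∧ c1 = 0 ∧ c2 = 0) ∨ ∃ a b : Fin 10, a ≠ b ∧
    ∀ e, c0 * v e 0 + c1 * v e 1 + c2 * v e 2 ≠ 0 ∨ det a b e ≠ 0 := by
  decide +kernel

lemma par : ∀ a b : Fin 6, a ≠ b → ∃ i, ∃ c : K, c • v i = d a b := by decide +kernel

lemma dd : ∀ a b : Fin 6, ∃ c : K, c • d a b = u a - u b := by decide +kernel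

lemma dd' : ∀ a b : Fin 6, ∃ c : K, c • (u a - u b) = d a b := by decide +kernel

lemma two_le (X : Set (Fin 10)) (a b : Fin 10) (h : a ≠ b) (ha : a ∈ X) (hb : b ∈ X) :
    2 ≤ rk v X := by
  have h1 := finrank_span_eq_card (simple.2 a b h)
  rw [Fintype.card_fin] at h1
  refine le_trans (le_of_eq h1.symm) ?_
  apply Submodule.finrank_mono
  apply Submodule.span_mono
  rintro _ ⟨i, rfl⟩
  fin_cases i
  · exact ⟨a, ha, rfl⟩
  · exact ⟨b, hb, rfl⟩

lemma rk_le (X : Set (Fin 10)) : rk v X ≤ 3 := by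
  have := Submodule.finrank_le (Submodule.span K (v '' X))
  simpa [rk] using this

lemma span_top : Submodule.span K (v '' Set.univ) = ⊤ := by
  by_contra h
  obtain ⟨f, hf0, hf⟩ := Submodule.exists_le_ker_of_lt_top _ (lt_top_iff_ne_top.2 h)
  obtain ⟨c0, c1, c2, rfl⟩ := exists_form f
  have key : ∀ c0 c1 c2 : K, (∀ e, c0 * v e 0 + c1 * v e 1 + c2 * v e 2 = 0) →
      c0 = 0 ∧ c1 = 0 ∧ c2 = 0 := by decide +kernel
  obtain ⟨rfl, rfl, rfl⟩ := key c0 c1 c2 fun e => by
    rw [← form_apply]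
    exact hf (Submodule.subset_span ⟨e, trivial, rfl⟩)
  exact hf0 (by simp [form])

lemma rk_univ : rk v Set.univ = 3 := by
  unfold rk
  rw [span_top, finrank_top, Module.finrank_fin_fun]

theorem tangential : Tangential v 1 := by
  refine ⟨simple, ?_, ?_⟩
  · rintro ⟨φ, -, h⟩
    obtain ⟨c0, c1, c2, hc⟩ := exists_form (φ 0)
    obtain ⟨e, he⟩ := block c0 c1 c2
    obtain ⟨i, hi⟩ := h e (by simp) (by simp)
    rw [Subsingleton.elim i 0, hc, form_apply] at hi
    exact hi he
  · intro C D _ hne hl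
    by_cases h2 : ∃ a ∈ C, ∃ b ∈ C, a ≠ b
    · obtain ⟨a, ha, b, hb, hab⟩ := h2
      by_cases ht : Submodule.span K (v '' C) = ⊤
      · refine ⟨fun _ => 0, fun _ _ _ => rfl, fun e h1 h2 => ?_⟩
        exact absurd (ht ▸ Submodule.mem_top) (hl e h1 h2)
      · obtain ⟨f, hf0, hf⟩ := Submodule.exists_le_ker_of_lt_top _ (lt_top_iff_ne_top.2 ht)
        have hk : LinearMap.ker f < ⊤ := lt_top_iff_ne_top.2 fun h => hf0 (LinearMap.ker_eq_top.1 h)
        have h3 := Submodule.finrank_lt_finrank_of_lt hk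
        rw [finrank_top, Module.finrank_fin_fun] at h3
        have h4 := two_le C a b hab ha hb
        have h5 : Submodule.span K (v '' C) = LinearMap.ker f :=
          Submodule.eq_of_le_of_finrank_le hf (by unfold rk at h4; omega)
        refine ⟨fun _ => f, fun _ e he => hf (Submodule.subset_span ⟨e, he, rfl⟩),
          fun e h1 h2 => ⟨0, fun h => hl e h1 h2 ?_⟩⟩
        rw [h5]
        exact h
    · push Not at h2
      obtain ⟨a, ha⟩ : ∃ a, (∀ e ∈ C, e = a) ∧ a ∈ C ∪ D := by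
        by_cases hC : C.Nonempty
        · obtain ⟨a, ha⟩ := hC
          exact ⟨a, fun e he => h2 e he a ha, Or.inl ha⟩
        · obtain ⟨a, ha⟩ := hne
          exact ⟨a, fun e he => absurd ⟨e, he⟩ hC, ha⟩
      obtain ⟨c0, c1, c2, h0, h1⟩ := tangent a
      refine ⟨fun _ => form c0 c1 c2, fun _ e he => ?_, fun e hC hD => ⟨0, ?_⟩⟩
      · rw [form_apply, ha.1 e he]
        exact h0
      · rw [form_apply]
        apply h1
        rintro rfl
        exact ha.2.elim hC hD

theorem normal : Normal v 6 := by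
  refine ⟨3, w, ?_, g, g_inj, simple, ?_, fun I => ?_⟩
  · intro X hX e a b he hr
    have key : ∀ a b : Fin 6, (SimpleGraph.fromEdgeSet (Subtype.val '' X)).Reachable a b →
        u a - u b ∈ Submodule.span K (w '' X) := by
      rintro a b ⟨p⟩
      induction p with
      | nil => simp
      | @cons x y z h p ih =>
        obtain ⟨⟨e', he', e1⟩, -⟩ := (SimpleGraph.fromEdgeSet_adj _).1 h
        have h1 : d x y ∈ Submodule.span K (w '' X) :=
          Submodule.subset_span ⟨e', he', by unfold w; rw [e1]; rfl⟩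
        obtain ⟨c, hc⟩ := dd x y
        have h2 : u x - u z = c • d x y + (u y - u z) := by rw [hc]; abel
        rw [h2]
        exact Submodule.add_mem _ (Submodule.smul_mem _ _ h1) ih
    apply hX
    have h1 : w e = d a b := by unfold w; rw [he]; rfl
    obtain ⟨c, hc⟩ := dd' a b
    rw [h1, ← hc]
    exact Submodule.smul_mem _ _ (key a b hr)
  · rintro ⟨e, he⟩ -
    induction e using Sym2.ind with
    | h a b =>
      obtain ⟨i, c, hc⟩ := par a b (fun h => he (by rw [Sym2.mk_isDiag_iff]; exact h))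
      exact ⟨i, Submodule.mem_span_singleton.2 ⟨c, hc⟩⟩
  · rw [← wg]
    exact ⟨fun h => LinearIndepOn.image_of_comp g w h,
      fun h => LinearIndepOn.comp_of_image h g_inj.injOn⟩

theorem no_mod : ¬ HasModularHyperplane v := by
  rintro ⟨H, ⟨-, hm⟩, hr⟩
  rw [rk_univ] at hr
  have ht : Submodule.span K (v '' H) ≠ ⊤ := by
    intro h
    unfold rk at hr
    rw [h, finrank_top, Module.finrank_fin_fun] at hr
    omega
  obtain ⟨f, hf0, hf⟩ := Submodule.exists_le_ker_of_lt_top _ (lt_top_iff_ne_top.2 ht)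
  obtain ⟨c0, c1, c2, rfl⟩ := exists_form f
  rcases nomod c0 c1 c2 with ⟨rfl, rfl, rfl⟩ | ⟨a, b, hab, h⟩
  · exact hf0 (by simp [form])
  have hX : IsFlat v {e | det a b e = 0} := by
    intro e he
    have : Submodule.span K (v '' {e | det a b e = 0}) ≤ LinearMap.ker
        (form (v a 1 * v b 2 - v a 2 * v b 1) (v a 2 * v b 0 - v a 0 * v b 2)
          (v a 0 * v b 1 - v a 1 * v b 0)) := by
      rw [Submodule.span_le]
      rintro _ ⟨x, hx, rfl⟩
      exact (form_apply _ _ _ _).trans hx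
    exact (form_apply _ _ _ _).symm.trans (this he)
  have h1 := hm _ hX
  have h2 : H ∩ {e | det a b e = 0} = ∅ := by
    apply Set.eq_empty_of_forall_notMem
    rintro e ⟨he, he'⟩
    rcases h e with h | h
    · exact h ((form_apply _ _ _ _).symm.trans (hf (Submodule.subset_span ⟨e, he, rfl⟩)))
    · exact h he'
  have h3 := two_le {e | det a b e = 0} a b hab (by show det a b a = 0; unfold det; ring)
    (by show det a b b = 0; unfold det; ring)
  have h4 := rk_le (H ∪ {e | det a b e = 0})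
  have h5 : rk v ∅ = 0 := by
    unfold rk
    rw [Set.image_empty, Submodule.span_empty, finrank_bot]
  rw [h2, h5] at h1
  omega

theorem not_ss : ¬ Supersolvable v := by
  rintro ⟨H, h, -⟩
  have := h 2 (by rw [rk_univ]; norm_num)
  exact no_mod ⟨H 2, this.1, by rw [this.2, rk_univ]⟩

end Pool.Agent.H28.TanBlock
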