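import Pool.Agent.H28.TanBlock

set_option autoImplicit false

namespace Pool.Agent.H28.TanBlock

open Module

variable {F : Type} [Field F] {α : Type} {n : ℕ}

lemma exists_f (v : α → Fin n → F) (H : Set α) (hH : IsFlat v H)
    (hr : rk v H + 1 = rk v Set.univ) :
    Hᶜ.Nonempty ∧ ∃ f : (Fin n → F) →ₗ[F] F, ∀ e, f (v e) = 0 ↔ e ∈ H := by
  have hne : Hᶜ.Nonempty := by
    rw [Set.nonempty_compl]
    rintro rfl
    omega
  refine ⟨hne, ?_⟩
  obtain ⟨e0, he0⟩ := hne
  obtain ⟨f, hf0, hk⟩ := Submodule.exists_le_ker_of_notMem (p := Submodule.span F (v '' H))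
    (fun h => he0 (hH e0 h))
  refine ⟨f, fun e => ⟨fun h => ?_, fun h => hk (Submodule.subset_span ⟨e, h, rfl⟩)⟩⟩
  by_contra he
  have hlt : Submodule.span F (v '' H) < Submodule.span F (v '' insert e H) := by
    refine lt_of_le_of_ne (Submodule.span_mono (Set.image_mono (Set.subset_insert _ _))) ?_
    intro h'
    exact he (hH e (h' ▸ Submodule.subset_span ⟨e, Set.mem_insert _ _, rfl⟩))
  have h1 := Submodule.finrank_lt_finrank_of_lt hlt
  have h2 : Submodule.span F (v '' insert e H) = Submodule.span F (v '' Set.univ) :=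
    Submodule.eq_of_le_of_finrank_le (Submodule.span_mono (Set.image_mono (Set.subset_univ _)))
      (by unfold rk at hr; omega)
  have h3 : Submodule.span F (v '' insert e H) ≤ LinearMap.ker f := by
    rw [Submodule.span_le]
    rintro _ ⟨x, hx | hx, rfl⟩
    · rw [hx]
      exact h
    · exact hk (Submodule.subset_span ⟨x, hx, rfl⟩)
  exact hf0 (h3 (h2 ▸ Submodule.subset_span ⟨e0, trivial, rfl⟩))

lemma diff (v : α → Fin n → F) (hs : Simple v) (H : Set α) (hH : Modular v H)
    (hr : rk v H + 1 = rk v Set.univ) (f : (Fin n → F) →ₗ[F] F)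
    (hf : ∀ e, f (v e) = 0 ↔ e ∈ H) (e e' : α) (he : e ∉ H) (he' : e' ∉ H) (hne : e ≠ e') :
    ∃ x, ∃ c : F, c ≠ 0 ∧ (f (v e))⁻¹ • v e - (f (v e'))⁻¹ • v e' = c • v x := by
  set X : Set α := {x | v x ∈ Submodule.span F {v e, v e'}} with hX
  have hle : Submodule.span F (v '' X) ≤ Submodule.span F {v e, v e'} := by
    rw [Submodule.span_le]
    rintro _ ⟨x, hx, rfl⟩
    exact hx
  have h1 := hH.2 X (fun x hx => hle hx)
  have h2 : 2 ≤ rk v X := by
    have h1 := finrank_span_eq_card (hs.2 e e' hne)
    rw [Fintype.card_fin] at h1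
    refine le_trans (le_of_eq h1.symm) ?_
    apply Submodule.finrank_mono
    apply Submodule.span_mono
    rintro _ ⟨i, rfl⟩
    fin_cases i
    · exact ⟨e, Submodule.subset_span (by simp), rfl⟩
    · exact ⟨e', Submodule.subset_span (by simp), rfl⟩
  have h3 : rk v (H ∪ X) ≤ rk v Set.univ :=
    Submodule.finrank_mono (Submodule.span_mono (Set.image_mono (Set.subset_univ _)))
  obtain ⟨x, hxH, hxX⟩ : (H ∩ X).Nonempty := by
    rw [Set.nonempty_iff_ne_empty]
    intro h0
    have h5 : rk v ∅ = 0 := by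
      unfold rk
      rw [Set.image_empty, Submodule.span_empty, finrank_bot]
    rw [h0, h5] at h1
    omega
  obtain ⟨s, t, hst⟩ := Submodule.mem_span_pair.1 hxX
  have a0 : f (v e) ≠ 0 := fun h => he ((hf e).1 h)
  have a1 : f (v e') ≠ 0 := fun h => he' ((hf e').1 h)
  have h4 : s * f (v e) + t * f (v e') = 0 := by
    have := (hf x).2 hxH
    rwa [← hst, map_add, map_smul, map_smul] at this
  have ht : t = -(s * f (v e)) / f (v e') := by
    field_simp
    linear_combination h4
  have hs0 : s ≠ 0 := by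
    rintro rfl
    apply hs.1 x
    rw [← hst, ht]
    simp
  refine ⟨x, (s * f (v e))⁻¹, inv_ne_zero (mul_ne_zero hs0 a0), ?_⟩
  rw [← hst, ht, smul_add, smul_smul, smul_smul, sub_eq_add_neg, ← neg_smul]
  congr 2 <;> field_simp

theorem normal_of_mod [Fintype F] [Fintype α] (v : α → Fin n → F) (k : ℕ)
    (hs : Simple v) (hc : ¬ CritLe v ∅ ∅ k) (hmin : ∀ D : Set α, D.Nonempty → CritLe v ∅ D k)
    (hM : HasModularHyperplane v) : Normal v (Fintype.card F ^ k + 1) := by
  classical
  obtain ⟨H, hH, hr⟩ := hM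
  obtain ⟨hne, f, hf⟩ := exists_f v H hH.1 hr
  have hcard : Fintype.card (Fin (Fintype.card F ^ k)) ≤ Fintype.card {e // e ∉ H} := by
    by_contra hlt
    obtain ⟨φ, -, hφ⟩ := hmin Hᶜ hne
    have hns : ¬ Function.Surjective
        (fun (e : {e // e ∉ H}) (i : Fin k) => φ i ((f (v e))⁻¹ • v e)) := by
      intro h
      have := Fintype.card_le_of_surjective _ h
      simp only [Fintype.card_fun, Fintype.card_fin] at this hlt
      exact hlt this
    obtain ⟨a, ha⟩ := not_forall.1 hns
    refine hc ⟨fun i => φ i - a i • f, fun _ _ h => absurd h (Set.notMem_empty _),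
      fun e _ _ => ?_⟩
    by_cases he : e ∈ H
    · obtain ⟨i, hi⟩ := hφ e (Set.notMem_empty _) (fun h => h he)
      exact ⟨i, by simpa [(hf e).2 he] using hi⟩
    · by_contra h
      push Not at h
      apply ha
      refine ⟨⟨e, he⟩, funext fun i => ?_⟩
      have a0 : f (v e) ≠ 0 := fun h => he ((hf e).1 h)
      have := h i
      simp only [LinearMap.sub_apply, LinearMap.smul_apply, smul_eq_mul, sub_eq_zero] at this
      simp only [map_smul, smul_eq_mul, this]
      field_simp
  obtain ⟨j⟩ := Function.Embedding.nonempty_of_card_le hcard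
  let p : Fin (Fintype.card F ^ k + 1) → Fin n → F :=
    Fin.cases 0 (fun i => (f (v (j i)))⁻¹ • v (j i))
  have hp : ∀ a b, a ≠ b → ∃ x, ∃ c : F, c ≠ 0 ∧ p a - p b = c • v x := by
    intro a b hab
    induction a using Fin.cases with
    | zero =>
      induction b using Fin.cases with
      | zero => exact absurd rfl hab
      | succ b =>
        exact ⟨j b, -(f (v (j b)))⁻¹, neg_ne_zero.2 (inv_ne_zero fun h => (j b).2 ((hf _).1 h)),
          by simp [p]⟩
    | succ a =>
      induction b using Fin.cases with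
      | zero => exact ⟨j a, (f (v (j a)))⁻¹, inv_ne_zero fun h => (j a).2 ((hf _).1 h),
          by simp [p]⟩
      | succ b =>
        exact diff v hs H hH hr f hf _ _ (j a).2 (j b).2
          (fun h => hab (congrArg Fin.succ (j.injective (Subtype.ext h))))
  let dd := fun a b => if a < b then p a - p b else p b - p a
  have hsym : ∀ a b, dd a b = dd b a := by
    intro a b
    rcases lt_trichotomy a b with h | h | h
    · simp only [dd, if_pos h, if_neg h.not_gt]
    · rw [h]
    · simp only [dd, if_pos h, if_neg h.not_gt]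
  have hdd : ∀ a b, dd a b = p a - p b ∨ dd a b = -(p a - p b) := by
    intro a b
    by_cases h : a < b
    · exact Or.inl (if_pos h)
    · exact Or.inr ((if_neg h).trans (neg_sub _ _).symm)
  let w : Edge (Fintype.card F ^ k + 1) → Fin n → F := fun e => Sym2.lift ⟨dd, hsym⟩ e.1
  have hw : ∀ e, ∃ x, ∃ c : F, c ≠ 0 ∧ w e = c • v x := by
    rintro ⟨e, he⟩
    induction e using Sym2.ind with
    | h a b =>
      obtain ⟨x, c, hc0, h⟩ := hp a b (fun h => he (Sym2.mk_isDiag_iff.2 h))
      rcases hdd a b with h' | h'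
      · exact ⟨x, c, hc0, h'.trans h⟩
      · exact ⟨x, -c, neg_ne_zero.2 hc0, h'.trans (by rw [h, neg_smul])⟩
  have hall : ∀ x, ∃ e, ∃ c : F, c ≠ 0 ∧ w e = c • v x := by
    by_contra hcon
    obtain ⟨φ, -, hφ⟩ := hmin {x | ¬ ∃ e, ∃ c : F, c ≠ 0 ∧ w e = c • v x}
      (not_forall.1 hcon)
    obtain ⟨a, b, hab, h⟩ := Fintype.exists_ne_map_eq_of_card_lt
      (fun a (i : Fin k) => φ i (p a)) (by simp)
    obtain ⟨x, c, hc0, hx⟩ := hw ⟨s(a, b), fun h => hab (Sym2.mk_isDiag_iff.1 h)⟩
    obtain ⟨i, hi⟩ := hφ x (Set.notMem_empty _) (fun h => h ⟨_, c, hc0, hx⟩)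
    have h0 : φ i (p a - p b) = 0 := by
      rw [map_sub, sub_eq_zero]
      exact congrFun h i
    have h1 : φ i (dd a b) = 0 := by
      rcases hdd a b with h' | h' <;> rw [h']
      · exact h0
      · rw [map_neg, h0, neg_zero]
    have h2 : dd a b = c • v x := hx
    rw [h2, map_smul, smul_eq_mul] at h1
    exact hi ((mul_eq_zero.1 h1).resolve_left hc0)
  choose g c hc0 hg using hall
  have hpair : ∀ e e', e ≠ e' → LinearIndependent F ![w (g e), w (g e')] := by
    intro e e' h
    rw [LinearIndependent.pair_iff]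
    intro s t hst
    rw [hg, hg, smul_smul, smul_smul] at hst
    have := LinearIndependent.pair_iff.1 (hs.2 e e' h) _ _ hst
    exact ⟨(mul_eq_zero.1 this.1).resolve_right (hc0 e),
      (mul_eq_zero.1 this.2).resolve_right (hc0 e')⟩
  have hinj : Function.Injective g := by
    intro e e' h
    by_contra hne'
    have := LinearIndependent.pair_iff.1 (hpair e e' hne') 1 (-1) (by rw [h]; simp)
    exact one_ne_zero this.1
  refine ⟨n, w, ?_, g, hinj, ⟨fun e => ?_, hpair⟩, fun e _ => ?_, fun I => ?_⟩
  · intro X hX e a b he hr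
    have key : ∀ a b, (SimpleGraph.fromEdgeSet (Subtype.val '' X)).Reachable a b →
        p a - p b ∈ Submodule.span F (w '' X) := by
      rintro a b ⟨q⟩
      induction q with
      | nil => simp
      | @cons x y z h q ih =>
        obtain ⟨⟨e', he', e1⟩, -⟩ := (SimpleGraph.fromEdgeSet_adj _).1 h
        have h1 : dd x y ∈ Submodule.span F (w '' X) :=
          Submodule.subset_span ⟨e', he', by simp only [w]; rw [e1]; rfl⟩
        have h3 : p x - p y ∈ Submodule.span F (w '' X) := by
          rcases hdd x y with h' | h' <;> rw [h'] at h1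
          · exact h1
          · exact (Submodule.neg_mem_iff _).1 h1
        rw [← sub_add_sub_cancel (p x) (p y) (p z)]
        exact Submodule.add_mem _ h3 ih
    apply hX
    have h1 : w e = dd a b := by simp only [w]; rw [he]; rfl
    rw [h1]
    rcases hdd a b with h' | h' <;> rw [h']
    · exact key a b hr
    · exact Submodule.neg_mem _ (key a b hr)
  · show w (g e) ≠ 0
    rw [hg]
    exact smul_ne_zero (hc0 e) (hs.1 e)
  · obtain ⟨x, c', -, h⟩ := hw e
    refine ⟨x, Submodule.mem_span_singleton.2 ⟨c' * (c x)⁻¹, ?_⟩⟩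
    rw [hg, h, smul_smul, mul_assoc, inv_mul_cancel₀ (hc0 x), mul_one]
  · have h1 : LinearIndepOn F v I ↔ LinearIndepOn F (w ∘ g) I := by
      constructor
      · intro h
        have := LinearIndependent.units_smul h (fun x : I => Units.mk0 (c x) (hc0 x))
        have e : ((fun x : I => Units.mk0 (c x) (hc0 x)) • fun x : I => v x) =
            fun x : I => (w ∘ g) x := funext fun x => (hg x).symm
        rwa [e] at this
      · intro h
        have := LinearIndependent.units_smul h (fun x : I => (Units.mk0 (c x) (hc0 x))⁻¹)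
        have e : ((fun x : I => (Units.mk0 (c x) (hc0 x))⁻¹) • fun x : I => (w ∘ g) x) =
            fun x : I => v x := funext fun x => by
          show (Units.mk0 (c x) (hc0 x))⁻¹ • w (g x) = v x
          rw [hg, Units.smul_def, smul_smul]
          simp [hc0 x]
        rwa [e] at this
    exact h1.trans ⟨fun h => LinearIndepOn.image_of_comp g w h,
      fun h => LinearIndepOn.comp_of_image h hinj.injOn⟩

end Pool.Agent.H28.TanBlock
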