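import Mathlib
import Pool.Agent.H28.Hur

set_option autoImplicit false

namespace Pool.Agent.H28.Trunc

open Filter Topology MeasureTheory Set Metric Real Pool.Agent.H28.Hur

noncomputable def g (Ψ : ℝ → ℝ) (a s : ℝ) : ℝ :=
  if s < 2 * a / exp (-2 * a) then Ψ (a - exp (-2 * a) * s) * exp (-9 * exp (-2 * a) * s -
    π * ((exp (-(4 * exp (-2 * a) * s)) - 1 + 4 * exp (-2 * a) * s) / exp (-2 * a) ^ 2)) else 0

lemma sig : Tendsto (fun a : ℝ => exp (-2 * a)) atTop (𝓝 0) :=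
  tendsto_exp_atBot.comp (tendsto_id.const_mul_atTop_of_neg (by norm_num))

lemma g_bd (Ψ : ℝ → ℝ) (C : ℝ) (hC : ∀ t, |Ψ t| ≤ C) (R a s : ℝ) (hR : 0 ≤ R) (hs : 0 < s)
    (ha : exp (-2 * a) * R ≤ 1) : |g Ψ a s| * exp (R * s) ≤ C * exp (R ^ 2) * exp (-(R * s)) := by
  have C0 := (abs_nonneg _).trans (hC 0)
  unfold g; split_ifs
  swap; · simp; positivity
  set σ := exp (-2 * a)
  have σ0 : 0 < σ := exp_pos _
  set x := 4 * σ * s with hx
  have x0 : 0 < x := by positivity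
  have key : 2 * R * s - R ^ 2 ≤ (exp (-x) - 1 + x) / σ ^ 2 := by
    rw [le_div_iff₀ (by positivity)]
    rcases le_total x 2 with h | h
    · have : (1 - x / 2) ^ 2 ≤ exp (-x) := by
        rw [show -x = (2 : ℕ) * (-x / 2) by push_cast; ring, exp_nat_mul]
        exact pow_le_pow_left₀ (by linarith) (by linarith [add_one_le_exp (-x / 2)]) 2
      nlinarith [sq_nonneg (σ * (s - R)), sq_nonneg (σ * s)]
    · nlinarith [exp_pos (-x), mul_le_mul_of_nonneg_right ha (mul_pos σ0 hs).le,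
        sq_nonneg (R * σ)]
  have k0 : 0 ≤ (exp (-x) - 1 + x) / σ ^ 2 := div_nonneg (by linarith [add_one_le_exp (-x)])
    (by positivity)
  rw [abs_mul, abs_of_pos (exp_pos _), mul_assoc, mul_assoc C, ← exp_add, ← exp_add]
  refine mul_le_mul (hC _) (exp_le_exp.2 ?_) (exp_pos _).le C0
  nlinarith [mul_le_mul_of_nonneg_right (show 1 ≤ π by linarith [pi_gt_three]) k0, mul_pos σ0 hs]

lemma g_lim (Ψ : ℝ → ℝ) (ℓ : ℝ) (hl : Tendsto Ψ atTop (𝓝 ℓ)) (s : ℝ) (hs : 0 < s) :
    Tendsto (fun a => g Ψ a s) atTop (𝓝 (ℓ * exp (-(8 * π) * s ^ 2))) := by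
  have h1 : Tendsto (fun a : ℝ => a - exp (-2 * a) * s) atTop atTop :=
    tendsto_id.atTop_add (sig.mul_const s).neg
  have h2 : Tendsto (fun σ : ℝ => (exp (-(4 * σ * s)) - 1 + 4 * σ * s) / σ ^ 2) (𝓝[>] 0)
      (𝓝 (8 * s ^ 2)) := by
    rw [tendsto_iff_norm_sub_tendsto_zero]
    have l : Tendsto (fun σ : ℝ => 4 * σ * s) (𝓝[>] 0) (𝓝 0) :=
      tendsto_nhdsWithin_of_tendsto_nhds (Continuous.tendsto' (by fun_prop) _ _ (by simp))
    refine squeeze_zero' (g := fun σ => 4 * σ * s * (16 * s ^ 2))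
      (Eventually.of_forall fun _ => norm_nonneg _) ?_ (by simpa using l.mul_const (16 * s ^ 2))
    filter_upwards [self_mem_nhdsWithin, l.eventually (ge_mem_nhds one_pos)] with σ (σ0 : 0 < σ) h
    have x0 : 0 < 4 * σ * s := by positivity
    have := exp_bound (x := -(4 * σ * s)) (by rwa [abs_neg, abs_of_pos x0]) (n := 3) (by norm_num)
    rw [abs_neg, abs_of_pos x0] at this
    simp only [Finset.sum_range_succ, Finset.range_zero, Finset.sum_empty, Nat.factorial] at this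
    rw [div_sub' (by positivity), norm_div, Real.norm_of_nonneg (sq_nonneg σ),
      div_le_iff₀ (by positivity), Real.norm_eq_abs]
    refine le_trans (le_of_eq (congrArg _ (by push_cast; ring))) (this.trans ?_)
    push_cast; nlinarith [pow_pos x0 3]
  have h3 : Tendsto (fun a : ℝ => exp (-2 * a)) atTop (𝓝[>] 0) :=
    tendsto_nhdsWithin_iff.2 ⟨sig, Eventually.of_forall fun a => exp_pos _⟩
  have h4 := (hl.comp h1).mul (((sig.const_mul (-9)).mul_const s).sub
    ((h2.comp h3).const_mul π)).rexp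
  rw [show -9 * 0 * s - π * (8 * s ^ 2) = -(8 * π) * s ^ 2 by ring] at h4
  refine h4.congr' ?_
  filter_upwards [h1.eventually_gt_atTop 0, eventually_gt_atTop 0] with a h5 h6
  rw [g, if_pos (by rw [lt_div_iff₀' (exp_pos _)]; linarith)]; rfl

lemma resc (Ψ K : ℝ → ℝ) (hK : ∀ t, K t = Ψ t * exp (9 * t - π * exp (4 * t))) (a : ℝ) (ha : 0 < a)
    (w : ℂ) (hw : T (g Ψ a) w = 0) : ∫ t in -a..a, (K t : ℂ) * Complex.exp (-Complex.I *
      (Complex.I * (4 * π * exp (4 * a) : ℝ) + w / exp (-2 * a)) * t) = 0 := by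
  set σ := exp (-2 * a) with hσ
  have σ0 : 0 < σ := exp_pos _
  have E : exp (4 * a) = 1 / σ ^ 2 := by
    rw [hσ, ← exp_nat_mul, one_div, ← exp_neg]; congr 1; push_cast; ring
  have := intervalIntegral.integral_comp_sub_mul (a := 0) (b := 2 * a / σ) (fun t : ℝ => (K t : ℂ) *
    Complex.exp (-Complex.I * (Complex.I * (4 * π * exp (4 * a) : ℝ) + w / σ) * t)) σ0.ne' a
  rw [mul_zero, sub_zero, mul_div_cancel₀ _ σ0.ne', show a - 2 * a = -a by ring] at this
  refine (smul_eq_zero.1 (this.symm.trans ?_)).resolve_left (inv_ne_zero σ0.ne')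
  rw [intervalIntegral.integral_of_le (by positivity), integral_Ioc_eq_integral_Ioo,
    ← mul_zero (Complex.exp (((9 * a + π * (4 * a - 1) / σ ^ 2 : ℝ) : ℂ) - Complex.I * w * a / σ)),
    ← hw, T, ← integral_const_mul, ← Ioi_inter_Iio, ← setIntegral_indicator measurableSet_Iio]
  refine integral_congr_ae (Eventually.of_forall fun s => ?_)
  simp only [indicator, mem_Iio, g, ← hσ]
  split_ifs
  swap; · simp
  have e : exp (4 * (a - σ * s)) = exp (-(4 * σ * s)) / σ ^ 2 := by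
    rw [mul_sub, sub_eq_add_neg, exp_add, E, mul_assoc]; ring
  have σ1 : (σ : ℂ) ≠ 0 := by exact_mod_cast σ0.ne'
  rw [hK, e, E]
  generalize exp (-(4 * σ * s)) = X
  simp only [Complex.ofReal_mul, Complex.ofReal_exp]
  rw [mul_left_comm (Complex.exp _)]
  simp only [mul_assoc, ← Complex.exp_add]
  congr 2; push_cast; field_simp
  linear_combination (-4 * π * (a - σ * s) : ℂ) * Complex.I_sq

theorem zeros (Ψ K : ℝ → ℝ) (hK : ∀ t, K t = Ψ t * exp (9 * t - π * exp (4 * t)))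
    (hm : Measurable Ψ) (C : ℝ) (hC : ∀ t, |Ψ t| ≤ C) (ℓ : ℝ) (h0 : ℓ ≠ 0)
    (hl : Tendsto Ψ atTop (𝓝 ℓ)) (H : ℝ) : ∀ᶠ a in atTop, ∃ z : ℂ, H < z.im ∧
      ∫ t in -a..a, (K t : ℂ) * Complex.exp (-Complex.I * z * t) = 0 := by
  have b0 : 0 < 8 * π := by positivity
  obtain ⟨⟨w₀, hw₀⟩, h1⟩ := gauss_zero _ b0
  set γ : ℝ → ℝ := fun s => exp (-(8 * π) * s ^ 2) with hγ
  obtain ⟨r, r0, m, m0, hm0⟩ := hurwitz (fun w => ℓ * T γ w) ((T_gauss_diff _ b0).const_mul _) w₀ 0
    (by simp [hw₀]) (mul_ne_zero (by exact_mod_cast h0) h1)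
  set R := ‖w₀‖ + r + 2
  have R0 : 0 < R := by positivity
  have hR : ∀ w ∈ closedBall w₀ r, ‖w‖ < R - 1 := fun w hw => by
    have := norm_le_of_mem_closedBall hw; simp only [R]; linarith
  have gm : ∀ a, Measurable (g Ψ a) := fun a =>
    Measurable.ite measurableSet_Iio (by fun_prop) measurable_const
  have ev : ∀ᶠ a in atTop, exp (-2 * a) * R ≤ 1 :=
    (sig.mul_const R).eventually (ge_mem_nhds (by simp))
  have I0 : IntegrableOn (fun s => C * exp (R ^ 2) * exp (-(R * s))) (Ioi 0) := by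
    simpa only [neg_mul, IntegrableOn] using (exp_neg_integrableOn_Ioi 0 R0).const_mul (C * exp (R ^ 2))
  have gi : ∀ a, exp (-2 * a) * R ≤ 1 → IntegrableOn (fun s => |g Ψ a s| * exp (R * s)) (Ioi 0) :=
    fun a ha => I0.mono' (Measurable.aestronglyMeasurable (by have := gm a; fun_prop))
      ((ae_restrict_mem measurableSet_Ioi).mono fun s hs => by
        rw [Real.norm_of_nonneg (by positivity)]; exact g_bd Ψ C hC R a s R0.le hs ha)
  have I1 := (gauss_int _ R b0).const_mul |ℓ|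
  have tri : ∀ a s, |g Ψ a s - ℓ * γ s| * exp (R * s) ≤
      |g Ψ a s| * exp (R * s) + |ℓ| * (|γ s| * exp (R * s)) := fun a s => by
    rw [← mul_assoc, ← add_mul, ← abs_mul]; gcongr; exact abs_sub _ _
  have D := tendsto_integral_filter_of_dominated_convergence (μ := volume.restrict (Ioi 0))
    (l := atTop) (F := fun a s => |g Ψ a s - ℓ * γ s| * exp (R * s)) (f := fun _ => 0) _
    (Eventually.of_forall fun a => Measurable.aestronglyMeasurable (by have := gm a; fun_prop))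
    (ev.mono fun a ha => (ae_restrict_mem measurableSet_Ioi).mono fun s hs => by
      rw [Real.norm_of_nonneg (by positivity)]
      exact (tri a s).trans (add_le_add (g_bd Ψ C hC R a s R0.le hs ha) le_rfl)) (I0.add I1)
    ((ae_restrict_mem measurableSet_Ioi).mono fun s hs => by
      simpa [hγ] using ((g_lim Ψ ℓ hl s hs).sub_const (ℓ * γ s)).abs.mul_const (exp (R * s)))
  rw [integral_zero] at D
  have big : ∀ᶠ a in atTop, H < exp (2 * a) :=
    (tendsto_exp_atTop.comp (tendsto_id.const_mul_atTop two_pos)).eventually_gt_atTop H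
  filter_upwards [ev, D.eventually (gt_mem_nhds m0), big, eventually_gt_atTop 0] with a h2 h3 h4 h5
  obtain ⟨w, hw, hz⟩ := hm0 (T (g Ψ a)) ((T_diff _ (gm a) (R - 1) (by simpa using gi a h2)).mono
    fun w hw => mem_ball_zero_iff.2 (hR w hw)) fun w hw => by
      have q : ‖w‖ ≤ R := by linarith [hR w hw]
      rw [T, T, ← integral_const_mul, ← integral_sub (T_int _ (gm a) R (gi a h2) w q)
        ((T_int γ (by fun_prop) R (gauss_int _ R b0) w q).const_mul _)]
      refine lt_of_le_of_lt (norm_integral_le_of_norm_le (((gi a h2).add I1).mono'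
        (Measurable.aestronglyMeasurable (by have := gm a; fun_prop))
        (Eventually.of_forall fun s => by
          rw [Real.norm_of_nonneg (by positivity)]; exact tri a s))
        ((ae_restrict_mem measurableSet_Ioi).mono fun s hs => ?_)) h3
      have := nexp (fun s => g Ψ a s - ℓ * γ s) w R s q (le_of_lt hs)
      rwa [Complex.ofReal_sub, Complex.ofReal_mul, sub_mul, mul_assoc (ℓ : ℂ)] at this
  refine ⟨_, ?_, resc Ψ K hK a h5 w hz⟩
  have e : exp (-2 * a) * exp (2 * a) = 1 := by rw [← exp_add]; simp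
  have e2 : exp (4 * a) = exp (2 * a) * exp (2 * a) := by rw [← exp_add]; ring_nf
  have e3 : 1 ≤ exp (2 * a) := one_le_exp (by linarith)
  have e4 : R ≤ exp (2 * a) := by nlinarith
  have e5 : -R ≤ w.im := by linarith [neg_abs_le w.im, Complex.abs_im_le_norm w, hR w hw]
  rw [Complex.add_im, Complex.div_ofReal_im, Complex.I_mul_im, Complex.ofReal_re, e2,
    eq_inv_of_mul_eq_one_left e, div_inv_eq_mul]
  nlinarith [pi_gt_three, mul_le_mul_of_nonneg_right e5 (exp_pos (2 * a)).le,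
    mul_le_mul_of_nonneg_right e4 (exp_pos (2 * a)).le,
    mul_le_mul_of_nonneg_right e3 (exp_pos (2 * a)).le]

/-- the kernel of the Riemann Xi function -/
noncomputable def Φ (t : ℝ) : ℝ := ∑' n : ℕ, (2 * π ^ 2 * ((n : ℝ) + 1) ^ 4 * exp (9 * t) -
  3 * π * ((n : ℝ) + 1) ^ 2 * exp (5 * t)) * exp (-π * ((n : ℝ) + 1) ^ 2 * exp (4 * t))

noncomputable def c (n : ℕ) (u : ℝ) : ℝ := (2 * π ^ 2 * ((n : ℝ) + 1) ^ 4 -
  3 * π * ((n : ℝ) + 1) ^ 2 * exp (-4 * u)) * exp (-π * (((n : ℝ) + 1) ^ 2 - 1) * exp (4 * u))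

lemma Φ_eq (t : ℝ) : Φ t = (∑' n, c n t) * exp (9 * t - π * exp (4 * t)) := by
  rw [Φ, ← tsum_mul_right]
  refine tsum_congr fun n => ?_
  rw [c, show 5 * t = -4 * t + 9 * t by ring, show -π * ((n : ℝ) + 1) ^ 2 * exp (4 * t) =
    -π * (((n : ℝ) + 1) ^ 2 - 1) * exp (4 * t) - π * exp (4 * t) by ring]
  simp only [exp_add, exp_sub]; ring

lemma c_bd (n : ℕ) (u : ℝ) (hu : 0 ≤ u) :
    0 < c n u ∧ c n u ≤ 32 * exp 1 * (((n + 1 : ℕ) : ℝ) ^ 4 * exp (-1 * (n + 1 : ℕ))) := by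
  have n0 : (0 : ℝ) ≤ n := n.cast_nonneg
  have h1 : exp (-4 * u) ≤ 1 := exp_le_one_iff.2 (by linarith)
  have h2 : 1 ≤ exp (4 * u) := one_le_exp (by linarith)
  have h3 : 1 ≤ ((n : ℝ) + 1) ^ 2 := one_le_pow₀ (by linarith)
  have p3 := pi_gt_three
  have p4 := pi_le_four
  have h4 : 0 < 3 * π * ((n : ℝ) + 1) ^ 2 := by positivity
  constructor
  · refine mul_pos ?_ (exp_pos _)
    have : 3 * π * ((n : ℝ) + 1) ^ 2 < 2 * π ^ 2 * ((n : ℝ) + 1) ^ 4 := by
      have : 3 < 2 * π * ((n : ℝ) + 1) ^ 2 := by nlinarith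
      nlinarith
    nlinarith
  · rw [mul_mul_mul_comm, ← exp_add]; push_cast
    refine mul_le_mul ?_ (exp_le_exp.2 ?_) (exp_pos _).le (by positivity)
    · have : π ^ 2 ≤ 16 := by nlinarith
      nlinarith [mul_pos h4 (exp_pos (-4 * u)), pow_pos (show (0 : ℝ) < n + 1 by linarith) 4]
    · have : (n : ℝ) ≤ π * (((n : ℝ) + 1) ^ 2 - 1) := by nlinarith
      nlinarith

lemma c_sum : Summable fun n : ℕ => 32 * exp 1 * (((n + 1 : ℕ) : ℝ) ^ 4 * exp (-1 * (n + 1 : ℕ))) :=
  ((summable_nat_add_iff 1).2 (summable_pow_mul_exp_neg_nat_mul 4 one_pos)).mul_left _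

lemma c_cont : Continuous fun t : ℝ => ∑' n, c n |t| :=
  continuous_tsum (fun n => by unfold c; fun_prop) c_sum fun n t => by
    rw [Real.norm_of_nonneg (c_bd n _ (abs_nonneg t)).1.le]; exact (c_bd n _ (abs_nonneg t)).2

lemma Φ_cont : Continuous fun t : ℝ => Φ |t| := by
  simp only [Φ_eq]; exact c_cont.mul (by fun_prop)

lemma Φ_pos (t : ℝ) (ht : 0 ≤ t) : 0 < Φ t := by
  rw [Φ_eq]
  exact mul_pos ((c_sum.of_nonneg_of_le (fun n => (c_bd n t ht).1.le) fun n => (c_bd n t ht).2).tsum_pos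
    (fun n => (c_bd n t ht).1.le) 0 (c_bd 0 t ht).1) (exp_pos _)

lemma c_lim : Tendsto (fun t => ∑' n, c n t) atTop (𝓝 (2 * π ^ 2)) := by
  have := tendsto_tsum_of_dominated_convergence (𝓕 := atTop) (f := fun t n => c n t)
    (g := fun n => if n = 0 then 2 * π ^ 2 else 0) c_sum (fun n => ?_)
    ((eventually_ge_atTop 0).mono fun t ht n => by
      rw [Real.norm_of_nonneg (c_bd n _ ht).1.le]; exact (c_bd n _ ht).2)
  · simpa using this
  have h1 : Tendsto (fun u : ℝ => exp (-4 * u)) atTop (𝓝 0) :=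
    tendsto_exp_atBot.comp (tendsto_id.const_mul_atTop_of_neg (by norm_num))
  have h2 := (h1.const_mul (3 * π * ((n : ℝ) + 1) ^ 2)).const_sub (2 * π ^ 2 * ((n : ℝ) + 1) ^ 4)
  split_ifs with h
  · subst h; simpa [c] using h2
  · have n1 : (1 : ℝ) ≤ n := by exact_mod_cast Nat.one_le_iff_ne_zero.2 h
    simpa [c] using h2.mul (tendsto_exp_atBot.comp ((tendsto_exp_atTop.comp
      (tendsto_id.const_mul_atTop four_pos)).const_mul_atTop_of_neg
        (show -π * (((n : ℝ) + 1) ^ 2 - 1) < 0 by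
          nlinarith [mul_pos pi_pos (show 0 < ((n : ℝ) + 1) ^ 2 - 1 by nlinarith)])))

theorem main (H : ℝ) : ∀ᶠ a in atTop, ∃ z : ℂ, H < z.im ∧
    ∫ t in (0 : ℝ)..a, (Φ t : ℂ) * Complex.cos (z * t) = 0 := by
  have := zeros (fun t => (∑' n, c n |t|) * exp (9 * |t| - π * exp (4 * |t|) - (9 * t - π * exp (4 * t))))
    (fun t => Φ |t|) (fun t => by rw [Φ_eq, mul_assoc, ← exp_add, sub_add_cancel])
    (c_cont.mul (by fun_prop)).measurable
    ((∑' n : ℕ, 32 * exp 1 * (((n + 1 : ℕ) : ℝ) ^ 4 * exp (-1 * (n + 1 : ℕ)))) * exp 2) (fun t => by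
      rw [abs_mul, abs_of_pos (exp_pos _)]
      refine mul_le_mul (tsum_of_norm_bounded c_sum.hasSum fun n => by
        rw [Real.norm_of_nonneg (c_bd n _ (abs_nonneg t)).1.le]; exact (c_bd n _ (abs_nonneg t)).2)
        (exp_le_exp.2 ?_) (exp_pos _).le (tsum_nonneg fun n => by positivity)
      rcases le_total 0 t with h | h
      · rw [abs_of_nonneg h]; simp
      · rw [abs_of_nonpos h]
        have h1 := quadratic_le_exp_of_nonneg (show 0 ≤ 4 * -t by linarith)
        have h2 : exp (4 * t) ≤ 1 := exp_le_one_iff.2 (by linarith)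
        have h3 : 0 ≤ exp (4 * -t) - exp (4 * t) := by nlinarith
        nlinarith [mul_le_mul_of_nonneg_right pi_gt_three.le h3, sq_nonneg (4 * t + 1)])
    (2 * π ^ 2) (by positivity) (c_lim.congr' ((eventually_ge_atTop 0).mono fun t ht => by
      simp [abs_of_nonneg ht])) H
  filter_upwards [this, eventually_ge_atTop 0] with a ⟨z, h1, h2⟩ ha
  refine ⟨z, h1, ?_⟩
  have ct : ∀ y : ℂ, Continuous fun t : ℝ => (Φ |t| : ℂ) * Complex.exp (y * t) := fun y =>
    (Complex.continuous_ofReal.comp Φ_cont).mul (by fun_prop)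
  rw [← intervalIntegral.integral_add_adjacent_intervals (b := 0) ((ct _).intervalIntegrable _ _)
    ((ct _).intervalIntegrable _ _)] at h2
  have h3 := intervalIntegral.integral_comp_neg (a := 0) (b := a)
    fun t : ℝ => (Φ |t| : ℂ) * Complex.exp (-Complex.I * z * t)
  rw [neg_zero] at h3
  rw [← h3, ← intervalIntegral.integral_add (((ct (-Complex.I * z)).comp' continuous_neg).intervalIntegrable _ _)
    ((ct _).intervalIntegrable _ _)] at h2
  rw [← mul_zero (1 / 2 : ℂ), ← h2, ← intervalIntegral.integral_const_mul]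
  refine intervalIntegral.integral_congr fun t ht => ?_
  rw [uIcc_of_le ha] at ht
  simp only [abs_neg, abs_of_nonneg ht.1, Complex.cos]; push_cast; ring_nf

end Pool.Agent.H28.Trunc
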