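import Mathlib

/-!
Varieties of (nonassociative, non-unital) algebras, and a relatively free algebra over the field
with two elements that is neither Hopfian nor residually finite.
-/

namespace Pool.Agent.H28.Variety

/-- the free nonassociative algebra without unit -/
abbrev Fr (F X : Type) [Field F] := FreeNonUnitalNonAssocAlgebra F X

/-- the algebra `A` satisfies all identities in `S`: they vanish under every substitution -/
def Sat {F : Type} [Field F] (S : Set (Fr F ℕ)) (A : Type) [NonUnitalNonAssocRing A] [Module F A] :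
    Prop :=
  ∀ s ∈ S, ∀ φ : Fr F ℕ →ₙₐ[F] A, φ s = 0

/-- `f` vanishes identically on every algebra of the variety defined by `S` -/
def InT {F : Type} [Field F] (S : Set (Fr F ℕ)) (n : ℕ) (f : Fr F (Fin n)) : Prop :=
  ∀ (A : Type) [NonUnitalNonAssocRing A] [Module F A] [IsScalarTower F A A] [SMulCommClass F A A],
    Sat S A → ∀ φ : Fr F (Fin n) →ₙₐ[F] A, φ f = 0

/-- `A` is the free algebra of rank `n` of the variety defined by `S`: it is the quotient of the
free nonassociative algebra on `n` generators by the ideal `T_n` -/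
def IsFree {F : Type} [Field F] (S : Set (Fr F ℕ)) (n : ℕ) (A : Type) [NonUnitalNonAssocRing A]
    [Module F A] : Prop :=
  ∃ π : Fr F (Fin n) →ₙₐ[F] A, Function.Surjective π ∧ ∀ f, π f = 0 ↔ InT S n f

open Finset FreeNonUnitalNonAssocAlgebra

abbrev F2 := ZMod 2

def r {A : Type} [Mul A] (x : A) : A := x * x

def l {A : Type} [Mul A] (x : A) : A := x * (x * x)

noncomputable def S : Set (Fr F2 ℕ) := {l (r (of F2 0)) - of F2 0}

section
variable {A A' : Type} [NonUnitalNonAssocRing A] [Module F2 A] [NonUnitalNonAssocRing A']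
  [Module F2 A']

lemma map_r (φ : A →ₙₐ[F2] A') (x : A) : φ (r x) = r (φ x) := map_mul φ _ _

lemma map_l (φ : A →ₙₐ[F2] A') (x : A) : φ (l x) = l (φ x) := by simp only [l, map_mul]

lemma sat_iff [IsScalarTower F2 A A] [SMulCommClass F2 A A] :
    Sat S A ↔ ∀ x : A, l (r x) = x := by
  constructor
  · intro h x
    have := h _ rfl (lift F2 fun _ => x)
    rwa [map_sub, map_l, map_r, lift_of_apply, sub_eq_zero] at this
  · rintro h s rfl φ
    rw [map_sub, map_l, map_r, h, sub_self]

end

lemma two_cases (c : F2) : c = 0 ∨ c = 1 := by revert c; decide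

lemma tower (A : Type) [NonUnitalNonAssocRing A] [Module F2 A] : IsScalarTower F2 A A :=
  ⟨fun c x y => by rcases two_cases c with rfl | rfl <;> simp⟩

lemma comm (A : Type) [NonUnitalNonAssocRing A] [Module F2 A] : SMulCommClass F2 A A :=
  ⟨fun c x y => by rcases two_cases c with rfl | rfl <;> simp⟩

/-! ### a model in which squaring is the shift and `l` the backward shift -/

def B : Type := ℕ → F2

instance : AddCommGroup B := inferInstanceAs (AddCommGroup (ℕ → F2))

instance : Module F2 B := inferInstanceAs (Module F2 (ℕ → F2))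

def mulB (x y : ℕ → F2) (n : ℕ) : F2 :=
  (if n = 0 then 0 else x (n - 1) * y (n - 1)) +
    ∑ k ∈ range (n + 2), (x (n + 1 - k) * y (n + 2 + k) + x (n + 2 + k) * y (n + 1 - k)) +
    ∑ k ∈ range (n - 1), (x (n - 2 - k) * y (n + k) + x (n + k) * y (n - 2 - k))

instance : NonUnitalNonAssocRing B where
  mul := mulB
  left_distrib x y z := funext fun n => by
    show mulB x (fun m => y m + z m) n = mulB x y n + mulB x z n
    simp only [mulB, mul_add, sum_add_distrib]
    split_ifs <;> ring
  right_distrib x y z := funext fun n => by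
    show mulB (fun m => x m + y m) z n = mulB x z n + mulB y z n
    simp only [mulB, add_mul, sum_add_distrib]
    split_ifs <;> ring
  zero_mul x := funext fun n => by
    show mulB (fun _ => 0) x n = 0
    simp [mulB]
  mul_zero x := funext fun n => by
    show mulB x (fun _ => 0) n = 0
    simp [mulB]

instance : IsScalarTower F2 B B := tower B

instance : SMulCommClass F2 B B := comm B

lemma sq2 (c : F2) : c * c = c := by revert c; decide

lemma add2 (c d : F2) : c + d = c - d := by revert c d; decide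

lemma sqB (x : ℕ → F2) (n : ℕ) : mulB x x n = if n = 0 then 0 else x (n - 1) := by
  have h : ∀ a b, x a * x b + x b * x a = 0 := fun a b => by rw [add2, mul_comm, sub_self]
  simp only [mulB, h, sum_const_zero, add_zero, sq2]

lemma lB (u : ℕ → F2) (n : ℕ) : mulB u (mulB u u) n = u (n + 1) := by
  have h1 : ∑ k ∈ range (n + 2), (u (n + 1 - k) * mulB u u (n + 2 + k) +
      u (n + 2 + k) * mulB u u (n + 1 - k)) = u (n + 1) := by
    have := sum_range_sub' (fun k => if k ≤ n + 1 then u (n + 1 - k) * u (n + 1 + k) else 0) (n + 2)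
    rw [if_pos (by omega), if_neg (by omega), sub_zero] at this
    rw [← sq2 (u (n + 1))]
    refine Eq.trans (sum_congr rfl fun k hk => ?_) this
    rw [mem_range] at hk
    rw [add2, sqB, sqB, if_neg (by omega), if_pos (by omega : k ≤ n + 1)]
    have e1 : n + 2 + k - 1 = n + 1 + k := by omega
    rw [e1]
    congr 1
    by_cases hk' : k = n + 1
    · rw [if_pos (by omega), if_neg (by omega), mul_zero]
    · rw [if_neg (by omega), if_pos (by omega), mul_comm]
      congr 2 <;> omega
  have h2 : ∑ k ∈ range (n - 1), (u (n - 2 - k) * mulB u u (n + k) +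
      u (n + k) * mulB u u (n - 2 - k)) = if n = 0 then 0 else u (n - 1) * mulB u u (n - 1) := by
    have := sum_range_sub' (fun k => if k + 2 ≤ n then u (n - 2 - k) * u (n - 1 + k) else 0) (n - 1)
    rw [if_neg (by omega : ¬ (n - 1 + 2 ≤ n)), sub_zero] at this
    refine Eq.trans (Eq.trans (sum_congr rfl fun k hk => ?_) this) ?_
    · rw [mem_range] at hk
      rw [add2, sqB, sqB, if_neg (by omega), if_pos (by omega : k + 2 ≤ n)]
      have e1 : n + k - 1 = n - 1 + k := by omega
      rw [e1]
      congr 1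
      by_cases hk' : k + 2 = n
      · rw [if_pos (by omega), if_neg (by omega), mul_zero]
      · rw [if_neg (by omega), if_pos (by omega), mul_comm]
        congr 2 <;> omega
    · rw [sqB]
      by_cases h0 : n = 0
      · rw [if_neg (by omega), if_pos h0]
      · by_cases h1 : n = 1
        · rw [if_neg (by omega), if_neg h0, if_pos (by omega), mul_zero]
        · rw [if_pos (by omega), if_neg h0, if_neg (by omega), mul_comm]
          congr 2
  have h3 : ∀ a b : F2, a + b + a = b := by decide
  rw [mulB, h1, h2, h3]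

lemma satB : Sat S B := sat_iff.2 fun x => funext fun n => by
  show mulB (mulB x x) (mulB (mulB x x) (mulB x x)) n = x n
  rw [lB, sqB, if_neg (by omega)]; rfl

/-! ### the relatively free algebra of rank one -/

def con : RingCon (Fr F2 (Fin 1)) where
  r f g := ∀ (A : Type) [NonUnitalNonAssocRing A] [Module F2 A] [IsScalarTower F2 A A]
    [SMulCommClass F2 A A], Sat S A → ∀ φ : Fr F2 (Fin 1) →ₙₐ[F2] A, φ f = φ g
  iseqv := ⟨fun _ _ _ _ _ _ _ _ => rfl, fun h A _ _ _ _ hA φ => (h A hA φ).symm,
    fun h h' A _ _ _ _ hA φ => (h A hA φ).trans (h' A hA φ)⟩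
  mul' h h' A _ _ _ _ hA φ := by rw [map_mul, map_mul, h A hA φ, h' A hA φ]
  add' h h' A _ _ _ _ hA φ := by rw [map_add, map_add, h A hA φ, h' A hA φ]

def Q : Type := con.Quotient

noncomputable instance : NonUnitalNonAssocRing Q :=
  inferInstanceAs (NonUnitalNonAssocRing con.Quotient)

noncomputable def mk (f : Fr F2 (Fin 1)) : Q := con.toQuotient f

lemma mk_surj : Function.Surjective mk := Quot.mk_surjective

lemma mk_eq {f g : Fr F2 (Fin 1)} : mk f = mk g ↔ con f g := con.eq

noncomputable instance : Module F2 Q := AddCommGroup.zmodModule fun x => by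
  obtain ⟨f, rfl⟩ := mk_surj x
  rw [two_nsmul]
  show mk (f + f) = mk 0
  rw [← two_smul F2 f]
  have : (2 : F2) = 0 := by decide
  rw [this, zero_smul]

instance : IsScalarTower F2 Q Q := tower Q

instance : SMulCommClass F2 Q Q := comm Q

noncomputable def π : Fr F2 (Fin 1) →ₙₐ[F2] Q where
  toFun := mk
  map_smul' c f := by
    rcases two_cases c with rfl | rfl
    · simp only [zero_smul, MonoidHom.id_apply]; rfl
    · simp only [one_smul, MonoidHom.id_apply]
  map_zero' := rfl
  map_add' _ _ := rfl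
  map_mul' _ _ := rfl

lemma isFree : IsFree S 1 Q :=
  ⟨π, mk_surj, fun f => (mk_eq (g := 0)).trans
    ⟨fun h A _ _ _ _ hA φ => (h A hA φ).trans (map_zero φ),
      fun h A _ _ _ _ hA φ => (h A hA φ).trans (map_zero φ).symm⟩⟩

lemma lr (x : Q) : l (r x) = x := by
  obtain ⟨f, rfl⟩ := mk_surj x
  show mk (l (r f)) = mk f
  rw [mk_eq]
  intro A _ _ _ _ hA φ
  rw [map_l, map_r, sat_iff.1 hA]

noncomputable def x0 : Q := π (of F2 0)

lemma rl : r (l x0) ≠ x0 := by
  intro h
  have h1 : con (r (l (of F2 0))) (of F2 0) := mk_eq.1 h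
  have h2 := h1 B satB (lift F2 fun _ => (fun n => if n = 0 then 1 else 0 : ℕ → F2))
  rw [map_r, map_l, lift_of_apply] at h2
  have h3 := (sqB _ 0).symm.trans (congrFun h2 0)
  simp at h3

noncomputable def φ0 : Fr F2 (Fin 1) →ₙₐ[F2] Fr F2 (Fin 1) := lift F2 fun _ => r (of F2 0)

noncomputable def φf : Q → Q := Quotient.lift (fun f => mk (φ0 f)) fun _ _ h =>
  mk_eq.2 fun A _ _ _ _ hA ψ => h A hA (ψ.comp φ0)

lemma φf_mk (f : Fr F2 (Fin 1)) : φf (π f) = π (φ0 f) := rfl

noncomputable def φ : Q →ₙₐ[F2] Q where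
  toFun := φf
  map_smul' c x := by
    obtain ⟨f, rfl⟩ : ∃ f, π f = x := mk_surj x
    rw [← map_smul, φf_mk, φf_mk, map_smul, map_smul]; rfl
  map_zero' := by
    rw [← map_zero π, φf_mk, map_zero]
  map_add' x y := by
    obtain ⟨f, rfl⟩ : ∃ f, π f = x := mk_surj x
    obtain ⟨g, rfl⟩ : ∃ f, π f = y := mk_surj y
    rw [← map_add, φf_mk, φf_mk, φf_mk, map_add, map_add]
  map_mul' x y := by
    obtain ⟨f, rfl⟩ : ∃ f, π f = x := mk_surj x
    obtain ⟨g, rfl⟩ : ∃ f, π f = y := mk_surj y
    rw [← map_mul, φf_mk, φf_mk, φf_mk, map_mul, map_mul]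

lemma φ_x0 : φ x0 = r x0 := by
  show π (φ0 (of F2 0)) = _
  rw [φ0, lift_of_apply, map_r]; rfl

lemma φ_surj : Function.Surjective φ := by
  have h : φ.comp (π.comp (lift F2 fun _ => l (of F2 0))) = π := by
    refine hom_ext F2 fun i => ?_
    have hi : i = 0 := Subsingleton.elim _ _
    subst hi
    show φ (π (lift F2 (fun _ => l (of F2 0)) (of F2 0))) = x0
    rw [lift_of_apply, map_l]
    show φ (l x0) = x0
    rw [map_l, φ_x0, lr]
  intro y
  obtain ⟨f, rfl⟩ : ∃ f, π f = y := mk_surj y
  exact ⟨π (lift F2 (fun _ => l (of F2 0)) f), congr($h f)⟩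

lemma φ_not_inj : ¬ Function.Injective φ := fun h =>
  rl (h (by rw [map_r, map_l, φ_x0, lr]))

lemma mem_all (I : Submodule F2 Q) (hI : ∀ a ∈ I, ∀ b, a * b ∈ I ∧ b * a ∈ I) [Finite (Q ⧸ I)] :
    r (l x0) - x0 ∈ I := by
  have hm : ∀ {a b c d : Q}, a - b ∈ I → c - d ∈ I → a * c - b * d ∈ I := by
    intro a b c d h1 h2
    have : a * c - b * d = (a - b) * c + b * (c - d) := by rw [sub_mul, mul_sub]; abel
    rw [this]
    exact I.add_mem (hI _ h1 c).1 (hI _ h2 b).2
  have hr : ∀ {a b : Q}, a - b ∈ I → r a - r b ∈ I := fun h => hm h h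
  have hl : ∀ {a b : Q}, a - b ∈ I → l a - l b ∈ I := fun h => hm h (hm h h)
  have key : ∀ i j : ℕ, r^[i] x0 - r^[i + j] x0 ∈ I → x0 - r^[j] x0 ∈ I := by
    intro i j
    induction i with
    | zero => simp
    | succ i ih =>
      intro h
      apply ih
      have := hl h
      rwa [Nat.add_right_comm, Function.iterate_succ_apply', Function.iterate_succ_apply', lr,
        lr] at this
  obtain ⟨j, hj⟩ : ∃ j : ℕ, x0 - r^[j + 1] x0 ∈ I := by
    obtain ⟨i, j, hij, h⟩ := Finite.exists_ne_map_eq_of_infinite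
      (fun i : ℕ => (Submodule.Quotient.mk (r^[i] x0) : Q ⧸ I))
    rcases lt_or_gt_of_ne hij with h1 | h1
    · obtain ⟨k, rfl⟩ := Nat.exists_eq_add_of_lt h1
      exact ⟨k, key i (k + 1) ((Submodule.Quotient.eq I).1 h)⟩
    · obtain ⟨k, rfl⟩ := Nat.exists_eq_add_of_lt h1
      exact ⟨k, key j (k + 1) ((Submodule.Quotient.eq I).1 h.symm)⟩
  rw [Function.iterate_succ_apply'] at hj
  have h1 := hr (hl hj)
  rw [lr] at h1
  have := I.sub_mem h1 hj
  rwa [sub_sub_sub_cancel_right] at this

end Pool.Agent.H28.Variety
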