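import Mathlib

set_option autoImplicit false

/-! A combinatorial Borsuk–Ulam theorem for `ℤ/p`, via cochains on lists. -/

namespace Pool.Agent.H28.ZpBU

open Function Finset

section Cochains

variable {V W F : Type} [CommRing F]

def d : List V → (List V → F) → F
  | [], _ => 0
  | x :: l, φ => φ l - d l (fun m => φ (x :: m))

lemma d_sub (l : List V) : ∀ φ ψ : List V → F, d l (fun m => φ m - ψ m) = d l φ - d l ψ := by
  induction l with
  | nil => intros; simp [d]
  | cons x l ih => intro φ ψ; simp only [d]; rw [ih]; ring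

lemma d_zero (l : List V) : d l (fun _ => (0 : F)) = 0 := by
  induction l with
  | nil => rfl
  | cons x l ih => simp only [d, ih, sub_zero]

lemma d_add (l : List V) : ∀ φ ψ : List V → F, d l (fun m => φ m + ψ m) = d l φ + d l ψ := by
  induction l with
  | nil => intros; simp [d]
  | cons x l ih => intro φ ψ; simp only [d]; rw [ih]; ring

lemma d_neg (l : List V) (φ : List V → F) : d l (fun m => -φ m) = -d l φ := by
  simpa [d_zero] using d_sub l (fun _ => 0) φ

lemma d_sum (l : List V) (n : ℕ) (φ : ℕ → List V → F) :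
    d l (fun m => ∑ i ∈ range n, φ i m) = ∑ i ∈ range n, d l (φ i) := by
  induction n with
  | zero => simp [d_zero]
  | succ n ih => simp only [sum_range_succ]; rw [d_add, ih]

lemma d_map (g : W → V) (l : List W) :
    ∀ φ : List V → F, d (l.map g) φ = d l (fun m => φ (m.map g)) := by
  induction l with
  | nil => intros; rfl
  | cons x l ih => intro φ; simp only [List.map_cons, d]; rw [ih]

lemma d_d (l : List V) : ∀ φ : List V → F, d l (fun m => d m φ) = 0 := by
  induction l with
  | nil => intros; rfl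
  | cons x l ih => intro φ; simp only [d]; rw [d_sub, ih]; ring

lemma d_supp (A : V → Prop) (l : List V) : ∀ φ : List V → F,
    (∀ m : List V, m.length + 1 = l.length → (∀ y ∈ m, A y) → φ m = 0) → (∀ y ∈ l, A y) →
    d l φ = 0 := by
  induction l with
  | nil => intros; rfl
  | cons x l ih =>
    intro φ h hA
    simp only [d]
    rw [h l rfl fun y hy => hA y (List.mem_cons_of_mem _ hy), ih, sub_zero]
    · intro m hm hmA
      refine h _ (by simp [← hm]) fun y hy => ?_
      rcases List.mem_cons.1 hy with rfl | hy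
      · exact hA _ List.mem_cons_self
      · exact hmA y hy
    · exact fun y hy => hA y (List.mem_cons_of_mem _ hy)

def pr (f g : W → V) : List W → (List V → F) → F
  | [], _ => 0
  | x :: l, φ => φ (f x :: g x :: l.map g) - pr f g l (fun m => φ (f x :: m))

lemma pr_sub (f g : W → V) (l : List W) :
    ∀ φ ψ : List V → F, pr f g l (fun m => φ m - ψ m) = pr f g l φ - pr f g l ψ := by
  induction l with
  | nil => intros; simp [pr]
  | cons x l ih => intro φ ψ; simp only [pr]; rw [ih]; ring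

lemma pr_d (f g : W → V) (l : List W) : ∀ φ : List V → F,
    d l (fun m => pr f g m φ) + pr f g l (fun m => d m φ) = φ (l.map g) - φ (l.map f) := by
  induction l with
  | nil => intros; simp [d, pr]
  | cons x l ih =>
    intro φ
    simp only [d, pr, List.map_cons]
    rw [d_sub, pr_sub, d_map]
    linear_combination ih (fun m => φ (f x :: m))

lemma pr_supp (f g : W → V) (A : V → Prop) (l : List W) : ∀ φ : List V → F,
    (∀ m : List V, m.length = l.length + 1 → (∀ y ∈ m, A y) → φ m = 0) →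
    (∀ y ∈ l, A (f y) ∧ A (g y)) → pr f g l φ = 0 := by
  induction l with
  | nil => intros; rfl
  | cons x l ih =>
    intro φ h hA
    simp only [pr]
    rw [h, ih, sub_zero]
    · intro m hm hmA
      refine h _ (by simp [hm]) fun y hy => ?_
      rcases List.mem_cons.1 hy with rfl | hy
      · exact (hA _ List.mem_cons_self).1
      · exact hmA y hy
    · exact fun y hy => hA y (List.mem_cons_of_mem _ hy)
    · simp
    · intro y hy
      simp only [List.mem_cons, List.mem_map] at hy
      rcases hy with rfl | rfl | ⟨z, hz, rfl⟩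
      · exact (hA _ List.mem_cons_self).1
      · exact (hA _ List.mem_cons_self).2
      · exact (hA z (List.mem_cons_of_mem _ hz)).2

def Alt (φ : List V → F) : Prop :=
  ∀ l1 : List V, (∀ x y l2, φ (l1 ++ x :: y :: l2) = -φ (l1 ++ y :: x :: l2)) ∧
    ∀ x l2, φ (l1 ++ x :: x :: l2) = 0

lemma Alt.cons {φ : List V → F} (h : Alt φ) (z : V) : Alt fun m => φ (z :: m) :=
  fun l1 => h (z :: l1)

lemma Alt.d {φ : List V → F} (h : Alt φ) : Alt fun m => d m φ := by
  intro l1
  induction l1 generalizing φ with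
  | nil =>
    refine ⟨fun x y l2 => ?_, fun x l2 => ?_⟩
    · simp only [List.nil_append, ZpBU.d]
      have : (fun m => φ (x :: y :: m)) = fun m => -φ (y :: x :: m) :=
        funext fun m => (h []).1 x y m
      rw [this, d_neg]
      ring
    · simp only [List.nil_append, ZpBU.d]
      have : (fun m => φ (x :: x :: m)) = fun _ => 0 := funext fun m => (h []).2 x m
      rw [this, d_zero]
      ring
  | cons z l1 ih =>
    refine ⟨fun x y l2 => ?_, fun x l2 => ?_⟩
    · simp only [List.cons_append, ZpBU.d]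
      have h1 := (ih (h.cons z)).1 x y l2
      simp only at h1
      rw [h1, (h l1).1 x y l2]
      ring
    · simp only [List.cons_append, ZpBU.d]
      have h1 := (ih (h.cons z)).2 x l2
      simp only at h1
      rw [h1, (h l1).2 x l2]
      ring

lemma Alt.map {φ : List V → F} (h : Alt φ) (g : W → V) : Alt fun m => φ (m.map g) := fun l1 =>
  ⟨fun x y l2 => by simpa using (h (l1.map g)).1 (g x) (g y) (l2.map g),
    fun x l2 => by simpa using (h (l1.map g)).2 (g x) (l2.map g)⟩

lemma Alt.dup_aux (x : V) (m2 m1 : List V) :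
    ∀ φ : List V → F, Alt φ → φ (x :: (m1 ++ x :: m2)) = 0 := by
  induction m1 with
  | nil => exact fun φ h => (h []).2 x m2
  | cons y m1 ih =>
    intro φ h
    have := (h []).1 x y (m1 ++ x :: m2)
    simp only [List.nil_append] at this
    rw [List.cons_append, this, ih _ (h.cons y), neg_zero]

lemma Alt.dup (l : List V) : ∀ φ : List V → F, Alt φ → ¬ l.Nodup → φ l = 0 := by
  induction l with
  | nil => intro φ _ h; simp at h
  | cons x l ih =>
    intro φ h hl
    by_cases hx : x ∈ l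
    · obtain ⟨m1, m2, rfl⟩ := List.append_of_mem hx
      exact Alt.dup_aux x m2 m1 φ h
    · exact ih _ (h.cons x) fun h' => hl (List.nodup_cons.2 ⟨hx, h'⟩)

def op (p : ℕ) (τ : V → V) : Bool → (List V → F) → List V → F
  | true, φ, l => ∑ i ∈ range p, φ (l.map τ^[i])
  | false, φ, l => φ l - φ (l.map τ)

lemma tele {p : ℕ} {τ : V → V} (hτ : τ^[p] = id) (φ : List V → F) (l : List V) :
    ∑ i ∈ range p, (φ (l.map τ^[i]) - φ (l.map τ^[i + 1])) = 0 := by
  rw [sum_range_sub' (fun i => φ (l.map τ^[i])), hτ]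
  simp

lemma op_op {p : ℕ} {τ : V → V} (hτ : τ^[p] = id) (b : Bool) (φ : List V → F) (l : List V) :
    op p τ b (op p τ (!b) φ) l = 0 := by
  rw [← tele hτ φ l]
  cases b
  · simp only [op, Bool.not_false, List.map_map, ← sum_sub_distrib, iterate_succ]
  · simp only [op, Bool.not_true, List.map_map, iterate_succ']

lemma op_sub (p : ℕ) (τ : V → V) (b : Bool) (φ ψ : List V → F) (l : List V) :
    op p τ b (fun m => φ m - ψ m) l = op p τ b φ l - op p τ b ψ l := by
  cases b
  · simp only [op]; ring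
  · simp only [op, sum_sub_distrib]

lemma d_op (p : ℕ) (τ : V → V) (b : Bool) (φ : List V → F) (l : List V) :
    d l (op p τ b φ) = op p τ b (fun m => d m φ) l := by
  cases b
  · simp only [op, d_map]
    exact d_sub l _ _
  · simp only [op, d_map]
    exact d_sum l p fun i m => φ (m.map τ^[i])

lemma op_map (p : ℕ) {τ : V → V} {T : W → W} {g : W → V} (h : Semiconj g T τ) (b : Bool)
    (φ : List V → F) (l : List W) :
    op p τ b φ (l.map g) = op p T b (fun m => φ (m.map g)) l := by
  cases b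
  · simp only [op, List.map_map, h.comp_eq]
  · simp only [op, List.map_map, (h.iterate_right _).comp_eq]

def Van (Ok : List V → Prop) (k : ℕ) (φ : List V → F) : Prop :=
  ∀ l : List V, l.length = k → Ok l → φ l = 0

lemma Van.d {Ok : List V → Prop} (hm : ∀ l m, Ok l → (∀ x ∈ m, x ∈ l) → Ok m) {k : ℕ}
    {φ : List V → F} (h : Van Ok k φ) : Van Ok (k + 1) fun m => d m φ := fun l hl ho =>
  d_supp (· ∈ l) l φ (fun m hm' hA => h m (by omega) (hm l m ho hA)) fun _ hy => hy

lemma ok_iter {Ok : List V → Prop} {τ : V → V} (hi : ∀ l, Ok l → Ok (l.map τ)) (l : List V)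
    (h : Ok l) (i : ℕ) : Ok (l.map τ^[i]) := by
  induction i with
  | zero => simpa using h
  | succ i ih => rw [iterate_succ', ← List.map_map]; exact hi _ ih

lemma Van.op {Ok : List V → Prop} {τ : V → V} (hi : ∀ l, Ok l → Ok (l.map τ)) (p : ℕ) (b : Bool)
    {k : ℕ} {φ : List V → F} (h : Van Ok k φ) : Van Ok k (op p τ b φ) := fun l hl ho => by
  cases b
  · simp only [ZpBU.op]
    rw [h l hl ho, h _ (by simpa using hl) (hi l ho), sub_zero]
  · exact sum_eq_zero fun i _ => h _ (by simpa using hl) (ok_iter hi l ho i)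

lemma exists_weight {Ω : Type} (p : ℕ) [hp : Fact p.Prime] (σ : Ω → Ω) (hσ : σ^[p] = id) :
    ∃ w : Ω → F, ∀ x, σ x ≠ x → ∑ i ∈ range p, w (σ^[i] x) = 1 := by
  classical
  have hper : ∀ x, IsPeriodicPt σ p x := fun x => congrFun hσ x
  have hmod : ∀ x i, σ^[i % p] x = σ^[i] x := fun x i => (hper x).iterate_mod_apply i
  let s : Setoid Ω := ⟨fun x y => ∃ i, σ^[i] x = y, fun x => ⟨0, rfl⟩, by
    rintro x _ ⟨i, rfl⟩
    refine ⟨(p - 1) * i, ?_⟩
    rw [← iterate_add_apply, show (p - 1) * i + i = p * i by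
      have := hp.out.pos
      obtain ⟨q, rfl⟩ : ∃ q, p = q + 1 := ⟨p - 1, by omega⟩
      simp [add_mul]]
    exact (hper x).mul_const i, by
    rintro x _ _ ⟨i, rfl⟩ ⟨j, rfl⟩
    exact ⟨j + i, iterate_add_apply _ _ _ _⟩⟩
  refine ⟨fun x => if x = (Quotient.mk s x).out then 1 else 0, fun x hx => ?_⟩
  have hq : ∀ i, Quotient.mk s (σ^[i] x) = Quotient.mk s x := fun i =>
    (Quotient.sound (⟨i, rfl⟩ : s x (σ^[i] x))).symm
  obtain ⟨i, hi⟩ : s x (Quotient.mk s x).out := s.symm (Quotient.mk_out x)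
  have hmin : minimalPeriod σ x = p := minimalPeriod_eq_prime (hper x) hx
  rw [sum_eq_single (i % p)]
  · simp only [hq, hmod, if_pos hi]
  · intro j hj hne
    simp only [hq]
    rw [if_neg]
    intro h
    refine hne (iterate_injOn_Iio_minimalPeriod (f := σ) (x := x) ?_ ?_ ?_)
    · rw [hmin]; exact mem_range.1 hj
    · rw [hmin]; exact Nat.mod_lt _ hp.out.pos
    · simp only [hmod, h, hi]
  · intro h
    exact absurd (mem_range.2 (Nat.mod_lt _ hp.out.pos)) h

def Adm (τ : V → V) (l : List V) : Prop :=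
  ∀ S : Set V, S.Nonempty → (∀ v ∈ S, v ∈ l) → τ '' S ≠ S

lemma Adm.mono {τ : V → V} (l m : List V) (h : Adm τ l) (hm : ∀ x ∈ m, x ∈ l) : Adm τ m :=
  fun S h1 h2 => h S h1 fun v hv => hm v (h2 v hv)

lemma Adm.map {p : ℕ} [hp : Fact p.Prime] {τ : V → V} (hτ : τ^[p] = id) (l : List V)
    (h : Adm τ l) : Adm τ (l.map τ) := by
  have hinj : Injective τ := by
    have := hp.out.pos
    obtain ⟨q, rfl⟩ : ∃ q, p = q + 1 := ⟨p - 1, by omega⟩
    rw [iterate_succ] at hτ
    exact Injective.of_comp (f := τ^[q]) (hτ ▸ injective_id)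
  intro S h1 h2 h3
  refine h S h1 (fun v hv => ?_) h3
  obtain ⟨u, hu, e⟩ := List.mem_map.1 (h2 (τ v) (h3 ▸ Set.mem_image_of_mem τ hv))
  exact hinj e ▸ hu

lemma exact_op {p : ℕ} [hp : Fact p.Prime] {τ : V → V} (hτ : τ^[p] = id) (b : Bool) {k : ℕ}
    {φ : List V → F} (ha : Alt φ) (h : Van (Adm τ) (k + 1) (op p τ b φ)) :
    ∃ ψ : List V → F, Alt ψ ∧ Van (Adm τ) (k + 1) fun l => φ l - op p τ (!b) ψ l := by
  obtain ⟨w0, hw0⟩ := exists_weight (F := F) p (Set.image τ) (by
    rw [← Set.image_iterate_eq, hτ]; ext; simp)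
  let w : List V → F := fun l => w0 {v | v ∈ l}
  have hset : ∀ (g : V → V) (l : List V), {v | v ∈ l.map g} = g '' {v | v ∈ l} := fun g l => by
    ext; simp
  have hw : ∀ l : List V, l.length = k + 1 → Adm τ l → ∑ i ∈ range p, w (l.map τ^[i]) = 1 := by
    intro l hl ho
    simp only [w, hset, Set.image_iterate_eq]
    refine hw0 _ (ho _ ?_ fun _ hv => hv)
    obtain ⟨x, hx⟩ := List.exists_mem_of_length_pos (l := l) (by omega)
    exact ⟨x, hx⟩
  have hsw : ∀ (l1 l2 : List V) x y, w (l1 ++ x :: y :: l2) = w (l1 ++ y :: x :: l2) := by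
    intro l1 l2 x y
    simp only [w]
    congr 1
    ext v
    simp only [List.mem_append, List.mem_cons, Set.mem_setOf_eq]
    tauto
  cases b
  · refine ⟨fun l => w l * φ l, fun l1 => ⟨fun x y l2 => ?_, fun x l2 => ?_⟩, fun l hl ho => ?_⟩
    · simp only [hsw l1 l2 x y, (ha l1).1 x y l2, mul_neg]
    · simp only [(ha l1).2 x l2, mul_zero]
    · have h1 : ∀ i, φ (l.map τ^[i]) = φ l := by
        intro i
        induction i with
        | zero => simp
        | succ i ih =>
          have := h _ (by simpa using hl) (ok_iter (Adm.map hτ) l ho i)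
          simp only [op, List.map_map, ← iterate_succ'] at this
          rw [← ih, sub_eq_zero.1 this]
      simp only [op, Bool.not_false, h1, ← sum_mul, hw l hl ho, one_mul, sub_self]
  · refine ⟨fun l => ∑ i ∈ range p, w (l.map τ^[i]) * ∑ j ∈ range i, φ (l.map τ^[j]),
      fun l1 => ⟨fun x y l2 => ?_, fun x l2 => ?_⟩, fun l hl ho => ?_⟩
    · rw [← sum_neg_distrib]
      refine sum_congr rfl fun i _ => ?_
      rw [← mul_neg, ← sum_neg_distrib]
      congr 1
      · simp only [List.map_append, List.map_cons, hsw]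
      · exact sum_congr rfl fun j _ => ((ha.map τ^[j]) l1).1 x y l2
    · refine sum_eq_zero fun i _ => ?_
      rw [sum_eq_zero fun j _ => ((ha.map τ^[j]) l1).2 x l2, mul_zero]
    · have h0 : ∑ j ∈ range p, φ (l.map τ^[j]) = 0 := h l hl ho
      have h1 := sum_range_sub' (fun i => w (l.map τ^[i]) * ∑ j ∈ range i, φ (l.map τ^[j])) p
      have h2 := tele hτ w l
      rw [sum_sub_distrib, hw l hl ho] at h2
      rw [h0, sum_sub_distrib] at h1
      simp only [sum_range_succ' (fun j => φ (l.map τ^[j])), mul_add, sum_add_distrib,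
        ← sum_mul, iterate_zero, List.map_id] at h1
      simp only [op, Bool.not_true, List.map_map, ← iterate_succ]
      simp only [range_zero, sum_empty, mul_zero, sub_zero] at h1
      linear_combination -h1 + φ l * h2

end Cochains

theorem no_label {X V : Type} [Fintype V] (p : ℕ) [hp : Fact p.Prime] (T : X → X) (τ : V → V)
    (hT : T^[p] = id) (hτ : τ^[p] = id) (lab : X → V) (hl : Semiconj lab T τ)
    (Ok : ℕ → List X → Prop) (hm : ∀ j l m, Ok j l → (∀ x ∈ m, x ∈ l) → Ok j m)
    (hi : ∀ j l, Ok j l → Ok j (l.map T))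
    (hh : ∀ j < Fintype.card V, ∃ (M : ℕ) (h : ℕ → X → X) (e : X), h 0 = id ∧ (∀ x, h M x = e) ∧
      Ok (j + 1) [e] ∧ ∀ l, Ok j l → ∀ i < M, Ok (j + 1) (l.map (h i) ++ l.map (h (i + 1))))
    (ha : ∀ j ≤ Fintype.card V, ∀ l, Ok j l → Adm τ (l.map lab)) (x0 : X) (h0 : Ok 0 [x0]) :
    False := by
  classical
  let b : ℕ → Bool := fun k => Nat.rec false (fun _ c => !c) k
  have hb : ∀ k, b (k + 1) = !b k := fun k => rfl
  let u : List V → ZMod p := fun l => if l = [] then 1 else 0
  have hu : Alt u := fun l1 => ⟨fun x y l2 => by simp [u], fun x l2 => by simp [u]⟩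
  have hstep : ∀ k (φ : List V → ZMod p), ∃ ψ : List V → ZMod p,
      (Alt φ ∧ Van (Adm τ) (k + 1) (op p τ (b k) fun m => d m φ)) →
      (Alt ψ ∧ Van (Adm τ) (k + 1 + 1) (op p τ (b (k + 1)) fun m => d m ψ)) ∧
        Van (Adm τ) (k + 1) fun l => d l φ - op p τ (b (k + 1)) ψ l := by
    intro k φ
    by_cases h : Alt φ ∧ Van (Adm τ) (k + 1) (op p τ (b k) fun m => d m φ)
    · obtain ⟨ψ, h1, h2⟩ := exact_op hτ (b k) h.1.d h.2
      refine ⟨ψ, fun _ => ⟨⟨h1, fun l hl ho => ?_⟩, h2⟩⟩
      have := h2.d Adm.mono l hl ho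
      simp only at this
      rw [d_sub, d_d, zero_sub, neg_eq_zero, d_op] at this
      exact this
    · exact ⟨φ, fun h' => absurd h' h⟩
  choose s hs using hstep
  let c : ℕ → List V → ZMod p := fun k => Nat.rec u s k
  have hc : ∀ k, Alt (c k) ∧ Van (Adm τ) (k + 1) (op p τ (b k) fun m => d m (c k)) := by
    intro k
    induction k with
    | zero =>
      refine ⟨hu, fun l hl _ => ?_⟩
      obtain ⟨x, rfl⟩ := List.length_eq_one_iff.1 hl
      simp [b, c, op, d]
    | succ k ih => exact (hs k _ ih).1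
  have hc' : ∀ k, Van (Adm τ) (k + 1) fun l => d l (c k) - op p τ (b (k + 1)) (c (k + 1)) l :=
    fun k => (hs k _ (hc k)).2
  have poin : ∀ j < Fintype.card V, ∀ (k : ℕ) (φ : List X → ZMod p),
      Van (Ok (j + 1)) (k + 1) (fun m => d m φ) →
      ∃ γ : List X → ZMod p, Van (Ok j) k fun m => φ m - d m γ := by
    intro j hj k φ hφ
    obtain ⟨M, h, e, h1, h2, h3, h4⟩ := hh j hj
    refine ⟨fun m => φ (e :: m.map (h M)) - ∑ i ∈ range M, pr (h i) (h (i + 1)) m φ,
      fun l hl ho => ?_⟩
    have e1 : ∀ i ∈ range M, d l (fun m => pr (h i) (h (i + 1)) m φ) =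
        φ (l.map (h (i + 1))) - φ (l.map (h i)) := fun i hi' => by
      rw [← pr_d, pr_supp (h i) (h (i + 1)) (· ∈ l.map (h i) ++ l.map (h (i + 1))) l _
        (fun m hm' hA => hφ m (by omega) (hm _ _ _ (h4 l ho i (mem_range.1 hi')) hA))
        (fun y hy => ⟨List.mem_append_left _ (List.mem_map_of_mem hy),
          List.mem_append_right _ (List.mem_map_of_mem hy)⟩), add_zero]
    have e2 := hφ (e :: l.map (h M)) (by simp [hl]) (hm _ _ _ h3 fun y hy => by
      simp only [List.mem_cons, List.mem_map] at hy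
      rcases hy with rfl | ⟨z, -, rfl⟩
      · simp
      · simp [h2])
    simp only [d] at e2
    rw [d_map] at e2
    simp only
    rw [d_sub, d_sum, sum_congr rfl e1, sum_range_sub (fun i => φ (l.map (h i))), h1, List.map_id]
    linear_combination e2
  have main : ∀ n k, k + n = Fintype.card V → ∃ β : List X → ZMod p,
      Van (Ok k) (k + 1) fun l => d l fun m => c k (m.map lab) - op p T (b (k + 1)) β m := by
    intro n
    induction n with
    | zero =>
      intro k hk
      refine ⟨fun _ => 0, fun l hl _ => ?_⟩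
      have : ∀ m, op p T (b (k + 1)) (fun _ => (0 : ZMod p)) m = 0 := fun m => by
        cases b (k + 1) <;> simp [op]
      simp only [this, sub_zero]
      rw [← d_map]
      refine Alt.dup _ _ (hc k).1.d fun hn => ?_
      have := hn.length_le_card
      rw [List.length_map] at this
      omega
    | succ n ih =>
      intro k hk
      obtain ⟨β, hβ⟩ := ih (k + 1) (by omega)
      obtain ⟨γ, hγ⟩ := poin k (by omega) (k + 1) _ hβ
      refine ⟨γ, fun l hl' ho => ?_⟩
      have e1 := hγ.op (hi k) p (b (k + 1)) l hl' ho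
      rw [op_sub, op_sub, hb (k + 1), op_op hT, ← op_map p hl, ← d_op] at e1
      have e2 := hc' k (l.map lab) (by simpa using hl') (ha k (by omega) l ho)
      simp only at e2 ⊢
      rw [d_sub, ← d_map]
      linear_combination e1 + e2
  obtain ⟨β, hβ⟩ := main _ 0 (zero_add _)
  have := hβ [x0] rfl h0
  simp [d, c, u, b, op] at this

open ZMod in
/-- Borsuk–Ulam for `ℤ/p` acting by roots of unity on an `ℓ¹`-sphere of large dimension. -/
theorem bu (p : ℕ) [hp : Fact p.Prime] (J : Type) [Fintype J] : ∃ N : ℕ,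
    ∀ Y : (Fin N → ℂ) → J → ℝ, ContinuousOn Y {z | ∑ i, ‖z i‖ = 1} →
      (∀ z, ∑ i, ‖z i‖ = 1 → ∀ j, ∑ k : ZMod p, Y (stdAddChar k • z) j = 0) →
      ∃ z, ∑ i, ‖z i‖ = 1 ∧ ∀ (k : ZMod p) j, Y (stdAddChar k • z) j = 0 := by
  classical
  let K := Fintype.card (Set (J × ZMod p))
  refine ⟨K + 1, fun Y hY hsum => ?_⟩
  by_contra hne
  push Not at hne
  set S : Set (Fin (K + 1) → ℂ) := {z | ∑ i, ‖z i‖ = 1} with hS
  have hn : ∀ k : ZMod p, ‖stdAddChar k‖ = 1 := fun k => by
    rw [stdAddChar_apply, Circle.norm_coe]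
  have hrot : ∀ (k : ZMod p), ∀ z ∈ S, stdAddChar k • z ∈ S := fun k z hz => by
    simpa [hS, hn] using hz
  have hle : ∀ z ∈ S, ‖z‖ ≤ 1 := fun z hz => (pi_norm_le_iff_of_nonneg zero_le_one).2 fun i =>
    (single_le_sum (f := fun i => ‖z i‖) (fun _ _ => norm_nonneg _) (mem_univ i)).trans_eq hz
  have hSc : IsCompact S := Metric.isCompact_of_isClosed_isBounded
    (isClosed_eq (by fun_prop) continuous_const)
    ((Metric.isBounded_closedBall (x := 0) (r := 1)).subset fun z hz => by
      simpa using hle z hz)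
  let y : (Fin (K + 1) → ℂ) → J × ZMod p → ℝ := fun z q => Y (stdAddChar q.2 • z) q.1
  have hy : ContinuousOn y S := continuousOn_pi.2 fun q =>
    (continuous_apply q.1).comp_continuousOn
      (hY.comp (continuous_const_smul _).continuousOn fun z hz => hrot q.2 z hz)
  let f : (Fin (K + 1) → ℂ) → ℝ := fun z => ‖fun q => max (y z q) 0‖
  have hf : ContinuousOn f S :=
    (continuousOn_pi.2 fun q => ((continuousOn_pi.1 hy q).sup continuousOn_const)).norm
  have hf0 : ∀ z ∈ S, 0 < f z := fun z hz => by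
    refine norm_pos_iff.2 fun h => ?_
    obtain ⟨k, j, hk⟩ := hne z hz
    refine hk ((sum_eq_zero_iff_of_nonpos fun k' _ => ?_).1 (hsum z hz j) k (mem_univ _))
    exact max_eq_right_iff.1 (congrFun h (j, k'))
  obtain ⟨μ, hμ, hμf⟩ := hSc.exists_forall_le' hf hf0
  obtain ⟨η', hη', hu⟩ := Metric.uniformContinuousOn_iff.1
    (hSc.uniformContinuousOn_of_continuous hy) μ hμ
  let lab : (Fin (K + 1) → ℂ) → Set (J × ZMod p) := fun z => {q | ∀ q', y z q' ≤ y z q}
  have hlab : ∀ z ∈ S, ∀ z' ∈ S, dist z z' < η' → ∀ q ∈ lab z', 0 < y z q := by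
    intro z hz z' hz' hd q hq
    have h1 : μ ≤ max (y z' q) 0 := (hμf z' hz').trans
      ((pi_norm_le_iff_of_nonneg (le_max_right _ _)).2 fun q' => by
        rw [Real.norm_of_nonneg (le_max_right _ _)]
        exact max_le_max (hq q') le_rfl)
    have h2 : μ ≤ y z' q := (le_max_iff.1 h1).resolve_right hμ.not_ge
    have h3 := (dist_le_pi_dist (y z) (y z') q).trans_lt (hu z hz z' hz' hd)
    rw [Real.dist_eq, abs_lt] at h3
    linarith [h3.1]
  let sh : J × ZMod p → J × ZMod p := fun q => (q.1, q.2 + 1)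
  have hsh : ∀ (n : ℕ) q, sh^[n] q = (q.1, q.2 + n) := fun n => by
    induction n with
    | zero => simp
    | succ n ih => intro q; rw [iterate_succ_apply', ih]; simp [sh, add_assoc]
  have hT : ∀ (n : ℕ) (z : Fin (K + 1) → ℂ),
      (fun z => stdAddChar (1 : ZMod p) • z)^[n] z = stdAddChar (n : ZMod p) • z := fun n => by
    induction n with
    | zero => simp
    | succ n ih =>
      intro z
      rw [iterate_succ_apply', ih, smul_smul, ← AddChar.map_add_eq_mul, add_comm (1 : ZMod p),
        Nat.cast_succ]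
  have hyT : ∀ z q, y (stdAddChar (1 : ZMod p) • z) q = y z (sh q) := fun z q => by
    simp only [y, sh, smul_smul, AddChar.map_add_eq_mul]
  have hshs : Surjective sh := fun q => ⟨(q.1, q.2 - 1), by simp [sh]⟩
  let δ : ℝ := η' / (K + 2)
  have hδ : 0 < δ := by positivity
  obtain ⟨M, hM⟩ := exists_nat_gt (2 / δ)
  have hM0 : (0 : ℝ) < M := lt_trans (by positivity) hM
  have hMδ : 2 / (M : ℝ) ≤ δ := by
    rw [div_le_iff₀ hM0]
    rw [div_lt_iff₀ hδ] at hM
    linarith
  refine no_label (V := Set (J × ZMod p)) p (fun z => stdAddChar (1 : ZMod p) • z)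
    (Set.preimage sh) (funext fun z => by simp [hT]) (by
      rw [← Set.preimage_iterate_eq, show sh^[p] = id from funext fun q => by simp [hsh]]
      rfl) lab (fun z => ?_)
    (fun j l => (∀ x ∈ l, x ∈ S ∧ ∀ i : Fin (K + 1), j < i → x i = 0) ∧
      ∀ x ∈ l, ∀ x' ∈ l, dist x x' ≤ (j + 1) * δ)
    (fun j l m h hm => ⟨fun x hx => h.1 x (hm x hx), fun x hx x' hx' => h.2 x (hm x hx) x' (hm x' hx')⟩)
    (fun j l h => ⟨?_, ?_⟩) (fun j hj => ?_) (fun j hj l h T hT1 hT2 hT3 => ?_)
    (Pi.single 0 1) ⟨?_, ?_⟩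
  · ext q
    simp only [lab, Set.mem_setOf_eq, Set.mem_preimage, hyT]
    exact (hshs.forall (p := fun q' => y z q' ≤ y z (sh q))).symm
  · intro x hx
    obtain ⟨z, hz, rfl⟩ := List.mem_map.1 hx
    exact ⟨hrot _ _ (h.1 z hz).1, fun i hi => by simp [(h.1 z hz).2 i hi]⟩
  · intro x hx x' hx'
    obtain ⟨z, hz, rfl⟩ := List.mem_map.1 hx
    obtain ⟨z', hz', rfl⟩ := List.mem_map.1 hx'
    rw [dist_smul₀, hn, one_mul]
    exact h.2 z hz z' hz'
  · let i0 : Fin (K + 1) := ⟨j + 1, Nat.succ_lt_succ hj⟩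
    let e : Fin (K + 1) → ℂ := Pi.single i0 1
    have he : e ∈ S := by simp [hS, e, Pi.single_apply, apply_ite norm]
    have he' : ∀ i : Fin (K + 1), j + 1 < i → e i = 0 := fun i hi =>
      Pi.single_eq_of_ne (fun h => by rw [h] at hi; exact lt_irrefl _ hi) _
    refine ⟨M, fun i x => (1 - (i : ℝ) / M) • x + ((i : ℝ) / M) • e, e, by ext; simp,
      fun x => by simp [hM0.ne'], ⟨by simpa using ⟨he, he'⟩, by simp; positivity⟩,
      fun l hl i hi => ?_⟩
    have hmem : ∀ x ∈ l.map (fun x => (1 - (i : ℝ) / M) • x + ((i : ℝ) / M) • e) ++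
        l.map (fun x => (1 - ((i + 1 : ℕ) : ℝ) / M) • x + (((i + 1 : ℕ) : ℝ) / M) • e),
        ∃ z ∈ l, ∃ s : ℝ, (i : ℝ) / M ≤ s ∧ s ≤ (i + 1) / M ∧ x = (1 - s) • z + s • e := by
      intro x hx
      have : (i : ℝ) / M ≤ (i + 1) / M := by gcongr; linarith
      rcases List.mem_append.1 hx with hx | hx <;> obtain ⟨z, hz, rfl⟩ := List.mem_map.1 hx
      · exact ⟨z, hz, _, le_rfl, this, rfl⟩
      · exact ⟨z, hz, _, this, le_rfl, by push_cast; rfl⟩
    have hi1 : ((i : ℝ) + 1) / M ≤ 1 := by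
      rw [div_le_one hM0]
      exact_mod_cast hi
    have hi0 : 0 ≤ (i : ℝ) / M := by positivity
    refine ⟨fun x hx => ?_, fun x hx x' hx' => ?_⟩
    · obtain ⟨z, hz, s, hs1, hs2, rfl⟩ := hmem x hx
      refine ⟨?_, fun k hk => by simp [he' k hk, (hl.1 z hz).2 k (by omega)]⟩
      have : ∀ k, ‖((1 - s) • z + s • e) k‖ = (1 - s) * ‖z k‖ + s * ‖e k‖ := fun k => by
        by_cases hk : k = i0
        · have : z k = 0 := (hl.1 z hz).2 k (by rw [hk]; exact Nat.lt_succ_self j)
          simp only [Pi.add_apply, Pi.smul_apply, this, smul_zero, zero_add, norm_zero, mul_zero,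
            norm_smul, Real.norm_of_nonneg (show 0 ≤ s by linarith)]
        · have : e k = 0 := Pi.single_eq_of_ne hk _
          simp only [Pi.add_apply, Pi.smul_apply, this, smul_zero, add_zero, norm_zero, mul_zero,
            norm_smul, Real.norm_of_nonneg (show 0 ≤ 1 - s by linarith)]
      have h1 : ∑ k, ‖z k‖ = 1 := (hl.1 z hz).1
      have h2 : ∑ k, ‖e k‖ = 1 := he
      change ∑ k, _ = 1
      simp only [this, sum_add_distrib, ← mul_sum, h1, h2]
      ring
    · obtain ⟨z, hz, s, hs1, hs2, rfl⟩ := hmem x hx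
      obtain ⟨z', hz', s', hs1', hs2', rfl⟩ := hmem x' hx'
      have h1 : (1 - s) • z + s • e - ((1 - s') • z' + s' • e) =
          (1 - s) • (z - z') + (s - s') • (e - z') := by module
      have h2 := hl.2 z hz z' hz'
      rw [dist_eq_norm] at h2 ⊢
      have h3 : ‖e - z'‖ ≤ 2 := (norm_sub_le _ _).trans (by
        linarith [hle e he, hle z' (hl.1 z' hz').1])
      have h4 : |s - s'| ≤ 1 / M := by
        rw [add_div] at hs2 hs2'
        rw [abs_le]
        constructor <;> linarith
      rw [h1]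
      refine (norm_add_le _ _).trans ?_
      rw [norm_smul, norm_smul, Real.norm_of_nonneg (show 0 ≤ 1 - s by linarith), Real.norm_eq_abs]
      have h5 : |s - s'| * ‖e - z'‖ ≤ 1 / M * 2 := by gcongr
      have h6 : (1 - s) * ‖z - z'‖ ≤ ‖z - z'‖ := by
        nlinarith [norm_nonneg (z - z')]
      have h7 : 1 / (M : ℝ) * 2 = 2 / M := by ring
      push_cast
      linarith
  · obtain ⟨A, hA⟩ := hT1
    obtain ⟨z, hz, rfl⟩ := List.mem_map.1 (hT2 A hA)
    have hpos : ∀ B ∈ T, ∀ q ∈ B, 0 < y z q := fun B hB q hq => by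
      obtain ⟨z', hz', rfl⟩ := List.mem_map.1 (hT2 B hB)
      refine hlab z (h.1 z hz).1 z' (h.1 z' hz').1 ((h.2 z hz z' hz').trans_lt ?_) q hq
      have h1 : (j : ℝ) ≤ K := by exact_mod_cast hj
      have h2 : η' = (K + 2) * δ := by simp only [δ]; field_simp
      rw [h2]
      nlinarith
    have hit : ∀ n : ℕ, sh^[n] ⁻¹' lab z ∈ T := fun n => by
      induction n with
      | zero => exact hA
      | succ n ih =>
        rw [iterate_succ, Set.preimage_comp, ← hT3]
        exact Set.mem_image_of_mem _ ih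
    obtain ⟨k, j0, -⟩ := hne z (h.1 z hz).1
    obtain ⟨q, -, hq⟩ := exists_max_image univ (y z) ⟨(j0, k), mem_univ _⟩
    have hall : ∀ k : ZMod p, 0 < y z (q.1, k) := fun k =>
      hpos _ (hit (q.2 - k).val) _ (by
        rw [Set.mem_preimage, hsh]
        simpa [lab] using hq)
    exact (sum_pos (fun k _ => hall k) univ_nonempty).ne' (hsum z (h.1 z hz).1 q.1)
  · simp only [List.mem_singleton, forall_eq]
    refine ⟨by simp [hS, Pi.single_apply, apply_ite norm], fun i hi => ?_⟩
    exact Pi.single_eq_of_ne (fun h => by rw [h] at hi; exact lt_irrefl _ hi) _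
  · simp [hδ.le]

end Pool.Agent.H28.ZpBU
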